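import Pool.Agent.Work.MP_5b14b0_lc.Stmts

/-!
# One complete branch: the deletion gadgets and the leaf
-/

set_option autoImplicit false

namespace Pool.Agent.Work.MP_5b14b0_lc

open Finset

namespace Branch

/-! ### Labels -/

lemma pol_lev (k l j : ℕ) : (pol k l j).2.2.1 = l := by
  unfold pol gL
  split_ifs with h
  · exact h.symm
  · rfl

lemma ap_lev (k l : ℕ) : (ap k l).2.2.1 = l := by
  unfold ap
  split_ifs with h
  · exact h.symm
  · rfl

lemma pol_inj {k l : ℕ} : Function.Injective (pol k l) := by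
  intro i j hij
  unfold pol gL at hij
  split_ifs at hij with h
  · simpa using hij
  · simpa using hij

lemma pol_ne_ap (k l l' j : ℕ) : pol k l j ≠ ap k l' := by
  unfold pol gL ap
  split_ifs <;> simp

lemma pol_ne_xL (k l j i s : ℕ) : pol k l j ≠ xL k i s := by
  unfold pol gL xL
  split_ifs <;> simp

lemma ap_ne_xL (k l i s : ℕ) : ap k l ≠ xL k i s := by
  unfold ap xL
  split_ifs <;> simp

lemma xL_inj {k i s i' s' : ℕ} (h : xL k i s = xL k i' s') : i = i' ∧ s = s' := by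
  simpa [xL] using h

/-! ### Lists -/

lemma mem_del {n : ℕ} {h : List ℕ} {j : ℕ} : j ∈ del n h ↔ j < n ∧ j ∉ h := by
  simp [del]

lemma del_nodup (n : ℕ) (h : List ℕ) : (del n h).Nodup :=
  List.Nodup.filter _ List.nodup_range

lemma hex_nodup {n : ℕ} {h : List ℕ} (hh : HexOK n h) : h.Nodup := by
  obtain ⟨-, ⟨r, hr⟩, -⟩ := hh
  have : (h.rotate r).Nodup := hr.imp (fun hab => ne_of_lt hab)
  rwa [List.nodup_rotate] at this

lemma hex_card {n : ℕ} {h : List ℕ} (hh : HexOK n h) : h.toFinset.card = 6 := by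
  rw [List.toFinset_card_of_nodup (hex_nodup hh), hh.1]

lemma del_length {n : ℕ} {h : List ℕ} (hh : HexOK n h) : (del n h).length = n - 6 := by
  rw [← List.toFinset_card_of_nodup (del_nodup n h)]
  have h1 : (del n h).toFinset = Finset.range n \ h.toFinset := by
    ext j
    simp [mem_del]
  rw [h1, Finset.card_sdiff_of_subset, Finset.card_range, hex_card hh]
  intro j hj
  rw [Finset.mem_range]
  exact hh.2.2 j (List.mem_toFinset.1 hj)

lemma mem_Sl {n : ℕ} {h : List ℕ} {l j : ℕ} : j ∈ Sl n h l ↔ j < n ∧ j ∉ (del n h).take l := by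
  simp [Sl]

lemma delV_eq {n : ℕ} {h : List ℕ} {l : ℕ} (hl : l < (del n h).length) :
    delV n h l = (del n h)[l] := by
  simp [delV, hl]

lemma delV_mem {n : ℕ} {h : List ℕ} (hh : HexOK n h) {l : ℕ} (hl : l < n - 6) :
    delV n h l ∈ del n h := by
  have hl' : l < (del n h).length := by rw [del_length hh]; exact hl
  rw [delV_eq hl']
  exact List.getElem_mem hl'

lemma delV_not_hex {n : ℕ} {h : List ℕ} (hh : HexOK n h) {l : ℕ} (hl : l < n - 6) :
    delV n h l ∉ h := (mem_del.1 (delV_mem hh hl)).2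

lemma take_succ' {n : ℕ} {h : List ℕ} (hh : HexOK n h) {l : ℕ} (hl : l < n - 6) :
    (del n h).take (l + 1) = (del n h).take l ++ [delV n h l] := by
  have hl' : l < (del n h).length := by rw [del_length hh]; exact hl
  rw [delV_eq hl', List.take_append_getElem hl']

lemma delV_mem_Sl {n : ℕ} {h : List ℕ} (hh : HexOK n h) {l : ℕ} (hl : l < n - 6) :
    delV n h l ∈ (Sl n h l).toFinset := by
  have hl' : l < (del n h).length := by rw [del_length hh]; exact hl
  rw [List.mem_toFinset, mem_Sl]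
  refine ⟨(mem_del.1 (delV_mem hh hl)).1, ?_⟩
  have h1 : ((del n h).take (l + 1)).Nodup := (del_nodup n h).sublist (List.take_sublist _ _)
  rw [take_succ' hh hl, List.nodup_append] at h1
  intro h2
  exact h1.2.2 _ h2 _ (List.mem_singleton.2 rfl) rfl

lemma Sl_succ {n : ℕ} {h : List ℕ} (hh : HexOK n h) {l : ℕ} (hl : l < n - 6) :
    (Sl n h (l + 1)).toFinset = (Sl n h l).toFinset.erase (delV n h l) := by
  ext j
  rw [Finset.mem_erase, List.mem_toFinset, List.mem_toFinset, mem_Sl, mem_Sl, take_succ' hh hl]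
  simp only [List.mem_append, List.mem_singleton, not_or]
  tauto

lemma Sl_zero {n : ℕ} {h : List ℕ} : (Sl n h 0).toFinset = Finset.range n := by
  ext j
  rw [List.mem_toFinset, mem_Sl]
  simp

lemma hex_sub_Sl {n : ℕ} {h : List ℕ} (hh : HexOK n h) (l : ℕ) :
    h.toFinset ⊆ (Sl n h l).toFinset := by
  intro j hj
  rw [List.mem_toFinset] at hj ⊢
  rw [mem_Sl]
  refine ⟨hh.2.2 j hj, fun h1 => ?_⟩
  exact (mem_del.1 (List.mem_of_mem_take h1)).2 hj

lemma Sl_last {n : ℕ} {h : List ℕ} (hh : HexOK n h) : (Sl n h (n - 6)).toFinset = h.toFinset := by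
  ext j
  rw [List.mem_toFinset, List.mem_toFinset, mem_Sl, ← del_length hh, List.take_length, mem_del]
  constructor
  · rintro ⟨h1, h2⟩
    by_contra h3
    exact h2 ⟨h1, h3⟩
  · intro h1
    exact ⟨hh.2.2 j h1, fun h2 => h2.2 h1⟩

lemma mem_EdL {L : List ℕ} {e : ℕ × ℕ} : e ∈ EdL L ↔ e ∈ Ed L.toFinset := by
  simp only [EdL, Ed, List.mem_filter, Finset.mem_filter, Finset.mem_product, List.mem_toFinset,
    Bool.and_eq_true, Bool.or_eq_true, decide_eq_true_eq, List.all_eq_true]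
  constructor
  · rintro ⟨h1, h2, h3⟩
    exact ⟨List.mem_product.1 h1, h2, h3⟩
  · rintro ⟨h1, h2, h3⟩
    exact ⟨List.mem_product.2 h1, h2, h3⟩

lemma EdL_toFinset (L : List ℕ) : (EdL L).toFinset = Ed L.toFinset := by
  ext e
  rw [List.mem_toFinset, mem_EdL]

/-! ### Facet sets -/

lemma fsets_append (A C : List (List Lab)) : fsets (A ++ C) = fsets A ∪ fsets C := by
  simp [fsets]

lemma fsets_nil : fsets [] = ∅ := rfl

lemma mem_fsets {A : List (List Lab)} {F : Finset Lab} :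
    F ∈ fsets A ↔ ∃ G ∈ A, G.toFinset = F := by
  simp [fsets]

/-- the deletion facets which are not ports -/
def FR (S : Finset ℕ) (v : ℕ) (pl pl' : ℕ → Lab) (a a' : Lab) : Finset (Finset Lab) :=
  {S.image pl ∪ (S.erase v).image pl',
    {pl v, a'} ∪ ((S.erase v).filter (fun u => (u, v) ∈ Ed S ∨ (v, u) ∈ Ed S)).image pl'} ∪
    (Ed S).image (fun e =>
      ({a, pl e.1, pl e.2, a'} : Finset Lab) ∪ (({e.1, e.2} : Finset ℕ).erase v).image pl')

lemma FA_eq (S : Finset ℕ) (v : ℕ) (pl pl' : ℕ → Lab) (a a' : Lab) :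
    FA S v pl pl' a a' = {pF S pl a, pF (S.erase v) pl' a'} ∪ FR S v pl pl' a a' := by
  unfold FA FR
  ext F
  simp only [Finset.mem_union, Finset.mem_insert, Finset.mem_singleton]
  tauto

lemma fAd_eq {n : ℕ} {h : List ℕ} (hh : HexOK n h) (k : ℕ) {l : ℕ} (hl : l < n - 6) :
    fsets (fAd n h k l) =
      FR (Sl n h l).toFinset (delV n h l) (pol k l) (pol k (l + 1)) (ap k l) (ap k (l + 1)) := by
  have hS := Sl_succ hh hl
  set v := delV n h l with hv
  unfold fAd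
  rw [fsets_append, ← hv]
  unfold FR
  rw [Finset.union_comm]
  congr 1
  · -- two big facets
    have e1 : ((Sl n h l).map (pol k l) ++ (Sl n h (l + 1)).map (pol k (l + 1))).toFinset =
        (Sl n h l).toFinset.image (pol k l) ∪
          ((Sl n h l).toFinset.erase v).image (pol k (l + 1)) := by
      rw [List.toFinset_append, ← hS]
      ext x
      simp
    have e2 : ([pol k l v, ap k (l + 1)] ++
      ((Sl n h (l + 1)).filter (fun u => decide ((u, v) ∈ EdL (Sl n h l)) ||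
        decide ((v, u) ∈ EdL (Sl n h l)))).map (pol k (l + 1))).toFinset =
        {pol k l v, ap k (l + 1)} ∪ (((Sl n h l).toFinset.erase v).filter
          (fun u => (u, v) ∈ Ed (Sl n h l).toFinset ∨
            (v, u) ∈ Ed (Sl n h l).toFinset)).image (pol k (l + 1)) := by
      rw [← hS]
      ext x
      simp only [List.mem_toFinset, List.mem_append, List.mem_cons, List.not_mem_nil, or_false,
        List.mem_map, List.mem_filter, Bool.or_eq_true, decide_eq_true_eq, mem_EdL,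
        Finset.mem_union, Finset.mem_insert, Finset.mem_singleton, Finset.mem_image,
        Finset.mem_filter]
    unfold fsets
    simp only [List.map_cons, List.map_nil, List.toFinset_cons, List.toFinset_nil]
    rw [e1, e2]
    rfl
  · ext F
    rw [mem_fsets, Finset.mem_image]
    constructor
    · rintro ⟨G, hG, rfl⟩
      rw [List.mem_map] at hG
      obtain ⟨e, he, rfl⟩ := hG
      refine ⟨e, mem_EdL.1 he, ?_⟩
      ext x
      simp only [Finset.mem_union, Finset.mem_insert, Finset.mem_singleton, Finset.mem_image,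
        Finset.mem_erase, List.mem_toFinset, List.mem_filter, List.mem_cons, List.not_mem_nil,
        or_false, decide_eq_true_eq]
      constructor
      · rintro ((rfl | rfl | rfl | rfl) | ⟨j, ⟨h1, h2 | h2⟩, rfl⟩)
        · exact ⟨Or.inl rfl, (pol_ne_ap _ _ _ _).symm⟩
        · refine ⟨Or.inr (Or.inl rfl), fun h => ?_⟩
          have := congrArg (fun y : Lab => y.2.2.1) h
          simp only [pol_lev] at this
          omega
        · refine ⟨Or.inr (Or.inr (Or.inl rfl)), fun h => ?_⟩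
          have := congrArg (fun y : Lab => y.2.2.1) h
          simp only [pol_lev] at this
          omega
        · exact ⟨Or.inr (Or.inr (Or.inr (Or.inl rfl))), (pol_ne_ap _ _ _ _).symm⟩
        · subst h2
          exact ⟨Or.inr (Or.inr (Or.inr (Or.inr (Or.inl rfl)))), fun h => h1 (pol_inj h)⟩
        · subst h2
          exact ⟨Or.inr (Or.inr (Or.inr (Or.inr (Or.inr rfl)))), fun h => h1 (pol_inj h)⟩
      · rintro ⟨rfl | rfl | rfl | rfl | rfl | rfl, h1⟩
        · exact Or.inl (Or.inl rfl)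
        · exact Or.inl (Or.inr (Or.inl rfl))
        · exact Or.inl (Or.inr (Or.inr (Or.inl rfl)))
        · exact Or.inl (Or.inr (Or.inr (Or.inr rfl)))
        · exact Or.inr ⟨e.1, ⟨fun h => h1 (by rw [h]), Or.inl rfl⟩, rfl⟩
        · exact Or.inr ⟨e.2, ⟨fun h => h1 (by rw [h]), Or.inr rfl⟩, rfl⟩
    · rintro ⟨e, he, rfl⟩
      refine ⟨_, List.mem_map.2 ⟨e, mem_EdL.2 he, rfl⟩, ?_⟩
      ext x
      simp only [Finset.mem_union, Finset.mem_insert, Finset.mem_singleton, Finset.mem_image,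
        Finset.mem_erase, List.mem_toFinset, List.mem_filter, List.mem_cons, List.not_mem_nil,
        or_false, decide_eq_true_eq]
      constructor
      · rintro ⟨rfl | rfl | rfl | rfl | rfl | rfl, h1⟩
        · exact Or.inl (Or.inl rfl)
        · exact Or.inl (Or.inr (Or.inl rfl))
        · exact Or.inl (Or.inr (Or.inr (Or.inl rfl)))
        · exact Or.inl (Or.inr (Or.inr (Or.inr rfl)))
        · exact Or.inr ⟨e.1, ⟨fun h => h1 (by rw [h]), Or.inl rfl⟩, rfl⟩
        · exact Or.inr ⟨e.2, ⟨fun h => h1 (by rw [h]), Or.inr rfl⟩, rfl⟩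
      · rintro ((rfl | rfl | rfl | rfl) | ⟨j, ⟨h1, h2 | h2⟩, rfl⟩)
        · exact ⟨Or.inl rfl, (pol_ne_ap _ _ _ _).symm⟩
        · refine ⟨Or.inr (Or.inl rfl), fun h => ?_⟩
          have := congrArg (fun y : Lab => y.2.2.1) h
          simp only [pol_lev] at this
          omega
        · refine ⟨Or.inr (Or.inr (Or.inl rfl)), fun h => ?_⟩
          have := congrArg (fun y : Lab => y.2.2.1) h
          simp only [pol_lev] at this
          omega
        · exact ⟨Or.inr (Or.inr (Or.inr (Or.inl rfl))), (pol_ne_ap _ _ _ _).symm⟩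
        · subst h2
          exact ⟨Or.inr (Or.inr (Or.inr (Or.inr (Or.inl rfl)))), fun h => h1 (pol_inj h)⟩
        · subst h2
          exact ⟨Or.inr (Or.inr (Or.inr (Or.inr (Or.inr rfl)))), fun h => h1 (pol_inj h)⟩

lemma fLeaf_eq (q : ℕ → Lab) (w : Lab) (k : ℕ) :
    fsets (fLeafAt q w k) = FL q w (xL k) := by
  unfold fsets fLeafAt FL
  simp only [List.map_cons, List.map_nil, List.toFinset_cons, List.toFinset_nil]
  rfl

/-! ### The induction -/

/-- the facet of the port of level `l` -/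
def pt (n k : ℕ) (h : List ℕ) (l : ℕ) : Finset Lab := pF (Sl n h l).toFinset (pol k l) (ap k l)

/-- the vertices up to level `l` -/
def Vl (n k : ℕ) (h : List ℕ) (V : Finset Lab) (l : ℕ) : Finset Lab :=
  V ∪ ((List.range l).flatMap
    (fun l => ap k (l + 1) :: (Sl n h (l + 1)).map (pol k (l + 1)))).toFinset

/-- the facets up to level `l` without the port -/
def Fr (n k : ℕ) (h : List ℕ) (𝓕 : Finset (Finset Lab)) (l : ℕ) : Finset (Finset Lab) :=
  𝓕.erase (pt n k h 0) ∪ fsets ((List.range l).flatMap (fun l => fAd n h k l))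

/-- the facets up to level `l` -/
def Fl (n k : ℕ) (h : List ℕ) (𝓕 : Finset (Finset Lab)) (l : ℕ) : Finset (Finset Lab) :=
  insert (pt n k h l) (Fr n k h 𝓕 l)

lemma mem_pF {ι : Type} [DecidableEq ι] {S : Finset ℕ} {pl : ℕ → ι} {a x : ι} :
    x ∈ pF S pl a ↔ x = a ∨ ∃ j ∈ S, pl j = x := by
  simp [pF]

lemma pF_lev {k l : ℕ} {S : Finset ℕ} {x : Lab} (hx : x ∈ pF S (pol k l) (ap k l)) :
    x.2.2.1 = l := by
  rw [mem_pF] at hx
  obtain rfl | ⟨j, -, rfl⟩ := hx
  · exact ap_lev k l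
  · exact pol_lev k l j

lemma pt_lev {n k l : ℕ} {h : List ℕ} {x : Lab} (hx : x ∈ pt n k h l) : x.2.2.1 = l := pF_lev hx

lemma ap_mem_pt {n k l : ℕ} {h : List ℕ} : ap k l ∈ pt n k h l := by
  unfold pt
  rw [mem_pF]
  exact Or.inl rfl

lemma pt_disj {n k l l' : ℕ} {h : List ℕ} (hl : l ≠ l') : Disjoint (pt n k h l) (pt n k h l') := by
  rw [Finset.disjoint_left]
  intro x hx hx'
  exact hl ((pt_lev hx).symm.trans (pt_lev hx'))

lemma pt_vB {n k l : ℕ} {h : List ℕ} (hl : l < n - 6) {x : Lab} (hx : x ∈ pt n k h (l + 1)) :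
    x ∈ vBranch n h k ∧ x ≠ ap k 0 := by
  constructor
  · unfold vBranch
    rw [List.append_assoc, List.mem_append, List.mem_append, List.mem_flatMap]
    right; left
    refine ⟨l, List.mem_range.2 hl, ?_⟩
    unfold pt at hx
    rw [mem_pF] at hx
    rw [List.mem_cons, List.mem_map]
    obtain rfl | ⟨j, hj, rfl⟩ := hx
    · exact Or.inl rfl
    · exact Or.inr ⟨j, List.mem_toFinset.1 hj, rfl⟩
  · intro h1
    have h2 := pt_lev hx
    rw [h1, ap_lev] at h2
    omega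

lemma Vl_zero {n k : ℕ} {h : List ℕ} {V : Finset Lab} : Vl n k h V 0 = V := by
  simp [Vl]

lemma Vl_succ {n k l : ℕ} {h : List ℕ} {V : Finset Lab} :
    Vl n k h V (l + 1) = Vl n k h V l ∪ pt n k h (l + 1) := by
  unfold Vl
  rw [List.range_succ, List.flatMap_append, List.toFinset_append, Finset.union_assoc]
  congr 2
  ext x
  unfold pt
  rw [mem_pF]
  simp

lemma mem_Vl {n k l : ℕ} {h : List ℕ} {V : Finset Lab} {x : Lab} :
    x ∈ Vl n k h V l ↔ x ∈ V ∨ ∃ l' < l, x ∈ pt n k h (l' + 1) := by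
  induction l with
  | zero => simp [Vl_zero]
  | succ l ih =>
    rw [Vl_succ, Finset.mem_union, ih]
    constructor
    · rintro ((h1 | ⟨l', h1, h2⟩) | h1)
      · exact Or.inl h1
      · exact Or.inr ⟨l', by omega, h2⟩
      · exact Or.inr ⟨l, by omega, h1⟩
    · rintro (h1 | ⟨l', h1, h2⟩)
      · exact Or.inl (Or.inl h1)
      · rcases Nat.lt_succ_iff_lt_or_eq.1 h1 with h3 | h3
        · exact Or.inl (Or.inr ⟨l', h3, h2⟩)
        · subst h3
          exact Or.inr h2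

lemma new_notin {n k l : ℕ} {h : List ℕ} {V : Finset Lab}
    (hV : ∀ l ∈ vBranch n h k, l ≠ ap k 0 → l ∉ V) (hl : l < n - 6) {x : Lab}
    (hx : x ∈ pt n k h (l + 1)) : x ∉ Vl n k h V l := by
  rw [mem_Vl]
  rintro (h1 | ⟨l', h1, h2⟩)
  · obtain ⟨h3, h4⟩ := pt_vB hl hx
    exact hV x h3 h4 h1
  · have := pt_lev hx
    have := pt_lev h2
    omega

lemma pt_disj_V {n k l : ℕ} {h : List ℕ} {V : Finset Lab}
    (hV : ∀ l ∈ vBranch n h k, l ≠ ap k 0 → l ∉ V) (hl1 : 1 ≤ l) (hl : l ≤ n - 6) {x : Lab}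
    (hx : x ∈ pt n k h l) : x ∉ V := by
  obtain ⟨m, rfl⟩ : ∃ m, l = m + 1 := ⟨l - 1, by omega⟩
  obtain ⟨h3, h4⟩ := pt_vB (by omega) hx
  exact hV x h3 h4

/-- facets of level `l` contain labels of both levels -/
lemma fAd_lev {n k l : ℕ} {h : List ℕ} (hh : HexOK n h) (hl : l < n - 6) {F : Finset Lab}
    (hF : F ∈ fsets (fAd n h k l)) :
    (∃ x ∈ F, x.2.2.1 = l) ∧ ∃ x ∈ F, x.2.2.1 = l + 1 := by
  rw [fAd_eq hh k hl] at hF
  unfold FR at hF
  rw [Finset.mem_union, Finset.mem_insert, Finset.mem_singleton, Finset.mem_image] at hF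
  obtain (rfl | rfl) | ⟨e, -, rfl⟩ := hF
  · constructor
    · refine ⟨pol k l (delV n h l), ?_, pol_lev _ _ _⟩
      rw [Finset.mem_union]
      exact Or.inl (Finset.mem_image_of_mem _ (delV_mem_Sl hh hl))
    · have h1 : h.toFinset.Nonempty := by
        rw [← Finset.card_pos, hex_card hh]
        norm_num
      obtain ⟨j, hj⟩ := h1
      refine ⟨pol k (l + 1) j, ?_, pol_lev _ _ _⟩
      rw [Finset.mem_union]
      refine Or.inr (Finset.mem_image_of_mem _ ?_)
      rw [← Sl_succ hh hl]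
      exact hex_sub_Sl hh _ hj
  · exact ⟨⟨pol k l (delV n h l), by simp, pol_lev _ _ _⟩, ⟨ap k (l + 1), by simp, ap_lev _ _⟩⟩
  · exact ⟨⟨ap k l, by simp, ap_lev _ _⟩, ⟨ap k (l + 1), by simp, ap_lev _ _⟩⟩

lemma Fr_succ {n k l : ℕ} {h : List ℕ} {𝓕 : Finset (Finset Lab)} :
    Fr n k h 𝓕 (l + 1) = Fr n k h 𝓕 l ∪ fsets (fAd n h k l) := by
  unfold Fr
  rw [List.range_succ, List.flatMap_append, fsets_append, Finset.union_assoc]
  simp

lemma pt_notin_Fr {n k l : ℕ} {h : List ℕ} {V : Finset Lab} {𝓕 : Finset (Finset Lab)}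
    (hh : HexOK n h) (hV : ∀ l ∈ vBranch n h k, l ≠ ap k 0 → l ∉ V) (hsub : ∀ F ∈ 𝓕, F ⊆ V)
    (hl : l ≤ n - 6) : pt n k h l ∉ Fr n k h 𝓕 l := by
  unfold Fr
  rw [Finset.mem_union, not_or]
  constructor
  · rcases Nat.eq_zero_or_pos l with h0 | h0
    · subst h0
      simp
    · intro h1
      have h2 := hsub _ (Finset.mem_of_mem_erase h1) (ap_mem_pt (n := n) (k := k) (h := h) (l := l))
      exact pt_disj_V hV h0 hl ap_mem_pt h2
  · intro h1
    rw [mem_fsets] at h1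
    obtain ⟨G, hG, hG2⟩ := h1
    rw [List.mem_flatMap] at hG
    obtain ⟨l', hl', hG⟩ := hG
    rw [List.mem_range] at hl'
    have h2 : pt n k h l ∈ fsets (fAd n h k l') := mem_fsets.2 ⟨G, hG, hG2⟩
    obtain ⟨⟨x, hx, hx2⟩, -⟩ := fAd_lev hh (by omega) h2
    have := pt_lev hx
    omega

lemma Fl_erase {n k l : ℕ} {h : List ℕ} {V : Finset Lab} {𝓕 : Finset (Finset Lab)}
    (hh : HexOK n h) (hV : ∀ l ∈ vBranch n h k, l ≠ ap k 0 → l ∉ V) (hsub : ∀ F ∈ 𝓕, F ⊆ V)
    (hl : l ≤ n - 6) : (Fl n k h 𝓕 l).erase (pt n k h l) = Fr n k h 𝓕 l := by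
  unfold Fl
  exact Finset.erase_insert (pt_notin_Fr hh hV hsub hl)

lemma FA_erase {n k l : ℕ} {h : List ℕ} (hh : HexOK n h) (hl : l < n - 6) :
    (FA (Sl n h l).toFinset (delV n h l) (pol k l) (pol k (l + 1)) (ap k l)
      (ap k (l + 1))).erase (pt n k h l) =
    insert (pt n k h (l + 1)) (fsets (fAd n h k l)) := by
  have e1 : pF ((Sl n h l).toFinset.erase (delV n h l)) (pol k (l + 1)) (ap k (l + 1)) =
      pt n k h (l + 1) := by
    unfold pt
    rw [Sl_succ hh hl]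
  rw [FA_eq, e1, ← fAd_eq hh k hl]
  have e2 : pF (Sl n h l).toFinset (pol k l) (ap k l) = pt n k h l := rfl
  rw [e2]
  have h1 : pt n k h l ∉ fsets (fAd n h k l) := by
    intro h1
    obtain ⟨-, ⟨x, hx, hx2⟩⟩ := fAd_lev hh hl h1
    have := pt_lev hx
    omega
  have h2 : pt n k h l ≠ pt n k h (l + 1) := by
    intro h2
    have h3 : ap k l ∈ pt n k h (l + 1) := h2 ▸ ap_mem_pt
    have h4 := pt_lev h3
    rw [ap_lev] at h4
    omega
  ext F
  simp only [Finset.mem_erase, Finset.mem_union, Finset.mem_insert, Finset.mem_singleton]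
  constructor
  · rintro ⟨h3, (h4 | h4) | h4⟩
    · exact absurd h4 h3
    · exact Or.inl h4
    · exact Or.inr h4
  · rintro (h4 | h4)
    · subst h4
      exact ⟨fun h5 => h2 h5.symm, Or.inl (Or.inr rfl)⟩
    · exact ⟨fun h5 => h1 (h5 ▸ h4), Or.inr h4⟩

lemma Fl_succ {n k l : ℕ} {h : List ℕ} {V : Finset Lab} {𝓕 : Finset (Finset Lab)}
    (hh : HexOK n h) (hV : ∀ l ∈ vBranch n h k, l ≠ ap k 0 → l ∉ V) (hsub : ∀ F ∈ 𝓕, F ⊆ V)
    (hl : l < n - 6) : (Fl n k h 𝓕 l).erase (pt n k h l) ∪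
      (FA (Sl n h l).toFinset (delV n h l) (pol k l) (pol k (l + 1)) (ap k l)
        (ap k (l + 1))).erase (pt n k h l) = Fl n k h 𝓕 (l + 1) := by
  rw [Fl_erase hh hV hsub hl.le, FA_erase hh hl]
  unfold Fl
  rw [Fr_succ, Finset.union_insert]

lemma VA_eq {n k l : ℕ} {h : List ℕ} (hh : HexOK n h) (hl : l < n - 6) :
    VA (Sl n h l).toFinset (delV n h l) (pol k l) (pol k (l + 1)) (ap k l) (ap k (l + 1)) =
      pt n k h l ∪ pt n k h (l + 1) := by
  unfold VA pt
  rw [Sl_succ hh hl]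

lemma hexSym_iso {g g' : ℕ → E} {h : List ℕ} {e0 : E} {Θ : E →ₗ[ℝ] E} (hlen : h.length = 6)
    (hs : HexSym g h e0) (hΘ : Iso Θ) (hg : ∀ j ∈ h, g' j = Θ (g j)) :
    HexSym g' h (Θ e0) := by
  obtain ⟨e1, e2, s, t, w, h1, h2, h3, h4, h5, h6, h7, h8, h9, h10, k0, k5, k1, k4, k2, k3⟩ := hs
  have hm : ∀ i, i < 6 → h.getD i 0 ∈ h := by
    intro i hi
    have hi' : i < h.length := by rw [hlen]; exact hi
    rw [List.getD_eq_getElem _ _ hi']
    exact List.getElem_mem hi'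
  refine ⟨Θ e1, Θ e2, s, t, w, ?_, ?_, ?_, ?_, ?_, h6, h7, h8, h9, h10, ?_, ?_, ?_, ?_, ?_, ?_⟩
  · rw [hΘ.isom, h1]
  · rw [hΘ.isom, h2]
  · rw [hΘ.isom, h3]
  · rw [hΘ.isom, h4]
  · rw [hΘ.isom, h5]
  · rw [hg _ (hm 0 (by norm_num)), k0]
    simp only [map_smul, map_add, map_sub]
  · rw [hg _ (hm 5 (by norm_num)), k5]
    simp only [map_smul, map_add, map_sub]
  · rw [hg _ (hm 1 (by norm_num)), k1]
    simp only [map_smul, map_add]
  · rw [hg _ (hm 4 (by norm_num)), k4]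
    simp only [map_smul, map_add]
  · rw [hg _ (hm 2 (by norm_num)), k2]
    simp only [map_smul, map_add]
  · rw [hg _ (hm 3 (by norm_num)), k3]
    simp only [map_smul, map_add]

/-- The state after `l` deletion gadgets. -/
structure St (n k : ℕ) (h : List ℕ) (V : Finset Lab) (𝓕 : Finset (Finset Lab))
    (φ : Lab → E) (N : Finset Lab → Du) (l : ℕ) (φ' : Lab → E) (N' : Finset Lab → Du)
    (e0 e3 e4 : E) (ω : E → E → E → ℝ) (κG : ℝ) (κ : ℕ × ℕ → ℝ) : Prop where
  agree : ∀ v ∈ V, φ' v = φ v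
  real : Real (Vl n k h V l) (Fl n k h 𝓕 l) φ' N'
  port : Port (Fl n k h 𝓕 l) φ' N' (Sl n h l).toFinset h.toFinset (pol k l) (ap k l) e0 e3 e4 ω
    κG κ
  pos : ∀ p ∈ Ed (Sl n h l).toFinset, 0 < κ p
  sym : HexSym (fun j => φ' (pol k l j)) h e0
  big : 1 ≤ l → 1 < κG
  old : ∀ (S1 T1 : Finset ℕ) (pl1 : ℕ → Lab) (a1 : Lab) (d0 d3 d4 : E) (ω1 : E → E → E → ℝ)
      (κG1 : ℝ) (κ1 : ℕ × ℕ → ℝ), Port 𝓕 φ N S1 T1 pl1 a1 d0 d3 d4 ω1 κG1 κ1 →
      Disjoint (pF S1 pl1 a1) (pt n k h 0) →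
      Port (Fl n k h 𝓕 l) φ' N' S1 T1 pl1 a1 d0 d3 d4 ω1 κG1 κ1

lemma old_disj {n k l : ℕ} {h : List ℕ} {V : Finset Lab} {𝓕 : Finset (Finset Lab)}
    (hV : ∀ l ∈ vBranch n h k, l ≠ ap k 0 → l ∉ V) (hsub : ∀ F ∈ 𝓕, F ⊆ V)
    (hl : l ≤ n - 6) {F : Finset Lab} (hF : F ∈ 𝓕) (hd : Disjoint F (pt n k h 0)) :
    Disjoint F (pt n k h l) := by
  rcases Nat.eq_zero_or_pos l with h0 | h0
  · subst h0
    exact hd
  · rw [Finset.disjoint_left]
    intro x hx hx'
    exact pt_disj_V hV h0 hl hx' (hsub F hF hx)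

lemma step (hG : ClaimGlue) (hP : ClaimTransP) (hQ : ClaimTransQ) (hA : ClaimA)
    {n k l : ℕ} {h : List ℕ} {V : Finset Lab} {𝓕 : Finset (Finset Lab)}
    {φ : Lab → E} {N : Finset Lab → Du} {φ' : Lab → E} {N' : Finset Lab → Du}
    {e0 e3 e4 : E} {ω : E → E → E → ℝ} {κG : ℝ} {κ : ℕ × ℕ → ℝ}
    (hh : HexOK n h) (hV : ∀ l ∈ vBranch n h k, l ≠ ap k 0 → l ∉ V) (hsub : ∀ F ∈ 𝓕, F ⊆ V)
    (hl : l < n - 6) (hs : St n k h V 𝓕 φ N l φ' N' e0 e3 e4 ω κG κ) :
    ∃ (φ' : Lab → E) (N' : Finset Lab → Du) (e0 e3 e4 : E) (ω : E → E → E → ℝ) (κG : ℝ)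
      (κ : ℕ × ℕ → ℝ), St n k h V 𝓕 φ N (l + 1) φ' N' e0 e3 e4 ω κG κ := by
  have hSs := Sl_succ hh hl
  have hdis : Disjoint (pF (Sl n h l).toFinset (pol k l) (ap k l))
      (pF ((Sl n h l).toFinset.erase (delV n h l)) (pol k (l + 1)) (ap k (l + 1))) := by
    rw [Finset.disjoint_left]
    intro x hx hx'
    have h1 := pF_lev hx
    have h2 := pF_lev hx'
    omega
  have hT : h.toFinset ⊆ (Sl n h l).toFinset.erase (delV n h l) := by
    rw [← hSs]
    exact hex_sub_Sl hh _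
  obtain ⟨φ2, N2, Θ, ω', κG2, κG', κ2, κ', hR2, hΘ, hag, himg, hP2, hκG, hκ2, hP', hκG', hκ'⟩ :=
    hA Lab inferInstance (Sl n h l).toFinset h.toFinset (delV n h l) (pol k l) (pol k (l + 1))
      (ap k l) (ap k (l + 1)) φ' e0 e3 e4 ω κG hs.port.frame hs.port.tri hs.port.cyc
      (delV_mem_Sl hh hl) hT hs.port.card hs.port.int hs.port.apex hs.port.inj
      (pol_inj.injOn) hs.port.apn (by
        rw [Finset.mem_image]
        rintro ⟨j, -, hj⟩
        exact pol_ne_ap _ _ _ _ hj) hdis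
  have hptV : pt n k h l ⊆ Vl n k h V l := hs.real.sub _ (Finset.mem_insert_self _ _)
  have hVA := VA_eq (k := k) hh hl
  have hinter : Vl n k h V l ∩ VA (Sl n h l).toFinset (delV n h l) (pol k l) (pol k (l + 1))
      (ap k l) (ap k (l + 1)) = pF (Sl n h l).toFinset (pol k l) (ap k l) := by
    rw [hVA]
    ext x
    rw [Finset.mem_inter, Finset.mem_union]
    constructor
    · rintro ⟨h1, h2 | h2⟩
      · exact h2
      · exact absurd h1 (new_notin hV hl h2)
    · intro h1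
      exact ⟨hptV h1, Or.inl h1⟩
  have hVun : Vl n k h V l ∪ VA (Sl n h l).toFinset (delV n h l) (pol k l) (pol k (l + 1))
      (ap k l) (ap k (l + 1)) = Vl n k h V (l + 1) := by
    rw [hVA, Vl_succ, ← Finset.union_assoc, Finset.union_eq_left.2 hptV]
  have hFun := Fl_succ (𝓕 := 𝓕) (k := k) hh hV hsub hl
  have hag' : ∀ v ∈ pF (Sl n h l).toFinset (pol k l) (ap k l), φ' v = φ2 v :=
    fun v hv => (hag v hv).symm
  have hm1 : pF (Sl n h l).toFinset (pol k l) (ap k l) ∈ Fl n k h 𝓕 l :=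
    Finset.mem_insert_self _ _
  have hm2 := hP2.mem
  have hreal := hG Lab inferInstance (Vl n k h V l) _ (Fl n k h 𝓕 l) _ φ' φ2 N' N2
    (Sl n h l).toFinset h.toFinset h.toFinset (pol k l) (ap k l) e0 e3 e4 ω κG κG2 κ κ2
    hs.real hR2 hinter hag' hs.port hP2 hκG (fun p hp => add_pos (hs.pos p hp) (hκ2 p hp))
  have hport := hQ Lab inferInstance (Vl n k h V l) _ (Fl n k h 𝓕 l) _ φ' φ2 N' N2
    (pF (Sl n h l).toFinset (pol k l) (ap k l)) ((Sl n h l).toFinset.erase (delV n h l))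
    h.toFinset (pol k (l + 1)) (ap k (l + 1)) (Θ e0) (Θ e3) (-Θ e4) ω' κG' κ'
    hs.real hR2 hinter hm1 hm2 hag' hP' hdis.symm
  have hFun' : (Fl n k h 𝓕 l).erase (pF (Sl n h l).toFinset (pol k l) (ap k l)) ∪
      (FA (Sl n h l).toFinset (delV n h l) (pol k l) (pol k (l + 1)) (ap k l)
        (ap k (l + 1))).erase (pF (Sl n h l).toFinset (pol k l) (ap k l)) =
      Fl n k h 𝓕 (l + 1) := hFun
  rw [hFun', hVun] at hreal
  rw [hFun', ← hSs] at hport
  refine ⟨gφ (Vl n k h V l) φ' φ2, gN (Fl n k h 𝓕 l) N' N2, Θ e0, Θ e3, -Θ e4, ω', κG', κ', ?_⟩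
  refine ⟨?_, hreal, hport, ?_, ?_, fun _ => hκG', ?_⟩
  · intro v hv
    unfold gφ
    rw [if_pos (mem_Vl.2 (Or.inl hv))]
    exact hs.agree v hv
  · rw [hSs]
    exact hκ'
  · refine hexSym_iso hh.1 hs.sym hΘ ?_
    intro j hj
    have hjS : j ∈ (Sl n h l).toFinset.erase (delV n h l) := hT (List.mem_toFinset.2 hj)
    have hx : pol k (l + 1) j ∈ pt n k h (l + 1) := by
      unfold pt
      rw [mem_pF]
      exact Or.inr ⟨j, by rw [hSs]; exact hjS, rfl⟩
    simp only [gφ]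
    rw [if_neg (new_notin hV hl hx)]
    exact himg j hjS
  · intro S1 T1 pl1 a1 d0 d3 d4 ω1 κG1 κ1 h1 h2
    have h3 := hP Lab inferInstance (Vl n k h V l) _ (Fl n k h 𝓕 l) _ φ' φ2 N' N2
      (pF (Sl n h l).toFinset (pol k l) (ap k l)) S1 T1 pl1 a1 d0 d3 d4 ω1 κG1 κ1
      hs.real hR2 hinter hm1 hm2 hag' (hs.old S1 T1 pl1 a1 d0 d3 d4 ω1 κG1 κ1 h1 h2)
      (old_disj hV hsub hl.le h1.mem h2)
    rw [hFun'] at h3
    exact h3

lemma all_steps (hG : ClaimGlue) (hP : ClaimTransP) (hQ : ClaimTransQ) (hA : ClaimA)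
    {n k : ℕ} {h : List ℕ} {V : Finset Lab} {𝓕 : Finset (Finset Lab)}
    {φ : Lab → E} {N : Finset Lab → Du}
    {e0 e3 e4 : E} {ω : E → E → E → ℝ} {κG : ℝ} {κ : ℕ × ℕ → ℝ}
    (hh : HexOK n h) (hV : ∀ l ∈ vBranch n h k, l ≠ ap k 0 → l ∉ V) (hsub : ∀ F ∈ 𝓕, F ⊆ V)
    (hs : St n k h V 𝓕 φ N 0 φ N e0 e3 e4 ω κG κ) (l : ℕ) (hl : l ≤ n - 6) :
    ∃ (φ' : Lab → E) (N' : Finset Lab → Du) (e0 e3 e4 : E) (ω : E → E → E → ℝ) (κG : ℝ)
      (κ : ℕ × ℕ → ℝ), St n k h V 𝓕 φ N l φ' N' e0 e3 e4 ω κG κ := by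
  induction l with
  | zero => exact ⟨φ, N, e0, e3, e4, ω, κG, κ, hs⟩
  | succ l ih =>
    obtain ⟨φ', N', f0, f3, f4, ω', κG', κ', hs'⟩ := ih (by omega)
    exact step hG hP hQ hA hh hV hsub (by omega) hs'

lemma FL_xL {q : ℕ → Lab} {w : Lab} {x : ℕ → ℕ → Lab} {F : Finset Lab} (hF : F ∈ FL q w x) :
    ∃ i j, i < 3 ∧ j < 2 ∧ x i j ∈ F := by
  unfold FL at hF
  simp only [Finset.mem_insert, Finset.mem_singleton] at hF
  rcases hF with rfl | rfl | rfl | rfl | rfl | rfl | rfl | rfl | rfl | rfl | rfl | rfl | rfl |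
    rfl | rfl
  · exact ⟨2, 0, by norm_num, by norm_num, by simp⟩
  · exact ⟨0, 0, by norm_num, by norm_num, by simp⟩
  · exact ⟨0, 0, by norm_num, by norm_num, by simp⟩
  · exact ⟨0, 0, by norm_num, by norm_num, by simp⟩
  · exact ⟨0, 0, by norm_num, by norm_num, by simp⟩
  · exact ⟨0, 1, by norm_num, by norm_num, by simp⟩
  · exact ⟨0, 1, by norm_num, by norm_num, by simp⟩
  · exact ⟨0, 0, by norm_num, by norm_num, by simp⟩
  · exact ⟨0, 0, by norm_num, by norm_num, by simp⟩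
  · exact ⟨1, 0, by norm_num, by norm_num, by simp⟩
  · exact ⟨1, 0, by norm_num, by norm_num, by simp⟩
  · exact ⟨0, 0, by norm_num, by norm_num, by simp⟩
  · exact ⟨0, 0, by norm_num, by norm_num, by simp⟩
  · exact ⟨0, 1, by norm_num, by norm_num, by simp⟩
  · exact ⟨0, 1, by norm_num, by norm_num, by simp⟩

lemma xL_vB {n k i j : ℕ} {h : List ℕ} (hi : i < 3) (hj : j < 2) :
    xL k i j ∈ vBranch n h k := by
  unfold vBranch
  rw [List.mem_append]
  right
  interval_cases i <;> interval_cases j <;> simp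

end Branch

open Branch in
/-- One complete branch. -/
theorem claimBranch (hG : ClaimGlue) (hP : ClaimTransP) (hQ : ClaimTransQ) (hA : ClaimA)
    (hL : ClaimL) : ClaimBranch := by
  intro n k h V 𝓕 φ N f0 e3 e4 ω κG κ hn hh hR hPt hκ hsym hV
  have hF0 : pF (Finset.range n) (pol k 0) (ap k 0) = pt n k h 0 := by
    unfold pt
    rw [Sl_zero]
  have hsub := hR.sub
  have hFl0 : Fl n k h 𝓕 0 = 𝓕 := by
    unfold Fl Fr
    rw [← hF0]
    simp only [List.range_zero, List.flatMap_nil, fsets_nil, Finset.union_empty]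
    exact Finset.insert_erase hPt.mem
  have hs0 : St n k h V 𝓕 φ N 0 φ N f0 e3 e4 ω κG κ := by
    refine ⟨fun v _ => rfl, ?_, ?_, ?_, hsym, fun h1 => by omega, ?_⟩
    · rw [Vl_zero, hFl0]
      exact hR
    · rw [hFl0, Sl_zero]
      exact hPt
    · rw [Sl_zero]
      exact hκ
    · intro S1 T1 pl1 a1 d0 d3 d4 ω1 κG1 κ1 h1 _
      rw [hFl0]
      exact h1
  obtain ⟨φ', N', g0, g3, g4, ω', κG', κ', hs⟩ :=
    all_steps hG hP hQ hA hh hV hsub hs0 (n - 6) le_rfl
  have hSl := Sl_last hh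
  have hptV : pt n k h (n - 6) ⊆ Vl n k h V (n - 6) := hs.real.sub _ (Finset.mem_insert_self _ _)
  have hpt : pF h.toFinset (pol k (n - 6)) (ap k (n - 6)) = pt n k h (n - 6) := by
    unfold pt
    rw [hSl]
  have hport := hs.port
  rw [hSl] at hport
  have hx : ∀ i j, i < 3 → j < 2 → xL k i j ∉ Vl n k h V (n - 6) := by
    intro i j hi hj
    rw [mem_Vl]
    rintro (h1 | ⟨l', hl', h1⟩)
    · exact hV _ (xL_vB hi hj) (fun h2 => ap_ne_xL _ _ _ _ h2.symm) h1
    · unfold pt at h1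
      rw [mem_pF] at h1
      obtain h2 | ⟨j', -, h2⟩ := h1
      · exact ap_ne_xL _ _ _ _ h2.symm
      · exact pol_ne_xL _ _ _ _ _ h2
  obtain ⟨φ2, N2, κ2, hR2, hag, hP2, hκ2⟩ := hL Lab inferInstance n h (pol k (n - 6))
    (ap k (n - 6)) (xL k) φ' g0 g3 g4 ω' hh hport.frame hport.tri hport.cyc hport.int hs.sym
    hport.apex hport.inj hport.apn (fun i j hi hj h1 => hx i j hi hj (hptV (hpt ▸ h1)))
    (fun i j i' j' _ _ _ _ h1 => xL_inj h1)
  have hinter : Vl n k h V (n - 6) ∩ VL h (pol k (n - 6)) (ap k (n - 6)) (xL k) =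
      pF h.toFinset (pol k (n - 6)) (ap k (n - 6)) := by
    unfold VL
    ext y
    rw [Finset.mem_inter, Finset.mem_union]
    constructor
    · rintro ⟨h1, h2 | h2⟩
      · exact h2
      · exfalso
        simp only [Finset.mem_insert, Finset.mem_singleton] at h2
        rcases h2 with rfl | rfl | rfl | rfl | rfl | rfl
        · exact hx 0 0 (by norm_num) (by norm_num) h1
        · exact hx 0 1 (by norm_num) (by norm_num) h1
        · exact hx 1 0 (by norm_num) (by norm_num) h1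
        · exact hx 1 1 (by norm_num) (by norm_num) h1
        · exact hx 2 0 (by norm_num) (by norm_num) h1
        · exact hx 2 1 (by norm_num) (by norm_num) h1
    · intro h1
      exact ⟨hptV (hpt ▸ h1), Or.inl h1⟩
  have hap0 : ap k 0 ∈ V := hsub _ hPt.mem (hF0 ▸ ap_mem_pt)
  have hVun : Vl n k h V (n - 6) ∪ VL h (pol k (n - 6)) (ap k (n - 6)) (xL k) =
      V ∪ (vBranch n h k).toFinset := by
    unfold VL
    rw [hpt, ← Finset.union_assoc, Finset.union_eq_left.2 hptV]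
    unfold Vl vBranch
    rw [List.toFinset_append, List.toFinset_append, Finset.union_assoc]
    ext y
    simp only [Finset.mem_union, List.toFinset_cons, List.toFinset_nil, Finset.mem_insert,
      insert_empty_eq, Finset.mem_singleton]
    constructor
    · rintro (h1 | h1 | h1)
      · exact Or.inl h1
      · exact Or.inr (Or.inl (Or.inr h1))
      · exact Or.inr (Or.inr h1)
    · rintro (h1 | (h1 | h1) | h1)
      · exact Or.inl h1
      · exact Or.inl (h1 ▸ hap0)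
      · exact Or.inr (Or.inl h1)
      · exact Or.inr (Or.inr h1)
  have hFL : pF h.toFinset (pol k (n - 6)) (ap k (n - 6)) ∉
      FL (fun i => pol k (n - 6) (h.getD i 0)) (ap k (n - 6)) (xL k) := by
    intro h1
    obtain ⟨i, j, hi, hj, h2⟩ := FL_xL h1
    exact hx i j hi hj (hptV (hpt ▸ h2))
  have hFun : (Fl n k h 𝓕 (n - 6)).erase (pF h.toFinset (pol k (n - 6)) (ap k (n - 6))) ∪
      (insert (pF h.toFinset (pol k (n - 6)) (ap k (n - 6)))
        (FL (fun i => pol k (n - 6) (h.getD i 0)) (ap k (n - 6)) (xL k))).erase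
          (pF h.toFinset (pol k (n - 6)) (ap k (n - 6))) =
      𝓕.erase (pF (Finset.range n) (pol k 0) (ap k 0)) ∪ fsets (fBranch n h k) := by
    rw [Finset.erase_insert hFL, hpt, Fl_erase hh hV hsub le_rfl]
    unfold Fr fBranch
    rw [fsets_append, fLeaf_eq, ← hF0, Finset.union_assoc]
  have hag' : ∀ v ∈ pF h.toFinset (pol k (n - 6)) (ap k (n - 6)), φ' v = φ2 v :=
    fun v hv => (hag v hv).symm
  have hbig := hs.big (by omega)
  have hreal := hG Lab inferInstance (Vl n k h V (n - 6)) _ (Fl n k h 𝓕 (n - 6)) _ φ' φ2 N' N2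
    h.toFinset h.toFinset h.toFinset (pol k (n - 6)) (ap k (n - 6)) g0 g3 g4 ω' κG' (-1) κ' κ2
    hs.real hR2 hinter hag' hport hP2 (by linarith)
    (fun p hp => add_pos (hs.pos p (by rw [hSl]; exact hp)) (hκ2 p hp))
  rw [hFun, hVun] at hreal
  refine ⟨gφ (Vl n k h V (n - 6)) φ' φ2, gN (Fl n k h 𝓕 (n - 6)) N' N2, ?_, hreal, ?_⟩
  · intro v hv
    unfold gφ
    rw [if_pos (mem_Vl.2 (Or.inl hv))]
    exact hs.agree v hv
  · intro S1 T1 pl1 a1 d0 d3 d4 ω1 κG1 κ1 h1 h2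
    rw [hF0] at h2
    have h4 := old_disj hV hsub le_rfl h1.mem h2
    rw [← hpt] at h4
    have h3 := hP Lab inferInstance (Vl n k h V (n - 6)) _ (Fl n k h 𝓕 (n - 6)) _ φ' φ2 N' N2
      (pF h.toFinset (pol k (n - 6)) (ap k (n - 6))) S1 T1 pl1 a1 d0 d3 d4 ω1 κG1 κ1
      hs.real hR2 hinter hport.mem hP2.mem hag'
      (hs.old S1 T1 pl1 a1 d0 d3 d4 ω1 κG1 κ1 h1 h2) h4
    rw [hFun] at h3
    exact h3

end Pool.Agent.Work.MP_5b14b0_lc
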