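import Pool.Agent.Work.MP_5b14b0_lc.Stmts

/-!
# Assembly of the completeness direction
-/

set_option autoImplicit false

namespace Pool.Agent.Work.MP_5b14b0_lc

open Finset

namespace Build

theorem mem_EdL (n : ℕ) (e : ℕ × ℕ) : e ∈ EdL (List.range n) ↔ e ∈ Ed (Finset.range n) := by
  obtain ⟨a, b⟩ := e
  simp only [EdL, Ed, List.mem_filter, List.product, Finset.mem_filter, Finset.mem_product,
    List.mem_flatMap, List.mem_map, List.mem_range, Finset.mem_range, Prod.mk.injEq,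
    Bool.and_eq_true, Bool.or_eq_true, decide_eq_true_eq, List.all_eq_true]
  constructor
  · rintro ⟨⟨x, hx, y, hy, rfl, rfl⟩, h1, h2⟩
    exact ⟨⟨hx, hy⟩, h1, h2⟩
  · rintro ⟨⟨hx, hy⟩, h1, h2⟩
    exact ⟨⟨a, hx, b, hy, rfl, rfl⟩, h1, h2⟩

/-! ### Labels -/

theorem pol_zero (k : ℕ) : pol k 0 = gL k := by
  funext j
  simp [pol]

/-- The vertices up to the main polygon `k`. -/
def labsK (n : ℕ) (hs : List (List ℕ)) (k : ℕ) : List Lab :=
  [cL] ++ (List.range (k + 1)).flatMap (fun k => aL k :: (List.range n).map (gL k)) ++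
    (List.range k).flatMap (fun k => vBranch n (hs.getD k []) k)

/-- The facets before the main polygon `k`. -/
def cpxK (n : ℕ) (hs : List (List ℕ)) (k : ℕ) : List (List Lab) :=
  fInit n ++ (List.range k).flatMap (fun k => fMain n k ++ fBranch n (hs.getD k []) k)

theorem mem_labsK {n : ℕ} {hs : List (List ℕ)} {k : ℕ} {l : Lab} : l ∈ labsK n hs k ↔
    l = cL ∨ (∃ i ≤ k, l = aL i ∨ ∃ j < n, l = gL i j) ∨
      ∃ i < k, l ∈ vBranch n (hs.getD i []) i := by
  simp only [labsK, List.mem_append, List.mem_flatMap, List.mem_range,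
    List.mem_cons, List.mem_map, List.not_mem_nil, or_false, or_assoc]
  refine or_congr_right (or_congr_left ?_)
  constructor
  · rintro ⟨i, hi, h⟩
    refine ⟨i, by omega, ?_⟩
    rcases h with h | ⟨j, hj, h⟩
    · exact Or.inl h
    · exact Or.inr ⟨j, hj, h.symm⟩
  · rintro ⟨i, hi, h⟩
    refine ⟨i, by omega, ?_⟩
    rcases h with h | ⟨j, hj, h⟩
    · exact Or.inl h
    · exact Or.inr ⟨j, hj, h.symm⟩

theorem vBranch_label {n : ℕ} {h : List ℕ} {k : ℕ} {l : Lab} (hl : l ∈ vBranch n h k) :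
    3 ≤ l.1 ∧ l.2.1 = k := by
  simp only [vBranch, List.mem_append, List.mem_flatMap, List.mem_range,
    List.mem_cons, List.mem_map, List.not_mem_nil, or_false] at hl
  rcases hl with (rfl | ⟨ℓ, _, rfl | ⟨j, _, rfl⟩⟩) | rfl | rfl | rfl | rfl | rfl | rfl <;>
    simp [ap, pol, xL]

theorem leaf_forall (Q : Lab → Prop) (q : ℕ → Lab) (w : Lab) (k : ℕ) (hq : ∀ i, Q (q i))
    (hw : Q w) (hx : ∀ i s, Q (xL k i s)) : ∀ F ∈ fLeafAt q w k, ∀ l ∈ F, Q l := by
  have nil : ∀ (α : Type) (P : α → Prop), (∀ x ∈ ([] : List α), P x) ↔ True := by simp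
  simp only [fLeafAt, List.forall_mem_cons, nil, hq, hw, hx, and_self]

theorem fBranch_label {n : ℕ} {h : List ℕ} {k : ℕ} {F : List Lab} (hF : F ∈ fBranch n h k)
    {l : Lab} (hl : l ∈ F) : l.1 ≠ 1 ∧ l.2.1 = k := by
  have hpol : ∀ ℓ j, (pol k ℓ j).1 ≠ 1 ∧ (pol k ℓ j).2.1 = k := by
    intro ℓ j
    unfold pol
    split_ifs <;> simp [gL]
  have hap : ∀ ℓ, (ap k ℓ).1 ≠ 1 ∧ (ap k ℓ).2.1 = k := by
    intro ℓ
    unfold ap
    split_ifs <;> simp
  have hx : ∀ i s, (xL k i s).1 ≠ 1 ∧ (xL k i s).2.1 = k := by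
    intro i s
    simp [xL]
  rw [fBranch, List.mem_append] at hF
  rcases hF with hF | hF
  · rw [List.mem_flatMap] at hF
    obtain ⟨ℓ, _, hF⟩ := hF
    rw [fAd, List.mem_append] at hF
    rcases hF with hF | hF
    · rw [List.mem_map] at hF
      obtain ⟨e, _, rfl⟩ := hF
      have hl' := (List.mem_filter.1 hl).1
      simp only [List.mem_cons, List.not_mem_nil, or_false] at hl'
      rcases hl' with rfl | rfl | rfl | rfl | rfl | rfl
      · exact hap _
      · exact hpol _ _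
      · exact hpol _ _
      · exact hap _
      · exact hpol _ _
      · exact hpol _ _
    · simp only [List.mem_cons, List.not_mem_nil, or_false] at hF
      rcases hF with rfl | rfl
      · rw [List.mem_append, List.mem_map, List.mem_map] at hl
        rcases hl with ⟨j, _, rfl⟩ | ⟨j, _, rfl⟩ <;> exact hpol _ _
      · rw [List.mem_append, List.mem_map] at hl
        rcases hl with hl | ⟨j, _, rfl⟩
        · simp only [List.mem_cons, List.not_mem_nil, or_false] at hl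
          rcases hl with rfl | rfl
          · exact hpol _ _
          · exact hap _
        · exact hpol _ _
  · exact leaf_forall (fun l => l.1 ≠ 1 ∧ l.2.1 = k) _ _ k (fun i => hpol _ _) (hap _) hx F hF l hl

/-! ### Facets -/

theorem mem_pF {ι : Type} [DecidableEq ι] {S : Finset ℕ} {pl : ℕ → ι} {a x : ι} :
    x ∈ pF S pl a ↔ x = a ∨ ∃ j ∈ S, pl j = x := by
  simp [pF]

theorem mem_fsets {Fs : List (List Lab)} {F : Finset Lab} :
    F ∈ fsets Fs ↔ ∃ L ∈ Fs, L.toFinset = F := by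
  simp [fsets]

theorem fsets_append (A B : List (List Lab)) : fsets (A ++ B) = fsets A ∪ fsets B := by
  ext F
  simp only [mem_fsets, Finset.mem_union, List.mem_append]
  constructor
  · rintro ⟨L, hL | hL, h⟩
    · exact Or.inl ⟨L, hL, h⟩
    · exact Or.inr ⟨L, hL, h⟩
  · rintro (⟨L, hL, h⟩ | ⟨L, hL, h⟩)
    · exact ⟨L, Or.inl hL, h⟩
    · exact ⟨L, Or.inr hL, h⟩

theorem cpxK_succ (n : ℕ) (hs : List (List ℕ)) (k : ℕ) :
    cpxK n hs (k + 1) = cpxK n hs k ++ (fMain n k ++ fBranch n (hs.getD k []) k) := by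
  simp [cpxK, List.range_succ]

theorem pF_toFinset (n : ℕ) (pl : ℕ → Lab) (a : Lab) :
    ((List.range n).map pl ++ [a]).toFinset = pF (Finset.range n) pl a := by
  ext x
  simp only [List.mem_toFinset, List.mem_append, List.mem_map, List.mem_range, List.mem_singleton,
    mem_pF, Finset.mem_range]
  exact or_comm

/-- The prisms. -/
def im1 (n k : ℕ) : Finset (Finset Lab) := (Ed (Finset.range n)).image
  (fun e => {aL k, gL k e.1, gL k e.2, aL (k + 1), gL (k + 1) e.1, gL (k + 1) e.2})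
/-- The facets at the branching apex. -/
def im2 (n k : ℕ) : Finset (Finset Lab) := (Ed (Finset.range n)).image
  (fun e => {ap k 0, gL k e.1, gL k e.2, gL (k + 1) e.1, gL (k + 1) e.2})

theorem fMain_sets (n k : ℕ) : fsets (fMain n k) =
    im1 n k ∪ im2 n k ∪ {pF (Finset.range n) (gL (k + 1)) (ap k 0)} := by
  ext F
  simp only [mem_fsets, fMain, List.mem_append, List.mem_map, List.mem_singleton,
    Finset.mem_union, Finset.mem_singleton, im1, im2, Finset.mem_image]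
  constructor
  · rintro ⟨L, (⟨e, he, rfl⟩ | ⟨e, he, rfl⟩) | rfl, rfl⟩
    · exact Or.inl (Or.inl ⟨e, (mem_EdL n e).1 he, by simp⟩)
    · exact Or.inl (Or.inr ⟨e, (mem_EdL n e).1 he, by simp⟩)
    · exact Or.inr (pF_toFinset n _ _)
  · rintro ((⟨e, he, rfl⟩ | ⟨e, he, rfl⟩) | rfl)
    · exact ⟨_, Or.inl (Or.inl ⟨e, (mem_EdL n e).2 he, rfl⟩), by simp⟩
    · exact ⟨_, Or.inl (Or.inr ⟨e, (mem_EdL n e).2 he, rfl⟩), by simp⟩
    · exact ⟨_, Or.inr rfl, pF_toFinset n _ _⟩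

theorem ne_of_wit {F G : Finset Lab} {x : Lab} (h1 : x ∈ F) (h2 : x ∉ G) : F ≠ G := by
  rintro rfl
  exact h2 h1

theorem notMem_gL {n k : ℕ} {a x : Lab} (h1 : x ≠ a) (h2 : ∀ j, gL k j ≠ x) :
    x ∉ pF (Finset.range n) (gL k) a := by
  rw [mem_pF]
  rintro (h | ⟨j, _, h⟩)
  · exact h1 h
  · exact h2 j h

theorem apex_mem {ι : Type} [DecidableEq ι] {S : Finset ℕ} {pl : ℕ → ι} {a : ι} :
    a ∈ pF S pl a := mem_pF.2 (Or.inl rfl)

theorem pol_mem {ι : Type} [DecidableEq ι] {S : Finset ℕ} {pl : ℕ → ι} {a : ι} {j : ℕ}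
    (hj : j ∈ S) : pl j ∈ pF S pl a := mem_pF.2 (Or.inr ⟨j, hj, rfl⟩)

/-- The earlier facets are different from the two ports. -/
theorem cpxK_ne {n : ℕ} {hs : List (List ℕ)} {k : ℕ} {F : Finset Lab}
    (hF : F ∈ fsets (cpxK n hs k)) : F ≠ pF (Finset.range n) (gL k) (aL k) ∧
      F ≠ pF (Finset.range n) (gL k) (ap k 0) := by
  obtain ⟨L, hL, rfl⟩ := mem_fsets.1 hF
  rw [cpxK, List.mem_append] at hL
  rcases hL with hL | hL
  · have hc : cL ∈ L.toFinset := by
      rw [List.mem_toFinset]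
      rw [fInit, List.mem_cons, List.mem_map] at hL
      rcases hL with rfl | ⟨e, _, rfl⟩
      · simp
      · simp
    exact ⟨ne_of_wit hc (notMem_gL (by simp [cL, aL]) (by simp [cL, gL])),
      ne_of_wit hc (notMem_gL (by simp [cL, ap]) (by simp [cL, gL]))⟩
  · rw [List.mem_flatMap] at hL
    obtain ⟨i, hi, hL⟩ := hL
    have hi' : i < k := List.mem_range.1 hi
    have hik : i ≠ k := hi'.ne
    rw [List.mem_append] at hL
    rcases hL with hL | hL
    · rw [fMain, List.mem_append, List.mem_append, List.mem_map, List.mem_map,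
        List.mem_singleton] at hL
      rcases hL with (⟨e, _, rfl⟩ | ⟨e, _, rfl⟩) | rfl
      · have hc : aL i ∈ ([aL i, gL i e.1, gL i e.2, aL (i + 1), gL (i + 1) e.1,
            gL (i + 1) e.2] : List Lab).toFinset := by simp
        exact ⟨ne_of_wit hc (notMem_gL (by simp [aL, hik]) (by simp [aL, gL])),
          ne_of_wit hc (notMem_gL (by simp [aL, ap]) (by simp [aL, gL]))⟩
      · have hc : ap i 0 ∈ ([ap i 0, gL i e.1, gL i e.2, gL (i + 1) e.1,
            gL (i + 1) e.2] : List Lab).toFinset := by simp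
        exact ⟨ne_of_wit hc (notMem_gL (by simp [aL, ap]) (by simp [ap, gL])),
          ne_of_wit hc (notMem_gL (by simp [ap, hik]) (by simp [ap, gL]))⟩
      · have hc : ap i 0 ∈ ((List.range n).map (gL (i + 1)) ++ [ap i 0] : List Lab).toFinset := by
          simp
        exact ⟨ne_of_wit hc (notMem_gL (by simp [aL, ap]) (by simp [ap, gL])),
          ne_of_wit hc (notMem_gL (by simp [ap, hik]) (by simp [ap, gL]))⟩
    · constructor
      · intro h
        have h1 : aL k ∈ L.toFinset := by rw [h]; exact apex_mem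
        have h2 := (fBranch_label hL (List.mem_toFinset.1 h1)).2
        exact hik h2.symm
      · intro h
        have h1 : ap k 0 ∈ L.toFinset := by rw [h]; exact apex_mem
        have h2 := (fBranch_label hL (List.mem_toFinset.1 h1)).2
        simp only [ap, if_true] at h2
        exact hik h2.symm

/-- The facets after one step. -/
theorem facets_step {n : ℕ} (hn : 0 < n) (hs : List (List ℕ)) (k : ℕ) :
    (((insert (pF (Finset.range n) (gL k) (aL k)) (fsets (cpxK n hs k))).erase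
        (pF (Finset.range n) (gL k) (aL k)) ∪
      (FK (Finset.range n) (gL k) (gL (k + 1)) (aL k) (aL (k + 1)) (ap k 0)).erase
        (pF (Finset.range n) (gL k) (aL k))).erase (pF (Finset.range n) (gL k) (ap k 0))) ∪
      fsets (fBranch n (hs.getD k []) k) =
    insert (pF (Finset.range n) (gL (k + 1)) (aL (k + 1))) (fsets (cpxK n hs (k + 1))) := by
  have hP1P : pF (Finset.range n) (gL (k + 1)) (aL (k + 1)) ≠
      pF (Finset.range n) (gL k) (aL k) :=
    ne_of_wit apex_mem (notMem_gL (by simp [aL]) (by simp [aL, gL]))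
  have hP1Q : pF (Finset.range n) (gL (k + 1)) (aL (k + 1)) ≠
      pF (Finset.range n) (gL k) (ap k 0) :=
    ne_of_wit apex_mem (notMem_gL (by simp [aL, ap]) (by simp [aL, gL]))
  have hRP : pF (Finset.range n) (gL (k + 1)) (ap k 0) ≠ pF (Finset.range n) (gL k) (aL k) :=
    ne_of_wit apex_mem (notMem_gL (by simp [aL, ap]) (by simp [ap, gL]))
  have hRQ : pF (Finset.range n) (gL (k + 1)) (ap k 0) ≠ pF (Finset.range n) (gL k) (ap k 0) :=
    ne_of_wit (pol_mem (j := 0) (Finset.mem_range.2 hn))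
      (notMem_gL (by simp [gL, ap]) (by simp [gL]))
  have h1 : ∀ F ∈ im1 n k, F ≠ pF (Finset.range n) (gL k) (aL k) ∧
      F ≠ pF (Finset.range n) (gL k) (ap k 0) := by
    intro F hF
    obtain ⟨e, _, rfl⟩ := Finset.mem_image.1 hF
    have hc : aL (k + 1) ∈ ({aL k, gL k e.1, gL k e.2, aL (k + 1), gL (k + 1) e.1,
      gL (k + 1) e.2} : Finset Lab) := by simp
    exact ⟨ne_of_wit hc (notMem_gL (by simp [aL]) (by simp [aL, gL])),
      ne_of_wit hc (notMem_gL (by simp [aL, ap]) (by simp [aL, gL]))⟩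
  have h2 : ∀ F ∈ im2 n k, F ≠ pF (Finset.range n) (gL k) (aL k) ∧
      F ≠ pF (Finset.range n) (gL k) (ap k 0) := by
    intro F hF
    obtain ⟨e, _, rfl⟩ := Finset.mem_image.1 hF
    have hc : ap k 0 ∈ ({ap k 0, gL k e.1, gL k e.2, gL (k + 1) e.1,
      gL (k + 1) e.2} : Finset Lab) := by simp
    have hc' : gL (k + 1) e.1 ∈ ({ap k 0, gL k e.1, gL k e.2, gL (k + 1) e.1,
      gL (k + 1) e.2} : Finset Lab) := by simp
    exact ⟨ne_of_wit hc (notMem_gL (by simp [aL, ap]) (by simp [ap, gL])),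
      ne_of_wit hc' (notMem_gL (by simp [gL, ap]) (by simp [gL]))⟩
  have h3 := fun F hF => cpxK_ne (n := n) (hs := hs) (k := k) (F := F) hF
  have hFK : FK (Finset.range n) (gL k) (gL (k + 1)) (aL k) (aL (k + 1)) (ap k 0) =
      {pF (Finset.range n) (gL k) (aL k), pF (Finset.range n) (gL (k + 1)) (aL (k + 1)),
        pF (Finset.range n) (gL k) (ap k 0), pF (Finset.range n) (gL (k + 1)) (ap k 0)} ∪
        im1 n k ∪ im2 n k := rfl
  rw [hFK, cpxK_succ, fsets_append, fsets_append, fMain_sets]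
  ext F
  simp only [Finset.mem_union, Finset.mem_erase, Finset.mem_insert, Finset.mem_singleton]
  constructor
  · rintro (⟨hQ, h | h⟩ | h)
    · rcases h with ⟨hP, h | h⟩
      · exact absurd h hP
      · exact Or.inr (Or.inl h)
    · rcases h with ⟨hP, ((h | h | h | h) | h) | h⟩
      · exact absurd h hP
      · exact Or.inl h
      · exact absurd h hQ
      · exact Or.inr (Or.inr (Or.inl (Or.inr h)))
      · exact Or.inr (Or.inr (Or.inl (Or.inl (Or.inl h))))
      · exact Or.inr (Or.inr (Or.inl (Or.inl (Or.inr h))))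
    · exact Or.inr (Or.inr (Or.inr h))
  · rintro (rfl | h | ((h | h) | rfl) | h)
    · exact Or.inl ⟨hP1Q, Or.inr ⟨hP1P, Or.inl (Or.inl (Or.inr (Or.inl rfl)))⟩⟩
    · exact Or.inl ⟨(h3 F h).2, Or.inl ⟨(h3 F h).1, Or.inr h⟩⟩
    · exact Or.inl ⟨(h1 F h).2, Or.inr ⟨(h1 F h).1, Or.inl (Or.inr h)⟩⟩
    · exact Or.inl ⟨(h2 F h).2, Or.inr ⟨(h2 F h).1, Or.inr h⟩⟩
    · exact Or.inl ⟨hRQ, Or.inr ⟨hRP, Or.inl (Or.inl (Or.inr (Or.inr (Or.inr rfl))))⟩⟩
    · exact Or.inr h

/-! ### Hexagons -/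

theorem getD_lt {n : ℕ} {h : List ℕ} (hh : HexOK n h) {i : ℕ} (hi : i < 6) :
    h.getD i 0 < n := by
  have h1 : i < h.length := by rw [hh.1]; exact hi
  rw [List.getD_eq_getElem _ _ h1]
  exact hh.2.2 _ (List.getElem_mem h1)

theorem hexRel_congr {n : ℕ} {h : List ℕ} {g g' : ℕ → E} (hh : HexOK n h)
    (hg : ∀ j < n, g' j = g j) (H : HexRel g h) : HexRel g' h := by
  obtain ⟨X, h0, h1, h2, h3⟩ := H
  refine ⟨X, h0, ?_, ?_, ?_⟩
  · rw [hg _ (getD_lt hh (by norm_num)), hg _ (getD_lt hh (by norm_num))]; exact h1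
  · rw [hg _ (getD_lt hh (by norm_num)), hg _ (getD_lt hh (by norm_num))]; exact h2
  · rw [hg _ (getD_lt hh (by norm_num)), hg _ (getD_lt hh (by norm_num))]; exact h3

theorem hexSym_congr {n : ℕ} {h : List ℕ} {g g' : ℕ → E} {e0 : E} (hh : HexOK n h)
    (hg : ∀ j < n, g' j = g j) (H : HexSym g h e0) : HexSym g' h e0 := by
  obtain ⟨e1, e2, s, t, w, a1, a2, a3, a4, a5, a6, a7, a8, a9, a10, b0, b5, b1, b4, b2, b3⟩ := H
  refine ⟨e1, e2, s, t, w, a1, a2, a3, a4, a5, a6, a7, a8, a9, a10, ?_, ?_, ?_, ?_, ?_, ?_⟩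
  · rw [hg _ (getD_lt hh (by norm_num))]; exact b0
  · rw [hg _ (getD_lt hh (by norm_num))]; exact b5
  · rw [hg _ (getD_lt hh (by norm_num))]; exact b1
  · rw [hg _ (getD_lt hh (by norm_num))]; exact b4
  · rw [hg _ (getD_lt hh (by norm_num))]; exact b2
  · rw [hg _ (getD_lt hh (by norm_num))]; exact b3

theorem hexRel_map {h : List ℕ} {g : ℕ → E} {Θ : E →ₗ[ℝ] E} (hΘ : Function.Surjective Θ)
    (H : HexRel g h) : HexRel (fun j => Θ (g j)) h := by
  have hinj : Function.Injective Θ := LinearMap.injective_iff_surjective.2 hΘ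
  obtain ⟨X, h0, ⟨a, b, h1⟩, ⟨c, d, h2⟩, ⟨e, f, h3⟩⟩ := H
  refine ⟨Θ X, ?_, ⟨a, b, ?_⟩, ⟨c, d, ?_⟩, ⟨e, f, ?_⟩⟩
  · intro h
    exact h0 (hinj (by rw [h, map_zero]))
  · rw [h1]; simp
  · rw [h2]; simp
  · rw [h3]; simp

theorem hex_card {n : ℕ} {h : List ℕ} (hh : HexOK n h) : h.toFinset.card = 6 := by
  obtain ⟨h1, ⟨r, h2⟩, h3⟩ := hh
  have h4 : (h.rotate r).Nodup := h2.imp (fun hab => ne_of_lt hab)
  have h5 : h.Nodup := List.nodup_rotate.1 h4
  rw [List.toFinset_card_of_nodup h5, h1]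

theorem hex_sub {n : ℕ} {h : List ℕ} (hh : HexOK n h) : h.toFinset ⊆ Finset.range n := by
  intro i hi
  exact Finset.mem_range.2 (hh.2.2 i (List.mem_toFinset.1 hi))

theorem gL_inj (k : ℕ) (S : Set ℕ) : Set.InjOn (gL k) S := by
  intro i _ j _ h
  simpa [gL] using h

theorem notMem_image_gL {k : ℕ} {S : Finset ℕ} {a : Lab} (h : ∀ j, gL k j ≠ a) :
    a ∉ S.image (gL k) := by
  rw [Finset.mem_image]
  rintro ⟨j, _, hj⟩
  exact h j hj

/-! ### The invariant -/

/-- The state after `k` steps. -/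
def State (n : ℕ) (hs : List (List ℕ)) (k : ℕ) : Prop :=
  ∃ (φ : Lab → E) (N : Finset Lab → Du) (e0 e3 e4 : E) (ω : E → E → E → ℝ) (κG : ℝ)
    (κ : ℕ × ℕ → ℝ),
    Real (labsK n hs k).toFinset
      (insert (pF (Finset.range n) (gL k) (aL k)) (fsets (cpxK n hs k))) φ N ∧
    Port (insert (pF (Finset.range n) (gL k) (aL k)) (fsets (cpxK n hs k))) φ N
      (Finset.range n) (Finset.range n) (gL k) (aL k) e0 e3 e4 ω κG κ ∧ 0 < κG ∧
    (∀ p ∈ Ed (Finset.range n), 0 < κ p) ∧ ∀ h ∈ hs, HexRel (fun j => φ (gL k j)) h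

theorem facets_zero (n : ℕ) (hs : List (List ℕ)) :
    ({pF (Finset.range n) (gL 0) (aL 0), pF (Finset.range n) (gL 0) cL} ∪
      (Ed (Finset.range n)).image (fun e => ({aL 0, cL, gL 0 e.1, gL 0 e.2} : Finset Lab))) =
    insert (pF (Finset.range n) (gL 0) (aL 0)) (fsets (cpxK n hs 0)) := by
  ext F
  simp only [Finset.mem_union, Finset.mem_insert, Finset.mem_singleton, Finset.mem_image,
    mem_fsets, cpxK, fInit, List.range_zero, List.flatMap_nil, List.append_nil, List.mem_cons,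
    List.mem_map]
  constructor
  · rintro ((h | h) | ⟨e, he, rfl⟩)
    · exact Or.inl h
    · exact Or.inr ⟨_, Or.inl rfl, by rw [pF_toFinset]; exact h.symm⟩
    · exact Or.inr ⟨_, Or.inr ⟨e, (mem_EdL n e).2 he, rfl⟩, by simp⟩
  · rintro (h | ⟨L, rfl | ⟨e, he, rfl⟩, rfl⟩)
    · exact Or.inl (Or.inl h)
    · exact Or.inl (Or.inr (pF_toFinset n _ _))
    · exact Or.inr ⟨e, (mem_EdL n e).1 he, by simp⟩

theorem labs_zero (n : ℕ) (hs : List (List ℕ)) :
    insert cL (pF (Finset.range n) (gL 0) (aL 0)) = (labsK n hs 0).toFinset := by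
  ext l
  rw [List.mem_toFinset, mem_labsK, Finset.mem_insert, mem_pF]
  constructor
  · rintro (h | h | ⟨j, hj, h⟩)
    · exact Or.inl h
    · exact Or.inr (Or.inl ⟨0, le_rfl, Or.inl h⟩)
    · exact Or.inr (Or.inl ⟨0, le_rfl, Or.inr ⟨j, Finset.mem_range.1 hj, h.symm⟩⟩)
  · rintro (h | ⟨i, hi, h⟩ | ⟨i, hi, _⟩)
    · exact Or.inl h
    · obtain rfl : i = 0 := by omega
      rcases h with h | ⟨j, hj, h⟩
      · exact Or.inr (Or.inl h)
      · exact Or.inr (Or.inr ⟨j, Finset.mem_range.2 hj, h.symm⟩)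
    · exact absurd hi (Nat.not_lt_zero _)

theorem state_zero (hI : ClaimInit) (hStd : ClaimStd) (o : OInst) (hv : OValid o)
    (hs : OSol o) : State o.1 o.2 0 := by
  obtain ⟨g, e0, e3, e4, ω, hF, hT, hC, hInt, hH⟩ := hStd o hv hs
  have hn : 7 ≤ o.1 := hv.1
  obtain ⟨φ, N, κG, κ, hR, hφ, hP, h1, h2⟩ := hI Lab inferInstance (Finset.range o.1)
    (Finset.range o.1) (gL 0) (aL 0) cL g e0 e3 e4 ω hF hT hC (Finset.Subset.refl _)
    (by rw [Finset.card_range]; omega) hInt (gL_inj 0 _)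
    (notMem_image_gL (by simp [gL, aL])) (notMem_image_gL (by simp [gL, cL]))
    (by simp [aL, cL])
  rw [facets_zero o.1 o.2] at hR hP
  rw [labs_zero o.1 o.2] at hR
  exact ⟨φ, N, e0, e3, e4, ω, κG, κ, hR, hP, h1, h2, fun h hh =>
    hexRel_congr (hv.2 h hh) (fun j hj => hφ j (Finset.mem_range.2 hj)) (hH h hh)⟩

theorem labsK_lab {n : ℕ} {hs : List (List ℕ)} {k : ℕ} {l : Lab} (hl : l ∈ labsK n hs k) :
    l.2.1 ≤ k ∧ (3 ≤ l.1 → l.2.1 < k) := by
  rw [mem_labsK] at hl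
  rcases hl with rfl | ⟨i, hi, rfl | ⟨j, _, rfl⟩⟩ | ⟨i, hi, h⟩
  · simp [cL]
  · simp [aL, hi]
  · simp [gL, hi]
  · obtain ⟨h1, h2⟩ := vBranch_label h
    rw [h2]
    exact ⟨hi.le, fun _ => hi⟩

theorem mem_VK {n k : ℕ} {l : Lab} :
    l ∈ VK (Finset.range n) (gL k) (gL (k + 1)) (aL k) (aL (k + 1)) (ap k 0) ↔
      (l = aL k ∨ ∃ j ∈ Finset.range n, gL k j = l) ∨
      (l = aL (k + 1) ∨ ∃ j ∈ Finset.range n, gL (k + 1) j = l) ∨ l = ap k 0 := by
  rw [VK, Finset.mem_union, Finset.mem_union, mem_pF, mem_pF, Finset.mem_singleton, or_assoc]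

theorem gL_mem {n : ℕ} {hs : List (List ℕ)} {k j : ℕ} (hj : j < n) : gL k j ∈ labsK n hs k :=
  mem_labsK.2 (Or.inr (Or.inl ⟨k, le_rfl, Or.inr ⟨j, hj, rfl⟩⟩))

theorem aL_mem {n : ℕ} {hs : List (List ℕ)} {k : ℕ} : aL k ∈ labsK n hs k :=
  mem_labsK.2 (Or.inr (Or.inl ⟨k, le_rfl, Or.inl rfl⟩))

theorem gL_succ_notMem {n : ℕ} {hs : List (List ℕ)} {k j : ℕ} : gL (k + 1) j ∉ labsK n hs k := by
  intro h
  have h1 := (labsK_lab h).1
  simp [gL] at h1

theorem aL_succ_notMem {n : ℕ} {hs : List (List ℕ)} {k : ℕ} : aL (k + 1) ∉ labsK n hs k := by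
  intro h
  have h1 := (labsK_lab h).1
  simp [aL] at h1

theorem ap_notMem {n : ℕ} {hs : List (List ℕ)} {k : ℕ} : ap k 0 ∉ labsK n hs k := by
  intro h
  have h1 := (labsK_lab h).2
  simp [ap] at h1

theorem inter_VK (n : ℕ) (hs : List (List ℕ)) (k : ℕ) :
    (labsK n hs k).toFinset ∩
      VK (Finset.range n) (gL k) (gL (k + 1)) (aL k) (aL (k + 1)) (ap k 0) =
    pF (Finset.range n) (gL k) (aL k) := by
  ext l
  rw [Finset.mem_inter, List.mem_toFinset, mem_VK, mem_pF]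
  constructor
  · rintro ⟨h1, h | (rfl | ⟨j, _, rfl⟩) | rfl⟩
    · exact h
    · exact absurd h1 aL_succ_notMem
    · exact absurd h1 gL_succ_notMem
    · exact absurd h1 ap_notMem
  · rintro (rfl | ⟨j, hj, rfl⟩)
    · exact ⟨aL_mem, Or.inl (Or.inl rfl)⟩
    · exact ⟨gL_mem (Finset.mem_range.1 hj), Or.inl (Or.inr ⟨j, hj, rfl⟩)⟩

theorem labs_step (n : ℕ) (hs : List (List ℕ)) (k : ℕ) :
    ((labsK n hs k).toFinset ∪
      VK (Finset.range n) (gL k) (gL (k + 1)) (aL k) (aL (k + 1)) (ap k 0)) ∪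
      (vBranch n (hs.getD k []) k).toFinset = (labsK n hs (k + 1)).toFinset := by
  ext l
  rw [Finset.mem_union, Finset.mem_union, List.mem_toFinset, List.mem_toFinset,
    List.mem_toFinset, mem_VK, mem_labsK, mem_labsK]
  constructor
  · rintro ((( h | ⟨i, hi, h⟩ | ⟨i, hi, h⟩) | ((h | ⟨j, hj, h⟩) | (h | ⟨j, hj, h⟩) | h)) | h)
    · exact Or.inl h
    · exact Or.inr (Or.inl ⟨i, by omega, h⟩)
    · exact Or.inr (Or.inr ⟨i, by omega, h⟩)
    · exact Or.inr (Or.inl ⟨k, by omega, Or.inl h⟩)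
    · exact Or.inr (Or.inl ⟨k, by omega, Or.inr ⟨j, Finset.mem_range.1 hj, h.symm⟩⟩)
    · exact Or.inr (Or.inl ⟨k + 1, le_rfl, Or.inl h⟩)
    · exact Or.inr (Or.inl ⟨k + 1, le_rfl, Or.inr ⟨j, Finset.mem_range.1 hj, h.symm⟩⟩)
    · refine Or.inr (Or.inr ⟨k, by omega, ?_⟩)
      rw [h, vBranch]
      simp
    · exact Or.inr (Or.inr ⟨k, by omega, h⟩)
  · rintro (h | ⟨i, hi, h⟩ | ⟨i, hi, h⟩)
    · exact Or.inl (Or.inl (Or.inl h))
    · rcases Nat.lt_or_ge k i with hik | hik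
      · obtain rfl : i = k + 1 := by omega
        rcases h with h | ⟨j, hj, h⟩
        · exact Or.inl (Or.inr (Or.inr (Or.inl (Or.inl h))))
        · exact Or.inl (Or.inr (Or.inr (Or.inl (Or.inr ⟨j, Finset.mem_range.2 hj, h.symm⟩))))
      · exact Or.inl (Or.inl (Or.inr (Or.inl ⟨i, hik, h⟩)))
    · rcases Nat.lt_or_ge i k with hik | hik
      · exact Or.inl (Or.inl (Or.inr (Or.inr ⟨i, hik, h⟩)))
      · obtain rfl : i = k := by omega
        exact Or.inr h

theorem state_succ (hSym : ClaimSym) (hK : ClaimK) (hG : ClaimGlue) (hQ : ClaimTransQ)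
    (hS : ClaimTransS) (hB : ClaimBranch) {n : ℕ} {hs : List (List ℕ)} (hn : 7 ≤ n)
    (hok : ∀ h ∈ hs, HexOK n h) {k : ℕ} (hk : k < hs.length) (H : State n hs k) :
    State n hs (k + 1) := by
  obtain ⟨φ, N, e0, e3, e4, ω, κG, κ, hR, hP, hκG, hκ, hrel⟩ := H
  have hmem : hs.getD k [] ∈ hs := by
    rw [List.getD_eq_getElem _ _ hk]
    exact List.getElem_mem hk
  have hhex := hok _ hmem
  have hsub := hex_sub hhex
  have hcard := hex_card hhex
  have hcyc : Cyc (fun j => φ (gL k j)) (hs.getD k []).toFinset ω e3 e4 :=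
    ⟨fun j hj => hP.cyc.light j (hsub hj), fun j hj => hP.cyc.inpl j (hsub hj),
      fun i hi j hj l hl => hP.cyc.pos i (hsub hi) j (hsub hj) l (hsub hl)⟩
  obtain ⟨f0, hf1, hf2, hf3, hf4, hf5⟩ := hSym n (hs.getD k []) (fun j => φ (gL k j)) ω e0 e3 e4
    hhex hP.frame hP.tri hcyc (hrel _ hmem)
  have hdisj : Disjoint (pF (Finset.range n) (gL k) (aL k))
      (pF (Finset.range n) (gL (k + 1)) (aL (k + 1))) := by
    rw [Finset.disjoint_left]
    intro l h1 h2
    rw [mem_pF] at h1 h2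
    rcases h1 with rfl | ⟨j, _, rfl⟩ <;> rcases h2 with h2 | ⟨i, _, h2⟩ <;>
      simp [aL, gL] at h2
  have hapn : ap k 0 ∉ pF (Finset.range n) (gL k) (aL k) ∪
      pF (Finset.range n) (gL (k + 1)) (aL (k + 1)) := by
    rw [Finset.mem_union, mem_pF, mem_pF]
    rintro ((h | ⟨j, _, h⟩) | (h | ⟨j, _, h⟩)) <;> simp [aL, gL, ap] at h
  obtain ⟨φ2, N2, Θ, ω', κG', κ2, κ', κ3, hR2, hIso, hφ2, hφ2', hP1, hκ2, hP2, hκG', hκ', hP3,
    hκ3⟩ := hK Lab inferInstance (Finset.range n) (Finset.range n) (hs.getD k []).toFinset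
      (gL k) (gL (k + 1)) (aL k) (aL (k + 1)) (ap k 0) φ e0 e3 e4 f0 ω hP.frame hP.tri hP.cyc
      (Finset.Subset.refl _) (by rw [Finset.card_range]; omega) hP.int hP.apex hf1 hf2 hf3 hsub
      (by rw [hcard]; norm_num) hf4 (gL_inj k _) (gL_inj (k + 1) _)
      (notMem_image_gL (by simp [gL, aL])) (notMem_image_gL (by simp [gL, aL])) hdisj hapn
  have hint := inter_VK n hs k
  have hag : ∀ v ∈ pF (Finset.range n) (gL k) (aL k), φ v = φ2 v := fun v hv => (hφ2 v hv).symm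
  have hR' := hG Lab inferInstance _ _ _ _ φ φ2 N N2 (Finset.range n) (Finset.range n)
    (Finset.range n) (gL k) (aL k) e0 e3 e4 ω κG 0 κ κ2 hR hR2 hint hag hP hP1
    (by rw [add_zero]; exact hκG) (fun p hp => add_pos (hκ p hp) (hκ2 p hp))
  have hout := hQ Lab inferInstance _ _ _ _ φ φ2 N N2 _ (Finset.range n) (Finset.range n)
    (gL (k + 1)) (aL (k + 1)) (Θ e0) (Θ e3) (-Θ e4) ω' κG' κ' hR hR2 hint hP.mem hP1.mem hag
    hP2 hdisj.symm
  have hside := hS Lab inferInstance _ _ _ _ φ φ2 N N2 (Finset.range n) (Finset.range n)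
    (Finset.range n) (hs.getD k []).toFinset (gL k) (aL k) (ap k 0) e0 e3 e4 f0 ω κG κ κ2 κ3
    hR hR2 hint hag hP hP1 hκG hP3 (by rw [List.mem_toFinset]; exact ap_notMem)
    (by simp [ap, aL])
  have hgφ : ∀ j < n, gφ (labsK n hs k).toFinset φ φ2 (pol k 0 j) = φ (gL k j) := by
    intro j hj
    rw [pol_zero, gφ, if_pos (List.mem_toFinset.2 (gL_mem hj))]
  have hnew : ∀ l ∈ vBranch n (hs.getD k []) k, l ≠ ap k 0 → l ∉ (labsK n hs k).toFinset ∪
      VK (Finset.range n) (gL k) (gL (k + 1)) (aL k) (aL (k + 1)) (ap k 0) := by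
    intro l hl hne
    obtain ⟨h3, h4⟩ := vBranch_label hl
    rw [Finset.mem_union, List.mem_toFinset, mem_VK]
    rintro (h | ((rfl | ⟨j, _, rfl⟩) | (rfl | ⟨j, _, rfl⟩) | h))
    · have h5 := (labsK_lab h).2 h3
      omega
    · simp [aL] at h3
    · simp [gL] at h3
    · simp [aL] at h3
    · simp [gL] at h3
    · exact hne h
  have hside' := hside
  rw [← pol_zero k] at hside'
  obtain ⟨φ3, N3, hφ3, hR3, hports⟩ := hB n k (hs.getD k []) _ _ _ _ f0 e4 (-e3) ω (-1 / κG) κ3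
    hn hhex hR' hside' hκ3 (hexSym_congr hhex hgφ hf5) hnew
  rw [pol_zero] at hR3
  have hout' := hports _ _ _ _ _ _ _ _ _ _ hout (by
    rw [pol_zero, Finset.disjoint_left]
    intro l h1 h2
    rw [mem_pF] at h1 h2
    rcases h1 with rfl | ⟨j, _, rfl⟩ <;> rcases h2 with h2 | ⟨i, _, h2⟩ <;>
      simp [aL, gL, ap] at h2)
  rw [pol_zero] at hout'
  rw [labs_step] at hR3
  rw [facets_step (by omega)] at hR3 hout'
  refine ⟨φ3, N3, Θ e0, Θ e3, -Θ e4, ω', κG', κ', hR3, hout', hκG', hκ', fun h hh => ?_⟩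
  refine hexRel_congr (hok h hh) (fun j hj => ?_) (hexRel_map hIso.surj (hrel h hh))
  have h1 : gL (k + 1) j ∈ (labsK n hs k).toFinset ∪
      VK (Finset.range n) (gL k) (gL (k + 1)) (aL k) (aL (k + 1)) (ap k 0) :=
    Finset.mem_union_right _ (mem_VK.2 (Or.inr (Or.inl (Or.inr ⟨j, Finset.mem_range.2 hj, rfl⟩))))
  rw [hφ3 _ h1, gφ, if_neg (by rw [List.mem_toFinset]; exact gL_succ_notMem)]
  exact hφ2' j (Finset.mem_range.2 hj)

theorem labs_end (o : OInst) : labsK o.1 o.2 o.2.length = labs o := rfl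

theorem cpx_end (o : OInst) :
    insert (pF (Finset.range o.1) (gL o.2.length) (aL o.2.length))
      (fsets (cpxK o.1 o.2 o.2.length)) = fsets (cpx o) := by
  have h1 : cpx o = cpxK o.1 o.2 o.2.length ++
      [(List.range o.1).map (gL o.2.length) ++ [aL o.2.length]] := rfl
  rw [h1, fsets_append]
  ext F
  rw [Finset.mem_insert, Finset.mem_union]
  have h2 : F ∈ fsets [(List.range o.1).map (gL o.2.length) ++ [aL o.2.length]] ↔
      F = pF (Finset.range o.1) (gL o.2.length) (aL o.2.length) := by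
    rw [mem_fsets]
    simp only [List.mem_singleton, exists_eq_left]
    rw [pF_toFinset]
    exact eq_comm
  rw [h2]
  exact or_comm

end Build

open Build in
/-- Completeness of the construction. -/
theorem claimBuild (hI : ClaimInit) (hStd : ClaimStd) (hSym : ClaimSym) (hK : ClaimK)
    (hG : ClaimGlue) (_hP : ClaimTransP) (hQ : ClaimTransQ) (hS : ClaimTransS)
    (hB : ClaimBranch) : ClaimBuild := by
  intro o hv hs
  have key : ∀ k ≤ o.2.length, State o.1 o.2 k := by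
    intro k
    induction k with
    | zero => intro _; exact state_zero hI hStd o hv hs
    | succ k ih =>
      intro hk
      exact state_succ hSym hK hG hQ hS hB hv.1 hv.2 (by omega) (ih (by omega))
  obtain ⟨φ, N, e0, e3, e4, ω, κG, κ, hR, _⟩ := key o.2.length le_rfl
  rw [cpx_end, labs_end] at hR
  exact ⟨φ, N, hR⟩

end Pool.Agent.Work.MP_5b14b0_lc
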