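import Pool.Agent.Work.MP_5b14b0_lc.Alg

/-!
# Completeness of the translation of quadratic systems into the line problem
-/

set_option autoImplicit false
set_option linter.unreachableTactic false
set_option linter.unnecessarySeqFocus false
set_option linter.unusedTactic false

namespace Pool.Agent.Work.MP_5b14b0_lc

open Pool.Agent.PT

/-! ### The positions of the points -/

/-- The points, for given register values `y`. -/
noncomputable def ccPos (eps : ℝ) (y : ℕ → ℝ) : ℕ → ℝ
  | 0 => 0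
  | 1 => 5 / 8
  | 2 => 7 / 8
  | 3 => 1
  | 4 => 9 / 8
  | 5 => 5 / 4
  | 6 => 11 / 8
  | 7 => 7 / 4
  | 8 => 2
  | 9 => 9 / 4
  | 10 => 11 / 4
  | 11 => 3
  | 12 => 3 + 2 * eps
  | (k + 13) => if k % 2 = 0 then 2 ^ (k / 2 + 2) else 2 ^ (k / 2 + 2) * y (k / 2 + 2)

theorem cc_cI (eps : ℝ) (y : ℕ → ℝ) (e : ℕ) : ccPos eps y (cI e) = 2 ^ e := by
  match e with
  | 0 => simp [cI, ccPos]
  | 1 => simp [cI, ccPos]
  | (k + 2) =>
    have h : cI (k + 2) = 2 * k + 13 := by simp [cI]; omega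
    rw [h]
    have h1 : 2 * k % 2 = 0 := by omega
    have h2 : 2 * k / 2 = k := by omega
    simp [ccPos, h2]

theorem cc_sI (eps : ℝ) (y : ℕ → ℝ) (e : ℕ) (he : 2 ≤ e) :
    ccPos eps y (sI e) = 2 ^ e * y e := by
  obtain ⟨k, rfl⟩ : ∃ k, e = k + 2 := ⟨e - 2, by omega⟩
  have h : sI (k + 2) = (2 * k + 1) + 13 := by simp [sI]; omega
  rw [h]
  have h1 : ¬ (2 * k + 1) % 2 = 0 := by omega
  have h2 : (2 * k + 1) / 2 = k := by omega
  simp only [ccPos, if_neg h1, h2]

theorem cc_mono (eps : ℝ) (y : ℕ → ℝ) (he : 0 < eps) (he' : eps < 1 / 4)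
    (hy : ∀ e, 1 < y e ∧ y e < 2) : StrictMono (ccPos eps y) := by
  refine strictMono_nat_of_lt_succ fun k => ?_
  match k with
  | 0 => norm_num [ccPos]
  | 1 => norm_num [ccPos]
  | 2 => norm_num [ccPos]
  | 3 => norm_num [ccPos]
  | 4 => norm_num [ccPos]
  | 5 => norm_num [ccPos]
  | 6 => norm_num [ccPos]
  | 7 => norm_num [ccPos]
  | 8 => norm_num [ccPos]
  | 9 => norm_num [ccPos]
  | 10 => norm_num [ccPos]
  | 11 => simp only [ccPos]; linarith
  | 12 => simp only [ccPos]; norm_num; linarith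
  | (k + 13) =>
    have e1 : k + 13 + 1 = (k + 1) + 13 := by ring
    rw [e1]
    simp only [ccPos]
    have hp : (0 : ℝ) < 2 ^ (k / 2 + 2) := by positivity
    rcases Nat.even_or_odd' k with ⟨m, rfl | rfl⟩
    · have h1 : 2 * m % 2 = 0 := by omega
      have h2 : ¬ (2 * m + 1) % 2 = 0 := by omega
      have h3 : 2 * m / 2 = m := by omega
      have h4 : (2 * m + 1) / 2 = m := by omega
      rw [if_pos h1, if_neg h2, h3, h4]
      have hp : (0 : ℝ) < 2 ^ (m + 2) := by positivity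
      nlinarith [(hy (m + 2)).1]
    · have h1 : ¬ (2 * m + 1) % 2 = 0 := by omega
      have h2 : (2 * m + 1 + 1) % 2 = 0 := by omega
      have h3 : (2 * m + 1) / 2 = m := by omega
      have h4 : (2 * m + 1 + 1) / 2 = m + 1 := by omega
      rw [if_neg h1, if_pos h2, h3, h4]
      have hp : (0 : ℝ) < 2 ^ (m + 2) := by positivity
      have h5 : (2 : ℝ) ^ (m + 1 + 2) = 2 ^ (m + 2) * 2 := by ring
      rw [h5]
      exact mul_lt_mul_of_pos_left (hy (m + 2)).2 hp

/-! ### Involutions -/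

theorem cc_H4 (t : ℕ → ℝ) (n i j k l : ℕ) (h0 : t 0 = 0) (hn : 1 < n) (hi : i + 1 < n)
    (hj : j + 1 < n) (hk : k + 1 < n) (hl : l + 1 < n) (h : t i * t j = t k * t l) :
    HexInv t n (H4 n i j k l) := by
  have hn1 : n - 1 + 1 = n := by omega
  have h01 : ¬ 0 + 1 = n := by omega
  have hmm : ∀ i j : ℕ, i + 1 < n → j + 1 < n → ∀ g : ℝ, t i * t j = g →
      Inv t n 1 0 (-g) (min i j) (max i j) := by
    intro i j hi hj g hg
    have hi' : ¬ i + 1 = n := by omega
    have hj' : ¬ j + 1 = n := by omega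
    rcases le_total i j with hij | hij
    · rw [min_eq_left hij, max_eq_right hij]
      simp only [Inv, hX, hY, if_neg hi', if_neg hj']
      linarith
    · rw [min_eq_right hij, max_eq_left hij]
      simp only [Inv, hX, hY, if_neg hi', if_neg hj']
      linarith
  have hz : ∀ g : ℝ, Inv t n 1 0 g 0 (n - 1) := by
    intro g
    simp only [Inv, hX, hY, if_neg h01, if_pos hn1, h0]
    ring
  unfold H4
  split_ifs
  · refine ⟨1, 0, -(t i * t j), by simp, ?_, ?_, ?_⟩
    · simpa using hz _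
    · simpa using hmm i j hi hj _ rfl
    · simpa using hmm k l hk hl _ h.symm
  · refine ⟨1, 0, -(t i * t j), by simp, ?_, ?_, ?_⟩
    · simpa using hz _
    · simpa using hmm k l hk hl _ h.symm
    · simpa using hmm i j hi hj _ rfl

theorem cc_centre (t : ℕ → ℝ) (n a p b b' a' : ℕ) (hn : 1 < n) (ha : a + 1 < n)
    (hp : p + 1 < n) (hb : b + 1 < n) (hb' : b' + 1 < n) (ha' : a' + 1 < n)
    (h : t b * t b' - t p * (t b + t b') = t a * t a' - t p * (t a + t a')) :
    HexInv t n [a, p, b, b', n - 1, a'] := by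
  have hn1 : n - 1 + 1 = n := by omega
  refine ⟨1, -t p, -(t a * t a' - t p * (t a + t a')), by simp, ?_, ?_, ?_⟩
  · simp only [List.getD_cons_zero, List.getD_cons_succ, Inv, hX, hY, if_neg (ne_of_lt ha),
      if_neg (ne_of_lt ha')]
    ring
  · simp only [List.getD_cons_zero, List.getD_cons_succ, Inv, hX, hY, if_neg (ne_of_lt hp),
      if_pos hn1]
    ring
  · simp only [List.getD_cons_zero, List.getD_cons_succ, Inv, hX, hY, if_neg (ne_of_lt hb),
      if_neg (ne_of_lt hb')]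
    linarith

/-! ### The gates -/

section gates

variable {eps : ℝ} {y : ℕ → ℝ} {n E : ℕ}

theorem cc_lt (hn : n = 2 * E + 12) {e : ℕ} (he : e ≤ E) : cI e + 1 < n ∧ sI e + 1 < n := by
  unfold cI sI
  constructor
  · split_ifs <;> omega
  · omega

theorem cc_copy (hn : n = 2 * E + 12) {o v : ℕ} (ho : 2 ≤ o) (hv : 2 ≤ v) (ho' : o ≤ E)
    (hv' : v ≤ E) (h : y o = y v) : ∀ x ∈ hCopy n o v, HexInv (ccPos eps y) n x := by
  intro x hx
  simp only [hCopy, List.mem_singleton] at hx
  subst hx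
  refine cc_H4 _ _ _ _ _ _ rfl (by omega) (cc_lt hn ho').2 (cc_lt hn hv').1 (cc_lt hn hv').2
    (cc_lt hn ho').1 ?_
  rw [cc_cI, cc_cI, cc_sI _ _ _ ho, cc_sI _ _ _ hv, h]
  ring

theorem cc_mul (hn : n = 2 * E + 12) {a b c s : ℕ} (ha : 2 ≤ a) (hb : 2 ≤ b) (hc : 2 ≤ c)
    (ha' : a ≤ E) (hb' : b ≤ E) (hc' : c ≤ E) (h1 : c ≤ a + b + s) (h2 : a + b + s - c ≤ E)
    (h : y a * y b = 2 ^ s * y c) : ∀ x ∈ hMul n a b c s, HexInv (ccPos eps y) n x := by
  intro x hx
  simp only [hMul, List.mem_singleton] at hx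
  subst hx
  refine cc_H4 _ _ _ _ _ _ rfl (by omega) (cc_lt hn ha').2 (cc_lt hn hb').2 (cc_lt hn hc').2
    (cc_lt hn h2).1 ?_
  rw [cc_cI, cc_sI _ _ _ ha, cc_sI _ _ _ hb, cc_sI _ _ _ hc]
  have h3 : (2 : ℝ) ^ c * 2 ^ (a + b + s - c) = 2 ^ (a + b + s) := by
    rw [← pow_add]; congr 1; omega
  calc 2 ^ a * y a * (2 ^ b * y b) = 2 ^ a * 2 ^ b * (y a * y b) := by ring
    _ = 2 ^ a * 2 ^ b * (2 ^ s * y c) := by rw [h]
    _ = 2 ^ (a + b + s) * y c := by ring
    _ = 2 ^ c * y c * 2 ^ (a + b + s - c) := by rw [← h3]; ring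

theorem cc_rI (A : ℕ) (b : Bool) (hA : 2 ≤ A) :
    ccPos eps y (rI A b) = 2 ^ A * (if b then y A else 1) := by
  cases b
  · simp [rI, cc_cI]
  · simp [rI, cc_sI _ _ _ hA]

theorem cc_rI_lt (hn : n = 2 * E + 12) (A : ℕ) (b : Bool) (hA : A ≤ E) : rI A b + 1 < n := by
  cases b
  · simpa [rI] using (cc_lt hn hA).1
  · simpa [rI] using (cc_lt hn hA).2

theorem cc_sum (hn : n = 2 * E + 12) {A α B β C γ p p' : ℕ} {bA bB : Bool} (hA : 2 ≤ A)
    (hB : 2 ≤ B) (hC : 2 ≤ C) (hp : 2 ≤ p) (hp' : 2 ≤ p') (hA' : A ≤ E) (hB' : B ≤ E)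
    (hC' : C ≤ E) (hpE : p + 1 ≤ E) (hpE' : p' ≤ E)
    (h1 : γ + A ≤ p + C + 1 + α) (h1' : p + C + 1 + α - γ - A ≤ E)
    (h2 : γ + B ≤ p + C + 1 + β) (h2' : p + C + 1 + β - γ - B ≤ E) (hyC : 0 < y C)
    (e1 : y p * (2 ^ γ * y C) = 2 * (2 ^ α * (if bA then y A else 1)))
    (e2 : 2 ^ p' * y p' * (2 ^ γ * y C) = 2 ^ (p + 1) * (2 ^ β * (if bB then y B else 1)))
    (e3 : 2 ^ α * (if bA then y A else 1) + 2 ^ β * (if bB then y B else 1) = 2 ^ γ * y C) :
    ∀ x ∈ hSum n A bA α B bB β C γ p p', HexInv (ccPos eps y) n x := by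
  intro x hx
  simp only [hSum, List.mem_cons, List.not_mem_nil, or_false] at hx
  have hγ : (2 : ℝ) ^ γ ≠ 0 := by positivity
  rcases hx with rfl | rfl | rfl
  · refine cc_H4 _ _ _ _ _ _ rfl (by omega) (cc_lt hn (by omega)).2 (cc_lt hn hC').2
      (cc_rI_lt hn _ _ hA') (cc_lt hn h1').1 ?_
    rw [cc_cI, cc_sI _ _ _ hp, cc_sI _ _ _ hC, cc_rI _ _ hA]
    have h3 : (2 : ℝ) ^ A * 2 ^ (p + C + 1 + α - γ - A) * 2 ^ γ = 2 ^ (p + C + 1 + α) := by
      rw [← pow_add, ← pow_add]; congr 1; omega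
    apply mul_right_cancel₀ hγ
    calc 2 ^ p * y p * (2 ^ C * y C) * 2 ^ γ = 2 ^ p * 2 ^ C * (y p * (2 ^ γ * y C)) := by ring
      _ = 2 ^ p * 2 ^ C * (2 * (2 ^ α * (if bA then y A else 1))) := by rw [e1]
      _ = 2 ^ (p + C + 1 + α) * (if bA then y A else 1) := by ring
      _ = _ := by rw [← h3]; ring
  · refine cc_H4 _ _ _ _ _ _ rfl (by omega) (cc_lt hn hpE').2 (cc_lt hn hC').2
      (cc_rI_lt hn _ _ hB') (cc_lt hn h2').1 ?_
    rw [cc_cI, cc_sI _ _ _ hp', cc_sI _ _ _ hC, cc_rI _ _ hB]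
    have h3 : (2 : ℝ) ^ B * 2 ^ (p + C + 1 + β - γ - B) * 2 ^ γ = 2 ^ (p + C + 1 + β) := by
      rw [← pow_add, ← pow_add]; congr 1; omega
    apply mul_right_cancel₀ hγ
    calc 2 ^ p' * y p' * (2 ^ C * y C) * 2 ^ γ = 2 ^ C * (2 ^ p' * y p' * (2 ^ γ * y C)) := by
          ring
      _ = 2 ^ C * (2 ^ (p + 1) * (2 ^ β * (if bB then y B else 1))) := by rw [e2]
      _ = 2 ^ (p + C + 1 + β) * (if bB then y B else 1) := by ring
      _ = _ := by rw [← h3]; ring
  · refine cc_centre _ _ _ _ _ _ _ (by omega) (cc_lt hn hpE').2 (cc_lt hn (by omega)).1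
      (cc_lt hn (by omega)).2 (cc_lt hn hpE).1 (by omega) ?_
    rw [cc_cI, cc_cI, cc_sI _ _ _ hp, cc_sI _ _ _ hp']
    have h0 : ccPos eps y 0 = 0 := rfl
    rw [h0]
    have hc : (2 : ℝ) ^ γ * y C ≠ 0 := by positivity
    have h4 : 2 ^ p * y p + 2 ^ p' * y p' = (2 : ℝ) ^ (p + 1) := by
      apply mul_right_cancel₀ hc
      calc (2 ^ p * y p + 2 ^ p' * y p') * (2 ^ γ * y C) =
          2 ^ p * (y p * (2 ^ γ * y C)) + 2 ^ p' * y p' * (2 ^ γ * y C) := by ring
        _ = 2 ^ p * (2 * (2 ^ α * (if bA then y A else 1))) +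
            2 ^ (p + 1) * (2 ^ β * (if bB then y B else 1)) := by rw [e1, e2]
        _ = 2 ^ (p + 1) * (2 ^ α * (if bA then y A else 1) +
            2 ^ β * (if bB then y B else 1)) := by ring
        _ = _ := by rw [e3]
    have h5 : (2 : ℝ) ^ (p + 1) = 2 * 2 ^ p := by ring
    rw [h5] at h4 ⊢
    linear_combination (2 : ℝ) ^ p * h4

end gates

/-! ### The registers of the zones -/

/-- Registers of an additive constraint. -/
noncomputable def ccA (a b c : ℝ) : ℕ → ℝ
  | 0 => a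
  | 1 => b
  | 2 => c
  | 3 => (2 + a) / 2
  | 4 => (2 + a + b) / 4
  | 5 => 4 * a / (2 + a)
  | 6 => 4 / (2 + a)
  | 7 => 4 * b / (2 + a + b)
  | 8 => 2 * (2 + a) / (2 + a + b)
  | 9 => 4 * c / (2 + a + b)
  | 10 => 7 / (2 + a + b)
  | _ => 3 / 2

/-- Registers of a multiplicative constraint. -/
noncomputable def ccM (z k i j : ℝ) : ℕ → ℝ
  | 0 => z
  | 1 => k
  | 2 => i
  | 3 => j
  | 4 => (2 + z) / 2
  | 5 => (2 + z + k) / 4
  | 6 => (2 + i) / 2
  | 7 => (2 + i + j) / 4
  | 8 => i * j / 2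
  | 9 => z * k / 2
  | 10 => 3 * (2 + z + k) / 8
  | 11 => 3 * (2 + i + j) / 8
  | 12 => (3 / 2 * (2 + z + k) + i * j) / 8
  | 13 => 4 * z / (2 + z)
  | 14 => 4 / (2 + z)
  | 15 => 4 * k / (2 + z + k)
  | 16 => 2 * (2 + z) / (2 + z + k)
  | 17 => 4 * i / (2 + i)
  | 18 => 4 / (2 + i)
  | 19 => 4 * j / (2 + i + j)
  | 20 => 2 * (2 + i) / (2 + i + j)
  | 21 => 8 * (i * j) / (3 / 2 * (2 + z + k) + i * j)
  | 23 => 3 * (2 + z + k) / (3 / 2 * (2 + z + k) + i * j)
  | 24 => 8 * (z * k) / (3 / 2 * (2 + z + k) + i * j)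
  | 26 => 3 * (2 + i + j) / (3 / 2 * (2 + z + k) + i * j)
  | _ => 3 / 2

theorem ccA_bd {a b c : ℝ} (ha : 1499 / 1000 ≤ a ∧ a ≤ 1501 / 1000)
    (hb : 1499 / 1000 ≤ b ∧ b ≤ 1501 / 1000) (hc : 1499 / 1000 ≤ c ∧ c ≤ 1501 / 1000) (r : ℕ) :
    1 < ccA a b c r ∧ ccA a b c r < 2 := by
  obtain ⟨a1, a2⟩ := ha
  obtain ⟨b1, b2⟩ := hb
  obtain ⟨c1, c2⟩ := hc
  have h1 : 0 < 2 + a := by linarith
  have h2 : 0 < 2 + a + b := by linarith
  match r with
  | 0 => simp only [ccA]; constructor <;> linarith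
  | 1 => simp only [ccA]; constructor <;> linarith
  | 2 => simp only [ccA]; constructor <;> linarith
  | 3 => simp only [ccA]; constructor <;> linarith
  | 4 => simp only [ccA]; constructor <;> linarith
  | 5 => simp only [ccA]; exact ⟨(lt_div_iff₀ h1).2 (by linarith), (div_lt_iff₀ h1).2 (by linarith)⟩
  | 6 => simp only [ccA]; exact ⟨(lt_div_iff₀ h1).2 (by linarith), (div_lt_iff₀ h1).2 (by linarith)⟩
  | 7 => simp only [ccA]; exact ⟨(lt_div_iff₀ h2).2 (by linarith), (div_lt_iff₀ h2).2 (by linarith)⟩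
  | 8 => simp only [ccA]; exact ⟨(lt_div_iff₀ h2).2 (by linarith), (div_lt_iff₀ h2).2 (by linarith)⟩
  | 9 => simp only [ccA]; exact ⟨(lt_div_iff₀ h2).2 (by linarith), (div_lt_iff₀ h2).2 (by linarith)⟩
  | 10 => simp only [ccA]; exact ⟨(lt_div_iff₀ h2).2 (by linarith), (div_lt_iff₀ h2).2 (by linarith)⟩
  | (k + 11) => simp only [ccA]; norm_num

theorem ccM_bd {z k i j : ℝ} (hz : 1499 / 1000 ≤ z ∧ z ≤ 1501 / 1000)
    (hk : 1499 / 1000 ≤ k ∧ k ≤ 1501 / 1000) (hi : 1499 / 1000 ≤ i ∧ i ≤ 1501 / 1000)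
    (hj : 1499 / 1000 ≤ j ∧ j ≤ 1501 / 1000) (r : ℕ) :
    1 < ccM z k i j r ∧ ccM z k i j r < 2 := by
  obtain ⟨z1, z2⟩ := hz
  obtain ⟨k1, k2⟩ := hk
  obtain ⟨i1, i2⟩ := hi
  obtain ⟨j1, j2⟩ := hj
  have pij1 : 1499 / 1000 * (1499 / 1000) ≤ i * j := by gcongr
  have pij2 : i * j ≤ 1501 / 1000 * (1501 / 1000) := by gcongr
  have pzk1 : 1499 / 1000 * (1499 / 1000) ≤ z * k := by gcongr
  have pzk2 : z * k ≤ 1501 / 1000 * (1501 / 1000) := by gcongr
  have h1 : 0 < 2 + z := by linarith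
  have h2 : 0 < 2 + z + k := by linarith
  have h3 : 0 < 2 + i := by linarith
  have h4 : 0 < 2 + i + j := by linarith
  have h5 : 0 < 3 / 2 * (2 + z + k) + i * j := by linarith
  match r with
  | 0 => simp only [ccM]; constructor <;> linarith
  | 1 => simp only [ccM]; constructor <;> linarith
  | 2 => simp only [ccM]; constructor <;> linarith
  | 3 => simp only [ccM]; constructor <;> linarith
  | 4 => simp only [ccM]; constructor <;> linarith
  | 5 => simp only [ccM]; constructor <;> linarith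
  | 6 => simp only [ccM]; constructor <;> linarith
  | 7 => simp only [ccM]; constructor <;> linarith
  | 8 => simp only [ccM]; constructor <;> linarith
  | 9 => simp only [ccM]; constructor <;> linarith
  | 10 => simp only [ccM]; constructor <;> linarith
  | 11 => simp only [ccM]; constructor <;> linarith
  | 12 => simp only [ccM]; constructor <;> linarith
  | 13 => simp only [ccM]; exact ⟨(lt_div_iff₀ h1).2 (by linarith), (div_lt_iff₀ h1).2 (by linarith)⟩
  | 14 => simp only [ccM]; exact ⟨(lt_div_iff₀ h1).2 (by linarith), (div_lt_iff₀ h1).2 (by linarith)⟩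
  | 15 => simp only [ccM]; exact ⟨(lt_div_iff₀ h2).2 (by linarith), (div_lt_iff₀ h2).2 (by linarith)⟩
  | 16 => simp only [ccM]; exact ⟨(lt_div_iff₀ h2).2 (by linarith), (div_lt_iff₀ h2).2 (by linarith)⟩
  | 17 => simp only [ccM]; exact ⟨(lt_div_iff₀ h3).2 (by linarith), (div_lt_iff₀ h3).2 (by linarith)⟩
  | 18 => simp only [ccM]; exact ⟨(lt_div_iff₀ h3).2 (by linarith), (div_lt_iff₀ h3).2 (by linarith)⟩
  | 19 => simp only [ccM]; exact ⟨(lt_div_iff₀ h4).2 (by linarith), (div_lt_iff₀ h4).2 (by linarith)⟩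
  | 20 => simp only [ccM]; exact ⟨(lt_div_iff₀ h4).2 (by linarith), (div_lt_iff₀ h4).2 (by linarith)⟩
  | 21 => simp only [ccM]; exact ⟨(lt_div_iff₀ h5).2 (by linarith), (div_lt_iff₀ h5).2 (by linarith)⟩
  | 22 => simp only [ccM]; norm_num
  | 23 => simp only [ccM]; exact ⟨(lt_div_iff₀ h5).2 (by linarith), (div_lt_iff₀ h5).2 (by linarith)⟩
  | 24 => simp only [ccM]; exact ⟨(lt_div_iff₀ h5).2 (by linarith), (div_lt_iff₀ h5).2 (by linarith)⟩
  | 25 => simp only [ccM]; norm_num
  | 26 => simp only [ccM]; exact ⟨(lt_div_iff₀ h5).2 (by linarith), (div_lt_iff₀ h5).2 (by linarith)⟩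
  | (k + 27) => simp only [ccM]; norm_num

theorem cc_zoneM {eps : ℝ} {y : ℕ → ℝ} {n L N o i j k : ℕ} {a b c z : ℝ} (hn : n = 6 * L + 12)
    (hL : 8 ≤ L) (hi : i < N) (hj : j < N) (hk : k < N) (ho : L + N + 4 ≤ o)
    (ho' : o + 32 ≤ 2 * L) (ha : 0 < a) (hb : 0 < b) (hc : 0 < c) (hz : 0 < z)
    (hy : ∀ r, r < 28 → y (o + r) = ccM z c a b r) (hyz : y L = z) (hyi : y (L + i) = a)
    (hyj : y (L + j) = b) (hyk : y (L + k) = c) (hy3 : y (L + N) = 3 / 2)
    (hs : 3 / 2 * (2 + z + c) + a * b = 3 / 2 * (2 + a + b) + z * c) :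
    ∀ x ∈ hMult n L N o i j k, HexInv (ccPos eps y) n x := by
  have hn' : n = 2 * (3 * L) + 12 := by omega
  have y0 : y o = z := hy 0 (by norm_num)
  have y1 : y (o + 1) = c := hy 1 (by norm_num)
  have y2 : y (o + 2) = a := hy 2 (by norm_num)
  have y3 : y (o + 3) = b := hy 3 (by norm_num)
  have y4 : y (o + 4) = (2 + z) / 2 := hy 4 (by norm_num)
  have y5 : y (o + 5) = (2 + z + c) / 4 := hy 5 (by norm_num)
  have y6 : y (o + 6) = (2 + a) / 2 := hy 6 (by norm_num)
  have y7 : y (o + 7) = (2 + a + b) / 4 := hy 7 (by norm_num)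
  have y8 : y (o + 8) = a * b / 2 := hy 8 (by norm_num)
  have y9 : y (o + 9) = z * c / 2 := hy 9 (by norm_num)
  have y10 : y (o + 10) = 3 * (2 + z + c) / 8 := hy 10 (by norm_num)
  have y11 : y (o + 11) = 3 * (2 + a + b) / 8 := hy 11 (by norm_num)
  have y12 : y (o + 12) = (3 / 2 * (2 + z + c) + a * b) / 8 := hy 12 (by norm_num)
  have y13 : y (o + 13) = 4 * z / (2 + z) := hy 13 (by norm_num)
  have y14 : y (o + 14) = 4 / (2 + z) := hy 14 (by norm_num)
  have y15 : y (o + 15) = 4 * c / (2 + z + c) := hy 15 (by norm_num)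
  have y16 : y (o + 16) = 2 * (2 + z) / (2 + z + c) := hy 16 (by norm_num)
  have y17 : y (o + 17) = 4 * a / (2 + a) := hy 17 (by norm_num)
  have y18 : y (o + 18) = 4 / (2 + a) := hy 18 (by norm_num)
  have y19 : y (o + 19) = 4 * b / (2 + a + b) := hy 19 (by norm_num)
  have y20 : y (o + 20) = 2 * (2 + a) / (2 + a + b) := hy 20 (by norm_num)
  have y21 : y (o + 21) = 8 * (a * b) / (3 / 2 * (2 + z + c) + a * b) := hy 21 (by norm_num)
  have y23 : y (o + 23) = 3 * (2 + z + c) / (3 / 2 * (2 + z + c) + a * b) :=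
    hy 23 (by norm_num)
  have y24 : y (o + 24) = 8 * (z * c) / (3 / 2 * (2 + z + c) + a * b) := hy 24 (by norm_num)
  have y26 : y (o + 26) = 3 * (2 + a + b) / (3 / 2 * (2 + z + c) + a * b) :=
    hy 26 (by norm_num)
  have d1 : 2 + a ≠ 0 := by positivity
  have d2 : 2 + a + b ≠ 0 := by positivity
  have d3 : 2 + z ≠ 0 := by positivity
  have d4 : 2 + z + c ≠ 0 := by positivity
  have d5 : 3 / 2 * (2 + z + c) + a * b ≠ 0 := by positivity
  intro x hx
  simp only [hMult, List.mem_append] at hx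
  rcases hx with ((((((((((((hx | hx) | hx) | hx) | hx) | hx) | hx) | hx) | hx) | hx) | hx) | hx)
    | hx) | hx
  · exact cc_copy hn' (by omega) (by omega) (by omega) (by omega) (by rw [y0, hyz]) x hx
  · exact cc_copy hn' (by omega) (by omega) (by omega) (by omega) (by rw [y1, hyk]) x hx
  · exact cc_copy hn' (by omega) (by omega) (by omega) (by omega) (by rw [y2, hyi]) x hx
  · exact cc_copy hn' (by omega) (by omega) (by omega) (by omega) (by rw [y3, hyj]) x hx
  · refine cc_sum hn' (by omega) (by omega) (by omega) (by omega) (by omega) (by omega)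
      (by omega) (by omega) (by omega) (by omega) (by omega) (by omega) (by omega) (by omega)
      (by rw [y4]; positivity) ?_ ?_ ?_ x hx
    · rw [y14, y4]; simp; field_simp <;> ring
    · rw [y13, y4, y0]; simp; field_simp <;> ring
    · rw [y4, y0]; simp; field_simp <;> ring
  · refine cc_sum hn' (by omega) (by omega) (by omega) (by omega) (by omega) (by omega)
      (by omega) (by omega) (by omega) (by omega) (by omega) (by omega) (by omega) (by omega)
      (by rw [y5]; positivity) ?_ ?_ ?_ x hx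
    · rw [y16, y5, y4]; simp; field_simp <;> ring
    · rw [y15, y5, y1]; simp; field_simp <;> ring
    · rw [y5, y4, y1]; simp; field_simp <;> ring
  · refine cc_sum hn' (by omega) (by omega) (by omega) (by omega) (by omega) (by omega)
      (by omega) (by omega) (by omega) (by omega) (by omega) (by omega) (by omega) (by omega)
      (by rw [y6]; positivity) ?_ ?_ ?_ x hx
    · rw [y18, y6]; simp; field_simp <;> ring
    · rw [y17, y6, y2]; simp; field_simp <;> ring
    · rw [y6, y2]; simp; field_simp <;> ring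
  · refine cc_sum hn' (by omega) (by omega) (by omega) (by omega) (by omega) (by omega)
      (by omega) (by omega) (by omega) (by omega) (by omega) (by omega) (by omega) (by omega)
      (by rw [y7]; positivity) ?_ ?_ ?_ x hx
    · rw [y20, y7, y6]; simp; field_simp <;> ring
    · rw [y19, y7, y3]; simp; field_simp <;> ring
    · rw [y7, y6, y3]; simp; field_simp <;> ring
  · exact cc_mul hn' (by omega) (by omega) (by omega) (by omega) (by omega) (by omega)
      (by omega) (by omega) (by rw [y2, y3, y8]; ring) x hx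
  · exact cc_mul hn' (by omega) (by omega) (by omega) (by omega) (by omega) (by omega)
      (by omega) (by omega) (by rw [y0, y1, y9]; ring) x hx
  · exact cc_mul hn' (by omega) (by omega) (by omega) (by omega) (by omega) (by omega)
      (by omega) (by omega) (by rw [hy3, y5, y10]; ring) x hx
  · exact cc_mul hn' (by omega) (by omega) (by omega) (by omega) (by omega) (by omega)
      (by omega) (by omega) (by rw [hy3, y7, y11]; ring) x hx
  · refine cc_sum hn' (by omega) (by omega) (by omega) (by omega) (by omega) (by omega)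
      (by omega) (by omega) (by omega) (by omega) (by omega) (by omega) (by omega) (by omega)
      (by rw [y12]; positivity) ?_ ?_ ?_ x hx
    · rw [y23, y12, y10]; simp; field_simp <;> ring
    · rw [y21, y12, y8]; simp; field_simp <;> ring
    · rw [y12, y10, y8]; simp; field_simp <;> ring
  · refine cc_sum hn' (by omega) (by omega) (by omega) (by omega) (by omega) (by omega)
      (by omega) (by omega) (by omega) (by omega) (by omega) (by omega) (by omega) (by omega)
      (by rw [y12]; positivity) ?_ ?_ ?_ x hx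
    · rw [y26, y12, y11]; simp; field_simp <;> ring
    · rw [y24, y12, y9]; simp; field_simp <;> ring
    · rw [y12, y11, y9]; simp; linarith

theorem cc_zoneA {eps : ℝ} {y : ℕ → ℝ} {n L N o i j k : ℕ} {a b c : ℝ} (hn : n = 6 * L + 12)
    (hL : 8 ≤ L) (hi : i < N) (hj : j < N) (hk : k < N) (ho : L + N + 4 ≤ o)
    (ho' : o + 32 ≤ 2 * L) (ha : 0 < a) (hb : 0 < b) (hc : 0 < c)
    (hy : ∀ r, r < 28 → y (o + r) = ccA a b c r) (hyi : y (L + i) = a) (hyj : y (L + j) = b)
    (hyk : y (L + k) = c) (hy7 : y (L + N + 1) = 7 / 4) (hs : 2 + a + b = 7 / 2 + c) :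
    ∀ x ∈ hAdd n L N o i j k, HexInv (ccPos eps y) n x := by
  have hn' : n = 2 * (3 * L) + 12 := by omega
  have y0 : y o = a := hy 0 (by norm_num)
  have y1 : y (o + 1) = b := hy 1 (by norm_num)
  have y2 : y (o + 2) = c := hy 2 (by norm_num)
  have y3 : y (o + 3) = (2 + a) / 2 := hy 3 (by norm_num)
  have y4 : y (o + 4) = (2 + a + b) / 4 := hy 4 (by norm_num)
  have y5 : y (o + 5) = 4 * a / (2 + a) := hy 5 (by norm_num)
  have y6 : y (o + 6) = 4 / (2 + a) := hy 6 (by norm_num)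
  have y7 : y (o + 7) = 4 * b / (2 + a + b) := hy 7 (by norm_num)
  have y8 : y (o + 8) = 2 * (2 + a) / (2 + a + b) := hy 8 (by norm_num)
  have y9 : y (o + 9) = 4 * c / (2 + a + b) := hy 9 (by norm_num)
  have y10 : y (o + 10) = 7 / (2 + a + b) := hy 10 (by norm_num)
  have d1 : 2 + a ≠ 0 := by positivity
  have d2 : 2 + a + b ≠ 0 := by positivity
  intro x hx
  simp only [hAdd, List.mem_append] at hx
  rcases hx with ((((hx | hx) | hx) | hx) | hx) | hx
  · exact cc_copy hn' (by omega) (by omega) (by omega) (by omega) (by rw [y0, hyi]) x hx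
  · exact cc_copy hn' (by omega) (by omega) (by omega) (by omega) (by rw [y1, hyj]) x hx
  · exact cc_copy hn' (by omega) (by omega) (by omega) (by omega) (by rw [y2, hyk]) x hx
  · refine cc_sum hn' (by omega) (by omega) (by omega) (by omega) (by omega) (by omega)
      (by omega) (by omega) (by omega) (by omega) (by omega) (by omega) (by omega) (by omega)
      (by rw [y3]; positivity) ?_ ?_ ?_ x hx
    · rw [y6, y3]; simp; field_simp <;> ring
    · rw [y5, y3, y0]; simp; field_simp <;> ring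
    · rw [y3, y0]; simp; field_simp
  · refine cc_sum hn' (by omega) (by omega) (by omega) (by omega) (by omega) (by omega)
      (by omega) (by omega) (by omega) (by omega) (by omega) (by omega) (by omega) (by omega)
      (by rw [y4]; positivity) ?_ ?_ ?_ x hx
    · rw [y8, y4, y3]; simp; field_simp <;> ring
    · rw [y7, y4, y1]; simp; field_simp <;> ring
    · rw [y4, y3, y1]; simp; field_simp <;> ring
  · refine cc_sum hn' (by omega) (by omega) (by omega) (by omega) (by omega) (by omega)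
      (by omega) (by omega) (by omega) (by omega) (by omega) (by omega) (by omega) (by omega)
      (by rw [y4]; positivity) ?_ ?_ ?_ x hx
    · rw [y10, y4, hy7]; simp; field_simp <;> ring
    · rw [y9, y4, y2]; simp; field_simp <;> ring
    · rw [y4, y2, hy7]; simp; linarith

/-! ### The register function -/

/-- The registers. -/
noncomputable def ccReg (q : QInst) (x : ℕ → ℝ) (e : ℕ) : ℝ :=
  if e < qL q then 3 / 2
  else if e < qL q + q.1 then x (e - qL q)
  else if e = qL q + q.1 then 3 / 2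
  else if e = qL q + q.1 + 1 then 7 / 4
  else if e = qL q + q.1 + 2 then 12 / 7
  else if e = qL q + q.1 + 3 then 8 / 7
  else if (q.2.getD ((e - (qL q + q.1 + 4)) / 28) (0, 0, 0, 0)).1 = 0 then
    ccA (x (q.2.getD ((e - (qL q + q.1 + 4)) / 28) (0, 0, 0, 0)).2.1)
      (x (q.2.getD ((e - (qL q + q.1 + 4)) / 28) (0, 0, 0, 0)).2.2.1)
      (x (q.2.getD ((e - (qL q + q.1 + 4)) / 28) (0, 0, 0, 0)).2.2.2)
      ((e - (qL q + q.1 + 4)) % 28)
  else
    ccM (x 0) (x (q.2.getD ((e - (qL q + q.1 + 4)) / 28) (0, 0, 0, 0)).2.2.2)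
      (x (q.2.getD ((e - (qL q + q.1 + 4)) / 28) (0, 0, 0, 0)).2.1)
      (x (q.2.getD ((e - (qL q + q.1 + 4)) / 28) (0, 0, 0, 0)).2.2.1)
      ((e - (qL q + q.1 + 4)) % 28)

theorem ccReg_bd (q : QInst) (x : ℕ → ℝ) (hx : ∀ i, 1499 / 1000 ≤ x i ∧ x i ≤ 1501 / 1000)
    (e : ℕ) : 1 < ccReg q x e ∧ ccReg q x e < 2 := by
  unfold ccReg
  split_ifs
  · norm_num
  · have := hx (e - qL q)
    constructor <;> linarith [this.1, this.2]
  · norm_num
  · norm_num
  · norm_num
  · norm_num
  · exact ccA_bd (hx _) (hx _) (hx _) _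
  · exact ccM_bd (hx _) (hx _) (hx _) (hx _) _

theorem ccReg_var (q : QInst) (x : ℕ → ℝ) (i : ℕ) (hi : i < q.1) :
    ccReg q x (qL q + i) = x i := by
  unfold ccReg
  rw [if_neg (by omega), if_pos (by omega)]
  congr 1
  omega

theorem ccReg_c0 (q : QInst) (x : ℕ → ℝ) : ccReg q x (qL q + q.1) = 3 / 2 := by
  unfold ccReg
  rw [if_neg (by omega), if_neg (by omega), if_pos rfl]

theorem ccReg_c1 (q : QInst) (x : ℕ → ℝ) : ccReg q x (qL q + q.1 + 1) = 7 / 4 := by
  unfold ccReg
  rw [if_neg (by omega), if_neg (by omega), if_neg (by omega), if_pos rfl]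

theorem ccReg_c2 (q : QInst) (x : ℕ → ℝ) : ccReg q x (qL q + q.1 + 2) = 12 / 7 := by
  unfold ccReg
  rw [if_neg (by omega), if_neg (by omega), if_neg (by omega), if_neg (by omega), if_pos rfl]

theorem ccReg_c3 (q : QInst) (x : ℕ → ℝ) : ccReg q x (qL q + q.1 + 3) = 8 / 7 := by
  unfold ccReg
  rw [if_neg (by omega), if_neg (by omega), if_neg (by omega), if_neg (by omega),
    if_neg (by omega), if_pos rfl]

theorem ccReg_zone (q : QInst) (x : ℕ → ℝ) (t r : ℕ) (hr : r < 28) :
    ccReg q x (qL q + q.1 + 4 + 28 * t + r) =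
      if (q.2.getD t (0, 0, 0, 0)).1 = 0 then
        ccA (x (q.2.getD t (0, 0, 0, 0)).2.1) (x (q.2.getD t (0, 0, 0, 0)).2.2.1)
          (x (q.2.getD t (0, 0, 0, 0)).2.2.2) r
      else
        ccM (x 0) (x (q.2.getD t (0, 0, 0, 0)).2.2.2) (x (q.2.getD t (0, 0, 0, 0)).2.1)
          (x (q.2.getD t (0, 0, 0, 0)).2.2.1) r := by
  unfold ccReg
  have h1 : (qL q + q.1 + 4 + 28 * t + r - (qL q + q.1 + 4)) / 28 = t := by omega
  have h2 : (qL q + q.1 + 4 + 28 * t + r - (qL q + q.1 + 4)) % 28 = r := by omega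
  rw [if_neg (by omega), if_neg (by omega), if_neg (by omega), if_neg (by omega),
    if_neg (by omega), if_neg (by omega), h1, h2]

/-! ### The theorem -/

theorem cc_eps (N : ℕ) (ξ : ℕ → ℝ) : ∃ eps : ℝ, 0 < eps ∧ eps < 1 / 4 ∧
    ∀ i, i < N → |eps * ξ i| ≤ 1 / 1000 := by
  have hM : 0 ≤ ∑ i ∈ Finset.range N, |ξ i| := Finset.sum_nonneg fun i _ => abs_nonneg _
  set M := ∑ i ∈ Finset.range N, |ξ i| with hMdef
  refine ⟨1 / (1000 * (M + 1)), by positivity, ?_, fun i hi => ?_⟩
  · rw [div_lt_div_iff₀ (by positivity) (by norm_num)]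
    linarith
  · have h1 : |ξ i| ≤ M := Finset.single_le_sum (f := fun i => |ξ i|)
      (fun j _ => abs_nonneg _) (Finset.mem_range.2 hi)
    rw [abs_mul, abs_of_pos (by positivity : (0 : ℝ) < 1 / (1000 * (M + 1))), one_div,
      inv_mul_le_iff₀ (by positivity)]
    linarith

theorem claimCompComplete : ClaimCompComplete := by
  rintro q ⟨hN, hq⟩ ⟨ξ, hξ0, hξ⟩
  obtain ⟨eps, he0, he1, heps⟩ := cc_eps q.1 ξ
  set x : ℕ → ℝ := fun i => if i < q.1 then 3 / 2 + eps * ξ i else 3 / 2 with hxdef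
  have hxi : ∀ i, i < q.1 → x i = 3 / 2 + eps * ξ i := fun i hi => if_pos hi
  have hx : ∀ i, 1499 / 1000 ≤ x i ∧ x i ≤ 1501 / 1000 := by
    intro i
    by_cases hi : i < q.1
    · rw [hxi i hi]
      have := abs_le.1 (heps i hi)
      constructor <;> linarith [this.1, this.2]
    · have : x i = 3 / 2 := if_neg hi
      rw [this]
      norm_num
  have hx0 : ∀ i, 0 < x i := fun i => by linarith [(hx i).1]
  set y := ccReg q x with hy
  have hmono := cc_mono eps y he0 he1 (ccReg_bd q x hx)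
  refine ⟨ccPos eps y, fun i j hij _ => hmono hij, ?_⟩
  have hL : qL q = q.1 + 28 * q.2.length + 8 := rfl
  have hn : qn q = 6 * qL q + 12 := rfl
  have hn' : qn q = 2 * (3 * qL q) + 12 := by omega
  intro h hh
  simp only [comp] at hh ⊢
  rw [List.mem_append] at hh
  rcases hh with hh | hh
  · -- the base
    simp only [hBase, List.mem_append] at hh
    rcases hh with ((hh | hh) | hh) | hh
    · simp only [List.mem_cons, List.not_mem_nil, or_false] at hh
      rcases hh with rfl | rfl | rfl | rfl | rfl | rfl | rfl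
      · exact cc_centre _ _ _ _ _ _ _ (by omega) (by omega) (by omega) (by omega) (by omega)
          (by omega) (by norm_num [ccPos])
      · exact cc_centre _ _ _ _ _ _ _ (by omega) (by omega) (by omega) (by omega) (by omega)
          (by omega) (by norm_num [ccPos])
      · exact cc_centre _ _ _ _ _ _ _ (by omega) (by omega) (by omega) (by omega) (by omega)
          (by omega) (by norm_num [ccPos])
      · exact cc_centre _ _ _ _ _ _ _ (by omega) (by omega) (by omega) (by omega) (by omega)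
          (by omega) (by norm_num [ccPos])
      · exact cc_centre _ _ _ _ _ _ _ (by omega) (by omega) (by omega) (by omega) (by omega)
          (by omega) (by norm_num [ccPos])
      · exact cc_centre _ _ _ _ _ _ _ (by omega) (by omega) (by omega) (by omega) (by omega)
          (by omega) (by norm_num [ccPos])
      · exact cc_centre _ _ _ _ _ _ _ (by omega) (by omega) (by omega) (by omega) (by omega)
          (by omega) (by norm_num [ccPos])
    · rw [List.mem_map] at hh
      obtain ⟨e, he, rfl⟩ := hh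
      rw [List.mem_range] at he
      refine cc_H4 _ _ _ _ _ _ rfl (by omega) (cc_lt hn' (by omega)).1
        (cc_lt hn' (by omega)).1 (cc_lt hn' (by omega)).1 (cc_lt hn' (by omega)).1 ?_
      rw [cc_cI, cc_cI, cc_cI, cc_cI]
      ring
    · simp only [List.mem_cons, List.not_mem_nil, or_false] at hh
      rcases hh with rfl | rfl
      · refine cc_H4 _ _ _ _ _ _ rfl (by omega) (cc_lt hn' (by omega)).2 (by omega) (by omega)
          (cc_lt hn' (by omega)).1 ?_
        have h1 : y (qL q) = x 0 := ccReg_var q x 0 (by omega)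
        rw [cc_cI, cc_sI _ _ _ (by omega), h1, hxi 0 (by omega), hξ0]
        simp only [ccPos]
        ring
      · refine cc_H4 _ _ _ _ _ _ rfl (by omega) (cc_lt hn' (by omega)).2 (by omega) (by omega)
          (cc_lt hn' (by omega)).1 ?_
        have h1 : y (qL q + q.1) = 3 / 2 := ccReg_c0 q x
        rw [cc_cI, cc_sI _ _ _ (by omega), h1]
        simp only [ccPos]
        ring
    · have h0 : y (qL q + q.1) = 3 / 2 := ccReg_c0 q x
      have h1 : y (qL q + q.1 + 1) = 7 / 4 := ccReg_c1 q x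
      have h2 : y (qL q + q.1 + 2) = 12 / 7 := ccReg_c2 q x
      have h3 : y (qL q + q.1 + 3) = 8 / 7 := ccReg_c3 q x
      refine cc_sum hn' (by omega) (by omega) (by omega) (by omega) (by omega) (by omega)
        (by omega) (by omega) (by omega) (by omega) (by omega) (by omega) (by omega) (by omega)
        (by rw [h1]; norm_num) ?_ ?_ ?_ h hh
      · rw [h3, h1]; norm_num
      · rw [h2, h1, h0]
        simp only [if_true]
        ring
      · rw [h1, h0]; norm_num
  · -- the zones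
    rw [List.mem_flatMap] at hh
    obtain ⟨t, ht, hh⟩ := hh
    rw [List.mem_range] at ht
    have hmem : q.2.getD t (0, 0, 0, 0) ∈ q.2 := by
      rw [List.getD_eq_getElem _ _ ht]
      exact List.getElem_mem ht
    have hv := hq _ hmem
    have hs := hξ _ hmem
    have hz := fun r (hr : r < 28) => ccReg_zone q x t r hr
    unfold hCons at hh
    generalize q.2.getD t (0, 0, 0, 0) = c at *
    obtain ⟨c0, i, j, k⟩ := c
    simp only at *
    obtain ⟨hi, hj, hk⟩ := hv
    split_ifs at hh with hc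
    · have hs' := hs.1 hc
      simp only at hs'
      refine cc_zoneA (a := x i) (b := x j) (c := x k) hn (by omega) hi hj hk (by omega)
        (by omega) (hx0 _) (hx0 _) (hx0 _) ?_ (ccReg_var q x i hi) (ccReg_var q x j hj)
        (ccReg_var q x k hk) (ccReg_c1 q x) ?_ h hh
      · intro r hr
        have := hz r hr
        rw [if_pos hc] at this
        exact this
      · rw [hxi i hi, hxi j hj, hxi k hk]
        linear_combination eps * hs'
    · have hs' := hs.2 hc
      simp only at hs'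
      refine cc_zoneM (a := x i) (b := x j) (c := x k) (z := x 0) hn (by omega) hi hj hk
        (by omega) (by omega) (hx0 _) (hx0 _) (hx0 _) (hx0 _) ?_ (ccReg_var q x 0 (by omega))
        (ccReg_var q x i hi) (ccReg_var q x j hj)
        (ccReg_var q x k hk) (ccReg_c0 q x) ?_ h hh
      · intro r hr
        have := hz r hr
        rw [if_neg hc] at this
        exact this
      · rw [hxi i hi, hxi j hj, hxi k hk, hxi 0 (by omega), hξ0]
        linear_combination eps ^ 2 * hs'

end Pool.Agent.Work.MP_5b14b0_lc
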