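import Pool.Agent.Work.MP_5b14b0_lc.Alg

/-!
# Soundness of the translation of quadratic systems to the line problem
-/

set_option autoImplicit false

namespace Pool.Agent.Work.MP_5b14b0_lc

open Pool.Agent.PT

theorem compS_H4 (t : ℕ → ℝ) (n i j k l : ℕ) (hi : i + 1 < n) (hj : j + 1 < n) (hk : k + 1 < n)
    (hl : l + 1 < n) (h : HexInv t n (H4 n i j k l)) :
    (t i - t 0) * (t j - t 0) = (t k - t 0) * (t l - t 0) := by
  have hX1 : ∀ a, a + 1 < n → hX t n a = t a := fun a ha => by
    unfold hX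
    rw [if_neg (by omega)]
  have hY1 : ∀ a, a + 1 < n → hY n a = 1 := fun a ha => by
    unfold hY
    rw [if_neg (by omega)]
  have hXn : hX t n (n - 1) = 1 := by
    unfold hX
    rw [if_pos (by omega)]
  have hYn : hY n (n - 1) = 0 := by
    unfold hY
    rw [if_pos (by omega)]
  -- the products of the pair `i, j` and of the pair `k, l`
  have hmm : ∀ (α β γ : ℝ) (a b : ℕ), a + 1 < n → b + 1 < n →
      (Inv t n α β γ (min a b) (max a b) ↔ α * (t a * t b) + β * (t a + t b) + γ = 0) := by
    intro α β γ a b ha hb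
    unfold Inv
    rw [hX1 _ (by omega), hX1 _ (by omega), hY1 _ (by omega), hY1 _ (by omega)]
    rcases le_total a b with hab | hab
    · rw [min_eq_left hab, max_eq_right hab]
      constructor <;> intro h <;> linarith
    · rw [min_eq_right hab, max_eq_left hab]
      constructor <;> intro h <;> linarith
  obtain ⟨α, β, γ, hne, h0, h1, h2⟩ : ∃ α β γ : ℝ, ¬ (α = 0 ∧ β = 0 ∧ γ = 0) ∧
      Inv t n α β γ 0 (n - 1) ∧ (α * (t i * t j) + β * (t i + t j) + γ = 0) ∧
      (α * (t k * t l) + β * (t k + t l) + γ = 0) := by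
    obtain ⟨α, β, γ, hne, h0, h1, h2⟩ := h
    unfold H4 at h0 h1 h2
    by_cases hc : min i j < min k l
    · rw [if_pos hc] at h0 h1 h2
      exact ⟨α, β, γ, hne, h0, (hmm α β γ i j hi hj).1 h1, (hmm α β γ k l hk hl).1 h2⟩
    · rw [if_neg hc] at h0 h1 h2
      exact ⟨α, β, γ, hne, h0, (hmm α β γ i j hi hj).1 h2, (hmm α β γ k l hk hl).1 h1⟩
  unfold Inv at h0
  rw [hX1 0 (by omega), hXn, hY1 0 (by omega), hYn] at h0
  have hβ : β = -(α * t 0) := by linarith
  have hα : α ≠ 0 := by
    intro h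
    apply hne
    rw [h] at hβ h1
    have hb0 : β = 0 := by rw [hβ]; ring
    rw [hb0] at h1
    exact ⟨h, hb0, by linarith⟩
  have h3 : α * ((t i - t 0) * (t j - t 0)) = α * ((t k - t 0) * (t l - t 0)) := by
    rw [hβ] at h1 h2
    linear_combination h1 - h2
  exact mul_left_cancel₀ hα h3

theorem compS_center (t : ℕ → ℝ) (n a a' p b b' : ℕ) (ha : a + 1 < n) (ha' : a' + 1 < n)
    (hp : p + 1 < n) (hb : b + 1 < n) (hb' : b' + 1 < n)
    (h : HexInv t n [a, p, b, b', n - 1, a']) :
    (t b - t p) * (t b' - t p) = (t a - t p) * (t a' - t p) := by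
  have hX1 : ∀ a, a + 1 < n → hX t n a = t a := fun a ha => by
    unfold hX
    rw [if_neg (by omega)]
  have hY1 : ∀ a, a + 1 < n → hY n a = 1 := fun a ha => by
    unfold hY
    rw [if_neg (by omega)]
  have hXn : hX t n (n - 1) = 1 := by
    unfold hX
    rw [if_pos (by omega)]
  have hYn : hY n (n - 1) = 0 := by
    unfold hY
    rw [if_pos (by omega)]
  obtain ⟨α, β, γ, hne, h0, h1, h2⟩ := h
  have h0' : Inv t n α β γ a a' := h0
  have h1' : Inv t n α β γ p (n - 1) := h1
  have h2' : Inv t n α β γ b b' := h2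
  unfold Inv at h0' h1' h2'
  rw [hX1 p hp, hXn, hY1 p hp, hYn] at h1'
  rw [hX1 a ha, hX1 a' ha', hY1 a ha, hY1 a' ha'] at h0'
  rw [hX1 b hb, hX1 b' hb', hY1 b hb, hY1 b' hb'] at h2'
  have hβ : β = -(α * t p) := by linarith
  have hα : α ≠ 0 := by
    intro h
    apply hne
    rw [h] at hβ h0'
    have hb0 : β = 0 := by rw [hβ]; ring
    rw [hb0] at h0'
    exact ⟨h, hb0, by linarith⟩
  have h3 : α * ((t b - t p) * (t b' - t p)) = α * ((t a - t p) * (t a' - t p)) := by
    rw [hβ] at h0' h2'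
    linear_combination h2' - h0'
  exact mul_left_cancel₀ hα h3

/-- The value of the point `j` in units of the point `3`. -/
noncomputable def compS_U (t : ℕ → ℝ) (j : ℕ) : ℝ := (t j - t 0) / (t 3 - t 0)

/-- The content of the register `e`. -/
noncomputable def compS_y (t : ℕ → ℝ) (e : ℕ) : ℝ := compS_U t (sI e) / 2 ^ e

/-- The value of an operand. -/
noncomputable def compS_Y (t : ℕ → ℝ) (A : ℕ) (b : Bool) : ℝ := if b then compS_y t A else 1

theorem compS_H4' (t : ℕ → ℝ) (n i j k l : ℕ) (_h3 : t 3 - t 0 ≠ 0) (hi : i + 1 < n)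
    (hj : j + 1 < n) (hk : k + 1 < n) (hl : l + 1 < n) (h : HexInv t n (H4 n i j k l)) :
    compS_U t i * compS_U t j = compS_U t k * compS_U t l := by
  have := compS_H4 t n i j k l hi hj hk hl h
  unfold compS_U
  rw [div_mul_div_comm, div_mul_div_comm, this]

theorem compS_center' (t : ℕ → ℝ) (n a a' p b b' : ℕ) (_h3 : t 3 - t 0 ≠ 0) (ha : a + 1 < n)
    (ha' : a' + 1 < n) (hp : p + 1 < n) (hb : b + 1 < n) (hb' : b' + 1 < n)
    (h : HexInv t n [a, p, b, b', n - 1, a']) :
    (compS_U t b - compS_U t p) * (compS_U t b' - compS_U t p) =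
      (compS_U t a - compS_U t p) * (compS_U t a' - compS_U t p) := by
  have := compS_center t n a a' p b b' ha ha' hp hb hb' h
  have e : ∀ x y, compS_U t x - compS_U t y = (t x - t y) / (t 3 - t 0) := by
    intro x y
    unfold compS_U
    rw [← sub_div]
    congr 1
    ring
  rw [e, e, e, e, div_mul_div_comm, div_mul_div_comm, this]

theorem compS_U0 (t : ℕ → ℝ) : compS_U t 0 = 0 := by
  unfold compS_U
  rw [sub_self, zero_div]

/-- The powers of 2 are in place. -/
structure CompSCtx (t : ℕ → ℝ) (n L : ℕ) : Prop where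
  n_eq : n = 6 * L + 12
  ne : t 3 - t 0 ≠ 0
  pow : ∀ e ≤ 3 * L, compS_U t (cI e) = 2 ^ e

theorem compS_cI_lt {n L e : ℕ} (hn : n = 6 * L + 12) (he : e ≤ 3 * L) : cI e + 1 < n := by
  unfold cI
  split_ifs <;> omega

theorem compS_sI_lt {n L e : ℕ} (hn : n = 6 * L + 12) (he : e ≤ 3 * L) : sI e + 1 < n := by
  unfold sI
  omega

theorem compS_U_sI (t : ℕ → ℝ) (e : ℕ) : compS_U t (sI e) = 2 ^ e * compS_y t e := by
  unfold compS_y
  field_simp

theorem compS_U_rI {t : ℕ → ℝ} {n L : ℕ} (c : CompSCtx t n L) {A : ℕ} (hA : A ≤ 3 * L)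
    (b : Bool) : compS_U t (rI A b) = 2 ^ A * compS_Y t A b := by
  unfold rI compS_Y
  cases b
  · simp only [Bool.false_eq_true, if_false]
    rw [c.pow A hA, mul_one]
  · simp only [if_true]
    exact compS_U_sI t A

theorem compS_rI_lt {n L A : ℕ} (hn : n = 6 * L + 12) (hA : A ≤ 3 * L) (b : Bool) :
    rI A b + 1 < n := by
  unfold rI
  cases b
  · exact compS_cI_lt hn hA
  · exact compS_sI_lt hn hA

theorem compS_copy {t : ℕ → ℝ} {n L : ℕ} (c : CompSCtx t n L) {o v : ℕ} (ho : o ≤ 3 * L)
    (hv : v ≤ 3 * L) (h : ∀ x ∈ hCopy n o v, HexInv t n x) : compS_y t o = compS_y t v := by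
  have h1 := compS_H4' t n _ _ _ _ c.ne (compS_sI_lt c.n_eq ho) (compS_cI_lt c.n_eq hv)
    (compS_sI_lt c.n_eq hv) (compS_cI_lt c.n_eq ho) (h _ (by simp [hCopy]))
  rw [compS_U_sI, compS_U_sI, c.pow v hv, c.pow o ho] at h1
  have h2 : (2 : ℝ) ^ o * 2 ^ v ≠ 0 := by positivity
  apply mul_left_cancel₀ h2
  linear_combination h1

theorem compS_mul {t : ℕ → ℝ} {n L : ℕ} (c : CompSCtx t n L) {a b r s : ℕ} (ha : a ≤ 3 * L)
    (hb : b ≤ 3 * L) (hr : r ≤ 3 * L) (hrs : r ≤ a + b + s) (hrs' : a + b + s - r ≤ 3 * L)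
    (h : ∀ x ∈ hMul n a b r s, HexInv t n x) :
    compS_y t a * compS_y t b = 2 ^ s * compS_y t r := by
  have h1 := compS_H4' t n _ _ _ _ c.ne (compS_sI_lt c.n_eq ha) (compS_sI_lt c.n_eq hb)
    (compS_sI_lt c.n_eq hr) (compS_cI_lt c.n_eq hrs') (h _ (by simp [hMul]))
  rw [compS_U_sI, compS_U_sI, compS_U_sI, c.pow _ hrs'] at h1
  have h2 : (2 : ℝ) ^ a * 2 ^ b ≠ 0 := by positivity
  have h3 : (2 : ℝ) ^ r * 2 ^ (a + b + s - r) = 2 ^ a * 2 ^ b * 2 ^ s := by
    rw [← pow_add, ← pow_add, ← pow_add]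
    congr 1
    omega
  apply mul_left_cancel₀ h2
  linear_combination h1 + compS_y t r * h3

theorem compS_sum {t : ℕ → ℝ} {n L : ℕ} (c : CompSCtx t n L) {A B C α β γ p p' : ℕ}
    {bA bB : Bool} (hA : A ≤ 3 * L) (hB : B ≤ 3 * L) (hC : C ≤ 3 * L) (hp : p + 1 ≤ 3 * L)
    (hp' : p' ≤ 3 * L) (h1 : γ + A ≤ p + C + 1 + α) (h1' : p + C + 1 + α - γ - A ≤ 3 * L)
    (h2 : γ + B ≤ p + C + 1 + β) (h2' : p + C + 1 + β - γ - B ≤ 3 * L)
    (h : ∀ x ∈ hSum n A bA α B bB β C γ p p', HexInv t n x) :
    2 ^ α * compS_Y t A bA + 2 ^ β * compS_Y t B bB = 2 ^ γ * compS_y t C := by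
  have e1 := compS_H4' t n _ _ _ _ c.ne (compS_sI_lt c.n_eq (by omega : p ≤ 3 * L))
    (compS_sI_lt c.n_eq hC) (compS_rI_lt c.n_eq hA bA) (compS_cI_lt c.n_eq h1')
    (h _ (by simp [hSum]))
  have e2 := compS_H4' t n _ _ _ _ c.ne (compS_sI_lt c.n_eq hp')
    (compS_sI_lt c.n_eq hC) (compS_rI_lt c.n_eq hB bB) (compS_cI_lt c.n_eq h2')
    (h (H4 n (sI p') (sI C) (rI B bB) (cI (p + C + 1 + β - γ - B))) (by simp [hSum]))
  have e3 := compS_center' t n _ _ _ _ _ c.ne (compS_sI_lt c.n_eq hp')
    (by have := c.n_eq; omega : 0 + 1 < n) (compS_cI_lt c.n_eq (by omega : p ≤ 3 * L))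
    (compS_sI_lt c.n_eq (by omega : p ≤ 3 * L)) (compS_cI_lt c.n_eq hp)
    (h [sI p', cI p, sI p, cI (p + 1), n - 1, 0] (by simp [hSum]))
  rw [compS_U_rI c hA, c.pow _ h1', compS_U_sI t C] at e1
  rw [compS_U_rI c hB, c.pow _ h2', compS_U_sI t C] at e2
  rw [compS_U0, c.pow _ hp, c.pow p (by omega)] at e3
  have f1 : (2 : ℝ) ^ A * 2 ^ (p + C + 1 + α - γ - A) * 2 ^ γ = 2 ^ (p + 1) * 2 ^ C * 2 ^ α := by
    rw [← pow_add, ← pow_add, ← pow_add, ← pow_add]
    congr 1
    omega
  have f2 : (2 : ℝ) ^ B * 2 ^ (p + C + 1 + β - γ - B) * 2 ^ γ = 2 ^ (p + 1) * 2 ^ C * 2 ^ β := by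
    rw [← pow_add, ← pow_add, ← pow_add, ← pow_add]
    congr 1
    omega
  have f3 : (2 : ℝ) ^ (p + 1) = 2 * 2 ^ p := by rw [pow_succ]; ring
  have f4 : (2 : ℝ) ^ p ≠ 0 := by positivity
  have e4 : compS_U t (sI p) + compS_U t (sI p') = 2 ^ (p + 1) := by
    apply mul_left_cancel₀ f4
    rw [f3] at e3 ⊢
    linear_combination e3
  have f5 : (2 : ℝ) ^ (p + 1) * 2 ^ C ≠ 0 := by positivity
  apply mul_left_cancel₀ f5
  linear_combination (-(2 : ℝ) ^ γ) * e1 - (2 : ℝ) ^ γ * e2 - compS_Y t A bA * f1 -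
    compS_Y t B bB * f2 + (2 : ℝ) ^ γ * 2 ^ C * compS_y t C * e4

theorem claimCompSound : ClaimCompSound := by
  intro q hq hsol
  obtain ⟨t, hmono, hhex⟩ := hsol
  obtain ⟨hN, hval⟩ := hq
  set N := q.1 with hNdef
  set m := q.2.length with hm
  set L := qL q with hL
  set n := qn q with hn
  have hLe : L = N + 28 * m + 8 := rfl
  have hne : n = 6 * L + 12 := rfl
  have hcn : (comp q).1 = n := rfl
  rw [hcn] at hmono hhex
  have hbase : ∀ h ∈ hBase q, HexInv t n h := fun h hh =>
    hhex h (List.mem_append_left _ hh)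
  have hlt : ∀ i j, i < j → j + 1 < n → t i < t j := hmono
  have h3pos : 0 < t 3 - t 0 := sub_pos.2 (hlt 0 3 (by norm_num) (by omega))
  have h3 : t 3 - t 0 ≠ 0 := h3pos.ne'
  have hUlt : ∀ i j, i < j → j + 1 < n → compS_U t i < compS_U t j := by
    intro i j hij hj
    unfold compS_U
    apply div_lt_div_of_pos_right _ h3pos
    linarith [hlt i j hij hj]
  have hU3 : compS_U t 3 = 1 := div_self h3
  have hU0 := compS_U0 t
  -- the constants
  have b1 := compS_center' t n 2 0 3 4 8 h3 (by omega) (by omega) (by omega) (by omega)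
    (by omega) (hbase _ (by simp [hBase, ← hn]))
  have b2 := compS_center' t n 1 0 3 6 8 h3 (by omega) (by omega) (by omega) (by omega)
    (by omega) (hbase _ (by simp [hBase, ← hn]))
  have b3 := compS_center' t n 2 1 3 4 6 h3 (by omega) (by omega) (by omega) (by omega)
    (by omega) (hbase _ (by simp [hBase, ← hn]))
  have b4 := compS_center' t n 7 0 8 9 13 h3 (by omega) (by omega) (by omega) (by omega)
    (by omega) (hbase _ (by simp [hBase, ← hn]))
  have b5 := compS_center' t n 5 0 8 10 13 h3 (by omega) (by omega) (by omega) (by omega)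
    (by omega) (hbase _ (by simp [hBase, ← hn]))
  have b6 := compS_center' t n 7 5 8 9 10 h3 (by omega) (by omega) (by omega) (by omega)
    (by omega) (hbase _ (by simp [hBase, ← hn]))
  have b7 := compS_center' t n 3 0 8 11 13 h3 (by omega) (by omega) (by omega) (by omega)
    (by omega) (hbase _ (by simp [hBase, ← hn]))
  rw [hU3, hU0] at b1 b2
  rw [hU3] at b3
  rw [hU0] at b4 b5
  rw [hU3, hU0] at b7
  have l34 := hUlt 3 4 (by norm_num) (by omega)
  have l36 := hUlt 3 6 (by norm_num) (by omega)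
  have l38 := hUlt 3 8 (by norm_num) (by omega)
  have l89 := hUlt 8 9 (by norm_num) (by omega)
  have l810 := hUlt 8 10 (by norm_num) (by omega)
  have l813 := hUlt 8 13 (by norm_num) (by omega)
  have l1112 := hUlt 11 12 (by norm_num) (by omega)
  rw [hU3] at l34 l36 l38
  have hU8 : compS_U t 8 = 2 := by
    have e1 : (compS_U t 4 - 1) * (compS_U t 6 - 1) * ((compS_U t 8 - 1) ^ 2 - 1) = 0 := by
      linear_combination (compS_U t 6 - 1) * (compS_U t 8 - 1) * b1 -
        (compS_U t 2 - 1) * b2 - b3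
    have e2 : (compS_U t 4 - 1) * (compS_U t 6 - 1) ≠ 0 :=
      mul_ne_zero (by linarith) (by linarith)
    have e3 : (compS_U t 8 - 1) ^ 2 - 1 = 0 := by
      rcases mul_eq_zero.1 e1 with h | h
      · exact absurd h e2
      · exact h
    have e4 : compS_U t 8 * (compS_U t 8 - 2) = 0 := by linear_combination e3
    rcases mul_eq_zero.1 e4 with h | h
    · linarith
    · linarith
  rw [hU8] at b4 b5 b6 b7 l89 l810 l813
  have hU13 : compS_U t 13 = 4 := by
    have e1 : (compS_U t 9 - 2) * (compS_U t 10 - 2) * ((compS_U t 13 - 2) ^ 2 - 4) = 0 := by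
      linear_combination (compS_U t 10 - 2) * (compS_U t 13 - 2) * b4 +
        (-2) * (compS_U t 7 - 2) * b5 - 4 * b6
    have e2 : (compS_U t 9 - 2) * (compS_U t 10 - 2) ≠ 0 :=
      mul_ne_zero (by linarith) (by linarith)
    have e3 : (compS_U t 13 - 2) ^ 2 - 4 = 0 := by
      rcases mul_eq_zero.1 e1 with h | h
      · exact absurd h e2
      · exact h
    have e4 : compS_U t 13 * (compS_U t 13 - 4) = 0 := by linear_combination e3
    rcases mul_eq_zero.1 e4 with h | h
    · linarith
    · linarith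
  have hU11 : compS_U t 11 = 3 := by
    rw [hU13] at b7
    linarith
  -- the chain
  have hpow : ∀ e, e ≤ 3 * L → compS_U t (cI e) = 2 ^ e := by
    intro e
    induction e using Nat.strong_induction_on with
    | _ e ih =>
      intro he
      match e, ih, he with
      | 0, _, _ => simpa [cI] using hU3
      | 1, _, _ => simpa [cI] using hU8
      | 2, _, _ =>
        rw [show cI 2 = 13 from rfl, hU13]
        norm_num
      | e + 3, ih, he =>
        have h1 := compS_H4' t n (cI e) (cI (e + 3)) (cI (e + 1)) (cI (e + 2)) h3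
          (compS_cI_lt hne (by omega)) (compS_cI_lt hne (by omega)) (compS_cI_lt hne (by omega))
          (compS_cI_lt hne (by omega)) (hbase _ (by
            unfold hBase
            rw [List.mem_append, List.mem_append, List.mem_append]
            refine Or.inl (Or.inl (Or.inr ?_))
            rw [List.mem_map]
            exact ⟨e, List.mem_range.2 (by omega), rfl⟩))
        rw [ih e (by omega) (by omega), ih (e + 1) (by omega) (by omega),
          ih (e + 2) (by omega) (by omega)] at h1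
        have h2 : (2 : ℝ) ^ e ≠ 0 := by positivity
        apply mul_left_cancel₀ h2
        rw [h1]
        ring
  have c : CompSCtx t n L := ⟨hne, h3, hpow⟩
  -- the first registers
  have hyL : compS_y t L = compS_U t 12 / 2 := by
    have h1 := compS_H4' t n (sI L) 8 12 (cI L) h3 (compS_sI_lt hne (by omega)) (by omega)
      (by omega) (compS_cI_lt hne (by omega)) (hbase _ (by
        unfold hBase
        rw [List.mem_append, List.mem_append, List.mem_append]
        exact Or.inl (Or.inr (by simp [← hn, ← hL]))))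
    rw [compS_U_sI, hU8, hpow L (by omega)] at h1
    have h2 : (2 : ℝ) ^ L ≠ 0 := by positivity
    apply mul_left_cancel₀ h2
    linear_combination h1 / 2
  have hyLN : compS_y t (L + N) = 3 / 2 := by
    have h1 := compS_H4' t n (sI (L + N)) 8 11 (cI (L + N)) h3 (compS_sI_lt hne (by omega))
      (by omega) (by omega) (compS_cI_lt hne (by omega)) (hbase _ (by
        unfold hBase
        rw [List.mem_append, List.mem_append, List.mem_append]
        exact Or.inl (Or.inr (by simp [← hn, ← hL, ← hNdef]))))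
    rw [compS_U_sI, hU8, hU11, hpow (L + N) (by omega)] at h1
    have h2 : (2 : ℝ) ^ (L + N) ≠ 0 := by positivity
    apply mul_left_cancel₀ h2
    linear_combination h1 / 2
  have hyLN1 : compS_y t (L + N + 1) = 7 / 4 := by
    have h1 := compS_sum c (A := L + N) (B := L + N) (C := L + N + 1) (α := 1) (β := 0) (γ := 1)
      (p := L + N + 3) (p' := L + N + 2) (bA := false) (bB := true) (by omega) (by omega)
      (by omega) (by omega) (by omega) (by omega) (by omega) (by omega) (by omega)
      (fun x hx => hbase x (by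
        unfold hBase
        exact List.mem_append_right _ hx))
    simp only [compS_Y, if_true, Bool.false_eq_true, if_false] at h1
    rw [hyLN] at h1
    linarith
  have hx0 : 3 / 2 < compS_y t L := by
    rw [hyL]
    rw [hU11] at l1112
    linarith
  -- the solution
  set x : ℕ → ℝ := fun i => compS_y t (L + i) with hx
  have hd : x 0 - 3 / 2 ≠ 0 := by
    simp only [hx, add_zero]
    linarith
  refine ⟨fun i => (x i - 3 / 2) / (x 0 - 3 / 2), div_self hd, fun cc hcc => ?_⟩
  obtain ⟨s, hs, hcs⟩ := List.getElem_of_mem hcc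
  have hgetD : q.2.getD s (0, 0, 0, 0) = cc := by
    rw [List.getD_eq_getElem _ _ hs, hcs]
  have hzone : ∀ h ∈ hCons q s, HexInv t n h := fun h hh =>
    hhex h (List.mem_append_right _ (List.mem_flatMap.2 ⟨s, List.mem_range.2 hs, hh⟩))
  obtain ⟨hv1, hv2, hv3⟩ := hval cc hcc
  unfold hCons at hzone
  rw [hgetD] at hzone
  set i := cc.2.1 with hi
  set j := cc.2.2.1 with hj
  set k := cc.2.2.2 with hk
  set o := L + N + 4 + 28 * s with ho
  have hos : s < m := hs
  constructor
  · intro ht0
    rw [if_pos ht0] at hzone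
    unfold hAdd at hzone
    simp only [List.mem_append, or_imp, forall_and] at hzone
    obtain ⟨⟨⟨⟨⟨z1, z2⟩, z3⟩, z4⟩, z5⟩, z6⟩ := hzone
    have y1 := compS_copy c (by omega) (by omega) z1
    have y2 := compS_copy c (by omega) (by omega) z2
    have y3 := compS_copy c (by omega) (by omega) z3
    have y4 := compS_sum c (by omega) (by omega) (by omega) (by omega) (by omega) (by omega)
      (by omega) (by omega) (by omega) z4
    have y5 := compS_sum c (by omega) (by omega) (by omega) (by omega) (by omega) (by omega)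
      (by omega) (by omega) (by omega) z5
    have y6 := compS_sum c (by omega) (by omega) (by omega) (by omega) (by omega) (by omega)
      (by omega) (by omega) (by omega) z6
    simp only [compS_Y, if_true, Bool.false_eq_true, if_false] at y4 y5 y6
    rw [hyLN1] at y6
    have key : x i + x j = x k + 3 / 2 := by
      simp only [hx]
      linarith
    change (x i - 3 / 2) / (x 0 - 3 / 2) + (x j - 3 / 2) / (x 0 - 3 / 2) =
      (x k - 3 / 2) / (x 0 - 3 / 2)
    rw [← add_div]
    congr 1
    linarith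
  · intro ht0
    rw [if_neg ht0] at hzone
    unfold hMult at hzone
    simp only [List.mem_append, or_imp, forall_and] at hzone
    obtain ⟨⟨⟨⟨⟨⟨⟨⟨⟨⟨⟨⟨⟨z1, z2⟩, z3⟩, z4⟩, z5⟩, z6⟩, z7⟩, z8⟩, z9⟩, z10⟩, z11⟩, z12⟩, z13⟩, z14⟩ :=
      hzone
    have y1 := compS_copy c (by omega) (by omega) z1
    have y2 := compS_copy c (by omega) (by omega) z2
    have y3 := compS_copy c (by omega) (by omega) z3
    have y4 := compS_copy c (by omega) (by omega) z4
    have y5 := compS_sum c (by omega) (by omega) (by omega) (by omega) (by omega) (by omega)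
      (by omega) (by omega) (by omega) z5
    have y6 := compS_sum c (by omega) (by omega) (by omega) (by omega) (by omega) (by omega)
      (by omega) (by omega) (by omega) z6
    have y7 := compS_sum c (by omega) (by omega) (by omega) (by omega) (by omega) (by omega)
      (by omega) (by omega) (by omega) z7
    have y8 := compS_sum c (by omega) (by omega) (by omega) (by omega) (by omega) (by omega)
      (by omega) (by omega) (by omega) z8
    have y9 := compS_mul c (by omega) (by omega) (by omega) (by omega) (by omega) z9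
    have y10 := compS_mul c (by omega) (by omega) (by omega) (by omega) (by omega) z10
    have y11 := compS_mul c (by omega) (by omega) (by omega) (by omega) (by omega) z11
    have y12 := compS_mul c (by omega) (by omega) (by omega) (by omega) (by omega) z12
    have y13 := compS_sum c (by omega) (by omega) (by omega) (by omega) (by omega) (by omega)
      (by omega) (by omega) (by omega) z13
    have y14 := compS_sum c (by omega) (by omega) (by omega) (by omega) (by omega) (by omega)
      (by omega) (by omega) (by omega) z14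
    simp only [compS_Y, if_true, Bool.false_eq_true, if_false] at y5 y6 y7 y8 y13 y14
    rw [hyLN] at y11 y12
    rw [y3, y4] at y9
    rw [y1, y2] at y10
    rw [y1] at y5
    rw [y2] at y6
    rw [y3] at y7
    rw [y4] at y8
    have key : (x i - 3 / 2) * (x j - 3 / 2) = (x 0 - 3 / 2) * (x k - 3 / 2) := by
      simp only [hx, add_zero]
      linarith
    change (x i - 3 / 2) / (x 0 - 3 / 2) * ((x j - 3 / 2) / (x 0 - 3 / 2)) =
      (x k - 3 / 2) / (x 0 - 3 / 2)
    rw [div_mul_div_comm, key, div_eq_div_iff (mul_ne_zero hd hd) hd]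
    ring

end Pool.Agent.Work.MP_5b14b0_lc

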