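import Pool.Agent.Work.MP_5b14b0_lc.Alg

/-!
# The translation of quadratic systems: polynomial time and validity of the output
-/

set_option autoImplicit false

namespace Pool.Agent.Work.MP_5b14b0_lc

open Pool.Agent.PT

/-! ### Polynomial time -/

section ptf

variable {α : Type} [Enc α]

@[fun_prop]
theorem ptf_cI {e : α → ℕ} (he : PTF e) : PTF (fun a => cI (e a)) := by
  unfold cI
  fun_prop

@[fun_prop]
theorem ptf_sI {e : α → ℕ} (he : PTF e) : PTF (fun a => sI (e a)) := by
  unfold sI
  fun_prop

@[fun_prop]
theorem ptf_rI {e : α → ℕ} {b : α → Bool} (he : PTF e) (hb : PTF b) :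
    PTF (fun a => rI (e a) (b a)) := by
  unfold rI
  fun_prop

@[fun_prop]
theorem ptf_H4 {n i j k l : α → ℕ} (hn : PTF n) (hi : PTF i) (hj : PTF j) (hk : PTF k)
    (hl : PTF l) : PTF (fun a => H4 (n a) (i a) (j a) (k a) (l a)) := by
  unfold H4
  fun_prop

@[fun_prop]
theorem ptf_hCopy {n o v : α → ℕ} (hn : PTF n) (ho : PTF o) (hv : PTF v) :
    PTF (fun a => hCopy (n a) (o a) (v a)) := by
  unfold hCopy
  fun_prop

@[fun_prop]
theorem ptf_hMul {n x y z s : α → ℕ} (hn : PTF n) (hx : PTF x) (hy : PTF y) (hz : PTF z)
    (hs : PTF s) : PTF (fun a => hMul (n a) (x a) (y a) (z a) (s a)) := by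
  unfold hMul
  fun_prop

@[fun_prop]
theorem ptf_hSum {n A x B y C z p p' : α → ℕ} {bA bB : α → Bool} (hn : PTF n) (hA : PTF A)
    (hbA : PTF bA) (hx : PTF x) (hB : PTF B) (hbB : PTF bB) (hy : PTF y) (hC : PTF C)
    (hz : PTF z) (hp : PTF p) (hp' : PTF p') :
    PTF (fun a => hSum (n a) (A a) (bA a) (x a) (B a) (bB a) (y a) (C a) (z a) (p a) (p' a)) := by
  unfold hSum
  fun_prop

@[fun_prop]
theorem ptf_hAdd {n L N o i j k : α → ℕ} (hn : PTF n) (hL : PTF L) (hN : PTF N) (ho : PTF o)
    (hi : PTF i) (hj : PTF j) (hk : PTF k) :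
    PTF (fun a => hAdd (n a) (L a) (N a) (o a) (i a) (j a) (k a)) := by
  unfold hAdd
  fun_prop

@[fun_prop]
theorem ptf_hMult {n L N o i j k : α → ℕ} (hn : PTF n) (hL : PTF L) (hN : PTF N) (ho : PTF o)
    (hi : PTF i) (hj : PTF j) (hk : PTF k) :
    PTF (fun a => hMult (n a) (L a) (N a) (o a) (i a) (j a) (k a)) := by
  unfold hMult
  fun_prop

@[fun_prop]
theorem ptf_qL {q : α → QInst} (hq : PTF q) : PTF (fun a => qL (q a)) := by
  unfold qL
  fun_prop

@[fun_prop]
theorem ptf_qn {q : α → QInst} (hq : PTF q) : PTF (fun a => qn (q a)) := by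
  unfold qn
  fun_prop

@[fun_prop]
theorem ptf_hBase {q : α → QInst} (hq : PTF q) : PTF (fun a => hBase (q a)) := by
  unfold hBase
  fun_prop

@[fun_prop]
theorem ptf_hCons {q : α → QInst} {t : α → ℕ} (hq : PTF q) (ht : PTF t) :
    PTF (fun a => hCons (q a) (t a)) := by
  unfold hCons
  fun_prop

end ptf

theorem claimCompPtf : ClaimCompPtf := by
  unfold ClaimCompPtf comp
  fun_prop

/-! ### Validity -/

theorem compV_rot {n a b c d z : ℕ} (h1 : z < a) (h2 : a < b) (h3 : b < c) (h4 : c < d)
    (h5 : d + 1 < n) : HexOK n [a, b, c, d, n - 1, z] := by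
  refine ⟨rfl, ⟨5, ?_⟩, ?_⟩
  · have : ([a, b, c, d, n - 1, z] : List ℕ).rotate 5 = [z, a, b, c, d, n - 1] := rfl
    rw [this]
    simp only [List.pairwise_cons, List.mem_cons, List.not_mem_nil, or_false, forall_eq_or_imp,
      forall_eq, List.Pairwise.nil, and_true, IsEmpty.forall_iff, implies_true]
    omega
  · simp only [List.mem_cons, List.not_mem_nil, or_false, forall_eq_or_imp, forall_eq]
    omega

theorem compV_sorted {n a b c d : ℕ} (h1 : 0 < a) (h2 : a < b) (h3 : b < c) (h4 : c < d)
    (h5 : d + 1 < n) : HexOK n [0, a, b, c, d, n - 1] := by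
  refine ⟨rfl, ⟨0, ?_⟩, ?_⟩
  · rw [List.rotate_zero]
    simp only [List.pairwise_cons, List.mem_cons, List.not_mem_nil, or_false, forall_eq_or_imp,
      forall_eq, List.Pairwise.nil, and_true, IsEmpty.forall_iff, implies_true]
    omega
  · simp only [List.mem_cons, List.not_mem_nil, or_false, forall_eq_or_imp, forall_eq]
    omega

theorem compV_H4 {n i j k l : ℕ}
    (h : (0 < min i j ∧ min i j < min k l ∧ min k l < max k l ∧ max k l < max i j ∧
        max i j + 1 < n) ∨
      (0 < min k l ∧ min k l < min i j ∧ min i j < max i j ∧ max i j < max k l ∧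
        max k l + 1 < n)) : HexOK n (H4 n i j k l) := by
  unfold H4
  rcases h with ⟨h1, h2, h3, h4, h5⟩ | ⟨h1, h2, h3, h4, h5⟩
  · rw [if_pos h2]
    exact compV_sorted h1 h2 h3 h4 h5
  · rw [if_neg (by omega)]
    exact compV_sorted h1 h2 h3 h4 h5

theorem compV_cI {e : ℕ} (he : 2 ≤ e) : cI e = 2 * e + 9 := by
  unfold cI
  rw [if_neg (by omega), if_neg (by omega)]

theorem compV_copy {n L o v : ℕ} (hn : n = 6 * L + 12) (hv : 2 ≤ v) (hvo : v < o)
    (ho : o ≤ 3 * L) : ∀ h ∈ hCopy n o v, HexOK n h := by
  intro h hh
  unfold hCopy at hh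
  rw [List.mem_singleton] at hh
  subst hh
  apply compV_H4
  rw [compV_cI hv, compV_cI (by omega : 2 ≤ o)]
  unfold sI
  omega

theorem compV_mul {n L a b c s : ℕ} (hn : n = 6 * L + 12) (hab : a < b) (hbc : b < c)
    (h2 : 2 + c ≤ a + b + s) (h3 : b + s ≤ c) (hc : c ≤ 3 * L) :
    ∀ h ∈ hMul n a b c s, HexOK n h := by
  intro h hh
  unfold hMul at hh
  rw [List.mem_singleton] at hh
  subst hh
  apply compV_H4
  rw [compV_cI (by omega : 2 ≤ a + b + s - c)]
  unfold sI
  omega

theorem compV_rI {A : ℕ} (hA : 2 ≤ A) (b : Bool) : rI A b = 2 * A + 9 ∨ rI A b = 2 * A + 10 := by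
  unfold rI
  cases b
  · left
    exact compV_cI hA
  · right
    rfl

theorem compV_sum {n L A B C α β γ p p' : ℕ} {bA bB : Bool} (hn : n = 6 * L + 12)
    (hA : 2 ≤ A) (hAC : A < C) (hB : 2 ≤ B) (hBC : B < C) (hC : C < p') (hp : p' < p)
    (h1 : p < p + C + 1 + α - γ - A) (h1' : p + C + 1 + α - γ - A ≤ 3 * L)
    (h2 : p' < p + C + 1 + β - γ - B) (h2' : p + C + 1 + β - γ - B ≤ 3 * L) :
    ∀ h ∈ hSum n A bA α B bB β C γ p p', HexOK n h := by
  intro h hh
  unfold hSum at hh
  simp only [List.mem_cons, List.not_mem_nil, or_false] at hh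
  rcases hh with rfl | rfl | rfl
  · apply compV_H4
    rw [compV_cI (by omega : 2 ≤ p + C + 1 + α - γ - A)]
    have := compV_rI hA bA
    unfold sI
    omega
  · apply compV_H4
    rw [compV_cI (by omega : 2 ≤ p + C + 1 + β - γ - B)]
    have := compV_rI hB bB
    unfold sI
    omega
  · rw [compV_cI (by omega : 2 ≤ p), compV_cI (by omega : 2 ≤ p + 1)]
    unfold sI
    apply compV_rot <;> omega

theorem compV_append {n : ℕ} {l l' : List (List ℕ)} (h1 : ∀ h ∈ l, HexOK n h)
    (h2 : ∀ h ∈ l', HexOK n h) : ∀ h ∈ l ++ l', HexOK n h := by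
  intro h hh
  rcases List.mem_append.1 hh with h' | h'
  · exact h1 h h'
  · exact h2 h h'

theorem claimCompValid : ClaimCompValid := by
  intro q hq
  obtain ⟨hN, hval⟩ := hq
  set N := q.1 with hNdef
  set m := q.2.length with hm
  set L := qL q with hL
  set n := qn q with hn
  have hLe : L = N + 28 * m + 8 := rfl
  have hne : n = 6 * L + 12 := rfl
  refine ⟨?_, ?_⟩
  · change 7 ≤ n
    omega
  change ∀ h ∈ hBase q ++ (List.range q.2.length).flatMap (hCons q), HexOK n h
  refine compV_append ?_ ?_
  · unfold hBase
    refine compV_append (compV_append (compV_append ?_ ?_) ?_) ?_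
    · intro h hh
      simp only [List.mem_cons, List.not_mem_nil, or_false, ← hn] at hh
      rcases hh with rfl | rfl | rfl | rfl | rfl | rfl | rfl <;>
        (apply compV_rot <;> omega)
    · intro h hh
      rw [List.mem_map] at hh
      obtain ⟨e, he, rfl⟩ := hh
      rw [List.mem_range, ← hL] at he
      rw [← hn]
      apply compV_H4
      left
      have c0 : cI (e + 3) = 2 * e + 15 := by
        rw [compV_cI (by omega)]
        ring
      have c1 : cI (e + 2) = 2 * e + 13 := by
        rw [compV_cI (by omega)]
        ring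
      have c2 : 0 < cI e ∧ cI e < cI (e + 1) ∧ cI (e + 1) < 2 * e + 13 := by
        match e with
        | 0 =>
          rw [show cI 0 = 3 from rfl, show cI (0 + 1) = 8 from rfl]
          omega
        | 1 =>
          rw [show cI 1 = 8 from rfl, show cI (1 + 1) = 13 from rfl]
          omega
        | e + 2 =>
          rw [compV_cI (by omega), compV_cI (by omega)]
          omega
      rw [c0, c1]
      omega
    · intro h hh
      simp only [List.mem_cons, List.not_mem_nil, or_false, ← hn, ← hL, ← hNdef] at hh
      rcases hh with rfl | rfl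
      · apply compV_H4
        rw [compV_cI (by omega)]
        unfold sI
        omega
      · apply compV_H4
        rw [compV_cI (by omega)]
        unfold sI
        omega
    · rw [← hn, ← hL, ← hNdef]
      exact compV_sum hne (by omega) (by omega) (by omega) (by omega) (by omega) (by omega)
        (by omega) (by omega) (by omega) (by omega)
  · intro h hh
    rw [List.mem_flatMap] at hh
    obtain ⟨s, hs, hh⟩ := hh
    rw [List.mem_range] at hs
    have hs' : s < m := hs
    have hcc : q.2.getD s (0, 0, 0, 0) ∈ q.2 := by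
      rw [List.getD_eq_getElem _ _ hs]
      exact List.getElem_mem hs
    obtain ⟨hv1, hv2, hv3⟩ := hval _ hcc
    revert h
    unfold hCons
    set cc := q.2.getD s (0, 0, 0, 0) with hccd
    set i := cc.2.1 with hi
    set j := cc.2.2.1 with hj
    set k := cc.2.2.2 with hk
    rw [← hn, ← hL, ← hNdef]
    set o := L + N + 4 + 28 * s with ho
    by_cases h0 : cc.1 = 0
    · rw [if_pos h0]
      unfold hAdd
      refine compV_append (compV_append (compV_append (compV_append (compV_append ?_ ?_) ?_)
        ?_) ?_) ?_
      · exact compV_copy hne (by omega) (by omega) (by omega)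
      · exact compV_copy hne (by omega) (by omega) (by omega)
      · exact compV_copy hne (by omega) (by omega) (by omega)
      · exact compV_sum hne (by omega) (by omega) (by omega) (by omega) (by omega) (by omega)
          (by omega) (by omega) (by omega) (by omega)
      · exact compV_sum hne (by omega) (by omega) (by omega) (by omega) (by omega) (by omega)
          (by omega) (by omega) (by omega) (by omega)
      · exact compV_sum hne (by omega) (by omega) (by omega) (by omega) (by omega) (by omega)
          (by omega) (by omega) (by omega) (by omega)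
    · rw [if_neg h0]
      unfold hMult
      refine compV_append (compV_append (compV_append (compV_append (compV_append (compV_append
        (compV_append (compV_append (compV_append (compV_append (compV_append (compV_append
        (compV_append ?_ ?_) ?_) ?_) ?_) ?_) ?_) ?_) ?_) ?_) ?_) ?_) ?_) ?_
      · exact compV_copy hne (by omega) (by omega) (by omega)
      · exact compV_copy hne (by omega) (by omega) (by omega)
      · exact compV_copy hne (by omega) (by omega) (by omega)
      · exact compV_copy hne (by omega) (by omega) (by omega)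
      · exact compV_sum hne (by omega) (by omega) (by omega) (by omega) (by omega) (by omega)
          (by omega) (by omega) (by omega) (by omega)
      · exact compV_sum hne (by omega) (by omega) (by omega) (by omega) (by omega) (by omega)
          (by omega) (by omega) (by omega) (by omega)
      · exact compV_sum hne (by omega) (by omega) (by omega) (by omega) (by omega) (by omega)
          (by omega) (by omega) (by omega) (by omega)
      · exact compV_sum hne (by omega) (by omega) (by omega) (by omega) (by omega) (by omega)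
          (by omega) (by omega) (by omega) (by omega)
      · exact compV_mul hne (by omega) (by omega) (by omega) (by omega) (by omega)
      · exact compV_mul hne (by omega) (by omega) (by omega) (by omega) (by omega)
      · exact compV_mul hne (by omega) (by omega) (by omega) (by omega) (by omega)
      · exact compV_mul hne (by omega) (by omega) (by omega) (by omega) (by omega)
      · exact compV_sum hne (by omega) (by omega) (by omega) (by omega) (by omega) (by omega)
          (by omega) (by omega) (by omega) (by omega)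
      · exact compV_sum hne (by omega) (by omega) (by omega) (by omega) (by omega) (by omega)
          (by omega) (by omega) (by omega) (by omega)

end Pool.Agent.Work.MP_5b14b0_lc
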