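import Pool.Agent.Work.MP_5b14b0_lc.Memb

/-!
# Decoding of combinatorial types in polynomial time (item E1)
-/

set_option autoImplicit false

namespace Pool.Agent.Work.MP_5b14b0_lc

open Pool.Agent.PT

namespace Decode

/-- The number coded by a tree. -/
def num (t : D) : ℕ := t.toL.length

theorem num_enc (n : ℕ) : num (Enc.enc n) = n := by
  unfold num
  rw [← enc_replicate_unit, D.toL_enc, List.length_map, List.length_replicate]

@[fun_prop]
theorem ptf_num {α : Type} [Enc α] {f : α → D} (hf : PTF f) : PTF (fun a => num (f a)) := by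
  unfold num
  exact hf.toL.length

/-- The list of numbers coded by a tree. -/
def nums (t : D) : List ℕ := t.toL.map num

theorem nums_enc (l : List ℕ) : nums (Enc.enc l) = l := by
  unfold nums
  rw [D.toL_enc, List.map_map]
  have : num ∘ (fun a : ℕ => (Enc.enc a : D)) = fun a => a := by
    ext a; exact num_enc a
  rw [this, List.map_id']

@[fun_prop]
theorem ptf_nums {α : Type} [Enc α] {f : α → D} (hf : PTF f) : PTF (fun a => nums (f a)) := by
  unfold nums
  fun_prop

/-- The decoder. -/
def dec (w : List Bool) : ℕ × List (List ℕ) :=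
  (num (parse w).hd, (parse w).tl.toL.map nums)

theorem dec_enc (n : ℕ) (Fs : List (List ℕ)) : dec (Enc.enc (n, Fs)).enc = (n, Fs) := by
  unfold dec
  rw [parse_enc, enc_pair]
  simp only [D.hd_cons, D.tl_cons]
  rw [num_enc, D.toL_enc, List.map_map]
  have : nums ∘ (fun a : List ℕ => (Enc.enc a : D)) = fun a => a := by
    ext a : 1; exact nums_enc a
  rw [this, List.map_id']

theorem ptf_dec : PTF dec := by
  have h := ptf_parse
  unfold dec
  have h1 : PTF (fun w : List Bool => (parse w).hd) := h.Dhd'
  have h2 : PTF (fun w : List Bool => (parse w).tl) := h.Dtl'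
  exact (ptf_num h1).pair (by fun_prop)

end Decode

open Decode in
theorem claimDecode : ClaimDecode := by
  refine ⟨fun w => if (Enc.enc (dec w)).enc = w then some (dec w) else none, ?_, ?_⟩
  · refine PTF.ite (PTF.eq (ptf_ser ptf_dec) PTF.id) ptf_dec.some (PTF.const none)
  · intro w n Fs
    show (if (Enc.enc (dec w)).enc = w then some (dec w) else none) = some (n, Fs) ↔
      (Enc.enc (n, Fs)).enc = w
    constructor
    · intro h
      split_ifs at h with h1
      · rw [Option.some.injEq] at h
        rw [h] at h1
        exact h1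
    · intro h
      have h1 : dec w = (n, Fs) := by rw [← h]; exact dec_enc n Fs
      rw [h1, if_pos h]

end Pool.Agent.Work.MP_5b14b0_lc
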