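import Pool.Agent.Work.MP_5b14b0_lc.Fspan

/-!
# From inscribed polytopes to light vectors (ClaimDown)
-/

set_option autoImplicit false

namespace Pool.Agent.Work.MP_5b14b0_lc

namespace Dwn

open Set

/-- The subspace of the points which are killed by the dual functionals. -/
theorem finrank_U {W : Type} [AddCommGroup W] [Module ℝ W] [FiniteDimensional ℝ W] {m r : ℕ}
    (hW : Module.finrank ℝ W = 5 + r) (u : Fin m → W) (a : Fin r → W)
    (hspan : Submodule.span ℝ (range u) ⊔ Submodule.span ℝ (range a) = ⊤)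
    (g : Fin r → (W →ₗ[ℝ] ℝ)) (hu : ∀ j i, g j (u i) = 0)
    (ha : ∀ j j', g j (a j') = 0 ↔ j' ≠ j) :
    Module.finrank ℝ (Submodule.span ℝ (range u)) = 5 := by
  have hA : Module.finrank ℝ (Submodule.span ℝ (range a)) ≤ r := by
    have := finrank_range_le_card (R := ℝ) a
    rw [Fintype.card_fin] at this
    exact this
  have h1 := Submodule.finrank_add_le_finrank_add_finrank (Submodule.span ℝ (range u))
    (Submodule.span ℝ (range a))
  rw [hspan, finrank_top, hW] at h1
  have hsurj : LinearMap.range (LinearMap.pi g) = ⊤ := by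
    rw [eq_top_iff]
    intro y _
    refine ⟨∑ j, (y j / g j (a j)) • a j, ?_⟩
    funext j
    rw [LinearMap.pi_apply, map_sum, Finset.sum_eq_single j]
    · rw [map_smul, smul_eq_mul, div_mul_cancel₀]
      intro h
      exact (ha j j).1 h rfl
    · intro j' _ hj'
      rw [map_smul, (ha j j').2 hj', smul_zero]
    · intro h; exact absurd (Finset.mem_univ _) h
  have h2 := LinearMap.finrank_range_add_finrank_ker (LinearMap.pi g)
  rw [hsurj, finrank_top, Module.finrank_fin_fun, hW] at h2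
  have h3 : Submodule.span ℝ (range u) ≤ LinearMap.ker (LinearMap.pi g) := by
    rw [Submodule.span_le]
    rintro _ ⟨i, rfl⟩
    rw [SetLike.mem_coe, LinearMap.mem_ker]
    funext j
    exact hu j i
  have h4 := Submodule.finrank_mono h3
  omega

/-- The directions in the subspace. -/
theorem finrank_D {d : ℕ} (U : Submodule ℝ (Fin (d + 1) → ℝ)) (hU : Module.finrank ℝ U = 5)
    (hne : ∃ u ∈ U, u (Fin.last d) ≠ 0) :
    Module.finrank ℝ (Submodule.comap (MembG.emb d) U) = 4 := by
  have hinj : Function.Injective (MembG.emb d) := by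
    intro x y h
    ext k
    have h1 := congrFun h k.castSucc
    simpa [MembG.emb] using h1
  rw [(Submodule.equivMapOfInjective (MembG.emb d) hinj _).finrank_eq, Submodule.map_comap_eq]
  have hrange : LinearMap.range (MembG.emb d) =
      LinearMap.ker (LinearMap.proj (Fin.last d) : (Fin (d + 1) → ℝ) →ₗ[ℝ] ℝ) := by
    ext x
    constructor
    · rintro ⟨y, rfl⟩
      simp [MembG.emb]
    · intro hx
      rw [LinearMap.mem_ker, LinearMap.proj_apply] at hx
      refine ⟨WithLp.toLp 2 (fun k => x k.castSucc), ?_⟩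
      funext k
      refine Fin.lastCases ?_ (fun k => ?_) k
      · simp [MembG.emb, hx]
      · simp [MembG.emb]
  rw [hrange]
  set f : U →ₗ[ℝ] ℝ :=
    (LinearMap.proj (Fin.last d) : (Fin (d + 1) → ℝ) →ₗ[ℝ] ℝ).domRestrict U with hf
  have hf0 : f ≠ 0 := by
    obtain ⟨u, hu, hu'⟩ := hne
    intro h
    apply hu'
    have := congrArg (fun f : U →ₗ[ℝ] ℝ => f ⟨u, hu⟩) h
    simpa [hf] using this
  have h1 := Module.Dual.finrank_ker_add_one_of_ne_zero hf0
  rw [hU] at h1
  have h2 : Submodule.map U.subtype (LinearMap.ker f) =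
      LinearMap.ker (LinearMap.proj (Fin.last d) : (Fin (d + 1) → ℝ) →ₗ[ℝ] ℝ) ⊓ U := by
    ext x
    simp only [Submodule.mem_map, LinearMap.mem_ker, Submodule.mem_inf]
    constructor
    · rintro ⟨y, hy, rfl⟩
      exact ⟨hy, y.2⟩
    · rintro ⟨hx, hx'⟩
      exact ⟨⟨x, hx'⟩, hx, rfl⟩
  rw [← h2, Submodule.finrank_map_subtype_eq]
  omega

theorem hom_add {d : ℕ} (x y : MembG.E d) : MembG.hom (x + y) = MembG.hom x + MembG.emb d y := by
  rw [MembG.hom_eq, MembG.hom_eq, map_add]
  abel

theorem hom_inj {d : ℕ} {x y : MembG.E d} (h : MembG.hom x = MembG.hom y) : x = y := by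
  ext k
  have h1 := congrFun h k.castSucc
  rwa [MembG.hom_castSucc, MembG.hom_castSucc] at h1

/-- The light vectors. -/
theorem core {d m : ℕ} (p : Fin m → MembG.E d) (hinj : Function.Injective p)
    (c : MembG.E d) (R : ℝ) (hR : ∀ i, dist (p i) c = R)
    (hU : Module.finrank ℝ (Submodule.span ℝ (range fun i => MembG.hom (p i))) = 5) :
    ∃ (y : Fin m → E) (Ξ : E →ₗ[ℝ] (Fin (d + 1) → ℝ)), (∀ i, Light (y i)) ∧
      (∀ i, y i 4 = 1) ∧ ∀ i, Ξ (y i) = MembG.hom (p i) := by
  have hm : 5 ≤ m := by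
    have := finrank_range_le_card (R := ℝ) (fun i => MembG.hom (p i))
    rw [Fintype.card_fin] at this
    have h2 : Module.finrank ℝ (Submodule.span ℝ (range fun i => MembG.hom (p i))) ≤ m := this
    rw [hU] at h2
    exact h2
  set U := Submodule.span ℝ (range fun i => MembG.hom (p i)) with hUdef
  have hpU : ∀ i, MembG.hom (p i) ∈ U := fun i => Submodule.subset_span ⟨i, rfl⟩
  let i0 : Fin m := ⟨0, by omega⟩
  let i1 : Fin m := ⟨1, by omega⟩
  have hD := finrank_D U hU ⟨MembG.hom (p i0), hpU i0, by rw [MembG.hom_last]; norm_num⟩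
  set D := Submodule.comap (MembG.emb d) U with hDdef
  let b : OrthonormalBasis (Fin 4) ℝ D := (stdOrthonormalBasis ℝ D).reindex (finCongr hD)
  have hpD : ∀ i, p i - p i0 ∈ D := by
    intro i
    rw [hDdef, Submodule.mem_comap]
    have h1 : MembG.emb d (p i - p i0) = MembG.hom (p i) - MembG.hom (p i0) := by
      rw [MembG.hom_eq, MembG.hom_eq, map_sub]
      abel
    rw [h1]
    exact U.sub_mem (hpU i) (hpU i0)
  -- coordinates
  let x : Fin m → Fin 4 → ℝ := fun i k => inner ℝ ((b k : D) : MembG.E d) (p i - c)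
  let s : Fin m → MembG.E d := fun i => ∑ k, x i k • ((b k : D) : MembG.E d)
  have hbD : ∀ z ∈ D, ∑ k, (inner ℝ ((b k : D) : MembG.E d) z : ℝ) • ((b k : D) : MembG.E d) = z := by
    intro z hz
    have h1 := b.sum_repr ⟨z, hz⟩
    have h2 := congrArg (fun w : D => (w : MembG.E d)) h1
    simp only [Submodule.coe_sum, Submodule.coe_smul] at h2
    rw [← h2]
    refine Finset.sum_congr rfl fun k _ => ?_
    rw [h2, b.repr_apply_apply]
    rfl
  have horth : ∀ k l, (inner ℝ ((b k : D) : MembG.E d) ((b l : D) : MembG.E d) : ℝ) =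
      if k = l then 1 else 0 := by
    intro k l
    have h1 := (orthonormal_iff_ite.1 b.orthonormal) k l
    rw [← h1]
    rfl
  obtain ⟨nn, hnn⟩ : ∃ nn, nn = p i0 - c - s i0 := ⟨_, rfl⟩
  have hs : ∀ i, p i - c - s i = nn := by
    intro i
    rw [hnn]
    have h1 := hbD _ (hpD i)
    have h2 : s i - s i0 = p i - p i0 := by
      rw [← h1]
      simp only [s, x]
      rw [← Finset.sum_sub_distrib]
      refine Finset.sum_congr rfl fun k _ => ?_
      rw [← sub_smul, ← inner_sub_right]
      congr 2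
      abel
    have h3 : p i - c - s i - (p i0 - c - s i0) = (p i - p i0) - (s i - s i0) := by abel
    rw [← sub_eq_zero, h3, h2, sub_self]
  have hsk : ∀ i k, (inner ℝ ((b k : D) : MembG.E d) (s i) : ℝ) = x i k := by
    intro i k
    simp only [s]
    rw [inner_sum, Finset.sum_eq_single k]
    · rw [inner_smul_right, horth, if_pos rfl, mul_one]
    · intro l _ hl
      rw [inner_smul_right, horth, if_neg hl.symm, mul_zero]
    · intro h; exact absurd (Finset.mem_univ _) h
  have hn : ∀ i k, (inner ℝ ((b k : D) : MembG.E d) (p i - c - s i) : ℝ) = 0 := by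
    intro i k
    rw [inner_sub_right, hsk]
    simp only [x, sub_self]
  have hss : ∀ i, (inner ℝ (s i) (s i) : ℝ) = ∑ k, x i k ^ 2 := by
    intro i
    conv_lhs =>
      enter [2]
      simp only [s]
    rw [sum_inner]
    refine Finset.sum_congr rfl fun k _ => ?_
    rw [inner_smul_left, hsk]
    simp only [conj_trivial]
    ring
  have hsn : ∀ i, (inner ℝ (s i) (p i - c - s i) : ℝ) = 0 := by
    intro i
    conv_lhs =>
      enter [2]
      simp only [s]
    rw [sum_inner]
    refine Finset.sum_eq_zero fun k _ => ?_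
    rw [inner_smul_left]
    have := hn i k
    simp only [s] at this
    rw [this, mul_zero]
  have hsq : ∀ i, ∑ k, x i k ^ 2 = R ^ 2 - ‖nn‖ ^ 2 := by
    intro i
    have h1 : R ^ 2 = (inner ℝ (p i - c) (p i - c) : ℝ) := by
      rw [real_inner_self_eq_norm_sq, ← hR i, dist_eq_norm]
    have h2 : p i - c = s i + (p i - c - s i) := by abel
    rw [h2, inner_add_add_self, hss, hsn, real_inner_comm, hsn, real_inner_self_eq_norm_sq,
      hs i] at h1
    linarith
  set ρ := R ^ 2 - ‖nn‖ ^ 2 with hρ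
  have hps : ∀ i, p i = (c + nn) + s i := by
    intro i
    rw [← hs i]
    abel
  have hρpos : 0 < ρ := by
    rw [lt_iff_le_and_ne]
    refine ⟨by rw [← hsq i0]; positivity, fun h0 => ?_⟩
    have h1 : ∀ i, s i = 0 := by
      intro i
      have h2 := hsq i
      rw [← h0] at h2
      have h3 := (Finset.sum_eq_zero_iff_of_nonneg (fun k _ => sq_nonneg (x i k))).1 h2
      simp only [s]
      refine Finset.sum_eq_zero fun k hk => ?_
      have h4 := h3 k hk
      rw [sq_eq_zero_iff] at h4
      rw [h4, zero_smul]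
    have h2 : p i0 = p i1 := by
      rw [hps i0, hps i1, h1 i0, h1 i1]
    have h3 := hinj h2
    simp [i0, i1] at h3
  set R' := √ρ with hR'
  have hR'pos : 0 < R' := Real.sqrt_pos.2 hρpos
  have hR'sq : R' ^ 2 = ρ := Real.sq_sqrt hρpos.le
  let y : Fin m → E := fun i => Fin.snoc (α := fun _ => ℝ) (fun k => x i k / R') 1
  have hyk : ∀ i (k : Fin 4), y i k.castSucc = x i k / R' := fun i k => by
    simp only [y, Fin.snoc_castSucc]
  have hy4 : ∀ i, y i 4 = 1 := fun i => by
    have h : (4 : Fin 5) = Fin.last 4 := rfl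
    simp only [y]
    rw [h, Fin.snoc_last]
  let Ξ : E →ₗ[ℝ] (Fin (d + 1) → ℝ) :=
    (MembG.emb d).comp (∑ k : Fin 4, (LinearMap.proj k.castSucc : E →ₗ[ℝ] ℝ).smulRight
      (R' • ((b k : D) : MembG.E d))) +
    (LinearMap.proj 4 : E →ₗ[ℝ] ℝ).smulRight (MembG.hom (c + nn))
  refine ⟨y, Ξ, fun i => ⟨?_, by rw [hy4]; norm_num⟩, hy4, fun i => ?_⟩
  · have h1 := hsq i
    rw [Fin.sum_univ_four] at h1
    have h0 := hyk i 0
    have h2 := hyk i 1
    have h3 := hyk i 2
    have h4 := hyk i 3
    have e0 : (Fin.castSucc (0 : Fin 4)) = (0 : Fin 5) := rfl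
    have e1 : (Fin.castSucc (1 : Fin 4)) = (1 : Fin 5) := rfl
    have e2 : (Fin.castSucc (2 : Fin 4)) = (2 : Fin 5) := rfl
    have e3 : (Fin.castSucc (3 : Fin 4)) = (3 : Fin 5) := rfl
    rw [e0] at h0
    rw [e1] at h2
    rw [e2] at h3
    rw [e3] at h4
    simp only [B]
    rw [h0, h2, h3, h4, hy4]
    have h5 : R' ≠ 0 := hR'pos.ne'
    field_simp
    rw [hR'sq]
    linarith
  · have h1 : Ξ (y i) = MembG.emb d (∑ k : Fin 4, (y i k.castSucc) •
        (R' • ((b k : D) : MembG.E d))) + (y i 4) • MembG.hom (c + nn) := by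
      simp only [Ξ, LinearMap.add_apply, LinearMap.comp_apply, LinearMap.sum_apply,
        LinearMap.smulRight_apply, LinearMap.proj_apply]
    have h2 : ∑ k : Fin 4, (y i k.castSucc) • (R' • ((b k : D) : MembG.E d)) = s i := by
      simp only [s]
      refine Finset.sum_congr rfl fun k _ => ?_
      rw [hyk, smul_smul, div_mul_cancel₀ _ hR'pos.ne']
    have h3 : MembG.hom (p i) = MembG.hom (c + nn) + MembG.emb d (s i) := by
      rw [← hom_add, ← hps i]
    rw [h1, h2, hy4, one_smul, h3]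
    abel

end Dwn

open Dwn Set in
theorem claimDown : ClaimDown := by
  intro d Vs Fs hd hnd hsub hI
  obtain ⟨r, rfl⟩ := Nat.exists_eq_add_of_le hd
  rw [Fsp.instOf_eq] at hI
  obtain ⟨-, p, P, hP, hint, hinj, -, ⟨c, R, hR⟩, hfac⟩ := hI
  subst hP
  replace hint : (interior (convexHull ℝ (range p))).Nonempty := hint
  -- the functionals of the facets
  have hfun : ∀ S : Set (Fin (Vs.length + r)),
      ((∃ F ∈ Fs, (∀ i : Fin Vs.length, Fin.castAdd r i ∈ S ↔ Vs.get i ∈ F) ∧
        ∀ j : Fin r, Fin.natAdd Vs.length j ∈ S) ∨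
      (∃ j0 : Fin r, (∀ i : Fin Vs.length, Fin.castAdd r i ∈ S) ∧
        ∀ j : Fin r, Fin.natAdd Vs.length j ∈ S ↔ j ≠ j0)) →
      ∃ g : (Fin (4 + r + 1) → ℝ) →ₗ[ℝ] ℝ, (∀ j, 0 ≤ g (MembG.hom (p j))) ∧
      (∀ j, g (MembG.hom (p j)) = 0 ↔ j ∈ S) ∧
      Module.finrank ℝ (Submodule.span ℝ ((fun i => MembG.hom (p i)) '' S)) = 4 + r := by
    intro S hS
    have h1 := (Fsp.inst_mem r Vs Fs hnd hsub S).2 hS
    have h2 : S ∈ {S : Set (Fin (Vs.length + r)) |
        ∃ F, IsFacet (convexHull ℝ (range p)) F ∧ S = {i | p i ∈ F}} := by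
      rw [hfac]; exact h1
    exact (Fsp.facet_span p (by omega) hint S).1 h2
  set u : Fin Vs.length → (Fin (4 + r + 1) → ℝ) := fun i => MembG.hom (p (Fin.castAdd r i)) with hu
  set a : Fin r → (Fin (4 + r + 1) → ℝ) := fun j => MembG.hom (p (Fin.natAdd Vs.length j)) with ha
  have hA : Module.finrank ℝ (Submodule.span ℝ (range a)) ≤ r := by
    have := finrank_range_le_card (R := ℝ) a
    rw [Fintype.card_fin] at this
    exact this
  have hspan : Submodule.span ℝ (range u) ⊔ Submodule.span ℝ (range a) = ⊤ := by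
    rw [eq_top_iff, ← (Fsp.interior_span p).1 hint, Submodule.span_le]
    rintro _ ⟨i, rfl⟩
    refine Fin.addCases (fun i => ?_) (fun j => ?_) i
    · exact Submodule.mem_sup_left (Submodule.subset_span ⟨i, rfl⟩)
    · exact Submodule.mem_sup_right (Submodule.subset_span ⟨j, rfl⟩)
  have hg : ∀ j0 : Fin r, ∃ g : (Fin (4 + r + 1) → ℝ) →ₗ[ℝ] ℝ, (∀ i, g (u i) = 0) ∧
      ∀ j, g (a j) = 0 ↔ j ≠ j0 := by
    intro j0
    obtain ⟨g, -, hg, -⟩ := hfun {i | i ≠ Fin.natAdd Vs.length j0} (Or.inr ⟨j0, fun i => by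
      rw [mem_ofPred_eq]
      intro h
      have h1 := congrArg Fin.val h
      rw [Fin.val_castAdd, Fin.val_natAdd] at h1
      have := i.2
      omega, fun j => by
      rw [mem_ofPred_eq, ne_eq, ne_eq, Fin.natAdd_inj]⟩)
    refine ⟨g, fun i => (hg _).2 ?_, fun j => ?_⟩
    · rw [mem_ofPred_eq]
      intro h
      have h1 := congrArg Fin.val h
      rw [Fin.val_castAdd, Fin.val_natAdd] at h1
      have := i.2
      omega
    · rw [ha]
      simp only
      rw [hg, mem_ofPred_eq, ne_eq, ne_eq, Fin.natAdd_inj]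
  choose g hg1 hg2 using hg
  have hU : Module.finrank ℝ (Submodule.span ℝ (range u)) = 5 :=
    finrank_U (by rw [Module.finrank_fin_fun]; omega) u a hspan g hg1 hg2
  obtain ⟨y, Ξ, hy1, hy2, hy3⟩ := core (fun i => p (Fin.castAdd r i))
    (fun i j h => Fin.castAdd_injective _ _ (hinj h)) c R (fun i => hR _) hU
  have hget : Function.Injective Vs.get := List.nodup_iff_injective_get.1 hnd
  let φ : Lab → E := Function.extend Vs.get y 0
  have hφ : ∀ i, φ (Vs.get i) = y i := fun i => hget.extend_apply y 0 i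
  refine ⟨φ, ?_, ?_, ?_⟩
  · intro v hv
    obtain ⟨i, rfl⟩ := List.mem_iff_get.1 hv
    rw [hφ]
    exact hy1 i
  · intro v hv w hw hvw t h
    obtain ⟨i, rfl⟩ := List.mem_iff_get.1 hv
    obtain ⟨j, rfl⟩ := List.mem_iff_get.1 hw
    rw [hφ, hφ] at h
    have h1 := congrFun h 4
    rw [Pi.smul_apply, hy2, hy2, smul_eq_mul, mul_one] at h1
    rw [← h1, one_smul] at h
    have h2 := hy3 i
    rw [← h, hy3 j] at h2
    have h3 := Fin.castAdd_injective _ _ (hinj (hom_inj h2))
    exact hvw (by rw [h3])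
  · intro F hF
    obtain ⟨gF, hgF1, hgF2, hgF3⟩ := hfun
      {k | (∃ i, k = Fin.castAdd r i ∧ Vs.get i ∈ F) ∨ ∃ j, k = Fin.natAdd Vs.length j}
      (Or.inl ⟨F, hF, fun i => by
        rw [mem_ofPred_eq]
        constructor
        · rintro (⟨i', h, h'⟩ | ⟨j, h⟩)
          · rw [Fin.castAdd_injective _ _ h]; exact h'
          · exfalso
            have h1 := congrArg Fin.val h
            rw [Fin.val_castAdd, Fin.val_natAdd] at h1
            have := i.2
            omega
        · intro h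
          exact Or.inl ⟨i, rfl, h⟩, fun j => Or.inr ⟨j, rfl⟩⟩)
    set S : Set (Fin (Vs.length + r)) :=
      {k | (∃ i, k = Fin.castAdd r i ∧ Vs.get i ∈ F) ∨ ∃ j, k = Fin.natAdd Vs.length j} with hS
    have hSi : ∀ i : Fin Vs.length, Fin.castAdd r i ∈ S ↔ Vs.get i ∈ F := by
      intro i
      rw [hS, mem_ofPred_eq]
      constructor
      · rintro (⟨i', h, h'⟩ | ⟨j, h⟩)
        · rw [Fin.castAdd_injective _ _ h]; exact h'
        · exfalso
          have h1 := congrArg Fin.val h
          rw [Fin.val_castAdd, Fin.val_natAdd] at h1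
          have := i.2
          omega
      · intro h
        exact Or.inl ⟨i, rfl, h⟩
    have hNy : ∀ i, (gF.comp Ξ) (y i) = gF (MembG.hom (p (Fin.castAdd r i))) := fun i => by
      rw [LinearMap.comp_apply, hy3]
    have hN1 : ∀ v ∈ Vs, 0 ≤ (gF.comp Ξ) (φ v) := by
      intro v hv
      obtain ⟨i, rfl⟩ := List.mem_iff_get.1 hv
      rw [hφ, hNy]
      exact hgF1 _
    have hN2 : ∀ v ∈ Vs, (gF.comp Ξ) (φ v) = 0 ↔ v ∈ F := by
      intro v hv
      obtain ⟨i, rfl⟩ := List.mem_iff_get.1 hv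
      rw [hφ, hNy, hgF2]
      exact hSi i
    have hN0 : gF.comp Ξ ≠ 0 := by
      intro h0
      have h1 : S = univ := by
        ext k
        simp only [mem_univ, iff_true]
        refine Fin.addCases (fun i => ?_) (fun j => ?_) k
        · rw [← hgF2, ← hNy, h0]; rfl
        · exact Or.inr ⟨j, rfl⟩
      rw [h1, image_univ, (Fsp.interior_span p).1 hint, finrank_top,
        Module.finrank_fin_fun] at hgF3
      omega
    refine ⟨hsub F hF, le_antisymm ?_ ?_, gF.comp Ξ, hN1, hN2⟩
    · have h1 : Submodule.span ℝ (φ '' {v | v ∈ F}) ≤ LinearMap.ker (gF.comp Ξ) := by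
        rw [Submodule.span_le]
        rintro _ ⟨v, hv, rfl⟩
        exact (hN2 v (hsub F hF hv)).2 hv
      have h2 := Submodule.finrank_mono h1
      have h3 := Module.Dual.finrank_ker_add_one_of_ne_zero hN0
      rw [Module.finrank_fin_fun] at h3
      omega
    · have h1 : Submodule.span ℝ ((fun i => MembG.hom (p i)) '' S) ≤
          Submodule.map Ξ (Submodule.span ℝ (φ '' {v | v ∈ F})) ⊔
            Submodule.span ℝ (range a) := by
        rw [Submodule.span_le]
        rintro _ ⟨k, hk, rfl⟩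
        revert hk
        refine Fin.addCases (fun i => ?_) (fun j => ?_) k
        · intro hi
          apply Submodule.mem_sup_left
          change MembG.hom (p (Fin.castAdd r i)) ∈ _
          rw [← hy3 i]
          exact Submodule.mem_map_of_mem (Submodule.subset_span ⟨Vs.get i, (hSi i).1 hi, hφ i⟩)
        · intro _
          exact Submodule.mem_sup_right (Submodule.subset_span ⟨j, rfl⟩)
      have h2 := Submodule.finrank_mono h1
      have h3 := Submodule.finrank_add_le_finrank_add_finrank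
        (Submodule.map Ξ (Submodule.span ℝ (φ '' {v | v ∈ F}))) (Submodule.span ℝ (range a))
      have h4 := Submodule.finrank_map_le Ξ (Submodule.span ℝ (φ '' {v | v ∈ F}))
      rw [hgF3] at h2
      omega

end Pool.Agent.Work.MP_5b14b0_lc
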