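import Pool.Agent.Work.MP_5b14b0_lc.GadA4

/-!
# MP_5b14b0_lc, item G5: the deletion gadget
-/

set_option autoImplicit false

namespace Pool.Agent.Work.MP_5b14b0_lc
namespace GA

open Finset

section Po
variable {S T : Finset ℕ} {v u w : ℕ} {g : ℕ → E} {A : E} {c : ℝ} {e0 e3 e4 : E}
    {ω : E → E → E → ℝ} {m : ℕ × ℕ → Du} {m' : Du} {kG kT : ℝ}
    {ι : Type} [DecidableEq ι] {pl pl' : ℕ → ι} {a a' : ι} {φ2 : ι → E}

lemma inpl_neg {x : E} : InPl e3 (-e4) x ↔ InPl e3 e4 x := by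
  unfold InPl
  rw [B_neg_right, neg_eq_zero]

lemma frame_neg (h : Frame e0 e3 e4) : Frame e0 e3 (-e4) := by
  refine ⟨h.n0, h.n3, ?_, h.o03, ?_, ?_, h.fut⟩
  · rw [B_neg_right, B_comm, B_neg_right, h.n4]; ring
  · rw [B_neg_right, h.o04]; ring
  · rw [B_neg_right, h.o34]; ring

lemma tri_neg (h : Tri ω e3 e4) : Tri ω e3 (-e4) := by
  refine ⟨h.add, h.smul, h.rot, h.swap, h.z3, fun y z => ?_, fun x y z w hx hy hz hw => ?_⟩
  · have := h.smul (-1) e4 y z
    rw [neg_one_smul, h.z4] at this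
    rw [this]; ring
  · exact h.cramer x y z w (inpl_neg.1 hx) (inpl_neg.1 hy) (inpl_neg.1 hz) (inpl_neg.1 hw)

lemma edgeF_neg {mm : Du} {p q : E} (h : EdgeF mm p q e0 e3 e4) :
    EdgeF mm p q e0 e3 (-e4) :=
  ⟨h.u0, h.v0, h.m0, h.m3, by rw [map_neg, h.m4, neg_zero]⟩

lemma port_in (d : Dat S v u w g A c e0 e3 e4 ω m m' kG kT)
    (L : Lbl S v pl pl' a a' φ2 g A (sY kG kT e0 e3 e4)) (hT : T ⊆ S.erase v)
    (hT3 : 3 ≤ T.card) (hI : IntC g T e0) :
    Port (FA S v pl pl' a a') φ2 (NA S v pl pl' a a' e0 e3 e4 m m' (g v) kG kT) S T pl a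
      e0 e3 (-e4) ω kG (fun _ => kT) := by
  have hTS : T ⊆ S := hT.trans (Finset.erase_subset _ _)
  have hN3 : ∃ r : ℝ, 0 < r ∧ ∀ x, NA S v pl pl' a a' e0 e3 e4 m m' (g v) kG kT
      (F3 S v pl pl') x = r * (B x e3 + kG * B x (-e4)) :=
    ⟨1, one_pos, fun x => by rw [NA3 L, n3_apply, B_neg_right]; ring⟩
  have hNe : ∀ e ∈ Ed S, ∃ mm : Du, EdgeF mm (φ2 (pl e.1)) (φ2 (pl e.2)) e0 e3 (-e4) ∧
      ∃ r : ℝ, 0 < r ∧ ∀ x, NA S v pl pl' a a' e0 e3 e4 m m' (g v) kG kT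
        (Fe v pl pl' a a' e) x = r * (mm x - B x e3 + kT * B x (-e4)) := by
    intro e he
    have h0 := ed_mem he
    refine ⟨m e, ?_, 1, one_pos, fun x => ?_⟩
    · rw [L.fp _ h0.1, L.fp _ h0.2]; exact edgeF_neg (d.edge e he).1
    · rw [NAe L he, nM_apply, B_neg_right]; ring
  have hF31 : F3 S v pl pl' ≠ pF S pl a := fun h => a_F3 L (by rw [h]; exact a_F1)
  refine ⟨frame_neg d.frame, tri_neg d.tri, ⟨fun j hj => ?_, fun j hj => ?_, ?_⟩, hTS, hT3, ?_,
    fun i hi j hj h => L.injp i hi j hj h, ?_, F1_mem, ?_, ?_, ?_, ?_, ?_⟩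
  · rw [L.fp j hj]; exact d.cyc.light j hj
  · rw [L.fp j hj]; exact inpl_neg.2 (d.cyc.inpl j hj)
  · intro i hi j hj k hk hij hjk
    rw [L.fp i hi, L.fp j hj, L.fp k hk]
    exact d.cyc.pos i hi j hj k hk hij hjk
  · obtain ⟨b, hb, hbe⟩ := hI
    refine ⟨b, hb, hbe.trans (Finset.sum_congr rfl fun j hj => ?_)⟩
    dsimp only
    rw [L.fp j (hTS hj)]
  · rw [Finset.mem_image]
    rintro ⟨j, hj, h⟩
    exact L.ap j hj h
  · exact ⟨c, d.c0, by rw [L.fa, d.hA]⟩
  · exact ⟨1, one_pos, fun x => by rw [NA1 L, n1_apply, B_neg_right]; ring⟩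
  · exact ⟨F3 S v pl pl', F3_mem, hF31, Finset.subset_union_left, hN3⟩
  · intro e he
    have h0 := ed_mem he
    refine ⟨Fe v pl pl' a a' e, Fe_mem he, fun h => a'_F1 L (by rw [← h]; exact a'_Fe), a_Fe,
      (p_Fe L he h0.1).2 (Or.inl rfl), (p_Fe L he h0.2).2 (Or.inr rfl), hNe e he⟩
  · intro f hf hf1
    rcases FA_cases.1 hf with rfl | rfl | rfl | rfl | ⟨e, he, rfl⟩
    · exact absurd rfl hf1
    · right; right
      refine ⟨F3 S v pl pl', F3_mem, hF31, fun h => a'_F3 L (by rw [h]; exact a_F1), ?_⟩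
      intro x hx
      rw [Finset.mem_inter, mem_pF] at hx
      rcases hx.1 with rfl | ⟨j, hj, rfl⟩
      · exact absurd hx.2 (a_F2 L)
      · exact absurd hx.2 (p_F2 L hj)
    · exact Or.inl hN3
    · right; right
      refine ⟨F3 S v pl pl', F3_mem, hF31, fun h => a'_F3 L (by rw [h]; exact a'_F4 d.nb), ?_⟩
      intro x hx
      rw [Finset.mem_inter, mem_pF] at hx
      rcases hx.1 with rfl | ⟨j, hj, rfl⟩
      · exact absurd hx.2 (a_F4 d.nb L)
      · exact p_F3 hj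
    · exact Or.inr (Or.inl ⟨e, he, hNe e he⟩)

lemma tri_s (d : Dat S v u w g A c e0 e3 e4 ω m m' kG kT) :
    Tri (fun x y z => ω (sY kG kT e0 e3 e4 x) (sY kG kT e0 e3 e4 y) (sY kG kT e0 e3 e4 z))
      (sY kG kT e0 e3 e4 e3) (-sY kG kT e0 e3 e4 e4) := by
  have h := d.tri
  have hpl : ∀ x, InPl (sY kG kT e0 e3 e4 e3) (-sY kG kT e0 e3 e4 e4) x →
      InPl e3 e4 (sY kG kT e0 e3 e4 x) := by
    intro x hx
    rw [inpl_neg] at hx
    unfold InPl at *
    have e1 := B_sg_left (DY d).ne' x e3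
    have e2 := B_sg_left (DY d).ne' x e4
    unfold sY at *
    rw [e1, e2]
    exact hx
  refine ⟨fun x x' y z => ?_, fun r x y z => ?_, fun x y z => ?_, fun x y z => ?_,
    fun y z => ?_, fun y z => ?_, fun x y z t hx hy hz ht => ?_⟩
  · simp only [map_add]; exact h.add _ _ _ _
  · simp only [map_smul]; exact h.smul _ _ _ _
  · exact h.rot _ _ _
  · exact h.swap _ _ _
  · simp only [sY_sY d]; exact h.z3 _ _
  · simp only [map_neg, sY_sY d]
    have := h.smul (-1) e4 (sY kG kT e0 e3 e4 y) (sY kG kT e0 e3 e4 z)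
    rw [neg_one_smul, h.z4] at this
    rw [this]; ring
  · have h1 := h.cramer _ _ _ _ (hpl x hx) (hpl y hy) (hpl z hz) (hpl t ht)
    have h2 := congrArg (sY kG kT e0 e3 e4) h1
    simpa only [map_add, map_smul, sY_sY d] using h2

lemma edgeF_s (d : Dat S v u w g A c e0 e3 e4 ω m m' kG kT) {mm : Du} {p q : E}
    (h : EdgeF mm p q e0 e3 e4) : EdgeF (mm.comp (sY kG kT e0 e3 e4))
      (sY kG kT e0 e3 e4 p) (sY kG kT e0 e3 e4 q) (sY kG kT e0 e3 e4 e0)
      (sY kG kT e0 e3 e4 e3) (-sY kG kT e0 e3 e4 e4) := by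
  refine ⟨?_, ?_, ?_, ?_, ?_⟩
  · rw [LinearMap.comp_apply, sY_sY d, h.u0]
  · rw [LinearMap.comp_apply, sY_sY d, h.v0]
  · rw [LinearMap.comp_apply, sY_sY d, h.m0]
  · rw [LinearMap.comp_apply, sY_sY d, h.m3]
  · rw [LinearMap.comp_apply, map_neg, sY_sY d, map_neg, h.m4, neg_zero]

open Classical in
lemma port_out (d : Dat S v u w g A c e0 e3 e4 ω m m' kG kT)
    (L : Lbl S v pl pl' a a' φ2 g A (sY kG kT e0 e3 e4)) (hT : T ⊆ S.erase v)
    (hT3 : 3 ≤ T.card) (hI : IntC g T e0) :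
    Port (FA S v pl pl' a a') φ2 (NA S v pl pl' a a' e0 e3 e4 m m' (g v) kG kT) (S.erase v) T
      pl' a' (sY kG kT e0 e3 e4 e0) (sY kG kT e0 e3 e4 e3) (-sY kG kT e0 e3 e4 e4)
      (fun x y z => ω (sY kG kT e0 e3 e4 x) (sY kG kT e0 e3 e4 y) (sY kG kT e0 e3 e4 z))
      kG (fun p => if p = mkE u w then -mu kG kT e0 e3 e4 m' (g v) else kT) := by
  have hB : ∀ x y, B x (sY kG kT e0 e3 e4 y) = B (sY kG kT e0 e3 e4 x) y := fun x y => by
    have := B_sg_left (DY d).ne' x y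
    unfold sY
    exact this.symm
  have hSm : ∀ {j : ℕ}, j ∈ S.erase v → j ∈ S := fun h => Finset.mem_of_mem_erase h
  have hN3 : ∃ r : ℝ, 0 < r ∧ ∀ x, NA S v pl pl' a a' e0 e3 e4 m m' (g v) kG kT
      (F3 S v pl pl') x = r * (B x (sY kG kT e0 e3 e4 e3) +
        kG * B x (-sY kG kT e0 e3 e4 e4)) :=
    ⟨1, one_pos, fun x => by
      rw [NA3 L, ← n3_sY (kT := kT) d.frame, n3_apply, B_neg_right, hB, hB]; ring⟩
  have hN4 : ∃ mm : Du, EdgeF mm (φ2 (pl' (mkE u w).1)) (φ2 (pl' (mkE u w).2))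
      (sY kG kT e0 e3 e4 e0) (sY kG kT e0 e3 e4 e3) (-sY kG kT e0 e3 e4 e4) ∧
      ∃ r : ℝ, 0 < r ∧ ∀ x, NA S v pl pl' a a' e0 e3 e4 m m' (g v) kG kT
        (F4 S v pl pl' a') x = r * (mm x - B x (sY kG kT e0 e3 e4 e3) +
          (if mkE u w = mkE u w then -mu kG kT e0 e3 e4 m' (g v) else kT) *
            B x (-sY kG kT e0 e3 e4 e4)) := by
    refine ⟨m'.comp (sY kG kT e0 e3 e4), ?_, 1, one_pos, fun x => ?_⟩
    · have h1 : (mkE u w = (u, w)) ∨ (mkE u w = (w, u)) := by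
        rcases lt_or_gt_of_ne d.nb.ne with h | h
        · exact Or.inl (mkE_of_lt h)
        · right; rw [mkE_comm]; exact mkE_of_lt h
      have h2 := edgeF_s d d.edge'
      rcases h1 with h1 | h1
      · rw [h1, L.fp' _ (uS d.nb), L.fp' _ (wS d.nb)]
        exact h2
      · rw [h1, L.fp' _ (uS d.nb), L.fp' _ (wS d.nb)]
        exact ⟨h2.v0, h2.u0, h2.m0, h2.m3, h2.m4⟩
    · rw [NA4 d.nb L, nL_apply, B_neg_right, hB, hB, if_pos rfl, LinearMap.comp_apply]
      ring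
  have hNe : ∀ e ∈ Ed S, v ≠ e.1 → v ≠ e.2 → e ≠ mkE u w →
      ∃ mm : Du, EdgeF mm (φ2 (pl' e.1)) (φ2 (pl' e.2))
      (sY kG kT e0 e3 e4 e0) (sY kG kT e0 e3 e4 e3) (-sY kG kT e0 e3 e4 e4) ∧
      ∃ r : ℝ, 0 < r ∧ ∀ x, NA S v pl pl' a a' e0 e3 e4 m m' (g v) kG kT
        (Fe v pl pl' a a' e) x = r * (mm x - B x (sY kG kT e0 e3 e4 e3) +
          (if e = mkE u w then -mu kG kT e0 e3 e4 m' (g v) else kT) *
            B x (-sY kG kT e0 e3 e4 e4)) := by
    intro e he h1 h2 h3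
    have h0 := ed_mem he
    refine ⟨(m e).comp (sY kG kT e0 e3 e4), ?_, 1, one_pos, fun x => ?_⟩
    · rw [L.fp' _ (Finset.mem_erase.2 ⟨h1.symm, h0.1⟩),
        L.fp' _ (Finset.mem_erase.2 ⟨h2.symm, h0.2⟩)]
      exact edgeF_s d (d.edge e he).1
    · rw [NAe L he, ← nM_sY (kG := kG) d.frame (d.edge e he).1, nM_apply, B_neg_right, hB, hB,
        if_neg h3, LinearMap.comp_apply]
      ring
  have hF32 : F3 S v pl pl' ≠ pF (S.erase v) pl' a' := fun h =>
    a'_F3 L (by rw [h]; exact a_F1)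
  have hF42 : F4 S v pl pl' a' ≠ pF (S.erase v) pl' a' := fun h =>
    p_F2 L (vS d.nb) (by rw [← h]; exact (p_F4 d.nb L (vS d.nb)).2 rfl)
  have hF4m : pl' (mkE u w).1 ∈ F4 S v pl pl' a' ∧ pl' (mkE u w).2 ∈ F4 S v pl pl' a' := by
    have hu := (p'_F4 d.nb L (uS d.nb)).2 (Or.inl rfl)
    have hw := (p'_F4 d.nb L (wS d.nb)).2 (Or.inr rfl)
    rcases lt_or_gt_of_ne d.nb.ne with h | h
    · rw [mkE_of_lt h]; exact ⟨hu, hw⟩
    · rw [mkE_comm, mkE_of_lt h]; exact ⟨hw, hu⟩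
  have hframe : Frame (sY kG kT e0 e3 e4 e0) (sY kG kT e0 e3 e4 e3)
      (-sY kG kT e0 e3 e4 e4) := frame_sg (DY d) d.frame d.lA
  refine ⟨hframe, tri_s d, ⟨fun j hj => ?_, fun j hj => ?_, ?_⟩, hT, hT3, ?_,
    fun i hi j hj h => L.injp' i hi j hj h, ?_, F2_mem, ?_, ?_, ?_, ?_, ?_⟩
  · rw [L.fp' j hj]; exact l_s d (l_g d (hSm hj))
  · rw [L.fp' j hj, inpl_neg]
    unfold InPl
    rw [hB, hB, sY_sY d]
    exact d.cyc.inpl j (hSm hj)
  · intro i hi j hj k hk hij hjk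
    rw [L.fp' i hi, L.fp' j hj, L.fp' k hk, sY_sY d, sY_sY d, sY_sY d]
    exact d.cyc.pos i (hSm hi) j (hSm hj) k (hSm hk) hij hjk
  · obtain ⟨b, hb, hbe⟩ := hI
    have h1 := congrArg (sY kG kT e0 e3 e4) hbe
    rw [map_sum] at h1
    refine ⟨b, hb, h1.trans (Finset.sum_congr rfl fun j hj => ?_)⟩
    dsimp only
    rw [L.fp' j (hT hj), map_smul]
  · rw [Finset.mem_image]
    rintro ⟨j, hj, h⟩
    exact L.ap' j hj h
  · refine ⟨c, d.c0, ?_⟩
    rw [L.fa']
    conv_lhs => rw [d.hA]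
    rw [map_smul, map_add]
  · exact ⟨1, one_pos, fun x => by rw [NA2 d.nb L, n2_apply, B_neg_right, hB]; ring⟩
  · exact ⟨F3 S v pl pl', F3_mem, hF32, Finset.subset_union_right, hN3⟩
  · intro e he
    by_cases hne : e = mkE u w
    · subst hne
      exact ⟨F4 S v pl pl' a', F4_mem, hF42, a'_F4 d.nb, hF4m.1, hF4m.2, hN4⟩
    · have heS : e ∈ Ed S := by
        rcases ed_erase_cases d.nb he with h | h
        · exact absurd h hne
        · exact h
      have h0 := ed_mem he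
      have h1 := (Finset.mem_erase.1 h0.1).1
      have h2 := (Finset.mem_erase.1 h0.2).1
      exact ⟨Fe v pl pl' a a' e, Fe_mem heS, fun h => a_F2 L (by rw [← h]; exact a_Fe), a'_Fe,
        (p'_Fe L heS h0.1).2 (Or.inl rfl), (p'_Fe L heS h0.2).2 (Or.inr rfl),
        hNe e heS h1.symm h2.symm hne⟩
  · intro f hf hf2
    have hprism : ∀ e ∈ Ed S, (v = e.1 ∨ v = e.2) → (∀ k, (k = e.1 ∨ k = e.2) → k ≠ v →
        k = u ∨ k = w) → pF (S.erase v) pl' a' ∩ Fe v pl pl' a a' e ⊆ F4 S v pl pl' a' := by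
      intro e he hv hk x hx
      rw [Finset.mem_inter, mem_pF] at hx
      rcases hx.1 with rfl | ⟨j, hj, rfl⟩
      · exact a'_F4 d.nb
      · rw [p'_F4 d.nb L hj]
        exact hk j ((p'_Fe L he hj).1 hx.2) (Finset.mem_erase.1 hj).1
    have hne4 : ∀ e, F4 S v pl pl' a' ≠ Fe v pl pl' a a' e := fun e h =>
      a_F4 d.nb L (by rw [h]; exact a_Fe)
    rcases FA_cases.1 hf with rfl | rfl | rfl | rfl | ⟨e, he, rfl⟩
    · right; right
      refine ⟨F3 S v pl pl', F3_mem, hF32, fun h => a_F3 L (by rw [h]; exact a_F1), ?_⟩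
      intro x hx
      rw [Finset.mem_inter, mem_pF] at hx
      rcases hx.1 with rfl | ⟨j, hj, rfl⟩
      · exact absurd hx.2 (a'_F1 L)
      · exact absurd hx.2 (p'_F1 L hj)
    · exact absurd rfl hf2
    · exact Or.inl hN3
    · exact Or.inr (Or.inl ⟨mkE u w, nx_ed (nb_nx_uw d.nb), hN4⟩)
    · rcases ed_cases d.nb he with rfl | rfl | ⟨h1, h2, h3, h4⟩
      · right; right
        refine ⟨F4 S v pl pl' a', F4_mem, hF42, hne4 _, hprism _ he
          (mem_edge_iff.2 (Or.inr rfl)) fun k hk hkv => ?_⟩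
        rcases mem_edge_iff.1 hk with h | h
        · exact Or.inl h
        · exact absurd h hkv
      · right; right
        refine ⟨F4 S v pl pl' a', F4_mem, hF42, hne4 _, hprism _ he
          (mem_edge_iff.2 (Or.inl rfl)) fun k hk hkv => ?_⟩
        rcases mem_edge_iff.1 hk with h | h
        · exact absurd h hkv
        · exact Or.inr h
      · exact Or.inr (Or.inl ⟨e, h3, hNe e he h1 h2 h4⟩)

/-- The parameters. -/
lemma params {kG δ : ℝ} (hδ : 0 < δ) : ∃ kT : ℝ, 0 < kT ∧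
    0 < 1 - 2 * kG * kT - kT ^ 2 ∧
    δ * (1 - 2 * kG * kT - kT ^ 2) < 2 * kT * (kG + kT) := by
  set D : ℝ := 1 / (2 + δ) with hD
  have hD0 : 0 < D := by positivity
  have hD1 : D < 1 := by rw [hD, div_lt_one (by linarith)]; linarith
  have hDδ : D * (1 + δ) < 1 := by
    rw [hD, one_div_mul_eq_div, div_lt_one (by linarith)]; linarith
  refine ⟨Real.sqrt (kG ^ 2 + 1 - D) - kG, ?_, ?_, ?_⟩
  · rw [sub_pos]
    apply Real.lt_sqrt_of_sq_lt
    linarith
  · have h1 := Real.sq_sqrt (show (0 : ℝ) ≤ kG ^ 2 + 1 - D by nlinarith [sq_nonneg kG])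
    nlinarith
  · have h1 := Real.sq_sqrt (show (0 : ℝ) ≤ kG ^ 2 + 1 - D by nlinarith [sq_nonneg kG])
    have h2 : kG < Real.sqrt (kG ^ 2 + 1 - D) := by
      apply Real.lt_sqrt_of_sq_lt
      linarith
    set r := Real.sqrt (kG ^ 2 + 1 - D) with hr
    have e1 : 1 - 2 * kG * (r - kG) - (r - kG) ^ 2 = D := by nlinarith
    have e2 : 2 * (r - kG) * (kG + (r - kG)) = (1 - D) + (r - kG) ^ 2 := by nlinarith
    rw [e1, e2]
    nlinarith [sq_nonneg (r - kG)]

end Po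

end GA

open GA in
/-- Item G5: the deletion gadget. -/
theorem claimA (hP : ClaimPolygon) : ClaimA := by
  intro ι _ S T v pl pl' a a' φ e0 e3 e4 ω κG hF hTri hC hv hT hT3 hI hA hpl hpl' ha ha' hdis
  obtain ⟨c, hc, hAe⟩ := hA
  have hTS : T ⊆ S := hT.trans (Finset.erase_subset _ _)
  have hcard : 3 ≤ (S.erase v).card := hT3.trans (Finset.card_le_card hT)
  obtain ⟨u, w, hn⟩ := exists_nb hv hcard
  obtain ⟨m, hm, hpc⟩ := hP e0 e3 e4 ω (fun j => φ (pl j)) S T hF hTri hC hTS hT3 hI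
  have hC' : Cyc (fun j => φ (pl j)) (S.erase v) ω e3 e4 :=
    ⟨fun j hj => hC.light j (Finset.mem_of_mem_erase hj),
      fun j hj => hC.inpl j (Finset.mem_of_mem_erase hj),
      fun i hi j hj k hk => hC.pos i (Finset.mem_of_mem_erase hi) j
        (Finset.mem_of_mem_erase hj) k (Finset.mem_of_mem_erase hk)⟩
  obtain ⟨m2, hm2, -⟩ := hP e0 e3 e4 ω (fun j => φ (pl j)) (S.erase v) T hF hTri hC' hT hT3 hI
  have huw := hm2 _ (nx_ed (nb_nx_uw hn))
  set m' := m2 (mkE u w) with hm'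
  -- the edge functional of the new edge
  have hedge' : EdgeF m' (φ (pl u)) (φ (pl w)) e0 e3 e4 := by
    rcases lt_or_gt_of_ne hn.ne with h | h
    · have := huw.1
      rw [mkE_of_lt h] at this
      exact this
    · have := huw.1
      rw [mkE_comm u w, mkE_of_lt h] at this
      exact ⟨this.v0, this.u0, this.m0, this.m3, this.m4⟩
  have hpos' : ∀ k ∈ S, k ≠ u → k ≠ w → k ≠ v → 0 < m' (φ (pl k)) := by
    intro k hk hku hkw hkv
    refine huw.2 k (Finset.mem_erase.2 ⟨hkv, hk⟩) ?_ ?_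
    · intro h
      rcases mem_edge_iff.1 (Or.inl h : k = (mkE u w).1 ∨ k = (mkE u w).2) with h | h
      · exact hku h
      · exact hkw h
    · intro h
      rcases mem_edge_iff.1 (Or.inr h : k = (mkE u w).1 ∨ k = (mkE u w).2) with h | h
      · exact hku h
      · exact hkw h
  have hgv := light_neg hF.n0 hF.fut (hC.light v hv)
  -- `a` is a light vector
  have hlA : Light (φ a) := by
    rw [hAe]
    refine ⟨?_, ?_⟩
    · rw [B_smul, B_smul_right, B_add, B_add_right, B_add_right, hF.n0, hF.n3, hF.o03,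
        B_comm e3 e0, hF.o03]
      ring
    · have h1 := hF.fut
      have h2 := hF.n0
      have h3 := hF.n3
      have h4 := hF.o03
      have h5 : 0 < (e0 + e3) 4 := by
        -- light vector with negative product with `e0`
        by_contra hcon
        push Not at hcon
        have hl0 : B (e0 + e3) (e0 + e3) = 0 := by
          rw [B_add, B_add_right, B_add_right, h2, h3, h4, B_comm e3 e0, h4]; ring
        have hb : B (e0 + e3) e0 = -1 := by rw [B_add, h2, B_comm e3 e0, h4]; ring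
        rcases hcon.lt_or_eq with h6 | h6
        · have hl : Light (-(e0 + e3)) := by
            refine ⟨?_, by rw [Pi.neg_apply]; linarith⟩
            rw [B_neg_right, B_comm, B_neg_right, hl0]; ring
          have h7 := light_neg h2 h1 hl
          rw [B_comm, B_neg_right, B_comm, hb] at h7
          linarith
        · have h8 : ∀ i : Fin 4, (e0 + e3) i.castSucc = 0 := by
            unfold B at hl0
            rw [h6] at hl0
            have q : ∀ x : ℝ, 0 ≤ x * x := fun x => mul_self_nonneg x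
            intro i
            have q0 := q ((e0 + e3) 0)
            have q1 := q ((e0 + e3) 1)
            have q2 := q ((e0 + e3) 2)
            have q3 := q ((e0 + e3) 3)
            fin_cases i
            · exact mul_self_eq_zero.1 (show (e0 + e3) 0 * (e0 + e3) 0 = 0 by linarith)
            · exact mul_self_eq_zero.1 (show (e0 + e3) 1 * (e0 + e3) 1 = 0 by linarith)
            · exact mul_self_eq_zero.1 (show (e0 + e3) 2 * (e0 + e3) 2 = 0 by linarith)
            · exact mul_self_eq_zero.1 (show (e0 + e3) 3 * (e0 + e3) 3 = 0 by linarith)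
          have h9 : e0 + e3 = 0 := by
            funext i
            refine Fin.lastCases ?_ (fun j => ?_) i
            · exact h6
            · exact h8 j
          rw [h9] at hb
          unfold B at hb
          simp at hb
      rw [Pi.smul_apply, smul_eq_mul]
      exact mul_pos hc h5
  -- parameters
  have hkG : (1 : ℝ) < 2 + |κG| := by have := abs_nonneg κG; linarith
  -- `m' (g v) < 0` : preliminary version
  have hneg : m' (φ (pl v)) < 0 := by
    obtain ⟨k, hk, hku, hkv, hkw⟩ := hn.ex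
    have h1 := c3_pos hTri hC hn.uv.1 hv hn.vw.2.1 hn.c3
    have h2 := c3_pos hTri hC hn.uv.1 hn.vw.2.1 hk (hn.uw k hk hku hkv hkw)
    have h3 := hpos' k hk hku hkw hkv
    have h4 := hTri.cramer (φ (pl k)) (φ (pl u)) (φ (pl v)) (φ (pl w)) (hC.inpl k hk)
      (hC.inpl u hn.uv.1) (hC.inpl v hv) (hC.inpl w hn.vw.2.1)
    have h5 := congrArg m' h4
    simp only [map_add, map_smul, smul_eq_mul, hedge'.u0, hedge'.v0, mul_zero, add_zero,
      zero_add] at h5
    have h6 : ω (φ (pl u)) (φ (pl k)) (φ (pl w)) = -ω (φ (pl u)) (φ (pl w)) (φ (pl k)) := by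
      rw [hTri.rot (φ (pl u)) (φ (pl k)) (φ (pl w)), hTri.swap,
        hTri.rot (φ (pl u)) (φ (pl w)) (φ (pl k))]
    rw [h6] at h5
    by_contra hc
    push Not at hc
    nlinarith [mul_pos h1 h3, mul_nonneg h2.le hc]
  obtain ⟨kT, hkT, hD, hsm⟩ := params (kG := 2 + |κG|)
    (δ := -m' (φ (pl v)) / (-B (φ (pl v)) e0))
    (div_pos (neg_pos.2 hneg) (neg_pos.2 hgv))
  have hsmall : (-m' (φ (pl v))) * (1 - 2 * (2 + |κG|) * kT - kT ^ 2) <
      2 * kT * (2 + |κG| + kT) * (-B (φ (pl v)) e0) := by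
    have h1 : 0 < -B (φ (pl v)) e0 := neg_pos.2 hgv
    have h2 := mul_lt_mul_of_pos_right hsm h1
    have e : -m' (φ (pl v)) / -B (φ (pl v)) e0 * (1 - 2 * (2 + |κG|) * kT - kT ^ 2) *
        -B (φ (pl v)) e0 = (-m' (φ (pl v))) * (1 - 2 * (2 + |κG|) * kT - kT ^ 2) := by
      rw [mul_assoc, mul_comm _ (-B (φ (pl v)) e0), ← mul_assoc, div_mul_cancel₀ _ h1.ne']
    rwa [e] at h2
  have d : Dat S v u w (fun j => φ (pl j)) (φ a) c e0 e3 e4 ω m m' (2 + |κG|) kT :=
    ⟨hF, hTri, hC, hn, hc, hAe, hlA, hm, hpc, hedge', hpos', hkG, hkT, hD, hsmall⟩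
  set σ := sY (2 + |κG|) kT e0 e3 e4 with hσ
  -- the labelling
  have hd1 : ∀ x ∈ pF S pl a, x ∉ pF (S.erase v) pl' a' := fun x hx hx' =>
    Finset.disjoint_left.1 hdis hx hx'
  classical
  set φ2 : ι → E := fun x => if x ∈ pF S pl a then φ x else if x = a' then σ (φ a) else
    σ (φ (pl (Function.invFunOn pl' (S.erase v : Finset ℕ) x))) with hφ2
  have L : Lbl S v pl pl' a a' φ2 (fun j => φ (pl j)) (φ a) σ := by
    have ha'1 : a' ∉ pF S pl a := fun h => hd1 _ h (mem_pF.2 (Or.inl rfl))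
    have hp'1 : ∀ j ∈ S.erase v, pl' j ∉ pF S pl a := fun j hj h =>
      hd1 _ h (mem_pF.2 (Or.inr ⟨j, hj, rfl⟩))
    have hp'a' : ∀ j ∈ S.erase v, pl' j ≠ a' := fun j hj h =>
      ha' (by rw [← h]; exact Finset.mem_image_of_mem _ hj)
    refine ⟨fun i hi j hj h => hpl hi hj h, fun i hi j hj h => hpl' hi hj h,
      fun j hj h => ha (by rw [← h]; exact Finset.mem_image_of_mem _ hj), hp'a', ?_, ?_, ?_,
      ?_, ?_, ?_, ?_, ?_⟩
    · intro h; exact ha'1 (by rw [← h]; exact a_F1)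
    · intro j hj h; exact hp'1 j hj (by rw [h]; exact a_F1)
    · intro j hj h; exact ha'1 (by rw [← h]; exact p_F1 hj)
    · intro i hi j hj h; exact hp'1 j hj (by rw [← h]; exact p_F1 hi)
    · rw [hφ2]; dsimp only; rw [if_pos a_F1]
    · intro j hj; rw [hφ2]; dsimp only; rw [if_pos (p_F1 hj)]
    · rw [hφ2]; dsimp only; rw [if_neg ha'1, if_pos rfl]
    · intro j hj
      rw [hφ2]; dsimp only
      rw [if_neg (hp'1 j hj), if_neg (hp'a' j hj)]
      have h1 : Function.invFunOn pl' (S.erase v : Finset ℕ) (pl' j) = j := by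
        have hex : ∃ i ∈ ((S.erase v : Finset ℕ) : Set ℕ), pl' i = pl' j := ⟨j, hj, rfl⟩
        have h2 := Function.invFunOn_mem hex
        have h3 := Function.invFunOn_eq hex
        exact hpl' h2 hj h3
      rw [h1]
  refine ⟨φ2, NA S v pl pl' a a' e0 e3 e4 m m' (φ (pl v)) (2 + |κG|) kT, σ,
    fun x y z => ω (σ x) (σ y) (σ z), 2 + |κG|, 2 + |κG|, fun _ => kT,
    fun p => if p = mkE u w then -mu (2 + |κG|) kT e0 e3 e4 m' (φ (pl v)) else kT,
    real_A d L, iso_sg (DY d), ?_, fun j hj => L.fp' j hj, port_in d L hT hT3 hI, ?_,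
    fun p _ => hkT, port_out d L hT hT3 hI, hkG, ?_⟩
  · intro x hx
    rw [hφ2]; dsimp only; rw [if_pos hx]
  · have := neg_abs_le κG
    linarith
  · intro p _
    dsimp only
    split_ifs
    · have := mu_neg d
      linarith
    · exact hkT

end Pool.Agent.Work.MP_5b14b0_lc
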