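import Pool.Agent.Work.MP_5b14b0_lc.GadKReal

/-!
# The branching gadget: the ports
-/

set_option autoImplicit false

namespace Pool.Agent.Work.MP_5b14b0_lc

open Finset

namespace GK

theorem B_negr (x y : E) : B x (-y) = -B x y := by
  simp only [B, Pi.neg_apply]
  ring

theorem B_negl (x y : E) : B (-x) y = -B x y := by
  simp only [B, Pi.neg_apply]
  ring

theorem B_sym (x y : E) : B x y = B y x := by
  simp only [B]
  ring

theorem frame_neg {e0 e3 e4 : E} (h : Frame e0 e3 e4) : Frame e0 e3 (-e4) :=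
  ⟨h.n0, h.n3, by rw [B_negr, B_negl, neg_neg, h.n4], h.o03, by rw [B_negr, h.o04, neg_zero],
    by rw [B_negr, h.o34, neg_zero], h.fut⟩

theorem inPl_neg {e3 e4 x : E} : InPl e3 (-e4) x ↔ InPl e3 e4 x := by
  simp only [InPl, B_negr, neg_eq_zero]

theorem inPl_swap {e3 e4 x : E} : InPl e4 (-e3) x ↔ InPl e3 e4 x := by
  simp only [InPl, B_negr, neg_eq_zero]
  exact and_comm

theorem tri_neg_z {ω : E → E → E → ℝ} {e3 e4 : E} (h : Tri ω e3 e4) (y z : E) :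
    ω (-e4) y z = 0 := by
  have := h.smul (-1) e4 y z
  rw [neg_one_smul, h.z4, mul_zero] at this
  exact this

theorem tri_neg_z3 {ω : E → E → E → ℝ} {e3 e4 : E} (h : Tri ω e3 e4) (y z : E) :
    ω (-e3) y z = 0 := by
  have := h.smul (-1) e3 y z
  rw [neg_one_smul, h.z3, mul_zero] at this
  exact this

theorem tri_neg {ω : E → E → E → ℝ} {e3 e4 : E} (h : Tri ω e3 e4) : Tri ω e3 (-e4) where
  add := h.add
  smul := h.smul
  rot := h.rot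
  swap := h.swap
  z3 := h.z3
  z4 := tri_neg_z h
  cramer x y z w hx hy hz hw :=
    h.cramer x y z w (inPl_neg.1 hx) (inPl_neg.1 hy) (inPl_neg.1 hz) (inPl_neg.1 hw)

theorem tri_swap {ω : E → E → E → ℝ} {e3 e4 : E} (h : Tri ω e3 e4) : Tri ω e4 (-e3) where
  add := h.add
  smul := h.smul
  rot := h.rot
  swap := h.swap
  z3 := h.z4
  z4 := tri_neg_z3 h
  cramer x y z w hx hy hz hw :=
    h.cramer x y z w (inPl_swap.1 hx) (inPl_swap.1 hy) (inPl_swap.1 hz) (inPl_swap.1 hw)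

theorem cyc_neg {g : ℕ → E} {S : Finset ℕ} {ω : E → E → E → ℝ} {e3 e4 : E}
    (h : Cyc g S ω e3 e4) : Cyc g S ω e3 (-e4) :=
  ⟨h.light, fun j hj => inPl_neg.2 (h.inpl j hj), h.pos⟩

theorem cyc_swap {g : ℕ → E} {S : Finset ℕ} {ω : E → E → E → ℝ} {e3 e4 : E}
    (h : Cyc g S ω e3 e4) : Cyc g S ω e4 (-e3) :=
  ⟨h.light, fun j hj => inPl_swap.2 (h.inpl j hj), h.pos⟩

theorem ed_nonempty {S : Finset ℕ} (hS : 3 ≤ S.card) : ∃ e, e ∈ Ed S := by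
  have hne : S.Nonempty := Finset.card_pos.1 (by omega)
  refine ⟨(S.min' hne, S.max' hne), ?_⟩
  simp only [Ed, mem_filter, mem_product]
  refine ⟨⟨Finset.min'_mem _ _, Finset.max'_mem _ _⟩, ?_, Or.inr fun k hk =>
    ⟨Finset.min'_le _ _ hk, Finset.le_max' _ _ hk⟩⟩
  exact Finset.min'_lt_max'_of_card S (by omega)

section

variable {ι : Type} [DecidableEq ι] {S T : Finset ℕ} {pl pl' : ℕ → ι} {a a' b : ι} {φ2 : ι → E}
  {X3 X4 : Du} {sg : E →ₗ[ℝ] E} {m : ℕ × ℕ → Du} {kG kT Nn c0 : ℝ} {e0 e3 e4 f0 : E}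
  {ω : E → E → E → ℝ}

theorem pF_ne (L : Labs S pl pl' a a' b) (hS : 3 ≤ S.card) : pF S pl b ≠ pF S pl' b := by
  obtain ⟨i, hi⟩ : S.Nonempty := Finset.card_pos.1 (by omega)
  intro h
  exact (mem_pl L hi).2.2.2.1 (h ▸ (mem_pl L hi).2.2.1)

theorem port1 (L : Labs S pl pl' a a' b) (hS : 3 ≤ S.card)
    (hfr : Frame e0 e3 e4) (htri : Tri ω e3 e4) (hcyc : Cyc (fun j => φ2 (pl j)) S ω e3 e4)
    (hTS : T ⊆ S) (hT3 : 3 ≤ T.card) (hint : IntC (fun j => φ2 (pl j)) T e0)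
    (hap : ∃ c : ℝ, 0 < c ∧ φ2 a = c • (e0 + e3))
    (hX3 : ∀ x, X3 x = B x e3) (hX4 : ∀ x, X4 x = B x e4)
    (hm : ∀ p ∈ Ed S, EdgeF (m p) (φ2 (pl p.1)) (φ2 (pl p.2)) e0 e3 e4)
    (N2 : Finset ι → Du)
    (hN2 : ∀ F ∈ FK S pl pl' a a' b, Spec S pl pl' a a' b φ2 X3 X4 sg m kG kT Nn F (N2 F)) :
    Port (FK S pl pl' a a' b) φ2 N2 S T pl a e0 e3 (-e4) ω 0 (fun _ => kT) := by
  have hne : S.Nonempty := Finset.card_pos.1 (by omega)
  obtain ⟨a1, a2, a3, a4, a5, a6⟩ := mem_a L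
  obtain ⟨b1, b2, b3, b4, b5, b6⟩ := mem_a' L
  obtain ⟨c1, c2, c3, c4, c5, c6⟩ := mem_b L
  have F1 : pF S pl a ∈ FK S pl pl' a a' b := mem_FK.2 (Or.inl rfl)
  have F3 : pF S pl b ∈ FK S pl pl' a a' b := mem_FK.2 (Or.inr (Or.inr (Or.inl rfl)))
  have F5 : ∀ e ∈ Ed S, prS pl pl' a a' e ∈ FK S pl pl' a a' b := fun e he =>
    mem_FK.2 (Or.inr (Or.inr (Or.inr (Or.inr (Or.inl ⟨e, he, rfl⟩)))))
  have un := fun (F : Finset ι) (hF : F ∈ FK S pl pl' a a' b) (n : Du)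
      (h : Spec S pl pl' a a' b φ2 X3 X4 sg m kG kT Nn F n) => spec_unique L hne (hN2 F hF) h
  have u1 := un _ F1 X4 (Or.inl ⟨rfl, rfl⟩)
  have u3 := un _ F3 X3 (Or.inr (Or.inr (Or.inl ⟨rfl, rfl⟩)))
  have u5 : ∀ e ∈ Ed S, N2 (prS pl pl' a a' e) = npr X3 X4 m kT e := fun e he =>
    un _ (F5 e he) _ (Or.inr (Or.inr (Or.inr (Or.inr (Or.inl ⟨e, he, rfl, rfl⟩)))))
  have hm' : ∀ p ∈ Ed S, EdgeF (m p) (φ2 (pl p.1)) (φ2 (pl p.2)) e0 e3 (-e4) := fun p hp => by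
    have h := hm p hp
    exact ⟨h.u0, h.v0, h.m0, h.m3, by rw [map_neg, h.m4, neg_zero]⟩
  have h13 : pF S pl b ≠ pF S pl a := fun h => a3 (h ▸ a1)
  refine ⟨frame_neg hfr, tri_neg htri, cyc_neg hcyc, hTS, hT3, hint,
    fun i hi j hj h => L.hinj i hi j hj h, ?_, F1, hap, ⟨1, one_pos, ?_⟩,
    ⟨pF S pl b, F3, h13, Finset.subset_insert _ _, 1, one_pos, ?_⟩, ?_, ?_⟩
  · rw [mem_image]
    rintro ⟨j, hj, h⟩
    exact L.l1 j hj h
  · intro x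
    rw [u1, hX4, B_negr]
    ring
  · intro x
    rw [u3, hX3]
    ring
  · intro p hp
    obtain ⟨h1, h2, -⟩ := ed_mem hp
    refine ⟨prS pl pl' a a' p, F5 p hp, fun h => b1 (h ▸ b5 p hp), a5 p hp,
      ((mem_pl L h1).2.2.2.2.1 p hp).2 (Or.inl rfl), ((mem_pl L h2).2.2.2.2.1 p hp).2 (Or.inr rfl),
      m p, hm' p hp, 1, one_pos, fun x => ?_⟩
    rw [u5 p hp]
    simp only [npr, LinearMap.sub_apply, LinearMap.smul_apply, smul_eq_mul, hX3, hX4, B_negr]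
    ring
  · intro f hf hfne
    rcases mem_FK.1 hf with rfl | rfl | rfl | rfl | ⟨e, he, rfl⟩ | ⟨e, he, rfl⟩
    · exact absurd rfl hfne
    · refine Or.inr (Or.inr ⟨pF S pl b, F3, h13, fun h => b3 (h ▸ b2), ?_⟩)
      intro v hv
      rw [mem_inter] at hv
      exfalso
      rcases mem_pF'.1 hv.1 with h | ⟨i, hi, h⟩
      · exact a2 (h ▸ hv.2)
      · exact (mem_pl L hi).2.1 (h ▸ hv.2)
    · left
      refine ⟨1, one_pos, fun x => ?_⟩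
      rw [u3, hX3]
      ring
    · refine Or.inr (Or.inr ⟨pF S pl b, F3, h13, pF_ne L hS, ?_⟩)
      intro v hv
      rw [mem_inter] at hv
      exfalso
      rcases mem_pF'.1 hv.1 with h | ⟨i, hi, h⟩
      · exact a4 (h ▸ hv.2)
      · exact (mem_pl L hi).2.2.2.1 (h ▸ hv.2)
    · refine Or.inr (Or.inl ⟨e, he, m e, hm' e he, 1, one_pos, fun x => ?_⟩)
      rw [u5 e he]
      simp only [npr, LinearMap.sub_apply, LinearMap.smul_apply, smul_eq_mul, hX3, hX4, B_negr]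
      ring
    · obtain ⟨k1, k2, -⟩ := ed_mem he
      refine Or.inr (Or.inr ⟨pF S pl b, F3, h13, fun h => (mem_pl' L k1).2.2.1
        (h ▸ ((mem_pl' L k1).2.2.2.2.2 e he).2 (Or.inl rfl)), ?_⟩)
      intro v hv
      rw [mem_inter] at hv
      rcases mem_pF'.1 hv.1 with h | ⟨i, hi, h⟩
      · exact absurd (h ▸ hv.2) (a6 e he)
      · exact mem_pF'.2 (Or.inr ⟨i, hi, h⟩)

theorem port2 (L : Labs S pl pl' a a' b) (hS : 3 ≤ S.card) (hG : 0 < kG) (hN : 1 < Nn)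
    (hfr : Frame (sg e0) (sg e3) (-sg e4))
    (htri : Tri (fun x y z => ω (sg x) (sg y) (sg z)) (sg e3) (-sg e4))
    (hcyc : Cyc (fun j => φ2 (pl' j)) S (fun x y z => ω (sg x) (sg y) (sg z)) (sg e3) (-sg e4))
    (hTS : T ⊆ S) (hT3 : 3 ≤ T.card) (hint : IntC (fun j => φ2 (pl' j)) T (sg e0))
    (hap : ∃ c : ℝ, 0 < c ∧ φ2 a' = c • (sg e0 + sg e3))
    (hX3 : ∀ x, X3 (sg x) = B x (sg e3)) (hX4 : ∀ x, X4 (sg x) = B x (sg e4))
    (hU : ∀ x, uf X3 X4 kG x = X3 (sg x) - kG * X4 (sg x))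
    (hM : ∀ e ∈ Ed S, ∀ x, npr X3 X4 m kT e x = m e (sg x) - X3 (sg x) - kT * X4 (sg x))
    (hm : ∀ p ∈ Ed S,
      EdgeF ((m p).comp sg) (φ2 (pl' p.1)) (φ2 (pl' p.2)) (sg e0) (sg e3) (-sg e4))
    (N2 : Finset ι → Du)
    (hN2 : ∀ F ∈ FK S pl pl' a a' b, Spec S pl pl' a a' b φ2 X3 X4 sg m kG kT Nn F (N2 F)) :
    Port (FK S pl pl' a a' b) φ2 N2 S T pl' a' (sg e0) (sg e3) (-sg e4)
      (fun x y z => ω (sg x) (sg y) (sg z)) (kG * (1 - 1 / Nn)) (fun _ => kT) := by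
  have hne : S.Nonempty := Finset.card_pos.1 (by omega)
  have hN0 : 0 < Nn := by linarith
  obtain ⟨a1, a2, a3, a4, a5, a6⟩ := mem_a L
  obtain ⟨b1, b2, b3, b4, b5, b6⟩ := mem_a' L
  obtain ⟨c1, c2, c3, c4, c5, c6⟩ := mem_b L
  have F2 : pF S pl' a' ∈ FK S pl pl' a a' b := mem_FK.2 (Or.inr (Or.inl rfl))
  have F4 : pF S pl' b ∈ FK S pl pl' a a' b := mem_FK.2 (Or.inr (Or.inr (Or.inr (Or.inl rfl))))
  have F5 : ∀ e ∈ Ed S, prS pl pl' a a' e ∈ FK S pl pl' a a' b := fun e he =>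
    mem_FK.2 (Or.inr (Or.inr (Or.inr (Or.inr (Or.inl ⟨e, he, rfl⟩)))))
  have un := fun (F : Finset ι) (hF : F ∈ FK S pl pl' a a' b) (n : Du)
      (h : Spec S pl pl' a a' b φ2 X3 X4 sg m kG kT Nn F n) => spec_unique L hne (hN2 F hF) h
  have u2 := un _ F2 (X4.comp sg) (Or.inr (Or.inl ⟨rfl, rfl⟩))
  have u4 := un _ F4 (nb' X3 X4 sg kG Nn) (Or.inr (Or.inr (Or.inr (Or.inl ⟨rfl, rfl⟩))))
  have u5 : ∀ e ∈ Ed S, N2 (prS pl pl' a a' e) = npr X3 X4 m kT e := fun e he =>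
    un _ (F5 e he) _ (Or.inr (Or.inr (Or.inr (Or.inr (Or.inl ⟨e, he, rfl, rfl⟩)))))
  have hs : ∀ x, nb' X3 X4 sg kG Nn x =
      Nn / kG * (B x (sg e3) + kG * (1 - 1 / Nn) * B x (-sg e4)) := by
    intro x
    simp only [nb', LinearMap.add_apply, LinearMap.smul_apply, LinearMap.comp_apply, smul_eq_mul,
      hU, hX3, hX4, B_negr]
    field_simp
    ring
  have h24 : pF S pl' b ≠ pF S pl' a' := fun h => b4 (h ▸ b2)
  refine ⟨hfr, htri, hcyc, hTS, hT3, hint, fun i hi j hj h => L.hinj' i hi j hj h, ?_, F2, hap,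
    ⟨1, one_pos, ?_⟩, ⟨pF S pl' b, F4, h24, Finset.subset_insert _ _, Nn / kG, by positivity, ?_⟩,
    ?_, ?_⟩
  · rw [mem_image]
    rintro ⟨j, hj, h⟩
    exact L.l2 j hj h
  · intro x
    rw [u2, LinearMap.comp_apply, hX4, B_negr]
    ring
  · intro x
    rw [u4, hs]
  · intro p hp
    obtain ⟨h1, h2, -⟩ := ed_mem hp
    refine ⟨prS pl pl' a a' p, F5 p hp, fun h => a2 (h ▸ a5 p hp), b5 p hp,
      ((mem_pl' L h1).2.2.2.2.1 p hp).2 (Or.inl rfl),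
      ((mem_pl' L h2).2.2.2.2.1 p hp).2 (Or.inr rfl), (m p).comp sg, hm p hp, 1, one_pos,
      fun x => ?_⟩
    rw [u5 p hp, hM p hp, LinearMap.comp_apply, hX3, hX4, B_negr]
    ring
  · intro f hf hfne
    rcases mem_FK.1 hf with rfl | rfl | rfl | rfl | ⟨e, he, rfl⟩ | ⟨e, he, rfl⟩
    · refine Or.inr (Or.inr ⟨pF S pl' b, F4, h24, fun h => a4 (h ▸ a1), ?_⟩)
      intro v hv
      rw [mem_inter] at hv
      exfalso
      rcases mem_pF'.1 hv.2 with h | ⟨i, hi, h⟩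
      · exact a2 (h ▸ hv.1)
      · exact (mem_pl L hi).2.1 (h ▸ hv.1)
    · exact absurd rfl hfne
    · refine Or.inr (Or.inr ⟨pF S pl' b, F4, h24, (pF_ne L hS).symm, ?_⟩)
      intro v hv
      rw [mem_inter] at hv
      exfalso
      rcases mem_pF'.1 hv.2 with h | ⟨i, hi, h⟩
      · exact c2 (h ▸ hv.1)
      · exact (mem_pl L hi).2.1 (h ▸ hv.1)
    · left
      refine ⟨Nn / kG, by positivity, fun x => ?_⟩
      rw [u4, hs]
    · refine Or.inr (Or.inl ⟨e, he, (m e).comp sg, hm e he, 1, one_pos, fun x => ?_⟩)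
      rw [u5 e he, hM e he, LinearMap.comp_apply, hX3, hX4, B_negr]
      ring
    · obtain ⟨k1, k2, -⟩ := ed_mem he
      refine Or.inr (Or.inr ⟨pF S pl' b, F4, h24, fun h => (mem_pl L k1).2.2.2.1
        (h ▸ ((mem_pl L k1).2.2.2.2.2 e he).2 (Or.inl rfl)), ?_⟩)
      intro v hv
      rw [mem_inter] at hv
      rcases mem_pF'.1 hv.1 with h | ⟨i, hi, h⟩
      · exact absurd (h ▸ hv.2) (b6 e he)
      · exact mem_pF'.2 (Or.inr ⟨i, hi, h⟩)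

theorem port3 (L : Labs S pl pl' a a' b) (hS : 3 ≤ S.card) (hG : 0 < kG) (hT : 0 < kT)
    (hfr : Frame f0 e4 (-e3)) (htri : Tri ω e3 e4) (hcyc : Cyc (fun j => φ2 (pl j)) S ω e3 e4)
    (hTS : T ⊆ S) (hT3 : 3 ≤ T.card) (hint : IntC (fun j => φ2 (pl j)) T f0)
    (hap : φ2 b = f0 + e4)
    (hX3 : ∀ x, X3 x = B x e3) (hX4 : ∀ x, X4 x = B x e4)
    (hm : ∀ p ∈ Ed S, EdgeF (m p) (φ2 (pl p.1)) (φ2 (pl p.2)) e0 e3 e4)
    (hb1 : ∀ p ∈ Ed S, kT < m p f0) (hb2 : ∀ p ∈ Ed S, m p f0 ≤ kG)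
    (N2 : Finset ι → Du)
    (hN2 : ∀ F ∈ FK S pl pl' a a' b, Spec S pl pl' a a' b φ2 X3 X4 sg m kG kT Nn F (N2 F)) :
    Port (FK S pl pl' a a' b) φ2 N2 S T pl b f0 e4 (-e3) ω 0
      (fun p => (1 - (m p f0 - kT) / kG) / m p f0) ∧
    ∀ p ∈ Ed S, 0 < (1 - (m p f0 - kT) / kG) / m p f0 := by
  have hne : S.Nonempty := Finset.card_pos.1 (by omega)
  obtain ⟨a1, a2, a3, a4, a5, a6⟩ := mem_a L
  obtain ⟨b1, b2, b3, b4, b5, b6⟩ := mem_a' L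
  obtain ⟨c1, c2, c3, c4, c5, c6⟩ := mem_b L
  have F1 : pF S pl a ∈ FK S pl pl' a a' b := mem_FK.2 (Or.inl rfl)
  have F3 : pF S pl b ∈ FK S pl pl' a a' b := mem_FK.2 (Or.inr (Or.inr (Or.inl rfl)))
  have F6 : ∀ e ∈ Ed S, kqS pl pl' b e ∈ FK S pl pl' a a' b := fun e he =>
    mem_FK.2 (Or.inr (Or.inr (Or.inr (Or.inr (Or.inr ⟨e, he, rfl⟩)))))
  have un := fun (F : Finset ι) (hF : F ∈ FK S pl pl' a a' b) (n : Du)
      (h : Spec S pl pl' a a' b φ2 X3 X4 sg m kG kT Nn F n) => spec_unique L hne (hN2 F hF) h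
  have u1 := un _ F1 X4 (Or.inl ⟨rfl, rfl⟩)
  have u3 := un _ F3 X3 (Or.inr (Or.inr (Or.inl ⟨rfl, rfl⟩)))
  have u6 : ∀ e ∈ Ed S, N2 (kqS pl pl' b e) = nkq X3 X4 m kG kT (φ2 b) e := fun e he =>
    un _ (F6 e he) _ (Or.inr (Or.inr (Or.inr (Or.inr (Or.inr ⟨e, he, rfl, rfl⟩)))))
  have hmb : ∀ p ∈ Ed S, m p (φ2 b) = m p f0 := fun p hp => by
    rw [hap, map_add, (hm p hp).m4, add_zero]
  have hpos : ∀ p ∈ Ed S, 0 < m p f0 := fun p hp => hT.trans (hb1 p hp)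
  have hm' : ∀ p ∈ Ed S, EdgeF ((m p f0)⁻¹ • m p) (φ2 (pl p.1)) (φ2 (pl p.2)) f0 e4 (-e3) :=
    fun p hp => by
      have h := hm p hp
      have h0 := (hpos p hp).ne'
      refine ⟨?_, ?_, ?_, ?_, ?_⟩ <;> rw [LinearMap.smul_apply, smul_eq_mul]
      · rw [h.u0, mul_zero]
      · rw [h.v0, mul_zero]
      · exact inv_mul_cancel₀ h0
      · rw [h.m4, mul_zero]
      · rw [map_neg, h.m3, neg_zero, mul_zero]
  have hval : ∀ p ∈ Ed S, ∀ x, nkq X3 X4 m kG kT (φ2 b) p x =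
      m p f0 * (((m p f0)⁻¹ • m p) x - B x e4 +
        (1 - (m p f0 - kT) / kG) / m p f0 * B x (-e3)) := by
    intro p hp x
    have h0 := (hpos p hp).ne'
    simp only [nkq, npr, uf, LinearMap.add_apply, LinearMap.sub_apply, LinearMap.smul_apply,
      smul_eq_mul, hX3, hX4, hmb p hp, B_negr]
    field_simp
    ring
  have h31 : pF S pl a ≠ pF S pl b := fun h => a3 (h ▸ a1)
  refine ⟨⟨hfr, tri_swap htri, cyc_swap hcyc, hTS, hT3, hint,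
    fun i hi j hj h => L.hinj i hi j hj h, ?_, F3, ⟨1, one_pos, by rw [hap, one_smul]⟩,
    ⟨1, one_pos, ?_⟩,
    ⟨pF S pl a, F1, h31, Finset.subset_insert _ _, 1, one_pos, ?_⟩, ?_, ?_⟩, ?_⟩
  · rw [mem_image]
    rintro ⟨j, hj, h⟩
    exact L.l9 j hj h
  · intro x
    rw [u3, hX3, B_negr]
    ring
  · intro x
    rw [u1, hX4]
    ring
  · intro p hp
    obtain ⟨h1, h2, -⟩ := ed_mem hp
    refine ⟨kqS pl pl' b p, F6 p hp, fun h => (mem_pl' L h1).2.2.1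
        (h ▸ ((mem_pl' L h1).2.2.2.2.2 p hp).2 (Or.inl rfl)), c6 p hp,
      ((mem_pl L h1).2.2.2.2.2 p hp).2 (Or.inl rfl), ((mem_pl L h2).2.2.2.2.2 p hp).2 (Or.inr rfl),
      _, hm' p hp, m p f0, hpos p hp, fun x => ?_⟩
    rw [u6 p hp, hval p hp]
  · intro f hf hfne
    rcases mem_FK.1 hf with rfl | rfl | rfl | rfl | ⟨e, he, rfl⟩ | ⟨e, he, rfl⟩
    · left
      refine ⟨1, one_pos, fun x => ?_⟩
      rw [u1, hX4]
      ring
    · refine Or.inr (Or.inr ⟨pF S pl a, F1, h31, fun h => a2 (h ▸ a1), ?_⟩)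
      intro v hv
      rw [mem_inter] at hv
      exfalso
      rcases mem_pF'.1 hv.1 with h | ⟨i, hi, h⟩
      · exact c2 (h ▸ hv.2)
      · exact (mem_pl L hi).2.1 (h ▸ hv.2)
    · exact absurd rfl hfne
    · obtain ⟨e, he⟩ := ed_nonempty hS
      obtain ⟨k1, k2, -⟩ := ed_mem he
      refine Or.inr (Or.inr ⟨kqS pl pl' b e, F6 e he, fun h => (mem_pl' L k1).2.2.1
        (h ▸ ((mem_pl' L k1).2.2.2.2.2 e he).2 (Or.inl rfl)), fun h => (mem_pl L k1).2.2.2.1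
        (h ▸ ((mem_pl L k1).2.2.2.2.2 e he).2 (Or.inl rfl)), ?_⟩)
      intro v hv
      rw [mem_inter] at hv
      rcases mem_pF'.1 hv.1 with h | ⟨i, hi, h⟩
      · rw [h]
        exact c6 e he
      · exact absurd (h ▸ hv.2) (mem_pl L hi).2.2.2.1
    · obtain ⟨k1, k2, -⟩ := ed_mem he
      refine Or.inr (Or.inr ⟨pF S pl a, F1, h31, fun h => b1 (h ▸ b5 e he), ?_⟩)
      intro v hv
      rw [mem_inter] at hv
      rcases mem_pF'.1 hv.1 with h | ⟨i, hi, h⟩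
      · exact absurd (h ▸ hv.2) (c5 e he)
      · exact mem_pF'.2 (Or.inr ⟨i, hi, h⟩)
    · refine Or.inr (Or.inl ⟨e, he, _, hm' e he, m e f0, hpos e he, fun x => ?_⟩)
      rw [u6 e he, hval e he]
  · intro p hp
    have h0 := hpos p hp
    have h1 : (m p f0 - kT) / kG < 1 := by
      rw [div_lt_one hG]
      have := hb2 p hp
      linarith
    have h2 : 0 < 1 - (m p f0 - kT) / kG := by linarith
    positivity

end

end GK

end Pool.Agent.Work.MP_5b14b0_lc
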