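import Pool.Agent.Work.MP_5b14b0_lc.Prism
import Pool.Agent.Work.MP_5b14b0_lc.GadKPort

/-!
# The branching gadget
-/

set_option autoImplicit false

namespace Pool.Agent.Work.MP_5b14b0_lc

open Finset

namespace GK

/-- All values of the functionals of the edges at an interior vector are positive. -/
theorem int_pos {g : ℕ → E} {S T : Finset ℕ} {f0 : E} {m : ℕ × ℕ → Du} (hTS : T ⊆ S)
    (hT3 : 3 ≤ T.card) (hint : IntC g T f0) (h1 : ∀ p ∈ Ed S, m p (g p.1) = 0)
    (h2 : ∀ p ∈ Ed S, m p (g p.2) = 0)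
    (h3 : ∀ p ∈ Ed S, ∀ k ∈ S, k ≠ p.1 → k ≠ p.2 → 0 < m p (g k)) :
    ∀ p ∈ Ed S, 0 < m p f0 := by
  intro p hp
  obtain ⟨c, hc, rfl⟩ := hint
  rw [map_sum]
  have hnn : ∀ k ∈ S, 0 ≤ m p (g k) := by
    intro k hk
    by_cases k1 : k = p.1
    · rw [k1, h1 p hp]
    by_cases k2 : k = p.2
    · rw [k2, h2 p hp]
    exact (h3 p hp k hk k1 k2).le
  obtain ⟨k, hk, k1, k2⟩ := third (i := p.1) (j := p.2) hT3
  refine Finset.sum_pos' (fun j hj => ?_) ⟨k, hk, ?_⟩
  · rw [map_smul, smul_eq_mul]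
    exact mul_nonneg (hc j hj).le (hnn j (hTS hj))
  · rw [map_smul, smul_eq_mul]
    exact mul_pos (hc k hk) (h3 p hp k (hTS hk) k1 k2)

/-- The choice of the parameters. -/
theorem params {P : Finset (ℕ × ℕ)} (u : ℕ × ℕ → ℝ) (hu : ∀ p ∈ P, 0 < u p) :
    ∃ kG kT : ℝ, 2 ≤ kG ∧ 0 < kT ∧ 0 < 1 - 2 * kG * kT - kT ^ 2 ∧ (∀ p ∈ P, kT < u p) ∧
      ∀ p ∈ P, u p ≤ kG := by
  obtain ⟨δ, hδ, hδ2⟩ : ∃ δ : ℝ, 0 < δ ∧ ∀ p ∈ P, δ < u p := by
    by_cases hne : P.Nonempty
    · obtain ⟨p0, hp0, hmin⟩ := Finset.exists_min_image P u hne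
      refine ⟨u p0 / 2, half_pos (hu p0 hp0), fun p hp => ?_⟩
      have := hmin p hp
      have := hu p0 hp0
      linarith
    · exact ⟨1, one_pos, fun p hp => absurd ⟨p, hp⟩ hne⟩
  set kG : ℝ := 2 + ∑ p ∈ P, u p with hkG
  have hs : 0 ≤ ∑ p ∈ P, u p := Finset.sum_nonneg (fun p hp => (hu p hp).le)
  have h2 : 2 ≤ kG := by linarith
  set kT : ℝ := min δ (1 / (4 * kG)) with hkT
  have hT0 : 0 < kT := lt_min hδ (by positivity)
  have hT1 : kT * (4 * kG) ≤ 1 := by
    have := min_le_right δ (1 / (4 * kG))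
    rw [← hkT, le_div_iff₀ (by positivity)] at this
    exact this
  refine ⟨kG, kT, h2, hT0, ?_, fun p hp => lt_of_le_of_lt (min_le_left _ _) (hδ2 p hp),
    fun p hp => ?_⟩
  · nlinarith [mul_nonneg hT0.le (sub_nonneg.2 h2)]
  · have := Finset.single_le_sum (f := u) (fun q hq => (hu q hq).le) hp
    linarith

/-- The labels are distinct. -/
theorem labs_of {ι : Type} [DecidableEq ι] {S : Finset ℕ} {pl pl' : ℕ → ι} {a a' b : ι}
    (hinj : Set.InjOn pl S) (hinj' : Set.InjOn pl' S) (ha : a ∉ S.image pl)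
    (ha' : a' ∉ S.image pl') (hd : Disjoint (pF S pl a) (pF S pl' a'))
    (hb : b ∉ pF S pl a ∪ pF S pl' a') : Labs S pl pl' a a' b := by
  rw [Finset.disjoint_left] at hd
  have ma : a ∈ pF S pl a := mem_pF'.2 (Or.inl rfl)
  have ma' : a' ∈ pF S pl' a' := mem_pF'.2 (Or.inl rfl)
  have mp : ∀ j ∈ S, pl j ∈ pF S pl a := fun j hj => mem_pF'.2 (Or.inr ⟨j, hj, rfl⟩)
  have mp' : ∀ j ∈ S, pl' j ∈ pF S pl' a' := fun j hj => mem_pF'.2 (Or.inr ⟨j, hj, rfl⟩)
  exact
  { hinj := fun i hi j hj h => hinj hi hj h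
    hinj' := fun i hi j hj h => hinj' hi hj h
    l1 := fun j hj h => ha (mem_image.2 ⟨j, hj, h⟩)
    l2 := fun j hj h => ha' (mem_image.2 ⟨j, hj, h⟩)
    l3 := fun i hi j hj h => hd (mp i hi) (h ▸ mp' j hj)
    l4 := fun j hj h => hd (mp j hj) (h ▸ ma')
    l5 := fun j hj h => hd ma (h ▸ mp' j hj)
    l6 := fun h => hd ma (h ▸ ma')
    l7 := fun h => hb (mem_union_left _ (h ▸ ma))
    l8 := fun h => hb (mem_union_right _ (h ▸ ma'))
    l9 := fun j hj h => hb (mem_union_left _ (h ▸ mp j hj))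
    l10 := fun j hj h => hb (mem_union_right _ (h ▸ mp' j hj)) }

/-- The labelled vectors of the gadget. -/
theorem phi_exists {ι : Type} [DecidableEq ι] {S : Finset ℕ} {pl pl' : ℕ → ι} {a a' b : ι}
    (L : Labs S pl pl' a a' b) (φ : ι → E) (sg : E → E) (x : E) :
    ∃ φ2 : ι → E, (∀ v ∈ pF S pl a, φ2 v = φ v) ∧ φ2 b = x ∧ φ2 a' = sg (φ a) ∧
      ∀ j ∈ S, φ2 (pl' j) = sg (φ (pl j)) := by
  classical
  refine ⟨fun v => if v ∈ pF S pl a then φ v else if v = b then x else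
    if h : ∃ j ∈ S, pl' j = v then sg (φ (pl h.choose)) else sg (φ a), ?_, ?_, ?_, ?_⟩
  · intro v hv
    exact if_pos hv
  · have h1 : b ∉ pF S pl a := (mem_b L).1
    simp only [h1, if_false, if_true]
  · have h1 : a' ∉ pF S pl a := (mem_a' L).1
    have h2 : ¬ ∃ j ∈ S, pl' j = a' := fun ⟨j, hj, h⟩ => L.l2 j hj h
    simp only [h1, if_false, L.l8, dif_neg h2]
  · intro j hj
    have h1 : pl' j ∉ pF S pl a := (mem_pl' L hj).1
    have h2 : pl' j ≠ b := L.l10 j hj
    have h3 : ∃ i ∈ S, pl' i = pl' j := ⟨j, hj, rfl⟩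
    simp only [h1, if_false, h2, dif_pos h3]
    rw [L.hinj' _ h3.choose_spec.1 j hj h3.choose_spec.2]

/-- Distinct vectors of the polygon are independent. -/
theorem cyc_ne {g : ℕ → E} {S : Finset ℕ} {ω : E → E → E → ℝ} {e3 e4 : E} (htri : Tri ω e3 e4)
    (hcyc : Cyc g S ω e3 e4) {i j k : ℕ} (hi : i ∈ S) (hj : j ∈ S) (hk : k ∈ S) (hij : i ≠ j)
    (hjk : j ≠ k) (hik : i ≠ k) : ω (g j) (g k) (g i) ≠ 0 := by
  have key : ∀ x ∈ S, ∀ y ∈ S, ∀ z ∈ S, x < y → y < z → ω (g x) (g y) (g z) ≠ 0 :=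
    fun x hx y hy z hz h1 h2 => (hcyc.pos x hx y hy z hz h1 h2).ne'
  rcases lt_or_gt_of_ne hij with h1 | h1 <;> rcases lt_or_gt_of_ne hjk with h2 | h2 <;>
    rcases lt_or_gt_of_ne hik with h3 | h3
  · -- i < j < k
    rw [htri.rot']
    exact key i hi j hj k hk h1 h2
  · omega
  · -- i < k < j
    rw [htri.swap13]
    exact neg_ne_zero.2 (key i hi k hk j hj h3 h2)
  · -- k < i < j
    rw [htri.rot]
    exact key k hk i hi j hj h3 h1
  · -- j < i < k
    rw [htri.swap23]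
    exact neg_ne_zero.2 (key j hj i hi k hk h1 h3)
  · -- j < k < i
    exact key j hj k hk i hi h2 h3
  · omega
  · -- k < j < i
    rw [htri.swap]
    exact neg_ne_zero.2 (key k hk j hj i hi h2 h1)

/-- The trilinear form transported by an involutive isometry. -/
theorem tri_sg {ω : E → E → E → ℝ} {e3 e4 Y : E} (hY : B Y Y ≠ 0) (h : Tri ω e3 e4) :
    Tri (fun x y z => ω (reflL Y x) (reflL Y y) (reflL Y z)) (reflL Y e3) (reflL Y e4) where
  add x x' y z := by
    show ω (reflL Y (x + x')) _ _ = _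
    rw [map_add, h.add]
  smul c x y z := by
    show ω (reflL Y (c • x)) _ _ = _
    rw [map_smul, h.smul]
  rot x y z := h.rot _ _ _
  swap x y z := h.swap _ _ _
  z3 y z := by
    show ω (refl Y (refl Y e3)) _ _ = 0
    rw [refl_refl hY, h.z3]
  z4 y z := by
    show ω (refl Y (refl Y e4)) _ _ = 0
    rw [refl_refl hY, h.z4]
  cramer x y z w hx hy hz hw := by
    have key : ∀ v, InPl (reflL Y e3) (reflL Y e4) v → InPl e3 e4 (reflL Y v) := by
      intro v hv
      exact ⟨by rw [reflL_apply, B_refl_left]; exact hv.1,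
        by rw [reflL_apply, B_refl_left]; exact hv.2⟩
    have h1 := congrArg (reflL Y) (h.cramer _ _ _ _ (key x hx) (key y hy) (key z hz) (key w hw))
    simp only [map_add, map_smul] at h1
    have h2 : ∀ v, reflL Y (reflL Y v) = v := fun v => refl_refl hY v
    rw [h2, h2, h2, h2] at h1
    exact h1

end GK

open GK in
/-- The branching gadget. -/
theorem claimK (hP : ClaimPolygon) : ClaimK := by
  intro ι _ S T T' pl pl' a a' b φ e0 e3 e4 f0 ω hfr htri hcyc hTS hT3 hint hap hf hf1 hf2 hTS'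
    hT3' hint' hinj hinj' haS haS' hdisj hb
  obtain ⟨c0, hc0, hap⟩ := hap
  obtain ⟨m, hm, hcone⟩ := hP e0 e3 e4 ω (fun j => φ (pl j)) S T hfr htri hcyc hTS hT3 hint
  have L : Labs S pl pl' a a' b := labs_of hinj hinj' haS haS' hdisj hb
  have hS : 3 ≤ S.card := hT3.trans (Finset.card_le_card hTS)
  have hm0 : ∀ p ∈ Ed S, m p e0 = 1 := fun p hp => (hm p hp).1.m0
  have hm3 : ∀ p ∈ Ed S, m p e3 = 0 := fun p hp => (hm p hp).1.m3
  have hm4 : ∀ p ∈ Ed S, m p e4 = 0 := fun p hp => (hm p hp).1.m4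
  have hu := int_pos hTS' hT3' hint' (fun p hp => (hm p hp).1.u0) (fun p hp => (hm p hp).1.v0)
    (fun p hp => (hm p hp).2)
  obtain ⟨kG, kT, hkG, hkT, hDp, hb1, hb2⟩ := params (P := Ed S) (fun p => m p f0) hu
  set Y := Yv e0 e3 e4 kG kT with hYdef
  have hD : 0 < B Y Y := by rw [hYdef, Yv_Yv hfr]; exact hDp
  obtain ⟨φ2, hφ, hφb, hφa', hφ'⟩ := phi_exists L φ (refl Y) (f0 + e4)
  have hφa : φ2 a = φ a := hφ a (mem_pF'.2 (Or.inl rfl))
  have hφp : ∀ j ∈ S, φ2 (pl j) = φ (pl j) := fun j hj => hφ _ (mem_pF'.2 (Or.inr ⟨j, hj, rfl⟩))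
  have hkG0 : 0 < kG := by linarith
  -- the number `Nn`
  have hf0 : B f0 e0 ≤ -1 := B_time_time hf1 hf2 hfr.n0 hfr.fut
  set Nn : ℝ := B (refl Y (f0 + e4)) e4 with hNn
  have hBY : B (f0 + e4) Y = 1 + (kG + kT) * B f0 e0 := by
    rw [hYdef, B_Yv, B_add_left, B_add_left, B_add_left, hf.1, hf.2, B_comm e4 e3, hfr.o34,
      hfr.n4, B_comm e4 e0, hfr.o04]
    ring
  have hN1 : 1 < Nn := by
    have h1 : Nn = 1 - 2 * B (f0 + e4) Y / B Y Y := by
      rw [hNn, hYdef, refl_e4 hfr, B_add_left, hf.2, hfr.n4]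
      ring
    have h2 : B (f0 + e4) Y < 0 := by
      rw [hBY]
      nlinarith
    have h3 : 2 * B (f0 + e4) Y / B Y Y < 0 := div_neg_of_neg_of_pos (by linarith) hD
    linarith
  have hg0 : ∀ j ∈ S, B (φ (pl j)) e0 < 0 := by
    intro j hj
    rw [B_comm]
    exact B_time_light_neg (by rw [hfr.n0]; norm_num) hfr.fut (hcyc.light j hj)
  have D : Vals S pl pl' a a' b φ2 (BL e3) (BL e4) (reflL Y) m kG kT Nn c0 :=
  { v' := fun j hj => by rw [hφ' j hj, hφp j hj]; rfl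
    va' := by rw [hφa', hφa]; rfl
    sgsg := fun x => refl_refl hD.ne' x
    U := fun x => refl_U hfr kG kT x
    M := fun e he x => refl_M hfr kG kT (hm0 e he) (hm3 e he) (hm4 e he) x
    g3 := fun j hj => by rw [hφp j hj]; exact (hcyc.inpl j hj).1
    g4 := fun j hj => by rw [hφp j hj]; exact (hcyc.inpl j hj).2
    g4' := fun j hj => by
      rw [hφp j hj]
      show 0 < B (refl Y (φ (pl j))) e4
      rw [hYdef, refl_e4 hfr, ← hYdef, (hcyc.inpl j hj).2]
      have h2 : B (φ (pl j)) Y < 0 := by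
        rw [hYdef, B_Yv, (hcyc.inpl j hj).1, (hcyc.inpl j hj).2]
        have := mul_neg_of_pos_of_neg (add_pos hkG0 hkT) (hg0 j hj)
        linarith
      have h3 : 2 * B (φ (pl j)) Y / B Y Y < 0 := div_neg_of_neg_of_pos (by linarith) hD
      linarith
    a3 := by
      rw [hφa, hap, BL_apply, B_smul_left, B_add_left, hfr.o03, hfr.n3]
      ring
    a4 := by
      rw [hφa, hap, BL_apply, B_smul_left, B_add_left, hfr.o04, hfr.o34]
      ring
    a4' := by
      rw [hφa, hap]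
      show 0 < B (refl Y (c0 • (e0 + e3))) e4
      rw [hYdef, refl_e4 hfr, ← hYdef]
      have h1 : B (c0 • (e0 + e3)) e4 = 0 := by
        rw [B_smul_left, B_add_left, hfr.o04, hfr.o34]
        ring
      have h2 : B (c0 • (e0 + e3)) Y = -(c0 * kT) := by
        rw [hYdef, B_Yv, h1, B_smul_left, B_smul_left, B_add_left, B_add_left, hfr.o03, hfr.n3,
          hfr.n0, B_comm e3 e0, hfr.o03]
        ring
      have h3 : 2 * B (c0 • (e0 + e3)) Y / B Y Y < 0 := by
        apply div_neg_of_neg_of_pos _ hD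
        rw [h2]
        nlinarith [mul_pos hc0 hkT]
      rw [h1]
      linarith
    am := fun e he => by
      rw [hφa, hap, map_smul, map_add, hm0 e he, hm3 e he, smul_eq_mul]
      ring
    b3 := by
      rw [hφb, BL_apply, B_add_left, hf.1, B_comm, hfr.o34]
      ring
    b4 := by
      rw [hφb, BL_apply, B_add_left, hf.2, hfr.n4]
      ring
    b4' := by
      rw [hφb]
      rfl
    bm := fun e he => by
      rw [hφb, map_add, hm4 e he, add_zero]
      exact hb1 e he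
    bmG := fun e he => by
      rw [hφb, map_add, hm4 e he, add_zero]
      exact hb2 e he
    gm1 := fun e he => by
      rw [hφp _ (ed_mem he).1]
      exact (hm e he).1.u0
    gm2 := fun e he => by
      rw [hφp _ (ed_mem he).2.1]
      exact (hm e he).1.v0
    gmp := fun e he k hk h1 h2 => by
      rw [hφp k hk]
      exact (hm e he).2 k hk h1 h2
    hG := hkG0
    hT := hkT
    hc := hc0
    hN := hN1 }
  -- light vectors
  have hfrf : Frame f0 e3 e4 := hfr.change hf hf1 hf2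
  have hlb : Light (φ2 b) := by
    rw [hφb]
    exact hfrf.swap.light_add
  have hla : Light (φ2 a) := by
    rw [hφa, hap]
    exact hfr.light_add.smul hc0
  have hlp : ∀ j ∈ S, Light (φ2 (pl j)) := fun j hj => by
    rw [hφp j hj]
    exact hcyc.light j hj
  have hl : ∀ v ∈ VK S pl pl' a a' b, Light (φ2 v) := by
    intro v hv
    rcases mem_V.1 hv with rfl | ⟨i, hi, rfl⟩ | rfl | ⟨i, hi, rfl⟩ | rfl
    · exact hla
    · exact hlp i hi
    · rw [D.va']
      exact refl_light hD hla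
    · rw [D.v' i hi]
      exact refl_light hD (hlp i hi)
    · exact hlb
  have hcyc2 : Cyc (fun j => φ2 (pl j)) S ω e3 e4 := by
    refine ⟨hlp, fun j hj => ?_, fun i hi j hj k hk h1 h2 => ?_⟩
    · rw [hφp j hj]
      exact hcyc.inpl j hj
    · rw [hφp i hi, hφp j hj, hφp k hk]
      exact hcyc.pos i hi j hj k hk h1 h2
  -- the cone
  have hVa : a ∈ VK S pl pl' a a' b := mem_V.2 (Or.inl rfl)
  have hVa' : a' ∈ VK S pl pl' a a' b := mem_V.2 (Or.inr (Or.inr (Or.inl rfl)))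
  have hVb : b ∈ VK S pl pl' a a' b := mem_V.2 (Or.inr (Or.inr (Or.inr (Or.inr rfl))))
  have hVp : ∀ j ∈ S, pl j ∈ VK S pl pl' a a' b := fun j hj =>
    mem_V.2 (Or.inr (Or.inl ⟨j, hj, rfl⟩))
  have hVp' : ∀ j ∈ S, pl' j ∈ VK S pl pl' a a' b := fun j hj =>
    mem_V.2 (Or.inr (Or.inr (Or.inr (Or.inl ⟨j, hj, rfl⟩))))
  have hpr : ∀ x, 0 ≤ B x e4 → 0 ≤ B (refl Y x) e4 → 0 ≤ B x e3 - kG * B x e4 →
      (∀ p ∈ Ed S, 0 ≤ m p x - B x e3 - kT * B x e4) → InCone φ2 (VK S pl pl' a a' b) x := by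
    intro x h1 h2 h3 h4
    exact prism_cone (g := fun j => φ (pl j)) (pl := pl) (pl' := pl') (a := a) (a' := a') hfr hm0
      hm3 hm4 hcone hφp hVp hVa hc0 (by rw [hφa, hap]) hD (fun j hj => D.v' j hj) hVp' hVa'
      D.va' h1 h2 h3 h4
  have hcone2 : ∀ x, 0 ≤ BL e4 x → 0 ≤ BL e4 (reflL Y x) → 0 ≤ BL e3 x →
      0 ≤ nb' (BL e3) (BL e4) (reflL Y) kG Nn x →
      (∀ e ∈ Ed S, 0 ≤ npr (BL e3) (BL e4) m kT e x) →
      (∀ e ∈ Ed S, 0 ≤ nkq (BL e3) (BL e4) m kG kT (φ2 b) e x) →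
      InCone φ2 (VK S pl pl' a a' b) x := by
    intro x h1 h2 h3 h4 h5 h6
    by_cases hU : 0 ≤ B x e3 - kG * B x e4
    · refine hpr x h1 h2 hU (fun p hp => ?_)
      have := h5 p hp
      simp only [npr, LinearMap.sub_apply, LinearMap.smul_apply, smul_eq_mul, BL_apply] at this
      exact this
    · push Not at hU
      set lam : ℝ := -(B x e3 - kG * B x e4) / kG with hlam
      have hlam0 : 0 < lam := div_pos (by linarith) hkG0
      have hlamG : lam * kG = -(B x e3 - kG * B x e4) := by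
        rw [hlam, div_mul_cancel₀ _ hkG0.ne']
      have b3 : B (φ2 b) e3 = 0 := D.b3
      have b4 : B (φ2 b) e4 = 1 := D.b4
      have b4' : B (refl Y (φ2 b)) e4 = Nn := D.b4'
      have y : InCone φ2 (VK S pl pl' a a' b) (x - lam • φ2 b) := by
        apply hpr
        · rw [B_sub_left, B_smul_left, b4]
          have h3' : 0 ≤ B x e3 := h3
          nlinarith
        · rw [refl_sub, refl_smul, B_sub_left, B_smul_left, b4']
          have h := h4
          simp only [nb', uf, LinearMap.add_apply, LinearMap.comp_apply, LinearMap.smul_apply,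
            LinearMap.sub_apply, smul_eq_mul, BL_apply, reflL_apply] at h
          have h7 : Nn / kG * (B x e3 - kG * B x e4) = -(lam * Nn) := by
            rw [hlam]
            field_simp
          linarith
        · rw [B_sub_left, B_smul_left, B_sub_left, B_smul_left, b3, b4]
          apply le_of_eq
          nlinarith
        · intro p hp
          have h := h6 p hp
          simp only [nkq, npr, uf, LinearMap.add_apply, LinearMap.smul_apply,
            LinearMap.sub_apply, smul_eq_mul, BL_apply] at h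
          rw [map_sub, map_smul, B_sub_left, B_smul_left, B_sub_left, B_smul_left, b3, b4,
            smul_eq_mul]
          have h7 : (m p (φ2 b) - kT) / kG * (B x e3 - kG * B x e4) =
              -(lam * (m p (φ2 b) - kT)) := by
            rw [hlam]
            field_simp
          nlinarith
      have h8 := y.add ((InCone.of_mem (g := φ2) hVb).smul hlam0.le)
      rw [sub_add_cancel] at h8
      exact h8
  -- the normals
  have hsp : ∀ F : Finset ι, ∃ n, F ∈ FK S pl pl' a a' b →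
      Spec S pl pl' a a' b φ2 (BL e3) (BL e4) (reflL Y) m kG kT Nn F n := by
    intro F
    by_cases h : F ∈ FK S pl pl' a a' b
    · obtain ⟨n, hn⟩ := spec_exists (φ2 := φ2) (X3 := BL e3) (X4 := BL e4) (sg := reflL Y)
        (m := m) (kG := kG) (kT := kT) (Nn := Nn) h
      exact ⟨n, fun _ => hn⟩
    · exact ⟨0, fun h' => absurd h' h⟩
  choose N2 hN2 using hsp
  have hR : Real (VK S pl pl' a a' b) (FK S pl pl' a a' b) φ2 N2 := by
    refine real_of L D (fun y z => htri.lin y z) ?_ ?_ hS hl hcone2 N2 hN2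
    · intro i hi j hj k hk h1 h2 h3
      exact cyc_ne htri hcyc2 hi hj hk h1 h2 h3
    · intro y z
      exact ⟨htri.self13 y z, htri.self23 z y⟩
  have hm2 : ∀ p ∈ Ed S, EdgeF (m p) (φ2 (pl p.1)) (φ2 (pl p.2)) e0 e3 e4 := by
    intro p hp
    exact ⟨D.gm1 p hp, D.gm2 p hp, hm0 p hp, hm3 p hp, hm4 p hp⟩
  have hint2 : ∀ {R : Finset ℕ} {f : E}, R ⊆ S → IntC (fun j => φ (pl j)) R f →
      IntC (fun j => φ2 (pl j)) R f := by
    rintro R f hR ⟨c, hc, h⟩
    refine ⟨c, hc, h.trans (sum_congr rfl (fun j hj => ?_))⟩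
    show c j • φ (pl j) = c j • φ2 (pl j)
    rw [hφp j (hR hj)]
  have hap2 : ∃ c : ℝ, 0 < c ∧ φ2 a = c • (e0 + e3) := ⟨c0, hc0, by rw [hφa, hap]⟩
  have hiso : Iso (reflL Y) := iso_refl hD
  have hfr' : Frame (reflL Y e0) (reflL Y e3) (-reflL Y e4) := (hiso.frame hfr).neg4
  have htri' := (tri_sg hD.ne' htri).neg4
  have hss : ∀ v, reflL Y (reflL Y v) = v := fun v => refl_refl hD.ne' v
  have hcyc' : Cyc (fun j => φ2 (pl' j)) S
      (fun x y z => ω (reflL Y x) (reflL Y y) (reflL Y z)) (reflL Y e3) (-reflL Y e4) := by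
    refine ⟨fun j hj => hl _ (hVp' j hj), fun j hj => ?_, fun i hi j hj k hk h1 h2 => ?_⟩
    · show InPl _ _ (φ2 (pl' j))
      rw [D.v' j hj]
      exact (hiso.inPl (hcyc2.inpl j hj)).neg4
    · show 0 < ω (reflL Y (φ2 (pl' i))) (reflL Y (φ2 (pl' j))) (reflL Y (φ2 (pl' k)))
      rw [D.v' i hi, D.v' j hj, D.v' k hk, hss, hss, hss]
      exact hcyc2.pos i hi j hj k hk h1 h2
  have hintr : IntC (fun j => φ2 (pl' j)) T (reflL Y e0) := by
    obtain ⟨c, hc, h⟩ := hint2 hTS hint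
    refine ⟨c, hc, ?_⟩
    conv_lhs => rw [h]
    rw [map_sum]
    refine sum_congr rfl (fun j hj => ?_)
    rw [map_smul]
    show c j • reflL Y (φ2 (pl j)) = c j • φ2 (pl' j)
    rw [D.v' j (hTS hj)]
  have hap' : ∃ c : ℝ, 0 < c ∧ φ2 a' = c • (reflL Y e0 + reflL Y e3) :=
    ⟨c0, hc0, by rw [D.va', hφa, hap, map_smul, map_add]⟩
  have hm' : ∀ p ∈ Ed S, EdgeF ((m p).comp (reflL Y)) (φ2 (pl' p.1)) (φ2 (pl' p.2))
      (reflL Y e0) (reflL Y e3) (-reflL Y e4) := by
    intro p hp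
    refine ⟨?_, ?_, ?_, ?_, ?_⟩
    · rw [LinearMap.comp_apply, D.v' _ (ed_mem hp).1, hss]
      exact D.gm1 p hp
    · rw [LinearMap.comp_apply, D.v' _ (ed_mem hp).2.1, hss]
      exact D.gm2 p hp
    · rw [LinearMap.comp_apply, hss]
      exact hm0 p hp
    · rw [LinearMap.comp_apply, hss]
      exact hm3 p hp
    · rw [LinearMap.comp_apply, map_neg, hss, map_neg, hm4 p hp, neg_zero]
  have P1 := port1 (sg := reflL Y) (kG := kG) (kT := kT) (Nn := Nn) L hS hfr htri hcyc2 hTS hT3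
    (hint2 hTS hint) hap2 (fun _ => rfl) (fun _ => rfl) hm2 N2 hN2
  have P2 := port2 (sg := reflL Y) (kG := kG) (kT := kT) (Nn := Nn) (ω := ω) (m := m)
    (X3 := BL e3) (X4 := BL e4) L hS hkG0 hN1 hfr' htri' hcyc' hTS hT3
    hintr hap' (fun x => B_refl_left Y x e3) (fun x => B_refl_left Y x e4)
    (fun x => (D.U x).symm) (fun e he x => (D.M e he x).symm) hm' N2 hN2
  obtain ⟨P3, P3'⟩ := port3 (sg := reflL Y) (kG := kG) (kT := kT) (Nn := Nn) L hS hkG0 hkT
    (hfrf.swap.neg4) htri hcyc2 hTS' hT3' (hint2 hTS' hint') hφb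
    (fun _ => rfl) (fun _ => rfl) hm2 hb1 hb2 N2 hN2
  refine ⟨φ2, N2, reflL Y, fun x y z => ω (reflL Y x) (reflL Y y) (reflL Y z),
    kG * (1 - 1 / Nn), fun _ => kT, fun _ => kT, _, hR, hiso, hφ, fun j hj => ?_, P1,
    fun _ _ => hkT, P2, ?_, fun _ _ => hkT, P3, P3'⟩
  · rw [hφ' j hj]
    rfl
  · apply mul_pos hkG0
    have : 1 / Nn < 1 := by
      rw [div_lt_one (by linarith)]
      exact hN1
    linarith

end Pool.Agent.Work.MP_5b14b0_lc
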