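import Pool.Agent.Work.MP_5b14b0_lc.Geo

/-!
# The edges of a hexagon
-/

set_option autoImplicit false

namespace Pool.Agent.Work.MP_5b14b0_lc

open Finset

lemma hexEd_sorted {a0 a1 a2 a3 a4 a5 : ℕ} (h01 : a0 < a1) (h12 : a1 < a2) (h23 : a2 < a3)
    (h34 : a3 < a4) (h45 : a4 < a5) (p : ℕ × ℕ) :
    p ∈ Ed {a0, a1, a2, a3, a4, a5} ↔ p = (a0, a1) ∨ p = (a1, a2) ∨ p = (a2, a3) ∨
      p = (a3, a4) ∨ p = (a4, a5) ∨ p = (a0, a5) := by
  obtain ⟨u, v⟩ := p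
  simp only [Ed, mem_filter, mem_product, mem_insert, mem_singleton, Prod.mk.injEq,
    forall_eq_or_imp, forall_eq]
  constructor
  · rintro ⟨⟨hu, hv⟩, h⟩
    rcases hu with rfl | rfl | rfl | rfl | rfl | rfl <;>
      rcases hv with rfl | rfl | rfl | rfl | rfl | rfl <;> omega
  · rintro (⟨rfl, rfl⟩ | ⟨rfl, rfl⟩ | ⟨rfl, rfl⟩ | ⟨rfl, rfl⟩ | ⟨rfl, rfl⟩ | ⟨rfl, rfl⟩) <;> omega

/-- The edges of a hexagon. -/
lemma hexEd {n h0 h1 h2 h3 h4 h5 : ℕ} (h : HexOK n [h0, h1, h2, h3, h4, h5]) :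
    [h0, h1, h2, h3, h4, h5].Nodup ∧
    (∀ p ∈ Ed ([h0, h1, h2, h3, h4, h5] : List ℕ).toFinset,
      (p = (h0, h1) ∨ p = (h1, h0)) ∨ (p = (h1, h2) ∨ p = (h2, h1)) ∨
      (p = (h2, h3) ∨ p = (h3, h2)) ∨ (p = (h3, h4) ∨ p = (h4, h3)) ∨
      (p = (h4, h5) ∨ p = (h5, h4)) ∨ (p = (h5, h0) ∨ p = (h0, h5))) ∧
    ((h0, h1) ∈ Ed ([h0, h1, h2, h3, h4, h5] : List ℕ).toFinset ∨
      (h1, h0) ∈ Ed ([h0, h1, h2, h3, h4, h5] : List ℕ).toFinset) ∧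
    ((h1, h2) ∈ Ed ([h0, h1, h2, h3, h4, h5] : List ℕ).toFinset ∨
      (h2, h1) ∈ Ed ([h0, h1, h2, h3, h4, h5] : List ℕ).toFinset) ∧
    ((h2, h3) ∈ Ed ([h0, h1, h2, h3, h4, h5] : List ℕ).toFinset ∨
      (h3, h2) ∈ Ed ([h0, h1, h2, h3, h4, h5] : List ℕ).toFinset) ∧
    ((h3, h4) ∈ Ed ([h0, h1, h2, h3, h4, h5] : List ℕ).toFinset ∨
      (h4, h3) ∈ Ed ([h0, h1, h2, h3, h4, h5] : List ℕ).toFinset) ∧
    ((h4, h5) ∈ Ed ([h0, h1, h2, h3, h4, h5] : List ℕ).toFinset ∨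
      (h5, h4) ∈ Ed ([h0, h1, h2, h3, h4, h5] : List ℕ).toFinset) ∧
    ((h5, h0) ∈ Ed ([h0, h1, h2, h3, h4, h5] : List ℕ).toFinset ∨
      (h0, h5) ∈ Ed ([h0, h1, h2, h3, h4, h5] : List ℕ).toFinset) := by
  obtain ⟨-, ⟨r, hr⟩, -⟩ := h
  rw [← List.rotate_mod] at hr
  have hlt : r % 6 < 6 := Nat.mod_lt _ (by norm_num)
  simp only [List.length_cons, List.length_nil, Nat.reduceAdd, zero_add] at hr
  generalize r % 6 = r' at hr hlt
  interval_cases r'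
  · simp at hr
    obtain ⟨⟨a1, a2, a3, a4, a5⟩, ⟨b2, b3, b4, b5⟩, ⟨c3, c4, c5⟩, ⟨d4, d5⟩, e5⟩ := hr
    have hset : ([h0, h1, h2, h3, h4, h5] : List ℕ).toFinset = {h0, h1, h2, h3, h4, h5} := by
      ext; simp
    have key := hexEd_sorted a1 b2 c3 d4 e5
    rw [← hset] at key
    refine ⟨?_, ?_, ?_, ?_, ?_, ?_, ?_, ?_⟩
    · simp; omega
    · intro p hp
      rw [key] at hp
      tauto
    all_goals first | (left; rw [key]; simp; done) | (right; rw [key]; simp)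
  · simp [List.rotate] at hr
    obtain ⟨⟨a1, a2, a3, a4, a5⟩, ⟨b2, b3, b4, b5⟩, ⟨c3, c4, c5⟩, ⟨d4, d5⟩, e5⟩ := hr
    have hset : ([h0, h1, h2, h3, h4, h5] : List ℕ).toFinset = {h1, h2, h3, h4, h5, h0} := by
      ext; simp; tauto
    have key := hexEd_sorted a1 b2 c3 d4 e5
    rw [← hset] at key
    refine ⟨?_, ?_, ?_, ?_, ?_, ?_, ?_, ?_⟩
    · simp; omega
    · intro p hp
      rw [key] at hp
      tauto
    all_goals first | (left; rw [key]; simp; done) | (right; rw [key]; simp)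
  · simp [List.rotate] at hr
    obtain ⟨⟨a1, a2, a3, a4, a5⟩, ⟨b2, b3, b4, b5⟩, ⟨c3, c4, c5⟩, ⟨d4, d5⟩, e5⟩ := hr
    have hset : ([h0, h1, h2, h3, h4, h5] : List ℕ).toFinset = {h2, h3, h4, h5, h0, h1} := by
      ext; simp; tauto
    have key := hexEd_sorted a1 b2 c3 d4 e5
    rw [← hset] at key
    refine ⟨?_, ?_, ?_, ?_, ?_, ?_, ?_, ?_⟩
    · simp; omega
    · intro p hp
      rw [key] at hp
      tauto
    all_goals first | (left; rw [key]; simp; done) | (right; rw [key]; simp)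
  · simp [List.rotate] at hr
    obtain ⟨⟨a1, a2, a3, a4, a5⟩, ⟨b2, b3, b4, b5⟩, ⟨c3, c4, c5⟩, ⟨d4, d5⟩, e5⟩ := hr
    have hset : ([h0, h1, h2, h3, h4, h5] : List ℕ).toFinset = {h3, h4, h5, h0, h1, h2} := by
      ext; simp; tauto
    have key := hexEd_sorted a1 b2 c3 d4 e5
    rw [← hset] at key
    refine ⟨?_, ?_, ?_, ?_, ?_, ?_, ?_, ?_⟩
    · simp; omega
    · intro p hp
      rw [key] at hp
      tauto
    all_goals first | (left; rw [key]; simp; done) | (right; rw [key]; simp)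
  · simp [List.rotate] at hr
    obtain ⟨⟨a1, a2, a3, a4, a5⟩, ⟨b2, b3, b4, b5⟩, ⟨c3, c4, c5⟩, ⟨d4, d5⟩, e5⟩ := hr
    have hset : ([h0, h1, h2, h3, h4, h5] : List ℕ).toFinset = {h4, h5, h0, h1, h2, h3} := by
      ext; simp; tauto
    have key := hexEd_sorted a1 b2 c3 d4 e5
    rw [← hset] at key
    refine ⟨?_, ?_, ?_, ?_, ?_, ?_, ?_, ?_⟩
    · simp; omega
    · intro p hp
      rw [key] at hp
      tauto
    all_goals first | (left; rw [key]; simp; done) | (right; rw [key]; simp)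
  · simp [List.rotate] at hr
    obtain ⟨⟨a1, a2, a3, a4, a5⟩, ⟨b2, b3, b4, b5⟩, ⟨c3, c4, c5⟩, ⟨d4, d5⟩, e5⟩ := hr
    have hset : ([h0, h1, h2, h3, h4, h5] : List ℕ).toFinset = {h5, h0, h1, h2, h3, h4} := by
      ext; simp; tauto
    have key := hexEd_sorted a1 b2 c3 d4 e5
    rw [← hset] at key
    refine ⟨?_, ?_, ?_, ?_, ?_, ?_, ?_, ?_⟩
    · simp; omega
    · intro p hp
      rw [key] at hp
      tauto
    all_goals first | (left; rw [key]; simp; done) | (right; rw [key]; simp)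

end Pool.Agent.Work.MP_5b14b0_lc
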