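import Pool.Agent.Work.MP_5b14b0_lc.GadL2
import Pool.Agent.Work.MP_5b14b0_lc.HexEd

/-!
# The leaf gadget, part 3: the labelled polytope and its port
-/

set_option autoImplicit false

namespace Pool.Agent.Work.MP_5b14b0_lc

open Finset

lemma glS_inj : Function.Injective glS := by decide +kernel

lemma glS_proper : ∀ m, ∃ k, k ∉ glS m := by decide +kernel

lemma glS_incl : ∀ m m', glS m ⊆ glS m' → m = m' := by decide +kernel

lemma glS_sep : ∀ k k' : Fin 13, k ≠ k' → ∃ m, ¬ (k ∈ glS m ↔ k' ∈ glS m) := by decide +kernel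

section

variable {ι : Type} [DecidableEq ι]

open Classical in
/-- The labelling with scaled vectors. -/
noncomputable def glφ (lab : Fin 13 → ι) (ψ : Fin 13 → E) (i : ι) : E :=
  if h : ∃ k, lab k = i then ψ h.choose else 0

lemma glφ_lab {lab : Fin 13 → ι} (hl : Function.Injective lab) (ψ : Fin 13 → E) (k : Fin 13) :
    glφ lab ψ (lab k) = ψ k := by
  have h : ∃ k', lab k' = lab k := ⟨k, rfl⟩
  unfold glφ
  rw [dif_pos h, hl h.choose_spec]

open Classical in
/-- The normals. -/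
noncomputable def glNN (lab : Fin 13 → ι) (n : Fin 16 → Du) (F : Finset ι) : Du :=
  if h : ∃ m, (glS m).image lab = F then n h.choose else 0

lemma glNN_lab {lab : Fin 13 → ι} (hl : Function.Injective lab) (n : Fin 16 → Du) (m : Fin 16) :
    glNN lab n ((glS m).image lab) = n m := by
  have h : ∃ m', (glS m').image lab = (glS m).image lab := ⟨m, rfl⟩
  unfold glNN
  rw [dif_pos h, glS_inj (Finset.image_injective hl h.choose_spec)]

/-- Transfer to labels. -/
lemma gl_real {lab : Fin 13 → ι} (hl : Function.Injective lab) {ψ : Fin 13 → E}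
    {n : Fin 16 → Du} (light : ∀ k, Light (ψ k))
    (z : ∀ m k, k ∈ glS m → n m (ψ k) = 0) (p : ∀ m k, k ∉ glS m → 0 < n m (ψ k))
    (cone : ∀ x, (∀ m, 0 ≤ n m x) → ∃ d : Fin 13 → ℝ, (∀ k, 0 ≤ d k) ∧ x = ∑ k, d k • ψ k) :
    Real (Finset.univ.image lab) (Finset.univ.image fun m => (glS m).image lab)
      (glφ lab ψ) (glNN lab n) := by
  refine Real.mk' ?_ ?_ ?_ ?_ ?_ ?_ ?_ ?_
  · intro v hv
    obtain ⟨k, -, rfl⟩ := Finset.mem_image.1 hv
    rw [glφ_lab hl]; exact light k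
  · intro F hF
    obtain ⟨m, -, rfl⟩ := Finset.mem_image.1 hF
    exact Finset.image_subset_image (Finset.subset_univ _)
  · intro F hF v hv
    obtain ⟨m, -, rfl⟩ := Finset.mem_image.1 hF
    obtain ⟨k, -, rfl⟩ := Finset.mem_image.1 hv
    rw [glφ_lab hl, glNN_lab hl]
    by_cases hk : k ∈ glS m
    · exact (z m k hk).ge
    · exact (p m k hk).le
  · intro F hF v hv
    obtain ⟨m, -, rfl⟩ := Finset.mem_image.1 hF
    obtain ⟨k, -, rfl⟩ := Finset.mem_image.1 hv
    rw [glφ_lab hl, glNN_lab hl, hl.mem_finset_image]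
    constructor
    · intro h
      by_contra hk
      exact (p m k hk).ne' h
    · exact z m k
  · intro F hF
    obtain ⟨m, -, rfl⟩ := Finset.mem_image.1 hF
    obtain ⟨k, hk⟩ := glS_proper m
    exact ⟨lab k, Finset.mem_image_of_mem _ (Finset.mem_univ k), by
      rwa [hl.mem_finset_image]⟩
  · intro F hF G hG hFG
    obtain ⟨m, -, rfl⟩ := Finset.mem_image.1 hF
    obtain ⟨m', -, rfl⟩ := Finset.mem_image.1 hG
    rw [Finset.image_subset_image_iff hl] at hFG
    rw [glS_incl m m' hFG]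
  · intro v hv w hw hne
    obtain ⟨k, -, rfl⟩ := Finset.mem_image.1 hv
    obtain ⟨k', -, rfl⟩ := Finset.mem_image.1 hw
    obtain ⟨m, hm⟩ := glS_sep k k' fun h => hne (by rw [h])
    exact ⟨_, Finset.mem_image_of_mem _ (Finset.mem_univ m), by
      rwa [hl.mem_finset_image, hl.mem_finset_image]⟩
  · intro x hx
    obtain ⟨d, hd, hsum⟩ := cone x fun m => by
      have := hx _ (Finset.mem_image_of_mem _ (Finset.mem_univ m))
      rwa [glNN_lab hl] at this
    classical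
    refine ⟨fun i => if h : ∃ k, lab k = i then d h.choose else 0, ?_, ?_⟩
    · intro i
      dsimp only
      split_ifs with h
      · exact hd _
      · exact le_rfl
    · rw [Finset.sum_image fun a _ b _ hab => hl hab, hsum]
      refine Finset.sum_congr rfl fun k _ => ?_
      have h : ∃ k', lab k' = lab k := ⟨k, rfl⟩
      dsimp only
      rw [dif_pos h, hl h.choose_spec, glφ_lab hl]

end

/-! ### Labels -/

section

variable {ι : Type} [DecidableEq ι]

/-- The list of labels. -/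
def glLab (q : Fin 6 → ι) (a : ι) (x : ℕ → ℕ → ι) : Fin 13 → ι :=
  ![q 0, q 1, q 2, q 3, q 4, q 5, a, x 0 0, x 0 1, x 1 0, x 1 1, x 2 0, x 2 1]

omit [DecidableEq ι] in
lemma glLab_inj {q : Fin 6 → ι} {a : ι} {x : ℕ → ℕ → ι} (hq : Function.Injective q)
    (ha : ∀ i, q i ≠ a) (hx1 : ∀ i j k, i < 3 → j < 2 → q k ≠ x i j)
    (hx2 : ∀ i j, i < 3 → j < 2 → a ≠ x i j)
    (hx3 : ∀ i j i' j', i < 3 → j < 2 → i' < 3 → j' < 2 → x i j = x i' j' → i = i' ∧ j = j') :
    Function.Injective (glLab q a x) := by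
  have hxx : ∀ i j i' j', i < 3 → j < 2 → i' < 3 → j' < 2 → ¬ (i = i' ∧ j = j') →
      x i j ≠ x i' j' := fun i j i' j' a b c d e h => e (hx3 i j i' j' a b c d h)
  have hqq : ∀ i j, i ≠ j → q i ≠ q j := fun i j h h' => h (hq h')
  have hnd : ([q 0, q 1, q 2, q 3, q 4, q 5, a, x 0 0, x 0 1, x 1 0, x 1 1, x 2 0, x 2 1] :
      List ι).Nodup := by
    simp only [List.nodup_cons, List.mem_cons, List.not_mem_nil, or_false, not_or,
      not_false_eq_true, List.nodup_nil, and_true]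
    refine ⟨⟨?_, ?_, ?_, ?_, ?_, ?_, ?_, ?_, ?_, ?_, ?_, ?_⟩,
      ⟨?_, ?_, ?_, ?_, ?_, ?_, ?_, ?_, ?_, ?_, ?_⟩,
      ⟨?_, ?_, ?_, ?_, ?_, ?_, ?_, ?_, ?_, ?_⟩, ⟨?_, ?_, ?_, ?_, ?_, ?_, ?_, ?_, ?_⟩,
      ⟨?_, ?_, ?_, ?_, ?_, ?_, ?_, ?_⟩, ⟨?_, ?_, ?_, ?_, ?_, ?_, ?_⟩, ⟨?_, ?_, ?_, ?_, ?_, ?_⟩,
      ⟨?_, ?_, ?_, ?_, ?_⟩, ⟨?_, ?_, ?_, ?_⟩, ⟨?_, ?_, ?_⟩, ⟨?_, ?_⟩, ?_⟩
    all_goals first
      | exact hqq _ _ (by decide)
      | exact ha _
      | exact hx1 _ _ _ (by norm_num) (by norm_num)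
      | exact hx2 _ _ (by norm_num) (by norm_num)
      | exact hxx _ _ _ _ (by norm_num) (by norm_num) (by norm_num) (by norm_num) (by norm_num)
  have he : List.ofFn (glLab q a x) =
      [q 0, q 1, q 2, q 3, q 4, q 5, a, x 0 0, x 0 1, x 1 0, x 1 1, x 2 0, x 2 1] := by
    simp [glLab, List.ofFn_succ]
  rw [← he] at hnd
  exact List.nodup_ofFn.1 hnd

lemma gl_univ_image {κ : Type} [DecidableEq κ] (f : Fin 13 → κ) :
    Finset.univ.image f = {f 0, f 1, f 2, f 3, f 4, f 5, f 6, f 7, f 8, f 9, f 10, f 11, f 12} := by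
  ext i
  simp only [mem_image, mem_univ, true_and, mem_insert, mem_singleton]
  constructor
  · rintro ⟨k, rfl⟩
    fin_cases k <;> simp
  · rintro (h | h | h | h | h | h | h | h | h | h | h | h | h) <;> exact ⟨_, h.symm⟩

lemma gl_univ_image16 {κ : Type} [DecidableEq κ] (f : Fin 16 → κ) :
    Finset.univ.image f = {f 0, f 1, f 2, f 3, f 4, f 5, f 6, f 7, f 8, f 9, f 10, f 11, f 12,
      f 13, f 14, f 15} := by
  ext i
  simp only [mem_image, mem_univ, true_and, mem_insert, mem_singleton]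
  constructor
  · rintro ⟨k, rfl⟩
    fin_cases k <;> simp
  · rintro (h | h | h | h | h | h | h | h | h | h | h | h | h | h | h | h) <;>
      exact ⟨_, h.symm⟩

/-- The sets of labels. -/
lemma gl_image (q : Fin 6 → ι) (a : ι) (x : ℕ → ℕ → ι) :
    ((glS 0).image (glLab q a x) = insert a {q 0, q 1, q 2, q 3, q 4, q 5}) ∧
    ((glS 1).image (glLab q a x) = {q 0, q 1, q 2, q 3, q 4, q 5, x 2 0, x 2 1}) ∧
    ((glS 2).image (glLab q a x) = {q 0, q 5, x 0 0, x 0 1, a}) ∧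
    ((glS 3).image (glLab q a x) = {q 2, q 3, x 0 0, x 0 1, a}) ∧
    ((glS 4).image (glLab q a x) = {q 0, q 1, x 0 0, a}) ∧
    ((glS 5).image (glLab q a x) = {q 1, q 2, x 0 0, a}) ∧
    ((glS 6).image (glLab q a x) = {q 5, q 4, x 0 1, a}) ∧
    ((glS 7).image (glLab q a x) = {q 4, q 3, x 0 1, a}) ∧
    ((glS 8).image (glLab q a x) = {q 0, q 5, x 0 0, x 0 1, x 1 0, x 1 1}) ∧
    ((glS 9).image (glLab q a x) = {q 2, q 3, x 0 0, x 0 1, x 1 0, x 1 1}) ∧
    ((glS 10).image (glLab q a x) = {q 0, q 5, x 1 0, x 1 1, x 2 0, x 2 1}) ∧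
    ((glS 11).image (glLab q a x) = {q 2, q 3, x 1 0, x 1 1, x 2 0, x 2 1}) ∧
    ((glS 12).image (glLab q a x) = {q 1, x 0 0, x 1 0, x 2 0, q 0}) ∧
    ((glS 13).image (glLab q a x) = {q 1, x 0 0, x 1 0, x 2 0, q 2}) ∧
    ((glS 14).image (glLab q a x) = {q 4, x 0 1, x 1 1, x 2 1, q 5}) ∧
    ((glS 15).image (glLab q a x) = {q 4, x 0 1, x 1 1, x 2 1, q 3}) := by
  refine ⟨?_, ?_, ?_, ?_, ?_, ?_, ?_, ?_, ?_, ?_, ?_, ?_, ?_, ?_, ?_, ?_⟩ <;>
    simp only [glS, glLab, Finset.image_insert, Finset.image_singleton, Matrix.cons_val]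
  ext i
  simp only [mem_insert, mem_singleton]
  tauto

end

/-! ### The functionals on `E` -/

/-- The functional with the given coefficients. -/
noncomputable def glDu (e1 e2 e3 e4 e0 : E) (n : Fin 5 → ℝ) : Du :=
  n 0 • glB e1 + n 1 • glB e2 + n 2 • glB e3 + n 3 • glB e4 - n 4 • glB e0

lemma glDu_apply (e1 e2 e3 e4 e0 : E) (n : Fin 5 → ℝ) (x : E) :
    glDu e1 e2 e3 e4 e0 n x = glp n (glc e1 e2 e3 e4 e0 x) := by
  simp [glDu, glp, glc, glB_apply]
  ring

lemma glp_smul (n : Fin 5 → ℝ) (c : ℝ) (x : Fin 5 → ℝ) : glp n (c • x) = c * glp n x := by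
  simp only [glp, Pi.smul_apply, smul_eq_mul]; ring

lemma glc_smul (e1 e2 e3 e4 e0 : E) (c : ℝ) (x : E) :
    glc e1 e2 e3 e4 e0 (c • x) = c • glc e1 e2 e3 e4 e0 x := by
  ext i
  fin_cases i <;> simp [glc, gl_B_smul_left]

lemma glP_sq {s t c R : ℝ} (h : GlPar s t c R) (k : Fin 13) :
    glP s t c R k 0 ^ 2 + glP s t c R k 1 ^ 2 + glP s t c R k 2 ^ 2 + glP s t c R k 3 ^ 2 -
      glP s t c R k 4 ^ 2 = 0 := by
  have h1 := h.cc
  have h2 := h.RR
  fin_cases k <;> simp [glP] <;> linarith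

lemma glP_time (s t c R : ℝ) (k : Fin 13) : glP s t c R k 4 = 1 := by
  fin_cases k <;> rfl

lemma glv_sum (e1 e2 e3 e4 e0 : E) {a : Fin 5 → ℝ} {d : Fin 13 → ℝ} {P : Fin 13 → Fin 5 → ℝ}
    (h : ∀ j, a j = ∑ k, d k * P k j) :
    glv e1 e2 e3 e4 e0 a = ∑ k, d k • glv e1 e2 e3 e4 e0 (P k) := by
  simp only [glv, h, Finset.sum_smul, mul_smul, smul_add, Finset.sum_add_distrib]

/-- Which facet is adjacent along an edge. -/
def glM (h0 h1 h2 h3 h4 h5 : ℕ) (p : ℕ × ℕ) : Fin 16 :=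
  if p = (h0, h1) ∨ p = (h1, h0) then 4 else if p = (h1, h2) ∨ p = (h2, h1) then 5 else
  if p = (h2, h3) ∨ p = (h3, h2) then 3 else if p = (h3, h4) ∨ p = (h4, h3) then 7 else
  if p = (h4, h5) ∨ p = (h5, h4) then 6 else 2

lemma glN_side {s t c R : ℝ} (h : GlPar s t c R) (m : Fin 16) (hm : 2 ≤ m.val ∧ m.val ≤ 7) :
    0 < glN s t c R m 4 ∧ glN s t c R m 2 = -glN s t c R m 4 ∧ glN s t c R m 3 < 0 := by
  obtain ⟨hR, p1, p2, p3, p4, p5, p6, p7, p8, p9, p10, p11, p12⟩ := h.pos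
  obtain ⟨hs, h1, h2, hc, hRc, -, -⟩ := h
  fin_cases m
  · simp at hm
  · simp at hm
  · refine ⟨?_, ?_, ?_⟩ <;> simp [glN] <;> linarith
  · refine ⟨?_, ?_, ?_⟩ <;> simp [glN] <;> linarith
  · refine ⟨?_, ?_, ?_⟩ <;> simp [glN] <;> linarith
  · refine ⟨?_, ?_, ?_⟩ <;> simp [glN] <;> linarith
  · refine ⟨?_, ?_, ?_⟩ <;> simp [glN] <;> linarith
  · refine ⟨?_, ?_, ?_⟩ <;> simp [glN] <;> linarith
  all_goals simp at hm

lemma glP_hex (s t c R : ℝ) (k : Fin 13) (hk : k.val < 6) :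
    glP s t c R k 2 = 0 ∧ glP s t c R k 3 = 0 := by
  fin_cases k <;> simp at hk <;> exact ⟨rfl, rfl⟩

/-- The data of a side facet. -/
lemma gl_side {s t c R : ℝ} (h : GlPar s t c R) {e1 e2 e3 e4 e0 : E}
    (hB : GlBasis e1 e2 e3 e4 e0) {ψ : Fin 13 → E} {W : Fin 13 → ℝ}
    (hψ : ∀ k, ψ k = W k • glv e1 e2 e3 e4 e0 (glP s t c R k)) (m : Fin 16)
    (hm : 2 ≤ m.val ∧ m.val ≤ 7) (k k' : Fin 13) (hk : k.val < 6) (hk' : k'.val < 6)
    (hkm : k ∈ glS m) (hkm' : k' ∈ glS m) :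
    ∃ m' : Du, EdgeF m' (ψ k) (ψ k') e0 e3 (-e4) ∧ ∃ C : ℝ, 0 < C ∧ ∀ x,
      glDu e1 e2 e3 e4 e0 (glN s t c R m) x =
        C * (m' x - B x e3 + (-glN s t c R m 3 / glN s t c R m 4) * B x (-e4)) := by
  obtain ⟨q1, q2, q3⟩ := glN_side h m hm
  have hT := glN_table h m
  generalize glN s t c R m = N at *
  set μ : Fin 5 → ℝ := ![N 0 / N 4, N 1 / N 4, 0, 0, 1] with hμ
  have hμv : ∀ j : Fin 13, j.val < 6 → j ∈ glS m → glDu e1 e2 e3 e4 e0 μ (ψ j) = 0 := by
    intro j hj hjm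
    obtain ⟨r2, r3⟩ := glP_hex s t c R j hj
    have hv := (hT j).1 hjm
    rw [glDu_apply, hψ j, glc_smul, glc_glv hB, glp_smul]
    have : glp μ (glP s t c R j) = glp N (glP s t c R j) / N 4 := by
      simp only [glp, r2, r3, hμ, Matrix.cons_val]
      field_simp
      ring
    rw [this, hv]
    simp
  have hzero : ∀ y : E, glDu e1 e2 e3 e4 e0 μ y =
      N 0 / N 4 * B y e1 + N 1 / N 4 * B y e2 - B y e0 := by
    intro y
    rw [glDu_apply]
    simp [glp, glc, hμ]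
    ring
  have c01 := (gl_B_comm e0 e1).trans hB.b10
  have c02 := (gl_B_comm e0 e2).trans hB.b20
  have c31 := (gl_B_comm e3 e1).trans hB.b13
  have c32 := (gl_B_comm e3 e2).trans hB.b23
  have c41 := (gl_B_comm e4 e1).trans hB.b14
  have c42 := (gl_B_comm e4 e2).trans hB.b24
  refine ⟨glDu e1 e2 e3 e4 e0 μ, ⟨hμv k hk hkm, hμv k' hk' hkm', ?_, ?_, ?_⟩, N 4, q1, ?_⟩
  · rw [hzero, c01, c02, hB.b00]; ring
  · rw [hzero, c31, c32, hB.b30]; ring
  · rw [hzero, gl_B_neg_left, gl_B_neg_left, gl_B_neg_left, c41, c42, hB.b40]; ring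
  · intro y
    rw [hzero, glDu_apply, gl_B_neg_right]
    simp only [glp, glc, Matrix.cons_val, q2]
    field_simp
    ring

section

variable {ι : Type} [DecidableEq ι]

/-- The port of the leaf. -/
lemma gl_port {n : ℕ} {s t c R : ℝ} (h : GlPar s t c R) {e1 e2 e3 e4 e0 : E}
    (hB : GlBasis e1 e2 e3 e4 e0) {ψ : Fin 13 → E} {W : Fin 13 → ℝ}
    (hψ : ∀ k, ψ k = W k • glv e1 e2 e3 e4 e0 (glP s t c R k))
    {lab : Fin 13 → ι} (hl : Function.Injective lab) {φ2 : ι → E} {N2 : Finset ι → Du}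
    (hφ : ∀ k, φ2 (lab k) = ψ k)
    (hN : ∀ m, N2 ((glS m).image lab) = glDu e1 e2 e3 e4 e0 (glN s t c R m))
    {h0 h1 h2 h3 h4 h5 : ℕ} (hOK : HexOK n [h0, h1, h2, h3, h4, h5]) {pl : ℕ → ι}
    (p0 : pl h0 = lab 0) (p1 : pl h1 = lab 1) (p2 : pl h2 = lab 2) (p3 : pl h3 = lab 3)
    (p4 : pl h4 = lab 4) (p5 : pl h5 = lab 5)
    (hpF : pF ([h0, h1, h2, h3, h4, h5] : List ℕ).toFinset pl (lab 6) = (glS 0).image lab)
    (hinj : Set.InjOn pl ([h0, h1, h2, h3, h4, h5] : List ℕ).toFinset)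
    {ω : E → E → E → ℝ} (hF : Frame e0 e3 e4) (hT : Tri ω e3 e4)
    (hC : Cyc (fun j => φ2 (pl j)) ([h0, h1, h2, h3, h4, h5] : List ℕ).toFinset ω e3 e4)
    (hI : IntC (fun j => φ2 (pl j)) ([h0, h1, h2, h3, h4, h5] : List ℕ).toFinset e0)
    (hap : ∃ c : ℝ, 0 < c ∧ φ2 (lab 6) = c • (e0 + e3)) :
    ∃ κ2 : ℕ × ℕ → ℝ, Port (Finset.univ.image fun m => (glS m).image lab) φ2 N2
      ([h0, h1, h2, h3, h4, h5] : List ℕ).toFinset ([h0, h1, h2, h3, h4, h5] : List ℕ).toFinset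
      pl (lab 6) e0 e3 (-e4) ω (-1) κ2 ∧ ∀ p, 0 < κ2 p := by
  obtain ⟨hnd, hEd, hEd01, hEd12, hEd23, hEd34, hEd45, hEd50⟩ := hexEd hOK
  have hne : ∀ m : Fin 16, m ≠ 0 → (glS m).image lab ≠ (glS 0).image lab := fun m hm he =>
    hm (glS_inj (Finset.image_injective hl he))
  have hmm : ∀ m : Fin 16, (glS m).image lab ∈
      (Finset.univ.image fun m => (glS m).image lab) := fun m =>
    Finset.mem_image_of_mem _ (Finset.mem_univ m)
  have hκpos : ∀ m : Fin 16, 2 ≤ m.val ∧ m.val ≤ 7 →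
      0 < -glN s t c R m 3 / glN s t c R m 4 := fun m hm => by
    obtain ⟨q1, q2, q3⟩ := glN_side h m hm
    exact div_pos (by linarith) q1
  have hMrange : ∀ p, 2 ≤ (glM h0 h1 h2 h3 h4 h5 p).val ∧ (glM h0 h1 h2 h3 h4 h5 p).val ≤ 7 := by
    intro p
    unfold glM
    split_ifs <;> decide
  simp only [List.nodup_cons, List.mem_cons, List.not_mem_nil, or_false, not_or,
    not_false_eq_true, List.nodup_nil, and_true] at hnd
  obtain ⟨⟨d01, d02, d03, d04, d05⟩, ⟨d12, d13, d14, d15⟩, ⟨d23, d24, d25⟩, ⟨d34, d35⟩, d45⟩ := hnd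
  have M01 : glM h0 h1 h2 h3 h4 h5 (h0, h1) = 4 ∧ glM h0 h1 h2 h3 h4 h5 (h1, h0) = 4 := by
    constructor <;> simp [glM]
  have M12 : glM h0 h1 h2 h3 h4 h5 (h1, h2) = 5 ∧ glM h0 h1 h2 h3 h4 h5 (h2, h1) = 5 := by
    constructor <;> simp [glM, d01, Ne.symm d01, d02, Ne.symm d02]
  have M23 : glM h0 h1 h2 h3 h4 h5 (h2, h3) = 3 ∧ glM h0 h1 h2 h3 h4 h5 (h3, h2) = 3 := by
    constructor <;> simp [glM, Ne.symm d01, Ne.symm d02, Ne.symm d03, Ne.symm d12, Ne.symm d13]
  have M34 : glM h0 h1 h2 h3 h4 h5 (h3, h4) = 7 ∧ glM h0 h1 h2 h3 h4 h5 (h4, h3) = 7 := by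
    constructor <;>
      simp [glM, Ne.symm d03, Ne.symm d04, Ne.symm d13, Ne.symm d14, Ne.symm d23, Ne.symm d24]
  have M45 : glM h0 h1 h2 h3 h4 h5 (h4, h5) = 6 ∧ glM h0 h1 h2 h3 h4 h5 (h5, h4) = 6 := by
    constructor <;>
      simp [glM, Ne.symm d04, Ne.symm d05, Ne.symm d14, Ne.symm d15, Ne.symm d24, Ne.symm d25,
        Ne.symm d34, Ne.symm d35]
  have M50 : glM h0 h1 h2 h3 h4 h5 (h5, h0) = 2 ∧ glM h0 h1 h2 h3 h4 h5 (h0, h5) = 2 := by
    constructor <;>
      simp [glM, d01, d02, d03, d04, Ne.symm d04, Ne.symm d05, Ne.symm d14, Ne.symm d15,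
        Ne.symm d24, Ne.symm d25, Ne.symm d34, Ne.symm d35, Ne.symm d45, Ne.symm d01]
  -- side data
  have hside : ∀ (m : Fin 16) (k k' : Fin 13), 2 ≤ m.val ∧ m.val ≤ 7 → k.val < 6 → k'.val < 6 →
      k ∈ glS m → k' ∈ glS m → ∃ m' : Du, EdgeF m' (φ2 (lab k)) (φ2 (lab k')) e0 e3 (-e4) ∧
      ∃ C : ℝ, 0 < C ∧ ∀ x, N2 ((glS m).image lab) x =
        C * (m' x - B x e3 + (-glN s t c R m 3 / glN s t c R m 4) * B x (-e4)) := by
    intro m k k' hm hk hk' hkm hkm'
    rw [hφ, hφ, hN]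
    exact gl_side h hB hψ m hm k k' hk hk' hkm hkm'
  have hml : ∀ (m : Fin 16) (k : Fin 13), k ∈ glS m → lab k ∈ (glS m).image lab :=
    fun m k hk => Finset.mem_image_of_mem _ hk
  have hF' : Frame e0 e3 (-e4) := by
    refine ⟨hF.n0, hF.n3, ?_, hF.o03, ?_, ?_, hF.fut⟩
    · rw [gl_B_neg_left, gl_B_neg_right, hF.n4]; ring
    · rw [gl_B_neg_right, hF.o04]; ring
    · rw [gl_B_neg_right, hF.o34]; ring
  have hInPl : ∀ x, InPl e3 (-e4) x ↔ InPl e3 e4 x := by
    intro x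
    unfold InPl
    rw [gl_B_neg_right, neg_eq_zero]
  have hT' : Tri ω e3 (-e4) := by
    refine ⟨hT.add, hT.smul, hT.rot, hT.swap, hT.z3, ?_, ?_⟩
    · intro y z
      have := hT.smul (-1) e4 y z
      rw [hT.z4, neg_one_smul] at this
      rw [this]; ring
    · intro x y z w hx hy hz hw
      exact hT.cramer x y z w ((hInPl x).1 hx) ((hInPl y).1 hy) ((hInPl z).1 hz)
        ((hInPl w).1 hw)
  have hcard : ([h0, h1, h2, h3, h4, h5] : List ℕ).toFinset.card = 6 := by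
    rw [List.toFinset_card_of_nodup]
    · rfl
    · simp only [List.nodup_cons, List.mem_cons, List.not_mem_nil, or_false, not_or,
        not_false_eq_true, List.nodup_nil, and_true]
      exact ⟨⟨d01, d02, d03, d04, d05⟩, ⟨d12, d13, d14, d15⟩, ⟨d23, d24, d25⟩, ⟨d34, d35⟩, d45⟩
  refine ⟨fun p => -glN s t c R (glM h0 h1 h2 h3 h4 h5 p) 3 /
    glN s t c R (glM h0 h1 h2 h3 h4 h5 p) 4, ?_, fun p => hκpos _ (hMrange p)⟩
  refine
    { frame := hF'
      tri := hT'
      cyc := ⟨hC.light, fun j hj => (hInPl _).2 (hC.inpl j hj), hC.pos⟩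
      sub := le_rfl
      card := by rw [hcard]; norm_num
      int := hI
      inj := hinj
      apn := ?_
      mem := by rw [hpF]; exact hmm 0
      apex := hap
      nF := ?_
      spine := ?_
      side := ?_
      nonadj := ?_ }
  · -- apn
    intro hmem
    obtain ⟨j, hj, hj'⟩ := Finset.mem_image.1 hmem
    have : j = h0 ∨ j = h1 ∨ j = h2 ∨ j = h3 ∨ j = h4 ∨ j = h5 := by simpa using hj
    rcases this with rfl | rfl | rfl | rfl | rfl | rfl
    · rw [p0] at hj'; exact absurd (hl hj') (by decide)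
    · rw [p1] at hj'; exact absurd (hl hj') (by decide)
    · rw [p2] at hj'; exact absurd (hl hj') (by decide)
    · rw [p3] at hj'; exact absurd (hl hj') (by decide)
    · rw [p4] at hj'; exact absurd (hl hj') (by decide)
    · rw [p5] at hj'; exact absurd (hl hj') (by decide)
  · -- nF
    refine ⟨1, one_pos, fun y => ?_⟩
    rw [hpF, hN, glDu_apply, gl_B_neg_right]
    simp [glp, glN, glc]
  · -- spine
    refine ⟨(glS 1).image lab, hmm 1, by rw [hpF]; exact hne 1 (by decide), ?_, 1, one_pos, ?_⟩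
    · intro i hi
      obtain ⟨j, hj, rfl⟩ := Finset.mem_image.1 hi
      have : j = h0 ∨ j = h1 ∨ j = h2 ∨ j = h3 ∨ j = h4 ∨ j = h5 := by simpa using hj
      rcases this with rfl | rfl | rfl | rfl | rfl | rfl
      · rw [p0]; exact hml 1 0 (by decide)
      · rw [p1]; exact hml 1 1 (by decide)
      · rw [p2]; exact hml 1 2 (by decide)
      · rw [p3]; exact hml 1 3 (by decide)
      · rw [p4]; exact hml 1 4 (by decide)
      · rw [p5]; exact hml 1 5 (by decide)
    · intro y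
      rw [hN, glDu_apply, gl_B_neg_right]
      simp [glp, glN, glc]
  · -- side
    intro p hp
    rcases hEd p hp with (rfl | rfl) | (rfl | rfl) | (rfl | rfl) | (rfl | rfl) | (rfl | rfl) |
      (rfl | rfl)
    · refine ⟨(glS 4).image lab, hmm 4, by rw [hpF]; exact hne 4 (by decide), hml 4 6 (by decide),
        by rw [p0]; exact hml 4 0 (by decide), by rw [p1]; exact hml 4 1 (by decide), ?_⟩
      simp only [M01.1, p0, p1]
      exact hside 4 0 1 (by decide) (by decide) (by decide) (by decide) (by decide)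
    · refine ⟨(glS 4).image lab, hmm 4, by rw [hpF]; exact hne 4 (by decide), hml 4 6 (by decide),
        by rw [p1]; exact hml 4 1 (by decide), by rw [p0]; exact hml 4 0 (by decide), ?_⟩
      simp only [M01.2, p0, p1]
      exact hside 4 1 0 (by decide) (by decide) (by decide) (by decide) (by decide)
    · refine ⟨(glS 5).image lab, hmm 5, by rw [hpF]; exact hne 5 (by decide), hml 5 6 (by decide),
        by rw [p1]; exact hml 5 1 (by decide), by rw [p2]; exact hml 5 2 (by decide), ?_⟩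
      simp only [M12.1, p1, p2]
      exact hside 5 1 2 (by decide) (by decide) (by decide) (by decide) (by decide)
    · refine ⟨(glS 5).image lab, hmm 5, by rw [hpF]; exact hne 5 (by decide), hml 5 6 (by decide),
        by rw [p2]; exact hml 5 2 (by decide), by rw [p1]; exact hml 5 1 (by decide), ?_⟩
      simp only [M12.2, p1, p2]
      exact hside 5 2 1 (by decide) (by decide) (by decide) (by decide) (by decide)
    · refine ⟨(glS 3).image lab, hmm 3, by rw [hpF]; exact hne 3 (by decide), hml 3 6 (by decide),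
        by rw [p2]; exact hml 3 2 (by decide), by rw [p3]; exact hml 3 3 (by decide), ?_⟩
      simp only [M23.1, p2, p3]
      exact hside 3 2 3 (by decide) (by decide) (by decide) (by decide) (by decide)
    · refine ⟨(glS 3).image lab, hmm 3, by rw [hpF]; exact hne 3 (by decide), hml 3 6 (by decide),
        by rw [p3]; exact hml 3 3 (by decide), by rw [p2]; exact hml 3 2 (by decide), ?_⟩
      simp only [M23.2, p2, p3]
      exact hside 3 3 2 (by decide) (by decide) (by decide) (by decide) (by decide)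
    · refine ⟨(glS 7).image lab, hmm 7, by rw [hpF]; exact hne 7 (by decide), hml 7 6 (by decide),
        by rw [p3]; exact hml 7 3 (by decide), by rw [p4]; exact hml 7 4 (by decide), ?_⟩
      simp only [M34.1, p3, p4]
      exact hside 7 3 4 (by decide) (by decide) (by decide) (by decide) (by decide)
    · refine ⟨(glS 7).image lab, hmm 7, by rw [hpF]; exact hne 7 (by decide), hml 7 6 (by decide),
        by rw [p4]; exact hml 7 4 (by decide), by rw [p3]; exact hml 7 3 (by decide), ?_⟩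
      simp only [M34.2, p3, p4]
      exact hside 7 4 3 (by decide) (by decide) (by decide) (by decide) (by decide)
    · refine ⟨(glS 6).image lab, hmm 6, by rw [hpF]; exact hne 6 (by decide), hml 6 6 (by decide),
        by rw [p4]; exact hml 6 4 (by decide), by rw [p5]; exact hml 6 5 (by decide), ?_⟩
      simp only [M45.1, p4, p5]
      exact hside 6 4 5 (by decide) (by decide) (by decide) (by decide) (by decide)
    · refine ⟨(glS 6).image lab, hmm 6, by rw [hpF]; exact hne 6 (by decide), hml 6 6 (by decide),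
        by rw [p5]; exact hml 6 5 (by decide), by rw [p4]; exact hml 6 4 (by decide), ?_⟩
      simp only [M45.2, p4, p5]
      exact hside 6 5 4 (by decide) (by decide) (by decide) (by decide) (by decide)
    · refine ⟨(glS 2).image lab, hmm 2, by rw [hpF]; exact hne 2 (by decide), hml 2 6 (by decide),
        by rw [p5]; exact hml 2 5 (by decide), by rw [p0]; exact hml 2 0 (by decide), ?_⟩
      simp only [M50.1, p0, p5]
      exact hside 2 5 0 (by decide) (by decide) (by decide) (by decide) (by decide)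
    · refine ⟨(glS 2).image lab, hmm 2, by rw [hpF]; exact hne 2 (by decide), hml 2 6 (by decide),
        by rw [p0]; exact hml 2 0 (by decide), by rw [p5]; exact hml 2 5 (by decide), ?_⟩
      simp only [M50.2, p0, p5]
      exact hside 2 0 5 (by decide) (by decide) (by decide) (by decide) (by decide)
  · -- nonadj
    have hsidee : ∀ (m : Fin 16) (u v : ℕ) (k k' : Fin 13), 2 ≤ m.val ∧ m.val ≤ 7 → k.val < 6 →
        k'.val < 6 → k ∈ glS m → k' ∈ glS m → pl u = lab k → pl v = lab k' →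
        glM h0 h1 h2 h3 h4 h5 (u, v) = m → glM h0 h1 h2 h3 h4 h5 (v, u) = m →
        ((u, v) ∈ Ed ([h0, h1, h2, h3, h4, h5] : List ℕ).toFinset ∨
          (v, u) ∈ Ed ([h0, h1, h2, h3, h4, h5] : List ℕ).toFinset) →
        ∃ p ∈ Ed ([h0, h1, h2, h3, h4, h5] : List ℕ).toFinset, ∃ m' : Du,
          EdgeF m' (φ2 (pl p.1)) (φ2 (pl p.2)) e0 e3 (-e4) ∧
          ∃ C : ℝ, 0 < C ∧ ∀ x, N2 ((glS m).image lab) x =
            C * (m' x - B x e3 + (-glN s t c R (glM h0 h1 h2 h3 h4 h5 p) 3 /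
              glN s t c R (glM h0 h1 h2 h3 h4 h5 p) 4) * B x (-e4)) := by
      intro m u v k k' hm hk hk' hkm hkm' hu hv e1 e2 hor
      rcases hor with ho | ho
      · refine ⟨(u, v), ho, ?_⟩
        simp only [e1, hu, hv]
        exact hside m k k' hm hk hk' hkm hkm'
      · refine ⟨(v, u), ho, ?_⟩
        simp only [e2, hu, hv]
        exact hside m k' k hm hk' hk hkm' hkm
    have hfar : ∀ m m' : Fin 16, m' ≠ 0 → m' ≠ m → glS 0 ∩ glS m ⊆ glS m' →
        ∃ k ∈ (Finset.univ.image fun m => (glS m).image lab),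
          k ≠ pF ([h0, h1, h2, h3, h4, h5] : List ℕ).toFinset pl (lab 6) ∧
          k ≠ (glS m).image lab ∧
          pF ([h0, h1, h2, h3, h4, h5] : List ℕ).toFinset pl (lab 6) ∩ (glS m).image lab ⊆ k := by
      intro m m' hm' hmm' hsub
      refine ⟨(glS m').image lab, hmm m', by rw [hpF]; exact hne m' hm',
        fun he => hmm' (glS_inj (Finset.image_injective hl he)), ?_⟩
      rw [hpF, ← Finset.image_inter _ _ hl]
      exact Finset.image_subset_image hsub
    intro f hf hfne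
    obtain ⟨m, -, rfl⟩ := Finset.mem_image.1 hf
    rw [hpF] at hfne
    have hm0 : m ≠ 0 := fun hm => hfne (by rw [hm])
    clear hf hfne
    fin_cases m
    · exact absurd rfl hm0
    · left
      refine ⟨1, one_pos, fun y => ?_⟩
      have := hN 1
      change N2 ((glS 1).image lab) y = _
      rw [this, glDu_apply, gl_B_neg_right]
      simp [glp, glN, glc]
    · right; left
      exact hsidee 2 h5 h0 5 0 (by decide) (by decide) (by decide) (by decide) (by decide) p5 p0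
        M50.1 M50.2 hEd50
    · right; left
      exact hsidee 3 h2 h3 2 3 (by decide) (by decide) (by decide) (by decide) (by decide) p2 p3
        M23.1 M23.2 hEd23
    · right; left
      exact hsidee 4 h0 h1 0 1 (by decide) (by decide) (by decide) (by decide) (by decide) p0 p1
        M01.1 M01.2 hEd01
    · right; left
      exact hsidee 5 h1 h2 1 2 (by decide) (by decide) (by decide) (by decide) (by decide) p1 p2
        M12.1 M12.2 hEd12
    · right; left
      exact hsidee 6 h4 h5 4 5 (by decide) (by decide) (by decide) (by decide) (by decide) p4 p5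
        M45.1 M45.2 hEd45
    · right; left
      exact hsidee 7 h3 h4 3 4 (by decide) (by decide) (by decide) (by decide) (by decide) p3 p4
        M34.1 M34.2 hEd34
    · right; right
      exact hfar 8 2 (by decide) (by decide) (by decide)
    · right; right
      exact hfar 9 3 (by decide) (by decide) (by decide)
    · right; right
      exact hfar 10 2 (by decide) (by decide) (by decide)
    · right; right
      exact hfar 11 3 (by decide) (by decide) (by decide)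
    · right; right
      exact hfar 12 4 (by decide) (by decide) (by decide)
    · right; right
      exact hfar 13 5 (by decide) (by decide) (by decide)
    · right; right
      exact hfar 14 6 (by decide) (by decide) (by decide)
    · right; right
      exact hfar 15 7 (by decide) (by decide) (by decide)

end

section

variable {ι : Type} [DecidableEq ι]

lemma gl_pF (q : Fin 6 → ι) (a : ι) (x : ℕ → ℕ → ι) (h0 h1 h2 h3 h4 h5 : ℕ) (pl : ℕ → ι)
    (hq : q = ![pl h0, pl h1, pl h2, pl h3, pl h4, pl h5]) :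
    pF ([h0, h1, h2, h3, h4, h5] : List ℕ).toFinset pl a = (glS 0).image (glLab q a x) := by
  rw [(gl_image q a x).1]
  unfold pF
  congr 1
  ext i
  simp [hq]

lemma gl_V (q : Fin 6 → ι) (a : ι) (x : ℕ → ℕ → ι) (h0 h1 h2 h3 h4 h5 : ℕ) (pl : ℕ → ι)
    (hq : q = ![pl h0, pl h1, pl h2, pl h3, pl h4, pl h5]) :
    VL [h0, h1, h2, h3, h4, h5] pl a x = Finset.univ.image (glLab q a x) := by
  unfold VL
  rw [gl_pF q a x h0 h1 h2 h3 h4 h5 pl hq, gl_univ_image, (gl_image q a x).1]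
  ext i
  simp only [glLab, mem_union, mem_insert, mem_singleton, Matrix.cons_val]
  tauto

lemma gl_F (q : Fin 6 → ι) (a : ι) (x : ℕ → ℕ → ι) (h0 h1 h2 h3 h4 h5 : ℕ) (pl : ℕ → ι)
    (hq : q = ![pl h0, pl h1, pl h2, pl h3, pl h4, pl h5]) :
    insert (pF ([h0, h1, h2, h3, h4, h5] : List ℕ).toFinset pl a)
      (FL (fun i => pl (([h0, h1, h2, h3, h4, h5] : List ℕ).getD i 0)) a x) =
      Finset.univ.image fun m => (glS m).image (glLab q a x) := by
  obtain ⟨i0, i1, i2, i3, i4, i5, i6, i7, i8, i9, i10, i11, i12, i13, i14, i15⟩ := gl_image q a x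
  rw [gl_univ_image16, gl_pF q a x h0 h1 h2 h3 h4 h5 pl hq, i0, i1, i2, i3, i4, i5, i6, i7, i8,
    i9, i10, i11, i12, i13, i14, i15]
  subst hq
  rfl

end

lemma glv_apply (e1 e2 e3 e4 e0 : E) (a : Fin 5 → ℝ) :
    glv e1 e2 e3 e4 e0 a = a 0 • e1 + a 1 • e2 + a 2 • e3 + a 3 • e4 + a 4 • e0 := rfl

/-- The leaf gadget. -/
theorem claimL : ClaimL := by
  intro ι _ n h pl a x φ e0 e3 e4 ω hOK hF hT hC hI hSym hap hinj hna hx1 hx2
  obtain ⟨h0, h1, h2, h3, h4, h5, rfl⟩ : ∃ h0 h1 h2 h3 h4 h5, h = [h0, h1, h2, h3, h4, h5] := by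
    have hlen := hOK.1
    match h, hlen with
    | [a, b, c, d, e, f], _ => exact ⟨a, b, c, d, e, f, rfl⟩
  obtain ⟨hnd, -⟩ := hexEd hOK
  obtain ⟨e1, e2, s, t, w, b11, b22, b12, b01, b02, hs, hs1, ht1, ht2, hw, g0, g5, g1, g4, g2, g3⟩
    := hSym
  simp only [List.getD_cons_zero, List.getD_cons_succ] at g0 g5 g1 g4 g2 g3
  have hmem : ∀ j, j ∈ ([h0, h1, h2, h3, h4, h5] : List ℕ).toFinset ↔
      j = h0 ∨ j = h1 ∨ j = h2 ∨ j = h3 ∨ j = h4 ∨ j = h5 := fun j => by simp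
  obtain ⟨ca, hca, hφa⟩ := hap
  -- parameters
  obtain ⟨c, hc⟩ : ∃ c, c = √(1 - s ^ 2) := ⟨_, rfl⟩
  obtain ⟨R, hR⟩ : ∃ R, R = √(1 - t ^ 2) := ⟨_, rfl⟩
  rw [← hc] at g0 g5 g2 g3
  rw [← hR] at g1 g4
  have hs2 : 0 < 1 - s ^ 2 := by nlinarith
  have ht2' : t ^ 2 < s ^ 2 := by nlinarith
  have hpar : GlPar s t c R := by
    refine ⟨hs, by linarith, by linarith, by rw [hc]; exact Real.sqrt_pos.2 hs2, ?_,
      by rw [hc]; exact Real.sq_sqrt hs2.le, by rw [hR]; exact Real.sq_sqrt (by nlinarith)⟩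
    have : c < R := by rw [hc, hR]; exact Real.sqrt_lt_sqrt hs2.le (by linarith)
    linarith
  -- the basis
  have hperp : ∀ e : E, B e0 e = 0 → B (φ (pl h0)) e = 0 → B (φ (pl h5)) e = 0 →
      B e1 e = 0 ∧ B e2 e = 0 := by
    intro e h00 k0 k5
    rw [g0, gl_B_smul_left] at k0
    rw [g5, gl_B_smul_left] at k5
    have k0' := (mul_eq_zero.1 k0).resolve_left (hw 0).ne'
    have k5' := (mul_eq_zero.1 k5).resolve_left (hw 5).ne'
    simp only [sub_eq_add_neg, gl_B_add_left, gl_B_neg_left, gl_B_smul_left, h00] at k0' k5'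
    have hcc := hpar.hc
    constructor
    · have : c * B e1 e = 0 := by linarith
      exact (mul_eq_zero.1 this).resolve_left hcc.ne'
    · have : s * B e2 e = 0 := by linarith
      exact (mul_eq_zero.1 this).resolve_left hs.ne'
  have hin0 := hC.inpl h0 ((hmem _).2 (by simp))
  have hin5 := hC.inpl h5 ((hmem _).2 (by simp))
  obtain ⟨b13, b23⟩ := hperp e3 hF.o03 hin0.1 hin5.1
  obtain ⟨b14, b24⟩ := hperp e4 hF.o04 hin0.2 hin5.2
  have hB : GlBasis e1 e2 e3 e4 e0 :=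
    ⟨b11, b22, hF.n3, hF.n4, hF.n0, b12, b13, b14, (gl_B_comm _ _).trans b01, b23, b24,
      (gl_B_comm _ _).trans b02, hF.o34, (gl_B_comm _ _).trans hF.o03,
      (gl_B_comm _ _).trans hF.o04⟩
  -- vertices and normals
  obtain ⟨W, hW⟩ : ∃ W : Fin 13 → ℝ, W = ![w 0, w 1, w 2, w 3, w 4, w 5, ca, 1, 1, 1, 1, 1, 1] :=
    ⟨_, rfl⟩
  have hWpos : ∀ k, 0 < W k := by
    intro k
    fin_cases k <;> simp [hW, hw, hca]
  obtain ⟨ψ, hψ⟩ : ∃ ψ : Fin 13 → E, ∀ k, ψ k = W k • glv e1 e2 e3 e4 e0 (glP s t c R k) :=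
    ⟨_, fun _ => rfl⟩
  obtain ⟨nn, hnn⟩ : ∃ nn : Fin 16 → Du, ∀ m, nn m = glDu e1 e2 e3 e4 e0 (glN s t c R m) :=
    ⟨_, fun _ => rfl⟩
  have hval : ∀ m k, nn m (ψ k) = W k * glp (glN s t c R m) (glP s t c R k) := by
    intro m k
    rw [hnn, hψ, glDu_apply, glc_smul, glc_glv hB, glp_smul]
  have hlight : ∀ k, Light (ψ k) := by
    intro k
    have hsq : B (glv e1 e2 e3 e4 e0 (glP s t c R k)) (glv e1 e2 e3 e4 e0 (glP s t c R k)) = 0 := by
      rw [glv_sq hB]; exact glP_sq hpar k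
    rw [hψ]
    constructor
    · rw [gl_B_smul_left, gl_B_smul_right, hsq]; ring
    · simp only [Pi.smul_apply, smul_eq_mul]
      refine mul_pos (hWpos k) (gl_future hF.n0 hF.fut hsq ?_)
      have h4 := congrFun (glc_glv hB (glP s t c R k)) 4
      rw [glP_time] at h4
      simp only [glc, Matrix.cons_val] at h4
      linarith
  have hreal0 : ∀ y, (∀ m, 0 ≤ nn m y) → ∃ d : Fin 13 → ℝ, (∀ k, 0 ≤ d k) ∧
      y = ∑ k, d k • ψ k := by
    intro y hy
    obtain ⟨d, hd, hd'⟩ := gl_cone hpar (x := glc e1 e2 e3 e4 e0 y) fun m => by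
      have := hy m
      rwa [hnn, glDu_apply] at this
    refine ⟨fun k => d k / W k, fun k => div_nonneg (hd k) (hWpos k).le, ?_⟩
    conv_lhs => rw [← glv_glc hB y]
    rw [glv_sum e1 e2 e3 e4 e0 hd']
    refine Finset.sum_congr rfl fun k _ => ?_
    rw [hψ, smul_smul, div_mul_cancel₀ _ (hWpos k).ne']
  -- the given vectors
  have v0 : φ (pl h0) = ψ 0 := by
    rw [g0, hψ, glv_apply]
    simp only [hW, glP, Matrix.cons_val]
    module
  have v1 : φ (pl h1) = ψ 1 := by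
    rw [g1, hψ, glv_apply]
    simp only [hW, glP, Matrix.cons_val]
    module
  have v2 : φ (pl h2) = ψ 2 := by
    rw [g2, hψ, glv_apply]
    simp only [hW, glP, Matrix.cons_val]
    module
  have v3 : φ (pl h3) = ψ 3 := by
    rw [g3, hψ, glv_apply]
    simp only [hW, glP, Matrix.cons_val]
    module
  have v4 : φ (pl h4) = ψ 4 := by
    rw [g4, hψ, glv_apply]
    simp only [hW, glP, Matrix.cons_val]
    module
  have v5 : φ (pl h5) = ψ 5 := by
    rw [g5, hψ, glv_apply]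
    simp only [hW, glP, Matrix.cons_val]
    module
  have v6 : φ a = ψ 6 := by
    rw [hφa, hψ, glv_apply]
    simp only [hW, glP, Matrix.cons_val]
    module
  -- labels
  obtain ⟨q, hq⟩ : ∃ q : Fin 6 → ι, q = ![pl h0, pl h1, pl h2, pl h3, pl h4, pl h5] := ⟨_, rfl⟩
  have hmemS : ∀ i, q i ∈ ([h0, h1, h2, h3, h4, h5] : List ℕ).toFinset.image pl := by
    intro i
    rw [hq]
    fin_cases i <;> exact Finset.mem_image_of_mem _ ((hmem _).2 (by simp))
  have hqinj : Function.Injective q := by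
    have r1 : (([h0, h1, h2, h3, h4, h5] : List ℕ).map pl).Nodup := by
      refine List.Nodup.map_on ?_ hnd
      intro i hi j hj hij
      exact hinj (by simpa using hi) (by simpa using hj) hij
    have r2 : List.ofFn q = ([h0, h1, h2, h3, h4, h5] : List ℕ).map pl := by
      simp [hq, List.ofFn_succ]
    rw [← r2] at r1
    exact List.nodup_ofFn.1 r1
  have hl : Function.Injective (glLab q a x) := by
    refine glLab_inj hqinj ?_ ?_ ?_ hx2
    · intro i hi
      exact hna (hi ▸ hmemS i)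
    · intro i j k hi hj hk
      exact hx1 i j hi hj (hk ▸ Finset.mem_insert_of_mem (hmemS k))
    · intro i j hi hj hk
      exact hx1 i j hi hj (hk ▸ Finset.mem_insert_self _ _)
  have hreal := gl_real (n := nn) hl hlight
    (fun m k hk => by rw [hval, (glN_table hpar m k).1 hk, mul_zero])
    (fun m k hk => by rw [hval]; exact mul_pos (hWpos k) ((glN_table hpar m k).2 hk)) hreal0
  have hpF := gl_pF q a x h0 h1 h2 h3 h4 h5 pl hq
  have hV := gl_V q a x h0 h1 h2 h3 h4 h5 pl hq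
  have hFF := gl_F q a x h0 h1 h2 h3 h4 h5 pl hq
  have l0 : pl h0 = glLab q a x 0 := by rw [hq]; rfl
  have l1 : pl h1 = glLab q a x 1 := by rw [hq]; rfl
  have l2 : pl h2 = glLab q a x 2 := by rw [hq]; rfl
  have l3 : pl h3 = glLab q a x 3 := by rw [hq]; rfl
  have l4 : pl h4 = glLab q a x 4 := by rw [hq]; rfl
  have l5 : pl h5 = glLab q a x 5 := by rw [hq]; rfl
  have l6 : a = glLab q a x 6 := rfl
  obtain ⟨lab, hlab⟩ : ∃ lab, lab = glLab q a x := ⟨_, rfl⟩
  rw [← hlab] at hl hreal hpF hV hFF l0 l1 l2 l3 l4 l5 l6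
  have hφ2 := glφ_lab hl ψ
  have hN2 := glNN_lab hl nn
  obtain ⟨φ2, hφ2d⟩ : ∃ φ2, φ2 = glφ lab ψ := ⟨_, rfl⟩
  obtain ⟨N2, hN2d⟩ : ∃ N2, N2 = glNN lab nn := ⟨_, rfl⟩
  rw [← hφ2d] at hφ2 hreal
  rw [← hN2d] at hN2 hreal
  have u0 : φ2 (pl h0) = φ (pl h0) := by rw [v0, l0, hφ2]
  have u1 : φ2 (pl h1) = φ (pl h1) := by rw [v1, l1, hφ2]
  have u2 : φ2 (pl h2) = φ (pl h2) := by rw [v2, l2, hφ2]
  have u3 : φ2 (pl h3) = φ (pl h3) := by rw [v3, l3, hφ2]
  have u4 : φ2 (pl h4) = φ (pl h4) := by rw [v4, l4, hφ2]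
  have u5 : φ2 (pl h5) = φ (pl h5) := by rw [v5, l5, hφ2]
  have u6 : φ2 a = φ a := by
    rw [v6]
    have := hφ2 6
    rwa [← l6] at this
  have hag : ∀ j ∈ ([h0, h1, h2, h3, h4, h5] : List ℕ).toFinset, φ2 (pl j) = φ (pl j) := by
    intro j hj
    rcases (hmem j).1 hj with rfl | rfl | rfl | rfl | rfl | rfl <;> assumption
  obtain ⟨κ2, hport, hκ2⟩ := gl_port (W := W) (N2 := N2) hpar hB hψ hl hφ2
    (fun m => by rw [hN2, hnn]) hOK l0 l1 l2 l3 l4 l5 (by rw [← l6]; exact hpF) hinj hF hT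
    (ω := ω)
    ⟨fun j hj => by rw [hag j hj]; exact hC.light j hj,
      fun j hj => by rw [hag j hj]; exact hC.inpl j hj,
      fun i hi j hj k hk hij hjk => by
        rw [hag i hi, hag j hj, hag k hk]; exact hC.pos i hi j hj k hk hij hjk⟩
    (by
      obtain ⟨cc, hcc, hsum⟩ := hI
      refine ⟨cc, hcc, hsum.trans (Finset.sum_congr rfl fun j hj => ?_)⟩
      dsimp only
      rw [hag j hj])
    (by rw [← l6, u6]; exact ⟨ca, hca, hφa⟩)
  rw [← l6] at hport
  refine ⟨φ2, N2, κ2, ?_, ?_, ?_, fun p _ => hκ2 p⟩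
  · rw [hV, hFF]; exact hreal
  · intro v hv
    rcases Finset.mem_insert.1 hv with rfl | hv
    · exact u6
    · obtain ⟨j, hj, rfl⟩ := Finset.mem_image.1 hv
      exact hag j hj
  · rw [hFF]; exact hport

end Pool.Agent.Work.MP_5b14b0_lc
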