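import Pool.Agent.Work.MP_5b14b0_lc.Geo

/-!
# Gluing of two polytopes along complementary ports
-/

set_option autoImplicit false

namespace Pool.Agent.Work.MP_5b14b0_lc

open Finset

/-! ### Convex geometry of one cone -/

section One

variable {ι : Type} {V : Finset ι} {𝓕 : Finset (Finset ι)} {φ : ι → E} {N : Finset ι → Du}

theorem glue_rank (hR : Real V 𝓕 φ N) {f h : Finset ι} (hf : f ∈ 𝓕) (hh : h ∈ 𝓕)
    (hsub : f ⊆ h) : f = h := by
  have hle : Submodule.span ℝ (φ '' (f : Set ι)) ≤ Submodule.span ℝ (φ '' (h : Set ι)) :=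
    Submodule.span_mono (Set.image_mono (Finset.coe_subset.2 hsub))
  have heq := Submodule.eq_of_le_of_finrank_eq hle ((hR.rank f hf).trans (hR.rank h hh).symm)
  have hker : Submodule.span ℝ (φ '' (f : Set ι)) ≤ LinearMap.ker (N f) := by
    rw [Submodule.span_le]
    rintro _ ⟨v, hv, rfl⟩
    rw [SetLike.mem_coe, LinearMap.mem_ker]
    exact (hR.zero f hf v (hR.sub f hf hv)).2 hv
  refine Finset.Subset.antisymm hsub fun v hv => ?_
  have h1 : φ v ∈ Submodule.span ℝ (φ '' (h : Set ι)) :=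
    Submodule.subset_span ⟨v, hv, rfl⟩
  rw [← heq] at h1
  exact (hR.zero f hf v (hR.sub h hh hv)).1 (LinearMap.mem_ker.1 (hker h1))

/-- A point in the relative interior of a facet. -/
theorem glue_bary (hR : Real V 𝓕 φ N) {f : Finset ι} (hf : f ∈ 𝓕) :
    N f (∑ v ∈ f, φ v) = 0 ∧ ∀ h ∈ 𝓕, h ≠ f → 0 < N h (∑ v ∈ f, φ v) := by
  refine ⟨?_, fun h hh hne => ?_⟩
  · rw [map_sum]
    exact Finset.sum_eq_zero fun v hv => (hR.zero f hf v (hR.sub f hf hv)).2 hv
  · rw [map_sum]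
    refine Finset.sum_pos' (fun v hv => hR.nonneg h hh v (hR.sub f hf hv)) ?_
    by_contra hcon
    push Not at hcon
    apply hne
    refine (glue_rank hR hf hh fun v hv => ?_).symm
    refine (hR.zero h hh v (hR.sub f hf hv)).1 (le_antisymm (hcon v hv) ?_)
    exact hR.nonneg h hh v (hR.sub f hf hv)

theorem glue_support (hR : Real V 𝓕 φ N) {F i k : Finset ι} [DecidableEq ι] (hF : F ∈ 𝓕)
    (hi : i ∈ 𝓕) (hk : k ∈ 𝓕) (hsub : F ∩ i ⊆ k) {r : E} (hr : ∀ h ∈ 𝓕, 0 ≤ N h r)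
    (hrF : N F r = 0) (hri : N i r = 0) : N k r = 0 := by
  obtain ⟨c, hc, rfl⟩ := hR.cone r hr
  have key : ∀ h ∈ 𝓕, N h (∑ v ∈ V, c v • φ v) = 0 → ∀ v ∈ V, v ∉ h → c v = 0 := by
    intro h hh h0 v hv hvh
    rw [map_sum] at h0
    have h1 := (Finset.sum_eq_zero_iff_of_nonneg (fun w hw => by
      rw [map_smul, smul_eq_mul]
      exact mul_nonneg (hc w) (hR.nonneg h hh w hw))).1 h0 v hv
    rw [map_smul, smul_eq_mul] at h1
    rcases mul_eq_zero.1 h1 with h2 | h2
    · exact h2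
    · exact absurd ((hR.zero h hh v hv).1 h2) hvh
  rw [map_sum]
  refine Finset.sum_eq_zero fun v hv => ?_
  rw [map_smul, smul_eq_mul]
  by_cases h1 : v ∈ F
  · by_cases h2 : v ∈ i
    · rw [(hR.zero k hk v hv).2 (hsub (Finset.mem_inter.2 ⟨h1, h2⟩)), mul_zero]
    · rw [key i hi hri v hv h2, zero_mul]
  · rw [key F hF hrF v hv h1, zero_mul]

/-- Beyond the facet `F` only, if all inequalities of the facets adjacent to `F` hold. -/
theorem glue_third [DecidableEq ι] (hR : Real V 𝓕 φ N) {F : Finset ι} (hF : F ∈ 𝓕) {y : E}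
    (hy : N F y < 0)
    (hadj : ∀ f ∈ 𝓕, f ≠ F → 0 < N f y ∨ ∃ k ∈ 𝓕, k ≠ F ∧ k ≠ f ∧ F ∩ f ⊆ k) :
    ∀ f ∈ 𝓕, f ≠ F → 0 < N f y := by
  by_contra hcon
  push Not at hcon
  obtain ⟨f0, hf0, hf0F, hf0y⟩ := hcon
  obtain ⟨hb0, hb⟩ := glue_bary hR hF
  set yF := ∑ v ∈ F, φ v with hyF
  let bad := 𝓕.filter fun h => h ≠ F ∧ N h y ≤ 0
  have hbad : ∀ h ∈ bad, h ∈ 𝓕 ∧ h ≠ F ∧ N h y ≤ 0 := fun h hh => by
    simpa [bad] using hh
  have hne : bad.Nonempty := ⟨f0, by simp [bad, hf0, hf0F, hf0y]⟩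
  obtain ⟨i, hi, hmin⟩ := Finset.exists_min_image bad
    (fun h => N h yF / (N h yF - N h y)) hne
  obtain ⟨hi1, hi2, hi3⟩ := hbad i hi
  have hip := hb i hi1 hi2
  set t := N i yF / (N i yF - N i y) with ht
  have hden : 0 < N i yF - N i y := by linarith
  have ht0 : 0 < t := div_pos hip hden
  have ht1 : t ≤ 1 := by rw [ht, div_le_one hden]; linarith
  set z : E := (1 - t) • yF + t • y with hz
  have hNz : ∀ h, N h z = (1 - t) * N h yF + t * N h y := by
    intro h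
    rw [hz, map_add, map_smul, map_smul, smul_eq_mul, smul_eq_mul]
  have hiz : N i z = 0 := by
    rw [hNz]
    have : t * (N i yF - N i y) = N i yF := div_mul_cancel₀ _ hden.ne'
    linarith
  have hFz : N F z < 0 := by
    rw [hNz, hb0, mul_zero, zero_add]
    exact mul_neg_of_pos_of_neg ht0 hy
  have hhz : ∀ h ∈ 𝓕, h ≠ F → 0 ≤ N h z := by
    intro h hh hhF
    rw [hNz]
    have hhp := hb h hh hhF
    by_cases hhy : N h y ≤ 0
    · have hd : 0 < N h yF - N h y := by linarith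
      have h1 : t ≤ N h yF / (N h yF - N h y) := hmin h (by simp [bad, hh, hhF, hhy])
      rw [le_div_iff₀ hd] at h1
      linarith
    · push Not at hhy
      have h1 : 0 ≤ (1 - t) * N h yF := mul_nonneg (by linarith) hhp.le
      have h2 : 0 < t * N h y := mul_pos ht0 hhy
      linarith
  obtain ⟨hq0, hq⟩ := glue_bary hR hi1
  set q := ∑ v ∈ i, φ v with hqd
  have hFq := hq F hF (Ne.symm hi2)
  have hden2 : 0 < N F q - N F z := by linarith
  set s := N F q / (N F q - N F z) with hs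
  have hs0 : 0 < s := div_pos hFq hden2
  have hs1 : s < 1 := by rw [hs, div_lt_one hden2]; linarith
  set r : E := (1 - s) • q + s • z with hr
  have hNr : ∀ h, N h r = (1 - s) * N h q + s * N h z := by
    intro h
    rw [hr, map_add, map_smul, map_smul, smul_eq_mul, smul_eq_mul]
  have hFr : N F r = 0 := by
    rw [hNr]
    have : s * (N F q - N F z) = N F q := div_mul_cancel₀ _ hden2.ne'
    linarith
  have hir : N i r = 0 := by
    rw [hNr, hq0, hiz, mul_zero, mul_zero, add_zero]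
  have hhr : ∀ h ∈ 𝓕, h ≠ F → h ≠ i → 0 < N h r := by
    intro h hh h1 h2
    rw [hNr]
    have h3 : 0 < (1 - s) * N h q := mul_pos (by linarith) (hq h hh h2)
    have h4 : 0 ≤ s * N h z := mul_nonneg hs0.le (hhz h hh h1)
    linarith
  have hall : ∀ h ∈ 𝓕, 0 ≤ N h r := by
    intro h hh
    by_cases h1 : h = F
    · rw [h1, hFr]
    · by_cases h2 : h = i
      · rw [h2, hir]
      · exact (hhr h hh h1 h2).le
  rcases hadj i hi1 hi2 with h | ⟨k, hk, hkF, hki, hsub⟩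
  · linarith
  · have h1 := glue_support hR hF hi1 hk hsub hall hFr hir
    have h2 := hhr k hk hkF hki
    linarith

end One

/-! ### Bilinear algebra -/

theorem glue_B_neg (x y : E) : B x (-y) = -B x y := by
  simp [B]; ring

theorem glue_B_smul (c : ℝ) (x y : E) : B (c • x) y = c * B x y := by
  simp [B]; ring

theorem glue_B_sub (x e e' w : E) (a b : ℝ) :
    B (x - a • e - b • e') w = B x w - a * B e w - b * B e' w := by
  simp [B]; ring

theorem glue_B_comm (x y : E) : B x y = B y x := by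
  simp [B]; ring

theorem glue_tri_sum {ω : E → E → E → ℝ} {e3 e4 : E} (hT : Tri ω e3 e4) {κ : Type}
    (s : Finset κ) (c : κ → ℝ) (g : κ → E) (y z : E) :
    ω (∑ k ∈ s, c k • g k) y z = ∑ k ∈ s, c k * ω (g k) y z := by
  let L : E →+ ℝ := AddMonoidHom.mk' (fun x => ω x y z) (fun a b => hT.add a b y z)
  have h : ω (∑ k ∈ s, c k • g k) y z = L (∑ k ∈ s, c k • g k) := rfl
  rw [h, map_sum]
  exact Finset.sum_congr rfl fun k _ => hT.smul (c k) (g k) y z

theorem glue_tri_self {ω : E → E → E → ℝ} {e3 e4 : E} (hT : Tri ω e3 e4) (x y : E) :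
    ω x x y = 0 := by
  have := hT.swap x x y
  linarith

/-- The two end points of an edge and the interior point are independent. -/
theorem glue_edge_ne {g : ℕ → E} {S T : Finset ℕ} {ω : E → E → E → ℝ} {e0 e3 e4 : E}
    (hT : Tri ω e3 e4) (hC : Cyc g S ω e3 e4) (hsub : T ⊆ S) (hcard : 3 ≤ T.card)
    (hint : IntC g T e0) {p : ℕ × ℕ} (hp : p ∈ Ed S) : ω (g p.1) (g p.2) e0 ≠ 0 := by
  obtain ⟨i, j⟩ := p
  simp only [Ed, Finset.mem_filter, Finset.mem_product] at hp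
  obtain ⟨⟨hi, hj⟩, hij, hor⟩ := hp
  obtain ⟨c, hc, he⟩ := hint
  have e1 : ω (g i) (g j) e0 = ∑ k ∈ T, c k * ω (g k) (g i) (g j) := by
    rw [hT.rot, hT.rot, he, glue_tri_sum hT]
  have hex : ∃ k ∈ T, k ∉ ({i, j} : Finset ℕ) := by
    refine Finset.exists_mem_notMem_of_card_lt_card ?_
    have : ({i, j} : Finset ℕ).card ≤ 2 := Finset.card_le_two
    omega
  obtain ⟨k0, hk0, hk0'⟩ := hex
  rw [Finset.mem_insert, Finset.mem_singleton, not_or] at hk0'
  have hii : ω (g i) (g i) (g j) = 0 := glue_tri_self hT _ _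
  have hjj : ω (g j) (g i) (g j) = 0 := by
    rw [hT.rot, hT.rot]
    exact glue_tri_self hT _ _
  show ω (g i) (g j) e0 ≠ 0
  rw [e1]
  rcases hor with hor | hor
  · have hpos : ∀ k ∈ S, k ≠ i → k ≠ j → 0 < ω (g k) (g i) (g j) := by
      intro k hk hki hkj
      rcases hor k hk with h | h
      · exact hC.pos k hk i hi j hj (lt_of_le_of_ne h hki) hij
      · rw [hT.rot]
        exact hC.pos i hi j hj k hk hij (lt_of_le_of_ne h (Ne.symm hkj))
    refine (Finset.sum_pos' (fun k hk => ?_) ⟨k0, hk0, ?_⟩).ne'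
    · by_cases h1 : k = i
      · rw [h1, hii, mul_zero]
      · by_cases h2 : k = j
        · rw [h2, hjj, mul_zero]
        · exact (mul_pos (hc k hk) (hpos k (hsub hk) h1 h2)).le
    · exact mul_pos (hc k0 hk0) (hpos k0 (hsub hk0) hk0'.1 hk0'.2)
  · have hneg : ∀ k ∈ S, k ≠ i → k ≠ j → ω (g k) (g i) (g j) < 0 := by
      intro k hk hki hkj
      obtain ⟨h1, h2⟩ := hor k hk
      have := hC.pos i hi k hk j hj (lt_of_le_of_ne h1 (Ne.symm hki)) (lt_of_le_of_ne h2 hkj)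
      rw [hT.swap]
      linarith
    have hlt : ∑ k ∈ T, c k * ω (g k) (g i) (g j) < 0 := by
      refine Finset.sum_neg' (fun k hk => ?_) ⟨k0, hk0, ?_⟩
      · by_cases h1 : k = i
        · rw [h1, hii, mul_zero]
        · by_cases h2 : k = j
          · rw [h2, hjj, mul_zero]
          · exact (mul_neg_of_pos_of_neg (hc k hk) (hneg k (hsub hk) h1 h2)).le
      · exact mul_neg_of_pos_of_neg (hc k0 hk0) (hneg k0 (hsub hk0) hk0'.1 hk0'.2)
    exact hlt.ne

/-- The functional of an edge is unique. -/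
theorem glue_edge_unique {ω : E → E → E → ℝ} {e0 e3 e4 u v : E} (hFr : Frame e0 e3 e4)
    (hT : Tri ω e3 e4) (hu : InPl e3 e4 u) (hv : InPl e3 e4 v) (hω : ω u v e0 ≠ 0)
    {m m' : Du} (hm : EdgeF m u v e0 e3 e4) (hm' : EdgeF m' u v e0 e3 e4) (x : E) :
    m x = m' x := by
  have h0 : InPl e3 e4 e0 := ⟨hFr.o03, hFr.o04⟩
  have hpl : ∀ w, InPl e3 e4 w → m w = m' w := by
    intro w hw
    have h := hT.cramer w u v e0 hw hu hv h0
    have h1 := congrArg m h
    have h2 := congrArg m' h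
    simp only [map_add, map_smul, smul_eq_mul, hm.u0, hm.v0, hm.m0, mul_zero, zero_add,
      mul_one] at h1
    simp only [map_add, map_smul, smul_eq_mul, hm'.u0, hm'.v0, hm'.m0, mul_zero, zero_add,
      mul_one] at h2
    exact mul_left_cancel₀ hω (h1.trans h2.symm)
  have hw : InPl e3 e4 (x - (B x e3) • e3 - (B x e4) • e4) := by
    constructor
    · rw [glue_B_sub, hFr.n3, glue_B_comm e4 e3, hFr.o34]
      ring
    · rw [glue_B_sub, hFr.n4, hFr.o34]
      ring
  have h1 := hpl _ hw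
  simp only [map_sub, map_smul, smul_eq_mul, hm.m3, hm.m4, hm'.m3, hm'.m4, mul_zero,
    sub_zero] at h1
  exact h1

/-! ### The visible lemma -/

theorem glue_visible {ι : Type} [DecidableEq ι] {V : Finset ι} {𝓕 𝓕2 : Finset (Finset ι)}
    {φ φ2 : ι → E} {N N2 : Finset ι → Du} {S T T2 : Finset ℕ} {pl : ℕ → ι} {a : ι}
    {e0 e3 e4 : E} {ω : E → E → E → ℝ} {κG κG2 : ℝ} {κ κ2 : ℕ × ℕ → ℝ}
    (hR : Real V 𝓕 φ N) (hP : Port 𝓕 φ N S T pl a e0 e3 e4 ω κG κ)
    (hP2 : Port 𝓕2 φ2 N2 S T2 pl a e0 e3 (-e4) ω κG2 κ2)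
    (hφ : ∀ v ∈ pF S pl a, φ v = φ2 v) (hG : 0 < κG + κG2)
    (hκ : ∀ p ∈ Ed S, 0 < κ p + κ2 p) {y : E} (hy : ∀ f ∈ 𝓕2, 0 ≤ N2 f y)
    (hy4 : 0 < B y e4) : ∀ f ∈ 𝓕, f ≠ pF S pl a → 0 < N f y := by
  refine glue_third hR hP.mem ?_ ?_
  · obtain ⟨c, hc, h⟩ := hP.nF
    rw [h]
    have := mul_pos hc hy4
    linarith
  · intro f hf hfF
    rcases hP.nonadj f hf hfF with ⟨c, hc, h⟩ | ⟨p, hp, m, hm, c, hc, h⟩ | h
    · left
      obtain ⟨f2, hf2, -, -, c2, hc2, h2⟩ := hP2.spine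
      have h3 := hy f2 hf2
      rw [h2, glue_B_neg] at h3
      have h4 := nonneg_of_mul_nonneg_right h3 hc2
      rw [h]
      refine mul_pos hc ?_
      have := mul_pos hG hy4
      linarith
    · left
      obtain ⟨f2, hf2, -, -, -, -, m2, hm2, c2, hc2, h2⟩ := hP2.side p hp
      have h3 := hy f2 hf2
      rw [h2, glue_B_neg] at h3
      have h4 := nonneg_of_mul_nonneg_right h3 hc2
      have hpS : p.1 ∈ S ∧ p.2 ∈ S := by
        have := hp
        simp only [Ed, Finset.mem_filter, Finset.mem_product] at this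
        exact this.1
      have hmem : ∀ j ∈ S, pl j ∈ pF S pl a := fun j hj =>
        Finset.mem_insert_of_mem (Finset.mem_image_of_mem _ hj)
      have hm2' : EdgeF m2 (φ (pl p.1)) (φ (pl p.2)) e0 e3 e4 := by
        refine ⟨?_, ?_, hm2.m0, hm2.m3, ?_⟩
        · rw [hφ _ (hmem _ hpS.1)]; exact hm2.u0
        · rw [hφ _ (hmem _ hpS.2)]; exact hm2.v0
        · have := hm2.m4
          rw [map_neg] at this
          linarith
      have hω := glue_edge_ne hP.tri hP.cyc hP.sub hP.card hP.int hp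
      have hmm : m y = m2 y := glue_edge_unique hP.frame hP.tri (hP.cyc.inpl _ hpS.1)
        (hP.cyc.inpl _ hpS.2) hω hm hm2' y
      rw [h, hmm]
      refine mul_pos hc ?_
      have := mul_pos (hκ p hp) hy4
      linarith
    · right
      obtain ⟨k, hk, h1, h2, h3⟩ := h
      exact ⟨k, hk, h1, h2, h3⟩

/-! ### Gluing -/

theorem glue_cone_mono {ι : Type} [DecidableEq ι] {g g' : ι → E} {V V' : Finset ι}
    (hsub : V ⊆ V') (hg : ∀ v ∈ V, g' v = g v) {x : E} (h : InCone g V x) :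
    InCone g' V' x := by
  obtain ⟨c, hc, rfl⟩ := h
  refine ⟨fun v => if v ∈ V then c v else 0, fun v => ?_, ?_⟩
  · show 0 ≤ (if v ∈ V then c v else 0)
    split_ifs
    · exact hc v
    · exact le_rfl
  · rw [← Finset.sum_subset hsub (f := fun v => (if v ∈ V then c v else 0) • g' v)]
    · refine Finset.sum_congr rfl fun v hv => ?_
      rw [if_pos hv, hg v hv]
    · intro v _ hv
      rw [if_neg hv, zero_smul]

theorem claimGlue : ClaimGlue := by
  intro ι _ V V2 𝓕 𝓕2 φ φ2 N N2 S T T2 pl a e0 e3 e4 ω κG κG2 κ κ2 hR hR2 hVV hφ hP hP2 hG hκ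
  set F := pF S pl a with hFdef
  have hP' : Port 𝓕 φ N S T pl a e0 e3 (-(-e4)) ω κG κ := by rw [neg_neg]; exact hP
  have hvis : ∀ y, (∀ f ∈ 𝓕2, 0 ≤ N2 f y) → 0 < B y e4 → ∀ f ∈ 𝓕, f ≠ F → 0 < N f y :=
    fun y hy hy4 => glue_visible hR hP hP2 hφ hG hκ hy hy4
  have hvis2 : ∀ y, (∀ f ∈ 𝓕, 0 ≤ N f y) → B y e4 < 0 → ∀ f ∈ 𝓕2, f ≠ F → 0 < N2 f y := by
    intro y hy hy4
    refine glue_visible hR2 hP2 hP' (fun v hv => (hφ v hv).symm) (by linarith)
      (fun p hp => by have := hκ p hp; linarith) hy ?_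
    rw [glue_B_neg]
    linarith
  obtain ⟨c1, hc1, hN1⟩ := hP.nF
  obtain ⟨c2, hc2, hN2⟩ := hP2.nF
  have hF1 : F ∈ 𝓕 := hP.mem
  have hF2 : F ∈ 𝓕2 := hP2.mem
  -- values of the combined data
  have hg1 : ∀ v ∈ V, gφ V φ φ2 v = φ v := fun v hv => if_pos hv
  have hg2 : ∀ v ∈ V2, gφ V φ φ2 v = φ2 v := by
    intro v hv
    unfold gφ
    split_ifs with h
    · exact hφ v (by rw [← hVV]; exact Finset.mem_inter.2 ⟨h, hv⟩)
    · rfl
  have hn1 : ∀ f ∈ 𝓕, gN 𝓕 N N2 f = N f := fun f hf => if_pos hf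
  have hnot : ∀ f ∈ 𝓕2, f ≠ F → f ∉ 𝓕 := by
    intro f hf hne hf1
    apply hne
    refine glue_rank hR hf1 hF1 fun v hv => ?_
    rw [← hVV]
    exact Finset.mem_inter.2 ⟨hR.sub f hf1 hv, hR2.sub f hf hv⟩
  have hn2 : ∀ f ∈ 𝓕2, f ≠ F → gN 𝓕 N N2 f = N2 f := fun f hf hne =>
    if_neg (hnot f hf hne)
  -- signs
  have hs1 : ∀ v ∈ V, v ∉ V2 → B (φ v) e4 < 0 := by
    intro v hv hv2
    have hvF : v ∉ F := fun h => hv2 (by
      rw [← hVV] at h
      exact (Finset.mem_inter.1 h).2)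
    have h1 := hR.nonneg F hF1 v hv
    have h2 : N F (φ v) ≠ 0 := fun h => hvF ((hR.zero F hF1 v hv).1 h)
    have h3 : 0 < N F (φ v) := lt_of_le_of_ne h1 (Ne.symm h2)
    rw [hN1] at h3
    by_contra hcon
    push Not at hcon
    have := mul_nonneg hc1.le hcon
    linarith
  have hs2 : ∀ v ∈ V2, v ∉ V → 0 < B (φ2 v) e4 := by
    intro v hv hv2
    have hvF : v ∉ F := fun h => hv2 (by
      rw [← hVV] at h
      exact (Finset.mem_inter.1 h).1)
    have h1 := hR2.nonneg F hF2 v hv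
    have h2 : N2 F (φ2 v) ≠ 0 := fun h => hvF ((hR2.zero F hF2 v hv).1 h)
    have h3 : 0 < N2 F (φ2 v) := lt_of_le_of_ne h1 (Ne.symm h2)
    rw [hN2, glue_B_neg] at h3
    by_contra hcon
    push Not at hcon
    have := mul_nonneg hc2.le (neg_nonneg.2 hcon)
    linarith
  have hmem : ∀ f ∈ 𝓕.erase F ∪ 𝓕2.erase F, (f ∈ 𝓕 ∧ f ≠ F) ∨ (f ∈ 𝓕2 ∧ f ≠ F) := by
    intro f hf
    rcases Finset.mem_union.1 hf with h | h
    · exact Or.inl ⟨Finset.mem_of_mem_erase h, Finset.ne_of_mem_erase h⟩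
    · exact Or.inr ⟨Finset.mem_of_mem_erase h, Finset.ne_of_mem_erase h⟩
  -- values of the normals at the vertices
  have hval : ∀ f ∈ 𝓕.erase F ∪ 𝓕2.erase F, ∀ v ∈ V ∪ V2,
      0 ≤ gN 𝓕 N N2 f (gφ V φ φ2 v) ∧ (gN 𝓕 N N2 f (gφ V φ φ2 v) = 0 ↔ v ∈ f) := by
    intro f hf v hv
    rcases hmem f hf with ⟨hf1, hfF⟩ | ⟨hf2, hfF⟩
    · rw [hn1 f hf1]
      by_cases hvV : v ∈ V
      · rw [hg1 v hvV]
        exact ⟨hR.nonneg f hf1 v hvV, hR.zero f hf1 v hvV⟩
      · have hv2 : v ∈ V2 := (Finset.mem_union.1 hv).resolve_left hvV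
        rw [hg2 v hv2]
        have h := hvis (φ2 v) (fun f' hf' => hR2.nonneg f' hf' v hv2) (hs2 v hv2 hvV) f hf1 hfF
        refine ⟨h.le, fun h0 => absurd h0 h.ne', fun hvf => absurd (hR.sub f hf1 hvf) hvV⟩
    · rw [hn2 f hf2 hfF]
      by_cases hvV : v ∈ V2
      · rw [hg2 v hvV]
        exact ⟨hR2.nonneg f hf2 v hvV, hR2.zero f hf2 v hvV⟩
      · have hv1 : v ∈ V := (Finset.mem_union.1 hv).resolve_right hvV
        rw [hg1 v hv1]
        have h := hvis2 (φ v) (fun f' hf' => hR.nonneg f' hf' v hv1) (hs1 v hv1 hvV) f hf2 hfF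
        refine ⟨h.le, fun h0 => absurd h0 h.ne', fun hvf => absurd (hR2.sub f hf2 hvf) hvV⟩
  have himg1 : ∀ s ⊆ V, gφ V φ φ2 '' (s : Set ι) = φ '' (s : Set ι) := fun s hs =>
    Set.image_congr fun v hv => hg1 v (hs hv)
  have himg2 : ∀ s ⊆ V2, gφ V φ φ2 '' (s : Set ι) = φ2 '' (s : Set ι) := fun s hs =>
    Set.image_congr fun v hv => hg2 v (hs hv)
  refine ⟨?_, ?_, fun f hf v hv => (hval f hf v hv).1, fun f hf v hv => (hval f hf v hv).2,
    ?_, ?_, ?_, ?_, ?_⟩
  · intro v hv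
    rcases Finset.mem_union.1 hv with h | h
    · rw [hg1 v h]; exact hR.light v h
    · rw [hg2 v h]; exact hR2.light v h
  · intro f hf
    rcases hmem f hf with ⟨h, -⟩ | ⟨h, -⟩
    · exact (hR.sub f h).trans Finset.subset_union_left
    · exact (hR2.sub f h).trans Finset.subset_union_right
  · intro f hf
    rcases hmem f hf with ⟨h, -⟩ | ⟨h, -⟩
    · obtain ⟨v, hv, hvf⟩ := hR.proper f h
      exact ⟨v, Finset.mem_union_left _ hv, hvf⟩
    · obtain ⟨v, hv, hvf⟩ := hR2.proper f h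
      exact ⟨v, Finset.mem_union_right _ hv, hvf⟩
  · intro f hf
    rcases hmem f hf with ⟨h, -⟩ | ⟨h, -⟩
    · rw [himg1 f (hR.sub f h)]; exact hR.rank f h
    · rw [himg2 f (hR2.sub f h)]; exact hR2.rank f h
  · rw [eq_top_iff, ← hR.full, ← himg1 V (Finset.Subset.refl V)]
    exact Submodule.span_mono (Set.image_mono (Finset.coe_subset.2 Finset.subset_union_left))
  · intro v hv w hw hne c heq
    have hpos : ∀ x y : E, 0 < x 4 → 0 < y 4 → y = c • x → 0 < c := by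
      intro x y hx hy h
      rw [h, Pi.smul_apply, smul_eq_mul] at hy
      exact (pos_iff_pos_of_mul_pos hy).2 hx
    by_cases hv1 : v ∈ V
    · by_cases hw1 : w ∈ V
      · rw [hg1 v hv1, hg1 w hw1] at heq
        exact hR.inj v hv1 w hw1 hne c heq
      · have hw2 : w ∈ V2 := (Finset.mem_union.1 hw).resolve_left hw1
        by_cases hv2 : v ∈ V2
        · rw [hg2 v hv2, hg2 w hw2] at heq
          exact hR2.inj v hv2 w hw2 hne c heq
        · rw [hg1 v hv1, hg2 w hw2] at heq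
          have h1 := hs1 v hv1 hv2
          have h2 := hs2 w hw2 hw1
          have hc := hpos _ _ (hR.light v hv1).2 (hR2.light w hw2).2 heq
          rw [heq, glue_B_smul] at h2
          have := mul_neg_of_pos_of_neg hc h1
          linarith
    · have hv2 : v ∈ V2 := (Finset.mem_union.1 hv).resolve_left hv1
      by_cases hw2 : w ∈ V2
      · rw [hg2 v hv2, hg2 w hw2] at heq
        exact hR2.inj v hv2 w hw2 hne c heq
      · have hw1 : w ∈ V := (Finset.mem_union.1 hw).resolve_right hw2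
        rw [hg2 v hv2, hg1 w hw1] at heq
        have h1 := hs1 w hw1 hw2
        have h2 := hs2 v hv2 hv1
        have hc := hpos _ _ (hR2.light v hv2).2 (hR.light w hw1).2 heq
        rw [heq, glue_B_smul] at h1
        have := mul_pos hc h2
        linarith
  · intro x hx
    rcases le_or_gt (B x e4) 0 with h4 | h4
    · have hall : ∀ f ∈ 𝓕, 0 ≤ N f x := by
        intro f hf
        by_cases hfF : f = F
        · rw [hfF, hN1]
          have := mul_nonneg hc1.le (neg_nonneg.2 h4)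
          linarith
        · have := hx f (Finset.mem_union_left _ (Finset.mem_erase.2 ⟨hfF, hf⟩))
          rwa [hn1 f hf] at this
      exact glue_cone_mono Finset.subset_union_left hg1 (hR.cone x hall)
    · have hall : ∀ f ∈ 𝓕2, 0 ≤ N2 f x := by
        intro f hf
        by_cases hfF : f = F
        · rw [hfF, hN2, glue_B_neg]
          have := mul_pos hc2 h4
          linarith
        · have := hx f (Finset.mem_union_right _ (Finset.mem_erase.2 ⟨hfF, hf⟩))
          rwa [hn2 f hf hfF] at this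
      exact glue_cone_mono Finset.subset_union_right hg2 (hR2.cone x hall)

end Pool.Agent.Work.MP_5b14b0_lc
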