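import Pool.Agent.Work.MP_5b14b0_lc.Stmts

/-!
# The initial polytope: a double pyramid over a polygon
-/

set_option autoImplicit false

namespace Pool.Agent.Work.MP_5b14b0_lc

open Finset

namespace Init

/-- The functional `x ↦ B x y`. -/
def bl (y : E) : Du where
  toFun x := B x y
  map_add' x x' := by simp only [B, Pi.add_apply]; ring
  map_smul' c x := by simp only [B, Pi.smul_apply, smul_eq_mul, RingHom.id_apply]; ring

theorem bl_apply (y x : E) : bl y x = B x y := rfl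

theorem B_comm (x y : E) : B x y = B y x := by simp only [B]; ring

theorem B_add (x x' y : E) : B (x + x') y = B x y + B x' y := (bl y).map_add x x'
theorem B_sub (x x' y : E) : B (x - x') y = B x y - B x' y := (bl y).map_sub x x'
theorem B_smul (c : ℝ) (x y : E) : B (c • x) y = c * B x y := (bl y).map_smul c x
theorem B_add' (x y y' : E) : B x (y + y') = B x y + B x y' := by
  rw [B_comm, B_add, B_comm y, B_comm y']
theorem B_sub' (x y y' : E) : B x (y - y') = B x y - B x y' := by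
  rw [B_comm, B_sub, B_comm y, B_comm y']
theorem B_smul' (c : ℝ) (x y : E) : B x (c • y) = c * B x y := by
  rw [B_comm, B_smul, B_comm]

theorem finrank_ker {f : Du} (hf : f ≠ 0) : Module.finrank ℝ (LinearMap.ker f) = 4 := by
  have h := Module.Dual.finrank_ker_add_one_of_ne_zero (f := f) hf
  have h2 : Module.finrank ℝ E = 5 := by simp [E]
  rw [h2] at h
  omega

/-- Distinct triples of a cyclic polygon are nondegenerate. -/
theorem cyc_ne {g : ℕ → E} {S : Finset ℕ} {ω : E → E → E → ℝ} {e3 e4 : E} (hω : Tri ω e3 e4)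
    (hg : Cyc g S ω e3 e4) {i j k : ℕ} (hi : i ∈ S) (hj : j ∈ S) (hk : k ∈ S) (hij : i ≠ j)
    (hik : i ≠ k) (hjk : j ≠ k) : ω (g i) (g j) (g k) ≠ 0 := by
  rcases lt_or_gt_of_ne hij with h1 | h1 <;> rcases lt_or_gt_of_ne hjk with h2 | h2 <;>
    rcases lt_or_gt_of_ne hik with h3 | h3
  · exact (hg.pos i hi j hj k hk h1 h2).ne'
  · omega
  · -- i < k < j
    have := hg.pos i hi k hk j hj h3 h2
    rw [hω.swap, hω.rot]
    linarith
  · -- k < i < j
    have := hg.pos k hk i hi j hj h3 h1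
    rw [← hω.rot]
    exact this.ne'
  · -- j < i, j < k, i < k
    have := hg.pos j hj i hi k hk h1 h3
    rw [hω.swap]
    linarith
  · -- j < k < i
    have := hg.pos j hj k hk i hi h2 h3
    rw [hω.rot]
    exact this.ne'
  · omega
  · -- k < j < i
    have := hg.pos k hk j hj i hi h2 h1
    rw [hω.swap, ← hω.rot]
    linarith

section

variable {e0 e3 e4 : E} {ω : E → E → E → ℝ} {g : ℕ → E} {S : Finset ℕ}

/-- The third functional of a frame evaluated on combinations. -/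
theorem fr (hF : Frame e0 e3 e4) : B e3 e0 = 0 ∧ B e4 e0 = 0 ∧ B e4 e3 = 0 :=
  ⟨by rw [B_comm]; exact hF.o03, by rw [B_comm]; exact hF.o04, by rw [B_comm]; exact hF.o34⟩

/-- Apex vectors. -/
def va (e0 e3 : E) : E := e0 + e3
noncomputable def vc (e0 e3 e4 : E) : E := e0 + (3 / 5 : ℝ) • e3 - (4 / 5 : ℝ) • e4

theorem va3 (hF : Frame e0 e3 e4) : B (va e0 e3) e3 = 1 := by
  rw [va, B_add, hF.o03, hF.n3]; norm_num
theorem va4 (hF : Frame e0 e3 e4) : B (va e0 e3) e4 = 0 := by
  rw [va, B_add, hF.o04, hF.o34]; norm_num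
theorem vc3 (hF : Frame e0 e3 e4) : B (vc e0 e3 e4) e3 = 3 / 5 := by
  rw [vc, B_sub, B_add, B_smul, B_smul, hF.o03, hF.n3, (fr hF).2.2]; norm_num
theorem vc4 (hF : Frame e0 e3 e4) : B (vc e0 e3 e4) e4 = -(4 / 5) := by
  rw [vc, B_sub, B_add, B_smul, B_smul, hF.o04, hF.o34, hF.n4]; norm_num

/-- The projection to the plane. -/
noncomputable def pr (e0 e3 e4 x : E) : E :=
  x + ((5 / 4 : ℝ) * B x e4) • vc e0 e3 e4 - (B x e3 + (3 / 4 : ℝ) * B x e4) • va e0 e3

theorem pr_eq (e0 e3 e4 x : E) : x = pr e0 e3 e4 x +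
    (B x e3 + (3 / 4 : ℝ) * B x e4) • va e0 e3 + (-(5 / 4 : ℝ) * B x e4) • vc e0 e3 e4 := by
  rw [pr, neg_mul, neg_smul]; abel

theorem pr_inpl (hF : Frame e0 e3 e4) (x : E) : InPl e3 e4 (pr e0 e3 e4 x) := by
  constructor
  · rw [pr, B_sub, B_add, B_smul, B_smul, va3 hF, vc3 hF]; ring
  · rw [pr, B_sub, B_add, B_smul, B_smul, va4 hF, vc4 hF]; ring

theorem va_light (hF : Frame e0 e3 e4) : B (va e0 e3) (va e0 e3) = 0 := by
  rw [va, B_add, B_add', B_add', hF.n0, hF.o03, (fr hF).1, hF.n3]; norm_num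

theorem vc_light (hF : Frame e0 e3 e4) : B (vc e0 e3 e4) (vc e0 e3 e4) = 0 := by
  obtain ⟨h1, h2, h3⟩ := fr hF
  have a1 := hF.n0; have a2 := hF.n3; have a3 := hF.n4
  have a4 := hF.o03; have a5 := hF.o04; have a6 := hF.o34
  simp only [vc, B_sub, B_add, B_smul, B_sub', B_add', B_smul', a1, a2, a3, a4, a5, a6, h1, h2, h3]
  norm_num

/-- Vectors with nonpositive norm at nonnegative... time component of `e3`, `e4` combinations: a
light vector `e0 + a e3 + b e4` with `a² + b² = 1` is a future vector. -/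
theorem fut {e0 u : E} (h0 : B e0 e0 = -1) (hf : 0 < e0 4) (hu : B u u = 1) (h : B e0 u = 0) :
    0 < (e0 + u) 4 := by
  -- Cauchy-Schwarz
  simp only [B] at h0 hu h
  rw [Pi.add_apply]
  by_contra hc
  push Not at hc
  have h1 : e0 4 ^ 2 = 1 + (e0 0 ^ 2 + e0 1 ^ 2 + e0 2 ^ 2 + e0 3 ^ 2) := by nlinarith
  have h2 : u 4 ^ 2 = (u 0 ^ 2 + u 1 ^ 2 + u 2 ^ 2 + u 3 ^ 2) - 1 := by nlinarith
  have h3 : e0 4 * u 4 = e0 0 * u 0 + e0 1 * u 1 + e0 2 * u 2 + e0 3 * u 3 := by linarith
  have h4 : e0 4 ^ 2 ≤ u 4 ^ 2 := by nlinarith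
  have h5 : (e0 0 * u 0 + e0 1 * u 1 + e0 2 * u 2 + e0 3 * u 3) ^ 2 ≤
      (e0 0 ^ 2 + e0 1 ^ 2 + e0 2 ^ 2 + e0 3 ^ 2) * (u 0 ^ 2 + u 1 ^ 2 + u 2 ^ 2 + u 3 ^ 2) := by
    nlinarith [sq_nonneg (e0 0 * u 1 - e0 1 * u 0), sq_nonneg (e0 0 * u 2 - e0 2 * u 0),
      sq_nonneg (e0 0 * u 3 - e0 3 * u 0), sq_nonneg (e0 1 * u 2 - e0 2 * u 1),
      sq_nonneg (e0 1 * u 3 - e0 3 * u 1), sq_nonneg (e0 2 * u 3 - e0 3 * u 2)]
  rw [← h3] at h5
  have h6 : (e0 4 * u 4) ^ 2 = e0 4 ^ 2 * u 4 ^ 2 := by ring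
  rw [h6] at h5
  have h7 : e0 4 ^ 2 * u 4 ^ 2 ≤ (e0 4 ^ 2 - 1) * (u 4 ^ 2 + 1) := by
    rw [h1, h2]; rw [h1, h2] at h5
    have e : (1 + (e0 0 ^ 2 + e0 1 ^ 2 + e0 2 ^ 2 + e0 3 ^ 2) - 1) *
      ((u 0 ^ 2 + u 1 ^ 2 + u 2 ^ 2 + u 3 ^ 2) - 1 + 1) =
      (e0 0 ^ 2 + e0 1 ^ 2 + e0 2 ^ 2 + e0 3 ^ 2) * (u 0 ^ 2 + u 1 ^ 2 + u 2 ^ 2 + u 3 ^ 2) := by
      ring
    rw [e]; exact h5
  nlinarith

theorem va_fut (hF : Frame e0 e3 e4) : 0 < va e0 e3 4 := fut hF.n0 hF.fut hF.n3 hF.o03

theorem vc_fut (hF : Frame e0 e3 e4) : 0 < vc e0 e3 e4 4 := by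
  obtain ⟨h1, h2, h3⟩ := fr hF
  have e : vc e0 e3 e4 = e0 + ((3 / 5 : ℝ) • e3 - (4 / 5 : ℝ) • e4) := by rw [vc]; abel
  rw [e]
  refine fut hF.n0 hF.fut ?_ ?_
  · simp only [B_sub, B_smul, B_sub', B_smul', hF.n3, hF.n4, hF.o34, h3]; norm_num
  · simp only [B_sub', B_smul', hF.o03, hF.o04]; norm_num

/-- The plane is spanned by three vertices. -/
theorem plane_span (hω : Tri ω e3 e4) (hg : Cyc g S ω e3 e4) {i j k : ℕ} (hi : i ∈ S)
    (hj : j ∈ S) (hk : k ∈ S) (hij : i ≠ j) (hik : i ≠ k) (hjk : j ≠ k) {x : E}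
    (hx : InPl e3 e4 x) : ∃ a b c : ℝ, x = a • g i + b • g j + c • g k ∧
      c = ω (g i) (g j) x / ω (g i) (g j) (g k) := by
  have h0 := cyc_ne hω hg hi hj hk hij hik hjk
  have h1 := hω.cramer x (g i) (g j) (g k) hx (hg.inpl i hi) (hg.inpl j hj) (hg.inpl k hk)
  refine ⟨ω x (g j) (g k) / ω (g i) (g j) (g k), ω (g i) x (g k) / ω (g i) (g j) (g k),
    ω (g i) (g j) x / ω (g i) (g j) (g k), ?_, rfl⟩
  have h2 : x = (ω (g i) (g j) (g k))⁻¹ • (ω (g i) (g j) (g k) • x) := by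
    rw [smul_smul, inv_mul_cancel₀ h0, one_smul]
  rw [h1] at h2
  refine h2.trans ?_
  rw [smul_add, smul_add, smul_smul, smul_smul, smul_smul, div_eq_inv_mul, div_eq_inv_mul,
    div_eq_inv_mul]

end

end Init

open Init in
theorem claimInit (hP : ClaimPolygon) : ClaimInit := by
  intro ι _ S T pl a c g e0 e3 e4 ω hF hω hg hTS hT hint hinj ha hc hac
  classical
  obtain ⟨m, hm, hcone⟩ := hP e0 e3 e4 ω g S T hF hω hg hTS hT hint
  have hS : 3 ≤ S.card := hT.trans (Finset.card_le_card hTS)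
  have hthird : ∀ p : ℕ × ℕ, ∃ k ∈ S, k ≠ p.1 ∧ k ≠ p.2 := by
    intro p
    have h1 : ({p.1, p.2} : Finset ℕ).card < S.card :=
      lt_of_le_of_lt Finset.card_le_two (by omega)
    obtain ⟨k, hk, hk'⟩ := Finset.exists_mem_notMem_of_card_lt_card h1
    simp only [Finset.mem_insert, Finset.mem_singleton, not_or] at hk'
    exact ⟨k, hk, hk'.1, hk'.2⟩
  obtain ⟨i0, hi0, j0, hj0, k0, hk0, hij0, hik0, hjk0⟩ : ∃ i ∈ S, ∃ j ∈ S, ∃ k ∈ S,
      i ≠ j ∧ i ≠ k ∧ j ≠ k := by
    obtain ⟨i, j, k, hi, hj, hk, h1, h2, h3⟩ := Finset.two_lt_card_iff.1 (by omega : 2 < S.card)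
    exact ⟨i, hi, j, hj, k, hk, h1, h2, h3⟩
  have hEd : ∀ p ∈ Ed S, p.1 ∈ S ∧ p.2 ∈ S ∧ p.1 < p.2 := by
    intro p hp
    simp only [Ed, Finset.mem_filter, Finset.mem_product] at hp
    exact ⟨hp.1.1, hp.1.2, hp.2.1⟩
  -- the labelling
  set φ : ι → E := fun v => if v = a then va e0 e3 else if v = c then vc e0 e3 e4 else
    g (Function.invFunOn pl S v) with hφ
  have hφa : φ a = va e0 e3 := by simp [hφ]
  have hφc : φ c = vc e0 e3 e4 := by simp [hφ, hac.symm]
  have hpa : ∀ j ∈ S, pl j ≠ a := fun j hj h => ha (h ▸ Finset.mem_image_of_mem pl hj)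
  have hpc : ∀ j ∈ S, pl j ≠ c := fun j hj h => hc (h ▸ Finset.mem_image_of_mem pl hj)
  have hφg : ∀ j ∈ S, φ (pl j) = g j := by
    intro j hj
    have h1 : Function.invFunOn pl S (pl j) = j := by
      have h2 : pl j ∈ pl '' (S : Set ℕ) := ⟨j, hj, rfl⟩
      exact hinj (Function.invFunOn_mem h2) hj (Function.invFunOn_eq h2)
    simp only [hφ, hpa j hj, hpc j hj, if_false, h1]
  -- the normals
  set nA : Du := -bl e4 with hnA
  set nC : Du := bl e3 + (3 / 4 : ℝ) • bl e4 with hnC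
  set nE : ℕ × ℕ → Du := fun p => m p - bl e3 + (1 / 2 : ℝ) • bl e4 with hnE
  have aA : ∀ x, nA x = -(B x e4) := fun x => rfl
  have aC : ∀ x, nC x = B x e3 + (3 / 4 : ℝ) * B x e4 := fun x => rfl
  have aE : ∀ p x, nE p x = m p x - B x e3 + (1 / 2 : ℝ) * B x e4 := fun p x => rfl
  set N : Finset ι → Du := fun F => if F = pF S pl a then nA else if F = pF S pl c then nC else
    if h : ∃ p ∈ Ed S, F = {a, c, pl p.1, pl p.2} then nE h.choose else 0 with hN
  have hcA : c ∉ pF S pl a := by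
    simp only [pF, Finset.mem_insert, not_or]; exact ⟨hac.symm, hc⟩
  have haC : a ∉ pF S pl c := by
    simp only [pF, Finset.mem_insert, not_or]; exact ⟨hac, ha⟩
  have hCA : pF S pl c ≠ pF S pl a := fun h => haC (h ▸ Finset.mem_insert_self a _)
  have hEA : ∀ p : ℕ × ℕ, ({a, c, pl p.1, pl p.2} : Finset ι) ≠ pF S pl a := fun p h =>
    hcA (h ▸ by simp)
  have hEC : ∀ p : ℕ × ℕ, ({a, c, pl p.1, pl p.2} : Finset ι) ≠ pF S pl c := fun p h =>
    haC (h ▸ by simp)
  have hEE : ∀ p ∈ Ed S, ∀ q ∈ Ed S, ({a, c, pl p.1, pl p.2} : Finset ι) =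
      {a, c, pl q.1, pl q.2} → p = q := by
    intro p hp q hq h
    obtain ⟨p1, p2, p3⟩ := hEd p hp
    obtain ⟨q1, q2, q3⟩ := hEd q hq
    have h1 : pl p.1 ∈ ({a, c, pl q.1, pl q.2} : Finset ι) := h ▸ (by simp)
    have h2 : pl p.2 ∈ ({a, c, pl q.1, pl q.2} : Finset ι) := h ▸ (by simp)
    simp only [Finset.mem_insert, Finset.mem_singleton, hpa _ p1, hpc _ p1, false_or] at h1
    simp only [Finset.mem_insert, Finset.mem_singleton, hpa _ p2, hpc _ p2, false_or] at h2
    have h1' : p.1 = q.1 ∨ p.1 = q.2 := h1.imp (hinj p1 q1) (hinj p1 q2)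
    have h2' : p.2 = q.1 ∨ p.2 = q.2 := h2.imp (hinj p2 q1) (hinj p2 q2)
    ext <;> omega
  have hNA : N (pF S pl a) = nA := by simp [hN]
  have hNC : N (pF S pl c) = nC := by simp [hN, hCA]
  have hNE : ∀ p ∈ Ed S, N {a, c, pl p.1, pl p.2} = nE p := by
    intro p hp
    have hex : ∃ q ∈ Ed S, ({a, c, pl p.1, pl p.2} : Finset ι) = {a, c, pl q.1, pl q.2} :=
      ⟨p, hp, rfl⟩
    have h1 : hex.choose = p :=
      (hEE p hp _ hex.choose_spec.1 hex.choose_spec.2).symm
    simp only [hN]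
    rw [if_neg (hEA p), if_neg (hEC p), dif_pos hex, h1]
  have hφ' : ∀ v ∈ insert c (pF S pl a), v = c ∨ v = a ∨ ∃ j ∈ S, v = pl j := by
    intro v hv
    simp only [pF, Finset.mem_insert, Finset.mem_image] at hv
    rcases hv with h | h | ⟨j, hj, h⟩
    · exact Or.inl h
    · exact Or.inr (Or.inl h)
    · exact Or.inr (Or.inr ⟨j, hj, h.symm⟩)
  have hmemF : ∀ F ∈ ({pF S pl a, pF S pl c} ∪
      (Ed S).image (fun e => ({a, c, pl e.1, pl e.2} : Finset ι))), F = pF S pl a ∨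
      F = pF S pl c ∨ ∃ p ∈ Ed S, F = {a, c, pl p.1, pl p.2} := by
    intro F hF'
    simp only [Finset.mem_union, Finset.mem_insert, Finset.mem_singleton, Finset.mem_image] at hF'
    rcases hF' with (h | h) | ⟨p, hp, h⟩
    · exact Or.inl h
    · exact Or.inr (Or.inl h)
    · exact Or.inr (Or.inr ⟨p, hp, h.symm⟩)
  -- values of the normals
  have e3c := vc3 hF; have e4c := vc4 hF; have e3a := va3 hF; have e4a := va4 hF
  have g3 : ∀ j ∈ S, B (g j) e3 = 0 := fun j hj => (hg.inpl j hj).1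
  have g4 : ∀ j ∈ S, B (g j) e4 = 0 := fun j hj => (hg.inpl j hj).2
  have ma : ∀ p ∈ Ed S, m p (va e0 e3) = 1 := by
    intro p hp
    obtain ⟨h, -⟩ := hm p hp
    rw [va, map_add, h.m0, h.m3, add_zero]
  have mc : ∀ p ∈ Ed S, m p (vc e0 e3 e4) = 1 := by
    intro p hp
    obtain ⟨h, -⟩ := hm p hp
    rw [vc, map_sub, map_add, map_smul, map_smul, h.m0, h.m3, h.m4]
    simp
  have hval : ∀ F ∈ ({pF S pl a, pF S pl c} ∪
      (Ed S).image (fun e => ({a, c, pl e.1, pl e.2} : Finset ι))), ∀ v ∈ insert c (pF S pl a),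
      (v ∈ F → N F (φ v) = 0) ∧ (v ∉ F → 0 < N F (φ v)) := by
    intro F hF' v hv
    rcases hmemF F hF' with rfl | rfl | ⟨p, hp, rfl⟩
    · rw [hNA]
      rcases hφ' v hv with rfl | rfl | ⟨j, hj, rfl⟩
      · refine ⟨fun h => absurd h hcA, fun _ => ?_⟩
        rw [hφc, aA, e4c]; norm_num
      · refine ⟨fun _ => ?_, fun h => absurd (Finset.mem_insert_self _ _) h⟩
        rw [hφa, aA, e4a]; norm_num
      · refine ⟨fun _ => ?_, fun h => absurd (Finset.mem_insert_of_mem
          (Finset.mem_image_of_mem pl hj)) h⟩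
        rw [hφg j hj, aA, g4 j hj]; norm_num
    · rw [hNC]
      rcases hφ' v hv with rfl | rfl | ⟨j, hj, rfl⟩
      · refine ⟨fun _ => ?_, fun h => absurd (Finset.mem_insert_self _ _) h⟩
        rw [hφc, aC, e4c, e3c]; norm_num
      · refine ⟨fun h => absurd h haC, fun _ => ?_⟩
        rw [hφa, aC, e4a, e3a]; norm_num
      · refine ⟨fun _ => ?_, fun h => absurd (Finset.mem_insert_of_mem
          (Finset.mem_image_of_mem pl hj)) h⟩
        rw [hφg j hj, aC, g4 j hj, g3 j hj]; norm_num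
    · obtain ⟨p1, p2, p3⟩ := hEd p hp
      obtain ⟨hE, hpos⟩ := hm p hp
      rw [hNE p hp]
      rcases hφ' v hv with rfl | rfl | ⟨j, hj, rfl⟩
      · refine ⟨fun _ => ?_, fun h => absurd (by simp) h⟩
        rw [hφc, aE, e4c, e3c, mc p hp]; norm_num
      · refine ⟨fun _ => ?_, fun h => absurd (by simp) h⟩
        rw [hφa, aE, e4a, e3a, ma p hp]; norm_num
      · rw [hφg j hj, aE, g4 j hj, g3 j hj]
        constructor
        · intro h
          simp only [Finset.mem_insert, Finset.mem_singleton, hpa _ hj, hpc _ hj, false_or] at h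
          rcases h with h | h
          · rw [hinj hj p1 h, hE.u0]; norm_num
          · rw [hinj hj p2 h, hE.v0]; norm_num
        · intro h
          have h1 : j ≠ p.1 := by rintro rfl; exact h (by simp)
          have h2 : j ≠ p.2 := by rintro rfl; exact h (by simp)
          have := hpos j hj h1 h2
          linarith
  have hspanle : ∀ F ∈ ({pF S pl a, pF S pl c} ∪
      (Ed S).image (fun e => ({a, c, pl e.1, pl e.2} : Finset ι))), F ⊆ insert c (pF S pl a) := by
    intro F hF'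
    rcases hmemF F hF' with rfl | rfl | ⟨p, hp, rfl⟩
    · exact Finset.subset_insert _ _
    · intro v hv
      simp only [pF, Finset.mem_insert] at hv ⊢
      tauto
    · obtain ⟨p1, p2, p3⟩ := hEd p hp
      intro v hv
      simp only [pF, Finset.mem_insert, Finset.mem_singleton, Finset.mem_image] at hv ⊢
      rcases hv with h | h | h | h
      · exact Or.inr (Or.inl h)
      · exact Or.inl h
      · exact Or.inr (Or.inr ⟨_, p1, h.symm⟩)
      · exact Or.inr (Or.inr ⟨_, p2, h.symm⟩)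
  have hproper : ∀ F ∈ ({pF S pl a, pF S pl c} ∪
      (Ed S).image (fun e => ({a, c, pl e.1, pl e.2} : Finset ι))),
      ∃ v ∈ insert c (pF S pl a), v ∉ F := by
    intro F hF'
    rcases hmemF F hF' with rfl | rfl | ⟨p, hp, rfl⟩
    · exact ⟨c, Finset.mem_insert_self _ _, hcA⟩
    · exact ⟨a, by simp [pF], haC⟩
    · obtain ⟨p1, p2, p3⟩ := hEd p hp
      obtain ⟨k, hk, hk1, hk2⟩ := hthird p
      have hkm : pl k ∈ insert c (pF S pl a) := Finset.mem_insert_of_mem
        (Finset.mem_insert_of_mem (Finset.mem_image_of_mem pl hk))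
      refine ⟨pl k, hkm, ?_⟩
      simp only [Finset.mem_insert, Finset.mem_singleton, hpa _ hk, hpc _ hk, false_or, not_or]
      exact ⟨fun h => hk1 (hinj hk p1 h), fun h => hk2 (hinj hk p2 h)⟩
  -- plane vectors lie in the span of the polygon
  have hpl : ∀ (W : Submodule ℝ E), (∀ j ∈ S, g j ∈ W) → ∀ x, InPl e3 e4 x → x ∈ W := by
    intro W hW x hx
    obtain ⟨α, β, γ, h, -⟩ := plane_span hω hg hi0 hj0 hk0 hij0 hik0 hjk0 hx
    rw [h]
    exact W.add_mem (W.add_mem (W.smul_mem _ (hW _ hi0)) (W.smul_mem _ (hW _ hj0)))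
      (W.smul_mem _ (hW _ hk0))
  have hnn : ∀ F ∈ ({pF S pl a, pF S pl c} ∪
      (Ed S).image (fun e => ({a, c, pl e.1, pl e.2} : Finset ι))), N F ≠ 0 := by
    intro F hF' h0
    obtain ⟨v, hv, hvF⟩ := hproper F hF'
    have := (hval F hF' v hv).2 hvF
    rw [h0] at this
    simp at this
  have hsub1 : ∀ {F : Finset ι} {v : ι}, v ∈ F →
      φ v ∈ Submodule.span ℝ (φ '' (F : Set ι)) := fun {F v} hv =>
    Submodule.subset_span ⟨v, hv, rfl⟩
  have hrank : ∀ F ∈ ({pF S pl a, pF S pl c} ∪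
      (Ed S).image (fun e => ({a, c, pl e.1, pl e.2} : Finset ι))),
      Module.finrank ℝ (Submodule.span ℝ (φ '' (F : Set ι))) = 4 := by
    intro F hF'
    have hk : Submodule.span ℝ (φ '' (F : Set ι)) = LinearMap.ker (N F) := by
      apply le_antisymm
      · rw [Submodule.span_le]
        rintro _ ⟨v, hv, rfl⟩
        exact (hval F hF' v (hspanle F hF' hv)).1 hv
      · intro x hx
        rw [LinearMap.mem_ker] at hx
        rw [pr_eq e0 e3 e4 x]
        rcases hmemF F hF' with rfl | rfl | ⟨p, hp, rfl⟩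
        · rw [hNA, aA] at hx
          have h4 : B x e4 = 0 := by linarith
          have h1 := hpl (Submodule.span ℝ (φ '' (pF S pl a : Set ι))) (fun j hj => by
            rw [← hφg j hj]
            exact hsub1 (Finset.mem_insert_of_mem (Finset.mem_image_of_mem pl hj))) _
            (pr_inpl hF x)
          refine Submodule.add_mem _ (Submodule.add_mem _ h1 (Submodule.smul_mem _ _ ?_)) ?_
          · rw [← hφa]; exact hsub1 (Finset.mem_insert_self _ _)
          · rw [h4, mul_zero, zero_smul]; exact Submodule.zero_mem _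
        · rw [hNC, aC] at hx
          have h1 := hpl (Submodule.span ℝ (φ '' (pF S pl c : Set ι))) (fun j hj => by
            rw [← hφg j hj]
            exact hsub1 (Finset.mem_insert_of_mem (Finset.mem_image_of_mem pl hj))) _
            (pr_inpl hF x)
          refine Submodule.add_mem _ (Submodule.add_mem _ h1 ?_) (Submodule.smul_mem _ _ ?_)
          · rw [hx, zero_smul]; exact Submodule.zero_mem _
          · rw [← hφc]; exact hsub1 (Finset.mem_insert_self _ _)
        · obtain ⟨p1, p2, p3⟩ := hEd p hp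
          obtain ⟨k, hk, hk1, hk2⟩ := hthird p
          obtain ⟨hE, hpos⟩ := hm p hp
          rw [hNE p hp, aE] at hx
          have hz := pr_inpl hF x
          have hmz : m p (pr e0 e3 e4 x) = 0 := by
            rw [pr, map_sub, map_add, map_smul, map_smul, ma p hp, mc p hp]
            simp only [smul_eq_mul]
            linarith
          obtain ⟨α, β, γ, h, -⟩ := plane_span hω hg p1 p2 hk p3.ne hk1.symm hk2.symm hz
          have hγ : γ = 0 := by
            have h5 := hmz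
            rw [h, map_add, map_add, map_smul, map_smul, map_smul, hE.u0, hE.v0] at h5
            simp only [smul_eq_mul, mul_zero, zero_add] at h5
            rcases mul_eq_zero.1 h5 with h6 | h6
            · exact h6
            · exact absurd h6 (hpos k hk hk1 hk2).ne'
          rw [h, hγ, zero_smul, add_zero]
          refine Submodule.add_mem _ (Submodule.add_mem _ (Submodule.add_mem _
            (Submodule.smul_mem _ _ ?_) (Submodule.smul_mem _ _ ?_)) (Submodule.smul_mem _ _ ?_))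
            (Submodule.smul_mem _ _ ?_)
          · rw [← hφg _ p1]; exact hsub1 (by simp)
          · rw [← hφg _ p2]; exact hsub1 (by simp)
          · rw [← hφa]; exact hsub1 (by simp)
          · rw [← hφc]; exact hsub1 (by simp)
    rw [hk]
    exact finrank_ker (hnn F hF')
  have hfull : Submodule.span ℝ (φ '' ((insert c (pF S pl a) : Finset ι) : Set ι)) = ⊤ := by
    rw [eq_top_iff]
    intro x _
    rw [pr_eq e0 e3 e4 x]
    have h1 := hpl (Submodule.span ℝ (φ '' ((insert c (pF S pl a) : Finset ι) : Set ι)))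
      (fun j hj => by
        rw [← hφg j hj]
        exact hsub1 (Finset.mem_insert_of_mem
          (Finset.mem_insert_of_mem (Finset.mem_image_of_mem pl hj)))) _ (pr_inpl hF x)
    refine Submodule.add_mem _ (Submodule.add_mem _ h1 (Submodule.smul_mem _ _ ?_))
      (Submodule.smul_mem _ _ ?_)
    · rw [← hφa]; exact hsub1 (by simp [pF])
    · rw [← hφc]; exact hsub1 (by simp)
  have hlight : ∀ v ∈ insert c (pF S pl a), Light (φ v) := by
    intro v hv
    rcases hφ' v hv with rfl | rfl | ⟨j, hj, rfl⟩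
    · rw [hφc]; exact ⟨vc_light hF, vc_fut hF⟩
    · rw [hφa]; exact ⟨va_light hF, va_fut hF⟩
    · rw [hφg j hj]; exact hg.light j hj
  have hginj : ∀ i ∈ S, ∀ j ∈ S, i ≠ j → ∀ t : ℝ, g j ≠ t • g i := by
    intro i hi j hj hij t h
    obtain ⟨k, hk, hk1, hk2⟩ := hthird (i, j)
    have h1 := cyc_ne hω hg hi hj hk hij hk1.symm hk2.symm
    apply h1
    have h2 : ω (g i) (g i) (g k) = 0 := by
      have := hω.swap (g i) (g i) (g k)
      linarith
    rw [h, hω.swap, hω.smul, h2]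
    simp
  refine ⟨φ, N, 3 / 4, fun _ => 1 / 2, ⟨hlight, hspanle, ?_, ?_, hproper, hrank, hfull, ?_, ?_⟩,
    hφg, ⟨hF, hω, ?_, hTS, hT, ?_, hinj, ha, by simp, ⟨1, one_pos, by rw [hφa, one_smul]; rfl⟩,
      ⟨1, one_pos, fun x => by rw [hNA, aA, one_mul]⟩, ?_, ?_, ?_⟩, by norm_num,
      fun _ _ => by norm_num⟩
  · intro F hF' v hv
    by_cases h : v ∈ F
    · exact ((hval F hF' v hv).1 h).ge
    · exact ((hval F hF' v hv).2 h).le
  · intro F hF' v hv
    refine ⟨fun h0 => ?_, (hval F hF' v hv).1⟩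
    by_contra h
    exact ((hval F hF' v hv).2 h).ne' h0
  · intro v hv w hw hvw t ht
    rcases hφ' v hv with rfl | rfl | ⟨i, hi, rfl⟩ <;> rcases hφ' w hw with rfl | rfl | ⟨j, hj, rfl⟩
    · exact hvw rfl
    · rw [hφa, hφc] at ht
      have h1 : B (va e0 e3) e4 = t * B (vc e0 e3 e4) e4 := by rw [ht, B_smul]
      have h2 : B (va e0 e3) e3 = t * B (vc e0 e3 e4) e3 := by rw [ht, B_smul]
      rw [e4a, e4c] at h1; rw [e3a, e3c] at h2
      nlinarith
    · rw [hφc, hφg j hj] at ht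
      have h1 : B (g j) e4 = t * B (vc e0 e3 e4) e4 := by rw [ht, B_smul]
      rw [g4 j hj, e4c] at h1
      have h2 : t = 0 := by linarith
      rw [h2, zero_smul] at ht
      have := (hg.light j hj).2
      rw [ht] at this
      simp at this
    · rw [hφa, hφc] at ht
      have h1 : B (vc e0 e3 e4) e4 = t * B (va e0 e3) e4 := by rw [ht, B_smul]
      rw [e4a, e4c] at h1
      linarith
    · exact hvw rfl
    · rw [hφa, hφg j hj] at ht
      have h1 : B (g j) e3 = t * B (va e0 e3) e3 := by rw [ht, B_smul]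
      rw [g3 j hj, e3a] at h1
      have h2 : t = 0 := by linarith
      rw [h2, zero_smul] at ht
      have := (hg.light j hj).2
      rw [ht] at this
      simp at this
    · rw [hφc, hφg i hi] at ht
      have h1 : B (vc e0 e3 e4) e4 = t * B (g i) e4 := by rw [ht, B_smul]
      rw [g4 i hi, e4c] at h1
      linarith
    · rw [hφa, hφg i hi] at ht
      have h1 : B (va e0 e3) e3 = t * B (g i) e3 := by rw [ht, B_smul]
      rw [g3 i hi, e3a] at h1
      linarith
    · rw [hφg i hi, hφg j hj] at ht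
      exact hginj i hi j hj (fun h => hvw (by rw [h])) t ht
  · -- the cone
    intro x hx
    have x1 : 0 ≤ -(B x e4) := by
      have := hx (pF S pl a) (by simp)
      rwa [hNA, aA] at this
    have x2 : 0 ≤ B x e3 + (3 / 4 : ℝ) * B x e4 := by
      have := hx (pF S pl c) (by simp)
      rwa [hNC, aC] at this
    have x3 : ∀ p ∈ Ed S, 0 ≤ m p (pr e0 e3 e4 x) := by
      intro p hp
      have := hx {a, c, pl p.1, pl p.2} (by
        simp only [Finset.mem_union, Finset.mem_image]; exact Or.inr ⟨p, hp, rfl⟩)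
      rw [hNE p hp, aE] at this
      rw [pr, map_sub, map_add, map_smul, map_smul, ma p hp, mc p hp]
      simp only [smul_eq_mul]
      linarith
    obtain ⟨d, hd, hd2⟩ := hcone _ (pr_inpl hF x) x3
    refine ⟨fun v => if v = a then B x e3 + (3 / 4 : ℝ) * B x e4 else
      if v = c then -(5 / 4 : ℝ) * B x e4 else d (Function.invFunOn pl S v), ?_, ?_⟩
    · intro v
      dsimp only
      split_ifs
      · exact x2
      · linarith
      · exact hd _
    · have hcn : c ∉ pF S pl a := hcA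
      rw [Finset.sum_insert hcn, pF, Finset.sum_insert ha, Finset.sum_image (fun i hi j hj h =>
        hinj hi hj h)]
      have h1 : ∀ j ∈ S, (if pl j = a then B x e3 + (3 / 4 : ℝ) * B x e4 else
          if pl j = c then -(5 / 4 : ℝ) * B x e4 else d (Function.invFunOn pl S (pl j))) •
          φ (pl j) = d j • g j := by
        intro j hj
        have h2 : Function.invFunOn pl S (pl j) = j := by
          have h3 : pl j ∈ pl '' (S : Set ℕ) := ⟨j, hj, rfl⟩
          exact hinj (Function.invFunOn_mem h3) hj (Function.invFunOn_eq h3)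
        rw [if_neg (hpa j hj), if_neg (hpc j hj), h2, hφg j hj]
      rw [Finset.sum_congr rfl h1, ← hd2, hφa, hφc]
      simp only [if_true, hac.symm, if_false]
      conv_lhs => rw [pr_eq e0 e3 e4 x]
      abel
  · -- cyc
    refine ⟨fun j hj => ?_, fun j hj => ?_, fun i hi j hj k hk h1 h2 => ?_⟩
    · simp only [hφg j hj]; exact hg.light j hj
    · simp only [hφg j hj]; exact hg.inpl j hj
    · simp only [hφg i hi, hφg j hj, hφg k hk]; exact hg.pos i hi j hj k hk h1 h2
  · obtain ⟨d, hd, hd2⟩ := hint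
    refine ⟨d, hd, hd2.trans (Finset.sum_congr rfl fun j hj => ?_)⟩
    simp only [hφg j (hTS hj)]
  · -- spine
    refine ⟨pF S pl c, by simp, hCA, Finset.subset_insert _ _, 1, one_pos, fun x => ?_⟩
    rw [hNC, aC, one_mul]
  · -- sides
    intro p hp
    obtain ⟨p1, p2, p3⟩ := hEd p hp
    refine ⟨{a, c, pl p.1, pl p.2}, by
      simp only [Finset.mem_union, Finset.mem_image]; exact Or.inr ⟨p, hp, rfl⟩, hEA p, by simp,
      by simp, by simp, m p, ?_, 1, one_pos, fun x => ?_⟩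
    · rw [hφg _ p1, hφg _ p2]; exact (hm p hp).1
    · rw [hNE p hp, aE, one_mul]
  · intro f hf hfa
    rcases hmemF f hf with rfl | rfl | ⟨p, hp, rfl⟩
    · exact absurd rfl hfa
    · exact Or.inl ⟨1, one_pos, fun x => by rw [hNC, aC, one_mul]⟩
    · obtain ⟨p1, p2, p3⟩ := hEd p hp
      refine Or.inr (Or.inl ⟨p, hp, m p, ?_, 1, one_pos, fun x => ?_⟩)
      · rw [hφg _ p1, hφg _ p2]; exact (hm p hp).1
      · rw [hNE p hp, aE, one_mul]

end Pool.Agent.Work.MP_5b14b0_lc
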