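import Pool.Agent.Work.MP_5b14b0_lc.Memb
import Pool.Agent.Work.PT.Auto

/-!
# Membership in ER: the determinant description is written down in polynomial time
-/

set_option autoImplicit false

namespace Pool.Agent.Work.MP_5b14b0_lc.MF

open Pool.Agent.PT

/-! ### Polynomials and formulas depending on data, in polynomial time -/

section lib

variable {α β : Type} [Enc α] [Enc β]

/-- the tokens of the polynomial `p a` are computed in polynomial time -/
def PPoly (p : α → Poly) : Prop := PTF (fun a => (p a).toks)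

/-- the tokens of the formula `φ a` are computed in polynomial time -/
def PForm (φ : α → Formula) : Prop := PTF (fun a => (φ a).toks)

theorem PPoly.var {n : α → ℕ} (hn : PTF n) : PPoly (fun a => Poly.var (n a)) := by
  show PTF (fun a => [((0 : ℕ), List.replicate (n a) true)])
  fun_prop

theorem PPoly.int (z : ℤ) : PPoly (fun _ : α => Poly.int z) := by
  show PTF (fun _ : α => [((1 : ℕ), intBits z)])
  fun_prop

theorem PPoly.add {p q : α → Poly} (hp : PPoly p) (hq : PPoly q) :
    PPoly (fun a => Poly.add (p a) (q a)) := by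
  unfold PPoly at *
  show PTF (fun a => ((2 : ℕ), ([] : List Bool)) :: ((p a).toks ++ (q a).toks))
  fun_prop

theorem PPoly.mul {p q : α → Poly} (hp : PPoly p) (hq : PPoly q) :
    PPoly (fun a => Poly.mul (p a) (q a)) := by
  unfold PPoly at *
  show PTF (fun a => ((3 : ℕ), ([] : List Bool)) :: ((p a).toks ++ (q a).toks))
  fun_prop

theorem PForm.eq {p q : α → Poly} (hp : PPoly p) (hq : PPoly q) :
    PForm (fun a => Formula.eq (p a) (q a)) := by
  unfold PPoly at *
  show PTF (fun a => ((4 : ℕ), ([] : List Bool)) :: ((p a).toks ++ (q a).toks))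
  fun_prop

theorem PForm.lt {p q : α → Poly} (hp : PPoly p) (hq : PPoly q) :
    PForm (fun a => Formula.lt (p a) (q a)) := by
  unfold PPoly at *
  show PTF (fun a => ((5 : ℕ), ([] : List Bool)) :: ((p a).toks ++ (q a).toks))
  fun_prop

theorem PForm.not {φ : α → Formula} (h : PForm φ) : PForm (fun a => Formula.not (φ a)) := by
  unfold PForm at *
  show PTF (fun a => ((6 : ℕ), ([] : List Bool)) :: (φ a).toks)
  fun_prop

theorem PForm.and {φ ψ : α → Formula} (h : PForm φ) (h' : PForm ψ) :
    PForm (fun a => Formula.and (φ a) (ψ a)) := by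
  unfold PForm at *
  show PTF (fun a => ((7 : ℕ), ([] : List Bool)) :: ((φ a).toks ++ (ψ a).toks))
  fun_prop

theorem PForm.or {φ ψ : α → Formula} (h : PForm φ) (h' : PForm ψ) :
    PForm (fun a => Formula.or (φ a) (ψ a)) := by
  unfold PForm at *
  show PTF (fun a => ((8 : ℕ), ([] : List Bool)) :: ((φ a).toks ++ (ψ a).toks))
  fun_prop

theorem PForm.ite {c : α → Prop} [DecidablePred c] {φ ψ : α → Formula}
    (hc : PTF (fun a => decide (c a))) (h : PForm φ) (h' : PForm ψ) :
    PForm (fun a => if c a then φ a else ψ a) := by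
  unfold PForm at *
  refine (PTF.ite hc h h').congr (fun a => ?_)
  by_cases hca : c a <;> simp [hca]

/-- `true` -/
def fT : Formula := .eq (.int 0) (.int 0)

/-- `false` -/
def fF : Formula := .lt (.int 0) (.int 0)

theorem PForm.const (φ : Formula) : PForm (fun _ : α => φ) := PTF.const _

/-- conjunction of a list -/
def conj (l : List Formula) : Formula := l.foldr .and fT

/-- disjunction of a list -/
def disj (l : List Formula) : Formula := l.foldr .or fF

/-- sum of a list -/
def psum (l : List Poly) : Poly := l.foldr .add (.int 0)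

/-- product of a list -/
def pprod (l : List Poly) : Poly := l.foldr .mul (.int 1)

theorem conj_toks (l : List Formula) : (conj l).toks =
    l.flatMap (fun φ => ((7 : ℕ), ([] : List Bool)) :: φ.toks) ++ fT.toks := by
  induction l with
  | nil => rfl
  | cons φ l ih =>
    show ((7 : ℕ), ([] : List Bool)) :: (φ.toks ++ (conj l).toks) = _
    rw [ih]
    simp

theorem disj_toks (l : List Formula) : (disj l).toks =
    l.flatMap (fun φ => ((8 : ℕ), ([] : List Bool)) :: φ.toks) ++ fF.toks := by
  induction l with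
  | nil => rfl
  | cons φ l ih =>
    show ((8 : ℕ), ([] : List Bool)) :: (φ.toks ++ (disj l).toks) = _
    rw [ih]
    simp

theorem PForm.conj {l : α → List β} {φ : α → β → Formula} (hl : PTF l)
    (h : PForm (fun p : α × β => φ p.1 p.2)) :
    PForm (fun a => MP_5b14b0_lc.MF.conj ((l a).map (φ a))) := by
  unfold PForm at *
  have h2 : PTF (fun a => (l a).flatMap
      (fun b => ((7 : ℕ), ([] : List Bool)) :: (φ a b).toks) ++ fT.toks) := by
    fun_prop
  refine h2.congr (fun a => ?_)
  rw [conj_toks, List.flatMap_map]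

theorem PForm.disj {l : α → List β} {φ : α → β → Formula} (hl : PTF l)
    (h : PForm (fun p : α × β => φ p.1 p.2)) :
    PForm (fun a => MP_5b14b0_lc.MF.disj ((l a).map (φ a))) := by
  unfold PForm at *
  have h2 : PTF (fun a => (l a).flatMap
      (fun b => ((8 : ℕ), ([] : List Bool)) :: (φ a b).toks) ++ fF.toks) := by
    fun_prop
  refine h2.congr (fun a => ?_)
  rw [disj_toks, List.flatMap_map]

/-- disjunction over a constant list (of arbitrary type) -/
theorem PForm.disjC {ι : Type} (L : List ι) {φ : α → ι → Formula}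
    (h : ∀ i ∈ L, PForm (fun a => φ a i)) :
    PForm (fun a => MP_5b14b0_lc.MF.disj (L.map (φ a))) := by
  induction L with
  | nil => exact PForm.const _
  | cons i L ih =>
    exact (h i (by simp)).or (ih (fun j hj => h j (by simp [hj])))

theorem PPoly.sumC {ι : Type} (L : List ι) {p : α → ι → Poly}
    (h : ∀ i ∈ L, PPoly (fun a => p a i)) :
    PPoly (fun a => psum (L.map (p a))) := by
  induction L with
  | nil => exact PPoly.int 0
  | cons i L ih =>
    exact (h i (by simp)).add (ih (fun j hj => h j (by simp [hj])))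

theorem PPoly.prodC {ι : Type} (L : List ι) {p : α → ι → Poly}
    (h : ∀ i ∈ L, PPoly (fun a => p a i)) :
    PPoly (fun a => pprod (L.map (p a))) := by
  induction L with
  | nil => exact PPoly.int 1
  | cons i L ih =>
    exact (h i (by simp)).mul (ih (fun j hj => h j (by simp [hj])))

/-! ### Semantics -/

variable {x : ℕ → ℝ}

theorem fT_holds : fT.Holds x := rfl

theorem fF_holds : ¬ fF.Holds x := lt_irrefl _

theorem conj_holds {l : List Formula} : (conj l).Holds x ↔ ∀ φ ∈ l, φ.Holds x := by
  induction l with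
  | nil => exact ⟨fun _ φ h => by simp at h, fun _ => fT_holds⟩
  | cons φ l ih =>
    show (φ.Holds x ∧ (conj l).Holds x) ↔ _
    rw [ih]
    simp

theorem disj_holds {l : List Formula} : (disj l).Holds x ↔ ∃ φ ∈ l, φ.Holds x := by
  induction l with
  | nil => exact ⟨fun h => absurd h fF_holds, fun ⟨φ, h, _⟩ => by simp at h⟩
  | cons φ l ih =>
    show (φ.Holds x ∨ (disj l).Holds x) ↔ _
    rw [ih]
    simp

theorem conj_map_holds {ι : Type} {l : List ι} {φ : ι → Formula} :
    (conj (l.map φ)).Holds x ↔ ∀ i ∈ l, (φ i).Holds x := by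
  rw [conj_holds]
  simp

theorem disj_map_holds {ι : Type} {l : List ι} {φ : ι → Formula} :
    (disj (l.map φ)).Holds x ↔ ∃ i ∈ l, (φ i).Holds x := by
  rw [disj_holds]
  simp

theorem psum_eval {l : List Poly} : (psum l).eval x = (l.map (Poly.eval x)).sum := by
  induction l with
  | nil => simp [psum, Poly.eval]
  | cons p l ih =>
    show p.eval x + (psum l).eval x = _
    rw [ih]
    simp

theorem pprod_eval {l : List Poly} : (pprod l).eval x = (l.map (Poly.eval x)).prod := by
  induction l with
  | nil => simp [pprod, Poly.eval]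
  | cons p l ih =>
    show p.eval x * (pprod l).eval x = _
    rw [ih]
    simp

end lib

/-! ### Tuples -/

/-- all lists of length `k` with entries below `n` -/
def tuples : ℕ → ℕ → List (List ℕ)
  | 0, _ => [[]]
  | k + 1, n => (tuples k n).flatMap (fun t => (List.range n).map (fun i => i :: t))

theorem mem_tuples (k n : ℕ) (t : List ℕ) :
    t ∈ tuples k n ↔ t.length = k ∧ ∀ i ∈ t, i < n := by
  induction k generalizing t with
  | zero =>
    simp only [tuples, List.mem_singleton, List.length_eq_zero_iff]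
    constructor
    · rintro rfl
      simp
    · exact fun h => h.1
  | succ k ih =>
    simp only [tuples, List.mem_flatMap, List.mem_map, List.mem_range]
    constructor
    · rintro ⟨s, hs, i, hi, rfl⟩
      obtain ⟨h1, h2⟩ := (ih s).1 hs
      refine ⟨by simp [h1], ?_⟩
      intro j hj
      rcases List.mem_cons.1 hj with rfl | hj
      · exact hi
      · exact h2 j hj
    · rintro ⟨h1, h2⟩
      cases t with
      | nil => simp at h1
      | cons i s =>
        refine ⟨s, (ih s).2 ⟨by simpa using h1, fun j hj => h2 j (by simp [hj])⟩, i,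
          h2 i (by simp), rfl⟩

theorem ptf_tuples (k : ℕ) {α : Type} [Enc α] {n : α → ℕ} (hn : PTF n) :
    PTF (fun a => tuples k (n a)) := by
  induction k with
  | zero => exact PTF.const _
  | succ k ih =>
    show PTF (fun a => (tuples k (n a)).flatMap (fun t => (List.range (n a)).map (fun i => i :: t)))
    fun_prop

/-- quantifiers over tuples as functions and as lists -/
theorem exists_tuple {d n : ℕ} {P : (Fin d → ℕ) → Prop} :
    (∃ t : Fin d → ℕ, (∀ k, t k < n) ∧ P t) ↔
      ∃ l ∈ tuples d n, P (fun k => l.getD k 0) := by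
  constructor
  · rintro ⟨t, ht, hP⟩
    refine ⟨List.ofFn t, (mem_tuples _ _ _).2 ⟨List.length_ofFn, ?_⟩, ?_⟩
    · intro i hi
      rw [List.mem_ofFn] at hi
      obtain ⟨k, rfl⟩ := hi
      exact ht k
    · have : (fun k : Fin d => (List.ofFn t).getD k 0) = t := by
        funext k
        simp [List.getD_eq_getElem?_getD]
      rwa [this]
  · rintro ⟨l, hl, hP⟩
    obtain ⟨h1, h2⟩ := (mem_tuples _ _ _).1 hl
    refine ⟨_, ?_, hP⟩
    intro k
    have hk : (k : ℕ) < l.length := by rw [h1]; exact k.2
    rw [List.getD_eq_getElem _ _ hk]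
    exact h2 _ (List.getElem_mem hk)

/-! ### The determinant polynomial -/

/-- homogeneous coordinates as polynomials -/
def pRow (d i k : ℕ) : Poly := if k < d then .var (d * i + k) else .int 1

/-- the `r`-th point of the tuple `t`, `j` -/
def ix (d : ℕ) (t : List ℕ) (j r : ℕ) : ℕ := if r < d then t.getD r 0 else j

/-- the determinant polynomial -/
noncomputable def pDet (d : ℕ) (t : List ℕ) (j : ℕ) : Poly :=
  psum ((Finset.univ : Finset (Equiv.Perm (Fin (d + 1)))).toList.map
    (fun σ : Equiv.Perm (Fin (d + 1)) =>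
      Poly.mul (Poly.int (Equiv.Perm.sign σ : ℤ))
        (pprod ((List.finRange (d + 1)).map (fun i : Fin (d + 1) =>
          pRow d (ix d t j ((σ i : Fin (d + 1)) : ℕ)) (i : ℕ))))))

theorem pDet_eval (d : ℕ) (t : List ℕ) (j : ℕ) (x : ℕ → ℝ) :
    (pDet d t j).eval x = Dt d x (fun k => t.getD k 0) j := by
  unfold pDet Dt
  rw [psum_eval, Matrix.det_apply, List.map_map, Finset.sum_map_toList]
  refine Finset.sum_congr rfl (fun σ _ => ?_)
  show ((Equiv.Perm.sign σ : ℤ) : ℝ) * _ = _
  rw [pprod_eval, List.map_map, ← Fin.prod_univ_def, Units.smul_def, zsmul_eq_mul]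
  congr 1
  refine Finset.prod_congr rfl (fun i _ => ?_)
  show (pRow d (ix d t j (σ i)) i).eval x = hrow d x _ i
  unfold pRow hrow ix
  by_cases h : (i : ℕ) < d
  · simp only [h, if_true, Poly.eval]
    by_cases h2 : ((σ i : Fin (d + 1)) : ℕ) < d
    · simp [h2]
    · simp [h2]
  · simp [h, Poly.eval]

theorem pPoly_det (d : ℕ) {α : Type} [Enc α] {t : α → List ℕ} {j : α → ℕ} (ht : PTF t)
    (hj : PTF j) : PPoly (fun a => pDet d (t a) (j a)) := by
  refine PPoly.sumC _ (p := fun a (σ : Equiv.Perm (Fin (d + 1))) =>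
    Poly.mul (Poly.int (Equiv.Perm.sign σ : ℤ))
      (pprod ((List.finRange (d + 1)).map (fun i : Fin (d + 1) =>
        pRow d (ix d (t a) (j a) ((σ i : Fin (d + 1)) : ℕ)) (i : ℕ))))) ?_
  intro σ _
  refine PPoly.mul (PPoly.int _) (PPoly.prodC _ (p := fun a (i : Fin (d + 1)) =>
    pRow d (ix d (t a) (j a) ((σ i : Fin (d + 1)) : ℕ)) (i : ℕ)) ?_)
  intro i _
  unfold pRow
  by_cases h : (i : ℕ) < d
  · simp only [h, if_true]
    refine PPoly.var ?_
    unfold ix
    by_cases h2 : ((σ i : Fin (d + 1)) : ℕ) < d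
    · simp only [h2, if_true]
      fun_prop
    · simp only [h2, if_false]
      fun_prop
  · simp only [h, if_false]
    exact PPoly.int 1

/-! ### The formula -/

/-- some determinant is not zero -/
noncomputable def fNZ (d n : ℕ) (t : List ℕ) : Formula :=
  disj ((List.range n).map (fun j => Formula.not (.eq (pDet d t j) (.int 0))))

/-- the determinants are one-signed -/
noncomputable def fSide (d n : ℕ) (t : List ℕ) : Formula :=
  .or (conj ((List.range n).map (fun j => Formula.not (.lt (pDet d t j) (.int 0)))))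
    (conj ((List.range n).map (fun j => Formula.not (.lt (.int 0) (pDet d t j)))))

/-- the zero set of the determinants -/
noncomputable def fSet (d n : ℕ) (t G : List ℕ) : Formula :=
  conj ((List.range n).map (fun j => if j ∈ G then Formula.eq (pDet d t j) (.int 0)
    else Formula.not (.eq (pDet d t j) (.int 0))))

/-- the points are distinct -/
def fDist (d n : ℕ) : Formula :=
  conj ((List.range n).map (fun i => conj ((List.range n).map (fun j =>
    if i = j then fT else disj ((List.range d).map (fun k =>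
      Formula.not (.eq (.var (d * i + k)) (.var (d * j + k)))))))))

/-- difference of two variables -/
def pDiff (a b : ℕ) : Poly := .add (.var a) (.mul (.int (-1)) (.var b))

/-- the points are on a sphere -/
def fSph (d n : ℕ) : Formula :=
  conj ((List.range n).map (fun i => Formula.eq
    (psum ((List.range d).map (fun k => Poly.mul (pDiff (d * i + k) (d * n + k))
      (pDiff (d * i + k) (d * n + k))))) (.var (d * n + d))))

/-- the points span -/
noncomputable def fFull (d n : ℕ) : Formula := disj ((tuples d n).map (fun t => fNZ d n t))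

/-- every facet is given -/
noncomputable def fFac (d n : ℕ) (Fs : List (List ℕ)) : Formula :=
  conj ((tuples d n).map (fun t => Formula.or (.not (fNZ d n t)) (.or (.not (fSide d n t))
    (disj (Fs.map (fun G => fSet d n t G))))))

/-- every given set is a facet -/
noncomputable def fAll (d n : ℕ) (Fs : List (List ℕ)) : Formula :=
  conj (Fs.map (fun G => disj ((tuples d n).map (fun t => Formula.and (fNZ d n t)
    (.and (fSide d n t) (fSet d n t G))))))

/-- the whole formula -/
noncomputable def fMain (d n : ℕ) (Fs : List (List ℕ)) : Formula :=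
  .and (fDist d n) (.and (fSph d n) (.and (fFull d n) (.and (fFac d n Fs) (fAll d n Fs))))

section ptf

variable {α : Type} [Enc α]

theorem pForm_NZ (d : ℕ) {n : α → ℕ} {t : α → List ℕ} (hn : PTF n) (ht : PTF t) :
    PForm (fun a => fNZ d (n a) (t a)) :=
  PForm.disj (l := fun a => List.range (n a))
    (φ := fun a j => Formula.not (.eq (pDet d (t a) j) (.int 0))) hn.range
    (PForm.not (PForm.eq (pPoly_det d (ht.comp PTF.fst) PTF.snd) (PPoly.int 0)))

theorem pForm_Side (d : ℕ) {n : α → ℕ} {t : α → List ℕ} (hn : PTF n) (ht : PTF t) :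
    PForm (fun a => fSide d (n a) (t a)) :=
  PForm.or (PForm.conj (l := fun a => List.range (n a))
    (φ := fun a j => Formula.not (.lt (pDet d (t a) j) (.int 0))) hn.range
    (PForm.not (PForm.lt (pPoly_det d (ht.comp PTF.fst) PTF.snd) (PPoly.int 0))))
    (PForm.conj (l := fun a => List.range (n a))
    (φ := fun a j => Formula.not (.lt (.int 0) (pDet d (t a) j))) hn.range
    (PForm.not (PForm.lt (PPoly.int 0) (pPoly_det d (ht.comp PTF.fst) PTF.snd))))

theorem pForm_Set (d : ℕ) {n : α → ℕ} {t G : α → List ℕ} (hn : PTF n) (ht : PTF t) (hG : PTF G) :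
    PForm (fun a => fSet d (n a) (t a) (G a)) :=
  PForm.conj (l := fun a => List.range (n a))
    (φ := fun a j => if j ∈ G a then Formula.eq (pDet d (t a) j) (.int 0)
      else Formula.not (.eq (pDet d (t a) j) (.int 0))) hn.range
    (PForm.ite (c := fun p : α × ℕ => p.2 ∈ G p.1)
      (by
        have hG' := hG.comp (PTF.fst (α := α) (β := ℕ))
        exact PTF.mem PTF.snd hG')
      (PForm.eq (pPoly_det d (ht.comp PTF.fst) PTF.snd) (PPoly.int 0))
      (PForm.not (PForm.eq (pPoly_det d (ht.comp PTF.fst) PTF.snd) (PPoly.int 0))))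

theorem pForm_Dist (d : ℕ) {n : α → ℕ} (hn : PTF n) : PForm (fun a => fDist d (n a)) := by
  refine PForm.conj (l := fun a => List.range (n a)) (φ := fun a i =>
    conj ((List.range (n a)).map (fun j =>
      if i = j then fT else disj ((List.range d).map (fun k =>
        Formula.not (.eq (.var (d * i + k)) (.var (d * j + k)))))))) hn.range ?_
  refine PForm.conj (l := fun p : α × ℕ => List.range (n p.1)) (φ := fun p j =>
      if p.2 = j then fT else disj ((List.range d).map (fun k =>
        Formula.not (.eq (.var (d * p.2 + k)) (.var (d * j + k)))))) (by fun_prop) ?_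
  refine PForm.ite (c := fun q : (α × ℕ) × ℕ => q.1.2 = q.2) (by fun_prop) (PForm.const _) ?_
  refine PForm.disjC (List.range d) (φ := fun (q : (α × ℕ) × ℕ) k =>
    Formula.not (.eq (.var (d * q.1.2 + k)) (.var (d * q.2 + k)))) ?_
  intro k _
  exact PForm.not (PForm.eq (PPoly.var (by fun_prop)) (PPoly.var (by fun_prop)))

theorem pPoly_diff {m k : α → ℕ} (hm : PTF m) (hk : PTF k) :
    PPoly (fun a => pDiff (m a) (k a)) :=
  PPoly.add (PPoly.var hm) (PPoly.mul (PPoly.int _) (PPoly.var hk))

theorem pForm_Sph (d : ℕ) {n : α → ℕ} (hn : PTF n) : PForm (fun a => fSph d (n a)) := by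
  refine PForm.conj (l := fun a => List.range (n a)) (φ := fun a i => Formula.eq
    (psum ((List.range d).map (fun k => Poly.mul (pDiff (d * i + k) (d * n a + k))
      (pDiff (d * i + k) (d * n a + k))))) (.var (d * n a + d))) hn.range ?_
  refine PForm.eq (PPoly.sumC (List.range d) (p := fun (q : α × ℕ) k =>
    Poly.mul (pDiff (d * q.2 + k) (d * n q.1 + k)) (pDiff (d * q.2 + k) (d * n q.1 + k))) ?_)
    (PPoly.var (by fun_prop))
  intro k _
  exact PPoly.mul (pPoly_diff (by fun_prop) (by fun_prop)) (pPoly_diff (by fun_prop) (by fun_prop))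

theorem pForm_Full (d : ℕ) {n : α → ℕ} (hn : PTF n) : PForm (fun a => fFull d (n a)) :=
  PForm.disj (l := fun a => tuples d (n a)) (φ := fun a t => fNZ d (n a) t) (ptf_tuples d hn)
    (pForm_NZ d (hn.comp PTF.fst) PTF.snd)

theorem pForm_Fac (d : ℕ) {n : α → ℕ} {Fs : α → List (List ℕ)} (hn : PTF n) (hF : PTF Fs) :
    PForm (fun a => fFac d (n a) (Fs a)) := by
  refine PForm.conj (l := fun a => tuples d (n a)) (φ := fun a t =>
    Formula.or (.not (fNZ d (n a) t)) (.or (.not (fSide d (n a) t))
      (disj ((Fs a).map (fun G => fSet d (n a) t G))))) (ptf_tuples d hn) ?_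
  refine PForm.or (PForm.not (pForm_NZ d (hn.comp PTF.fst) PTF.snd))
    (PForm.or (PForm.not (pForm_Side d (hn.comp PTF.fst) PTF.snd)) ?_)
  exact PForm.disj (l := fun p : α × List ℕ => Fs p.1)
    (φ := fun p G => fSet d (n p.1) p.2 G) (hF.comp PTF.fst)
    (pForm_Set d (by fun_prop) (by fun_prop) (by fun_prop))

theorem pForm_All (d : ℕ) {n : α → ℕ} {Fs : α → List (List ℕ)} (hn : PTF n) (hF : PTF Fs) :
    PForm (fun a => fAll d (n a) (Fs a)) := by
  refine PForm.conj (l := fun a => Fs a) (φ := fun a G =>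
    disj ((tuples d (n a)).map (fun t => Formula.and (fNZ d (n a) t)
      (.and (fSide d (n a) t) (fSet d (n a) t G))))) hF ?_
  refine PForm.disj (l := fun p : α × List ℕ => tuples d (n p.1)) (φ := fun p t =>
    Formula.and (fNZ d (n p.1) t) (.and (fSide d (n p.1) t) (fSet d (n p.1) t p.2)))
    (ptf_tuples d (hn.comp PTF.fst)) ?_
  exact PForm.and (pForm_NZ d (by fun_prop) (by fun_prop))
    (PForm.and (pForm_Side d (by fun_prop) (by fun_prop))
      (pForm_Set d (by fun_prop) (by fun_prop) (by fun_prop)))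

theorem pForm_Main (d : ℕ) {n : α → ℕ} {Fs : α → List (List ℕ)} (hn : PTF n) (hF : PTF Fs) :
    PForm (fun a => fMain d (n a) (Fs a)) :=
  PForm.and (pForm_Dist d hn) (PForm.and (pForm_Sph d hn) (PForm.and (pForm_Full d hn)
    (PForm.and (pForm_Fac d hn hF) (pForm_All d hn hF))))

end ptf

/-! ### Semantics of the formula -/

section sem

variable {d n : ℕ} {x : ℕ → ℝ}

/-- the tuple given by a list -/
def tup (d : ℕ) (t : List ℕ) : Fin d → ℕ := fun k => t.getD k 0

theorem fNZ_holds {t : List ℕ} : (fNZ d n t).Holds x ↔ ∃ j, j < n ∧ Dt d x (tup d t) j ≠ 0 := by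
  unfold fNZ
  rw [disj_map_holds]
  simp only [List.mem_range]
  refine exists_congr (fun j => and_congr_right (fun _ => ?_))
  show ¬ ((pDet d t j).eval x = ((0 : ℤ) : ℝ)) ↔ _
  rw [pDet_eval, Int.cast_zero]
  rfl

theorem fSide_holds {t : List ℕ} : (fSide d n t).Holds x ↔
    ((∀ j, j < n → 0 ≤ Dt d x (tup d t) j) ∨ (∀ j, j < n → Dt d x (tup d t) j ≤ 0)) := by
  unfold fSide
  show ((conj _).Holds x ∨ (conj _).Holds x) ↔ _
  rw [conj_map_holds, conj_map_holds]
  simp only [List.mem_range]
  refine or_congr (forall_congr' (fun j => imp_congr_right (fun _ => ?_)))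
    (forall_congr' (fun j => imp_congr_right (fun _ => ?_)))
  · show ¬ ((pDet d t j).eval x < ((0 : ℤ) : ℝ)) ↔ _
    rw [pDet_eval, Int.cast_zero, not_lt]
    rfl
  · show ¬ (((0 : ℤ) : ℝ) < (pDet d t j).eval x) ↔ _
    rw [pDet_eval, Int.cast_zero, not_lt]
    rfl

theorem fSet_holds {t G : List ℕ} : (fSet d n t G).Holds x ↔
    ∀ j, j < n → (Dt d x (tup d t) j = 0 ↔ j ∈ G) := by
  unfold fSet
  rw [conj_map_holds]
  simp only [List.mem_range]
  refine forall_congr' (fun j => imp_congr_right (fun _ => ?_))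
  by_cases h : j ∈ G
  · simp only [h, if_true, iff_true]
    show (pDet d t j).eval x = ((0 : ℤ) : ℝ) ↔ _
    rw [pDet_eval, Int.cast_zero]
    rfl
  · simp only [h, if_false, iff_false]
    show ¬ ((pDet d t j).eval x = ((0 : ℤ) : ℝ)) ↔ _
    rw [pDet_eval, Int.cast_zero]
    rfl

theorem fDist_holds : (fDist d n).Holds x ↔
    ∀ i j, i < n → j < n → i ≠ j → ∃ k, k < d ∧ x (d * i + k) ≠ x (d * j + k) := by
  unfold fDist
  rw [conj_map_holds]
  simp only [List.mem_range, conj_map_holds]
  constructor
  · intro h i j hi hj hij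
    have h1 := h i hi j hj
    rw [if_neg hij, disj_map_holds] at h1
    obtain ⟨k, hk, h2⟩ := h1
    exact ⟨k, List.mem_range.1 hk, h2⟩
  · intro h i hi j hj
    by_cases hij : i = j
    · rw [if_pos hij]
      exact fT_holds
    · rw [if_neg hij, disj_map_holds]
      obtain ⟨k, hk, h2⟩ := h i j hi hj hij
      exact ⟨k, List.mem_range.2 hk, h2⟩

theorem sum_range_list (f : ℕ → ℝ) (d : ℕ) :
    ((List.range d).map f).sum = ∑ k ∈ Finset.range d, f k := by
  induction d with
  | zero => simp
  | succ d ih =>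
    rw [List.range_succ, List.map_append, List.sum_append, ih, Finset.sum_range_succ]
    simp

theorem fSph_holds : (fSph d n).Holds x ↔ ∀ i, i < n →
    ∑ k ∈ Finset.range d, (x (d * i + k) - x (d * n + k)) ^ 2 = x (d * n + d) := by
  unfold fSph
  rw [conj_map_holds]
  simp only [List.mem_range]
  refine forall_congr' (fun i => imp_congr_right (fun _ => ?_))
  show (psum _).eval x = x (d * n + d) ↔ _
  rw [psum_eval, List.map_map, sum_range_list]
  have e : ∀ k, (Poly.eval x ∘ fun k => Poly.mul (pDiff (d * i + k) (d * n + k))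
      (pDiff (d * i + k) (d * n + k))) k = (x (d * i + k) - x (d * n + k)) ^ 2 := by
    intro k
    simp only [Function.comp, Poly.eval, pDiff]
    push_cast
    ring
  rw [Finset.sum_congr rfl (fun k _ => e k)]

/-- the body of the determinant description, with the centre and the radius as coordinates of
`x` -/
def Body (d n : ℕ) (Fs : List (List ℕ)) (x : ℕ → ℝ) : Prop :=
  (∀ i j, i < n → j < n → i ≠ j → ∃ k, k < d ∧ x (d * i + k) ≠ x (d * j + k)) ∧
  (∀ i, i < n → ∑ k ∈ Finset.range d, (x (d * i + k) - x (d * n + k)) ^ 2 = x (d * n + d)) ∧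
  (∃ t : Fin d → ℕ, (∀ k, t k < n) ∧ ∃ j, j < n ∧ Dt d x t j ≠ 0) ∧
  (∀ t : Fin d → ℕ, (∀ k, t k < n) → (∃ j, j < n ∧ Dt d x t j ≠ 0) →
    ((∀ j, j < n → 0 ≤ Dt d x t j) ∨ (∀ j, j < n → Dt d x t j ≤ 0)) →
    ∃ G ∈ Fs, ∀ j, j < n → (Dt d x t j = 0 ↔ j ∈ G)) ∧
  (∀ G ∈ Fs, ∃ t : Fin d → ℕ, (∀ k, t k < n) ∧ Spans d n x t G)

theorem forall_tuple {P : (Fin d → ℕ) → Prop} :
    (∀ t : Fin d → ℕ, (∀ k, t k < n) → P t) ↔ ∀ l ∈ tuples d n, P (tup d l) := by
  have h := not_congr (exists_tuple (d := d) (n := n) (P := fun t => ¬ P t))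
  push Not at h
  exact h

theorem not_or_not_or_iff {A B C : Prop} : (¬A ∨ ¬B ∨ C) ↔ (A → B → C) := by
  rw [← imp_iff_not_or, ← imp_iff_not_or]

theorem fMain_holds {Fs : List (List ℕ)} : (fMain d n Fs).Holds x ↔ Body d n Fs x := by
  unfold fMain Body
  show ((fDist d n).Holds x ∧ (fSph d n).Holds x ∧ (fFull d n).Holds x ∧
    (fFac d n Fs).Holds x ∧ (fAll d n Fs).Holds x) ↔ _
  refine and_congr fDist_holds (and_congr fSph_holds (and_congr ?_ (and_congr ?_ ?_)))
  · unfold fFull
    rw [disj_map_holds, exists_tuple]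
    refine exists_congr (fun t => and_congr_right (fun _ => ?_))
    exact fNZ_holds
  · unfold fFac
    rw [conj_map_holds, forall_tuple]
    refine forall_congr' (fun t => imp_congr_right (fun _ => ?_))
    show (¬ (fNZ d n t).Holds x ∨ ¬ (fSide d n t).Holds x ∨ (disj _).Holds x) ↔ _
    rw [fNZ_holds, fSide_holds, disj_map_holds]
    simp only [fSet_holds]
    exact not_or_not_or_iff
  · unfold fAll
    rw [conj_map_holds]
    refine forall_congr' (fun G => imp_congr_right (fun _ => ?_))
    rw [disj_map_holds, exists_tuple]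
    refine exists_congr (fun t => and_congr_right (fun _ => ?_))
    show ((fNZ d n t).Holds x ∧ (fSide d n t).Holds x ∧ (fSet d n t G).Holds x) ↔ _
    rw [fNZ_holds, fSide_holds, fSet_holds]
    rfl

theorem lt_of_index {d n i k : ℕ} (hi : i < n) (hk : k < d) : d * i + k < d * n := by
  calc d * i + k < d * i + d := by omega
    _ = d * (i + 1) := by ring
    _ ≤ d * n := Nat.mul_le_mul_left d hi

theorem Dt_congr {x y : ℕ → ℝ} (h : ∀ i k, i < n → k < d → x (d * i + k) = y (d * i + k))
    {t : Fin d → ℕ} (ht : ∀ k, t k < n) {j : ℕ} (hj : j < n) : Dt d x t j = Dt d y t j := by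
  unfold Dt
  congr 1
  ext r k
  simp only [Matrix.of_apply]
  unfold hrow
  by_cases hk : (k : ℕ) < d
  · simp only [hk, if_true]
    by_cases hr : (r : ℕ) < d
    · simp only [hr, dif_pos]
      exact h _ _ (ht _) hk
    · simp only [hr, dif_neg, not_false_iff]
      exact h _ _ hj hk
  · simp only [hk, if_false]

theorem exists_body_iff {T : CombType} (hv : ∀ G ∈ T.facets, ∀ i ∈ G, i < T.n) :
    (∃ x : ℕ → ℝ, Body d T.n T.facets x) ↔ InsDet d T := by
  constructor
  · rintro ⟨x, h1, h2, h3, h4, h5⟩
    exact ⟨hv, x, h1, ⟨fun k => x (d * T.n + k), x (d * T.n + d), h2⟩, h3, h4, h5⟩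
  · rintro ⟨_, x, h1, ⟨c, r, h2⟩, h3, h4, h5⟩
    set n := T.n with hn
    set y : ℕ → ℝ := fun m => if m < d * n then x m else if m < d * n + d then c (m - d * n)
      else r with hy
    have hxy : ∀ i k, i < n → k < d → x (d * i + k) = y (d * i + k) := by
      intro i k hi hk
      rw [hy]
      simp only [lt_of_index hi hk, if_true]
    have hc : ∀ k, k < d → y (d * n + k) = c k := by
      intro k hk
      have a1 : ¬ (d * n + k < d * n) := by omega
      have a2 : d * n + k < d * n + d := by omega
      rw [hy]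
      simp only [a1, a2, if_true, if_false]
      congr 1
      omega
    have hr : y (d * n + d) = r := by
      have a1 : ¬ (d * n + d < d * n) := by omega
      have a2 : ¬ (d * n + d < d * n + d) := by omega
      rw [hy]
      simp only [a1, a2, if_false]
    have hD : ∀ t : Fin d → ℕ, (∀ k, t k < n) → ∀ j, j < n → Dt d y t j = Dt d x t j :=
      fun t ht j hj => (Dt_congr hxy ht hj).symm
    refine ⟨y, ?_, ?_, ?_, ?_, ?_⟩
    · intro i j hi hj hij
      obtain ⟨k, hk, h⟩ := h1 i j hi hj hij
      exact ⟨k, hk, by rw [← hxy i k hi hk, ← hxy j k hj hk]; exact h⟩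
    · intro i hi
      rw [hr, ← h2 i hi]
      refine Finset.sum_congr rfl (fun k hk => ?_)
      have hk' := Finset.mem_range.1 hk
      rw [← hxy i k hi hk', hc k hk']
    · obtain ⟨t, ht, j, hj, h⟩ := h3
      exact ⟨t, ht, j, hj, by rw [hD t ht j hj]; exact h⟩
    · intro t ht hnz hside
      have hnz' : ∃ j, j < n ∧ Dt d x t j ≠ 0 := by
        obtain ⟨j, hj, h⟩ := hnz
        exact ⟨j, hj, by rw [← hD t ht j hj]; exact h⟩
      have hside' : (∀ j, j < n → 0 ≤ Dt d x t j) ∨ (∀ j, j < n → Dt d x t j ≤ 0) := by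
        rcases hside with h | h
        · exact Or.inl (fun j hj => by rw [← hD t ht j hj]; exact h j hj)
        · exact Or.inr (fun j hj => by rw [← hD t ht j hj]; exact h j hj)
      obtain ⟨G, hG, h⟩ := h4 t ht hnz' hside'
      exact ⟨G, hG, fun j hj => by rw [hD t ht j hj]; exact h j hj⟩
    · intro G hG
      obtain ⟨t, ht, ⟨j, hj, a1⟩, a2, a3⟩ := h5 G hG
      refine ⟨t, ht, ⟨j, hj, by rw [hD t ht j hj]; exact a1⟩, ?_, ?_⟩
      · rcases a2 with h | h
        · exact Or.inl (fun j hj => by rw [hD t ht j hj]; exact h j hj)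
        · exact Or.inr (fun j hj => by rw [hD t ht j hj]; exact h j hj)
      · exact fun j hj => by rw [hD t ht j hj]; exact a3 j hj

end sem

theorem claimMembFormula : ClaimMembFormula := by
  intro d _
  have hP : PForm (fun a : ℕ × List (List ℕ) =>
      if (∀ G ∈ a.2, ∀ i ∈ G, i < a.1) then fMain d a.1 a.2 else fF) := by
    refine PForm.ite (c := fun a : ℕ × List (List ℕ) => ∀ G ∈ a.2, ∀ i ∈ G, i < a.1) ?_
      (pForm_Main d PTF.fst PTF.snd) (PForm.const _)
    have h : PTF (fun a : ℕ × List (List ℕ) => a.2.all (fun G => G.all (fun i =>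
        decide (i < a.1)))) := by fun_prop
    refine h.congr (fun a => ?_)
    rw [Bool.eq_iff_iff]
    simp
  refine ⟨_, hP, ?_⟩
  intro T
  refine ⟨_, rfl, ?_⟩
  by_cases hv : ∀ G ∈ T.facets, ∀ i ∈ G, i < T.n
  · simp only [if_pos hv]
    rw [← exists_body_iff hv]
    exact exists_congr (fun x => fMain_holds)
  · simp only [if_neg hv]
    constructor
    · rintro ⟨x, hx⟩
      exact absurd hx fF_holds
    · intro h
      exact absurd h.1 hv

end Pool.Agent.Work.MP_5b14b0_lc.MF
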