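import Pool.Agent.Work.MP_5b14b0_lc.Memb

/-!
# Geometry of the determinant description (ClaimMembGeom)
-/

set_option autoImplicit false

namespace Pool.Agent.Work.MP_5b14b0_lc

namespace MembG

open Set

/-- The space. -/
abbrev E (d : ℕ) := EuclideanSpace ℝ (Fin d)

/-- Homogeneous coordinates. -/
noncomputable def hom {d : ℕ} (y : E d) : Fin (d + 1) → ℝ :=
  Fin.snoc (α := fun _ => ℝ) (fun k => y k) 1

theorem hom_castSucc {d : ℕ} (y : E d) (k : Fin d) : hom y k.castSucc = y k := by
  simp [hom]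

theorem hom_last {d : ℕ} (y : E d) : hom y (Fin.last d) = 1 := by
  simp [hom]

theorem hom_linInd {d : ℕ} {ι : Type} (q : ι → E d) :
    LinearIndependent ℝ (fun i => hom (q i)) ↔ AffineIndependent ℝ q := by
  rw [affineIndependent_iff, linearIndependent_iff']
  refine forall_congr' fun s => forall_congr' fun w => ?_
  constructor
  · intro h h1 h2
    apply h
    funext k
    refine Fin.lastCases ?_ (fun k => ?_) k
    · simp only [Finset.sum_apply, Pi.smul_apply, hom_last, smul_eq_mul, mul_one, Pi.zero_apply]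
      exact h1
    · simp only [Finset.sum_apply, Pi.smul_apply, hom_castSucc, smul_eq_mul, Pi.zero_apply]
      have h3 := congrArg (fun y : E d => y k) h2
      simpa using h3
  · intro h h1
    apply h
    · have h3 := congrFun h1 (Fin.last d)
      simp only [Finset.sum_apply, Pi.smul_apply, hom_last, smul_eq_mul, mul_one,
        Pi.zero_apply] at h3
      exact h3
    · ext k
      have h3 := congrFun h1 k.castSucc
      simp only [Finset.sum_apply, Pi.smul_apply, hom_castSucc, smul_eq_mul,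
        Pi.zero_apply] at h3
      simpa using h3

/-- The determinant as a linear functional in the last row. -/
noncomputable def dl {d : ℕ} (v : Fin d → (Fin (d + 1) → ℝ)) : (Fin (d + 1) → ℝ) →ₗ[ℝ] ℝ :=
  (Matrix.detRowAlternating (R := ℝ) (n := Fin (d + 1))).toMultilinearMap.toLinearMap
    (Fin.snoc (α := fun _ => Fin (d + 1) → ℝ) v 0) (Fin.last d)

theorem dl_apply {d : ℕ} (v : Fin d → (Fin (d + 1) → ℝ)) (w : Fin (d + 1) → ℝ) :
    dl v w = Matrix.det (Matrix.of (Fin.snoc (α := fun _ => Fin (d + 1) → ℝ) v w)) := by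
  have h1 : dl v w = Matrix.det (Function.update
    (Fin.snoc (α := fun _ => Fin (d + 1) → ℝ) v 0) (Fin.last d) w) := rfl
  rw [h1, Fin.update_snoc_last]
  rfl

theorem dl_self {d : ℕ} (v : Fin d → (Fin (d + 1) → ℝ)) (k : Fin d) : dl v (v k) = 0 := by
  rw [dl_apply]
  refine Matrix.det_zero_of_row_eq (i := k.castSucc) (j := Fin.last d) (Fin.castSucc_ne_last k) ?_
  change Fin.snoc (α := fun _ => Fin (d + 1) → ℝ) v (v k) k.castSucc =
    Fin.snoc (α := fun _ => Fin (d + 1) → ℝ) v (v k) (Fin.last d)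
  rw [Fin.snoc_castSucc, Fin.snoc_last]

theorem dl_ne {d : ℕ} {v : Fin d → (Fin (d + 1) → ℝ)} {w : Fin (d + 1) → ℝ} :
    dl v w ≠ 0 ↔ LinearIndependent ℝ (Fin.snoc (α := fun _ => Fin (d + 1) → ℝ) v w) := by
  rw [dl_apply, ← isUnit_iff_ne_zero, ← Matrix.isUnit_iff_isUnit_det,
    ← Matrix.linearIndependent_rows_iff_isUnit]
  rfl

theorem dl_prop {d : ℕ} {v : Fin d → (Fin (d + 1) → ℝ)} {w0 : Fin (d + 1) → ℝ}
    (h : dl v w0 ≠ 0) (g : (Fin (d + 1) → ℝ) →ₗ[ℝ] ℝ) (hg : ∀ k, g (v k) = 0)
    (w : Fin (d + 1) → ℝ) : g w * dl v w0 = dl v w * g w0 := by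
  have h1 := dl_ne.1 h
  have h2 : Submodule.span ℝ (range (Fin.snoc (α := fun _ => Fin (d + 1) → ℝ) v w0)) = ⊤ :=
    h1.span_eq_top_of_card_eq_finrank (by simp)
  have h3 : w ∈ Submodule.span ℝ (range (Fin.snoc (α := fun _ => Fin (d + 1) → ℝ) v w0)) := by
    rw [h2]; trivial
  refine Submodule.span_induction ?_ ?_ ?_ ?_ h3
  · rintro x ⟨k, rfl⟩
    refine Fin.lastCases ?_ (fun k => ?_) k
    · simp only [Fin.snoc_last]; ring
    · simp only [Fin.snoc_castSucc]
      rw [hg, dl_self]; ring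
  · simp
  · intro x y _ _ hx hy
    rw [map_add, map_add, add_mul, add_mul, hx, hy]
  · intro a x _ hx
    rw [map_smul, map_smul, smul_eq_mul, smul_eq_mul, mul_assoc, mul_assoc, hx]

/-- Linear part of the homogeneous coordinates. -/
noncomputable def emb (d : ℕ) : E d →ₗ[ℝ] (Fin (d + 1) → ℝ) where
  toFun y := Fin.snoc (α := fun _ => ℝ) (fun k => y k) 0
  map_add' x y := by
    funext k
    refine Fin.lastCases ?_ (fun k => ?_) k <;> simp
  map_smul' a x := by
    funext k
    refine Fin.lastCases ?_ (fun k => ?_) k <;> simp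

theorem hom_eq {d : ℕ} (y : E d) :
    hom y = emb d y + Fin.snoc (α := fun _ => ℝ) (fun _ : Fin d => (0 : ℝ)) 1 := by
  funext k
  refine Fin.lastCases ?_ (fun k => ?_) k <;> simp [hom, emb]

/-- The linear part of a linear functional in homogeneous coordinates. -/
noncomputable def lp {d : ℕ} (g : (Fin (d + 1) → ℝ) →ₗ[ℝ] ℝ) : E d →L[ℝ] ℝ :=
  LinearMap.toContinuousLinearMap (g.comp (emb d))

/-- The constant part. -/
noncomputable def cp {d : ℕ} (g : (Fin (d + 1) → ℝ) →ₗ[ℝ] ℝ) : ℝ :=
  g (Fin.snoc (α := fun _ => ℝ) (fun _ : Fin d => (0 : ℝ)) 1)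

theorem g_hom {d : ℕ} (g : (Fin (d + 1) → ℝ) →ₗ[ℝ] ℝ) (y : E d) :
    g (hom y) = lp g y + cp g := by
  rw [hom_eq, map_add]
  rfl

/-- A functional in homogeneous coordinates with given linear and constant part. -/
theorem exists_g {d : ℕ} (l : E d →L[ℝ] ℝ) (c : ℝ) :
    ∃ g : (Fin (d + 1) → ℝ) →ₗ[ℝ] ℝ, ∀ y, g (hom y) = c - l y := by
  let pr : (Fin (d + 1) → ℝ) →ₗ[ℝ] E d :=
    ((EuclideanSpace.equiv (Fin d) ℝ).symm : (Fin d → ℝ) ≃L[ℝ] E d).toLinearMap.comp
      (LinearMap.funLeft ℝ ℝ Fin.castSucc)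
  refine ⟨c • LinearMap.proj (Fin.last d) - l.toLinearMap.comp pr, fun y => ?_⟩
  have h1 : pr (hom y) = y := by
    ext k
    simp [pr, LinearMap.funLeft, hom]
  simp [h1, hom_last]

section

variable {d n : ℕ}

theorem nonneg_hull (p : Fin n → E d) (g : (Fin (d + 1) → ℝ) →ₗ[ℝ] ℝ)
    (hpos : ∀ j, 0 ≤ g (hom (p j))) {y : E d} (hy : y ∈ convexHull ℝ (range p)) :
    0 ≤ g (hom y) := by
  have h1 : convexHull ℝ (range p) ⊆ {y | 0 ≤ g (hom y)} := by
    refine convexHull_min ?_ ?_
    · rintro _ ⟨j, rfl⟩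
      exact hpos j
    · intro x hx y hy a b ha hb hab
      simp only [mem_ofPred_eq, g_hom] at *
      rw [map_add, map_smul, map_smul, smul_eq_mul, smul_eq_mul]
      have : a * lp g x + b * lp g y + cp g =
          a * (lp g x + cp g) + b * (lp g y + cp g) := by
        have : cp g = (a + b) * cp g := by rw [hab, one_mul]
        linear_combination this
      rw [this]
      positivity
  exact h1 hy

theorem facet_of_det (p : Fin n → E d) (hd : 2 ≤ d) (g : (Fin (d + 1) → ℝ) →ₗ[ℝ] ℝ)
    (t : Fin d → Fin n) (hlin : LinearIndependent ℝ (fun k => hom (p (t k))))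
    (h0 : ∀ k, g (hom (p (t k))) = 0) (hpos : ∀ j, 0 ≤ g (hom (p j)))
    (hne : ∃ j, g (hom (p j)) ≠ 0) :
    IsFacet (convexHull ℝ (range p)) {y | y ∈ convexHull ℝ (range p) ∧ g (hom y) = 0} := by
  have haff := (hom_linInd _).1 hlin
  set F : Set (E d) := {y | y ∈ convexHull ℝ (range p) ∧ g (hom y) = 0} with hF
  have hmem : ∀ k, p (t k) ∈ F := fun k => ⟨subset_convexHull ℝ _ ⟨t k, rfl⟩, h0 k⟩
  refine ⟨fun _ => ⟨-lp g, ?_⟩, ?_⟩
  · ext y
    constructor
    · rintro ⟨h1, h2⟩
      refine ⟨h1, fun z hz => ?_⟩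
      have h3 := nonneg_hull p g hpos hz
      rw [g_hom] at h2 h3
      simp only [neg_apply]
      linarith
    · rintro ⟨h1, h2⟩
      refine ⟨h1, le_antisymm ?_ (nonneg_hull p g hpos h1)⟩
      have k0 : Fin d := ⟨0, by omega⟩
      have h3 := h2 (p (t k0)) (hmem k0).1
      have h4 := h0 k0
      rw [g_hom] at h4 ⊢
      simp only [neg_apply] at h3
      linarith
  · have hlow : d ≤ Module.finrank ℝ (vectorSpan ℝ F) + 1 := by
      have h1 : Module.finrank ℝ (vectorSpan ℝ (range fun k => p (t k))) = d - 1 :=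
        haff.finrank_vectorSpan (by simp; omega)
      have h2 : vectorSpan ℝ (range fun k => p (t k)) ≤ vectorSpan ℝ F :=
        vectorSpan_mono ℝ (by rintro _ ⟨k, rfl⟩; exact hmem k)
      have h3 := Submodule.finrank_mono h2
      omega
    have hup : Module.finrank ℝ (vectorSpan ℝ F) ≤ d - 1 := by
      have h1 : vectorSpan ℝ F ≤ LinearMap.ker (lp g).toLinearMap := by
        rw [vectorSpan_def, Submodule.span_le]
        rintro _ ⟨x, hx, y, hy, rfl⟩
        rw [SetLike.mem_coe, LinearMap.mem_ker]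
        have h2 := hx.2
        have h3 := hy.2
        rw [g_hom] at h2 h3
        have : lp g (x - y) = 0 := by rw [map_sub]; linarith
        exact this
      have h2 : lp g ≠ 0 := by
        intro h3
        obtain ⟨j, hj⟩ := hne
        have k0 : Fin d := ⟨0, by omega⟩
        have h4 := h0 k0
        rw [g_hom, h3] at h4 hj
        simp only [zero_apply] at h4 hj
        exact hj h4
      have h3 : (lp g).toLinearMap ≠ 0 := by
        intro h4
        apply h2
        ext y
        exact congrArg (fun f : E d →ₗ[ℝ] ℝ => f y) h4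
      have h4 := Submodule.finrank_mono h1
      have h5 := Module.Dual.finrank_ker_add_one_of_ne_zero h3
      rw [finrank_euclideanSpace_fin] at h5
      omega
    have h9 : Module.finrank ℝ (vectorSpan ℝ F) + 1 = d := by omega
    exact h9

theorem face_subset (p : Fin n → E d) (l : E d →L[ℝ] ℝ) (M : ℝ) (hle : ∀ j, l (p j) ≤ M)
    {x : E d} (hx : x ∈ convexHull ℝ (range p)) (hl : l x = M) :
    x ∈ convexHull ℝ {y | ∃ i, p i = y ∧ l y = M} := by
  have h1 : convexHull ℝ (range p) ⊆ {x | l x < M ∨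
      (l x = M ∧ x ∈ convexHull ℝ {y | ∃ i, p i = y ∧ l y = M})} := by
    refine convexHull_min ?_ ?_
    · rintro _ ⟨j, rfl⟩
      rcases (hle j).lt_or_eq with h | h
      · exact Or.inl h
      · exact Or.inr ⟨h, subset_convexHull ℝ _ ⟨j, rfl, h⟩⟩
    · rw [convex_iff_forall_pos]
      intro x hx y hy a b ha hb hab
      have hlx : l x ≤ M := by rcases hx with h | h; exacts [h.le, h.1.le]
      have hly : l y ≤ M := by rcases hy with h | h; exacts [h.le, h.1.le]
      have e1 : l (a • x + b • y) = a * l x + b * l y := by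
        rw [map_add, map_smul, map_smul, smul_eq_mul, smul_eq_mul]
      have e2 : M = a * M + b * M := by rw [← add_mul, hab, one_mul]
      rcases hx with hx | hx
      · left
        rw [e1, e2]
        exact add_lt_add_of_lt_of_le (mul_lt_mul_of_pos_left hx ha)
          (mul_le_mul_of_nonneg_left hly hb.le)
      · rcases hy with hy | hy
        · left
          rw [e1, e2]
          exact add_lt_add_of_le_of_lt (mul_le_mul_of_nonneg_left hlx ha.le)
            (mul_lt_mul_of_pos_left hy hb)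
        · right
          refine ⟨?_, (convex_convexHull ℝ _) hx.2 hy.2 ha.le hb.le hab⟩
          rw [e1, hx.1, hy.1, ← e2]
  rcases h1 hx with h | h
  · exact absurd hl h.ne
  · exact h.2

theorem det_of_facet (p : Fin n → E d) (hd : 2 ≤ d)
    (hint : (interior (convexHull ℝ (range p))).Nonempty) {F : Set (E d)}
    (hF : IsFacet (convexHull ℝ (range p)) F) :
    ∃ t : Fin d → Fin n, (∃ j, dl (fun k => hom (p (t k))) (hom (p j)) ≠ 0) ∧
      ((∀ j, 0 ≤ dl (fun k => hom (p (t k))) (hom (p j))) ∨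
        (∀ j, dl (fun k => hom (p (t k))) (hom (p j)) ≤ 0)) ∧
      ∀ i, p i ∈ F ↔ dl (fun k => hom (p (t k))) (hom (p i)) = 0 := by
  obtain ⟨hexp, hdim0⟩ := hF
  have hdim : Module.finrank ℝ (vectorSpan ℝ F) + 1 = d := hdim0
  have hFne : F.Nonempty := by
    by_contra h
    rw [not_nonempty_iff_eq_empty] at h
    rw [h, vectorSpan_empty, finrank_bot] at hdim
    omega
  obtain ⟨l, hl⟩ := hexp hFne
  obtain ⟨x0, hx0⟩ := hFne
  set M := l x0 with hM
  have hx0' := hx0
  rw [hl] at hx0'
  have hle : ∀ y ∈ convexHull ℝ (range p), l y ≤ M := hx0'.2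
  have hle' : ∀ j, l (p j) ≤ M := fun j => hle _ (subset_convexHull ℝ _ ⟨j, rfl⟩)
  have hFiff : ∀ y, y ∈ F ↔ y ∈ convexHull ℝ (range p) ∧ l y = M := by
    intro y
    rw [hl]
    constructor
    · rintro ⟨h1, h2⟩
      exact ⟨h1, le_antisymm (hle y h1) (h2 _ hx0'.1)⟩
    · rintro ⟨h1, h2⟩
      exact ⟨h1, fun z hz => by rw [h2]; exact hle z hz⟩
  set S : Set (E d) := {y | ∃ i, p i = y ∧ l y = M} with hS
  have hSF : S ⊆ F := by
    rintro y ⟨i, rfl, hi⟩
    exact (hFiff _).2 ⟨subset_convexHull ℝ _ ⟨i, rfl⟩, hi⟩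
  have hFS : F ⊆ convexHull ℝ S := fun x hx =>
    face_subset p l M hle' ((hFiff x).1 hx).1 ((hFiff x).1 hx).2
  have hspan : vectorSpan ℝ F = vectorSpan ℝ S := by
    apply le_antisymm
    · rw [← direction_affineSpan, ← direction_affineSpan]
      refine AffineSubspace.direction_le ?_
      rw [affineSpan_le]
      exact hFS.trans (convexHull_subset_affineSpan S)
    · exact vectorSpan_mono ℝ hSF
  have hSne : S.Nonempty := by
    have : (convexHull ℝ S).Nonempty := ⟨x0, hFS hx0⟩
    rwa [convexHull_nonempty_iff] at this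
  obtain ⟨s, hsS, hsaff, hsind⟩ := exists_affineIndependent ℝ (E d) S
  have hsfin : s.Finite := (finite_range p).subset fun y hy => by
    obtain ⟨i, hi, -⟩ := hsS hy
    exact ⟨i, hi⟩
  have : Fintype s := hsfin.fintype
  have hsne : s.Nonempty := by
    by_contra h
    rw [not_nonempty_iff_eq_empty] at h
    rw [h, AffineSubspace.span_empty] at hsaff
    obtain ⟨y, hy⟩ := hSne
    have h2 : y ∈ affineSpan ℝ S := subset_affineSpan ℝ S hy
    rw [← hsaff] at h2
    exact AffineSubspace.notMem_bot ℝ (E d) y h2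
  have : Nonempty s := hsne.to_subtype
  have hcard : Fintype.card s = d := by
    have h1 := hsind.finrank_vectorSpan_add_one
    rw [Subtype.range_coe, ← direction_affineSpan, hsaff, direction_affineSpan, ← hspan,
      hdim] at h1
    exact h1.symm
  let e : Fin d ≃ s := (Fintype.equivFinOfCardEq hcard).symm
  have hchoose : ∀ k : Fin d, ∃ i : Fin n, p i = (e k : E d) ∧ l (e k : E d) = M := fun k =>
    hsS (e k).2
  choose t ht using hchoose
  have hpt : (fun k => p (t k)) = fun k => ((e k : s) : E d) := by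
    funext k
    exact (ht k).1
  have haff : AffineIndependent ℝ (fun k => p (t k)) := by
    rw [hpt]
    exact hsind.comp_embedding e.toEmbedding
  have hlin : LinearIndependent ℝ (fun k => hom (p (t k))) := (hom_linInd _).2 haff
  obtain ⟨g, hg⟩ := exists_g l M
  have hgt : ∀ k, g (hom (p (t k))) = 0 := fun k => by
    rw [hg, (ht k).1, (ht k).2, sub_self]
  have hgpos : ∀ j, 0 ≤ g (hom (p j)) := fun j => by
    rw [hg]; linarith [hle' j]
  -- some vertex is not on the facet
  have hex : ∃ j0, g (hom (p j0)) ≠ 0 := by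
    by_contra hcon
    push Not at hcon
    have h1 : range p ⊆ F := by
      rintro _ ⟨j, rfl⟩
      refine (hFiff _).2 ⟨subset_convexHull ℝ _ ⟨j, rfl⟩, ?_⟩
      have := hcon j
      rw [hg] at this
      linarith
    have h2 : affineSpan ℝ (range p) = ⊤ := interior_convexHull_nonempty_iff_affineSpan_eq_top.1 hint
    have h3 : vectorSpan ℝ (range p) = ⊤ := by
      rw [← direction_affineSpan, h2, AffineSubspace.direction_top]
    have h4 := Submodule.finrank_mono (vectorSpan_mono ℝ h1)
    rw [h3, finrank_top, finrank_euclideanSpace_fin] at h4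
    omega
  obtain ⟨j0, hj0⟩ := hex
  have hD0 : dl (fun k => hom (p (t k))) (hom (p j0)) ≠ 0 := by
    rw [dl_ne, linearIndependent_finSnoc]
    refine ⟨hlin, fun hmem => hj0 ?_⟩
    have h1 : Submodule.span ℝ (range fun k => hom (p (t k))) ≤ LinearMap.ker g := by
      rw [Submodule.span_le]
      rintro _ ⟨k, rfl⟩
      exact hgt k
    exact h1 hmem
  have hprop := dl_prop hD0 g hgt
  have hgj0 : 0 < g (hom (p j0)) := lt_of_le_of_ne (hgpos j0) (Ne.symm hj0)
  refine ⟨t, ⟨j0, hD0⟩, ?_, fun i => ?_⟩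
  · rcases lt_or_gt_of_ne hD0 with h | h
    · right
      intro j
      have h1 := hprop (hom (p j))
      by_contra h2
      push Not at h2
      have h3 : 0 < dl (fun k => hom (p (t k))) (hom (p j)) * g (hom (p j0)) := mul_pos h2 hgj0
      have h4 : g (hom (p j)) * dl (fun k => hom (p (t k))) (hom (p j0)) ≤ 0 :=
        mul_nonpos_of_nonneg_of_nonpos (hgpos j) h.le
      linarith
    · left
      intro j
      have h1 := hprop (hom (p j))
      by_contra h2
      push Not at h2
      have h3 : dl (fun k => hom (p (t k))) (hom (p j)) * g (hom (p j0)) < 0 :=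
        mul_neg_of_neg_of_pos h2 hgj0
      have h4 : 0 ≤ g (hom (p j)) * dl (fun k => hom (p (t k))) (hom (p j0)) :=
        mul_nonneg (hgpos j) h.le
      linarith
  · have h1 := hprop (hom (p i))
    rw [hFiff]
    constructor
    · rintro ⟨-, h2⟩
      have h3 : g (hom (p i)) = 0 := by rw [hg, h2, sub_self]
      rw [h3, zero_mul] at h1
      rcases mul_eq_zero.1 h1.symm with h4 | h4
      · exact h4
      · exact absurd h4 hj0
    · intro h2
      rw [h2, zero_mul] at h1
      rcases mul_eq_zero.1 h1 with h4 | h4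
      · refine ⟨subset_convexHull ℝ _ ⟨i, rfl⟩, ?_⟩
        rw [hg] at h4
        linarith
      · exact absurd h4 hD0

/-- The facets in terms of determinants. -/
theorem facets_iff (p : Fin n → E d) (hd : 2 ≤ d)
    (hint : (interior (convexHull ℝ (range p))).Nonempty) (S : Set (Fin n)) :
    (∃ F, IsFacet (convexHull ℝ (range p)) F ∧ S = {i | p i ∈ F}) ↔
    ∃ t : Fin d → Fin n, (∃ j, dl (fun k => hom (p (t k))) (hom (p j)) ≠ 0) ∧
      ((∀ j, 0 ≤ dl (fun k => hom (p (t k))) (hom (p j))) ∨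
        (∀ j, dl (fun k => hom (p (t k))) (hom (p j)) ≤ 0)) ∧
      S = {i | dl (fun k => hom (p (t k))) (hom (p i)) = 0} := by
  constructor
  · rintro ⟨F, hF, rfl⟩
    obtain ⟨t, h1, h2, h3⟩ := det_of_facet p hd hint hF
    exact ⟨t, h1, h2, Set.ext h3⟩
  · rintro ⟨t, ⟨j, hj⟩, h2, rfl⟩
    have hlin : LinearIndependent ℝ (fun k => hom (p (t k))) :=
      (linearIndependent_finSnoc.1 (dl_ne.1 hj)).1
    rcases h2 with h2 | h2
    · refine ⟨_, facet_of_det p hd (dl (fun k => hom (p (t k)))) t hlin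
        (fun k => dl_self _ k) h2 ⟨j, hj⟩, ?_⟩
      ext i
      exact ⟨fun h => ⟨subset_convexHull ℝ _ ⟨i, rfl⟩, h⟩, fun h => h.2⟩
    · refine ⟨_, facet_of_det p hd (-dl (fun k => hom (p (t k)))) t hlin
        (fun k => by rw [LinearMap.neg_apply, dl_self _ k, neg_zero])
        (fun j => by rw [LinearMap.neg_apply]; linarith [h2 j])
        ⟨j, by rw [LinearMap.neg_apply]; exact neg_ne_zero.2 hj⟩, ?_⟩
      ext i
      simp only [mem_ofPred_eq, LinearMap.neg_apply, neg_eq_zero]
      exact ⟨fun h => ⟨subset_convexHull ℝ _ ⟨i, rfl⟩, h⟩, fun h => h.2⟩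

/-- Full dimension in terms of determinants. -/
theorem interior_iff (p : Fin n → E d) :
    (interior (convexHull ℝ (range p))).Nonempty ↔
      ∃ t : Fin d → Fin n, ∃ j, dl (fun k => hom (p (t k))) (hom (p j)) ≠ 0 := by
  rw [interior_convexHull_nonempty_iff_affineSpan_eq_top]
  constructor
  · intro h
    obtain ⟨s, hsS, hsaff, hsind⟩ := exists_affineIndependent ℝ (E d) (range p)
    have hsfin : s.Finite := (finite_range p).subset hsS
    have : Fintype s := hsfin.fintype
    have hsne : s.Nonempty := by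
      by_contra h'
      rw [not_nonempty_iff_eq_empty] at h'
      rw [h', AffineSubspace.span_empty, h] at hsaff
      exact bot_ne_top hsaff
    have : Nonempty s := hsne.to_subtype
    have hcard : Fintype.card s = d + 1 := by
      have h1 := hsind.finrank_vectorSpan_add_one
      rw [Subtype.range_coe, ← direction_affineSpan, hsaff, h, AffineSubspace.direction_top,
        finrank_top, finrank_euclideanSpace_fin] at h1
      exact h1.symm
    let e : Fin (d + 1) ≃ s := (Fintype.equivFinOfCardEq hcard).symm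
    have hchoose : ∀ k : Fin (d + 1), ∃ i : Fin n, p i = (e k : E d) := fun k => hsS (e k).2
    choose t ht using hchoose
    refine ⟨fun k => t k.castSucc, t (Fin.last d), ?_⟩
    rw [dl_ne]
    have h1 : (Fin.snoc (α := fun _ => Fin (d + 1) → ℝ) (fun k : Fin d => hom (p (t k.castSucc)))
        (hom (p (t (Fin.last d))))) = fun k => hom (p (t k)) := by
      funext k
      refine Fin.lastCases ?_ (fun k => ?_) k <;> simp
    rw [h1, hom_linInd]
    have hpt : (fun k => p (t k)) = fun k => ((e k : s) : E d) := funext ht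
    rw [hpt]
    exact hsind.comp_embedding e.toEmbedding
  · rintro ⟨t, j, hj⟩
    rw [dl_ne] at hj
    have h1 : (Fin.snoc (α := fun _ => Fin (d + 1) → ℝ) (fun k : Fin d => hom (p (t k)))
        (hom (p j))) = fun k => hom (p (Fin.snoc (α := fun _ => Fin n) t j k)) := by
      funext k
      refine Fin.lastCases ?_ (fun k => ?_) k <;> simp
    rw [h1, hom_linInd] at hj
    have h2 := hj.affineSpan_eq_top_iff_card_eq_finrank_add_one.2 (by simp)
    rw [eq_top_iff, ← h2]
    refine affineSpan_mono ℝ ?_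
    rintro _ ⟨k, rfl⟩
    exact ⟨_, rfl⟩

/-- Points on a sphere are the extreme points of their convex hull. -/
theorem extreme_sphere (p : Fin n → E d) (c : E d) (r : ℝ) (h : ∀ i, dist (p i) c = r) :
    range p = (convexHull ℝ (range p)).extremePoints ℝ := by
  apply Subset.antisymm
  · rintro _ ⟨i, rfl⟩
    rw [mem_extremePoints]
    refine ⟨subset_convexHull ℝ _ ⟨i, rfl⟩, ?_⟩
    have hball : convexHull ℝ (range p) ⊆ Metric.closedBall c r := by
      refine convexHull_min ?_ (convex_closedBall c r)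
      rintro _ ⟨j, rfl⟩
      exact Metric.mem_closedBall.2 (h j).le
    intro x hx y hy hxy
    have hx' := hball hx
    have hy' := hball hy
    by_cases hxe : x = y
    · subst hxe
      rw [openSegment_same, mem_singleton_iff] at hxy
      exact ⟨hxy.symm, hxy.symm⟩
    · exfalso
      obtain ⟨a, b, ha, hb, hab, hz⟩ := hxy
      have h1 := strictConvex_closedBall ℝ c r hx' hy' hxe ha hb hab
      rw [hz] at h1
      rcases eq_or_ne r 0 with hr | hr
      · rw [hr, Metric.closedBall_zero, mem_singleton_iff] at hx' hy'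
        exact hxe (hx'.trans hy'.symm)
      · rw [interior_closedBall c hr, Metric.mem_ball, h i] at h1
        exact lt_irrefl _ h1
  · exact extremePoints_convexHull_subset

theorem hrow_eq (x : ℕ → ℝ) (p : Fin n → E d)
    (hx : ∀ (i : Fin n) (k : Fin d), x (d * i + k) = p i k) (i : Fin n) (k : Fin (d + 1)) :
    hrow d x i k = hom (p i) k := by
  refine Fin.lastCases ?_ (fun k => ?_) k
  · rw [hom_last]
    simp [hrow]
  · rw [hom_castSucc, ← hx]
    simp [hrow]

theorem Dt_eq (x : ℕ → ℝ) (p : Fin n → E d)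
    (hx : ∀ (i : Fin n) (k : Fin d), x (d * i + k) = p i k) (t : Fin d → ℕ) (t' : Fin d → Fin n)
    (ht : ∀ k, t k = t' k) (j : Fin n) :
    Dt d x t j = dl (fun k => hom (p (t' k))) (hom (p j)) := by
  rw [dl_apply, Dt]
  congr 1
  ext r k
  refine Fin.lastCases ?_ (fun r => ?_) r
  · simp only [Matrix.of_apply, Fin.snoc_last, Fin.val_last, lt_irrefl, dif_neg,
      not_false_eq_true]
    exact hrow_eq x p hx j k
  · simp only [Matrix.of_apply, Fin.snoc_castSucc, Fin.val_castSucc, Fin.is_lt, dif_pos]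
    rw [ht]
    exact hrow_eq x p hx (t' r) k

theorem dist_sq (y c : E d) : dist y c ^ 2 = ∑ k : Fin d, (y k - c k) ^ 2 := by
  rw [EuclideanSpace.dist_eq, Real.sq_sqrt (Finset.sum_nonneg fun i _ => sq_nonneg _)]
  refine Finset.sum_congr rfl fun k _ => ?_
  rw [Real.dist_eq, sq_abs]

end

end MembG

open MembG Set in
theorem claimMembGeom : ClaimMembGeom := by
  intro d hd T
  have hd0 : 0 < d := by omega
  constructor
  · rintro ⟨hrange, p, P, rfl, hint, hinj, -, ⟨c, r, hr⟩, hfac⟩
    let x : ℕ → ℝ := fun N => if h : N / d < T.n then p ⟨N / d, h⟩ ⟨N % d, Nat.mod_lt _ hd0⟩ else 0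
    have hx : ∀ (i : Fin T.n) (k : Fin d), x (d * i + k) = p i k := by
      intro i k
      have h1 : (d * (i : ℕ) + (k : ℕ)) / d = i := by
        rw [Nat.mul_add_div hd0, Nat.div_eq_of_lt k.2, Nat.add_zero]
      have h2 : (d * (i : ℕ) + (k : ℕ)) % d = k := by
        rw [Nat.mul_add_mod, Nat.mod_eq_of_lt k.2]
      simp only [x]
      rw [dif_pos (by rw [h1]; exact i.2)]
      have h3 : (⟨(d * (i : ℕ) + (k : ℕ)) / d, by rw [h1]; exact i.2⟩ : Fin T.n) = i :=
        Fin.ext h1
      have h4 : (⟨(d * (i : ℕ) + (k : ℕ)) % d, Nat.mod_lt _ hd0⟩ : Fin d) = k := Fin.ext h2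
      rw [h3, h4]
    refine ⟨hrange, x, ?_, ?_, ?_, ?_, ?_⟩
    · intro i j hi hj hij
      by_contra hcon
      push Not at hcon
      apply hij
      have h1 : p ⟨i, hi⟩ = p ⟨j, hj⟩ := by
        ext k
        have h2 := hcon k k.2
        rw [hx ⟨i, hi⟩ k, hx ⟨j, hj⟩ k] at h2
        exact h2
      exact congrArg Fin.val (hinj h1)
    · refine ⟨fun k => if h : k < d then c ⟨k, h⟩ else 0, r ^ 2, fun i hi => ?_⟩
      rw [Finset.sum_range, ← hr ⟨i, hi⟩, dist_sq]
      refine Finset.sum_congr rfl fun k _ => ?_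
      rw [hx ⟨i, hi⟩ k]
      simp
    · obtain ⟨t, j, hj⟩ := (interior_iff p).1 hint
      refine ⟨fun k => t k, fun k => (t k).2, j, j.2, ?_⟩
      rw [Dt_eq x p hx _ t (fun _ => rfl)]
      exact hj
    · intro t ht ⟨j, hjn, hj⟩ hsign
      have hD : ∀ i : Fin T.n, Dt d x t i =
          dl (fun k => hom (p (⟨t k, ht k⟩ : Fin T.n))) (hom (p i)) :=
        fun i => Dt_eq x p hx t (fun k => ⟨t k, ht k⟩) (fun _ => rfl) i
      have h1 := (facets_iff p hd hint {i | dl (fun k => hom (p (⟨t k, ht k⟩ : Fin T.n)))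
        (hom (p i)) = 0}).2 ⟨fun k => ⟨t k, ht k⟩, ⟨⟨j, hjn⟩, by rw [← hD]; exact hj⟩, by
          rcases hsign with h | h
          · exact Or.inl fun i => by rw [← hD]; exact h i i.2
          · exact Or.inr fun i => by rw [← hD]; exact h i i.2, rfl⟩
      have h2 : {i | dl (fun k => hom (p (⟨t k, ht k⟩ : Fin T.n))) (hom (p i)) = 0} ∈
          {S : Set (Fin T.n) | ∃ G ∈ T.facets, S = {i : Fin T.n | (i : ℕ) ∈ G}} := by
        rw [← hfac]; exact h1
      obtain ⟨G, hG, hS⟩ := h2
      refine ⟨G, hG, fun i hi => ?_⟩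
      have h3 := Set.ext_iff.1 hS ⟨i, hi⟩
      have h4 := hD ⟨i, hi⟩
      simp only at h4
      rw [h4]
      exact h3
    · intro G hG
      have h1 : {i : Fin T.n | (i : ℕ) ∈ G} ∈
          {S : Set (Fin T.n) | ∃ F, IsFacet (convexHull ℝ (range p)) F ∧ S = {i | p i ∈ F}} := by
        rw [hfac]; exact ⟨G, hG, rfl⟩
      obtain ⟨t, ⟨j, hj⟩, h2, h3⟩ := (facets_iff p hd hint _).1 h1
      have hD : ∀ i : Fin T.n, Dt d x (fun k => t k) i = dl (fun k => hom (p (t k))) (hom (p i)) :=
        fun i => Dt_eq x p hx _ t (fun _ => rfl) i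
      refine ⟨fun k => t k, fun k => (t k).2, ⟨j, j.2, by rw [hD]; exact hj⟩, ?_, ?_⟩
      · rcases h2 with h | h
        · exact Or.inl fun i hi => by rw [hD ⟨i, hi⟩]; exact h _
        · exact Or.inr fun i hi => by rw [hD ⟨i, hi⟩]; exact h _
      · intro i hi
        have h4 := hD ⟨i, hi⟩
        simp only at h4
        rw [h4]
        exact (Set.ext_iff.1 h3 ⟨i, hi⟩).symm
  · rintro ⟨hrange, x, hinj, ⟨c, r, hr⟩, ⟨t0, ht0, j0, hj0n, hj0⟩, hfac1, hfac2⟩
    let p : Fin T.n → E d := fun i => WithLp.toLp 2 fun k => x (d * i + k)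
    have hx : ∀ (i : Fin T.n) (k : Fin d), x (d * i + k) = p i k := fun _ _ => rfl
    have hint : (interior (convexHull ℝ (range p))).Nonempty := by
      rw [interior_iff]
      refine ⟨fun k => ⟨t0 k, ht0 k⟩, ⟨j0, hj0n⟩, ?_⟩
      rw [← Dt_eq x p hx t0 (fun k => ⟨t0 k, ht0 k⟩) (fun _ => rfl)]
      exact hj0
    let c' : E d := WithLp.toLp 2 fun k => c k
    have hdist : ∀ i, dist (p i) c' = Real.sqrt r := by
      intro i
      have h1 := dist_sq (p i) c'
      have h2 := hr i i.2
      rw [Finset.sum_range] at h2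
      have h3 : dist (p i) c' ^ 2 = r := by rw [h1, ← h2]
      rw [← h3, Real.sqrt_sq dist_nonneg]
    refine ⟨hrange, p, _, rfl, hint, ?_, extreme_sphere p c' _ hdist, ⟨c', _, hdist⟩, ?_⟩
    · intro i j hij
      by_contra hne
      obtain ⟨k, hk, h1⟩ := hinj i j i.2 j.2 (fun h => hne (Fin.ext h))
      apply h1
      have h2 := congrArg (fun y : E d => y ⟨k, hk⟩) hij
      exact h2
    · ext S
      rw [mem_ofPred_eq, mem_ofPred_eq, facets_iff p hd hint]
      constructor
      · rintro ⟨t, ⟨j, hj⟩, h2, rfl⟩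
        have hD : ∀ i : Fin T.n, Dt d x (fun k => t k) i =
            dl (fun k => hom (p (t k))) (hom (p i)) :=
          fun i => Dt_eq x p hx _ t (fun _ => rfl) i
        obtain ⟨G, hG, h3⟩ := hfac1 (fun k => t k) (fun k => (t k).2)
          ⟨j, j.2, by rw [hD]; exact hj⟩ (by
            rcases h2 with h | h
            · exact Or.inl fun i hi => by rw [hD ⟨i, hi⟩]; exact h _
            · exact Or.inr fun i hi => by rw [hD ⟨i, hi⟩]; exact h _)
        refine ⟨G, hG, ?_⟩
        ext i
        rw [mem_ofPred_eq, mem_ofPred_eq, ← hD]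
        exact h3 i i.2
      · rintro ⟨G, hG, rfl⟩
        obtain ⟨t, ht, ⟨j, hjn, hj⟩, h2, h3⟩ := hfac2 G hG
        have hD : ∀ i : Fin T.n, Dt d x t i =
            dl (fun k => hom (p (⟨t k, ht k⟩ : Fin T.n))) (hom (p i)) :=
          fun i => Dt_eq x p hx t (fun k => ⟨t k, ht k⟩) (fun _ => rfl) i
        refine ⟨fun k => ⟨t k, ht k⟩, ⟨⟨j, hjn⟩, by rw [← hD]; exact hj⟩, ?_, ?_⟩
        · rcases h2 with h | h
          · exact Or.inl fun i => by rw [← hD]; exact h i i.2
          · exact Or.inr fun i => by rw [← hD]; exact h i i.2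
        · ext i
          rw [mem_ofPred_eq, mem_ofPred_eq, ← hD]
          exact (h3 i i.2).symm

end Pool.Agent.Work.MP_5b14b0_lc
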