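import Pool.Agent.Work.MP_5b14b0_lc.Alg

/-!
# M1: codes of formulas are recognized and parsed in polynomial time
-/

set_option autoImplicit false

namespace Pool.Agent.Work.MP_5b14b0_lc

open Pool.Agent.PT

/-- Reading a list of tokens off a tree. -/
def toksOf (w : List Bool) : List Tok :=
  (parse w).toL.map (fun u => (u.hd.toL.length, u.tl.toL.map (fun b => decide (b ≠ D.nil))))

theorem toL_encNat (n : ℕ) : (Enc.enc n : D).toL.length = n := by
  induction n with
  | zero => rfl
  | succ n ih => rw [enc_succ, D.toL, List.length_cons, ih]

theorem map_ne_nil (l : List Bool) :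
    (l.map (fun a => (Enc.enc a : D))).map (fun b => decide (b ≠ D.nil)) = l := by
  rw [List.map_map]
  conv_rhs => rw [← List.map_id l]
  refine List.map_congr_left fun b _ => ?_
  cases b
  · simp [enc_false]
  · simp [enc_true, D.tt]

theorem toksOf_enc (toks : List Tok) : toksOf (Enc.enc toks).enc = toks := by
  unfold toksOf
  rw [parse_enc, D.toL_enc, List.map_map]
  conv_rhs => rw [← List.map_id toks]
  refine List.map_congr_left fun k _ => ?_
  obtain ⟨n, l⟩ := k
  simp only [Function.comp_apply, enc_pair, D.hd_cons, D.tl_cons, id_eq]
  rw [toL_encNat, D.toL_enc, map_ne_nil]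

/-- The payload of the token is legitimate. -/
def tokOK (k : Tok) : Bool :=
  if k.1 = 0 then k.2.all (fun b => b)
  else if k.1 = 1 then decide (k.2 = [false] ∨ k.2.tail.reverse.headD false = true)
  else decide (k.2 = [])

/-- One step of the type check, from right to left: `0` is a polynomial, `1` a formula, `2` an
error. -/
def tstep (k : Tok) (s : List ℕ) : List ℕ :=
  if k.1 ≤ 1 then 0 :: s
  else if k.1 ≤ 3 then (if s.headD 2 = 0 ∧ s.tail.headD 2 = 0 then 0 :: s.tail.tail else 2 :: s)
  else if k.1 ≤ 5 then (if s.headD 2 = 0 ∧ s.tail.headD 2 = 0 then 1 :: s.tail.tail else 2 :: s)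
  else if k.1 = 6 then (if s.headD 2 = 1 then s else 2 :: s)
  else if k.1 ≤ 8 then (if s.headD 2 = 1 ∧ s.tail.headD 2 = 1 then s.tail else 2 :: s)
  else 2 :: s

theorem poly_tstep (p : Poly) : ∀ (l : List Tok),
    (p.toks ++ l).foldr tstep [] = 0 :: l.foldr tstep [] := by
  induction p with
  | var i => intro l; simp [Poly.toks, tstep]
  | int z => intro l; simp [Poly.toks, tstep]
  | add p q hp hq =>
    intro l
    rw [Poly.toks, List.cons_append, List.foldr_cons, List.append_assoc, hp, hq]
    simp [tstep]
  | mul p q hp hq =>
    intro l
    rw [Poly.toks, List.cons_append, List.foldr_cons, List.append_assoc, hp, hq]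
    simp [tstep]

theorem form_tstep (φ : Formula) : ∀ (l : List Tok),
    (φ.toks ++ l).foldr tstep [] = 1 :: l.foldr tstep [] := by
  induction φ with
  | eq p q =>
    intro l
    rw [Formula.toks, List.cons_append, List.foldr_cons, List.append_assoc, poly_tstep, poly_tstep]
    simp [tstep]
  | lt p q =>
    intro l
    rw [Formula.toks, List.cons_append, List.foldr_cons, List.append_assoc, poly_tstep, poly_tstep]
    simp [tstep]
  | not φ h =>
    intro l
    rw [Formula.toks, List.cons_append, List.foldr_cons, h]
    simp [tstep]
  | and φ ψ h1 h2 =>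
    intro l
    rw [Formula.toks, List.cons_append, List.foldr_cons, List.append_assoc, h1, h2]
    simp [tstep]
  | or φ ψ h1 h2 =>
    intro l
    rw [Formula.toks, List.cons_append, List.foldr_cons, List.append_assoc, h1, h2]
    simp [tstep]

/-! ### integers -/

theorem bits_last (n : ℕ) (hn : n ≠ 0) : (Nat.bits n).reverse.headD false = true := by
  induction n using Nat.strong_induction_on with
  | _ n ih =>
    obtain ⟨b, m, rfl⟩ : ∃ b m, n = Nat.bit b m := ⟨n.bodd, n.div2, (Nat.bit_bodd_div2 n).symm⟩
    by_cases hm : m = 0
    · subst hm
      cases b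
      · exact absurd rfl hn
      · rfl
    · have h1 : (Nat.bit b m).bits = b :: m.bits := Nat.bits_append_bit m b (fun h => absurd h hm)
      rw [h1, List.reverse_cons]
      have h2 := ih m (by
        cases b <;> simp [Nat.bit_val] <;> omega) hm
      cases h3 : (Nat.bits m).reverse with
      | nil => rw [h3] at h2; simp at h2
      | cons c r =>
        rw [h3] at h2
        simpa using h2

theorem exists_bits (l : List Bool) (h : l.reverse.headD false = true) :
    ∃ n, n ≠ 0 ∧ Nat.bits n = l := by
  induction l with
  | nil => simp at h
  | cons b l ih =>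
    by_cases hl : l = []
    · subst hl
      have hb : b = true := by simpa using h
      subst hb
      exact ⟨1, one_ne_zero, by simp⟩
    · have h1 : l.reverse.headD false = true := by
        rw [List.reverse_cons] at h
        cases h3 : l.reverse with
        | nil =>
          rw [List.reverse_eq_nil_iff] at h3
          exact absurd h3 hl
        | cons c r =>
          rw [h3] at h
          simpa using h
      obtain ⟨n, hn, he⟩ := ih h1
      refine ⟨Nat.bit b n, ?_, ?_⟩
      · intro h0
        apply hn
        cases b <;> simp [Nat.bit_val] at h0 <;> omega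
      · rw [Nat.bits_append_bit n b (fun h => absurd h hn), he]

theorem intBits_ok (z : ℤ) : tokOK (1, intBits z) = true := by
  unfold tokOK intBits
  simp only [one_ne_zero, if_false, if_true, decide_eq_true_eq]
  by_cases hz : z = 0
  · subst hz
    left
    simp
  · right
    rw [List.tail_cons]
    exact bits_last _ (by simpa using hz)

theorem exists_intBits (l : List Bool) (h : tokOK (1, l) = true) : ∃ z, intBits z = l := by
  unfold tokOK at h
  simp only [one_ne_zero, if_false, if_true, decide_eq_true_eq] at h
  rcases h with h | h
  · exact ⟨0, by rw [h]; simp [intBits]⟩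
  · cases l with
    | nil => simp at h
    | cons b l =>
      rw [List.tail_cons] at h
      obtain ⟨n, hn, he⟩ := exists_bits l h
      cases b with
      | false =>
        refine ⟨(n : ℤ), ?_⟩
        unfold intBits
        rw [Int.natAbs_natCast, he]
        simp
      | true =>
        refine ⟨-(n : ℤ), ?_⟩
        unfold intBits
        rw [Int.natAbs_neg, Int.natAbs_natCast, he]
        have h5 : -(n : ℤ) < 0 := by omega
        rw [decide_eq_true h5]

/-! ### correctness of the check -/

theorem poly_ok (p : Poly) : ∀ k ∈ p.toks, tokOK k = true := by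
  induction p with
  | var i =>
    intro k hk
    simp only [Poly.toks, List.mem_singleton] at hk
    subst hk
    simp [tokOK]
  | int z =>
    intro k hk
    simp only [Poly.toks, List.mem_singleton] at hk
    subst hk
    exact intBits_ok z
  | add p q hp hq =>
    intro k hk
    simp only [Poly.toks, List.mem_cons, List.mem_append] at hk
    rcases hk with rfl | hk | hk
    · simp [tokOK]
    · exact hp k hk
    · exact hq k hk
  | mul p q hp hq =>
    intro k hk
    simp only [Poly.toks, List.mem_cons, List.mem_append] at hk
    rcases hk with rfl | hk | hk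
    · simp [tokOK]
    · exact hp k hk
    · exact hq k hk

theorem form_ok (φ : Formula) : ∀ k ∈ φ.toks, tokOK k = true := by
  induction φ with
  | eq p q =>
    intro k hk
    simp only [Formula.toks, List.mem_cons, List.mem_append] at hk
    rcases hk with rfl | hk | hk
    · simp [tokOK]
    · exact poly_ok p k hk
    · exact poly_ok q k hk
  | lt p q =>
    intro k hk
    simp only [Formula.toks, List.mem_cons, List.mem_append] at hk
    rcases hk with rfl | hk | hk
    · simp [tokOK]
    · exact poly_ok p k hk
    · exact poly_ok q k hk
  | not φ h =>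
    intro k hk
    simp only [Formula.toks, List.mem_cons] at hk
    rcases hk with rfl | hk
    · simp [tokOK]
    · exact h k hk
  | and φ ψ h1 h2 =>
    intro k hk
    simp only [Formula.toks, List.mem_cons, List.mem_append] at hk
    rcases hk with rfl | hk | hk
    · simp [tokOK]
    · exact h1 k hk
    · exact h2 k hk
  | or φ ψ h1 h2 =>
    intro k hk
    simp only [Formula.toks, List.mem_cons, List.mem_append] at hk
    rcases hk with rfl | hk | hk
    · simp [tokOK]
    · exact h1 k hk
    · exact h2 k hk

/-- Token lists of sequences of polynomials and formulas. -/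
inductive Seqs : List ℕ → List Tok → Prop
  | nil : Seqs [] []
  | poly (p : Poly) (s : List ℕ) (l : List Tok) : Seqs s l → Seqs (0 :: s) (p.toks ++ l)
  | form (φ : Formula) (s : List ℕ) (l : List Tok) : Seqs s l → Seqs (1 :: s) (φ.toks ++ l)

theorem Seqs.inv0 {s : List ℕ} {l : List Tok} (h : Seqs (0 :: s) l) :
    ∃ (p : Poly) (l' : List Tok), l = p.toks ++ l' ∧ Seqs s l' := by
  cases h with
  | poly p s l h => exact ⟨p, l, rfl, h⟩

theorem Seqs.inv1 {s : List ℕ} {l : List Tok} (h : Seqs (1 :: s) l) :
    ∃ (φ : Formula) (l' : List Tok), l = φ.toks ++ l' ∧ Seqs s l' := by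
  cases h with
  | form φ s l h => exact ⟨φ, l, rfl, h⟩

theorem headD_eq {s : List ℕ} {c : ℕ} (hc : c ≠ 2) (h : s.headD 2 = c) : s = c :: s.tail := by
  cases s with
  | nil => exact absurd h.symm hc
  | cons a s =>
    simp only [List.headD_cons] at h
    rw [h, List.tail_cons]

theorem tok_nil {k : Tok} (h0 : k.1 ≠ 0) (h1 : k.1 ≠ 1) (h : tokOK k = true) : k.2 = [] := by
  unfold tokOK at h
  rw [if_neg h0, if_neg h1] at h
  simpa using h

theorem seqs_of (toks : List Tok) (hok : ∀ k ∈ toks, tokOK k = true)
    (h2 : 2 ∉ toks.foldr tstep []) : Seqs (toks.foldr tstep []) toks := by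
  induction toks with
  | nil => exact Seqs.nil
  | cons k l ih =>
    rw [List.foldr_cons] at h2 ⊢
    set s := l.foldr tstep [] with hs
    have hk := hok k (by simp)
    have hl : ∀ k ∈ l, tokOK k = true := fun k hk => hok k (by simp [hk])
    obtain ⟨n, pl⟩ := k
    unfold tstep at h2 ⊢
    simp only at h2 ⊢
    by_cases c1 : n ≤ 1
    · rw [if_pos c1] at h2 ⊢
      have ih' := ih hl (fun h => h2 (List.mem_cons_of_mem _ h))
      by_cases c0 : n = 0
      · subst c0
        have h3 : pl = List.replicate pl.length true := by
          rw [List.eq_replicate_iff]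
          refine ⟨rfl, fun b hb => ?_⟩
          simp only [tokOK, if_true, List.all_eq_true] at hk
          exact hk b hb
        rw [h3]
        exact Seqs.poly (Poly.var pl.length) s l ih'
      · have c01 : n = 1 := by omega
        subst c01
        obtain ⟨z, hz⟩ := exists_intBits pl hk
        rw [← hz]
        exact Seqs.poly (Poly.int z) s l ih'
    · rw [if_neg c1] at h2 ⊢
      have hpl : pl = [] := tok_nil (k := (n, pl)) (by simp only; omega) (by simp only; omega) hk
      subst hpl
      by_cases c3 : n ≤ 3
      · rw [if_pos c3] at h2 ⊢
        by_cases c : s.headD 2 = 0 ∧ s.tail.headD 2 = 0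
        · rw [if_pos c] at h2 ⊢
          have e1 := headD_eq (by norm_num) c.1
          have e2 := headD_eq (by norm_num) c.2
          rw [e2] at e1
          have ih' := ih hl (by
            rw [e1]
            intro h
            apply h2
            simpa using h)
          rw [e1] at ih'
          obtain ⟨p, l', rfl, ih1⟩ := ih'.inv0
          obtain ⟨q, l'', rfl, ih2⟩ := ih1.inv0
          rw [← List.append_assoc]
          rcases (by omega : n = 2 ∨ n = 3) with rfl | rfl
          · exact Seqs.poly (Poly.add p q) _ _ ih2
          · exact Seqs.poly (Poly.mul p q) _ _ ih2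
        · rw [if_neg c] at h2
          simp at h2
      · rw [if_neg c3] at h2 ⊢
        by_cases c5 : n ≤ 5
        · rw [if_pos c5] at h2 ⊢
          by_cases c : s.headD 2 = 0 ∧ s.tail.headD 2 = 0
          · rw [if_pos c] at h2 ⊢
            have e1 := headD_eq (by norm_num) c.1
            have e2 := headD_eq (by norm_num) c.2
            rw [e2] at e1
            have ih' := ih hl (by
              rw [e1]
              intro h
              apply h2
              simpa using h)
            rw [e1] at ih'
            obtain ⟨p, l', rfl, ih1⟩ := ih'.inv0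
            obtain ⟨q, l'', rfl, ih2⟩ := ih1.inv0
            rw [← List.append_assoc]
            rcases (by omega : n = 4 ∨ n = 5) with rfl | rfl
            · exact Seqs.form (Formula.eq p q) _ _ ih2
            · exact Seqs.form (Formula.lt p q) _ _ ih2
          · rw [if_neg c] at h2
            simp at h2
        · rw [if_neg c5] at h2 ⊢
          by_cases c6 : n = 6
          · rw [if_pos c6] at h2 ⊢
            by_cases c : s.headD 2 = 1
            · rw [if_pos c] at h2 ⊢
              have e1 := headD_eq (by norm_num) c
              have ih' := ih hl h2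
              rw [e1] at ih' ⊢
              obtain ⟨p, l', rfl, ih1⟩ := ih'.inv1
              subst c6
              exact Seqs.form (Formula.not p) _ _ ih1
            · rw [if_neg c] at h2
              simp at h2
          · rw [if_neg c6] at h2 ⊢
            by_cases c8 : n ≤ 8
            · rw [if_pos c8] at h2 ⊢
              by_cases c : s.headD 2 = 1 ∧ s.tail.headD 2 = 1
              · rw [if_pos c] at h2 ⊢
                have e1 := headD_eq (by norm_num) c.1
                have e2 := headD_eq (by norm_num) c.2
                have ih' := ih hl (by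
                  rw [e1]
                  intro h
                  apply h2
                  simpa using h)
                rw [e1, e2] at ih'
                rw [e2]
                obtain ⟨p, l', rfl, ih1⟩ := ih'.inv1
                obtain ⟨q, l'', rfl, ih2⟩ := ih1.inv1
                rw [← List.append_assoc]
                rcases (by omega : n = 7 ∨ n = 8) with rfl | rfl
                · exact Seqs.form (Formula.and p q) _ _ ih2
                · exact Seqs.form (Formula.or p q) _ _ ih2
              · rw [if_neg c] at h2
                simp at h2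
            · rw [if_neg c8] at h2
              simp at h2

/-- The parser. -/
def parseF (w : List Bool) : Option (List Tok) :=
  if (Enc.enc (toksOf w)).enc = w ∧ ((toksOf w).all tokOK = true ∧
    (toksOf w).foldr tstep [] = [1]) then some (toksOf w) else none

theorem ptf_toksOf : PTF toksOf := by
  have h1 : PTF (fun w : List Bool => parse w) := ptf_parse
  unfold toksOf
  fun_prop

theorem ptf_tokOK : PTF tokOK := by
  unfold tokOK
  fun_prop

theorem ptf_check : PTF (fun w : List Bool => (toksOf w).foldr tstep []) := by
  have h := PTF.foldl_add (l := fun w : List Bool => (toksOf w).reverse)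
    (init := fun _ => ([] : List ℕ)) (step := fun p : List Bool × (List ℕ × Tok) =>
      tstep p.2.2 p.2.1) (ptf_toksOf.reverse) (by fun_prop) (by unfold tstep; fun_prop)
    (fun _ => 100) (PB.const 100) (fun a s k _ => by
      show sz (tstep k s) ≤ sz s + 100
      have ht : ∀ s : List ℕ, sz s.tail ≤ sz s := by
        intro s
        cases s with
        | nil => exact le_rfl
        | cons a s => rw [List.tail_cons, sz_cons]; omega
      have h1 := ht s
      have h2 := ht s.tail
      have e0 : sz (0 : ℕ) = 1 := rfl
      have e1 : sz (1 : ℕ) = 3 := rfl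
      have e2 : sz (2 : ℕ) = 5 := rfl
      unfold tstep
      split_ifs <;> (try rw [sz_cons]) <;> omega)
  refine h.congr (fun w => ?_)
  rw [← List.foldl_reverse]

theorem ptf_parseF : PTF parseF := by
  have h1 := ptf_toksOf
  have h2 := ptf_check
  have h3 : PTF (fun w : List Bool => (toksOf w).all tokOK) :=
    PTF.all' (f := fun (_ : List Bool) k => tokOK k) (ptf_tokOK.comp PTF.snd) h1
  have h4 : PTF (fun w : List Bool => (Enc.enc (toksOf w)).enc) := ptf_ser h1
  unfold parseF
  exact PTF.ite (PTF.decide_and (PTF.eq h4 PTF.id) (PTF.decide_and
    (PTF.eq h3 (PTF.const true)) (PTF.eq h2 (PTF.const _)))) h1.some (PTF.const _)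

theorem claimParse : ClaimParse := by
  refine ⟨parseF, ptf_parseF, fun w toks => ?_⟩
  constructor
  · intro h
    unfold parseF at h
    by_cases c : (Enc.enc (toksOf w)).enc = w ∧ ((toksOf w).all tokOK = true ∧
      (toksOf w).foldr tstep [] = [1])
    · rw [if_pos c] at h
      obtain ⟨c1, c2, c3⟩ := c
      have h1 : toksOf w = toks := Option.some.inj h
      rw [h1] at c1 c2 c3
      have h2 := seqs_of toks (fun k hk => (List.all_eq_true.1 c2) k hk) (by rw [c3]; decide)
      rw [c3] at h2
      obtain ⟨φ, l', he, h3⟩ := h2.inv1
      cases h3
      rw [List.append_nil] at he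
      exact ⟨φ, by rw [Formula.code, ← he]; exact c1, he.symm⟩
    · rw [if_neg c] at h
      cases h
  · rintro ⟨φ, rfl, rfl⟩
    have h1 : toksOf φ.code = φ.toks := toksOf_enc φ.toks
    unfold parseF
    rw [h1, if_pos]
    refine ⟨rfl, ?_, ?_⟩
    · rw [List.all_eq_true]
      exact fun k hk => form_ok φ k hk
    · have := form_tstep φ []
      rw [List.append_nil] at this
      exact this

end Pool.Agent.Work.MP_5b14b0_lc
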