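import Pool.Agent.Work.MP_5b14b0_lc.Alg

/-!
# From formulas to quadratic systems (Tseitin translation)

The list of tokens is expanded to a list of simple tokens (`qexpand`), which is executed from the
right by a stack machine. The machine has a stack of variables, the number of the next fresh
variable and the list of constraints. Variable `0` is the constant 1, variable `1` the constant
0, variable `i + 2` is `x_i`.
-/

set_option autoImplicit false

namespace Pool.Agent.Work.MP_5b14b0_lc

open Pool.Agent.PT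

/-- Simple tokens: tag and index. -/
abbrev ST := ℕ × ℕ

/-- States of the stack machine. -/
abbrev SS := List ℕ × (ℕ × List QC)

/-- Expansion of a token: integers are evaluated by doubling. -/
def qexpand (t : Tok) : List ST :=
  if t.1 = 0 then [(0, t.2.length)]
  else if t.1 = 1 then
    (if t.2.headD false then [((9, 0) : ST)] else []) ++
      (t.2.tail.map (fun b => if b then ((11, 0) : ST) else (10, 0)) ++ [(12, 0)])
  else [(t.1, 0)]

/-- The gadget of a simple token: result variable, number of fresh variables, arity,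
constraints. -/
def qg (t i a b n : ℕ) : ℕ × (ℕ × (ℕ × List QC)) :=
  if t = 0 then (i + 2, 0, 0, [])
  else if t = 2 then (n, 1, 2, [(0, a, b, n)])
  else if t = 3 ∨ t = 7 then (n, 1, 2, [(1, a, b, n)])
  else if t = 4 then (n + 1, 4, 2,
    [(0, n, b, a), (1, n + 1, n, 1), (1, n, n + 2, n + 3), (0, n + 3, n + 1, 0)])
  else if t = 5 then (n + 1, 8, 2,
    [(0, n, a, b), (1, n + 1, n + 1, n + 1), (1, n, n + 2, n + 1), (1, n + 3, n + 3, n + 2),
      (0, n + 4, n + 1, 0), (1, n + 4, n, n + 5), (0, n + 5, n + 6, 1),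
      (1, n + 7, n + 7, n + 6)])
  else if t = 6 then (n, 1, 1, [(0, n, a, 0)])
  else if t = 8 then (n + 2, 3, 2, [(1, a, b, n), (0, a, b, n + 1), (0, n + 2, n, n + 1)])
  else if t = 9 then (n, 1, 1, [(0, n, a, 1)])
  else if t = 10 then (n, 1, 1, [(0, a, a, n)])
  else if t = 11 then (n + 1, 2, 1, [(0, a, a, n), (0, n, 0, n + 1)])
  else (1, 0, 0, [])

/-- The arity of a simple token. -/
def qar (t : ℕ) : ℕ :=
  if t = 2 ∨ t = 3 ∨ t = 7 ∨ t = 4 ∨ t = 5 ∨ t = 8 then 2
  else if t = 6 ∨ t = 9 ∨ t = 10 ∨ t = 11 then 1 else 0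

open Classical in
/-- The meaning of a simple token. -/
noncomputable def qsem (x : ℕ → ℝ) (t i : ℕ) (A B : ℝ) : ℝ :=
  if t = 0 then x i
  else if t = 2 then A + B
  else if t = 3 ∨ t = 7 then A * B
  else if t = 4 then (if A = B then 1 else 0)
  else if t = 5 then (if A < B then 1 else 0)
  else if t = 6 then 1 - A
  else if t = 8 then A + B - A * B
  else if t = 9 then -A
  else if t = 10 then 2 * A
  else if t = 11 then 2 * A + 1
  else 0

/-- One step of the machine. -/
def qstep (t : ST) (s : SS) : SS :=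
  ((qg t.1 t.2 (s.1.headD 0) (s.1.tail.headD 0) s.2.1).1 :: s.1.drop (qar t.1),
    s.2.1 + (qg t.1 t.2 (s.1.headD 0) (s.1.tail.headD 0) s.2.1).2.1,
    (qg t.1 t.2 (s.1.headD 0) (s.1.tail.headD 0) s.2.1).2.2.2 ++ s.2.2)

/-- One step of the evaluation. -/
noncomputable def estep (x : ℕ → ℝ) (t : ST) (S : List ℝ) : List ℝ :=
  qsem x t.1 t.2 (S.headD 1) (S.tail.headD 1) :: S.drop (qar t.1)

/-! ### Soundness of the gadgets -/

theorem qg_sound {ξ : ℕ → ℝ} (h0 : ξ 0 = 1) (h1 : ξ 1 = 0) (t i a b n : ℕ)
    (h : ∀ c ∈ (qg t i a b n).2.2.2, QHolds ξ c) :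
    ξ (qg t i a b n).1 = qsem (fun j => ξ (j + 2)) t i (ξ a) (ξ b) := by
  unfold qg at h ⊢
  unfold qsem
  by_cases e0 : t = 0
  · simp only [e0, if_true]
  by_cases e2 : t = 2
  · simp only [e2, if_true, if_neg (show ¬ (2 : ℕ) = 0 by norm_num), List.mem_singleton,
      forall_eq, QHolds] at h ⊢
    exact (h.1 trivial).symm
  by_cases e3 : t = 3 ∨ t = 7
  · simp only [if_neg e0, if_neg e2, if_pos e3, List.mem_singleton, forall_eq, QHolds] at h ⊢
    exact (h.2 one_ne_zero).symm
  by_cases e4 : t = 4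
  · simp only [if_neg e0, if_neg e2, if_neg e3, if_pos e4, List.mem_cons, List.not_mem_nil,
      or_false, forall_eq_or_imp, forall_eq, QHolds] at h ⊢
    obtain ⟨a1, a2, a3, a4⟩ := h
    replace a1 := a1.1 trivial
    replace a2 := a2.2 one_ne_zero
    replace a3 := a3.2 one_ne_zero
    replace a4 := a4.1 trivial
    rw [h1] at a2
    rw [h0] at a4
    split_ifs with hab
    · have : ξ n = 0 := by linarith
      rw [this, zero_mul] at a3
      linarith
    · have hn : ξ n ≠ 0 := by
        intro hn
        apply hab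
        linarith
      exact (mul_eq_zero.1 a2).resolve_right hn
  by_cases e5 : t = 5
  · simp only [if_neg e0, if_neg e2, if_neg e3, if_neg e4, if_pos e5, List.mem_cons,
      List.not_mem_nil, or_false, forall_eq_or_imp, forall_eq, QHolds] at h ⊢
    obtain ⟨a1, a2, a3, a4, a5, a6, a7, a8⟩ := h
    replace a1 := a1.1 trivial
    replace a2 := a2.2 one_ne_zero
    replace a3 := a3.2 one_ne_zero
    replace a4 := a4.2 one_ne_zero
    replace a5 := a5.1 trivial
    replace a6 := a6.2 one_ne_zero
    replace a7 := a7.1 trivial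
    replace a8 := a8.2 one_ne_zero
    rw [h0] at a5
    rw [h1] at a7
    have hb : ξ (n + 1) = 0 ∨ ξ (n + 1) = 1 := by
      have : ξ (n + 1) * (ξ (n + 1) - 1) = 0 := by linarith
      rcases mul_eq_zero.1 this with h | h
      · exact Or.inl h
      · exact Or.inr (by linarith)
    have hs : 0 ≤ ξ (n + 2) := by rw [← a4]; exact mul_self_nonneg _
    have hr : 0 ≤ ξ (n + 6) := by rw [← a8]; exact mul_self_nonneg _
    split_ifs with hab
    · rcases hb with hb | hb
      · exfalso
        rw [hb] at a5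
        have hc : ξ (n + 4) = 1 := by linarith
        rw [hc, one_mul] at a6
        linarith
      · exact hb
    · rcases hb with hb | hb
      · exact hb
      · exfalso
        have hn : ξ n ≤ 0 := by push Not at hab; linarith
        have := mul_nonneg (neg_nonneg.2 hn) hs
        linarith
  by_cases e6 : t = 6
  · simp only [if_neg e0, if_neg e2, if_neg e3, if_neg e4, if_neg e5, if_pos e6,
      List.mem_singleton, forall_eq, QHolds] at h ⊢
    have := h.1 trivial
    linarith
  by_cases e8 : t = 8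
  · simp only [if_neg e0, if_neg e2, if_neg e3, if_neg e4, if_neg e5, if_neg e6, if_pos e8,
      List.mem_cons, List.not_mem_nil, or_false, forall_eq_or_imp, forall_eq, QHolds] at h ⊢
    obtain ⟨a1, a2, a3⟩ := h
    replace a1 := a1.2 one_ne_zero
    replace a2 := a2.1 trivial
    replace a3 := a3.1 trivial
    linarith
  by_cases e9 : t = 9
  · simp only [if_neg e0, if_neg e2, if_neg e3, if_neg e4, if_neg e5, if_neg e6, if_neg e8,
      if_pos e9, List.mem_singleton, forall_eq, QHolds] at h ⊢
    have := h.1 trivial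
    linarith
  by_cases e10 : t = 10
  · simp only [if_neg e0, if_neg e2, if_neg e3, if_neg e4, if_neg e5, if_neg e6, if_neg e8,
      if_neg e9, if_pos e10, List.mem_singleton, forall_eq, QHolds] at h ⊢
    have := h.1 trivial
    linarith
  by_cases e11 : t = 11
  · simp only [if_neg e0, if_neg e2, if_neg e3, if_neg e4, if_neg e5, if_neg e6, if_neg e8,
      if_neg e9, if_neg e10, if_pos e11, List.mem_cons, List.not_mem_nil, or_false,
      forall_eq_or_imp, forall_eq, QHolds] at h ⊢
    obtain ⟨a1, a2⟩ := h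
    replace a1 := a1.1 trivial
    replace a2 := a2.1 trivial
    linarith
  · simp only [if_neg e0, if_neg e2, if_neg e3, if_neg e4, if_neg e5, if_neg e6, if_neg e8,
      if_neg e9, if_neg e10, if_neg e11]
    exact h1

/-! ### Completeness of the gadgets -/

/-- Extension of an assignment. -/
noncomputable def qext (ξ : ℕ → ℝ) (n : ℕ) (L : List ℝ) (k : ℕ) : ℝ :=
  if k < n then ξ k else L.getD (k - n) 0

theorem qext_lt {ξ : ℕ → ℝ} {n : ℕ} {L : List ℝ} {k : ℕ} (h : k < n) :
    qext ξ n L k = ξ k := if_pos h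

theorem qext_add {ξ : ℕ → ℝ} {n : ℕ} {L : List ℝ} (j : ℕ) :
    qext ξ n L (n + j) = L.getD j 0 := by
  unfold qext
  rw [if_neg (by omega), Nat.add_sub_cancel_left]

theorem qext_zero {ξ : ℕ → ℝ} {n : ℕ} {L : List ℝ} :
    qext ξ n L n = L.getD 0 0 := qext_add (ξ := ξ) (n := n) (L := L) 0

theorem qg_complete {ξ : ℕ → ℝ} (h0 : ξ 0 = 1) (h1 : ξ 1 = 0) (t i a b n : ℕ) (hn : 2 ≤ n)
    (ha : a < n) (hb : b < n) :
    ∃ L : List ℝ, ∀ c ∈ (qg t i a b n).2.2.2, QHolds (qext ξ n L) c := by
  have k0 : ∀ L, qext ξ n L 0 = 1 := fun L => by rw [qext_lt (by omega), h0]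
  have k1 : ∀ L, qext ξ n L 1 = 0 := fun L => by rw [qext_lt (by omega), h1]
  have ka : ∀ L, qext ξ n L a = ξ a := fun L => qext_lt ha
  have kb : ∀ L, qext ξ n L b = ξ b := fun L => qext_lt hb
  unfold qg
  by_cases e0 : t = 0
  · exact ⟨[], by simp [e0]⟩
  by_cases e2 : t = 2
  · refine ⟨[ξ a + ξ b], ?_⟩
    simp only [if_neg e0, if_pos e2, List.mem_singleton, forall_eq, QHolds, ka, kb, qext_zero]
    simp
  by_cases e3 : t = 3 ∨ t = 7
  · refine ⟨[ξ a * ξ b], ?_⟩
    simp only [if_neg e0, if_neg e2, if_pos e3, List.mem_singleton, forall_eq, QHolds, ka, kb,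
      qext_zero]
    simp
  by_cases e4 : t = 4
  · by_cases hab : ξ a = ξ b
    · refine ⟨[0, 1, 0, 0], ?_⟩
      simp only [if_neg e0, if_neg e2, if_neg e3, if_pos e4, List.mem_cons, List.not_mem_nil,
        or_false, forall_eq_or_imp, forall_eq, QHolds, ka, kb, k0, k1, qext_zero, qext_add]
      simp [hab]
    · refine ⟨[ξ a - ξ b, 0, (ξ a - ξ b)⁻¹, 1], ?_⟩
      simp only [if_neg e0, if_neg e2, if_neg e3, if_pos e4, List.mem_cons, List.not_mem_nil,
        or_false, forall_eq_or_imp, forall_eq, QHolds, ka, kb, k0, k1, qext_zero, qext_add]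
      have : ξ a - ξ b ≠ 0 := sub_ne_zero.2 hab
      simp [this]
  by_cases e5 : t = 5
  · by_cases hab : ξ a < ξ b
    · refine ⟨[ξ b - ξ a, 1, (ξ b - ξ a)⁻¹, Real.sqrt (ξ b - ξ a)⁻¹, 0, 0, 0, 0], ?_⟩
      simp only [if_neg e0, if_neg e2, if_neg e3, if_neg e4, if_pos e5, List.mem_cons,
        List.not_mem_nil, or_false, forall_eq_or_imp, forall_eq, QHolds, ka, kb, k0, k1,
        qext_zero, qext_add]
      have h3 : 0 < ξ b - ξ a := sub_pos.2 hab
      have h4 := Real.mul_self_sqrt (inv_nonneg.2 h3.le)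
      generalize Real.sqrt (ξ b - ξ a)⁻¹ = r at h4
      simp only [List.getD_cons_zero, List.getD_cons_succ]
      simp [h3.ne', h4]
    · refine ⟨[ξ b - ξ a, 0, 0, 0, 1, ξ b - ξ a, ξ a - ξ b, Real.sqrt (ξ a - ξ b)], ?_⟩
      simp only [if_neg e0, if_neg e2, if_neg e3, if_neg e4, if_pos e5, List.mem_cons,
        List.not_mem_nil, or_false, forall_eq_or_imp, forall_eq, QHolds, ka, kb, k0, k1,
        qext_zero, qext_add]
      have h3 : 0 ≤ ξ a - ξ b := by push Not at hab; linarith
      have h4 := Real.mul_self_sqrt h3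
      simp only [List.getD_cons_zero, List.getD_cons_succ]
      simp [h4]
  by_cases e6 : t = 6
  · refine ⟨[1 - ξ a], ?_⟩
    simp only [if_neg e0, if_neg e2, if_neg e3, if_neg e4, if_neg e5, if_pos e6,
      List.mem_singleton, forall_eq, QHolds, ka, k0, qext_zero]
    simp
  by_cases e8 : t = 8
  · refine ⟨[ξ a * ξ b, ξ a + ξ b, ξ a + ξ b - ξ a * ξ b], ?_⟩
    simp only [if_neg e0, if_neg e2, if_neg e3, if_neg e4, if_neg e5, if_neg e6, if_pos e8,
      List.mem_cons, List.not_mem_nil, or_false, forall_eq_or_imp, forall_eq, QHolds, ka, kb,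
      qext_zero, qext_add]
    simp
  by_cases e9 : t = 9
  · refine ⟨[-ξ a], ?_⟩
    simp only [if_neg e0, if_neg e2, if_neg e3, if_neg e4, if_neg e5, if_neg e6, if_neg e8,
      if_pos e9, List.mem_singleton, forall_eq, QHolds, ka, k1, qext_zero]
    simp
  by_cases e10 : t = 10
  · refine ⟨[ξ a + ξ a], ?_⟩
    simp only [if_neg e0, if_neg e2, if_neg e3, if_neg e4, if_neg e5, if_neg e6, if_neg e8,
      if_neg e9, if_pos e10, List.mem_singleton, forall_eq, QHolds, ka, qext_zero]
    simp
  by_cases e11 : t = 11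
  · refine ⟨[ξ a + ξ a, ξ a + ξ a + 1], ?_⟩
    simp only [if_neg e0, if_neg e2, if_neg e3, if_neg e4, if_neg e5, if_neg e6, if_neg e8,
      if_neg e9, if_neg e10, if_pos e11, List.mem_cons, List.not_mem_nil, or_false,
      forall_eq_or_imp, forall_eq, QHolds, ka, k0, qext_zero, qext_add]
    simp
  · refine ⟨[], ?_⟩
    simp only [if_neg e0, if_neg e2, if_neg e3, if_neg e4, if_neg e5, if_neg e6, if_neg e8,
      if_neg e9, if_neg e10, if_neg e11]
    simp

/-! ### Bounds for the gadgets -/

theorem qg_bounds (t i a b n : ℕ) (hn : 2 ≤ n) (hi : i + 2 < n) (ha : a < n) (hb : b < n) :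
    (qg t i a b n).1 < n + (qg t i a b n).2.1 ∧ (qg t i a b n).2.1 ≤ 8 ∧
      (qg t i a b n).2.2.2.length ≤ 8 ∧
      ∀ c ∈ (qg t i a b n).2.2.2, c.1 ≤ 1 ∧ c.2.1 < n + (qg t i a b n).2.1 ∧
        c.2.2.1 < n + (qg t i a b n).2.1 ∧ c.2.2.2 < n + (qg t i a b n).2.1 := by
  have key : ∀ (r f k : ℕ) (cs : List QC), r < n + f → f ≤ 8 → cs.length ≤ 8 →
      (cs.all (fun c => decide (c.1 ≤ 1 ∧ c.2.1 < n + f ∧ c.2.2.1 < n + f ∧
        c.2.2.2 < n + f)) = true) →
      ((r, f, k, cs) : ℕ × (ℕ × (ℕ × List QC))).1 < n + ((r, f, k, cs) :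
        ℕ × (ℕ × (ℕ × List QC))).2.1 ∧ ((r, f, k, cs) : ℕ × (ℕ × (ℕ × List QC))).2.1 ≤ 8 ∧
      ((r, f, k, cs) : ℕ × (ℕ × (ℕ × List QC))).2.2.2.length ≤ 8 ∧
      ∀ c ∈ ((r, f, k, cs) : ℕ × (ℕ × (ℕ × List QC))).2.2.2, c.1 ≤ 1 ∧
        c.2.1 < n + ((r, f, k, cs) : ℕ × (ℕ × (ℕ × List QC))).2.1 ∧
        c.2.2.1 < n + ((r, f, k, cs) : ℕ × (ℕ × (ℕ × List QC))).2.1 ∧
        c.2.2.2 < n + ((r, f, k, cs) : ℕ × (ℕ × (ℕ × List QC))).2.1 := by
    intro r f k cs h1 h2 h3 h4
    refine ⟨h1, h2, h3, fun c hc => ?_⟩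
    have := List.all_eq_true.1 h4 c hc
    exact of_decide_eq_true this
  unfold qg
  by_cases e0 : t = 0
  · simp only [if_pos e0]
    exact key (i + 2) 0 0 [] (by omega) (by omega) (by simp) (by simp)
  simp only [if_neg e0]
  by_cases e2 : t = 2
  · simp only [if_pos e2]
    exact key _ _ 0 _ (by omega) (by omega) (by simp) (by
      simp only [List.all_cons, List.all_nil, Bool.and_true, Bool.and_eq_true,
        decide_eq_true_eq]
      omega)
  simp only [if_neg e2]
  by_cases e3 : t = 3 ∨ t = 7
  · simp only [if_pos e3]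
    exact key _ _ 0 _ (by omega) (by omega) (by simp) (by
      simp only [List.all_cons, List.all_nil, Bool.and_true, Bool.and_eq_true,
        decide_eq_true_eq]
      omega)
  simp only [if_neg e3]
  by_cases e4 : t = 4
  · simp only [if_pos e4]
    exact key _ _ 0 _ (by omega) (by omega) (by simp) (by
      simp only [List.all_cons, List.all_nil, Bool.and_true, Bool.and_eq_true,
        decide_eq_true_eq]
      omega)
  simp only [if_neg e4]
  by_cases e5 : t = 5
  · simp only [if_pos e5]
    exact key _ _ 0 _ (by omega) (by omega) (by simp) (by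
      simp only [List.all_cons, List.all_nil, Bool.and_true, Bool.and_eq_true,
        decide_eq_true_eq]
      omega)
  simp only [if_neg e5]
  by_cases e6 : t = 6
  · simp only [if_pos e6]
    exact key _ _ 0 _ (by omega) (by omega) (by simp) (by
      simp only [List.all_cons, List.all_nil, Bool.and_true, Bool.and_eq_true,
        decide_eq_true_eq]
      omega)
  simp only [if_neg e6]
  by_cases e8 : t = 8
  · simp only [if_pos e8]
    exact key _ _ 0 _ (by omega) (by omega) (by simp) (by
      simp only [List.all_cons, List.all_nil, Bool.and_true, Bool.and_eq_true,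
        decide_eq_true_eq]
      omega)
  simp only [if_neg e8]
  by_cases e9 : t = 9
  · simp only [if_pos e9]
    exact key _ _ 0 _ (by omega) (by omega) (by simp) (by
      simp only [List.all_cons, List.all_nil, Bool.and_true, Bool.and_eq_true,
        decide_eq_true_eq]
      omega)
  simp only [if_neg e9]
  by_cases e10 : t = 10
  · simp only [if_pos e10]
    exact key _ _ 0 _ (by omega) (by omega) (by simp) (by
      simp only [List.all_cons, List.all_nil, Bool.and_true, Bool.and_eq_true,
        decide_eq_true_eq]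
      omega)
  simp only [if_neg e10]
  by_cases e11 : t = 11
  · simp only [if_pos e11]
    exact key _ _ 0 _ (by omega) (by omega) (by simp) (by
      simp only [List.all_cons, List.all_nil, Bool.and_true, Bool.and_eq_true,
        decide_eq_true_eq]
      omega)
  simp only [if_neg e11]
  exact key 1 0 0 [] (by omega) (by omega) (by simp) (by simp)

/-! ### Invariants of the machine -/

structure QInv (N L : ℕ) (s : SS) : Prop where
  n0 : N ≤ s.2.1
  nb : s.2.1 ≤ N + 8 * L
  st : ∀ v ∈ s.1, v < s.2.1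
  sl : s.1.length ≤ L
  cs : ∀ c ∈ s.2.2, c.1 ≤ 1 ∧ c.2.1 < s.2.1 ∧ c.2.2.1 < s.2.1 ∧ c.2.2.2 < s.2.1
  cl : s.2.2.length ≤ 8 * L + 1

theorem QInv.head {N L : ℕ} {s : SS} (h : QInv N L s) (hN : 2 ≤ N) : s.1.headD 0 < s.2.1 := by
  have h0 := h.n0
  have h1 := h.st
  obtain ⟨S, n, cs⟩ := s
  cases S with
  | nil => simp only [List.headD_nil] at h0 ⊢; omega
  | cons a S => exact h1 a List.mem_cons_self

theorem QInv.head2 {N L : ℕ} {s : SS} (h : QInv N L s) (hN : 2 ≤ N) :
    s.1.tail.headD 0 < s.2.1 := by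
  have h0 := h.n0
  have h1 := h.st
  obtain ⟨S, n, cs⟩ := s
  cases S with
  | nil => simp only [List.tail_nil, List.headD_nil] at h0 ⊢; omega
  | cons a S =>
    cases S with
    | nil => simp only [List.tail_cons, List.headD_nil] at h0 ⊢; omega
    | cons b S => exact h1 b (List.mem_cons_of_mem _ List.mem_cons_self)

theorem QInv.step {N L : ℕ} {s : SS} (h : QInv N L s) (hN : 2 ≤ N) {t : ST}
    (ht : t.2 + 2 < N) : QInv N (L + 1) (qstep t s) := by
  have h0 := h.n0
  obtain ⟨b1, b2, b3, b4⟩ := qg_bounds t.1 t.2 (s.1.headD 0) (s.1.tail.headD 0) s.2.1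
    (by omega) (by omega) (h.head hN) (h.head2 hN)
  have hnb := h.nb
  have hsl := h.sl
  have hcl := h.cl
  refine ⟨?_, ?_, ?_, ?_, ?_, ?_⟩
  · show N ≤ s.2.1 + _
    omega
  · show s.2.1 + _ ≤ _
    omega
  · intro v hv
    rcases List.mem_cons.1 hv with rfl | hv
    · exact b1
    · have := h.st v (List.mem_of_mem_drop hv)
      show v < s.2.1 + _
      omega
  · show (_ :: _ : List ℕ).length ≤ _
    rw [List.length_cons, List.length_drop]
    omega
  · intro c hc
    rcases List.mem_append.1 hc with hc | hc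
    · exact b4 c hc
    · have := h.cs c hc
      refine ⟨this.1, ?_, ?_, ?_⟩
      · show c.2.1 < s.2.1 + _
        omega
      · show c.2.2.1 < s.2.1 + _
        omega
      · show c.2.2.2 < s.2.1 + _
        omega
  · show (_ ++ _ : List QC).length ≤ _
    rw [List.length_append]
    omega

/-- The initial state. -/
def qinit (N : ℕ) : SS := ([], N, [(0, 1, 1, 1)])

theorem QInv.init {N : ℕ} (hN : 2 ≤ N) : QInv N 0 (qinit N) := by
  refine ⟨le_refl _, ?_, ?_, ?_, ?_, ?_⟩
  · show N ≤ _
    omega
  · intro v hv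
    exact absurd hv (List.not_mem_nil)
  · exact le_refl _
  · intro c hc
    rw [List.mem_singleton.1 hc]
    show 0 ≤ 1 ∧ 1 < N ∧ 1 < N ∧ 1 < N
    omega
  · show 1 ≤ _
    omega

theorem QInv.foldr {N : ℕ} (hN : 2 ≤ N) (l : List ST) (hl : ∀ t ∈ l, t.2 + 2 < N) :
    QInv N l.length (l.foldr qstep (qinit N)) := by
  induction l with
  | nil => exact QInv.init hN
  | cons t l ih =>
    rw [List.foldr_cons, List.length_cons]
    exact (ih (fun u hu => hl u (List.mem_cons_of_mem _ hu))).step hN
      (hl t List.mem_cons_self)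

/-! ### Soundness and completeness of the machine -/

theorem qsound {ξ : ℕ → ℝ} (h0 : ξ 0 = 1) (N : ℕ) (l : List ST)
    (h : ∀ c ∈ (l.foldr qstep (qinit N)).2.2, QHolds ξ c) :
    ξ 1 = 0 ∧ (l.foldr qstep (qinit N)).1.map ξ =
      l.foldr (estep (fun j => ξ (j + 2))) [] := by
  induction l with
  | nil =>
    refine ⟨?_, rfl⟩
    have := (h (0, 1, 1, 1) (List.mem_singleton.2 rfl)).1 rfl
    simpa using this
  | cons t l ih =>
    rw [List.foldr_cons] at h ⊢
    obtain ⟨h1, ih⟩ := ih (fun c hc => h c (List.mem_append.2 (Or.inr hc)))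
    refine ⟨h1, ?_⟩
    have hg := qg_sound h0 h1 t.1 t.2 _ _ _ (fun c hc => h c (List.mem_append.2 (Or.inl hc)))
    rw [List.foldr_cons, ← ih]
    show _ :: _ = _
    rw [hg, List.map_drop]
    unfold estep
    generalize (l.foldr qstep (qinit N)).1 = S
    have e1 : (S.map ξ).headD 1 = ξ (S.headD 0) := by
      cases S with
      | nil => exact h0.symm
      | cons a S => rfl
    have e2 : (S.map ξ).tail.headD 1 = ξ (S.tail.headD 0) := by
      cases S with
      | nil => exact h0.symm
      | cons a S =>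
        cases S with
        | nil => exact h0.symm
        | cons b S => rfl
    rw [e1, e2]

theorem QHolds.congr {ξ ξ' : ℕ → ℝ} {n : ℕ} (h : ∀ k < n, ξ' k = ξ k) {c : QC}
    (hc : c.2.1 < n ∧ c.2.2.1 < n ∧ c.2.2.2 < n) (hh : QHolds ξ c) : QHolds ξ' c := by
  unfold QHolds at hh ⊢
  rw [h _ hc.1, h _ hc.2.1, h _ hc.2.2]
  exact hh

theorem qcomplete (x : ℕ → ℝ) {N : ℕ} (hN : 2 ≤ N) (l : List ST)
    (hl : ∀ t ∈ l, t.2 + 2 < N) :
    ∃ ξ : ℕ → ℝ, ξ 0 = 1 ∧ (∀ i, i + 2 < N → ξ (i + 2) = x i) ∧
      ∀ c ∈ (l.foldr qstep (qinit N)).2.2, QHolds ξ c := by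
  induction l with
  | nil =>
    refine ⟨fun k => if k = 0 then 1 else if k = 1 then 0 else x (k - 2), by simp,
      fun i _ => by simp, ?_⟩
    intro c hc
    rw [List.mem_singleton.1 hc]
    simp [QHolds]
  | cons t l ih =>
    have hl' : ∀ u ∈ l, u.2 + 2 < N := fun u hu => hl u (List.mem_cons_of_mem _ hu)
    obtain ⟨ξ, h0, hx, hc⟩ := ih hl'
    have hI := QInv.foldr hN l hl'
    have h1 := (qsound h0 N l hc).1
    have hn := hI.n0
    obtain ⟨L, hL⟩ := qg_complete h0 h1 t.1 t.2 _ _ _ (by omega) (hI.head hN) (hI.head2 hN)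
    refine ⟨qext ξ (l.foldr qstep (qinit N)).2.1 L, ?_, ?_, ?_⟩
    · rw [qext_lt (by omega)]; exact h0
    · intro i hi
      rw [qext_lt (by omega)]
      exact hx i hi
    · intro c hcc
      rw [List.foldr_cons] at hcc
      rcases List.mem_append.1 hcc with hcc | hcc
      · exact hL c hcc
      · exact QHolds.congr (fun k hk => qext_lt hk) (hI.cs c hcc).2 (hc c hcc)

/-! ### Evaluation of formulas -/

theorem eval_congr {x y : ℕ → ℝ} (l : List ST) (h : ∀ t ∈ l, x t.2 = y t.2) (S : List ℝ) :
    l.foldr (estep x) S = l.foldr (estep y) S := by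
  induction l with
  | nil => rfl
  | cons t l ih =>
    rw [List.foldr_cons, List.foldr_cons,
      ih (fun u hu => h u (List.mem_cons_of_mem _ hu))]
    unfold estep qsem
    rw [h t List.mem_cons_self]

theorem estep_def (x : ℕ → ℝ) (t i : ℕ) (S : List ℝ) :
    estep x (t, i) S = qsem x t i (S.headD 1) (S.tail.headD 1) :: S.drop (qar t) := rfl

theorem eval_bits (x : ℕ → ℝ) (z : ℕ) (S : List ℝ) :
    ((Nat.bits z).map (fun b => if b then ((11, 0) : ST) else (10, 0))).foldr (estep x)
      ((0 : ℝ) :: S) = (z : ℝ) :: S := by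
  induction z using Nat.binaryRec' with
  | zero => simp
  | bit b n h ih =>
    rw [Nat.bits_append_bit _ _ h, List.map_cons, List.foldr_cons, ih]
    cases b
    · simp [estep_def, qsem, qar, Nat.bit_val]
    · simp [estep_def, qsem, qar, Nat.bit_val]

theorem eval_poly (x : ℕ → ℝ) (p : Poly) (l : List ST) (S : List ℝ) :
    (p.toks.flatMap qexpand ++ l).foldr (estep x) S = p.eval x :: l.foldr (estep x) S := by
  induction p generalizing l with
  | var i =>
    simp [Poly.toks, qexpand, estep_def, qsem, qar, Poly.eval]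
  | int z =>
    have e : (Poly.int z).toks.flatMap qexpand =
        (if z < 0 then [((9, 0) : ST)] else []) ++
          ((Nat.bits z.natAbs).map (fun b => if b then ((11, 0) : ST) else (10, 0)) ++
            [(12, 0)]) := by
      simp [Poly.toks, qexpand, intBits]
    have e2 : estep x (12, 0) (l.foldr (estep x) S) = (0 : ℝ) :: l.foldr (estep x) S := by
      simp [estep_def, qsem, qar]
    rw [e, List.append_assoc, List.append_assoc, List.foldr_append, List.foldr_append,
      List.foldr_append, List.foldr_cons, List.foldr_nil, e2, eval_bits]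
    split_ifs with hz
    · have h1 : ((z.natAbs : ℕ) : ℝ) = -(z : ℝ) := by
        have h2 : ((z.natAbs : ℕ) : ℤ) = -z := by omega
        rw [← Int.cast_natCast, h2, Int.cast_neg]
      simp [estep_def, qsem, qar, Poly.eval, h1]
    · have h1 : ((z.natAbs : ℕ) : ℝ) = (z : ℝ) := by
        have h2 : ((z.natAbs : ℕ) : ℤ) = z := by omega
        rw [← Int.cast_natCast, h2]
      simp [Poly.eval, h1]
  | add p q ihp ihq =>
    rw [Poly.toks, List.flatMap_cons, List.flatMap_append, List.append_assoc,
      List.append_assoc, List.foldr_append, ihp, ihq]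
    simp [qexpand, estep_def, qsem, qar, Poly.eval]
  | mul p q ihp ihq =>
    rw [Poly.toks, List.flatMap_cons, List.flatMap_append, List.append_assoc,
      List.append_assoc, List.foldr_append, ihp, ihq]
    simp [qexpand, estep_def, qsem, qar, Poly.eval]

open Classical in
/-- The truth value. -/
noncomputable def tv (P : Prop) : ℝ := if P then 1 else 0

theorem tv_eq_one {P : Prop} : tv P = 1 ↔ P := by
  unfold tv
  split_ifs with h <;> simp [h]

theorem eval_formula (x : ℕ → ℝ) (φ : Formula) (l : List ST) (S : List ℝ) :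
    (φ.toks.flatMap qexpand ++ l).foldr (estep x) S =
      tv (φ.Holds x) :: l.foldr (estep x) S := by
  induction φ generalizing l with
  | eq p q =>
    rw [Formula.toks, List.flatMap_cons, List.flatMap_append, List.append_assoc,
      List.append_assoc, List.foldr_append, eval_poly, eval_poly]
    by_cases h : p.eval x = q.eval x <;>
      simp [qexpand, estep_def, qsem, qar, Formula.Holds, tv, h]
  | lt p q =>
    rw [Formula.toks, List.flatMap_cons, List.flatMap_append, List.append_assoc,
      List.append_assoc, List.foldr_append, eval_poly, eval_poly]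
    by_cases h : p.eval x < q.eval x <;>
      simp [qexpand, estep_def, qsem, qar, Formula.Holds, tv, h]
  | not φ ih =>
    rw [Formula.toks, List.flatMap_cons, List.append_assoc, List.foldr_append, ih]
    by_cases h : φ.Holds x <;> simp [qexpand, estep_def, qsem, qar, Formula.Holds, tv, h]
  | and φ ψ ihφ ihψ =>
    rw [Formula.toks, List.flatMap_cons, List.flatMap_append, List.append_assoc,
      List.append_assoc, List.foldr_append, ihφ, ihψ]
    by_cases h : φ.Holds x <;> by_cases h' : ψ.Holds x <;>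
      simp [qexpand, estep_def, qsem, qar, Formula.Holds, tv, h, h']
  | or φ ψ ihφ ihψ =>
    rw [Formula.toks, List.flatMap_cons, List.flatMap_append, List.append_assoc,
      List.append_assoc, List.foldr_append, ihφ, ihψ]
    by_cases h : φ.Holds x <;> by_cases h' : ψ.Holds x <;>
      simp [qexpand, estep_def, qsem, qar, Formula.Holds, tv, h, h']

/-! ### The translation -/

/-- Number of reserved variables. -/
def qN (toks : List Tok) : ℕ := (toks.map (fun t => t.2.length)).sum + 3

/-- The final state. -/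
def qrun (toks : List Tok) : SS := (toks.flatMap qexpand).foldr qstep (qinit (qN toks))

/-- The translation. -/
def quadOf (toks : List Tok) : QInst :=
  ((qrun toks).2.1, (1, (qrun toks).1.headD 0, 0, 0) :: (qrun toks).2.2)

theorem qexpand_index {toks : List Tok} {t : ST} (ht : t ∈ toks.flatMap qexpand) :
    t.2 + 2 < qN toks := by
  rw [List.mem_flatMap] at ht
  obtain ⟨u, hu, ht⟩ := ht
  have h1 : u.2.length ≤ (toks.map (fun t => t.2.length)).sum :=
    List.le_sum_of_mem (List.mem_map.2 ⟨u, hu, rfl⟩)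
  have h2 : t.2 ≤ u.2.length := by
    unfold qexpand at ht
    split_ifs at ht with e0 e1 e2
    · rw [List.mem_singleton.1 ht]
    · simp only [List.mem_append, List.mem_singleton, List.mem_map] at ht
      rcases ht with rfl | ⟨b, -, rfl⟩ | rfl
      · exact Nat.zero_le _
      · cases b <;> exact Nat.zero_le _
      · exact Nat.zero_le _
    · simp only [List.mem_append, List.mem_singleton, List.mem_map, List.not_mem_nil,
        false_or] at ht
      rcases ht with ⟨b, -, rfl⟩ | rfl
      · cases b <;> exact Nat.zero_le _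
      · exact Nat.zero_le _
    · rw [List.mem_singleton.1 ht]
      exact Nat.zero_le _
  unfold qN
  omega

theorem qN_pos (toks : List Tok) : 2 ≤ qN toks := by unfold qN; omega

theorem qrun_inv (toks : List Tok) :
    QInv (qN toks) (toks.flatMap qexpand).length (qrun toks) :=
  QInv.foldr (qN_pos toks) _ (fun _ ht => qexpand_index ht)

theorem quadOf_valid (toks : List Tok) : QValid (quadOf toks) := by
  have h := qrun_inv toks
  have h0 := h.n0
  have hN := qN_pos toks
  refine ⟨?_, ?_⟩
  · show 1 ≤ (qrun toks).2.1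
    omega
  · intro c hc
    rcases List.mem_cons.1 hc with rfl | hc
    · exact ⟨h.head hN, by show 0 < (qrun toks).2.1; omega, by
        show 0 < (qrun toks).2.1; omega⟩
    · exact (h.cs c hc).2

theorem quadOf_correct (φ : Formula) :
    (∃ x : ℕ → ℝ, φ.Holds x) ↔ QuadSol (quadOf φ.toks) := by
  have hev : ∀ x : ℕ → ℝ, (φ.toks.flatMap qexpand).foldr (estep x) [] = [tv (φ.Holds x)] := by
    intro x
    have := eval_formula x φ [] []
    rwa [List.append_nil] at this
  constructor
  · rintro ⟨x, hx⟩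
    obtain ⟨ξ, h0, hξ, hc⟩ := qcomplete x (qN_pos φ.toks) (φ.toks.flatMap qexpand)
      (fun _ ht => qexpand_index ht)
    refine ⟨ξ, h0, ?_⟩
    intro c hcm
    rcases List.mem_cons.1 hcm with rfl | hcm
    · have h1 := (qsound h0 _ _ hc).2
      rw [eval_congr (y := x) _ (fun t ht => hξ t.2 (qexpand_index ht)), hev,
        tv_eq_one.2 hx] at h1
      have h2 : ξ ((qrun φ.toks).1.headD 0) = 1 := by
        change (qrun φ.toks).1.map ξ = [1] at h1
        generalize (qrun φ.toks).1 = S at h1
        cases S with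
        | nil => simp at h1
        | cons a S =>
          rw [List.map_cons] at h1
          exact (List.cons.inj h1).1
      refine ⟨fun h => absurd h one_ne_zero, fun _ => ?_⟩
      show ξ ((qrun φ.toks).1.headD 0) * ξ 0 = ξ 0
      rw [h2, one_mul]
    · exact hc c hcm
  · rintro ⟨ξ, h0, hc⟩
    refine ⟨fun i => ξ (i + 2), ?_⟩
    have h1 := (qsound h0 (qN φ.toks) (φ.toks.flatMap qexpand)
      (fun c hcm => hc c (List.mem_cons_of_mem _ hcm))).2
    rw [hev] at h1
    have h2 := (hc _ List.mem_cons_self).2 one_ne_zero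
    change ξ ((qrun φ.toks).1.headD 0) * ξ 0 = ξ 0 at h2
    rw [h0, mul_one] at h2
    apply tv_eq_one.1
    change (qrun φ.toks).1.map ξ = _ at h1
    generalize (qrun φ.toks).1 = S at h1 h2
    cases S with
    | nil => simp at h1
    | cons a S =>
      rw [List.map_cons] at h1
      rw [← (List.cons.inj h1).1]
      exact h2

/-! ### Polynomial time -/

theorem ptf_qexpand : PTF qexpand := by
  unfold qexpand
  fun_prop

theorem ptf_qg {α : Type} [Enc α] {t i a b n : α → ℕ} (ht : PTF t) (hi : PTF i) (ha : PTF a)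
    (hb : PTF b) (hn : PTF n) : PTF (fun p => qg (t p) (i p) (a p) (b p) (n p)) := by
  unfold qg
  fun_prop

theorem ptf_qar : PTF qar := by
  unfold qar
  fun_prop

theorem ptf_qstep : PTF (fun p : ST × SS => qstep p.1 p.2) := by
  have h1 : PTF (fun p : ST × SS => qg p.1.1 p.1.2 (p.2.1.headD 0) (p.2.1.tail.headD 0)
      p.2.2.1) := ptf_qg (by fun_prop) (by fun_prop) (by fun_prop) (by fun_prop) (by fun_prop)
  have h2 : PTF (fun p : ST × SS => qar p.1.1) := ptf_qar.comp (by fun_prop)
  have h3 : PTF (fun p : ST × SS => p.2.1.drop (qar p.1.1)) :=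
    PTF.drop (by fun_prop) h2
  have h4 : PTF (fun p : ST × SS => p.2.2.1) := by fun_prop
  have h5 : PTF (fun p : ST × SS => p.2.2.2) := by fun_prop
  exact (h1.fst'.cons h3).pair ((h4.add h1.snd'.fst').pair (h1.snd'.snd'.snd'.append h5))

theorem ptf_qN : PTF qN := by
  unfold qN
  fun_prop

theorem sz_list_le {α : Type} [Enc α] (l : List α) (B : ℕ) (h : ∀ a ∈ l, sz a ≤ B) :
    sz l ≤ l.length * (B + 1) + 1 := by
  induction l with
  | nil => rw [sz_nil]; omega
  | cons a l ih =>
    rw [sz_cons, List.length_cons, Nat.succ_mul]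
    have h1 := h a List.mem_cons_self
    have h2 := ih (fun b hb => h b (List.mem_cons_of_mem _ hb))
    omega

/-- Bound of the size of a state. -/
def qSB (N L : ℕ) : ℕ :=
  (L * (2 * (N + 8 * L) + 1 + 1) + 1) + ((2 * (N + 8 * L) + 1) +
    ((8 * L + 1) * (3 * (2 * (N + 8 * L) + 1) + 6 + 1) + 1) + 1) + 1

theorem QInv.size {N L : ℕ} {s : SS} (h : QInv N L s) : sz s ≤ qSB N L := by
  have hnb := h.nb
  have hv : ∀ v, v < s.2.1 → sz v ≤ 2 * (N + 8 * L) + 1 := by
    intro v hv
    rw [sz_nat]
    omega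
  have h1 : sz s.1 ≤ L * (2 * (N + 8 * L) + 1 + 1) + 1 := by
    refine (sz_list_le s.1 (2 * (N + 8 * L) + 1) (fun v hv' => hv v (h.st v hv'))).trans ?_
    have := Nat.mul_le_mul_right (2 * (N + 8 * L) + 1 + 1) h.sl
    omega
  have h2 : sz s.2.1 ≤ 2 * (N + 8 * L) + 1 := by
    rw [sz_nat]
    omega
  have h3 : sz s.2.2 ≤ (8 * L + 1) * (3 * (2 * (N + 8 * L) + 1) + 6 + 1) + 1 := by
    refine (sz_list_le s.2.2 (3 * (2 * (N + 8 * L) + 1) + 6) (fun c hc => ?_)).trans ?_
    · obtain ⟨c0, c1, c2, c3⟩ := h.cs c hc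
      obtain ⟨t, i, j, k⟩ := c
      rw [sz_pair, sz_pair, sz_pair]
      have e0 : sz t ≤ 3 := by
        rw [sz_nat]
        have : t ≤ 1 := c0
        omega
      have e1 := hv i c1
      have e2 := hv j c2
      have e3 := hv k c3
      omega
    · have := Nat.mul_le_mul_right (3 * (2 * (N + 8 * L) + 1) + 6 + 1) h.cl
      omega
  obtain ⟨S, n, cs⟩ := s
  rw [sz_pair, sz_pair]
  unfold qSB
  change sz S ≤ _ at h1
  change sz n ≤ _ at h2
  change sz cs ≤ _ at h3
  omega

theorem ptf_qrun : PTF qrun := by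
  have hl : PTF (fun toks : List Tok => (toks.flatMap qexpand).reverse) :=
    PTF.reverse (PTF.flatMap' (ptf_qexpand.comp PTF.snd) PTF.id)
  have hinit : PTF (fun toks : List Tok => qinit (qN toks)) :=
    PTF.pair (PTF.const []) (PTF.pair ptf_qN (PTF.const [(0, 1, 1, 1)]))
  have hN : PB (fun toks : List Tok => qN toks) :=
    ptf_qN.size.mono (fun a => by rw [sz_nat]; omega)
  have hL : PB (fun toks : List Tok => (toks.flatMap qexpand).reverse.length) :=
    hl.length.size.mono (fun a => by rw [sz_nat]; omega)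
  have hB : PB (fun toks : List Tok =>
      2 * (qN toks + 8 * (toks.flatMap qexpand).reverse.length) + 1) :=
    ((PB.const 2).mul (hN.add ((PB.const 8).mul hL))).add (PB.const 1)
  have hS : PB (fun toks : List Tok =>
      qSB (qN toks) (toks.flatMap qexpand).reverse.length) :=
    ((((hL.mul (hB.add (PB.const 1))).add (PB.const 1)).add
      ((hB.add (((((PB.const 8).mul hL).add (PB.const 1)).mul
        ((((PB.const 3).mul hB).add (PB.const 6)).add (PB.const 1))).add
          (PB.const 1))).add (PB.const 1))).add (PB.const 1))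
  have h := PTF.foldl (l := fun toks : List Tok => (toks.flatMap qexpand).reverse)
    (init := fun toks : List Tok => qinit (qN toks))
    (step := fun p : List Tok × (SS × ST) => qstep p.2.2 p.2.1) hl hinit
    (ptf_qstep.comp (PTF.snd.snd'.pair PTF.snd.fst')) _ hS (fun a l1 l2 hh => by
      have h1 : l1.foldl (fun s b => qstep b s) (qinit (qN a)) =
          l1.reverse.foldr qstep (qinit (qN a)) := (List.foldr_reverse).symm
      show sz (l1.foldl (fun s b => qstep b s) (qinit (qN a))) ≤ _
      rw [h1]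
      have h2 : ∀ t ∈ l1.reverse, t.2 + 2 < qN a := by
        intro t ht
        refine qexpand_index (toks := a) ?_
        rw [← List.mem_reverse, hh]
        exact List.mem_append.2 (Or.inl (List.mem_reverse.1 ht))
      have h3 := (QInv.foldr (qN_pos a) l1.reverse h2).size
      refine h3.trans ?_
      have h4 : l1.reverse.length ≤ (a.flatMap qexpand).reverse.length := by
        rw [hh, List.length_append, List.length_reverse]
        omega
      unfold qSB
      gcongr)
  refine h.congr (fun a => ?_)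
  show List.foldl (fun s b => qstep b s) (qinit (qN a)) (a.flatMap qexpand).reverse = _
  rw [List.foldl_reverse]
  rfl

theorem ptf_quadOf : PTF quadOf := by
  unfold quadOf
  have h := ptf_qrun
  fun_prop

theorem claimQuad : ClaimQuad :=
  ⟨quadOf, ptf_quadOf, fun φ => ⟨quadOf_valid φ.toks, quadOf_correct φ⟩⟩

end Pool.Agent.Work.MP_5b14b0_lc
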