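import Pool.Agent.Work.MP_5b14b0_lc.Stmts
import Pool.Agent.Work.PT.Auto

/-!
# The reduction is computable in polynomial time; combinatorial facts on the lists
-/

set_option autoImplicit false

namespace Pool.Agent.Work.MP_5b14b0_lc

open Pool.Agent.PT

section PtfPart

variable {α : Type} [Enc α]

theorem ptf_mem_dec {β : Type} [Enc β] [DecidableEq β] {f : α → β} {l : α → List β}
    (hf : PTF f) (hl : PTF l) {inst : ∀ a, Decidable (f a ∈ l a)} :
    PTF (fun a => @decide (f a ∈ l a) (inst a)) :=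
  (PTF.mem hf hl).congr (fun a => by congr)

theorem ptf_idxOf_beq {β : Type} [Enc β] [DecidableEq β] [ib : BEq β] [LawfulBEq β]
    {f : α → β} {l : α → List β} (hf : PTF f) (hl : PTF l) :
    PTF (fun a => (l a).idxOf (f a)) := by
  have h := PTF.idxOf hf hl
  have e : (instBEqOfDecidableEq : BEq β) = ib := lawful_beq_subsingleton _ _
  rw [e] at h
  exact h

@[fun_prop]
theorem ptf_gL {k j : α → ℕ} (hk : PTF k) (hj : PTF j) : PTF (fun a => gL (k a) (j a)) := by
  unfold gL; fun_prop

@[fun_prop]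
theorem ptf_aL {k : α → ℕ} (hk : PTF k) : PTF (fun a => aL (k a)) := by
  unfold aL; fun_prop

@[fun_prop]
theorem ptf_pol {k l j : α → ℕ} (hk : PTF k) (hl : PTF l) (hj : PTF j) :
    PTF (fun a => pol (k a) (l a) (j a)) := by
  unfold pol; fun_prop

@[fun_prop]
theorem ptf_ap {k l : α → ℕ} (hk : PTF k) (hl : PTF l) : PTF (fun a => ap (k a) (l a)) := by
  unfold ap; fun_prop

@[fun_prop]
theorem ptf_xL {k i s : α → ℕ} (hk : PTF k) (hi : PTF i) (hs : PTF s) :
    PTF (fun a => xL (k a) (i a) (s a)) := by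
  unfold xL; fun_prop

@[fun_prop]
theorem ptf_EdL {S : α → List ℕ} (hS : PTF S) : PTF (fun a => EdL (S a)) := by
  unfold EdL; fun_prop

@[fun_prop]
theorem ptf_del {n : α → ℕ} {h : α → List ℕ} (hn : PTF n) (hh : PTF h) :
    PTF (fun a => del (n a) (h a)) := by
  unfold del; fun_prop

@[fun_prop]
theorem ptf_Sl {n l : α → ℕ} {h : α → List ℕ} (hn : PTF n) (hh : PTF h) (hl : PTF l) :
    PTF (fun a => Sl (n a) (h a) (l a)) := by
  unfold Sl; fun_prop

@[fun_prop]
theorem ptf_delV {n l : α → ℕ} {h : α → List ℕ} (hn : PTF n) (hh : PTF h) (hl : PTF l) :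
    PTF (fun a => delV (n a) (h a) (l a)) := by
  unfold delV; fun_prop

@[fun_prop]
theorem ptf_fInit {n : α → ℕ} (hn : PTF n) : PTF (fun a => fInit (n a)) := by
  unfold fInit; fun_prop

@[fun_prop]
theorem ptf_fMain {n k : α → ℕ} (hn : PTF n) (hk : PTF k) : PTF (fun a => fMain (n a) (k a)) := by
  unfold fMain; fun_prop

theorem ptf_mapPol {k l : α → ℕ} {S : α → List ℕ} (hk : PTF k) (hl : PTF l) (hS : PTF S) :
    PTF (fun a => (S a).map (pol (k a) (l a))) :=
  PTF.map' (f := fun a j => pol (k a) (l a) j) (by fun_prop) hS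

@[fun_prop]
theorem ptf_fAd {n k l : α → ℕ} {h : α → List ℕ} (hn : PTF n) (hh : PTF h) (hk : PTF k)
    (hl : PTF l) : PTF (fun a => fAd (n a) (h a) (k a) (l a)) := by
  unfold fAd
  have hE : PTF (fun a => EdL (Sl (n a) (h a) (l a))) := by fun_prop
  have hv : PTF (fun a => delV (n a) (h a) (l a)) := by fun_prop
  have hS : PTF (fun a => Sl (n a) (h a) (l a + 1)) := by fun_prop
  refine PTF.append (by fun_prop) (PTF.cons (PTF.append (ptf_mapPol hk hl (by fun_prop))
    (ptf_mapPol hk (by fun_prop) hS)) (PTF.cons (PTF.append (by fun_prop)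
    (ptf_mapPol hk (by fun_prop) ?_)) (PTF.const [])))
  exact PTF.filter' (f := fun a (u : ℕ) =>
      decide ((u, delV (n a) (h a) (l a)) ∈ EdL (Sl (n a) (h a) (l a))) ||
        decide ((delV (n a) (h a) (l a), u) ∈ EdL (Sl (n a) (h a) (l a))))
    ((ptf_mem_dec (PTF.snd.pair (hv.comp PTF.fst)) (hE.comp PTF.fst)).or
      (ptf_mem_dec ((hv.comp PTF.fst).pair PTF.snd) (hE.comp PTF.fst))) hS

@[fun_prop]
theorem ptf_fLeafAt {q : α → ℕ → Lab} {w : α → Lab} {k : α → ℕ} (h0 : PTF fun a => q a 0)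
    (h1 : PTF fun a => q a 1) (h2 : PTF fun a => q a 2) (h3 : PTF fun a => q a 3)
    (h4 : PTF fun a => q a 4) (h5 : PTF fun a => q a 5) (hw : PTF w) (hk : PTF k) :
    PTF (fun a => fLeafAt (q a) (w a) (k a)) := by
  unfold fLeafAt
  fun_prop

@[fun_prop]
theorem ptf_fBranch {n k : α → ℕ} {h : α → List ℕ} (hn : PTF n) (hh : PTF h) (hk : PTF k) :
    PTF (fun a => fBranch (n a) (h a) (k a)) := by
  unfold fBranch
  refine PTF.append (by fun_prop) (ptf_fLeafAt ?_ ?_ ?_ ?_ ?_ ?_ ?_ hk) <;> fun_prop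

@[fun_prop]
theorem ptf_cpx {o : α → OInst} (ho : PTF o) : PTF (fun a => cpx (o a)) := by
  unfold cpx
  fun_prop

@[fun_prop]
theorem ptf_vBranch {n k : α → ℕ} {h : α → List ℕ} (hn : PTF n) (hh : PTF h) (hk : PTF k) :
    PTF (fun a => vBranch (n a) (h a) (k a)) := by
  unfold vBranch
  refine PTF.append (PTF.append (by fun_prop) (PTF.flatMap'
    (f := fun a j => ap (k a) (j + 1) :: (Sl (n a) (h a) (j + 1)).map (pol (k a) (j + 1)))
    (PTF.cons (by fun_prop) (ptf_mapPol (by fun_prop) (by fun_prop) (by fun_prop)))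
    (by fun_prop))) (by fun_prop)

@[fun_prop]
theorem ptf_labs {o : α → OInst} (ho : PTF o) : PTF (fun a => labs (o a)) := by
  unfold labs
  refine PTF.append (PTF.append (by fun_prop) (PTF.flatMap'
    (f := fun a (k : ℕ) => aL k :: (List.range (o a).1).map (gL k))
    (PTF.cons (by fun_prop) (PTF.map' (f := fun (p : α × ℕ) (j : ℕ) => gL p.2 j) (by fun_prop)
      (by fun_prop))) (by fun_prop))) (by fun_prop)

end PtfPart

/-- The reduction is computable in polynomial time. -/
theorem claimRedPtf : ClaimRedPtf := by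
  intro d
  unfold redO CombType.code instOf
  refine ptf_ser ?_
  dsimp only
  refine PTF.pair (by fun_prop) (PTF.append (PTF.map' (f := fun (o : OInst) (F : List Lab) =>
    F.map (fun l => (labs o).idxOf l) ++
      (List.range (d - 4)).map (fun i => (labs o).length + i)) ?_ (by fun_prop)) ?_)
  · refine PTF.append (PTF.map' (f := fun (p : OInst × List Lab) l => (labs p.1).idxOf l)
      (ptf_idxOf_beq PTF.snd (ptf_labs (PTF.fst.comp PTF.fst))) (by fun_prop)) (by fun_prop)
  · fun_prop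

/-! ### Facts on the lists -/

theorem hex_nodup {n : ℕ} {h : List ℕ} (hh : HexOK n h) : h.Nodup := by
  obtain ⟨_, ⟨r, hr⟩, _⟩ := hh
  have h1 : (h.rotate r).Nodup := hr.imp (fun h => h.ne)
  exact List.nodup_rotate.1 h1

theorem mem_del {n : ℕ} {h : List ℕ} {j : ℕ} : j ∈ del n h ↔ j < n ∧ j ∉ h := by
  unfold del
  simp

theorem nodup_del (n : ℕ) (h : List ℕ) : (del n h).Nodup := List.nodup_range.filter _

theorem length_del {n : ℕ} {h : List ℕ} (hh : HexOK n h) : (del n h).length = n - 6 := by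
  have h1 : (del n h).toFinset = Finset.range n \ h.toFinset := by
    ext j
    simp [mem_del]
  have h2 : h.toFinset ⊆ Finset.range n := by
    intro j hj
    rw [Finset.mem_range]
    exact hh.2.2 j (List.mem_toFinset.1 hj)
  have h3 : h.toFinset.card = 6 := by
    rw [List.toFinset_card_of_nodup (hex_nodup hh), hh.1]
  have h4 := List.toFinset_card_of_nodup (nodup_del n h)
  rw [h1, Finset.card_sdiff_of_subset h2, Finset.card_range, h3] at h4
  exact h4.symm

theorem mem_Sl {n : ℕ} {h : List ℕ} {l j : ℕ} :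
    j ∈ Sl n h l ↔ j < n ∧ j ∉ (del n h).take l := by
  unfold Sl
  simp

theorem nodup_Sl (n : ℕ) (h : List ℕ) (l : ℕ) : (Sl n h l).Nodup := List.nodup_range.filter _

theorem Sl_lt {n : ℕ} {h : List ℕ} {l j : ℕ} (hj : j ∈ Sl n h l) : j < n := (mem_Sl.1 hj).1

theorem delV_eq {n : ℕ} {h : List ℕ} (hh : HexOK n h) {l : ℕ} (hl : l < n - 6) :
    (del n h)[l]? = some (delV n h l) := by
  unfold delV
  rw [List.getD_eq_getElem?_getD]
  have h1 : l < (del n h).length := by rw [length_del hh]; exact hl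
  rw [List.getElem?_eq_getElem h1]
  rfl

theorem delV_mem_del {n : ℕ} {h : List ℕ} (hh : HexOK n h) {l : ℕ} (hl : l < n - 6) :
    delV n h l ∈ del n h := List.mem_of_getElem? (delV_eq hh hl)

theorem delV_not_mem {n : ℕ} {h : List ℕ} (hh : HexOK n h) {l : ℕ} (hl : l < n - 6) :
    delV n h l ∉ h := (mem_del.1 (delV_mem_del hh hl)).2

theorem take_succ_del {n : ℕ} {h : List ℕ} (hh : HexOK n h) {l : ℕ} (hl : l < n - 6) :
    (del n h).take (l + 1) = (del n h).take l ++ [delV n h l] := by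
  rw [List.take_add_one, delV_eq hh hl]
  rfl

theorem delV_mem_Sl {n : ℕ} {h : List ℕ} (hh : HexOK n h) {l : ℕ} (hl : l < n - 6) :
    delV n h l ∈ Sl n h l := by
  rw [mem_Sl]
  refine ⟨(mem_del.1 (delV_mem_del hh hl)).1, ?_⟩
  have h1 : ((del n h).take (l + 1)).Nodup := (List.take_sublist _ _).nodup (nodup_del n h)
  rw [take_succ_del hh hl, List.nodup_append] at h1
  intro h2
  exact h1.2.2 _ h2 _ (List.mem_singleton_self _) rfl

theorem mem_Sl_succ {n : ℕ} {h : List ℕ} (hh : HexOK n h) {l : ℕ} (hl : l < n - 6) {j : ℕ} :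
    j ∈ Sl n h (l + 1) ↔ j ∈ Sl n h l ∧ j ≠ delV n h l := by
  rw [mem_Sl, mem_Sl, take_succ_del hh hl, List.mem_append, List.mem_singleton, not_or, and_assoc]

theorem Sl_zero (n : ℕ) (h : List ℕ) : Sl n h 0 = List.range n := by
  unfold Sl
  simp

theorem mem_Sl_last {n : ℕ} {h : List ℕ} (hh : HexOK n h) {j : ℕ} :
    j ∈ Sl n h (n - 6) ↔ j ∈ h := by
  rw [mem_Sl, List.take_of_length_le (by rw [length_del hh]), mem_del]
  refine ⟨fun h1 => ?_, fun h1 => ⟨hh.2.2 j h1, fun h2 => h2.2 h1⟩⟩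
  by_contra h2
  exact h1.2 ⟨h1.1, h2⟩

theorem hex_sub_Sl {n : ℕ} {h : List ℕ} (hh : HexOK n h) (l : ℕ) {j : ℕ} (hj : j ∈ h) :
    j ∈ Sl n h l := by
  rw [mem_Sl]
  exact ⟨hh.2.2 j hj, fun h1 => (mem_del.1 (List.mem_of_mem_take h1)).2 hj⟩

theorem Sl_zero_toFinset (n : ℕ) (h : List ℕ) : (Sl n h 0).toFinset = Finset.range n := by
  ext j
  simp [Sl_zero]

theorem Sl_succ_toFinset {n : ℕ} {h : List ℕ} (hh : HexOK n h) {l : ℕ} (hl : l < n - 6) :
    (Sl n h (l + 1)).toFinset = (Sl n h l).toFinset.erase (delV n h l) := by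
  ext j
  rw [List.mem_toFinset, Finset.mem_erase, List.mem_toFinset, mem_Sl_succ hh hl, and_comm]

theorem Sl_last_toFinset {n : ℕ} {h : List ℕ} (hh : HexOK n h) :
    (Sl n h (n - 6)).toFinset = h.toFinset := by
  ext j
  rw [List.mem_toFinset, List.mem_toFinset, mem_Sl_last hh]

theorem hex_subset_Sl {n : ℕ} {h : List ℕ} (hh : HexOK n h) (l : ℕ) :
    h.toFinset ⊆ (Sl n h l).toFinset := by
  intro j hj
  rw [List.mem_toFinset] at hj ⊢
  exact hex_sub_Sl hh l hj

theorem delV_mem_Sl_toFinset {n : ℕ} {h : List ℕ} (hh : HexOK n h) {l : ℕ} (hl : l < n - 6) :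
    delV n h l ∈ (Sl n h l).toFinset := List.mem_toFinset.2 (delV_mem_Sl hh hl)

theorem mem_EdL {L : List ℕ} {p : ℕ × ℕ} : p ∈ EdL L ↔ p ∈ Ed L.toFinset := by
  unfold EdL Ed
  obtain ⟨a, b⟩ := p
  simp [List.pair_mem_product]

theorem EdL_mem {L : List ℕ} {p : ℕ × ℕ} (hp : p ∈ EdL L) : p.1 ∈ L ∧ p.2 ∈ L := by
  rw [mem_EdL] at hp
  unfold Ed at hp
  rw [Finset.mem_filter, Finset.mem_product, List.mem_toFinset, List.mem_toFinset] at hp
  exact hp.1

theorem hex_card {n : ℕ} {h : List ℕ} (hh : HexOK n h) : h.toFinset.card = 6 := by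
  rw [List.toFinset_card_of_nodup (hex_nodup hh), hh.1]

/-! ### The labels -/

theorem pol_succ (k l j : ℕ) : pol k (l + 1) j = (4, k, l + 1, j) := rfl
theorem ap_succ (k l : ℕ) : ap k (l + 1) = (5, k, l + 1, 0) := rfl
theorem ap_zero (k : ℕ) : ap k 0 = (3, k, 0, 0) := rfl

/-- The labels of the main polygon `k`. -/
theorem tag_main {n k : ℕ} {x : Lab} (hx : x ∈ aL k :: (List.range n).map (gL k)) :
    x.2.1 = k ∧ x.1 < 2 := by
  rcases List.mem_cons.1 hx with rfl | hx
  · exact ⟨rfl, Nat.one_lt_two⟩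
  · obtain ⟨j, _, rfl⟩ := List.mem_map.1 hx
    exact ⟨rfl, Nat.zero_lt_two⟩

theorem mem_vBranch {n k : ℕ} {h : List ℕ} {x : Lab} : x ∈ vBranch n h k ↔
    x = ap k 0 ∨ (∃ l < n - 6, x = ap k (l + 1) ∨ ∃ j ∈ Sl n h (l + 1), x = pol k (l + 1) j) ∨
      x = xL k 0 0 ∨ x = xL k 0 1 ∨ x = xL k 1 0 ∨ x = xL k 1 1 ∨ x = xL k 2 0 ∨
        x = xL k 2 1 := by
  unfold vBranch
  simp only [List.mem_append, List.mem_flatMap, List.mem_range,
    List.mem_cons, List.mem_map, List.not_mem_nil, or_false, or_assoc, eq_comm (a := x)]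

theorem tag_branch {n k : ℕ} {h : List ℕ} {x : Lab} (hx : x ∈ vBranch n h k) :
    x.2.1 = k ∧ 3 ≤ x.1 := by
  rw [mem_vBranch] at hx
  rcases hx with rfl | ⟨l, _, rfl | ⟨j, _, rfl⟩⟩ | rfl | rfl | rfl | rfl | rfl | rfl <;>
    exact ⟨rfl, by first | decide | (simp [ap, pol, xL])⟩

theorem nodup_vBranch (n : ℕ) (h : List ℕ) (k : ℕ) : (vBranch n h k).Nodup := by
  have h1 : ((List.range (n - 6)).flatMap
      (fun l => ap k (l + 1) :: (Sl n h (l + 1)).map (pol k (l + 1)))).Nodup := by
    rw [List.nodup_flatMap]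
    refine ⟨fun l _ => ?_, ?_⟩
    · rw [List.nodup_cons]
      refine ⟨?_, (nodup_Sl n h (l + 1)).map ?_⟩
      · intro h2
        obtain ⟨j, _, h3⟩ := List.mem_map.1 h2
        simp [pol, ap] at h3
      · intro i j hij
        simpa [pol] using hij
    · refine List.nodup_range.pairwise_of_forall_ne ?_
      intro a _ b _ hab x hx hy
      have key : ∀ l, x ∈ ap k (l + 1) :: (Sl n h (l + 1)).map (pol k (l + 1)) →
          x.2.2.1 = l + 1 := by
        intro l hl
        rcases List.mem_cons.1 hl with rfl | hl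
        · rfl
        · obtain ⟨j, _, rfl⟩ := List.mem_map.1 hl
          rfl
      have h4 := key a hx
      have h5 := key b hy
      omega
  have h2 : [xL k 0 0, xL k 0 1, xL k 1 0, xL k 1 1, xL k 2 0, xL k 2 1].Nodup := by
    simp [xL]
  unfold vBranch
  rw [List.nodup_append, List.nodup_append]
  refine ⟨⟨List.nodup_singleton _, h1, ?_⟩, h2, ?_⟩
  · intro x hx y hy
    rw [List.mem_singleton] at hx
    subst hx
    obtain ⟨l, _, hl⟩ := List.mem_flatMap.1 hy
    rcases List.mem_cons.1 hl with rfl | hl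
    · simp [ap]
    · obtain ⟨j, _, rfl⟩ := List.mem_map.1 hl
      simp [ap, pol]
  · intro x hx y hy
    have h3 : y.1 = 6 := by
      simp only [List.mem_cons, List.not_mem_nil, or_false] at hy
      rcases hy with rfl | rfl | rfl | rfl | rfl | rfl <;> rfl
    have h4 : x.1 < 6 := by
      rcases List.mem_append.1 hx with hx | hx
      · rw [List.mem_singleton] at hx
        subst hx
        simp [ap]
      · obtain ⟨l, _, hl⟩ := List.mem_flatMap.1 hx
        rcases List.mem_cons.1 hl with rfl | hl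
        · simp [ap]
        · obtain ⟨j, _, rfl⟩ := List.mem_map.1 hl
          simp [pol]
    intro h5
    rw [h5] at h4
    omega

theorem nodup_labs (o : OInst) : (labs o).Nodup := by
  have h1 : ((List.range (o.2.length + 1)).flatMap
      (fun k => aL k :: (List.range o.1).map (gL k))).Nodup := by
    rw [List.nodup_flatMap]
    refine ⟨fun k _ => ?_, ?_⟩
    · rw [List.nodup_cons]
      refine ⟨?_, List.nodup_range.map ?_⟩
      · intro h2
        obtain ⟨j, _, h3⟩ := List.mem_map.1 h2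
        simp [gL, aL] at h3
      · intro i j hij
        simpa [gL] using hij
    · refine List.nodup_range.pairwise_of_forall_ne ?_
      intro a _ b _ hab x hx hy
      exact hab ((tag_main hx).1.symm.trans (tag_main hy).1)
  have h2 : ((List.range o.2.length).flatMap
      (fun k => vBranch o.1 (o.2.getD k []) k)).Nodup := by
    rw [List.nodup_flatMap]
    refine ⟨fun k _ => nodup_vBranch _ _ _, ?_⟩
    refine List.nodup_range.pairwise_of_forall_ne ?_
    intro a _ b _ hab x hx hy
    exact hab ((tag_branch hx).1.symm.trans (tag_branch hy).1)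
  unfold labs
  rw [List.nodup_append, List.nodup_append]
  refine ⟨⟨List.nodup_singleton _, h1, ?_⟩, h2, ?_⟩
  · intro x hx y hy
    rw [List.mem_singleton] at hx
    subst hx
    obtain ⟨k, _, hk⟩ := List.mem_flatMap.1 hy
    have h3 := (tag_main hk).2
    intro h4
    rw [← h4] at h3
    exact absurd h3 (by decide)
  · intro x hx y hy
    obtain ⟨k, _, hk⟩ := List.mem_flatMap.1 hy
    have h3 := (tag_branch hk).2
    have h4 : x.1 < 3 := by
      rcases List.mem_append.1 hx with hx | hx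
      · rw [List.mem_singleton] at hx
        subst hx
        decide
      · obtain ⟨k', _, hk'⟩ := List.mem_flatMap.1 hx
        have := (tag_main hk').2
        omega
    intro h5
    rw [h5] at h4
    omega

theorem cL_mem (o : OInst) : cL ∈ labs o := by
  unfold labs
  simp

theorem aL_mem {o : OInst} {k : ℕ} (hk : k ≤ o.2.length) : aL k ∈ labs o := by
  unfold labs
  refine List.mem_append_left _ (List.mem_append_right _ (List.mem_flatMap.2 ⟨k, ?_, ?_⟩))
  · exact List.mem_range.2 (by omega)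
  · exact List.mem_cons_self

theorem gL_mem {o : OInst} {k j : ℕ} (hk : k ≤ o.2.length) (hj : j < o.1) :
    gL k j ∈ labs o := by
  unfold labs
  refine List.mem_append_left _ (List.mem_append_right _ (List.mem_flatMap.2 ⟨k, ?_, ?_⟩))
  · exact List.mem_range.2 (by omega)
  · exact List.mem_cons_of_mem _ (List.mem_map.2 ⟨j, List.mem_range.2 hj, rfl⟩)

theorem branch_mem {o : OInst} {k : ℕ} {x : Lab} (hk : k < o.2.length)
    (hx : x ∈ vBranch o.1 (o.2.getD k []) k) : x ∈ labs o := by
  unfold labs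
  exact List.mem_append_right _ (List.mem_flatMap.2 ⟨k, List.mem_range.2 hk, hx⟩)

theorem ap_mem_vBranch {n : ℕ} {h : List ℕ} {k l : ℕ} (hl : l ≤ n - 6) :
    ap k l ∈ vBranch n h k := by
  rw [mem_vBranch]
  rcases Nat.eq_zero_or_pos l with rfl | hl'
  · exact Or.inl rfl
  · obtain ⟨l, rfl⟩ := Nat.exists_eq_succ_of_ne_zero hl'.ne'
    exact Or.inr (Or.inl ⟨l, hl, Or.inl rfl⟩)

theorem xL_mem_vBranch {n : ℕ} {h : List ℕ} {k i s : ℕ} (hi : i < 3) (hs : s < 2) :
    xL k i s ∈ vBranch n h k := by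
  rw [mem_vBranch]
  interval_cases i <;> interval_cases s <;> simp

/-- The vertices of branch `k` and of its main polygon are present. -/
theorem pol_mem {o : OInst} {k l j : ℕ} (hk : k < o.2.length) (hl : l ≤ o.1 - 6)
    (hj : j ∈ Sl o.1 (o.2.getD k []) l) : pol k l j ∈ labs o := by
  rcases Nat.eq_zero_or_pos l with rfl | hl'
  · exact gL_mem hk.le (Sl_lt hj)
  · obtain ⟨l, rfl⟩ := Nat.exists_eq_succ_of_ne_zero hl'.ne'
    refine branch_mem hk ?_
    rw [mem_vBranch]
    exact Or.inr (Or.inl ⟨l, hl, Or.inr ⟨j, hj, rfl⟩⟩)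

theorem ap_mem {o : OInst} {k l : ℕ} (hk : k < o.2.length) (hl : l ≤ o.1 - 6) :
    ap k l ∈ labs o := branch_mem hk (ap_mem_vBranch hl)

theorem xL_mem {o : OInst} {k i s : ℕ} (hk : k < o.2.length) (hi : i < 3) (hs : s < 2) :
    xL k i s ∈ labs o := branch_mem hk (xL_mem_vBranch hi hs)

/-! ### All facets consist of labels -/

theorem fInit_sub {o : OInst} : ∀ F ∈ fInit o.1, F ⊆ labs o := by
  intro F hF x hx
  unfold fInit at hF
  rcases List.mem_cons.1 hF with rfl | hF
  · rcases List.mem_append.1 hx with hx | hx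
    · obtain ⟨j, hj, rfl⟩ := List.mem_map.1 hx
      exact gL_mem (Nat.zero_le _) (List.mem_range.1 hj)
    · rw [List.mem_singleton] at hx
      rw [hx]
      exact cL_mem o
  · obtain ⟨e, he, rfl⟩ := List.mem_map.1 hF
    have h1 := EdL_mem he
    rw [List.mem_range, List.mem_range] at h1
    simp only [List.mem_cons, List.not_mem_nil, or_false] at hx
    rcases hx with rfl | rfl | rfl | rfl
    · exact aL_mem (Nat.zero_le _)
    · exact cL_mem o
    · exact gL_mem (Nat.zero_le _) h1.1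
    · exact gL_mem (Nat.zero_le _) h1.2

theorem fMain_sub {o : OInst} {k : ℕ} (hk : k < o.2.length) :
    ∀ F ∈ fMain o.1 k, F ⊆ labs o := by
  intro F hF x hx
  have hk1 : k ≤ o.2.length := hk.le
  have hk2 : k + 1 ≤ o.2.length := hk
  unfold fMain at hF
  rcases List.mem_append.1 hF with hF | hF
  · rcases List.mem_append.1 hF with hF | hF
    · obtain ⟨e, he, rfl⟩ := List.mem_map.1 hF
      have h1 := EdL_mem he
      rw [List.mem_range, List.mem_range] at h1
      simp only [List.mem_cons, List.not_mem_nil, or_false] at hx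
      rcases hx with rfl | rfl | rfl | rfl | rfl | rfl
      · exact aL_mem hk1
      · exact gL_mem hk1 h1.1
      · exact gL_mem hk1 h1.2
      · exact aL_mem hk2
      · exact gL_mem hk2 h1.1
      · exact gL_mem hk2 h1.2
    · obtain ⟨e, he, rfl⟩ := List.mem_map.1 hF
      have h1 := EdL_mem he
      rw [List.mem_range, List.mem_range] at h1
      simp only [List.mem_cons, List.not_mem_nil, or_false] at hx
      rcases hx with rfl | rfl | rfl | rfl | rfl
      · exact ap_mem hk (Nat.zero_le _)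
      · exact gL_mem hk1 h1.1
      · exact gL_mem hk1 h1.2
      · exact gL_mem hk2 h1.1
      · exact gL_mem hk2 h1.2
  · rw [List.mem_singleton] at hF
    subst hF
    rcases List.mem_append.1 hx with hx | hx
    · obtain ⟨j, hj, rfl⟩ := List.mem_map.1 hx
      exact gL_mem hk2 (List.mem_range.1 hj)
    · rw [List.mem_singleton] at hx
      rw [hx]
      exact ap_mem hk (Nat.zero_le _)

theorem fAd_sub {o : OInst} {k l : ℕ} (hk : k < o.2.length) (hh : HexOK o.1 (o.2.getD k []))
    (hl : l < o.1 - 6) : ∀ F ∈ fAd o.1 (o.2.getD k []) k l, F ⊆ labs o := by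
  intro F hF x hx
  have hl1 : l ≤ o.1 - 6 := hl.le
  have hl2 : l + 1 ≤ o.1 - 6 := hl
  unfold fAd at hF
  rcases List.mem_append.1 hF with hF | hF
  · obtain ⟨e, he, rfl⟩ := List.mem_map.1 hF
    have h1 := EdL_mem he
    rw [List.mem_filter] at hx
    obtain ⟨hx, hne⟩ := hx
    rw [decide_eq_true_eq] at hne
    simp only [List.mem_cons, List.not_mem_nil, or_false] at hx
    rcases hx with rfl | rfl | rfl | rfl | rfl | rfl
    · exact ap_mem hk hl1
    · exact pol_mem hk hl1 h1.1
    · exact pol_mem hk hl1 h1.2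
    · exact ap_mem hk hl2
    · exact pol_mem hk hl2 ((mem_Sl_succ hh hl).2 ⟨h1.1, fun h => hne (by rw [h])⟩)
    · exact pol_mem hk hl2 ((mem_Sl_succ hh hl).2 ⟨h1.2, fun h => hne (by rw [h])⟩)
  · simp only [List.mem_cons, List.not_mem_nil, or_false] at hF
    rcases hF with rfl | rfl
    · rcases List.mem_append.1 hx with hx | hx
      · obtain ⟨j, hj, rfl⟩ := List.mem_map.1 hx
        exact pol_mem hk hl1 hj
      · obtain ⟨j, hj, rfl⟩ := List.mem_map.1 hx
        exact pol_mem hk hl2 hj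
    · rcases List.mem_append.1 hx with hx | hx
      · simp only [List.mem_cons, List.not_mem_nil, or_false] at hx
        rcases hx with rfl | rfl
        · exact pol_mem hk hl1 (delV_mem_Sl hh hl)
        · exact ap_mem hk hl2
      · obtain ⟨j, hj, rfl⟩ := List.mem_map.1 hx
        exact pol_mem hk hl2 (List.mem_of_mem_filter hj)

theorem hex_getD_mem {n : ℕ} {h : List ℕ} (hh : HexOK n h) {i : ℕ} (hi : i < 6) :
    h.getD i 0 ∈ h := by
  have h1 : i < h.length := by rw [hh.1]; exact hi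
  rw [List.getD_eq_getElem _ _ h1]
  exact List.getElem_mem h1

theorem fLeafAt_sub {V : List Lab} {q : ℕ → Lab} {w : Lab} {k : ℕ}
    (hq : ∀ i, i < 6 → q i ∈ V) (hw : w ∈ V) (hx : ∀ i s, i < 3 → s < 2 → xL k i s ∈ V) :
    ∀ F ∈ fLeafAt q w k, F ⊆ V := by
  have q0 := hq 0 (by norm_num)
  have q1 := hq 1 (by norm_num)
  have q2 := hq 2 (by norm_num)
  have q3 := hq 3 (by norm_num)
  have q4 := hq 4 (by norm_num)
  have q5 := hq 5 (by norm_num)
  have x00 := hx 0 0 (by norm_num) (by norm_num)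
  have x01 := hx 0 1 (by norm_num) (by norm_num)
  have x10 := hx 1 0 (by norm_num) (by norm_num)
  have x11 := hx 1 1 (by norm_num) (by norm_num)
  have x20 := hx 2 0 (by norm_num) (by norm_num)
  have x21 := hx 2 1 (by norm_num) (by norm_num)
  intro F hF
  unfold fLeafAt at hF
  simp only [List.mem_cons, List.not_mem_nil, or_false] at hF
  rcases hF with rfl | rfl | rfl | rfl | rfl | rfl | rfl | rfl | rfl | rfl | rfl | rfl | rfl |
    rfl | rfl <;>
    simp only [List.cons_subset, List.nil_subset, q0, q1, q2, q3, q4, q5, x00, x01, x10, x11,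
      x20, x21, hw, and_self]

theorem fBranch_sub {o : OInst} {k : ℕ} (hk : k < o.2.length)
    (hh : HexOK o.1 (o.2.getD k [])) :
    ∀ F ∈ fBranch o.1 (o.2.getD k []) k, F ⊆ labs o := by
  intro F hF
  unfold fBranch at hF
  rcases List.mem_append.1 hF with hF | hF
  · obtain ⟨l, hl, hF⟩ := List.mem_flatMap.1 hF
    exact fAd_sub hk hh (List.mem_range.1 hl) F hF
  · refine fLeafAt_sub (fun i hi => ?_) (ap_mem hk le_rfl) (fun i s hi hs => xL_mem hk hi hs) F hF
    exact pol_mem hk le_rfl ((mem_Sl_last hh).2 (hex_getD_mem hh hi))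

/-- Easy facts on the lists. -/
theorem claimLists : ClaimLists := by
  intro o ho
  refine ⟨nodup_labs o, ?_⟩
  intro F hF
  unfold cpx at hF
  rcases List.mem_append.1 hF with hF | hF
  · rcases List.mem_append.1 hF with hF | hF
    · exact fInit_sub F hF
    · obtain ⟨k, hk, hF⟩ := List.mem_flatMap.1 hF
      rw [List.mem_range] at hk
      have hh : HexOK o.1 (o.2.getD k []) := by
        apply ho.2
        rw [List.getD_eq_getElem _ _ hk]
        exact List.getElem_mem hk
      rcases List.mem_append.1 hF with hF | hF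
      · exact fMain_sub hk F hF
      · exact fBranch_sub hk hh F hF
  · rw [List.mem_singleton] at hF
    subst hF
    intro x hx
    rcases List.mem_append.1 hx with hx | hx
    · obtain ⟨j, hj, rfl⟩ := List.mem_map.1 hx
      exact gL_mem le_rfl (List.mem_range.1 hj)
    · rw [List.mem_singleton] at hx
      rw [hx]
      exact aL_mem le_rfl

end Pool.Agent.Work.MP_5b14b0_lc
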