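import Pool.Agent.Work.MP_5b14b0_lc.Stmts

/-!
# Soundness of the deletion gadget
-/

set_option autoImplicit false

namespace Pool.Agent.Work.MP_5b14b0_lc

open Finset

/-! ### Lorentz geometry -/

theorem sa_B_zero {x y : E} (hx : Light x) (hy : Light y) (h : B x y = 0) :
    y = (y 4 / x 4) • x := by
  obtain ⟨hx1, hx2⟩ := hx
  obtain ⟨hy1, hy2⟩ := hy
  unfold B at h hx1 hy1
  have key : (y 4 * x 0 - x 4 * y 0) ^ 2 + (y 4 * x 1 - x 4 * y 1) ^ 2 +
      (y 4 * x 2 - x 4 * y 2) ^ 2 + (y 4 * x 3 - x 4 * y 3) ^ 2 = 0 := by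
    have e1 : x 0 * x 0 + x 1 * x 1 + x 2 * x 2 + x 3 * x 3 = x 4 * x 4 := by linarith
    have e2 : y 0 * y 0 + y 1 * y 1 + y 2 * y 2 + y 3 * y 3 = y 4 * y 4 := by linarith
    have e3 : x 0 * y 0 + x 1 * y 1 + x 2 * y 2 + x 3 * y 3 = x 4 * y 4 := by linarith
    have : (y 4 * x 0 - x 4 * y 0) ^ 2 + (y 4 * x 1 - x 4 * y 1) ^ 2 +
      (y 4 * x 2 - x 4 * y 2) ^ 2 + (y 4 * x 3 - x 4 * y 3) ^ 2 =
      y 4 ^ 2 * (x 0 * x 0 + x 1 * x 1 + x 2 * x 2 + x 3 * x 3) +
      x 4 ^ 2 * (y 0 * y 0 + y 1 * y 1 + y 2 * y 2 + y 3 * y 3) -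
      2 * x 4 * y 4 * (x 0 * y 0 + x 1 * y 1 + x 2 * y 2 + x 3 * y 3) := by ring
    rw [this, e1, e2, e3]
    ring
  have s0 := sq_nonneg (y 4 * x 0 - x 4 * y 0)
  have s1 := sq_nonneg (y 4 * x 1 - x 4 * y 1)
  have s2 := sq_nonneg (y 4 * x 2 - x 4 * y 2)
  have s3 := sq_nonneg (y 4 * x 3 - x 4 * y 3)
  have h0 : y 4 * x 0 - x 4 * y 0 = 0 := pow_eq_zero_iff (two_ne_zero) |>.1 (by linarith)
  have h1 : y 4 * x 1 - x 4 * y 1 = 0 := pow_eq_zero_iff (two_ne_zero) |>.1 (by linarith)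
  have h2 : y 4 * x 2 - x 4 * y 2 = 0 := pow_eq_zero_iff (two_ne_zero) |>.1 (by linarith)
  have h3 : y 4 * x 3 - x 4 * y 3 = 0 := pow_eq_zero_iff (two_ne_zero) |>.1 (by linarith)
  have hx4 : x 4 ≠ 0 := hx2.ne'
  have f0 : y 0 = y 4 / x 4 * x 0 := by field_simp; linarith
  have f1 : y 1 = y 4 / x 4 * x 1 := by field_simp; linarith
  have f2 : y 2 = y 4 / x 4 * x 2 := by field_simp; linarith
  have f3 : y 3 = y 4 / x 4 * x 3 := by field_simp; linarith
  have f4 : y 4 = y 4 / x 4 * x 4 := by field_simp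
  funext i
  rw [Pi.smul_apply, smul_eq_mul]
  fin_cases i
  · exact f0
  · exact f1
  · exact f2
  · exact f3
  · exact f4

theorem sa_B_add (x y z : E) : B (x + y) z = B x z + B y z := by
  unfold B; simp only [Pi.add_apply]; ring

theorem sa_B_smul (c : ℝ) (x z : E) : B (c • x) z = c * B x z := by
  unfold B; simp only [Pi.smul_apply, smul_eq_mul]; ring

theorem sa_B_comm (x y : E) : B x y = B y x := by unfold B; ring

/-- Not proportional. -/
def SaNP (x y : E) : Prop := (∀ c : ℝ, y ≠ c • x) ∧ ∀ c : ℝ, x ≠ c • y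

theorem SaNP.symm {x y : E} (h : SaNP x y) : SaNP y x := ⟨h.2, h.1⟩

theorem sa_B_ne {x y : E} (hx : Light x) (hy : Light y) (h : SaNP x y) : B x y ≠ 0 := fun h0 =>
  h.1 _ (sa_B_zero hx hy h0)

theorem sa_indep2 {x y : E} (h : SaNP x y) {a b : ℝ} (hab : a • x + b • y = 0) : a = 0 ∧ b = 0 := by
  by_cases ha : a = 0
  · subst ha
    refine ⟨rfl, ?_⟩
    by_contra hb
    refine h.1 0 ?_
    rw [zero_smul, zero_add] at hab
    rw [zero_smul]
    exact (smul_eq_zero.1 hab).resolve_left hb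
  · exfalso
    refine h.2 (-(b / a)) ?_
    have : a • x = -(b • y) := eq_neg_of_add_eq_zero_left hab
    calc x = a⁻¹ • (a • x) := by rw [smul_smul, inv_mul_cancel₀ ha, one_smul]
      _ = -(b / a) • y := by rw [this, smul_neg, smul_smul, neg_smul]; ring_nf

/-- Three light vectors which are pairwise not proportional are independent. -/
theorem sa_indep3 {x y z : E} (hx : Light x) (hy : Light y) (hz : Light z) (hxy : SaNP x y)
    (hxz : SaNP x z) (hyz : SaNP y z) {a b c : ℝ} (h : a • x + b • y + c • z = 0) :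
    a = 0 ∧ b = 0 ∧ c = 0 := by
  have b1 := sa_B_ne hx hy hxy
  have b2 := sa_B_ne hx hz hxz
  have b3 := sa_B_ne hy hz hyz
  have z0 : ∀ w : E, B (0 : E) w = 0 := fun w => by unfold B; simp
  have e : ∀ w : E, a * B x w + b * B y w + c * B z w = 0 := by
    intro w
    have h2 : B (a • x + b • y + c • z) w = 0 := by rw [h]; exact z0 w
    rw [sa_B_add, sa_B_add, sa_B_smul, sa_B_smul, sa_B_smul] at h2
    exact h2
  have e1 := e x
  have e2 := e y
  have e3 := e z
  rw [hx.1, sa_B_comm y x, sa_B_comm z x] at e1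
  rw [hy.1, sa_B_comm z y] at e2
  rw [hz.1] at e3
  set p := B x y
  set q := B x z
  set r := B y z
  have h1 : b * p = -(c * q) := by linarith
  have h2 : a * p = -(c * r) := by linarith
  have h3 : c * (q * r) = 0 := by
    have : a * q + b * r = 0 := by linarith
    have h4 : p * (a * q + b * r) = 0 := by rw [this, mul_zero]
    have h5 : p * (a * q + b * r) = -2 * (c * (q * r)) := by
      calc p * (a * q + b * r) = (a * p) * q + (b * p) * r := by ring
        _ = -2 * (c * (q * r)) := by rw [h1, h2]; ring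
    linarith
  have hc : c = 0 := (mul_eq_zero.1 h3).resolve_right (mul_ne_zero b2 b3)
  rw [hc, zero_mul, neg_zero] at h1 h2
  exact ⟨(mul_eq_zero.1 h2).resolve_right b1, (mul_eq_zero.1 h1).resolve_right b1, hc⟩

/-! ### The chain lemma -/

theorem sa_mem_span2 {x y z : E} : z ∈ Submodule.span ℝ ({x, y} : Set E) ↔
    ∃ a b : ℝ, a • x + b • y = z := Submodule.mem_span_pair

/-- Two lines in a plane meet. -/
theorem sa_meet {x y u v : E} (hxy : SaNP x y) (huv : SaNP u v)
    (h : Module.finrank ℝ (Submodule.span ℝ ({x, y, u, v} : Set E)) ≤ 3) :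
    ∃ Z : E, Z ≠ 0 ∧ (∃ a b : ℝ, Z = a • x + b • y) ∧ ∃ a b : ℝ, Z = a • u + b • v := by
  have h1 : ¬ LinearIndependent ℝ ![x, y, u, v] := by
    intro hl
    rw [linearIndependent_iff_card_eq_finrank_span] at hl
    have hr : Set.range ![x, y, u, v] = ({x, y, u, v} : Set E) := by
      ext w
      simp only [Set.mem_range, Set.mem_insert_iff, Set.mem_singleton_iff]
      constructor
      · rintro ⟨i, rfl⟩
        fin_cases i <;> simp
      · rintro (rfl | rfl | rfl | rfl)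
        · exact ⟨0, rfl⟩
        · exact ⟨1, rfl⟩
        · exact ⟨2, rfl⟩
        · exact ⟨3, rfl⟩
    rw [hr, Fintype.card_fin] at hl
    have : Set.finrank ℝ ({x, y, u, v} : Set E) =
      Module.finrank ℝ (Submodule.span ℝ ({x, y, u, v} : Set E)) := rfl
    omega
  rw [Fintype.not_linearIndependent_iff] at h1
  obtain ⟨g, hg, i, hi⟩ := h1
  rw [Fin.sum_univ_four] at hg
  simp only [Matrix.cons_val] at hg
  refine ⟨g 0 • x + g 1 • y, ?_, ⟨g 0, g 1, rfl⟩, -g 2, -g 3, ?_⟩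
  · intro h0
    obtain ⟨c0, c1⟩ := sa_indep2 hxy h0
    rw [h0, zero_add] at hg
    obtain ⟨c2, c3⟩ := sa_indep2 huv hg
    fin_cases i
    · exact hi c0
    · exact hi c1
    · exact hi c2
    · exact hi c3
  · have : g 0 • x + g 1 • y = -(g 2 • u + g 3 • v) := by
      rw [eq_neg_iff_add_eq_zero, ← hg]; abel
    rw [this, neg_smul, neg_smul, neg_add]

/-- The common point is the same for consecutive pairs. -/
theorem sa_same {a a' u u' v v' Z Z' : E} (hZ : Z ≠ 0) (hZ' : Z' ≠ 0)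
    (h1 : ∃ α β : ℝ, Z = α • a + β • a') (h2 : ∃ α β : ℝ, Z = α • u + β • u')
    (h3 : ∃ α β : ℝ, Z' = α • a + β • a') (h4 : ∃ α β : ℝ, Z' = α • v + β • v')
    (h5 : Module.finrank ℝ (Submodule.span ℝ ({u, v, u', v'} : Set E)) ≤ 3)
    (h6 : 4 ≤ Module.finrank ℝ (Submodule.span ℝ ({a, a', u, v, u', v'} : Set E))) :
    ∃ α β : ℝ, Z = α • v + β • v' := by
  obtain ⟨α, β, e1⟩ := h1
  obtain ⟨γ, δ, e3⟩ := h3
  have hdet : α * δ - β * γ = 0 := by
    by_contra hd
    have m1 : Z ∈ Submodule.span ℝ ({u, v, u', v'} : Set E) := by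
      obtain ⟨p, q, e⟩ := h2
      rw [e]
      exact add_mem (Submodule.smul_mem _ _ (Submodule.subset_span (by simp)))
        (Submodule.smul_mem _ _ (Submodule.subset_span (by simp)))
    have m2 : Z' ∈ Submodule.span ℝ ({u, v, u', v'} : Set E) := by
      obtain ⟨p, q, e⟩ := h4
      rw [e]
      exact add_mem (Submodule.smul_mem _ _ (Submodule.subset_span (by simp)))
        (Submodule.smul_mem _ _ (Submodule.subset_span (by simp)))
    have ea : a = (α * δ - β * γ)⁻¹ • (δ • Z - β • Z') := by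
      rw [e1, e3]
      have : δ • (α • a + β • a') - β • (γ • a + δ • a') = (α * δ - β * γ) • a := by module
      rw [this, smul_smul, inv_mul_cancel₀ hd, one_smul]
    have ea' : a' = (α * δ - β * γ)⁻¹ • (α • Z' - γ • Z) := by
      rw [e1, e3]
      have : α • (γ • a + δ • a') - γ • (α • a + β • a') = (α * δ - β * γ) • a' := by module
      rw [this, smul_smul, inv_mul_cancel₀ hd, one_smul]
    have ma : a ∈ Submodule.span ℝ ({u, v, u', v'} : Set E) := by
      rw [ea]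
      exact Submodule.smul_mem _ _ (sub_mem (Submodule.smul_mem _ _ m1)
        (Submodule.smul_mem _ _ m2))
    have ma' : a' ∈ Submodule.span ℝ ({u, v, u', v'} : Set E) := by
      rw [ea']
      exact Submodule.smul_mem _ _ (sub_mem (Submodule.smul_mem _ _ m2)
        (Submodule.smul_mem _ _ m1))
    have hle : Submodule.span ℝ ({a, a', u, v, u', v'} : Set E) ≤
        Submodule.span ℝ ({u, v, u', v'} : Set E) := by
      rw [Submodule.span_le]
      intro w hw
      rcases hw with rfl | rfl | hw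
      · exact ma
      · exact ma'
      · exact Submodule.subset_span hw
    have := Submodule.finrank_mono hle
    omega
  have hcc : ∃ c : ℝ, Z = c • Z' := by
    by_cases hγ : γ = 0
    · have hδ : δ ≠ 0 := by
        intro h
        refine hZ' ?_
        rw [e3, hγ, h, zero_smul, zero_smul, add_zero]
      have hα : α = 0 := by
        rw [hγ, mul_zero, sub_zero] at hdet
        exact (mul_eq_zero.1 hdet).resolve_right hδ
      refine ⟨β / δ, ?_⟩
      rw [e1, e3, hγ, hα, zero_smul, zero_add, zero_add, smul_smul,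
        div_mul_cancel₀ _ hδ]
    · refine ⟨α / γ, ?_⟩
      have hb : β = α / γ * δ := by field_simp; linarith
      rw [e1, e3, smul_add, smul_smul, smul_smul, div_mul_cancel₀ _ hγ, ← hb]
  obtain ⟨c, hc⟩ := hcc
  obtain ⟨p, q, e4⟩ := h4
  refine ⟨c * p, c * q, ?_⟩
  rw [hc, e4, smul_add, smul_smul, smul_smul]

/-- The reflection in a point of the chord exchanges the end points. -/
theorem sa_refl {u u' Z : E} (hu : Light u) (hu' : Light u') (hn : SaNP u u') {x y : ℝ}
    (hx : x ≠ 0) (hy : y ≠ 0) (hZ : Z = x • u + y • u') :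
    B Z Z ≠ 0 ∧ refl Z u = (-(y / x)) • u' := by
  have hb := sa_B_ne hu hu' hn
  have e0 : B u Z = y * B u u' := by
    rw [sa_B_comm, hZ, sa_B_add, sa_B_smul, sa_B_smul, hu.1, sa_B_comm u' u]
    ring
  have e1 : B u' Z = x * B u u' := by
    rw [sa_B_comm, hZ, sa_B_add, sa_B_smul, sa_B_smul, hu'.1]
    ring
  have e2 : B Z Z = 2 * x * y * B u u' := by
    conv_lhs => rw [hZ]
    rw [sa_B_add, sa_B_smul, sa_B_smul, ← hZ, e0, e1]
    ring
  have e3 : B Z Z ≠ 0 := by
    rw [e2]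
    exact mul_ne_zero (mul_ne_zero (mul_ne_zero two_ne_zero hx) hy) hb
  refine ⟨e3, ?_⟩
  unfold refl
  rw [e0, e2]
  have e4 : 2 * (y * B u u') / (2 * x * y * B u u') = 1 / x := by
    field_simp
  rw [e4, hZ, smul_add, smul_smul, smul_smul, one_div, inv_mul_cancel₀ hx, one_smul]
  rw [neg_smul, div_eq_inv_mul]
  abel

/-- The chain lemma: `m ≥ 2` pairs. -/
theorem sa_chain (m : ℕ) (hm : 2 ≤ m) (a a' : E) (g g' : ℕ → E) (ha : Light a) (ha' : Light a')
    (haa : SaNP a a') (hg : ∀ j < m, Light (g j)) (hg' : ∀ j < m, Light (g' j))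
    (hgg : ∀ j < m, SaNP (g j) (g' j)) (h1 : ∀ j < m, SaNP a (g j) ∧ SaNP a (g' j))
    (h2 : ∀ j < m, SaNP a' (g j) ∧ SaNP a' (g' j))
    (h3 : ∀ j < m, Module.finrank ℝ (Submodule.span ℝ ({a, a', g j, g' j} : Set E)) ≤ 3)
    (h4 : ∀ j, j + 1 < m →
      Module.finrank ℝ (Submodule.span ℝ ({g j, g (j + 1), g' j, g' (j + 1)} : Set E)) ≤ 3)
    (h5 : ∀ j, j + 1 < m → 4 ≤ Module.finrank ℝ
      (Submodule.span ℝ ({a, a', g j, g (j + 1), g' j, g' (j + 1)} : Set E))) :
    ∃ Z : E, B Z Z ≠ 0 ∧ ∀ j < m, ∃ c : ℝ, c ≠ 0 ∧ refl Z (g j) = c • g' j := by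
  choose! W hW0 hW1 hW2 using fun j (hj : j < m) => sa_meet haa (hgg j hj) (h3 j hj)
  have key : ∀ j < m, ∃ α β : ℝ, W 0 = α • g j + β • g' j := by
    intro j
    induction j with
    | zero => intro hj; exact hW2 0 hj
    | succ j ih =>
      intro hj
      exact sa_same (hW0 0 (by omega)) (hW0 (j + 1) hj) (hW1 0 (by omega)) (ih (by omega))
        (hW1 (j + 1) hj) (hW2 (j + 1) hj) (h4 j hj) (h5 j hj)
  have hZ0 := hW0 0 (by omega)
  obtain ⟨α, β, hZ⟩ := hW1 0 (by omega)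
  have key2 : ∀ j < m, ∃ x y : ℝ, x ≠ 0 ∧ y ≠ 0 ∧ W 0 = x • g j + y • g' j := by
    intro j hj
    obtain ⟨x, y, e⟩ := key j hj
    refine ⟨x, y, ?_, ?_, e⟩
    · intro hx
      rw [hx, zero_smul, zero_add] at e
      have h6 : α • a + β • a' + (-y) • g' j = 0 := by rw [← hZ, e, neg_smul, add_neg_cancel]
      obtain ⟨c1, c2, -⟩ := sa_indep3 ha ha' (hg' j hj) haa (h1 j hj).2 (h2 j hj).2 h6
      refine hZ0 ?_
      rw [hZ, c1, c2, zero_smul, zero_smul, add_zero]
    · intro hy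
      rw [hy, zero_smul, add_zero] at e
      have h6 : α • a + β • a' + (-x) • g j = 0 := by rw [← hZ, e, neg_smul, add_neg_cancel]
      obtain ⟨c1, c2, -⟩ := sa_indep3 ha ha' (hg j hj) haa (h1 j hj).1 (h2 j hj).1 h6
      refine hZ0 ?_
      rw [hZ, c1, c2, zero_smul, zero_smul, add_zero]
  refine ⟨W 0, ?_, ?_⟩
  · obtain ⟨x, y, hx, hy, e⟩ := key2 0 (by omega)
    exact (sa_refl (hg 0 (by omega)) (hg' 0 (by omega)) (hgg 0 (by omega)) hx hy e).1
  · intro j hj
    obtain ⟨x, y, hx, hy, e⟩ := key2 j hj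
    exact ⟨-(y / x), neg_ne_zero.2 (div_ne_zero hy hx),
      (sa_refl (hg j hj) (hg' j hj) (hgg j hj) hx hy e).2⟩

/-- The reflection as a linear map. -/
theorem sa_refl_bij {Z : E} (hZ : B Z Z ≠ 0) : ∃ Θ : E →ₗ[ℝ] E, Function.Bijective Θ ∧
    ∀ x, Θ x = refl Z x := by
  refine ⟨{ toFun := refl Z, map_add' := ?_, map_smul' := ?_ }, ?_, fun x => rfl⟩
  · intro x y
    unfold refl
    rw [sa_B_add, mul_add, add_div, add_smul]
    abel
  · intro c x
    unfold refl
    rw [sa_B_smul, RingHom.id_apply, smul_sub, smul_smul]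
    congr 2
    ring
  · have hinv : Function.Involutive (refl Z) := by
      intro x
      have e : B (refl Z x) Z = -B x Z := by
        unfold refl
        rw [sub_eq_add_neg, ← neg_smul, sa_B_add, sa_B_smul]
        field_simp
        ring
      have e2 : refl Z (refl Z x) = refl Z x - (2 * B (refl Z x) Z / B Z Z) • Z := rfl
      rw [e2, e]
      unfold refl
      rw [mul_neg, neg_div, neg_smul]
      abel
    exact hinv.bijective

/-! ### Facets -/

/-- The common vertices of two different facets span a space of dimension at most three. -/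
theorem sa_inter {Vs : List Lab} {φ : Lab → E} {F1 F2 : List Lab} (h1 : Fac Vs φ F1)
    (h2 : Fac Vs φ F2) {x : Lab} (hx1 : x ∈ F1) (hx2 : x ∉ F2) {G : Set E}
    (hG : ∀ w ∈ G, ∃ l, l ∈ F1 ∧ l ∈ F2 ∧ φ l = w) :
    Module.finrank ℝ (Submodule.span ℝ G) ≤ 3 := by
  obtain ⟨hs1, hr1, -⟩ := h1
  obtain ⟨hs2, -, N, -, hN⟩ := h2
  have hlt : Submodule.span ℝ G < Submodule.span ℝ (φ '' {v | v ∈ F1}) := by
    refine lt_of_le_of_ne ?_ ?_
    · rw [Submodule.span_le]
      intro w hw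
      obtain ⟨l, hl1, -, rfl⟩ := hG w hw
      exact Submodule.subset_span ⟨l, hl1, rfl⟩
    · intro he
      have hk : Submodule.span ℝ G ≤ LinearMap.ker N := by
        rw [Submodule.span_le]
        intro w hw
        obtain ⟨l, hl1, hl2, rfl⟩ := hG w hw
        exact (hN l (hs2 hl2)).2 hl2
      have hm : φ x ∈ Submodule.span ℝ G := by
        rw [he]
        exact Submodule.subset_span ⟨x, hx1, rfl⟩
      have := hk hm
      rw [LinearMap.mem_ker] at this
      exact hx2 ((hN x (hs1 hx1)).1 this)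
  have := Submodule.finrank_lt_finrank_of_lt hlt
  omega

/-! ### Lists -/

theorem sa_mem_EdL {S : List ℕ} {i j : ℕ} : (i, j) ∈ EdL S ↔ i ∈ S ∧ j ∈ S ∧ i < j ∧
    ((∀ k ∈ S, k ≤ i ∨ j ≤ k) ∨ (∀ k ∈ S, i ≤ k ∧ k ≤ j)) := by
  unfold EdL
  rw [List.mem_filter]
  simp only [List.product, List.mem_flatMap, List.mem_map, Prod.mk.injEq, Bool.and_eq_true,
    Bool.or_eq_true, decide_eq_true_eq, List.all_eq_true]
  constructor
  · rintro ⟨⟨a, ha, b, hb, rfl, rfl⟩, h1, h2⟩
    exact ⟨ha, hb, h1, h2⟩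
  · rintro ⟨h1, h2, h3, h4⟩
    exact ⟨⟨i, h1, j, h2, rfl, rfl⟩, h3, h4⟩

/-- Cyclically consecutive elements of a sorted list form an edge. -/
theorem sa_edge {S : List ℕ} (hS : S.Pairwise (· < ·)) (hm : 2 ≤ S.length) (i : ℕ) :
    (S.getD (i % S.length) 0, S.getD ((i + 1) % S.length) 0) ∈ EdL S ∨
      (S.getD ((i + 1) % S.length) 0, S.getD (i % S.length) 0) ∈ EdL S := by
  have hlt : ∀ a b (ha : a < S.length) (hb : b < S.length), a < b → S[a] < S[b] := by
    intro a b ha hb hab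
    exact List.pairwise_iff_getElem.1 hS a b ha hb hab
  have hle : ∀ a b (ha : a < S.length) (hb : b < S.length), a ≤ b → S[a] ≤ S[b] := by
    intro a b ha hb hab
    rcases hab.lt_or_eq with h | h
    · exact (hlt a b ha hb h).le
    · subst h; exact le_rfl
  have hi : i % S.length < S.length := Nat.mod_lt _ (by omega)
  set a := i % S.length with hadef
  by_cases hc : a + 1 < S.length
  · have e : (i + 1) % S.length = a + 1 := by
      rw [Nat.add_mod, ← hadef, Nat.mod_eq_of_lt (a := 1) (by omega), Nat.mod_eq_of_lt hc]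
    left
    rw [e, List.getD_eq_getElem _ _ hi, List.getD_eq_getElem _ _ hc, sa_mem_EdL]
    refine ⟨List.getElem_mem _, List.getElem_mem _, hlt _ _ _ _ (by omega), Or.inl ?_⟩
    intro k hk
    obtain ⟨b, hb, rfl⟩ := List.getElem_of_mem hk
    rcases Nat.lt_or_ge a b with h | h
    · exact Or.inr (hle _ _ _ _ h)
    · exact Or.inl (hle _ _ _ _ h)
  · have e0 : a + 1 = S.length := by omega
    have e : (i + 1) % S.length = 0 := by
      rw [Nat.add_mod, ← hadef, Nat.mod_eq_of_lt (a := 1) (by omega), e0, Nat.mod_self]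
    right
    have h0 : 0 < S.length := by omega
    rw [e, List.getD_eq_getElem _ _ hi, List.getD_eq_getElem _ _ h0, sa_mem_EdL]
    refine ⟨List.getElem_mem _, List.getElem_mem _, hlt _ _ _ _ (by omega), Or.inr ?_⟩
    intro k hk
    obtain ⟨b, hb, rfl⟩ := List.getElem_of_mem hk
    exact ⟨hle _ _ _ _ (by omega), hle _ _ _ _ (by omega)⟩

theorem sa_sorted_range (n : ℕ) (p : ℕ → Bool) : ((List.range n).filter p).Pairwise (· < ·) :=
  List.Pairwise.filter _ List.pairwise_lt_range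

theorem sa_mem_del {n : ℕ} {h : List ℕ} {j : ℕ} : j ∈ del n h ↔ j < n ∧ j ∉ h := by
  unfold del
  simp [List.mem_filter]

theorem sa_mem_Sl {n : ℕ} {h : List ℕ} {ℓ j : ℕ} :
    j ∈ Sl n h ℓ ↔ j < n ∧ j ∉ (del n h).take ℓ := by
  unfold Sl
  simp [List.mem_filter]

theorem sa_hex_nodup {n : ℕ} {h : List ℕ} (hh : HexOK n h) : h.Nodup := by
  obtain ⟨-, ⟨r, hr⟩, -⟩ := hh
  have : (h.rotate r).Nodup := hr.imp (fun h => h.ne)
  exact List.nodup_rotate.1 this

theorem sa_del_length {n : ℕ} {h : List ℕ} (hh : HexOK n h) : (del n h).length = n - 6 := by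
  have hnd : (del n h).Nodup := (sa_sorted_range n _).imp (fun h => h.ne)
  have e : (del n h).toFinset = Finset.range n \ h.toFinset := by
    ext j
    rw [List.mem_toFinset, sa_mem_del, Finset.mem_sdiff, Finset.mem_range, List.mem_toFinset]
  rw [← List.toFinset_card_of_nodup hnd, e, Finset.card_sdiff_of_subset, Finset.card_range,
    List.toFinset_card_of_nodup (sa_hex_nodup hh), hh.1]
  intro j hj
  rw [List.mem_toFinset] at hj
  exact Finset.mem_range.2 (hh.2.2 j hj)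

theorem sa_delV_get {n : ℕ} {h : List ℕ} {ℓ : ℕ} (hh : HexOK n h) (hl : ℓ < n - 6) :
    ∃ hℓ : ℓ < (del n h).length, delV n h ℓ = (del n h)[ℓ] := by
  have hℓ : ℓ < (del n h).length := by rw [sa_del_length hh]; exact hl
  exact ⟨hℓ, List.getD_eq_getElem _ _ hℓ⟩

theorem sa_delV_mem {n : ℕ} {h : List ℕ} {ℓ : ℕ} (hh : HexOK n h) (hl : ℓ < n - 6) :
    delV n h ℓ ∈ Sl n h ℓ := by
  obtain ⟨hℓ, he⟩ := sa_delV_get hh hl
  rw [sa_mem_Sl, he]
  refine ⟨(sa_mem_del.1 (List.getElem_mem hℓ)).1, ?_⟩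
  intro hm
  obtain ⟨i, hi, he2⟩ := List.getElem_of_mem hm
  rw [List.getElem_take] at he2
  rw [List.length_take] at hi
  have hp : (del n h).Pairwise (· < ·) := sa_sorted_range n _
  have hs := List.pairwise_iff_getElem.1 hp i ℓ (by omega) hℓ (by omega)
  omega

theorem sa_Sl_succ {n : ℕ} {h : List ℕ} {ℓ : ℕ} (hh : HexOK n h) (hl : ℓ < n - 6) (j : ℕ) :
    j ∈ Sl n h (ℓ + 1) ↔ j ∈ Sl n h ℓ ∧ j ≠ delV n h ℓ := by
  obtain ⟨hℓ, he⟩ := sa_delV_get hh hl
  rw [sa_mem_Sl, sa_mem_Sl, he, List.take_add_one, List.mem_append]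
  have : (del n h)[ℓ]?.toList = [(del n h)[ℓ]] := by simp [hℓ]
  rw [this, List.mem_singleton, not_or, and_assoc]

theorem sa_Sl_length {n : ℕ} {h : List ℕ} {ℓ : ℕ} (hh : HexOK n h) : 6 ≤ (Sl n h ℓ).length := by
  have h1 : h.toFinset ⊆ (Sl n h ℓ).toFinset := by
    intro j hj
    rw [List.mem_toFinset] at hj ⊢
    rw [sa_mem_Sl]
    refine ⟨hh.2.2 j hj, fun hm => ?_⟩
    exact (sa_mem_del.1 (List.mem_of_mem_take hm)).2 hj
  have h2 := Finset.card_le_card h1
  rw [List.toFinset_card_of_nodup (sa_hex_nodup hh), hh.1] at h2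
  exact h2.trans (List.toFinset_card_le _)

/-! ### Labels -/

theorem sa_pol_inj {k ℓ i j : ℕ} (h : pol k ℓ i = pol k ℓ j) : i = j := by
  unfold pol gL at h
  split_ifs at h <;> simpa using h

theorem sa_pol_ne {k ℓ i j : ℕ} : pol k ℓ i ≠ pol k (ℓ + 1) j := by
  unfold pol gL
  intro h
  split_ifs at h <;> simp at h <;> omega

theorem sa_ap_ne {k ℓ : ℕ} : ap k ℓ ≠ ap k (ℓ + 1) := by
  unfold ap
  intro h
  split_ifs at h <;> simp at h <;> omega

theorem sa_ap_pol {k ℓ ℓ' i : ℕ} : ap k ℓ ≠ pol k ℓ' i := by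
  unfold ap pol gL
  intro h
  split_ifs at h <;> simp at h

/-- Soundness of the deletion gadget. -/
theorem claimSA : ClaimSA := by
  intro Vs φ n k ℓ h hn hh hl hB hF
  set v := delV n h ℓ with hv
  set S := Sl n h ℓ with hSdef
  set m := S.length with hmdef
  have hm6 : 6 ≤ m := sa_Sl_length hh
  have hS : S.Pairwise (· < ·) := sa_sorted_range n _
  have hvS : v ∈ S := sa_delV_mem hh hl
  obtain ⟨r, hr, hrv⟩ := List.getElem_of_mem hvS
  -- the cyclic enumeration starting after `v`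
  set s : ℕ → ℕ := fun i => S.getD ((r + 1 + i) % m) 0 with hs
  have hmod : ∀ i, (r + 1 + i) % m < S.length := fun i => Nat.mod_lt _ (by omega)
  have hsS : ∀ i, s i ∈ S := by
    intro i
    change S.getD ((r + 1 + i) % m) 0 ∈ S
    rw [List.getD_eq_getElem _ _ (hmod i)]
    exact List.getElem_mem _
  have hnd : S.Nodup := hS.imp (fun h => h.ne)
  have hsinj : ∀ i j, s i = s j → (r + 1 + i) % m = (r + 1 + j) % m := by
    intro i j hij
    change S.getD ((r + 1 + i) % m) 0 = S.getD ((r + 1 + j) % m) 0 at hij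
    rw [List.getD_eq_getElem _ _ (hmod i), List.getD_eq_getElem _ _ (hmod j)] at hij
    exact (List.Nodup.getElem_inj_iff hnd).1 hij
  have hsv : ∀ i, s i = v → (r + 1 + i) % m = r := by
    intro i hij
    change S.getD ((r + 1 + i) % m) 0 = v at hij
    rw [List.getD_eq_getElem _ _ (hmod i), ← hrv] at hij
    exact (List.Nodup.getElem_inj_iff hnd).1 hij
  have hmodinj : ∀ i j, i < m → j < m → (r + 1 + i) % m = (r + 1 + j) % m → i = j := by
    intro i j hi hj hij
    have h1 : i ≡ j [MOD m] := Nat.ModEq.add_left_cancel' (r + 1) hij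
    exact Nat.ModEq.eq_of_lt_of_lt h1 hi hj
  have hsvne : ∀ i, i + 1 < m → s i ≠ v := by
    intro i hi hc
    have h1 := hsv i hc
    have h2 : (r + 1 + (m - 1)) % m = r := by
      rw [show r + 1 + (m - 1) = r + m by omega, Nat.add_mod_right, Nat.mod_eq_of_lt hr]
    have h3 := hmodinj i (m - 1) (by omega) (by omega) (h1.trans h2.symm)
    omega
  have hedge : ∀ i, (s i, s (i + 1)) ∈ EdL S ∨ (s (i + 1), s i) ∈ EdL S := by
    intro i
    have := sa_edge hS (by omega) (r + 1 + i)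
    rw [add_assoc (r + 1) i 1] at this
    exact this
  -- the facet of an edge
  set a := ap k ℓ with ha
  set a' := ap k (ℓ + 1) with ha'
  set g := pol k ℓ with hg
  set g' := pol k (ℓ + 1) with hg'
  have hfac : ∀ i j, ((i, j) ∈ EdL S ∨ (j, i) ∈ EdL S) → ∃ F, Fac Vs φ F ∧
      ∀ l, l ∈ F ↔ (l = a ∨ l = g i ∨ l = g j ∨ l = a' ∨ l = g' i ∨ l = g' j) ∧ l ≠ g' v := by
    intro i j hij
    rcases hij with hij | hij
    · refine ⟨[a, g i, g j, a', g' i, g' j].filter (fun l => decide (l ≠ g' v)), hF _ ?_, ?_⟩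
      · unfold fAd
        rw [List.mem_append]
        left
        rw [List.mem_map]
        exact ⟨(i, j), hij, rfl⟩
      · intro l
        simp only [List.mem_filter, List.mem_cons, List.not_mem_nil, or_false, decide_eq_true_eq]
    · refine ⟨[a, g j, g i, a', g' j, g' i].filter (fun l => decide (l ≠ g' v)), hF _ ?_, ?_⟩
      · unfold fAd
        rw [List.mem_append]
        left
        rw [List.mem_map]
        exact ⟨(j, i), hij, rfl⟩
      · intro l
        simp only [List.mem_filter, List.mem_cons, List.not_mem_nil, or_false, decide_eq_true_eq]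
        tauto
  have hF0 : Fac Vs φ (S.map g ++ (Sl n h (ℓ + 1)).map g') := by
    refine hF _ ?_
    unfold fAd
    rw [List.mem_append]
    right
    exact List.mem_cons_self
  -- distinctness of labels
  have d1 : ∀ i j, g i ≠ g' j := fun i j => sa_pol_ne
  have d2 : a ≠ a' := sa_ap_ne
  have d3 : ∀ i, a ≠ g i := fun i => sa_ap_pol
  have d4 : ∀ i, a ≠ g' i := fun i => sa_ap_pol
  have d5 : ∀ i, a' ≠ g i := fun i => sa_ap_pol
  have d6 : ∀ i, a' ≠ g' i := fun i => sa_ap_pol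
  have d7 : ∀ i j, g i = g j → i = j := fun i j => sa_pol_inj
  have d8 : ∀ i j, g' i = g' j → i = j := fun i j => sa_pol_inj
  -- membership in `Vs`
  have hmem : ∀ i, i + 1 < m → a ∈ Vs ∧ a' ∈ Vs ∧ g (s i) ∈ Vs ∧ g' (s i) ∈ Vs := by
    intro i hi
    obtain ⟨F, hFac, hFm⟩ := hfac _ _ (hedge i)
    have hsub := hFac.1
    have hne := hsvne i hi
    refine ⟨hsub ((hFm a).2 ⟨by simp, d4 v⟩), hsub ((hFm a').2 ⟨by simp, d6 v⟩),
      hsub ((hFm _).2 ⟨by simp, d1 _ _⟩), hsub ((hFm _).2 ⟨by simp, fun hc => hne (d8 _ _ hc)⟩)⟩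
  have hNP : ∀ x ∈ Vs, ∀ y ∈ Vs, x ≠ y → SaNP (φ x) (φ y) := fun x hx y hy hxy =>
    ⟨hB.2 x hx y hy hxy, hB.2 y hy x hx hxy.symm⟩
  obtain ⟨hav, hav', -, -⟩ := hmem 0 (by omega)
  -- the chain lemma
  have hchain : ∃ Z : E, B Z Z ≠ 0 ∧ ∀ j < m - 1, ∃ c : ℝ, c ≠ 0 ∧
      refl Z (φ (g (s j))) = c • φ (g' (s j)) := by
    refine sa_chain (m - 1) (by omega) (φ a) (φ a') (fun i => φ (g (s i)))
      (fun i => φ (g' (s i))) (hB.1 _ hav) (hB.1 _ hav') (hNP _ hav _ hav' d2)
      (fun j hj => hB.1 _ (hmem j (by omega)).2.2.1) (fun j hj => hB.1 _ (hmem j (by omega)).2.2.2)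
      (fun j hj => hNP _ (hmem j (by omega)).2.2.1 _ (hmem j (by omega)).2.2.2 (d1 _ _))
      (fun j hj => ⟨hNP _ hav _ (hmem j (by omega)).2.2.1 (d3 _),
        hNP _ hav _ (hmem j (by omega)).2.2.2 (d4 _)⟩)
      (fun j hj => ⟨hNP _ hav' _ (hmem j (by omega)).2.2.1 (d5 _),
        hNP _ hav' _ (hmem j (by omega)).2.2.2 (d6 _)⟩)
      ?_ ?_ ?_
    · -- two edge facets at one vertex
      intro j hj
      obtain ⟨F1, hFac1, hFm1⟩ := hfac _ _ (hedge j)
      have e0 : s (j + (m - 1) + 1) = s j := by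
        change S.getD ((r + 1 + (j + (m - 1) + 1)) % m) 0 = S.getD ((r + 1 + j) % m) 0
        rw [show r + 1 + (j + (m - 1) + 1) = r + 1 + j + m by omega, Nat.add_mod_right]
      have hed2 := hedge (j + (m - 1))
      rw [e0] at hed2
      obtain ⟨F2, hFac2, hFm2⟩ := hfac _ _ hed2
      have hne := hsvne j (by omega)
      -- the two neighbours are different
      have hnb : s (j + 1) ≠ s (j + (m - 1)) := by
        intro hc
        have h1 := hsinj _ _ hc
        have h2 : (j + 1) ≡ (j + (m - 1)) [MOD m] := Nat.ModEq.add_left_cancel' (r + 1) h1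
        have h3 : 1 ≡ (m - 1) [MOD m] := Nat.ModEq.add_left_cancel' j h2
        have := Nat.ModEq.eq_of_lt_of_lt h3 (by omega) (by omega)
        omega
      have hnb2 : s (j + 1) ≠ s j := by
        intro hc
        have h1 := hsinj _ _ hc
        have h3 : (j + 1) ≡ j [MOD m] := Nat.ModEq.add_left_cancel' (r + 1) h1
        have h4 : j + 1 ≡ j + 0 [MOD m] := h3
        have h5 : 1 ≡ 0 [MOD m] := Nat.ModEq.add_left_cancel' j h4
        have := Nat.ModEq.eq_of_lt_of_lt h5 (by omega) (by omega)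
        omega
      refine sa_inter hFac1 hFac2 (x := g (s (j + 1))) ((hFm1 _).2 ⟨by simp, d1 _ _⟩) ?_ ?_
      · intro hc
        rw [hFm2] at hc
        rcases hc.1 with h1 | h1 | h1 | h1 | h1 | h1
        · exact d3 _ h1.symm
        · exact hnb (d7 _ _ h1)
        · exact hnb2 (d7 _ _ h1)
        · exact d5 _ h1.symm
        · exact d1 _ _ h1
        · exact d1 _ _ h1
      · intro w hw
        simp only [Set.mem_insert_iff, Set.mem_singleton_iff] at hw
        rcases hw with rfl | rfl | rfl | rfl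
        · exact ⟨a, (hFm1 _).2 ⟨by simp, d4 _⟩, (hFm2 _).2 ⟨by simp, d4 _⟩, rfl⟩
        · exact ⟨a', (hFm1 _).2 ⟨by simp, d6 _⟩, (hFm2 _).2 ⟨by simp, d6 _⟩, rfl⟩
        · exact ⟨g (s j), (hFm1 _).2 ⟨by simp, d1 _ _⟩, (hFm2 _).2 ⟨by simp, d1 _ _⟩, rfl⟩
        · exact ⟨g' (s j), (hFm1 _).2 ⟨by simp, fun hc => hne (d8 _ _ hc)⟩,
            (hFm2 _).2 ⟨by simp, fun hc => hne (d8 _ _ hc)⟩, rfl⟩
    · -- the base facet and an edge facet
      intro j hj
      obtain ⟨F1, hFac1, hFm1⟩ := hfac _ _ (hedge j)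
      have hne := hsvne j (by omega)
      have hne' := hsvne (j + 1) (by omega)
      have hS' : ∀ i, i + 1 < m → s i ∈ Sl n h (ℓ + 1) := fun i hi =>
        (sa_Sl_succ hh hl _).2 ⟨hsS i, hsvne i hi⟩
      refine sa_inter hFac1 hF0 (x := a) ((hFm1 _).2 ⟨by simp, d4 _⟩) ?_ ?_
      · intro hc
        rw [List.mem_append, List.mem_map, List.mem_map] at hc
        rcases hc with ⟨i, -, hi⟩ | ⟨i, -, hi⟩
        · exact d3 _ hi.symm
        · exact d4 _ hi.symm
      · intro w hw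
        simp only [Set.mem_insert_iff, Set.mem_singleton_iff] at hw
        rcases hw with rfl | rfl | rfl | rfl
        · exact ⟨g (s j), (hFm1 _).2 ⟨by simp, d1 _ _⟩,
            List.mem_append_left _ (List.mem_map_of_mem (hsS j)), rfl⟩
        · exact ⟨g (s (j + 1)), (hFm1 _).2 ⟨by simp, d1 _ _⟩,
            List.mem_append_left _ (List.mem_map_of_mem (hsS (j + 1))), rfl⟩
        · exact ⟨g' (s j), (hFm1 _).2 ⟨by simp, fun hc => hne (d8 _ _ hc)⟩,
            List.mem_append_right _ (List.mem_map_of_mem (hS' j (by omega))), rfl⟩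
        · exact ⟨g' (s (j + 1)), (hFm1 _).2 ⟨by simp, fun hc => hne' (d8 _ _ hc)⟩,
            List.mem_append_right _ (List.mem_map_of_mem (hS' (j + 1) (by omega))), rfl⟩
    · -- the rank of an edge facet
      intro j hj
      obtain ⟨F1, hFac1, hFm1⟩ := hfac _ _ (hedge j)
      have hne := hsvne j (by omega)
      have hne' := hsvne (j + 1) (by omega)
      have e : φ '' {v | v ∈ F1} = ({φ a, φ a', φ (g (s j)), φ (g (s (j + 1))), φ (g' (s j)),
          φ (g' (s (j + 1)))} : Set E) := by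
        ext w
        simp only [Set.mem_image, Set.mem_ofPred_eq, Set.mem_insert_iff, Set.mem_singleton_iff]
        constructor
        · rintro ⟨l, hlm, rfl⟩
          rw [hFm1] at hlm
          rcases hlm.1 with h1 | h1 | h1 | h1 | h1 | h1 <;> simp [h1]
        · rintro (rfl | rfl | rfl | rfl | rfl | rfl)
          · exact ⟨a, (hFm1 _).2 ⟨by simp, d4 _⟩, rfl⟩
          · exact ⟨a', (hFm1 _).2 ⟨by simp, d6 _⟩, rfl⟩
          · exact ⟨g (s j), (hFm1 _).2 ⟨by simp, d1 _ _⟩, rfl⟩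
          · exact ⟨g (s (j + 1)), (hFm1 _).2 ⟨by simp, d1 _ _⟩, rfl⟩
          · exact ⟨g' (s j), (hFm1 _).2 ⟨by simp, fun hc => hne (d8 _ _ hc)⟩, rfl⟩
          · exact ⟨g' (s (j + 1)), (hFm1 _).2 ⟨by simp, fun hc => hne' (d8 _ _ hc)⟩, rfl⟩
      have := hFac1.2.1
      rw [e] at this
      exact this.ge

  -- conclusion
  obtain ⟨Z, hZ, hZc⟩ := hchain
  obtain ⟨Θ, hΘ, hΘr⟩ := sa_refl_bij hZ
  refine ⟨Θ, hΘ, ?_⟩
  intro j hj
  rw [List.mem_toFinset, sa_Sl_succ hh hl] at hj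
  obtain ⟨hjS, hjv⟩ := hj
  obtain ⟨q, hq, hqj⟩ := List.getElem_of_mem hjS
  have hqm : q < m := hq
  have hrm : r < m := hr
  -- index of `j` in the enumeration
  have hidx : ∃ i, i < m - 1 ∧ s i = j := by
    have hqr : q ≠ r := by
      rintro rfl
      exact hjv (hqj.symm.trans hrv)
    rcases Nat.lt_or_ge r q with h1 | h1
    · refine ⟨q - r - 1, by omega, ?_⟩
      change S.getD ((r + 1 + (q - r - 1)) % m) 0 = j
      have e : (r + 1 + (q - r - 1)) % m = q := by
        rw [show r + 1 + (q - r - 1) = q by omega, Nat.mod_eq_of_lt hq]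
      rw [e, List.getD_eq_getElem _ _ hq, hqj]
    · refine ⟨q + m - r - 1, by omega, ?_⟩
      change S.getD ((r + 1 + (q + m - r - 1)) % m) 0 = j
      have e : (r + 1 + (q + m - r - 1)) % m = q := by
        rw [show r + 1 + (q + m - r - 1) = q + m by omega, Nat.add_mod_right,
          Nat.mod_eq_of_lt hq]
      rw [e, List.getD_eq_getElem _ _ hq, hqj]
  obtain ⟨i, hi, rfl⟩ := hidx
  obtain ⟨c, hc, he⟩ := hZc i hi
  exact ⟨c, hc, by rw [hΘr]; exact he⟩

end Pool.Agent.Work.MP_5b14b0_lc
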