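import Pool.Agent.Work.MP_5b14b0_lc.Geo

/-!
# The chain lemma
-/

set_option autoImplicit false

namespace Pool.Agent.Work.MP_5b14b0_lc

open Finset

/-! ### The form -/

theorem ch_add_left (x y z : E) : B (x + y) z = B x z + B y z := by
  simp only [B, Pi.add_apply]; ring

theorem ch_smul_left (c : ℝ) (x z : E) : B (c • x) z = c * B x z := by
  simp only [B, Pi.smul_apply, smul_eq_mul]; ring

theorem ch_comm (x y : E) : B x y = B y x := by
  simp only [B]; ring

theorem ch_add_right (x y z : E) : B x (y + z) = B x y + B x z := by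
  simp only [B, Pi.add_apply]; ring

theorem ch_smul_right (c : ℝ) (x z : E) : B x (c • z) = c * B x z := by
  simp only [B, Pi.smul_apply, smul_eq_mul]; ring

theorem ch_sub_left (x y z : E) : B (x - y) z = B x z - B y z := by
  simp only [B, Pi.sub_apply]; ring

/-- The reflection as a linear map. -/
noncomputable def chRefl (Z : E) : E →ₗ[ℝ] E where
  toFun := refl Z
  map_add' x y := by
    simp only [refl, ch_add_left, mul_add, add_div, add_smul]
    abel
  map_smul' c x := by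
    simp only [refl, ch_smul_left, RingHom.id_apply, smul_sub, smul_smul]
    congr 2
    ring

theorem chRefl_apply (Z x : E) : chRefl Z x = refl Z x := rfl

theorem ch_refl_refl {Z : E} (hZ : B Z Z ≠ 0) (x : E) : refl Z (refl Z x) = x := by
  unfold refl
  rw [ch_sub_left, ch_smul_left, div_mul_cancel₀ _ hZ]
  have : 2 * (B x Z - 2 * B x Z) / B Z Z = -(2 * B x Z / B Z Z) := by ring
  rw [this, neg_smul]
  abel

theorem ch_bij {Z : E} (hZ : B Z Z ≠ 0) : Function.Bijective (chRefl Z) := by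
  refine ⟨fun x y h => ?_, fun y => ⟨refl Z y, ch_refl_refl hZ y⟩⟩
  have h1 : refl Z x = refl Z y := h
  rw [← ch_refl_refl hZ x, h1, ch_refl_refl hZ]

/-- `y` is not a multiple of `x`. -/
def NP (x y : E) : Prop := ∀ c : ℝ, y ≠ c • x

theorem ch_B_ne {x y : E} (hx : Light x) (hy : Light y) (h : NP x y) : B x y ≠ 0 := by
  intro h0
  obtain ⟨hx1, hx2⟩ := hx
  obtain ⟨hy1, hy2⟩ := hy
  apply h (y 4 / x 4)
  have hx4 : x 4 ≠ 0 := hx2.ne'
  have key : (y 4 * x 0 - x 4 * y 0) ^ 2 + (y 4 * x 1 - x 4 * y 1) ^ 2 +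
      (y 4 * x 2 - x 4 * y 2) ^ 2 + (y 4 * x 3 - x 4 * y 3) ^ 2 = 0 := by
    have : (y 4 * x 0 - x 4 * y 0) ^ 2 + (y 4 * x 1 - x 4 * y 1) ^ 2 +
      (y 4 * x 2 - x 4 * y 2) ^ 2 + (y 4 * x 3 - x 4 * y 3) ^ 2 =
      y 4 ^ 2 * B x x - 2 * x 4 * y 4 * B x y + x 4 ^ 2 * B y y := by
      simp only [B]; ring
    rw [this, hx1, hy1, h0]; ring
  have hsq : ∀ p q r s : ℝ, p ^ 2 + q ^ 2 + r ^ 2 + s ^ 2 = 0 → p = 0 ∧ q = 0 ∧ r = 0 ∧ s = 0 := by
    intro p q r s h
    have hp := sq_nonneg p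
    have hq := sq_nonneg q
    have hr := sq_nonneg r
    have hs := sq_nonneg s
    refine ⟨?_, ?_, ?_, ?_⟩ <;> apply pow_eq_zero_iff (two_ne_zero) |>.mp <;> linarith
  obtain ⟨e0, e1, e2, e3⟩ := hsq _ _ _ _ key
  funext i
  simp only [Pi.smul_apply, smul_eq_mul]
  rw [div_mul_eq_mul_div, eq_div_iff hx4]
  fin_cases i <;> simp <;> linarith

theorem ch_ne_zero {x : E} (hx : Light x) : x ≠ 0 := by
  rintro rfl
  have := hx.2
  simp at this

/-- Three pairwise nonproportional light vectors are independent. -/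
theorem ch_not_mem {x y z : E} (hx : Light x) (hy : Light y) (hz : Light z)
    (hxy : NP x y) (hxz : NP x z) (hyz : NP y z) :
    z ∉ Submodule.span ℝ ({x, y} : Set E) := by
  intro h
  obtain ⟨α, β, h1⟩ := Submodule.mem_span_pair.mp h
  have h2 := hz.1
  rw [← h1, ch_add_left, ch_add_right, ch_add_right] at h2
  simp only [ch_smul_left, ch_smul_right, hx.1, hy.1, ch_comm y x] at h2
  have h3 : α * β * B x y = 0 := by linarith
  rcases mul_eq_zero.mp h3 with h4 | h4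
  · rcases mul_eq_zero.mp h4 with h5 | h5
    · rw [h5, zero_smul, zero_add] at h1
      exact hyz β h1.symm
    · rw [h5, zero_smul, add_zero] at h1
      exact hxz α h1.symm
  · exact ch_B_ne hx hy hxy h4

theorem ch_finrank_pair {x y : E} (hx : Light x) (hxy : NP x y) :
    Module.finrank ℝ (Submodule.span ℝ ({x, y} : Set E)) = 2 := by
  have hli : LinearIndependent ℝ ![x, y] := by
    rw [LinearIndependent.pair_iff' (ch_ne_zero hx)]
    intro c hc
    exact hxy c hc.symm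
  have := finrank_span_eq_card hli
  rw [Matrix.range_cons_cons_empty] at this
  simpa using this

/-! ### Three lines which meet pairwise -/

open Submodule in
theorem ch_conc (A U W : Submodule ℝ E) (hA : Module.finrank ℝ A = 2)
    (hU : Module.finrank ℝ U = 2) (hW : Module.finrank ℝ W = 2) (hAU : A ≠ U) (hAW : A ≠ W)
    (hUW : U ≠ W) (h1 : Module.finrank ℝ (A ⊔ U : Submodule ℝ E) ≤ 3)
    (h2 : Module.finrank ℝ (A ⊔ W : Submodule ℝ E) ≤ 3)
    (h3 : Module.finrank ℝ (U ⊔ W : Submodule ℝ E) ≤ 3)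
    (h4 : 4 ≤ Module.finrank ℝ (A ⊔ U ⊔ W : Submodule ℝ E)) : A ⊓ U = A ⊓ W := by
  have key : ∀ X Y : Submodule ℝ E, Module.finrank ℝ X = 2 → Module.finrank ℝ Y = 2 → X ≠ Y →
      Module.finrank ℝ (X ⊔ Y : Submodule ℝ E) ≤ 3 →
      Module.finrank ℝ (X ⊓ Y : Submodule ℝ E) = 1 := by
    intro X Y hX hY hXY h
    have h5 := Submodule.finrank_sup_add_finrank_inf_eq X Y
    have h6 : Module.finrank ℝ (X ⊓ Y : Submodule ℝ E) ≤ 2 := by
      rw [← hX]; exact Submodule.finrank_mono inf_le_left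
    have h7 : Module.finrank ℝ (X ⊓ Y : Submodule ℝ E) ≠ 2 := by
      intro h8
      have e1 : X ⊓ Y = X := Submodule.eq_of_le_of_finrank_eq inf_le_left (by rw [h8, hX])
      have e2 : X ⊓ Y = Y := Submodule.eq_of_le_of_finrank_eq inf_le_right (by rw [h8, hY])
      exact hXY (e1.symm.trans e2)
    omega
  -- two different lines in a plane span it
  have span2 : ∀ P Q X : Submodule ℝ E, Module.finrank ℝ P = 1 → Module.finrank ℝ Q = 1 →
      Module.finrank ℝ X = 2 → P ≤ X → Q ≤ X → P ≠ Q → P ⊔ Q = X := by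
    intro P Q X hP hQ hX hPX hQX hPQ
    refine Submodule.eq_of_le_of_finrank_le (sup_le hPX hQX) ?_
    have h5 := Submodule.finrank_sup_add_finrank_inf_eq P Q
    have h6 : Module.finrank ℝ (P ⊓ Q : Submodule ℝ E) ≤ 1 := by
      rw [← hP]; exact Submodule.finrank_mono inf_le_left
    have h7 : Module.finrank ℝ (P ⊓ Q : Submodule ℝ E) ≠ 1 := by
      intro h8
      have e1 : P ⊓ Q = P := Submodule.eq_of_le_of_finrank_eq inf_le_left (by rw [h8, hP])
      have e2 : P ⊓ Q = Q := Submodule.eq_of_le_of_finrank_eq inf_le_right (by rw [h8, hQ])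
      exact hPQ (e1.symm.trans e2)
    omega
  have hP := key A U hA hU hAU h1
  have hQ := key A W hA hW hAW h2
  have hR := key U W hU hW hUW h3
  by_contra hne
  have eA := span2 _ _ A hP hQ hA inf_le_left inf_le_left hne
  have hR1 : (A ⊓ U : Submodule ℝ E) ≠ U ⊓ W := by
    intro h5
    apply hAW
    refine Submodule.eq_of_le_of_finrank_eq ?_ (by rw [hA, hW])
    rw [← eA]
    refine sup_le ?_ inf_le_right
    rw [h5]; exact inf_le_right
  have hR2 : (A ⊓ W : Submodule ℝ E) ≠ U ⊓ W := by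
    intro h5
    apply hAU
    refine Submodule.eq_of_le_of_finrank_eq ?_ (by rw [hA, hU])
    rw [← eA]
    refine sup_le inf_le_right ?_
    rw [h5]; exact inf_le_left
  have eU := span2 _ _ U hP hR hU inf_le_right inf_le_left hR1
  have eW := span2 _ _ W hQ hR hW inf_le_right inf_le_right hR2
  have hle : A ⊔ U ⊔ W ≤ (A ⊓ U) ⊔ (A ⊓ W) ⊔ (U ⊓ W) := by
    refine sup_le (sup_le ?_ ?_) ?_
    · exact eA.symm.le.trans le_sup_left
    · refine eU.symm.le.trans (sup_le ?_ le_sup_right)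
      exact le_sup_left.trans le_sup_left
    · refine eW.symm.le.trans (sup_le ?_ le_sup_right)
      exact le_sup_right.trans le_sup_left
  have h5 := Submodule.finrank_mono hle
  have h6 := Submodule.finrank_add_le_finrank_add_finrank (A ⊓ U ⊔ A ⊓ W) (U ⊓ W)
  have h7 := Submodule.finrank_add_le_finrank_add_finrank (A ⊓ U) (A ⊓ W)
  omega

/-- Span of a pair. -/
abbrev sp2 (x y : E) : Submodule ℝ E := Submodule.span ℝ {x, y}

theorem sp2_sup (x y z w : E) :
    sp2 x y ⊔ sp2 z w = Submodule.span ℝ ({x, y, z, w} : Set E) := by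
  rw [← Submodule.span_union]
  congr 1
  ext u; simp only [Set.mem_union, Set.mem_insert_iff, Set.mem_singleton_iff]; tauto

theorem sp2_sup3 (x y z w u v : E) :
    sp2 x y ⊔ sp2 z w ⊔ sp2 u v = Submodule.span ℝ ({x, y, z, w, u, v} : Set E) := by
  rw [← Submodule.span_union, ← Submodule.span_union]
  congr 1
  ext u; simp only [Set.mem_union, Set.mem_insert_iff, Set.mem_singleton_iff]; tauto

/-- One step of the chain. -/
theorem chain_step {a a' gi gi' gj gj' : E} (ha : Light a) (ha' : Light a') (hi : Light gi)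
    (hi' : Light gi') (hj : Light gj)
    (n1 : NP a a') (n2 : NP gi gi') (n3 : NP gj gj') (n4 : NP a gi) (n5 : NP a' gi)
    (n6 : NP a gj) (n7 : NP a' gj) (n8 : NP gi gj) (n9 : NP gi' gj)
    (d1 : Module.finrank ℝ (Submodule.span ℝ ({a, a', gi, gi'} : Set E)) ≤ 3)
    (d2 : Module.finrank ℝ (Submodule.span ℝ ({a, a', gj, gj'} : Set E)) ≤ 3)
    (d3 : Module.finrank ℝ (Submodule.span ℝ ({gi, gi', gj, gj'} : Set E)) ≤ 3)
    (d4 : 4 ≤ Module.finrank ℝ (Submodule.span ℝ ({a, a', gi, gi', gj, gj'} : Set E))) :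
    sp2 a a' ⊓ sp2 gi gi' = sp2 a a' ⊓ sp2 gj gj' := by
  refine ch_conc _ _ _ (ch_finrank_pair ha n1) (ch_finrank_pair hi n2) (ch_finrank_pair hj n3)
    ?_ ?_ ?_ ?_ ?_ ?_ ?_
  · intro h
    apply ch_not_mem ha ha' hi n1 n4 n5
    rw [show Submodule.span ℝ ({a, a'} : Set E) = sp2 gi gi' from h]
    exact Submodule.subset_span (by simp)
  · intro h
    apply ch_not_mem ha ha' hj n1 n6 n7
    rw [show Submodule.span ℝ ({a, a'} : Set E) = sp2 gj gj' from h]
    exact Submodule.subset_span (by simp)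
  · intro h
    apply ch_not_mem hi hi' hj n2 n8 n9
    rw [show Submodule.span ℝ ({gi, gi'} : Set E) = sp2 gj gj' from h]
    exact Submodule.subset_span (by simp)
  · rw [sp2_sup]; exact d1
  · rw [sp2_sup]; exact d2
  · rw [sp2_sup]; exact d3
  · rw [sp2_sup3]; exact d4

/-- If the four light vectors `a, a', g, g'` span a space of dimension at most three, the two
lines meet. -/
theorem chain_pt {a a' g g' : E} (ha : Light a) (hg : Light g)
    (n1 : NP a a') (n2 : NP g g')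
    (d : Module.finrank ℝ (Submodule.span ℝ ({a, a', g, g'} : Set E)) ≤ 3) :
    ∃ Z ∈ sp2 a a' ⊓ sp2 g g', Z ≠ 0 := by
  have h1 := ch_finrank_pair ha n1
  have h2 := ch_finrank_pair hg n2
  have h3 := Submodule.finrank_sup_add_finrank_inf_eq (sp2 a a') (sp2 g g')
  rw [sp2_sup] at h3
  have h4 : Module.finrank ℝ (sp2 a a' ⊓ sp2 g g' : Submodule ℝ E) ≠ 0 := by
    intro h5
    rw [h5] at h3
    have h6 : Module.finrank ℝ (sp2 a a') = 2 := h1
    have h7 : Module.finrank ℝ (sp2 g g') = 2 := h2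
    omega
  have h5 : (sp2 a a' ⊓ sp2 g g' : Submodule ℝ E) ≠ ⊥ := by
    intro h6
    rw [h6] at h4
    exact h4 (finrank_bot ℝ E)
  exact Submodule.exists_mem_ne_zero_of_ne_bot h5

/-- The reflection in the common point. -/
theorem chain_refl {a a' g g' Z : E} (ha : Light a) (ha' : Light a') (hg : Light g)
    (hg' : Light g') (n1 : NP a a') (n2 : NP g g') (n3 : NP a g) (n4 : NP a' g) (n5 : NP a g')
    (n6 : NP a' g') (hZ0 : Z ≠ 0) (hZa : Z ∈ sp2 a a') (hZg : Z ∈ sp2 g g') :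
    B Z Z ≠ 0 ∧ ∃ c : ℝ, c ≠ 0 ∧ refl Z g = c • g' := by
  obtain ⟨x, y, h1⟩ := Submodule.mem_span_pair.mp hZg
  have hx : x ≠ 0 := by
    rintro rfl
    rw [zero_smul, zero_add] at h1
    have hy : y ≠ 0 := by
      rintro rfl
      exact hZ0 (by rw [← h1, zero_smul])
    apply ch_not_mem ha ha' hg' n1 n5 n6
    have : g' = y⁻¹ • Z := by rw [← h1, smul_smul, inv_mul_cancel₀ hy, one_smul]
    rw [this]
    exact Submodule.smul_mem _ _ hZa
  have hy : y ≠ 0 := by
    rintro rfl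
    rw [zero_smul, add_zero] at h1
    apply ch_not_mem ha ha' hg n1 n3 n4
    have : g = x⁻¹ • Z := by rw [← h1, smul_smul, inv_mul_cancel₀ hx, one_smul]
    rw [this]
    exact Submodule.smul_mem _ _ hZa
  have hB := ch_B_ne hg hg' n2
  have hZZ : B Z Z = 2 * x * y * B g g' := by
    rw [← h1, ch_add_left, ch_add_right, ch_add_right]
    simp only [ch_smul_left, ch_smul_right, hg.1, hg'.1, ch_comm g' g]
    ring
  have hgZ : B g Z = y * B g g' := by
    rw [← h1, ch_add_right, ch_smul_right, ch_smul_right, hg.1]; ring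
  refine ⟨by rw [hZZ]; positivity, -(y / x), neg_ne_zero.mpr (div_ne_zero hy hx), ?_⟩
  unfold refl
  rw [hZZ, hgZ]
  have e1 : 2 * (y * B g g') / (2 * x * y * B g g') = x⁻¹ := by
    field_simp
  rw [e1, ← h1, smul_add, smul_smul, smul_smul, inv_mul_cancel₀ hx, one_smul, neg_smul,
    div_eq_inv_mul]
  abel

/-- **Chain lemma.** `a, a', g j, g' j` light vectors, no two proportional; `p 0, …, p m` a path
(`m ≥ 1`) of indices. -/
theorem chain {a a' : E} {g g' : ℕ → E} {S : Finset ℕ} (p : ℕ → ℕ) (m : ℕ) (hm : 1 ≤ m)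
    (hp : ∀ i ≤ m, p i ∈ S) (hpS : ∀ j ∈ S, ∃ i ≤ m, p i = j)
    (ha : Light a) (ha' : Light a') (hg : ∀ j ∈ S, Light (g j)) (hg' : ∀ j ∈ S, Light (g' j))
    (n1 : NP a a') (n2 : ∀ j ∈ S, NP (g j) (g' j)) (n3 : ∀ j ∈ S, NP a (g j))
    (n4 : ∀ j ∈ S, NP a' (g j)) (n5 : ∀ j ∈ S, NP a (g' j)) (n6 : ∀ j ∈ S, NP a' (g' j))
    (n7 : ∀ i < m, NP (g (p i)) (g (p (i + 1))))
    (n8 : ∀ i < m, NP (g' (p i)) (g (p (i + 1))))
    (d1 : ∀ j ∈ S, Module.finrank ℝ (Submodule.span ℝ ({a, a', g j, g' j} : Set E)) ≤ 3)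
    (d2 : ∀ i < m, Module.finrank ℝ (Submodule.span ℝ
      ({g (p i), g' (p i), g (p (i + 1)), g' (p (i + 1))} : Set E)) ≤ 3)
    (d3 : ∀ i < m, 4 ≤ Module.finrank ℝ (Submodule.span ℝ
      ({a, a', g (p i), g' (p i), g (p (i + 1)), g' (p (i + 1))} : Set E))) :
    ∃ Z : E, B Z Z ≠ 0 ∧ ∀ j ∈ S, ∃ c : ℝ, c ≠ 0 ∧ refl Z (g j) = c • g' j := by
  have hstep : ∀ i < m, sp2 a a' ⊓ sp2 (g (p i)) (g' (p i)) =
      sp2 a a' ⊓ sp2 (g (p (i + 1))) (g' (p (i + 1))) := by
    intro i hi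
    have h0 := hp i hi.le
    have h1 := hp (i + 1) hi
    exact chain_step ha ha' (hg _ h0) (hg' _ h0) (hg _ h1) n1 (n2 _ h0) (n2 _ h1)
      (n3 _ h0) (n4 _ h0) (n3 _ h1) (n4 _ h1) (n7 i hi) (n8 i hi) (d1 _ h0) (d1 _ h1) (d2 i hi)
      (d3 i hi)
  have hall : ∀ i ≤ m, sp2 a a' ⊓ sp2 (g (p 0)) (g' (p 0)) =
      sp2 a a' ⊓ sp2 (g (p i)) (g' (p i)) := by
    intro i
    induction i with
    | zero => intro _; rfl
    | succ i ih => intro hi; rw [ih (by omega), hstep i (by omega)]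
  have h0 := hp 0 (by omega)
  obtain ⟨Z, hZ, hZ0⟩ := chain_pt ha (hg _ h0) n1 (n2 _ h0) (d1 _ h0)
  have hfin : ∀ j ∈ S, B Z Z ≠ 0 ∧ ∃ c : ℝ, c ≠ 0 ∧ refl Z (g j) = c • g' j := by
    intro j hj
    obtain ⟨i, hi, rfl⟩ := hpS j hj
    have hZi : Z ∈ sp2 a a' ⊓ sp2 (g (p i)) (g' (p i)) := by rw [← hall i hi]; exact hZ
    exact chain_refl ha ha' (hg _ hj) (hg' _ hj) n1 (n2 _ hj) (n3 _ hj) (n4 _ hj) (n5 _ hj)
      (n6 _ hj) hZ0 hZi.1 hZi.2
  exact ⟨Z, (hfin _ h0).1, fun j hj => (hfin j hj).2⟩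

end Pool.Agent.Work.MP_5b14b0_lc
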