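import Pool.Agent.Work.MP_5b14b0_lc.Stmts
import Pool.Agent.Work.MP_5b14b0_lc.Chain

/-!
# Soundness of the branching gadget
-/

set_option autoImplicit false

namespace Pool.Agent.Work.MP_5b14b0_lc

open Finset

/-- Labels in two different facets: the common ones span a space of dimension at most three. -/
theorem sk_two {Vs : List Lab} {φ : Lab → E} {F1 F2 : List Lab} (h1 : Fac Vs φ F1)
    (h2 : Fac Vs φ F2) {v1 v2 : Lab} (hv1 : v1 ∈ F1) (hv1' : v1 ∉ F2) (hv2 : v2 ∈ F2)
    (hv2' : v2 ∉ F1) (T : Set E) (hT : ∀ x ∈ T, ∃ v, v ∈ F1 ∧ v ∈ F2 ∧ φ v = x) :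
    Module.finrank ℝ (Submodule.span ℝ T) ≤ 3 := by
  obtain ⟨s1, -, N1, p1, z1⟩ := h1
  obtain ⟨s2, -, N2, p2, z2⟩ := h2
  have k1 : N1 (φ v2) ≠ 0 := fun h => hv2' ((z1 v2 (s2 hv2)).mp h)
  have k2 : N2 (φ v1) ≠ 0 := fun h => hv1' ((z2 v1 (s1 hv1)).mp h)
  have k3 : N1 (φ v1) = 0 := (z1 v1 (s1 hv1)).mpr hv1
  have hle : Submodule.span ℝ T ≤ LinearMap.ker N1 ⊓ LinearMap.ker N2 := by
    rw [Submodule.span_le]
    intro x hx
    obtain ⟨v, hv, hv', rfl⟩ := hT x hx
    exact ⟨(z1 v (s1 hv)).mpr hv, (z2 v (s2 hv')).mpr hv'⟩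
  have hker : Module.finrank ℝ (LinearMap.ker N1) ≤ 4 := by
    have h5 : Module.finrank ℝ (LinearMap.ker N1) < Module.finrank ℝ E := by
      refine Submodule.finrank_lt ?_
      intro h6
      have : φ v2 ∈ LinearMap.ker N1 := by rw [h6]; trivial
      exact k1 this
    have h7 : Module.finrank ℝ E = 5 := by simp [E]
    omega
  have hlt : LinearMap.ker N1 ⊓ LinearMap.ker N2 < LinearMap.ker N1 := by
    refine lt_of_le_of_ne inf_le_left fun h => ?_
    have h8 : φ v1 ∈ LinearMap.ker N1 ⊓ LinearMap.ker N2 := by rw [h]; exact k3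
    exact k2 h8.2
  have h9 := Submodule.finrank_lt_finrank_of_lt hlt
  have h10 := Submodule.finrank_mono hle
  omega

theorem sk_edge {n i : ℕ} (hi : i + 1 < n) : (i, i + 1) ∈ EdL (List.range n) := by
  unfold EdL
  simp only [List.mem_filter, List.product, List.mem_flatMap, List.mem_range, List.mem_map,
    Bool.and_eq_true, Bool.or_eq_true, decide_eq_true_eq, List.all_eq_true]
  refine ⟨⟨i, by omega, i + 1, hi, rfl⟩, by omega, Or.inl fun k hk => by omega⟩

theorem sk_edge0 {n : ℕ} (hn : 2 ≤ n) : (0, n - 1) ∈ EdL (List.range n) := by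
  unfold EdL
  simp only [List.mem_filter, List.product, List.mem_flatMap, List.mem_range, List.mem_map,
    Bool.and_eq_true, Bool.or_eq_true, decide_eq_true_eq, List.all_eq_true]
  refine ⟨⟨0, by omega, n - 1, by omega, rfl⟩, by omega, Or.inr fun k hk => by omega⟩

theorem claimSK : ClaimSK := by
  intro Vs φ n k hn hB hF
  obtain ⟨hLight, hNP⟩ := hB
  have hprism : ∀ e ∈ EdL (List.range n), Fac Vs φ
      [aL k, gL k e.1, gL k e.2, aL (k + 1), gL (k + 1) e.1, gL (k + 1) e.2] := by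
    intro e he
    refine hF _ ?_
    simp only [fMain, List.mem_append, List.mem_map]
    exact Or.inl (Or.inl ⟨e, he, rfl⟩)
  have hkq : ∀ e ∈ EdL (List.range n), Fac Vs φ
      [ap k 0, gL k e.1, gL k e.2, gL (k + 1) e.1, gL (k + 1) e.2] := by
    intro e he
    refine hF _ ?_
    simp only [fMain, List.mem_append, List.mem_map]
    exact Or.inl (Or.inr ⟨e, he, rfl⟩)
  have e01 : (0, 1) ∈ EdL (List.range n) := sk_edge (i := 0) (by omega)
  -- membership of the labels
  have hedge : ∀ j ∈ Finset.range n, ∃ e ∈ EdL (List.range n), j = e.1 ∨ j = e.2 := by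
    intro j hj
    rw [Finset.mem_range] at hj
    rcases Nat.eq_zero_or_pos j with rfl | hj0
    · exact ⟨(0, 1), e01, Or.inl rfl⟩
    · refine ⟨(j - 1, j), ?_, Or.inr rfl⟩
      have := sk_edge (n := n) (i := j - 1) (by omega)
      rwa [show j - 1 + 1 = j by omega] at this
  have ma : aL k ∈ Vs := (hprism _ e01).1 (by simp)
  have ma' : aL (k + 1) ∈ Vs := (hprism _ e01).1 (by simp)
  have mg : ∀ j ∈ Finset.range n, gL k j ∈ Vs := by
    intro j hj
    obtain ⟨e, he, h | h⟩ := hedge j hj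
    · exact (hprism e he).1 (by simp [h])
    · exact (hprism e he).1 (by simp [h])
  have mg' : ∀ j ∈ Finset.range n, gL (k + 1) j ∈ Vs := by
    intro j hj
    obtain ⟨e, he, h | h⟩ := hedge j hj
    · exact (hprism e he).1 (by simp [h])
    · exact (hprism e he).1 (by simp [h])
  have np : ∀ v ∈ Vs, ∀ w ∈ Vs, v ≠ w → NP (φ v) (φ w) := fun v hv w hw h => hNP v hv w hw h
  -- two edges at every vertex
  have htwo : ∀ j ∈ Finset.range n, ∃ e ∈ EdL (List.range n), ∃ e' ∈ EdL (List.range n),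
      (j = e.1 ∨ j = e.2) ∧ (j = e'.1 ∨ j = e'.2) ∧
      (∃ u, (u = e.1 ∨ u = e.2) ∧ u ≠ e'.1 ∧ u ≠ e'.2) ∧
      (∃ u, (u = e'.1 ∨ u = e'.2) ∧ u ≠ e.1 ∧ u ≠ e.2) := by
    intro j hj
    rw [Finset.mem_range] at hj
    rcases Nat.eq_zero_or_pos j with rfl | hj0
    · refine ⟨(0, 1), e01, (0, n - 1), sk_edge0 (by omega), Or.inl rfl, Or.inl rfl,
        ⟨1, Or.inr rfl, by simp, ?_⟩, ⟨n - 1, Or.inr rfl, ?_, ?_⟩⟩
      · show 1 ≠ n - 1; omega
      · show n - 1 ≠ 0; omega
      · show n - 1 ≠ 1; omega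
    · have h1 : (j - 1, j) ∈ EdL (List.range n) := by
        have := sk_edge (n := n) (i := j - 1) (by omega)
        rwa [show j - 1 + 1 = j by omega] at this
      rcases Nat.lt_or_ge (j + 1) n with h2 | h2
      · refine ⟨(j - 1, j), h1, (j, j + 1), sk_edge h2, Or.inr rfl, Or.inl rfl,
          ⟨j - 1, Or.inl rfl, ?_, ?_⟩, ⟨j + 1, Or.inr rfl, ?_, ?_⟩⟩
        · show j - 1 ≠ j; omega
        · show j - 1 ≠ j + 1; omega
        · show j + 1 ≠ j - 1; omega
        · show j + 1 ≠ j; omega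
      · have hjn : j = n - 1 := by omega
        refine ⟨(j - 1, j), h1, (0, n - 1), sk_edge0 (by omega), Or.inr rfl, Or.inr hjn,
          ⟨j - 1, Or.inl rfl, ?_, ?_⟩, ⟨0, Or.inl rfl, ?_, ?_⟩⟩
        · show j - 1 ≠ 0; omega
        · show j - 1 ≠ n - 1; omega
        · show 0 ≠ j - 1; omega
        · show 0 ≠ j; omega
  have d1 : ∀ j ∈ Finset.range n, Module.finrank ℝ (Submodule.span ℝ
      ({φ (aL k), φ (aL (k + 1)), φ (gL k j), φ (gL (k + 1) j)} : Set E)) ≤ 3 := by
    intro j hj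
    obtain ⟨e, he, e', he', hje, hje', ⟨u, hu, hu1, hu2⟩, ⟨u', hu', hu1', hu2'⟩⟩ := htwo j hj
    refine sk_two (hprism e he) (hprism e' he') (v1 := gL k u) (v2 := gL k u') ?_ ?_ ?_ ?_ _ ?_
    · rcases hu with rfl | rfl <;> simp
    · simp [gL, aL, hu1, hu2]
    · rcases hu' with rfl | rfl <;> simp
    · simp [gL, aL, hu1', hu2']
    · intro x hx
      simp only [Set.mem_insert_iff, Set.mem_singleton_iff] at hx
      rcases hx with rfl | rfl | rfl | rfl
      · exact ⟨aL k, by simp, by simp, rfl⟩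
      · exact ⟨aL (k + 1), by simp, by simp, rfl⟩
      · exact ⟨gL k j, by rcases hje with rfl | rfl <;> simp,
          by rcases hje' with rfl | rfl <;> simp, rfl⟩
      · exact ⟨gL (k + 1) j, by rcases hje with rfl | rfl <;> simp,
          by rcases hje' with rfl | rfl <;> simp, rfl⟩
  obtain ⟨Z, hZ, hZj⟩ := chain (a := φ (aL k)) (a' := φ (aL (k + 1)))
    (g := fun j => φ (gL k j)) (g' := fun j => φ (gL (k + 1) j)) (S := Finset.range n)
    (fun i => i) (n - 1) (by omega) (fun i hi => Finset.mem_range.mpr (by omega))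
    (fun j hj => ⟨j, by rw [Finset.mem_range] at hj; omega, rfl⟩)
    (hLight _ ma) (hLight _ ma') (fun j hj => hLight _ (mg j hj)) (fun j hj => hLight _ (mg' j hj))
    (np _ ma _ ma' (by simp [aL])) (fun j hj => np _ (mg j hj) _ (mg' j hj) (by simp [gL]))
    (fun j hj => np _ ma _ (mg j hj) (by simp [gL, aL]))
    (fun j hj => np _ ma' _ (mg j hj) (by simp [gL, aL]))
    (fun j hj => np _ ma _ (mg' j hj) (by simp [gL, aL]))
    (fun j hj => np _ ma' _ (mg' j hj) (by simp [gL, aL]))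
    (fun i hi => np _ (mg i (Finset.mem_range.mpr (by omega))) _
      (mg (i + 1) (Finset.mem_range.mpr (by omega))) (by simp [gL]))
    (fun i hi => np _ (mg' i (Finset.mem_range.mpr (by omega))) _
      (mg (i + 1) (Finset.mem_range.mpr (by omega))) (by simp [gL]))
    d1
    (fun i hi => by
      have he := sk_edge (n := n) (i := i) (by omega)
      refine sk_two (hprism _ he) (hkq _ he) (v1 := aL k) (v2 := ap k 0) (by simp)
        (by simp [aL, gL, ap]) (by simp) (by simp [aL, gL, ap]) _ ?_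
      intro x hx
      simp only [Set.mem_insert_iff, Set.mem_singleton_iff] at hx
      rcases hx with rfl | rfl | rfl | rfl
      · exact ⟨gL k i, by simp, by simp, rfl⟩
      · exact ⟨gL (k + 1) i, by simp, by simp, rfl⟩
      · exact ⟨gL k (i + 1), by simp, by simp, rfl⟩
      · exact ⟨gL (k + 1) (i + 1), by simp, by simp, rfl⟩)
    (fun i hi => by
      have he := sk_edge (n := n) (i := i) (by omega)
      have h1 := (hprism _ he).2.1
      have h2 : (φ '' {v | v ∈ [aL k, gL k i, gL k (i + 1), aL (k + 1), gL (k + 1) i,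
          gL (k + 1) (i + 1)]}) = ({φ (aL k), φ (aL (k + 1)), φ (gL k i), φ (gL (k + 1) i),
          φ (gL k (i + 1)), φ (gL (k + 1) (i + 1))} : Set E) := by
        ext x
        simp only [List.mem_cons, List.not_mem_nil, or_false, Set.mem_image, Set.mem_ofPred_eq,
          Set.mem_insert_iff, Set.mem_singleton_iff]
        constructor
        · rintro ⟨v, hv, rfl⟩
          rcases hv with rfl | rfl | rfl | rfl | rfl | rfl <;> simp
        · rintro (rfl | rfl | rfl | rfl | rfl | rfl)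
          · exact ⟨_, Or.inl rfl, rfl⟩
          · exact ⟨_, Or.inr (Or.inr (Or.inr (Or.inl rfl))), rfl⟩
          · exact ⟨_, Or.inr (Or.inl rfl), rfl⟩
          · exact ⟨_, Or.inr (Or.inr (Or.inr (Or.inr (Or.inl rfl)))), rfl⟩
          · exact ⟨_, Or.inr (Or.inr (Or.inl rfl)), rfl⟩
          · exact ⟨_, Or.inr (Or.inr (Or.inr (Or.inr (Or.inr rfl)))), rfl⟩
      have h3 : Module.finrank ℝ (Submodule.span ℝ (φ '' {v | v ∈ [aL k, gL k i, gL k (i + 1),
          aL (k + 1), gL (k + 1) i, gL (k + 1) (i + 1)]})) = 4 := h1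
      rw [h2] at h3
      exact h3.ge)
  exact ⟨chRefl Z, ch_bij hZ, hZj⟩

end Pool.Agent.Work.MP_5b14b0_lc
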