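import Pool.Agent.Work.MP_5b14b0_lc.Stmts
import Pool.Agent.Work.MP_5b14b0_lc.Chain

/-!
# Item S3: soundness of the leaf
-/

set_option autoImplicit false

namespace Pool.Agent.Work.MP_5b14b0_lc

open Finset

/-- The vertices common to two different facets span a space of dimension at most three. -/
theorem S3_le3 {Vs : List Lab} {φ : Lab → E} {F G : List Lab} {v : Lab} (hF : Fac Vs φ F)
    (hG : Fac Vs φ G) (hv : v ∈ F) (hv' : v ∉ G) (A : Set E)
    (hA : ∀ x ∈ A, ∃ l, l ∈ F ∧ l ∈ G ∧ φ l = x) :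
    Module.finrank ℝ (Submodule.span ℝ A) ≤ 3 := by
  obtain ⟨hFs, hF4, -⟩ := hF
  obtain ⟨hGs, -, N, -, hN⟩ := hG
  have h1 : Submodule.span ℝ A ≤ Submodule.span ℝ (φ '' {v | v ∈ F}) ⊓ LinearMap.ker N := by
    rw [Submodule.span_le]
    intro x hx
    obtain ⟨l, hl, hl', rfl⟩ := hA x hx
    refine ⟨Submodule.subset_span ⟨l, hl, rfl⟩, ?_⟩
    exact LinearMap.mem_ker.mpr ((hN l (hFs hl)).mpr hl')
  have h2 : Submodule.span ℝ (φ '' {v | v ∈ F}) ⊓ LinearMap.ker N <
      Submodule.span ℝ (φ '' {v | v ∈ F}) := by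
    refine lt_of_le_of_ne inf_le_left fun h => ?_
    have h3 : φ v ∈ Submodule.span ℝ (φ '' {v | v ∈ F}) ⊓ LinearMap.ker N := by
      rw [h]
      exact Submodule.subset_span ⟨v, hv, rfl⟩
    exact hv' ((hN v (hFs hv)).mp (LinearMap.mem_ker.mp h3.2))
  have h4 := Submodule.finrank_lt_finrank_of_lt h2
  have h5 := Submodule.finrank_mono h1
  omega

/-- A facet with at most six vertices has rank four. -/
theorem S3_rank {Vs : List Lab} {φ : Lab → E} {F : List Lab} (hF : Fac Vs φ F) (A : Set E)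
    (hA : ∀ l ∈ F, φ l ∈ A) : 4 ≤ Module.finrank ℝ (Submodule.span ℝ A) := by
  rw [← hF.2.1]
  refine Submodule.finrank_mono (Submodule.span_mono ?_)
  rintro x ⟨l, hl, rfl⟩
  exact hA l hl

/-- Membership in the span of three light vectors. -/
theorem S3_mem3 {x y z u : E} (hx : Light x) (hy : Light y) (hz : Light z) (n1 : NP x y)
    (n2 : NP x z) (n3 : NP y z)
    (d : Module.finrank ℝ (Submodule.span ℝ ({u, x, y, z} : Set E)) ≤ 3) :
    ∃ a b c : ℝ, u = a • x + b • y + c • z := by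
  have h1 : Module.finrank ℝ (Submodule.span ℝ ({x, y, z} : Set E)) = 3 := by
    have hli : LinearIndependent ℝ ![x, y, z] := by
      rw [Fintype.linearIndependent_iff]
      intro g hg
      simp only [Fin.sum_univ_three, Matrix.cons_val_zero, Matrix.cons_val_one,
        Matrix.cons_val_two] at hg
      have hg' : g 0 • x + g 1 • y + g 2 • z = 0 := hg
      have hc : g 2 = 0 := by
        by_contra hc
        apply ch_not_mem hx hy hz n1 n2 n3
        rw [Submodule.mem_span_pair]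
        refine ⟨-(g 0 / g 2), -(g 1 / g 2), ?_⟩
        have e1 : g 2 • z = -(g 0 • x) - g 1 • y := by
          rw [← sub_eq_zero]
          rw [← hg']
          abel
        have e2 : z = (g 2)⁻¹ • (g 2 • z) := by rw [smul_smul, inv_mul_cancel₀ hc, one_smul]
        rw [e2, e1, smul_sub, smul_neg, smul_smul, smul_smul, neg_smul, neg_smul,
          div_eq_inv_mul, div_eq_inv_mul]
        abel
      rw [hc, zero_smul, add_zero] at hg'
      have hli2 : LinearIndependent ℝ ![x, y] := by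
        rw [LinearIndependent.pair_iff' (ch_ne_zero hx)]
        intro c hc
        exact n1 c hc.symm
      obtain ⟨h0, h1⟩ := LinearIndependent.pair_iff.mp hli2 _ _ hg'
      intro i
      fin_cases i
      · exact h0
      · exact h1
      · exact hc
    have h2 := finrank_span_eq_card hli
    have h3 : Set.range ![x, y, z] = ({x, y, z} : Set E) := by
      ext v
      simp only [Set.mem_range, Fin.exists_fin_succ, Set.mem_insert_iff, Set.mem_singleton_iff,
        Matrix.cons_val_zero, Matrix.cons_val_succ, IsEmpty.exists_iff,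
        or_false]
      constructor
      · rintro (h | h | h)
        · exact Or.inl h.symm
        · exact Or.inr (Or.inl h.symm)
        · exact Or.inr (Or.inr h.symm)
      · rintro (h | h | h)
        · exact Or.inl h.symm
        · exact Or.inr (Or.inl h.symm)
        · exact Or.inr (Or.inr h.symm)
    rw [h3] at h2
    simpa using h2
  have h2 : Submodule.span ℝ ({x, y, z} : Set E) = Submodule.span ℝ ({u, x, y, z} : Set E) := by
    refine Submodule.eq_of_le_of_finrank_le (Submodule.span_mono ?_) (by rw [h1]; exact d)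
    intro v hv
    exact Set.mem_insert_of_mem _ hv
  have h3 : u ∈ Submodule.span ℝ ({x, y, z} : Set E) := by
    rw [h2]
    exact Submodule.subset_span (Set.mem_insert _ _)
  obtain ⟨a, b, c, h⟩ := Submodule.mem_span_triple.mp h3
  exact ⟨a, b, c, h.symm⟩

/-- Item S3. -/
theorem claimSL : ClaimSL := by
  intro Vs φ q w k F' hB hF hF' hq hz' hinj hqx hqw hwx
  -- the facets
  have fT : Fac Vs φ [q 0, q 1, q 2, q 3, q 4, q 5, xL k 2 0, xL k 2 1] :=
    hF _ (by simp [fLeafAt])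
  have fA1 : Fac Vs φ [q 0, q 5, xL k 0 0, xL k 0 1, w] := hF _ (by simp [fLeafAt])
  have fA2 : Fac Vs φ [q 2, q 3, xL k 0 0, xL k 0 1, w] := hF _ (by simp [fLeafAt])
  have fC1 : Fac Vs φ [q 0, q 5, xL k 0 0, xL k 0 1, xL k 1 0, xL k 1 1] :=
    hF _ (by simp [fLeafAt])
  have fC2 : Fac Vs φ [q 2, q 3, xL k 0 0, xL k 0 1, xL k 1 0, xL k 1 1] :=
    hF _ (by simp [fLeafAt])
  have fD1 : Fac Vs φ [q 0, q 5, xL k 1 0, xL k 1 1, xL k 2 0, xL k 2 1] :=
    hF _ (by simp [fLeafAt])
  have fD2 : Fac Vs φ [q 2, q 3, xL k 1 0, xL k 1 1, xL k 2 0, xL k 2 1] :=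
    hF _ (by simp [fLeafAt])
  have fE1 : Fac Vs φ [q 1, xL k 0 0, xL k 1 0, xL k 2 0, q 0] := hF _ (by simp [fLeafAt])
  have fE2 : Fac Vs φ [q 1, xL k 0 0, xL k 1 0, xL k 2 0, q 2] := hF _ (by simp [fLeafAt])
  have fE3 : Fac Vs φ [q 4, xL k 0 1, xL k 1 1, xL k 2 1, q 5] := hF _ (by simp [fLeafAt])
  have fE4 : Fac Vs φ [q 4, xL k 0 1, xL k 1 1, xL k 2 1, q 3] := hF _ (by simp [fLeafAt])
  -- labels
  have hqq : ∀ i j, i < 6 → j < 6 → i ≠ j → q i ≠ q j := fun i j hi hj hne h =>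
    hne (hinj i j hi hj h)
  have hxx : ∀ i s j t, (i, s) ≠ (j, t) → xL k i s ≠ xL k j t := by
    intro i s j t hne h
    simp only [xL, Prod.mk.injEq, true_and] at h
    exact hne (Prod.ext h.1 h.2)
  have hxq : ∀ i j s, i < 6 → xL k j s ≠ q i := fun i j s hi h => hqx i j s hi h.symm
  have hwq : ∀ i, i < 6 → w ≠ q i := fun i hi h => hqw i hi h.symm
  have mq : ∀ i, i < 6 → q i ∈ Vs := by
    intro i hi
    refine fT.1 ?_
    interval_cases i <;> simp
  have mx : ∀ j s, j < 3 → s < 2 → xL k j s ∈ Vs := by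
    intro j s hj hs
    interval_cases j
    · refine fC1.1 ?_
      interval_cases s <;> simp
    · refine fC1.1 ?_
      interval_cases s <;> simp
    · refine fD1.1 ?_
      interval_cases s <;> simp
  have lq : ∀ i, i < 6 → Light (φ (q i)) := fun i hi => hB.1 _ (mq i hi)
  have lx : ∀ j s, j < 3 → s < 2 → Light (φ (xL k j s)) := fun j s hj hs => hB.1 _ (mx j s hj hs)
  have nqq : ∀ i j, i < 6 → j < 6 → i ≠ j → NP (φ (q i)) (φ (q j)) := fun i j hi hj hne =>
    hB.2 _ (mq i hi) _ (mq j hj) (hqq i j hi hj hne)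
  have nqx : ∀ i j s, i < 6 → j < 3 → s < 2 → NP (φ (q i)) (φ (xL k j s)) :=
    fun i j s hi hj hs => hB.2 _ (mq i hi) _ (mx j s hj hs) (hqx i j s hi)
  have nxq : ∀ i j s, i < 6 → j < 3 → s < 2 → NP (φ (xL k j s)) (φ (q i)) :=
    fun i j s hi hj hs => hB.2 _ (mx j s hj hs) _ (mq i hi) (hxq i j s hi)
  have nxx : ∀ i s j t, i < 3 → s < 2 → j < 3 → t < 2 → (i, s) ≠ (j, t) →
      NP (φ (xL k i s)) (φ (xL k j t)) := fun i s j t hi hs hj ht hne =>
    hB.2 _ (mx i s hi hs) _ (mx j t hj ht) (hxx i s j t hne)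
  -- intersections of facets
  have dA1 : Module.finrank ℝ (Submodule.span ℝ ({φ (xL k 0 0), φ (xL k 0 1), φ (q 0), φ (q 5)} :
      Set E)) ≤ 3 := by
    refine S3_le3 (v := w) fA1 fC1 (by simp) ?_ _ ?_
    · simp [hwq, hwx]
    · intro x hx
      simp only [Set.mem_insert_iff, Set.mem_singleton_iff] at hx
      rcases hx with rfl | rfl | rfl | rfl
      all_goals exact ⟨_, by simp, by simp, rfl⟩
  have dA2 : Module.finrank ℝ (Submodule.span ℝ ({φ (xL k 0 0), φ (xL k 0 1), φ (q 2), φ (q 3)} :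
      Set E)) ≤ 3 := by
    refine S3_le3 (v := w) fA2 fC2 (by simp) ?_ _ ?_
    · simp [hwq, hwx]
    · intro x hx
      simp only [Set.mem_insert_iff, Set.mem_singleton_iff] at hx
      rcases hx with rfl | rfl | rfl | rfl
      all_goals exact ⟨_, by simp, by simp, rfl⟩
  have dC : Module.finrank ℝ (Submodule.span ℝ ({φ (xL k 0 0), φ (xL k 0 1), φ (xL k 1 0),
      φ (xL k 1 1)} : Set E)) ≤ 3 := by
    refine S3_le3 (v := q 0) fC1 fC2 (by simp) ?_ _ ?_
    · simp [hqq, hqx]
    · intro x hx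
      simp only [Set.mem_insert_iff, Set.mem_singleton_iff] at hx
      rcases hx with rfl | rfl | rfl | rfl
      all_goals exact ⟨_, by simp, by simp, rfl⟩
  have dCD1 : Module.finrank ℝ (Submodule.span ℝ ({φ (q 0), φ (q 5), φ (xL k 1 0),
      φ (xL k 1 1)} : Set E)) ≤ 3 := by
    refine S3_le3 (v := xL k 0 0) fC1 fD1 (by simp) ?_ _ ?_
    · simp [hxq, hxx]
    · intro x hx
      simp only [Set.mem_insert_iff, Set.mem_singleton_iff] at hx
      rcases hx with rfl | rfl | rfl | rfl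
      all_goals exact ⟨_, by simp, by simp, rfl⟩
  have dCD2 : Module.finrank ℝ (Submodule.span ℝ ({φ (q 2), φ (q 3), φ (xL k 1 0),
      φ (xL k 1 1)} : Set E)) ≤ 3 := by
    refine S3_le3 (v := xL k 0 0) fC2 fD2 (by simp) ?_ _ ?_
    · simp [hxq, hxx]
    · intro x hx
      simp only [Set.mem_insert_iff, Set.mem_singleton_iff] at hx
      rcases hx with rfl | rfl | rfl | rfl
      all_goals exact ⟨_, by simp, by simp, rfl⟩
  have dDT : Module.finrank ℝ (Submodule.span ℝ ({φ (q 0), φ (q 5), φ (xL k 2 0),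
      φ (xL k 2 1)} : Set E)) ≤ 3 := by
    refine S3_le3 (v := xL k 1 0) fD1 fT (by simp) ?_ _ ?_
    · simp [hxq, hxx]
    · intro x hx
      simp only [Set.mem_insert_iff, Set.mem_singleton_iff] at hx
      rcases hx with rfl | rfl | rfl | rfl
      all_goals exact ⟨_, by simp, by simp, rfl⟩
  have dD : Module.finrank ℝ (Submodule.span ℝ ({φ (xL k 1 0), φ (xL k 1 1), φ (xL k 2 0),
      φ (xL k 2 1)} : Set E)) ≤ 3 := by
    refine S3_le3 (v := q 0) fD1 fD2 (by simp) ?_ _ ?_
    · simp [hqq, hqx]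
    · intro x hx
      simp only [Set.mem_insert_iff, Set.mem_singleton_iff] at hx
      rcases hx with rfl | rfl | rfl | rfl
      all_goals exact ⟨_, by simp, by simp, rfl⟩
  have dE : Module.finrank ℝ (Submodule.span ℝ ({φ (q 1), φ (xL k 0 0), φ (xL k 1 0),
      φ (xL k 2 0)} : Set E)) ≤ 3 := by
    refine S3_le3 (v := q 0) fE1 fE2 (by simp) ?_ _ ?_
    · simp [hqq, hqx]
    · intro x hx
      simp only [Set.mem_insert_iff, Set.mem_singleton_iff] at hx
      rcases hx with rfl | rfl | rfl | rfl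
      all_goals exact ⟨_, by simp, by simp, rfl⟩
  have dE' : Module.finrank ℝ (Submodule.span ℝ ({φ (q 4), φ (xL k 0 1), φ (xL k 1 1),
      φ (xL k 2 1)} : Set E)) ≤ 3 := by
    refine S3_le3 (v := q 5) fE3 fE4 (by simp) ?_ _ ?_
    · simp [hqq, hqx]
    · intro x hx
      simp only [Set.mem_insert_iff, Set.mem_singleton_iff] at hx
      rcases hx with rfl | rfl | rfl | rfl
      all_goals exact ⟨_, by simp, by simp, rfl⟩
  -- concurrency
  have sA := chain_step (lx 0 0 (by norm_num) (by norm_num)) (lx 0 1 (by norm_num) (by norm_num))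
    (lq 0 (by norm_num)) (lq 5 (by norm_num)) (lx 1 0 (by norm_num) (by norm_num))
    (nxx 0 0 0 1 (by norm_num) (by norm_num) (by norm_num) (by norm_num) (by simp))
    (nqq 0 5 (by norm_num) (by norm_num) (by norm_num))
    (nxx 1 0 1 1 (by norm_num) (by norm_num) (by norm_num) (by norm_num) (by simp))
    (nxq 0 0 0 (by norm_num) (by norm_num) (by norm_num))
    (nxq 0 0 1 (by norm_num) (by norm_num) (by norm_num))
    (nxx 0 0 1 0 (by norm_num) (by norm_num) (by norm_num) (by norm_num) (by simp))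
    (nxx 0 1 1 0 (by norm_num) (by norm_num) (by norm_num) (by norm_num) (by simp))
    (nqx 0 1 0 (by norm_num) (by norm_num) (by norm_num))
    (nqx 5 1 0 (by norm_num) (by norm_num) (by norm_num)) dA1 dC dCD1
    (S3_rank fC1 _ (by
      intro l hl
      simp only [List.mem_cons, List.not_mem_nil, or_false] at hl
      rcases hl with rfl | rfl | rfl | rfl | rfl | rfl <;> simp))
  have sB := chain_step (lx 0 0 (by norm_num) (by norm_num)) (lx 0 1 (by norm_num) (by norm_num))
    (lq 2 (by norm_num)) (lq 3 (by norm_num)) (lx 1 0 (by norm_num) (by norm_num))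
    (nxx 0 0 0 1 (by norm_num) (by norm_num) (by norm_num) (by norm_num) (by simp))
    (nqq 2 3 (by norm_num) (by norm_num) (by norm_num))
    (nxx 1 0 1 1 (by norm_num) (by norm_num) (by norm_num) (by norm_num) (by simp))
    (nxq 2 0 0 (by norm_num) (by norm_num) (by norm_num))
    (nxq 2 0 1 (by norm_num) (by norm_num) (by norm_num))
    (nxx 0 0 1 0 (by norm_num) (by norm_num) (by norm_num) (by norm_num) (by simp))
    (nxx 0 1 1 0 (by norm_num) (by norm_num) (by norm_num) (by norm_num) (by simp))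
    (nqx 2 1 0 (by norm_num) (by norm_num) (by norm_num))
    (nqx 3 1 0 (by norm_num) (by norm_num) (by norm_num)) dA2 dC dCD2
    (S3_rank fC2 _ (by
      intro l hl
      simp only [List.mem_cons, List.not_mem_nil, or_false] at hl
      rcases hl with rfl | rfl | rfl | rfl | rfl | rfl <;> simp))
  have sC := chain_step (lq 0 (by norm_num)) (lq 5 (by norm_num))
    (lx 1 0 (by norm_num) (by norm_num)) (lx 1 1 (by norm_num) (by norm_num))
    (lx 2 0 (by norm_num) (by norm_num))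
    (nqq 0 5 (by norm_num) (by norm_num) (by norm_num))
    (nxx 1 0 1 1 (by norm_num) (by norm_num) (by norm_num) (by norm_num) (by simp))
    (nxx 2 0 2 1 (by norm_num) (by norm_num) (by norm_num) (by norm_num) (by simp))
    (nqx 0 1 0 (by norm_num) (by norm_num) (by norm_num))
    (nqx 5 1 0 (by norm_num) (by norm_num) (by norm_num))
    (nqx 0 2 0 (by norm_num) (by norm_num) (by norm_num))
    (nqx 5 2 0 (by norm_num) (by norm_num) (by norm_num))
    (nxx 1 0 2 0 (by norm_num) (by norm_num) (by norm_num) (by norm_num) (by simp))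
    (nxx 1 1 2 0 (by norm_num) (by norm_num) (by norm_num) (by norm_num) (by simp)) dCD1 dDT dD
    (S3_rank fD1 _ (by
      intro l hl
      simp only [List.mem_cons, List.not_mem_nil, or_false] at hl
      rcases hl with rfl | rfl | rfl | rfl | rfl | rfl <;> simp))
  obtain ⟨X, hX, hX0⟩ := chain_pt (lx 0 0 (by norm_num) (by norm_num)) (lq 0 (by norm_num))
    (nxx 0 0 0 1 (by norm_num) (by norm_num) (by norm_num) (by norm_num) (by simp))
    (nqq 0 5 (by norm_num) (by norm_num) (by norm_num)) dA1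
  have hXx : X ∈ sp2 (φ (xL k 0 0)) (φ (xL k 0 1)) := hX.1
  have hX05 : X ∈ sp2 (φ (q 0)) (φ (q 5)) := hX.2
  have hXy : X ∈ sp2 (φ (xL k 1 0)) (φ (xL k 1 1)) := by
    rw [sA] at hX
    exact hX.2
  have hX23 : X ∈ sp2 (φ (q 2)) (φ (q 3)) := by
    have h1 : X ∈ sp2 (φ (xL k 0 0)) (φ (xL k 0 1)) ⊓ sp2 (φ (xL k 1 0)) (φ (xL k 1 1)) :=
      ⟨hXx, hXy⟩
    rw [← sB] at h1
    exact h1.2
  have hXz : X ∈ sp2 (φ (xL k 2 0)) (φ (xL k 2 1)) := by
    have h1 : X ∈ sp2 (φ (q 0)) (φ (q 5)) ⊓ sp2 (φ (xL k 1 0)) (φ (xL k 1 1)) := ⟨hX05, hXy⟩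
    rw [sC] at h1
    exact h1.2
  -- the reflection
  have hsym : ∀ u v : E, sp2 u v = sp2 v u := fun u v => by
    unfold sp2
    rw [Set.pair_comm]
  have hrefl : ∀ j, j < 3 → X ∈ sp2 (φ (xL k j 0)) (φ (xL k j 1)) →
      B X X ≠ 0 ∧ ∃ c : ℝ, c ≠ 0 ∧ refl X (φ (xL k j 1)) = c • φ (xL k j 0) := by
    intro j hj hXj
    refine chain_refl (lq 0 (by norm_num)) (lq 5 (by norm_num)) (lx j 1 hj (by norm_num))
      (lx j 0 hj (by norm_num)) (nqq 0 5 (by norm_num) (by norm_num) (by norm_num))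
      (nxx j 1 j 0 hj (by norm_num) hj (by norm_num) (by simp))
      (nqx 0 j 1 (by norm_num) hj (by norm_num)) (nqx 5 j 1 (by norm_num) hj (by norm_num))
      (nqx 0 j 0 (by norm_num) hj (by norm_num)) (nqx 5 j 0 (by norm_num) hj (by norm_num))
      hX0 hX05 ?_
    rw [hsym]
    exact hXj
  obtain ⟨hXX, cx, -, rx⟩ := hrefl 0 (by norm_num) hXx
  obtain ⟨-, cy, -, ry⟩ := hrefl 1 (by norm_num) hXy
  obtain ⟨-, cz, -, rz⟩ := hrefl 2 (by norm_num) hXz
  -- the two planes
  obtain ⟨a, b, c, e1⟩ := S3_mem3 (lx 0 0 (by norm_num) (by norm_num))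
    (lx 1 0 (by norm_num) (by norm_num)) (lx 2 0 (by norm_num) (by norm_num))
    (nxx 0 0 1 0 (by norm_num) (by norm_num) (by norm_num) (by norm_num) (by simp))
    (nxx 0 0 2 0 (by norm_num) (by norm_num) (by norm_num) (by norm_num) (by simp))
    (nxx 1 0 2 0 (by norm_num) (by norm_num) (by norm_num) (by norm_num) (by simp)) dE
  obtain ⟨a', b', c', e4⟩ := S3_mem3 (lx 0 1 (by norm_num) (by norm_num))
    (lx 1 1 (by norm_num) (by norm_num)) (lx 2 1 (by norm_num) (by norm_num))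
    (nxx 0 1 1 1 (by norm_num) (by norm_num) (by norm_num) (by norm_num) (by simp))
    (nxx 0 1 2 1 (by norm_num) (by norm_num) (by norm_num) (by norm_num) (by simp))
    (nxx 1 1 2 1 (by norm_num) (by norm_num) (by norm_num) (by norm_num) (by simp)) dE'
  -- the image of `q 4`
  have e5 : refl X (φ (q 4)) = (a' * cx) • φ (xL k 0 0) + (b' * cy) • φ (xL k 1 0) +
      (c' * cz) • φ (xL k 2 0) := by
    rw [← chRefl_apply, e4, map_add, map_add, map_smul, map_smul, map_smul, chRefl_apply,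
      chRefl_apply, chRefl_apply, rx, ry, rz, smul_smul, smul_smul, smul_smul]
  obtain ⟨p, r, hpr⟩ := Submodule.mem_span_pair.mp hX05
  -- functionals vanishing on the hexagon
  have hvan : ∀ N : Du, (∀ i, i < 6 → N (φ (q i)) = 0) → N (refl X (φ (q 4))) = 0 := by
    intro N hN
    have h1 : N X = 0 := by
      rw [← hpr, map_add, map_smul, map_smul, hN 0 (by norm_num), hN 5 (by norm_num)]
      simp
    unfold refl
    rw [map_sub, map_smul, h1, hN 4 (by norm_num)]
    simp
  obtain ⟨-, -, N1, hN1, hN1'⟩ := fT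
  obtain ⟨-, -, N2, hN2, hN2'⟩ := hF'
  have v1 : ∀ i, i < 6 → N1 (φ (q i)) = 0 := fun i hi => by
    refine (hN1' _ (mq i hi)).mpr ?_
    interval_cases i <;> simp
  have v2 : ∀ i, i < 6 → N2 (φ (q i)) = 0 := fun i hi => (hN2' _ (mq i hi)).mpr (hq i hi)
  have v3 : N1 (φ (xL k 2 0)) = 0 :=
    (hN1' _ (mx 2 0 (by norm_num) (by norm_num))).mpr (by simp)
  have v4 : N1 (φ (xL k 0 0)) ≠ 0 := fun h => by
    have h1 := (hN1' _ (mx 0 0 (by norm_num) (by norm_num))).mp h
    simp [hxq, hxx] at h1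
  have v5 : N1 (φ (xL k 1 0)) ≠ 0 := fun h => by
    have h1 := (hN1' _ (mx 1 0 (by norm_num) (by norm_num))).mp h
    simp [hxq, hxx] at h1
  have v6 : N2 (φ (xL k 2 0)) ≠ 0 := fun h =>
    hz' ((hN2' _ (mx 2 0 (by norm_num) (by norm_num))).mp h)
  have w1 : a * N1 (φ (xL k 0 0)) + b * N1 (φ (xL k 1 0)) = 0 := by
    have h1 := v1 1 (by norm_num)
    rw [e1, map_add, map_add, map_smul, map_smul, map_smul, v3] at h1
    simpa using h1
  have w2 : (a' * cx) * N1 (φ (xL k 0 0)) + (b' * cy) * N1 (φ (xL k 1 0)) = 0 := by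
    have h1 := hvan N1 v1
    rw [e5, map_add, map_add, map_smul, map_smul, map_smul, v3] at h1
    simpa using h1
  have ha : a ≠ 0 := by
    rintro rfl
    rw [zero_mul, zero_add] at w1
    have hb : b = 0 := (mul_eq_zero.mp w1).resolve_right v5
    refine nxq 1 2 0 (by norm_num) (by norm_num) (by norm_num) c ?_
    rw [e1, hb]
    simp
  -- `refl X (φ (q 4))` is a combination of `φ (q 1)` and `φ (xL k 2 0)`
  set ρ : ℝ := a' * cx / a with hρ
  have w3 : b' * cy = ρ * b := by
    have h1 : (b' * cy - ρ * b) * N1 (φ (xL k 1 0)) = 0 := by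
      have h2 : b * N1 (φ (xL k 1 0)) = - (a * N1 (φ (xL k 0 0))) := by linarith
      have h3 : (b' * cy) * N1 (φ (xL k 1 0)) = - ((a' * cx) * N1 (φ (xL k 0 0))) := by linarith
      rw [sub_mul, mul_assoc ρ, h2, h3, hρ]
      field_simp
      ring
    have h2 := (mul_eq_zero.mp h1).resolve_right v5
    linarith
  have e6 : refl X (φ (q 4)) = ρ • φ (q 1) + (c' * cz - ρ * c) • φ (xL k 2 0) := by
    rw [e5, w3, e1, smul_add, smul_add, smul_smul, smul_smul, smul_smul, sub_smul]
    rw [show ρ * a = a' * cx by rw [hρ]; field_simp]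
    abel
  have w4 : c' * cz - ρ * c = 0 := by
    have h1 := hvan N2 v2
    rw [e6, map_add, map_smul, map_smul, v2 1 (by norm_num), smul_zero, zero_add,
      smul_eq_mul] at h1
    exact (mul_eq_zero.mp h1).resolve_right v6
  rw [w4, zero_smul, add_zero] at e6
  -- conclusion
  have hc : 2 * B (φ (q 4)) X / B X X ≠ 0 := by
    intro h0
    unfold refl at e6
    rw [h0, zero_smul, sub_zero] at e6
    exact nqq 1 4 (by norm_num) (by norm_num) (by norm_num) ρ e6
  have e7 : (2 * B (φ (q 4)) X / B X X) • X = φ (q 4) - ρ • φ (q 1) := by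
    unfold refl at e6
    rw [← e6]
    abel
  set γ : ℝ := 2 * B (φ (q 4)) X / B X X with hγ
  obtain ⟨p2, r2, hpr2⟩ := Submodule.mem_span_pair.mp hX23
  refine ⟨X, hX0, ⟨p, r, hpr.symm⟩, ⟨-(γ⁻¹ * ρ), γ⁻¹, ?_⟩, ⟨p2, r2, hpr2.symm⟩⟩
  have e8 : X = γ⁻¹ • (γ • X) := by rw [smul_smul, inv_mul_cancel₀ hc, one_smul]
  rw [e8, e7, smul_sub, smul_smul, neg_smul]
  abel

end Pool.Agent.Work.MP_5b14b0_lc
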