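import Pool.Agent.Work.MP_5b14b0_lc.Stmts

/-!
# Coordinates on the initial polygon
-/

set_option autoImplicit false

namespace Pool.Agent.Work.MP_5b14b0_lc

namespace SLine

theorem B_comm (x y : E) : B x y = B y x := by unfold B; ring
theorem B_add (x y z : E) : B (x + y) z = B x z + B y z := by
  simp only [B, Pi.add_apply]; ring
theorem B_smul (c : ℝ) (x z : E) : B (c • x) z = c * B x z := by
  simp only [B, Pi.smul_apply, smul_eq_mul]; ring
theorem B_zero (z : E) : B 0 z = 0 := by simp [B]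

theorem B_neg {x y : E} (hx : Light x) (hy : Light y) (h : ∀ c : ℝ, y ≠ c • x) : B x y < 0 := by
  by_contra hn
  push Not at hn
  obtain ⟨hx0, hx4⟩ := hx
  obtain ⟨hy0, hy4⟩ := hy
  unfold B at hx0 hy0 hn
  have key : (y 4 * x 0 - x 4 * y 0) ^ 2 + (y 4 * x 1 - x 4 * y 1) ^ 2 +
      (y 4 * x 2 - x 4 * y 2) ^ 2 + (y 4 * x 3 - x 4 * y 3) ^ 2 ≤ 0 := by
    have h1 : (y 4 * x 0 - x 4 * y 0) ^ 2 + (y 4 * x 1 - x 4 * y 1) ^ 2 +
      (y 4 * x 2 - x 4 * y 2) ^ 2 + (y 4 * x 3 - x 4 * y 3) ^ 2 =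
      - (2 * (x 4 * y 4) * (x 0 * y 0 + x 1 * y 1 + x 2 * y 2 + x 3 * y 3 - x 4 * y 4)) := by
      linear_combination (y 4) ^ 2 * hx0 + (x 4) ^ 2 * hy0
    rw [h1]
    have := mul_nonneg (mul_pos hx4 hy4).le hn
    linarith
  have e0 : y 4 * x 0 - x 4 * y 0 = 0 := by
    apply pow_eq_zero_iff (two_ne_zero) |>.1
    nlinarith [sq_nonneg (y 4 * x 0 - x 4 * y 0), sq_nonneg (y 4 * x 1 - x 4 * y 1),
      sq_nonneg (y 4 * x 2 - x 4 * y 2), sq_nonneg (y 4 * x 3 - x 4 * y 3)]
  have e1 : y 4 * x 1 - x 4 * y 1 = 0 := by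
    apply pow_eq_zero_iff (two_ne_zero) |>.1
    nlinarith [sq_nonneg (y 4 * x 0 - x 4 * y 0), sq_nonneg (y 4 * x 1 - x 4 * y 1),
      sq_nonneg (y 4 * x 2 - x 4 * y 2), sq_nonneg (y 4 * x 3 - x 4 * y 3)]
  have e2 : y 4 * x 2 - x 4 * y 2 = 0 := by
    apply pow_eq_zero_iff (two_ne_zero) |>.1
    nlinarith [sq_nonneg (y 4 * x 0 - x 4 * y 0), sq_nonneg (y 4 * x 1 - x 4 * y 1),
      sq_nonneg (y 4 * x 2 - x 4 * y 2), sq_nonneg (y 4 * x 3 - x 4 * y 3)]
  have e3 : y 4 * x 3 - x 4 * y 3 = 0 := by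
    apply pow_eq_zero_iff (two_ne_zero) |>.1
    nlinarith [sq_nonneg (y 4 * x 0 - x 4 * y 0), sq_nonneg (y 4 * x 1 - x 4 * y 1),
      sq_nonneg (y 4 * x 2 - x 4 * y 2), sq_nonneg (y 4 * x 3 - x 4 * y 3)]
  apply h (y 4 / x 4)
  have hne := hx4.ne'
  funext i
  simp only [Pi.smul_apply, smul_eq_mul]
  fin_cases i
  · show y 0 = y 4 / x 4 * x 0
    field_simp
    linarith
  · show y 1 = y 4 / x 4 * x 1
    field_simp
    linarith
  · show y 2 = y 4 / x 4 * x 2
    field_simp
    linarith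
  · show y 3 = y 4 / x 4 * x 3
    field_simp
    linarith
  · show y 4 = y 4 / x 4 * x 4
    field_simp

/-- The real numbers `t k` in a plane with orthogonal coordinates. -/
structure Coord (n : ℕ) (g : ℕ → E) (P Q u : E) (K : ℝ) (t s : ℕ → ℝ) : Prop where
  hK : 0 < K
  pq : B P Q < 0
  pp : B P P = 0
  qq : B Q Q = 0
  uu : 0 < B u u
  pu : B P u = 0
  qu : B Q u = 0
  s0 : ∀ k < n, 0 < s k
  g0 : ∀ k < n, g k = s k • ((K * (hX t n k * hX t n k)) • P + (hY n k * hY n k) • Q +
    (hX t n k * hY n k) • u)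

theorem mem_EdL_succ {n i : ℕ} (h : i + 1 < n) : (i, i + 1) ∈ EdL (List.range n) := by
  simp only [EdL, List.mem_filter, Bool.and_eq_true, Bool.or_eq_true, List.all_eq_true,
    List.mem_range, decide_eq_true_eq]
  refine ⟨List.pair_mem_product.2 ⟨List.mem_range.2 (by omega), List.mem_range.2 h⟩, by omega,
    Or.inl fun k _ => by omega⟩

theorem mem_EdL_last {n : ℕ} (h : 1 < n) : (0, n - 1) ∈ EdL (List.range n) := by
  simp only [EdL, List.mem_filter, Bool.and_eq_true, Bool.or_eq_true, List.all_eq_true,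
    List.mem_range, decide_eq_true_eq]
  refine ⟨List.pair_mem_product.2 ⟨List.mem_range.2 (by omega), List.mem_range.2 (by omega)⟩,
    by omega, Or.inr fun k hk => by omega⟩

/-- The polygon spans a three-dimensional space. -/
theorem finrank_poly {Vs : List Lab} {φ : Lab → E} {n : ℕ} {F' : List Lab}
    (hJ : Fac Vs φ ((List.range n).map (gL 0) ++ [cL])) (hF : Fac Vs φ F')
    (hg : ∀ j, j < n → gL 0 j ∈ F') (hc : cL ∉ F') :
    Module.finrank ℝ (Submodule.span ℝ (φ '' {v | ∃ j < n, v = gL 0 j})) = 3 := by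
  obtain ⟨hJs, hJr, -⟩ := hJ
  obtain ⟨hFs, -, N, hN0, hN⟩ := hF
  set W := Submodule.span ℝ (φ '' {v | ∃ j < n, v = gL 0 j}) with hW
  set V := Submodule.span ℝ (φ '' {v | v ∈ (List.range n).map (gL 0) ++ [cL]}) with hV
  have hcV : cL ∈ Vs := hJs (by simp)
  have hNc : N (φ cL) ≠ 0 := fun h => hc ((hN cL hcV).1 h)
  have hVW : V = W ⊔ Submodule.span ℝ {φ cL} := by
    rw [hV, hW, ← Submodule.span_union]
    congr 1
    ext x
    simp only [Set.mem_image, Set.mem_ofPred_eq, List.mem_append, List.mem_map, List.mem_range,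
      List.mem_singleton, Set.mem_union, Set.mem_singleton_iff]
    constructor
    · rintro ⟨v, hv | hv, rfl⟩
      · obtain ⟨j, hj, rfl⟩ := hv
        exact Or.inl ⟨_, ⟨j, hj, rfl⟩, rfl⟩
      · subst hv
        exact Or.inr rfl
    · rintro (⟨v, ⟨j, hj, rfl⟩, rfl⟩ | rfl)
      · exact ⟨_, Or.inl ⟨j, hj, rfl⟩, rfl⟩
      · exact ⟨cL, Or.inr rfl, rfl⟩
  have hWk : W ≤ LinearMap.ker N := by
    rw [hW, Submodule.span_le]
    rintro x ⟨v, ⟨j, hj, rfl⟩, rfl⟩
    simp only [SetLike.mem_coe, LinearMap.mem_ker]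
    exact (hN _ (hFs (hg j hj))).2 (hg j hj)
  have hlt : W < V := by
    refine lt_of_le_of_ne (by rw [hVW]; exact le_sup_left) fun h => ?_
    have h1 : φ cL ∈ V := by
      rw [hVW]
      exact Submodule.mem_sup_right (Submodule.mem_span_singleton_self _)
    rw [← h] at h1
    exact hNc (LinearMap.mem_ker.1 (hWk h1))
  have h1 : Module.finrank ℝ W < 4 := by
    rw [← hJr]
    exact Submodule.finrank_lt_finrank_of_lt hlt
  have h2 : 4 ≤ Module.finrank ℝ W + 1 := by
    rw [← hJr, hVW]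
    calc Module.finrank ℝ (W ⊔ Submodule.span ℝ {φ cL} : Submodule ℝ E)
        ≤ Module.finrank ℝ W + Module.finrank ℝ (Submodule.span ℝ {φ cL}) :=
          Submodule.finrank_add_le_finrank_add_finrank _ _
      _ ≤ Module.finrank ℝ W + 1 := by
          gcongr
          exact (finrank_span_le_card ({φ cL} : Set E)).trans (by simp)
  omega


theorem span_triple {P Q u : E} (pq : B P Q < 0) (pp : B P P = 0) (qq : B Q Q = 0)
    (uu : 0 < B u u) (pu : B P u = 0) (qu : B Q u = 0) :
    LinearIndependent ℝ ![P, Q, u] := by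
  rw [Fintype.linearIndependent_iff]
  intro c hc
  rw [Fin.sum_univ_three] at hc
  simp only [Matrix.cons_val_zero, Matrix.cons_val_one, Matrix.cons_val_two, Matrix.head_cons,
    Matrix.tail_cons] at hc
  have h1 : B (c 0 • P + c 1 • Q + c 2 • u) P = 0 := by rw [hc, B_zero]
  have h2 : B (c 0 • P + c 1 • Q + c 2 • u) Q = 0 := by rw [hc, B_zero]
  have h3 : B (c 0 • P + c 1 • Q + c 2 • u) u = 0 := by rw [hc, B_zero]
  simp only [B_add, B_smul, pp, qq, pu, qu, B_comm Q P, B_comm u P, B_comm u Q] at h1 h2 h3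
  have e0 : c 0 = 0 := by
    have : c 0 * B P Q = 0 := by linarith
    exact (mul_eq_zero.1 this).resolve_right pq.ne
  have e1 : c 1 = 0 := by
    have : c 1 * B P Q = 0 := by linarith
    exact (mul_eq_zero.1 this).resolve_right pq.ne
  have e2 : c 2 = 0 := by
    have : c 2 * B u u = 0 := by linarith
    exact (mul_eq_zero.1 this).resolve_right uu.ne'
  intro i
  fin_cases i
  · exact e0
  · exact e1
  · exact e2

/-- Existence of coordinates. -/
theorem exists_coord {Vs : List Lab} {φ : Lab → E} {n : ℕ} {F' : List Lab} (hn : 4 ≤ n)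
    (hB : Base Vs φ)
    (hJ : Fac Vs φ ((List.range n).map (gL 0) ++ [cL])) (hF : Fac Vs φ F')
    (hg : ∀ j, j < n → gL 0 j ∈ F') (hc : cL ∉ F') :
    ∃ (P Q u : E) (K : ℝ) (t s : ℕ → ℝ), Coord n (fun j => φ (gL 0 j)) P Q u K t s ∧ t 0 = 0 := by
  have hVs : ∀ j, j < n → gL 0 j ∈ Vs := fun j hj => hF.1 (hg j hj)
  have hlight : ∀ j, j < n → Light (φ (gL 0 j)) := fun j hj => hB.1 _ (hVs j hj)
  have hneg : ∀ i j, i < n → j < n → i ≠ j → B (φ (gL 0 i)) (φ (gL 0 j)) < 0 := by
    intro i j hi hj hij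
    refine B_neg (hlight i hi) (hlight j hj) (hB.2 _ (hVs i hi) _ (hVs j hj) ?_)
    intro h
    apply hij
    simpa [gL] using h
  set W := Submodule.span ℝ (φ '' {v | ∃ j < n, v = gL 0 j}) with hW
  have hfin : Module.finrank ℝ W = 3 := finrank_poly hJ hF hg hc
  have hgW : ∀ j, j < n → φ (gL 0 j) ∈ W := fun j hj =>
    Submodule.subset_span ⟨_, ⟨j, hj, rfl⟩, rfl⟩
  set P := φ (gL 0 (n - 1)) with hP
  set Q := φ (gL 0 0) with hQ
  set R := φ (gL 0 1) with hR
  have pq : B P Q < 0 := hneg _ _ (by omega) (by omega) (by omega)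
  have pr : B P R < 0 := hneg _ _ (by omega) (by omega) (by omega)
  have qr : B Q R < 0 := hneg _ _ (by omega) (by omega) (by omega)
  have pp : B P P = 0 := (hlight _ (by omega)).1
  have qq : B Q Q = 0 := (hlight _ (by omega)).1
  have rr : B R R = 0 := (hlight _ (by omega)).1
  set u : E := R + (-(B Q R / B P Q)) • P + (-(B P R / B P Q)) • Q with hu
  have pu : B P u = 0 := by
    have hpq := pq.ne
    rw [B_comm, hu, B_add, B_add, B_smul, B_smul, pp, B_comm R P, B_comm Q P]
    field_simp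
    ring
  have qu : B Q u = 0 := by
    have hpq := pq.ne
    rw [B_comm, hu, B_add, B_add, B_smul, B_smul, qq, B_comm R Q]
    field_simp
    ring
  have hRu : B R u = -(2 * (B Q R * B P R)) / B P Q := by
    rw [B_comm, hu, B_add, B_add, B_smul, B_smul, rr]
    ring
  have uu : 0 < B u u := by
    have h1 : B u u = B R u := by
      conv_lhs => rw [hu]
      rw [B_add, B_add, B_smul, B_smul, pu, qu]
      ring
    rw [h1, hRu]
    apply div_pos_of_neg_of_neg _ pq
    have := mul_pos_of_neg_of_neg qr pr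
    linarith
  have hli := span_triple pq pp qq uu pu qu
  have huW : u ∈ W := by
    rw [hu]
    exact W.add_mem (W.add_mem (hgW 1 (by omega)) (W.smul_mem _ (hgW _ (by omega))))
      (W.smul_mem _ (hgW _ (by omega)))
  clear_value u
  have hspan : Submodule.span ℝ (Set.range ![P, Q, u]) = W := by
    apply Submodule.eq_of_le_of_finrank_eq
    · rw [Submodule.span_le]
      rintro x ⟨i, rfl⟩
      fin_cases i
      · exact hgW (n - 1) (by omega)
      · exact hgW 0 (by omega)
      · exact huW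
    · rw [finrank_span_eq_card hli, hfin]
      rfl
  have hcomb : ∀ j, j < n → ∃ a b c : ℝ, φ (gL 0 j) = a • P + b • Q + c • u := by
    intro j hj
    have h1 := hgW j hj
    rw [← hspan, Submodule.mem_span_range_iff_exists_fun] at h1
    obtain ⟨c, hc⟩ := h1
    refine ⟨c 0, c 1, c 2, ?_⟩
    rw [← hc, Fin.sum_univ_three]
    simp
  choose! a b c habc using hcomb
  set K : ℝ := -(B u u / (2 * B P Q)) with hK
  have hKpos : 0 < K := by
    rw [hK]
    have : B u u / (2 * B P Q) < 0 := div_neg_of_pos_of_neg uu (by linarith)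
    linarith
  have hb : ∀ j, j < n → j ≠ n - 1 → 0 < b j := by
    intro j hj hj1
    have h1 := hneg j (n - 1) hj (by omega) hj1
    rw [habc j hj, ← hP, B_add, B_add, B_smul, B_smul, B_smul, pp, B_comm Q P, B_comm u P, pu] at h1
    by_contra hcon
    push Not at hcon
    have := mul_nonneg_of_nonpos_of_nonpos hcon pq.le
    linarith
  have ha : ∀ j, j < n → 2 * a j * b j * B P Q + c j ^ 2 * B u u = 0 := by
    intro j hj
    have h1 := (hlight j hj).1
    have h2 : B (φ (gL 0 j)) (φ (gL 0 j)) = a j * B P (φ (gL 0 j)) + b j * B Q (φ (gL 0 j)) +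
        c j * B u (φ (gL 0 j)) := by
      conv_lhs => rw [habc j hj]
      rw [B_add, B_add, B_smul, B_smul, B_smul, ← habc j hj]
    rw [h1, B_comm P (φ _), B_comm Q (φ _), B_comm u (φ _), habc j hj] at h2
    simp only [B_add, B_smul, pp, qq, pu, qu, B_comm Q P, B_comm u P, B_comm u Q] at h2
    linarith
  refine ⟨P, Q, u, K, fun k => c k / b k, fun k => if k + 1 = n then K⁻¹ else b k,
    ⟨hKpos, pq, pp, qq, uu, pu, qu, ?_, ?_⟩, ?_⟩
  · intro k hk
    by_cases h : k + 1 = n
    · rw [if_pos h]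
      positivity
    · rw [if_neg h]
      exact hb k hk (by omega)
  · intro k hk
    by_cases h : k + 1 = n
    · have hk1 : k = n - 1 := by omega
      simp only [hX, hY, if_pos h]
      rw [hk1, ← hP]
      simp only [mul_one, mul_zero, zero_smul, add_zero]
      rw [smul_smul, inv_mul_cancel₀ hKpos.ne', one_smul]
    · simp only [hX, hY, if_neg h]
      have hbk := (hb k hk (by omega)).ne'
      conv_lhs => rw [habc k hk]
      rw [smul_add, smul_add, smul_smul, smul_smul, smul_smul]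
      have e1 : b k * (K * (c k / b k * (c k / b k))) = a k := by
        rw [hK]
        have := ha k hk
        have hpq := pq.ne
        field_simp
        linarith
      have e2 : b k * (c k / b k * 1) = c k := by field_simp
      have e3 : b k * (1 * 1) = b k := by ring
      rw [e1, e2, e3]
  · have h0 := habc 0 (by omega)
    have h1 : B Q u = c 0 * B u u := by
      conv_lhs => rw [hQ, h0]
      rw [B_add, B_add, B_smul, B_smul, B_smul, pu, qu]
      ring
    rw [qu] at h1
    have : c 0 = 0 := (mul_eq_zero.1 h1.symm).resolve_right uu.ne'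
    simp [this]


theorem Coord.neg {n : ℕ} {g : ℕ → E} {P Q u : E} {K : ℝ} {t s : ℕ → ℝ}
    (h : Coord n g P Q u K t s) : Coord n g P Q (-u) K (fun k => - t k) s := by
  have hneg : ∀ x y : E, B x (-y) = - B x y := fun x y => by
    simp only [B, Pi.neg_apply]; ring
  have hneg' : ∀ x y : E, B (-x) y = - B x y := fun x y => by
    simp only [B, Pi.neg_apply]; ring
  refine ⟨h.hK, h.pq, h.pp, h.qq, by rw [hneg, hneg', neg_neg]; exact h.uu,
    by rw [hneg, h.pu, neg_zero], by rw [hneg, h.qu, neg_zero], h.s0, fun k hk => ?_⟩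
  rw [h.g0 k hk]
  by_cases hk1 : k + 1 = n
  · simp [hX, hY, hk1]
  · simp [hX, hY, hk1]

/-- The value of a functional on the curve. -/
theorem Coord.val {n : ℕ} {g : ℕ → E} {P Q u : E} {K : ℝ} {t s : ℕ → ℝ}
    (h : Coord n g P Q u K t s) (N : Du) {k : ℕ} (hk : k + 1 < n) :
    N (g k) = s k * (K * N P * t k ^ 2 + N u * t k + N Q) := by
  rw [h.g0 k (by omega)]
  have hk1 : ¬ k + 1 = n := by omega
  simp only [hX, hY, if_neg hk1, map_smul, map_add, smul_eq_mul]
  ring

theorem Coord.valP {n : ℕ} {g : ℕ → E} {P Q u : E} {K : ℝ} {t s : ℕ → ℝ}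
    (h : Coord n g P Q u K t s) (N : Du) (hn : 0 < n) :
    N (g (n - 1)) = s (n - 1) * (K * N P) := by
  rw [h.g0 (n - 1) (by omega)]
  have hk1 : n - 1 + 1 = n := by omega
  simp only [hX, hY, if_pos hk1, map_smul, map_add, smul_eq_mul]
  ring

/-- Sign condition for an edge `(i, i+1)`. -/
theorem edge_sign {n : ℕ} {g : ℕ → E} {P Q u : E} {K : ℝ} {t s : ℕ → ℝ}
    (h : Coord n g P Q u K t s) (N : Du) {i j : ℕ} (hi : i + 1 < n) (hj : j + 1 < n)
    (hij : t i ≠ t j) (hNi : N (g i) = 0) (hNj : N (g j) = 0) (hNl : 0 < N (g (n - 1)))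
    {k : ℕ} (hk : k + 1 < n) (hNk : 0 < N (g k)) : 0 < (t k - t i) * (t k - t j) := by
  rw [h.val N hi] at hNi
  rw [h.val N hj] at hNj
  rw [h.val N hk] at hNk
  rw [h.valP N (by omega)] at hNl
  have hsi := h.s0 i (by omega)
  have hsj := h.s0 j (by omega)
  have hsk := h.s0 k (by omega)
  have hsl := h.s0 (n - 1) (by omega)
  have hA : 0 < K * N P := (mul_pos_iff_of_pos_left hsl).1 hNl
  have e1 := (mul_eq_zero.1 hNi).resolve_left hsi.ne'
  have e2 := (mul_eq_zero.1 hNj).resolve_left hsj.ne'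
  have e3 : 0 < K * N P * t k ^ 2 + N u * t k + N Q := (mul_pos_iff_of_pos_left hsk).1 hNk
  have e4 : (t i - t j) * (K * N P * (t i + t j) + N u) = 0 := by linear_combination e1 - e2
  have e5 := (mul_eq_zero.1 e4).resolve_left (sub_ne_zero.2 hij)
  have e6 : K * N P * t k ^ 2 + N u * t k + N Q = K * N P * ((t k - t i) * (t k - t j)) := by
    linear_combination e1 + (t k - t i) * e5
  rw [e6] at e3
  exact (mul_pos_iff_of_pos_left hA).1 e3

end SLine

open SLine in
theorem claimSLine : ClaimSLine := by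
  intro Vs φ n hs F' hn hB hfac hF hg hc hhs hrel
  have hJ : Fac Vs φ ((List.range n).map (gL 0) ++ [cL]) := hfac _ (by simp [fInit])
  obtain ⟨P, Q, u, K, t, s, hC, ht0⟩ := exists_coord hn hB hJ hF hg hc
  have hVs : ∀ j, j < n → gL 0 j ∈ Vs := fun j hj => hF.1 (hg j hj)
  -- functionals of the edges
  have hedge : ∀ e ∈ EdL (List.range n), ∃ N : Du, (∀ j, j < n → j ≠ e.1 → j ≠ e.2 →
      0 < N (φ (gL 0 j))) ∧ (e.1 < n → N (φ (gL 0 e.1)) = 0) ∧
      (e.2 < n → N (φ (gL 0 e.2)) = 0) := by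
    intro e he
    obtain ⟨-, -, N, hN0, hN⟩ := hfac [aL 0, cL, gL 0 e.1, gL 0 e.2] (by
      simp only [fInit, List.mem_cons, List.mem_map]
      exact Or.inr ⟨e, he, rfl⟩)
    refine ⟨N, fun j hj h1 h2 => ?_, fun h => (hN _ (hVs _ h)).2 (by simp),
      fun h => (hN _ (hVs _ h)).2 (by simp)⟩
    refine lt_of_le_of_ne (hN0 _ (hVs j hj)) fun h0 => ?_
    have := (hN _ (hVs j hj)).1 h0.symm
    simp only [List.mem_cons, gL, aL, cL, Prod.mk.injEq, List.not_mem_nil, or_false] at this
    omega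
  -- the values are different
  have hne : ∀ i j, i + 1 < n → j + 1 < n → i ≠ j → t i ≠ t j := by
    intro i j hi hj hij h
    have h1 := hC.g0 i (by omega)
    have h2 := hC.g0 j (by omega)
    have hi1 : ¬ i + 1 = n := by omega
    have hj1 : ¬ j + 1 = n := by omega
    simp only [hX, hY, if_neg hi1] at h1
    simp only [hX, hY, if_neg hj1] at h2
    have hsi := (hC.s0 i (by omega)).ne'
    refine hB.2 _ (hVs i (by omega)) _ (hVs j (by omega)) (by simpa [gL] using hij)
      (s j / s i) ?_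
    rw [h1, h2, h, smul_smul, div_mul_cancel₀ _ hsi]
  -- all values are on one side of `t 0`
  have hside : (∀ k, 1 ≤ k → k + 1 < n → 0 < t k) ∨ (∀ k, 1 ≤ k → k + 1 < n → t k < 0) := by
    obtain ⟨N, hN1, hN2, hN3⟩ := hedge (0, n - 1) (mem_EdL_last (by omega))
    have h2 := hN2 (by show 0 < n; omega)
    have h3 := hN3 (by show n - 1 < n; omega)
    simp only at h2 h3
    rw [hC.val N (by omega), ht0] at h2
    rw [hC.valP N (by omega)] at h3
    have e3 : K * N P = 0 := (mul_eq_zero.1 h3).resolve_left (hC.s0 _ (by omega)).ne'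
    have e2 : N Q = 0 := by
      have := (mul_eq_zero.1 h2).resolve_left (hC.s0 0 (by omega)).ne'
      simpa using this
    have key : ∀ k, 1 ≤ k → k + 1 < n → 0 < N u * t k := by
      intro k hk1 hk2
      have h4 := hN1 k (by omega) (by show k ≠ 0; omega) (by show k ≠ n - 1; omega)
      rw [hC.val N hk2, e3, e2] at h4
      have := (mul_pos_iff_of_pos_left (hC.s0 k (by omega))).1 h4
      linarith
    rcases lt_trichotomy (N u) 0 with h | h | h
    · right
      intro k hk1 hk2
      by_contra hcon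
      push Not at hcon
      have := mul_nonpos_of_nonpos_of_nonneg h.le hcon
      linarith [key k hk1 hk2]
    · have := key 1 le_rfl (by omega)
      rw [h] at this
      linarith
    · left
      intro k hk1 hk2
      exact (mul_pos_iff_of_pos_left h).1 (key k hk1 hk2)
  -- wlog positive
  obtain ⟨u', t', hC', ht0', hne', hpos⟩ : ∃ (u' : E) (t' : ℕ → ℝ),
      Coord n (fun j => φ (gL 0 j)) P Q u' K t' s ∧ t' 0 = 0 ∧
      (∀ i j, i + 1 < n → j + 1 < n → i ≠ j → t' i ≠ t' j) ∧
      (∀ k, 1 ≤ k → k + 1 < n → 0 < t' k) := by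
    rcases hside with h | h
    · exact ⟨u, t, hC, ht0, hne, h⟩
    · refine ⟨-u, fun k => -t k, hC.neg, by simp [ht0], fun i j hi hj hij h1 => ?_,
        fun k h1 h2 => by have := h k h1 h2; linarith⟩
      exact hne i j hi hj hij (neg_injective h1)
  have hstep : ∀ i, i + 2 < n → t' i < t' (i + 1) := by
    intro i
    induction i with
    | zero =>
      intro h
      rw [ht0']
      exact hpos 1 le_rfl (by omega)
    | succ i ih =>
      intro h
      have h0 := ih (by omega)
      obtain ⟨N, hN1, hN2, hN3⟩ := hedge (i, i + 1) (mem_EdL_succ (by omega))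
      obtain ⟨M, hM1, hM2, hM3⟩ := hedge (i + 1, i + 1 + 1) (mem_EdL_succ (by omega))
      have a1 := edge_sign hC' N (i := i) (j := i + 1) (by omega) (by omega)
        (hne' _ _ (by omega) (by omega) (by omega)) (hN2 (by show i < n; omega))
        (hN3 (by show i + 1 < n; omega))
        (hN1 (n - 1) (by omega) (by show n - 1 ≠ i; omega) (by show n - 1 ≠ i + 1; omega))
        (k := i + 1 + 1) (by omega)
        (hN1 (i + 1 + 1) (by omega) (by show i + 1 + 1 ≠ i; omega)
          (by show i + 1 + 1 ≠ i + 1; omega))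
      have a2 := edge_sign hC' M (i := i + 1) (j := i + 1 + 1) (by omega) (by omega)
        (hne' _ _ (by omega) (by omega) (by omega)) (hM2 (by show i + 1 < n; omega))
        (hM3 (by show i + 1 + 1 < n; omega))
        (hM1 (n - 1) (by omega) (by show n - 1 ≠ i + 1; omega)
          (by show n - 1 ≠ i + 1 + 1; omega))
        (k := i) (by omega)
        (hM1 i (by omega) (by show i ≠ i + 1; omega) (by show i ≠ i + 1 + 1; omega))
      have a3 : t' i < t' (i + 1 + 1) := by
        by_contra hcon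
        push Not at hcon
        nlinarith
      by_contra hcon
      push Not at hcon
      nlinarith
  refine ⟨t', ?_, ?_⟩
  · intro i j hij hj
    simp only at hj
    obtain ⟨d, rfl⟩ : ∃ d, j = i + 1 + d := ⟨j - (i + 1), by omega⟩
    clear hij
    induction d with
    | zero => exact hstep i (by omega)
    | succ d ih => exact (ih (by omega)).trans (hstep (i + 1 + d) (by omega))
  · intro h hh
    obtain ⟨X, hX0, ⟨a0, b0, e0⟩, ⟨a1, b1, e1⟩, ⟨a2, b2, e2⟩⟩ := hrel h hh
    obtain ⟨hlen, -, hlt⟩ := hhs h hh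
    have hget : ∀ i, i < 6 → h.getD i 0 < n := by
      intro i hi
      rw [List.getD_eq_getElem _ _ (by omega)]
      exact hlt _ (List.getElem_mem _)
    have hpq := hC'.pq.ne
    have huu := hC'.uu.ne'
    -- coordinates
    have hco : ∀ k, k < n → B (φ (gL 0 k)) Q = s k * (K * (hX t' n k * hX t' n k)) * B P Q ∧
        B (φ (gL 0 k)) P = s k * (hY n k * hY n k) * B P Q ∧
        B (φ (gL 0 k)) u' = s k * (hX t' n k * hY n k) * B u' u' := by
      intro k hk
      have := hC'.g0 k hk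
      rw [this]
      simp only [B_add, B_smul, hC'.pp, hC'.qq, hC'.pu, hC'.qu, B_comm Q P, B_comm u' P,
        B_comm u' Q]
      refine ⟨by ring, by ring, by ring⟩
    set x1 := B X Q / B P Q with hx1
    set x2 := B X P / B P Q with hx2
    set x3 := B X u' / B u' u' with hx3
    have hcoX : ∀ i j, i < n → j < n → ∀ a b : ℝ, X = a • φ (gL 0 i) + b • φ (gL 0 j) →
        x1 = a * (s i * (K * (hX t' n i * hX t' n i))) + b * (s j * (K * (hX t' n j * hX t' n j)))
        ∧ x2 = a * (s i * (hY n i * hY n i)) + b * (s j * (hY n j * hY n j)) ∧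
        x3 = a * (s i * (hX t' n i * hY n i)) + b * (s j * (hX t' n j * hY n j)) := by
      intro i j hi hj a b hXab
      obtain ⟨i1, i2, i3⟩ := hco i hi
      obtain ⟨j1, j2, j3⟩ := hco j hj
      refine ⟨?_, ?_, ?_⟩
      · rw [hx1, hXab, B_add, B_smul, B_smul, i1, j1]
        field_simp
      · rw [hx2, hXab, B_add, B_smul, B_smul, i2, j2]
        field_simp
      · rw [hx3, hXab, B_add, B_smul, B_smul, i3, j3]
        field_simp
    have hXx : X = x1 • P + x2 • Q + x3 • u' := by
      obtain ⟨y1, y2, y3⟩ := hcoX _ _ (hget 0 (by omega)) (hget 5 (by omega)) a0 b0 e0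
      have i1 := hC'.g0 _ (hget 0 (by omega))
      have j1 := hC'.g0 _ (hget 5 (by omega))
      rw [y1, y2, y3, e0]
      show a0 • φ (gL 0 (h.getD 0 0)) + b0 • φ (gL 0 (h.getD 5 0)) = _
      rw [i1, j1]
      module
    have hinv : ∀ i j, i < n → j < n → i ≠ j → ∀ a b : ℝ,
        X = a • φ (gL 0 i) + b • φ (gL 0 j) →
        Inv t' n (-(K * x2)) (K * x3) (-x1) i j := by
      intro i j hi hj hij a b hXab
      obtain ⟨y1, y2, y3⟩ := hcoX i j hi hj a b hXab
      have hD : hX t' n i * hY n j - hX t' n j * hY n i ≠ 0 := by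
        by_cases h1 : i + 1 = n
        · have h2 : ¬ j + 1 = n := by omega
          simp [hX, hY, h1, h2]
        · by_cases h2 : j + 1 = n
          · simp [hX, hY, h1, h2]
          · simp only [hX, hY, if_neg h1, if_neg h2, mul_one]
            exact sub_ne_zero.2 (hne' i j (by omega) (by omega) hij)
      unfold Inv
      apply (mul_eq_zero.1 _).resolve_left hD
      rw [y1, y2, y3]
      ring
    have hnd : h.Nodup := by
      obtain ⟨-, ⟨r, hr⟩, -⟩ := hhs h hh
      exact List.nodup_rotate.1 (hr.imp (fun h => ne_of_lt h))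
    have hdiff : ∀ i j, i < 6 → j < 6 → i ≠ j → h.getD i 0 ≠ h.getD j 0 := by
      intro i j hi hj hij h1
      rw [List.getD_eq_getElem _ _ (by omega), List.getD_eq_getElem _ _ (by omega)] at h1
      exact hij ((List.Nodup.getElem_inj_iff hnd).1 h1)
    refine ⟨-(K * x2), K * x3, -x1, ?_, ?_, ?_, ?_⟩
    · rintro ⟨z1, z2, z3⟩
      have hK := hC'.hK.ne'
      have w1 : x1 = 0 := by linarith
      have w2 : x2 = 0 := by
        have : K * x2 = 0 := by linarith
        exact (mul_eq_zero.1 this).resolve_left hK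
      have w3 : x3 = 0 := (mul_eq_zero.1 z2).resolve_left hK
      apply hX0
      rw [hXx, w1, w2, w3]
      simp
    · exact hinv _ _ (hget 0 (by omega)) (hget 5 (by omega)) (hdiff 0 5 (by omega) (by omega)
        (by omega)) a0 b0 e0
    · exact hinv _ _ (hget 1 (by omega)) (hget 4 (by omega)) (hdiff 1 4 (by omega) (by omega)
        (by omega)) a1 b1 e1
    · exact hinv _ _ (hget 2 (by omega)) (hget 3 (by omega)) (hdiff 2 3 (by omega) (by omega)
        (by omega)) a2 b2 e2

end Pool.Agent.Work.MP_5b14b0_lc
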