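import Pool.Agent.Work.MP_5b14b0_lc.Stmts

/-!
# Item S5: assembly of the soundness direction
-/

set_option autoImplicit false

namespace Pool.Agent.Work.MP_5b14b0_lc

open Finset

/-! ### Equivalence of polygons -/

theorem Tr.rfl' (g : ℕ → E) (S : Finset ℕ) : Tr g g S :=
  ⟨LinearMap.id, Function.bijective_id, fun j _ => ⟨1, one_ne_zero, by simp⟩⟩

theorem Tr.trans' {g g' g'' : ℕ → E} {S : Finset ℕ} (h1 : Tr g g' S) (h2 : Tr g' g'' S) :
    Tr g g'' S := by
  obtain ⟨Θ, hΘ, h1⟩ := h1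
  obtain ⟨Θ', hΘ', h2⟩ := h2
  refine ⟨Θ' ∘ₗ Θ, by rw [LinearMap.coe_comp]; exact hΘ'.comp hΘ, fun j hj => ?_⟩
  obtain ⟨c, hc, e1⟩ := h1 j hj
  obtain ⟨c', hc', e2⟩ := h2 j hj
  refine ⟨c * c', mul_ne_zero hc hc', ?_⟩
  rw [LinearMap.comp_apply, e1, map_smul, e2, smul_smul]

theorem Tr.symm' {g g' : ℕ → E} {S : Finset ℕ} (h1 : Tr g g' S) : Tr g' g S := by
  obtain ⟨Θ, hΘ, h1⟩ := h1
  refine ⟨(LinearEquiv.ofBijective Θ hΘ).symm.toLinearMap,
    (LinearEquiv.ofBijective Θ hΘ).symm.bijective, fun j hj => ?_⟩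
  obtain ⟨c, hc, e1⟩ := h1 j hj
  refine ⟨c⁻¹, inv_ne_zero hc, ?_⟩
  have e2 : g' j = c⁻¹ • Θ (g j) := by rw [e1, smul_smul, inv_mul_cancel₀ hc, one_smul]
  rw [e2, LinearEquiv.coe_coe, map_smul]
  congr 1
  exact (LinearEquiv.ofBijective Θ hΘ).symm_apply_apply (g j)

theorem Tr.mono' {g g' : ℕ → E} {S T : Finset ℕ} (h1 : Tr g g' S) (hT : T ⊆ S) : Tr g g' T := by
  obtain ⟨Θ, hΘ, h1⟩ := h1
  exact ⟨Θ, hΘ, fun j hj => h1 j (hT hj)⟩

theorem HexRel.transport {g g' : ℕ → E} {h : List ℕ} (hlen : h.length = 6)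
    (h1 : Tr g' g h.toFinset) (h2 : HexRel g' h) : HexRel g h := by
  obtain ⟨Θ, hΘ, h1⟩ := h1
  obtain ⟨X, hX, ⟨a, b, e1⟩, ⟨c, d, e2⟩, ⟨e, f, e3⟩⟩ := h2
  have hm : ∀ i, i < 6 → h.getD i 0 ∈ h.toFinset := fun i hi => by
    rw [List.getD_eq_getElem _ _ (by omega), List.mem_toFinset]
    exact List.getElem_mem _
  have key : ∀ i j, i < 6 → j < 6 → (∃ a b : ℝ, X = a • g' (h.getD i 0) + b • g' (h.getD j 0)) →
      ∃ a b : ℝ, Θ X = a • g (h.getD i 0) + b • g (h.getD j 0) := by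
    rintro i j hi hj ⟨a, b, e⟩
    obtain ⟨c, -, hc⟩ := h1 _ (hm i hi)
    obtain ⟨d, -, hd⟩ := h1 _ (hm j hj)
    refine ⟨a * c, b * d, ?_⟩
    rw [e, map_add, map_smul, map_smul, hc, hd, smul_smul, smul_smul]
  refine ⟨Θ X, fun h0 => hX (hΘ.1 (by rw [h0, map_zero])), key 0 5 (by norm_num) (by norm_num)
    ⟨a, b, e1⟩, key 1 4 (by norm_num) (by norm_num) ⟨c, d, e2⟩,
    key 2 3 (by norm_num) (by norm_num) ⟨e, f, e3⟩⟩

/-! ### Lists -/

theorem S5_mem_cpx_init {o : OInst} {F : List Lab} (h : F ∈ fInit o.1) : F ∈ cpx o := by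
  unfold cpx
  simp only [List.mem_append]
  exact Or.inl (Or.inl h)

theorem S5_mem_cpx_main {o : OInst} {F : List Lab} {k : ℕ} (hk : k < o.2.length)
    (h : F ∈ fMain o.1 k) : F ∈ cpx o := by
  unfold cpx
  simp only [List.mem_append, List.mem_flatMap, List.mem_range]
  exact Or.inl (Or.inr ⟨k, hk, Or.inl h⟩)

theorem S5_mem_cpx_branch {o : OInst} {F : List Lab} {k : ℕ} (hk : k < o.2.length)
    (h : F ∈ fBranch o.1 (o.2.getD k []) k) : F ∈ cpx o := by
  unfold cpx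
  simp only [List.mem_append, List.mem_flatMap, List.mem_range]
  exact Or.inl (Or.inr ⟨k, hk, Or.inr h⟩)

theorem S5_mem_branch_ad {n : ℕ} {hx : List ℕ} {k ℓ : ℕ} {F : List Lab} (hl : ℓ < n - 6)
    (h : F ∈ fAd n hx k ℓ) : F ∈ fBranch n hx k := by
  unfold fBranch
  simp only [List.mem_append, List.mem_flatMap, List.mem_range]
  exact Or.inl ⟨ℓ, hl, h⟩

theorem S5_mem_branch_leaf {n : ℕ} {hx : List ℕ} {k : ℕ} {F : List Lab}
    (h : F ∈ fLeafAt (fun i => pol k (n - 6) (hx.getD i 0)) (ap k (n - 6)) k) :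
    F ∈ fBranch n hx k := by
  unfold fBranch
  exact List.mem_append_right _ h

theorem S5_mem_Sl {n : ℕ} {h : List ℕ} {ℓ j : ℕ} (hj : j < n) (hh : j ∈ h) : j ∈ Sl n h ℓ := by
  unfold Sl
  simp only [List.mem_filter, List.mem_range, decide_eq_true_eq]
  refine ⟨hj, fun h1 => ?_⟩
  have h2 := List.mem_of_mem_take h1
  unfold del at h2
  simp only [List.mem_filter, List.mem_range, decide_eq_true_eq] at h2
  exact h2.2 hh

theorem S5_Sl_zero (n : ℕ) (h : List ℕ) : ∀ j, j ∈ Sl n h 0 ↔ j < n := by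
  intro j
  unfold Sl
  simp

theorem S5_pol_zero (k j : ℕ) : pol k 0 j = gL k j := by
  unfold pol
  simp

theorem S5_pol_succ (k ℓ j : ℕ) (hl : ℓ ≠ 0) : pol k ℓ j = (4, k, ℓ, j) := by
  unfold pol
  simp [hl]

theorem S5_spine_mem {n : ℕ} {hx : List ℕ} {k ℓ : ℕ} :
    (Sl n hx ℓ).map (pol k ℓ) ++ (Sl n hx (ℓ + 1)).map (pol k (ℓ + 1)) ∈ fAd n hx k ℓ := by
  unfold fAd
  simp

theorem S5_pol_ne (k ℓ j : ℕ) (l : Lab) (h0 : l.1 ≠ 0) (h4 : l.1 ≠ 4) : pol k ℓ j ≠ l := by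
  unfold pol gL
  split_ifs
  · intro h; rw [← h] at h0; exact h0 rfl
  · intro h; rw [← h] at h4; exact h4 rfl

theorem S5_spine_not_mem {n : ℕ} {hx : List ℕ} {k ℓ : ℕ} {l : Lab} (h0 : l.1 ≠ 0)
    (h4 : l.1 ≠ 4) :
    l ∉ (Sl n hx ℓ).map (pol k ℓ) ++ (Sl n hx (ℓ + 1)).map (pol k (ℓ + 1)) := by
  simp only [List.mem_append, List.mem_map, not_or, not_exists, not_and]
  exact ⟨fun j _ => S5_pol_ne k ℓ j l h0 h4, fun j _ => S5_pol_ne k (ℓ + 1) j l h0 h4⟩

theorem HexOK.nodup' {n : ℕ} {h : List ℕ} (hh : HexOK n h) : h.Nodup := by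
  obtain ⟨-, ⟨r, hr⟩, -⟩ := hh
  have h1 : (h.rotate r).Nodup := hr.imp (fun h => ne_of_lt h)
  exact List.nodup_rotate.mp h1

theorem HexOK.getD_mem {n : ℕ} {h : List ℕ} (hh : HexOK n h) {i : ℕ} (hi : i < 6) :
    h.getD i 0 ∈ h := by
  rw [List.getD_eq_getElem _ _ (by rw [hh.1]; exact hi)]
  exact List.getElem_mem _

theorem HexOK.getD_inj {n : ℕ} {h : List ℕ} (hh : HexOK n h) {i j : ℕ} (hi : i < 6) (hj : j < 6)
    (e : h.getD i 0 = h.getD j 0) : i = j := by
  rw [List.getD_eq_getElem _ _ (by rw [hh.1]; exact hi),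
    List.getD_eq_getElem _ _ (by rw [hh.1]; exact hj)] at e
  exact (hh.nodup'.getElem_inj_iff).mp e

/-! ### The assembly -/

/-- The relation of the hexagon in the last polygon of a branch. -/
theorem S5_branch (hA : ClaimSA) (hL : ClaimSL) {Vs : List Lab} {φ : Lab → E} {n k : ℕ}
    {h : List ℕ} (hn : 7 ≤ n) (hh : HexOK n h) (hB : Base Vs φ)
    (hF : ∀ F ∈ fBranch n h k, Fac Vs φ F) : HexRel (fun j => φ (gL k j)) h := by
  have hTr : ∀ ℓ, ℓ ≤ n - 6 →
      Tr (fun j => φ (pol k 0 j)) (fun j => φ (pol k ℓ j)) h.toFinset := by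
    intro ℓ
    induction ℓ with
    | zero => intro _; exact Tr.rfl' _ _
    | succ ℓ ih =>
      intro hl
      refine (ih (by omega)).trans' ?_
      refine (hA Vs φ n k ℓ h hn hh (by omega) hB fun F hF' => hF F
        (S5_mem_branch_ad (by omega) hF')).mono' ?_
      intro j hj
      rw [List.mem_toFinset] at hj ⊢
      exact S5_mem_Sl (hh.2.2 j hj) hj
  have hn6 : n - 6 ≠ 0 := by omega
  have e7 : n - 7 + 1 = n - 6 := by omega
  have h1 : HexRel (fun j => φ (pol k (n - 6) j)) h := by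
    have hsp : Fac Vs φ ((Sl n h (n - 7)).map (pol k (n - 7)) ++
        (Sl n h (n - 7 + 1)).map (pol k (n - 7 + 1))) :=
      hF _ (S5_mem_branch_ad (by omega) S5_spine_mem)
    have h2 := hL Vs φ (fun i => pol k (n - 6) (h.getD i 0)) (ap k (n - 6)) k _ hB
      (fun F hF' => hF F (S5_mem_branch_leaf hF')) hsp ?_ ?_ ?_ ?_ ?_ ?_
    · exact h2
    · intro i hi
      refine List.mem_append_right _ ?_
      rw [e7]
      exact List.mem_map_of_mem (S5_mem_Sl (hh.2.2 _ (hh.getD_mem hi)) (hh.getD_mem hi))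
    · exact S5_spine_not_mem (by simp [xL]) (by simp [xL])
    · intro i j hi hj e
      simp only [S5_pol_succ _ _ _ hn6, Prod.mk.injEq, true_and] at e
      exact hh.getD_inj hi hj e
    · intro i j s hi
      exact S5_pol_ne _ _ _ _ (by simp [xL]) (by simp [xL])
    · intro i hi
      exact S5_pol_ne _ _ _ _ (by simp [ap, hn6]) (by simp [ap, hn6])
    · intro j s
      simp [ap, hn6, xL]
  have h3 := HexRel.transport hh.1 (hTr (n - 6) le_rfl).symm' h1
  simpa only [S5_pol_zero] using h3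

/-- Item S5. -/
theorem claimSound (hK : ClaimSK) (hA : ClaimSA) (hL : ClaimSL) (hLine : ClaimSLine) :
    ClaimSound := by
  rintro ⟨n, hs⟩ ⟨hn, hhs⟩ ⟨φ, hlight, hprop, hfac⟩
  simp only at hn hhs
  have hB : Base (labs (n, hs)) φ := ⟨hlight, hprop⟩
  have hF : ∀ F ∈ cpx (n, hs), Fac (labs (n, hs)) φ F := hfac
  have hget : ∀ k, k < hs.length → hs.getD k [] ∈ hs := fun k hk => by
    rw [List.getD_eq_getElem _ _ hk]
    exact List.getElem_mem _
  -- the main polygons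
  have hTr : ∀ k, k ≤ hs.length →
      Tr (fun j => φ (gL 0 j)) (fun j => φ (gL k j)) (Finset.range n) := by
    intro k
    induction k with
    | zero => intro _; exact Tr.rfl' _ _
    | succ k ih =>
      intro hk
      refine (ih (by omega)).trans' ?_
      exact hK _ φ n k (by omega) hB fun F hF' => hF F
        (S5_mem_cpx_main (o := (n, hs)) (by simp only; omega) hF')
  -- the relations
  have hrel : ∀ h ∈ hs, HexRel (fun j => φ (gL 0 j)) h := by
    intro h hh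
    obtain ⟨k, hk, e⟩ := List.getElem_of_mem hh
    have e' : hs.getD k [] = h := by rw [List.getD_eq_getElem _ _ hk, e]
    have h1 : HexRel (fun j => φ (gL k j)) h :=
      S5_branch hA hL hn (hhs h hh) hB fun F hF' => hF F
        (S5_mem_cpx_branch (o := (n, hs)) (k := k) (by simpa using hk)
          (by simp only; rw [e']; exact hF'))
    refine HexRel.transport (hhs h hh).1 ((hTr k hk.le).symm'.mono' ?_) h1
    intro j hj
    rw [List.mem_toFinset] at hj
    exact Finset.mem_range.mpr ((hhs h hh).2.2 j hj)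
  -- the coordinates
  have hinit : ∀ F ∈ fInit n, Fac (labs (n, hs)) φ F := fun F hF' =>
    hF F (S5_mem_cpx_init (o := (n, hs)) hF')
  rcases Nat.eq_zero_or_pos hs.length with h0 | hpos
  · refine hLine _ φ n hs ((List.range n).map (gL 0) ++ [aL 0]) (by omega) hB hinit ?_ ?_ ?_
      hhs hrel
    · refine hF _ ?_
      unfold cpx
      simp only [List.mem_append, h0]
      exact Or.inr (List.mem_singleton.mpr rfl)
    · intro j hj
      refine List.mem_append_left _ ?_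
      exact List.mem_map_of_mem (List.mem_range.mpr hj)
    · simp [gL, aL, cL]
  · refine hLine _ φ n hs _ (by omega) hB hinit
      (hF _ (S5_mem_cpx_branch (o := (n, hs)) (k := 0) (by simpa using hpos)
        (S5_mem_branch_ad (ℓ := 0) (by simp only; omega) S5_spine_mem))) ?_ ?_ hhs hrel
    · intro j hj
      refine List.mem_append_left _ ?_
      have h1 : j ∈ Sl n (hs.getD 0 []) 0 := (S5_Sl_zero _ _ _).mpr hj
      have h2 := List.mem_map_of_mem (f := pol 0 0) h1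
      rw [S5_pol_zero] at h2
      exact h2
    · exact S5_spine_not_mem (by simp [cL]) (by simp [cL])

end Pool.Agent.Work.MP_5b14b0_lc
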