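import Pool.Agent.Work.MP_5b14b0_lc.Stmts

/-!
# The standard polygon
-/

set_option autoImplicit false

namespace Pool.Agent.Work.MP_5b14b0_lc

open Finset

/-- The light vector with homogeneous coordinates `(x, y)`. -/
def Std_v (x y : ℝ) : E := ![2 * (x * y), x ^ 2 - y ^ 2, 0, 0, x ^ 2 + y ^ 2]

theorem Std_v0 (x y : ℝ) : Std_v x y 0 = 2 * (x * y) := rfl
theorem Std_v1 (x y : ℝ) : Std_v x y 1 = x ^ 2 - y ^ 2 := rfl
theorem Std_v2 (x y : ℝ) : Std_v x y 2 = 0 := rfl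
theorem Std_v3 (x y : ℝ) : Std_v x y 3 = 0 := rfl
theorem Std_v4 (x y : ℝ) : Std_v x y 4 = x ^ 2 + y ^ 2 := rfl

/-- The coordinate vectors 2 and 3. -/
def Std_e3 : E := ![0, 0, 1, 0, 0]
def Std_e4 : E := ![0, 0, 0, 1, 0]

theorem Std_B3 (x : E) : B x Std_e3 = x 2 := by
  have h0 : Std_e3 0 = 0 := rfl
  have h1 : Std_e3 1 = 0 := rfl
  have h2 : Std_e3 2 = 1 := rfl
  have h3 : Std_e3 3 = 0 := rfl
  have h4 : Std_e3 4 = 0 := rfl
  simp [B, h0, h1, h2, h3, h4]

theorem Std_B4 (x : E) : B x Std_e4 = x 3 := by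
  have h0 : Std_e4 0 = 0 := rfl
  have h1 : Std_e4 1 = 0 := rfl
  have h2 : Std_e4 2 = 0 := rfl
  have h3 : Std_e4 3 = 1 := rfl
  have h4 : Std_e4 4 = 0 := rfl
  simp [B, h0, h1, h2, h3, h4]

/-- The determinant of the coordinates 0, 1, 4. -/
def Std_om (x y z : E) : ℝ :=
  x 0 * (y 1 * z 4 - y 4 * z 1) - x 1 * (y 0 * z 4 - y 4 * z 0) + x 4 * (y 0 * z 1 - y 1 * z 0)

theorem Std_tri : Tri Std_om Std_e3 Std_e4 where
  add := by
    intro x x' y z
    simp only [Std_om, Pi.add_apply]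
    ring
  smul := by
    intro c x y z
    simp only [Std_om, Pi.smul_apply, smul_eq_mul]
    ring
  rot := by
    intro x y z
    simp only [Std_om]
    ring
  swap := by
    intro x y z
    simp only [Std_om]
    ring
  z3 := by
    intro y z
    have h0 : Std_e3 0 = 0 := rfl
    have h1 : Std_e3 1 = 0 := rfl
    have h4 : Std_e3 4 = 0 := rfl
    simp only [Std_om, h0, h1, h4]
    ring
  z4 := by
    intro y z
    have h0 : Std_e4 0 = 0 := rfl
    have h1 : Std_e4 1 = 0 := rfl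
    have h4 : Std_e4 4 = 0 := rfl
    simp only [Std_om, h0, h1, h4]
    ring
  cramer := by
    intro x y z w hx hy hz hw
    have hx2 : x 2 = 0 := by rw [← Std_B3 x]; exact hx.1
    have hx3 : x 3 = 0 := by rw [← Std_B4 x]; exact hx.2
    have hy2 : y 2 = 0 := by rw [← Std_B3 y]; exact hy.1
    have hy3 : y 3 = 0 := by rw [← Std_B4 y]; exact hy.2
    have hz2 : z 2 = 0 := by rw [← Std_B3 z]; exact hz.1
    have hz3 : z 3 = 0 := by rw [← Std_B4 z]; exact hz.2
    have hw2 : w 2 = 0 := by rw [← Std_B3 w]; exact hw.1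
    have hw3 : w 3 = 0 := by rw [← Std_B4 w]; exact hw.2
    funext i
    fin_cases i
    · simp only [Std_om, Pi.add_apply, Pi.smul_apply, smul_eq_mul, Fin.zero_eta, Fin.isValue]
      ring
    · simp only [Std_om, Pi.add_apply, Pi.smul_apply, smul_eq_mul, Fin.mk_one, Fin.isValue]
      ring
    · simp only [Std_om, Pi.add_apply, Pi.smul_apply, smul_eq_mul, Fin.reduceFinMk, hx2, hy2,
        hz2, hw2]
      ring
    · simp only [Std_om, Pi.add_apply, Pi.smul_apply, smul_eq_mul, Fin.reduceFinMk, hx3, hy3,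
        hz3, hw3]
      ring
    · simp only [Std_om, Pi.add_apply, Pi.smul_apply, smul_eq_mul, Fin.reduceFinMk]
      ring

/-- The determinant of three light vectors. -/
theorem Std_om_v (x y x' y' x'' y'' : ℝ) :
    Std_om (Std_v x y) (Std_v x' y') (Std_v x'' y'') =
      4 * ((x' * y - x * y') * (x'' * y' - x' * y'') * (x'' * y - x * y'')) := by
  simp only [Std_om, Std_v0, Std_v1, Std_v4]
  ring

theorem Std_B_v (x y x' y' : ℝ) :
    B (Std_v x y) (Std_v x' y') = -(2 * (x' * y - x * y') ^ 2) := by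
  simp only [B, Std_v0, Std_v1, Std_v2, Std_v3, Std_v4]
  ring

/-- The polygon. -/
noncomputable def Std_g (t : ℕ → ℝ) (n k : ℕ) : E := Std_v (hX t n k) (hY n k)

theorem Std_D {t : ℕ → ℝ} {n : ℕ} (ht : ∀ i j, i < j → j + 1 < n → t i < t j) {i j : ℕ}
    (hij : i < j) (hj : j < n) : 0 < hX t n j * hY n i - hX t n i * hY n j := by
  have hi : ¬ (i + 1 = n) := by omega
  by_cases hjn : j + 1 = n
  · simp [hX, hY, hi, hjn]
  · have h := ht i j hij (by omega)
    simp only [hX, hY, hi, hjn, if_false]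
    linarith

theorem Std_pos (t : ℕ → ℝ) (n k : ℕ) : 0 < hX t n k ^ 2 + hY n k ^ 2 := by
  by_cases hk : k + 1 = n
  · simp [hX, hY, hk]
  · simp only [hX, hY, hk, if_false]
    positivity

theorem Std_light (t : ℕ → ℝ) (n k : ℕ) : Light (Std_g t n k) := by
  refine ⟨?_, ?_⟩
  · rw [Std_g, Std_B_v]
    ring
  · rw [Std_g, Std_v4]
    exact Std_pos t n k

theorem Std_cyc {t : ℕ → ℝ} {n : ℕ} (ht : ∀ i j, i < j → j + 1 < n → t i < t j) :
    Cyc (Std_g t n) (Finset.range n) Std_om Std_e3 Std_e4 where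
  light := fun j _ => Std_light t n j
  inpl := by
    intro j _
    refine ⟨?_, ?_⟩
    · rw [Std_B3]; rfl
    · rw [Std_B4]; rfl
  pos := by
    intro i hi j hj k hk hij hjk
    rw [Std_g, Std_g, Std_g, Std_om_v]
    have hj' : j < n := Finset.mem_range.mp hj
    have hk' : k < n := Finset.mem_range.mp hk
    have h1 := Std_D ht hij hj'
    have h2 := Std_D ht hjk hk'
    have h3 := Std_D ht (hij.trans hjk) hk'
    positivity

/-- The sum of the vectors of the polygon. -/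
noncomputable def Std_G (t : ℕ → ℝ) (n : ℕ) : E := ∑ j ∈ Finset.range n, Std_g t n j

theorem Std_G_apply (t : ℕ → ℝ) (n : ℕ) (i : Fin 5) :
    Std_G t n i = ∑ j ∈ Finset.range n, Std_g t n j i := by
  rw [Std_G, Finset.sum_apply]

theorem Std_B_sum_left (s : Finset ℕ) (f : ℕ → E) (z : E) :
    B (∑ j ∈ s, f j) z = ∑ j ∈ s, B (f j) z := by
  simp only [B, Finset.sum_apply, Finset.sum_mul, Finset.sum_add_distrib, Finset.sum_sub_distrib]

theorem Std_B_comm (x y : E) : B x y = B y x := by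
  simp only [B]; ring

theorem Std_BG {t : ℕ → ℝ} {n : ℕ} (hn : 7 ≤ n) (ht : ∀ i j, i < j → j + 1 < n → t i < t j) :
    B (Std_G t n) (Std_G t n) < 0 := by
  have h1 : B (Std_G t n) (Std_G t n) =
      ∑ i ∈ Finset.range n, ∑ j ∈ Finset.range n, B (Std_g t n i) (Std_g t n j) := by
    rw [show B (Std_G t n) (Std_G t n) =
      B (∑ j ∈ Finset.range n, Std_g t n j) (Std_G t n) from rfl, Std_B_sum_left]
    refine Finset.sum_congr rfl (fun i _ => ?_)
    rw [Std_B_comm, show B (Std_G t n) (Std_g t n i) =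
      B (∑ j ∈ Finset.range n, Std_g t n j) (Std_g t n i) from rfl, Std_B_sum_left]
    refine Finset.sum_congr rfl (fun j _ => ?_)
    rw [Std_B_comm]
  have hle : ∀ i j, B (Std_g t n i) (Std_g t n j) ≤ 0 := by
    intro i j
    rw [Std_g, Std_g, Std_B_v]
    have := sq_nonneg (hX t n j * hY n i - hX t n i * hY n j)
    linarith
  rw [h1]
  have h0 : (0 : ℕ) ∈ Finset.range n := Finset.mem_range.mpr (by omega)
  have h1' : (1 : ℕ) ∈ Finset.range n := Finset.mem_range.mpr (by omega)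
  refine Finset.sum_neg' (fun i _ => Finset.sum_nonpos (fun j _ => hle i j)) ⟨0, h0, ?_⟩
  refine Finset.sum_neg' (fun j _ => hle 0 j) ⟨1, h1', ?_⟩
  rw [Std_g, Std_g, Std_B_v]
  have hD := Std_D ht (show 0 < 1 by omega) (show 1 < n by omega)
  have := pow_pos hD 2
  linarith

/-- The centre. -/
noncomputable def Std_e0 (t : ℕ → ℝ) (n : ℕ) : E :=
  (√(-B (Std_G t n) (Std_G t n)))⁻¹ • Std_G t n

theorem Std_B_smul (a : ℝ) (x : E) : B (a • x) (a • x) = a ^ 2 * B x x := by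
  simp only [B, Pi.smul_apply, smul_eq_mul]; ring

theorem Std_frame {t : ℕ → ℝ} {n : ℕ} (hn : 7 ≤ n)
    (ht : ∀ i j, i < j → j + 1 < n → t i < t j) : Frame (Std_e0 t n) Std_e3 Std_e4 where
  n0 := by
    have h := Std_BG hn ht
    rw [Std_e0, Std_B_smul, inv_pow, Real.sq_sqrt (by linarith), inv_neg, neg_mul,
      inv_mul_cancel₀ h.ne]
  n3 := by rw [Std_B3]; rfl
  n4 := by rw [Std_B4]; rfl
  o03 := by
    rw [Std_B3, Std_e0, Pi.smul_apply, Std_G_apply]
    have : ∀ j ∈ Finset.range n, Std_g t n j 2 = 0 := fun j _ => rfl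
    rw [Finset.sum_eq_zero this, smul_zero]
  o04 := by
    rw [Std_B4, Std_e0, Pi.smul_apply, Std_G_apply]
    have : ∀ j ∈ Finset.range n, Std_g t n j 3 = 0 := fun j _ => rfl
    rw [Finset.sum_eq_zero this, smul_zero]
  o34 := by rw [Std_B4]; rfl
  fut := by
    have h := Std_BG hn ht
    rw [Std_e0, Pi.smul_apply, Std_G_apply, smul_eq_mul]
    refine mul_pos (inv_pos.mpr (Real.sqrt_pos.mpr (by linarith))) ?_
    exact Finset.sum_pos (fun j _ => (Std_light t n j).2) ⟨0, Finset.mem_range.mpr (by omega)⟩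

/-- The chord relation for a pair. -/
theorem Std_pair {t : ℕ → ℝ} {n : ℕ} {α β γ : ℝ} {i j : ℕ}
    (hD : hX t n j * hY n i - hX t n i * hY n j ≠ 0) (h : Inv t n α β γ i j) :
    ∃ a b : ℝ, (![-β, (γ - α) / 2, 0, 0, (γ + α) / 2] : E) = a • Std_g t n i + b • Std_g t n j := by
  obtain ⟨x, hx⟩ : ∃ x, x = hX t n i := ⟨_, rfl⟩
  obtain ⟨y, hy⟩ : ∃ y, y = hY n i := ⟨_, rfl⟩
  obtain ⟨u, hu⟩ : ∃ u, u = hX t n j := ⟨_, rfl⟩
  obtain ⟨v, hv⟩ : ∃ v, v = hY n j := ⟨_, rfl⟩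
  rw [Inv] at h
  rw [Std_g, Std_g]
  rw [← hx, ← hy, ← hu, ← hv] at h hD ⊢
  refine ⟨(γ * v ^ 2 + 2 * β * (u * v) + α * u ^ 2) / (2 * (u * y - x * v) ^ 2),
    (γ * y ^ 2 + 2 * β * (x * y) + α * x ^ 2) / (2 * (u * y - x * v) ^ 2), ?_⟩
  have h0 : (![-β, (γ - α) / 2, 0, 0, (γ + α) / 2] : E) 0 = -β := rfl
  have h1 : (![-β, (γ - α) / 2, 0, 0, (γ + α) / 2] : E) 1 = (γ - α) / 2 := rfl
  have h2 : (![-β, (γ - α) / 2, 0, 0, (γ + α) / 2] : E) 2 = 0 := rfl
  have h3 : (![-β, (γ - α) / 2, 0, 0, (γ + α) / 2] : E) 3 = 0 := rfl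
  have h4 : (![-β, (γ - α) / 2, 0, 0, (γ + α) / 2] : E) 4 = (γ + α) / 2 := rfl
  have hD2 : 2 * (u * y - x * v) ^ 2 ≠ 0 := mul_ne_zero two_ne_zero (pow_ne_zero 2 hD)
  funext k
  fin_cases k
  · simp only [Fin.zero_eta, Fin.isValue, Pi.add_apply, Pi.smul_apply, smul_eq_mul, Std_v0, h0]
    rw [div_mul_eq_mul_div, div_mul_eq_mul_div, ← add_div, eq_div_iff hD2]
    linear_combination (-2 * (x * v + u * y)) * h
  · simp only [Fin.mk_one, Fin.isValue, Pi.add_apply, Pi.smul_apply, smul_eq_mul, Std_v1, h1]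
    rw [div_mul_eq_mul_div, div_mul_eq_mul_div, ← add_div, eq_div_iff hD2]
    linear_combination (2 * y * v - 2 * x * u) * h
  · simp only [Fin.reduceFinMk, Pi.add_apply, Pi.smul_apply, smul_eq_mul, Std_v2, h2]
    ring
  · simp only [Fin.reduceFinMk, Pi.add_apply, Pi.smul_apply, smul_eq_mul, Std_v3, h3]
    ring
  · simp only [Fin.reduceFinMk, Pi.add_apply, Pi.smul_apply, smul_eq_mul, Std_v4, h4]
    rw [div_mul_eq_mul_div, div_mul_eq_mul_div, ← add_div, eq_div_iff hD2]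
    linear_combination (-(2 * y * v) - 2 * x * u) * h

theorem Std_D_ne {t : ℕ → ℝ} {n : ℕ} (ht : ∀ i j, i < j → j + 1 < n → t i < t j) {i j : ℕ}
    (hi : i < n) (hj : j < n) (hij : i ≠ j) : hX t n j * hY n i - hX t n i * hY n j ≠ 0 := by
  rcases lt_or_gt_of_ne hij with h | h
  · exact (Std_D ht h hj).ne'
  · have := Std_D ht h hi
    intro h0
    linarith

theorem Std_hex {t : ℕ → ℝ} {n : ℕ} (ht : ∀ i j, i < j → j + 1 < n → t i < t j) (h : List ℕ)
    (hok : HexOK n h) (hinv : HexInv t n h) : HexRel (Std_g t n) h := by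
  obtain ⟨hl, ⟨r, hr⟩, hlt⟩ := hok
  have hnd : h.Nodup := by
    rw [← List.nodup_rotate (n := r)]
    exact hr.imp (fun hab => hab.ne)
  obtain ⟨α, β, γ, hne, h1, h2, h3⟩ := hinv
  match h, hl, hnd, hlt, h1, h2, h3 with
  | [a0, a1, a2, a3, a4, a5], _, hnd, hlt, h1, h2, h3 =>
    simp only [List.getD_cons_zero, List.getD_cons_succ] at h1 h2 h3
    simp only [List.nodup_cons, List.mem_cons, List.not_mem_nil, or_false, not_or] at hnd
    have l0 : a0 < n := hlt a0 (by simp)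
    have l1 : a1 < n := hlt a1 (by simp)
    have l2 : a2 < n := hlt a2 (by simp)
    have l3 : a3 < n := hlt a3 (by simp)
    have l4 : a4 < n := hlt a4 (by simp)
    have l5 : a5 < n := hlt a5 (by simp)
    refine ⟨(![-β, (γ - α) / 2, 0, 0, (γ + α) / 2] : E), ?_, ?_, ?_, ?_⟩
    · intro h0
      apply hne
      have e0 : -β = 0 := congrFun h0 0
      have e1 : (γ - α) / 2 = 0 := congrFun h0 1
      have e4 : (γ + α) / 2 = 0 := congrFun h0 4
      refine ⟨?_, ?_, ?_⟩ <;> linarith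
    · simp only [List.getD_cons_zero, List.getD_cons_succ]
      exact Std_pair (Std_D_ne ht l0 l5 (by tauto)) h1
    · simp only [List.getD_cons_zero, List.getD_cons_succ]
      exact Std_pair (Std_D_ne ht l1 l4 (by tauto)) h2
    · simp only [List.getD_cons_zero, List.getD_cons_succ]
      exact Std_pair (Std_D_ne ht l2 l3 (by tauto)) h3

/-- The standard polygon. -/
theorem claimStd : ClaimStd := by
  intro o hv hs
  obtain ⟨t, ht, hinv⟩ := hs
  refine ⟨Std_g t o.1, Std_e0 t o.1, Std_e3, Std_e4, Std_om, Std_frame hv.1 ht, Std_tri,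
    Std_cyc ht, ?_, fun h hh => Std_hex ht h (hv.2 h hh) (hinv h hh)⟩
  have hB := Std_BG hv.1 ht
  refine ⟨fun _ => (√(-B (Std_G t o.1) (Std_G t o.1)))⁻¹,
    fun j _ => inv_pos.mpr (Real.sqrt_pos.mpr (by linarith)), ?_⟩
  rw [Std_e0, Std_G, Finset.smul_sum]

end Pool.Agent.Work.MP_5b14b0_lc
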