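import Pool.Agent.Work.MP_5b14b0_lc.Geo

/-!
# Item G7: concurrent chords give a symmetric position
-/

set_option autoImplicit false

namespace Pool.Agent.Work.MP_5b14b0_lc

open Finset

/-! ### Bilinear algebra -/

theorem sym_B_comm (x y : E) : B x y = B y x := by unfold B; ring

theorem sym_B_add_left (x y z : E) : B (x + y) z = B x z + B y z := by
  unfold B; simp only [Pi.add_apply]; ring

theorem sym_B_sub_left (x y z : E) : B (x - y) z = B x z - B y z := by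
  unfold B; simp only [Pi.sub_apply]; ring

theorem sym_B_neg_left (x z : E) : B (-x) z = -B x z := by
  unfold B; simp only [Pi.neg_apply]; ring

theorem sym_B_smul_left (c : ℝ) (x z : E) : B (c • x) z = c * B x z := by
  unfold B; simp only [Pi.smul_apply, smul_eq_mul]; ring

theorem sym_B_add_right (x y z : E) : B x (y + z) = B x y + B x z := by
  unfold B; simp only [Pi.add_apply]; ring

theorem sym_B_sub_right (x y z : E) : B x (y - z) = B x y - B x z := by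
  unfold B; simp only [Pi.sub_apply]; ring

theorem sym_B_neg_right (x z : E) : B x (-z) = -B x z := by
  unfold B; simp only [Pi.neg_apply]; ring

theorem sym_B_smul_right (c : ℝ) (x z : E) : B x (c • z) = c * B x z := by
  unfold B; simp only [Pi.smul_apply, smul_eq_mul]; ring

section
variable {ω : E → E → E → ℝ} {e3 e4 : E} (hT : Tri ω e3 e4)
include hT

theorem sym_add2 (x y y' z : E) : ω x (y + y') z = ω x y z + ω x y' z := by
  rw [hT.rot x (y + y') z, hT.add, ← hT.rot x y z, ← hT.rot x y' z]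

theorem sym_add3 (x y z z' : E) : ω x y (z + z') = ω x y z + ω x y z' := by
  rw [hT.rot x y (z + z'), sym_add2 hT, ← hT.rot x y z, ← hT.rot x y z']

theorem sym_smul2 (c : ℝ) (x y z : E) : ω x (c • y) z = c * ω x y z := by
  rw [hT.rot x (c • y) z, hT.smul, ← hT.rot x y z]

theorem sym_smul3 (c : ℝ) (x y z : E) : ω x y (c • z) = c * ω x y z := by
  rw [hT.rot x y (c • z), sym_smul2 hT, ← hT.rot x y z]

theorem sym_alt12 (x z : E) : ω x x z = 0 := by
  have := hT.swap x x z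
  linarith

theorem sym_alt23 (x z : E) : ω z x x = 0 := by
  rw [hT.rot z x x]; exact sym_alt12 hT x z

theorem sym_alt13 (x z : E) : ω x z x = 0 := by
  rw [hT.rot x z x]; exact sym_alt23 hT x z

theorem sym_swap23 (x y z : E) : ω x z y = -ω x y z := by
  rw [hT.rot x z y, hT.rot z y x, hT.rot y x z, hT.rot x z y, hT.rot z y x, hT.swap y x z]

/-- Future light vectors which are not proportional have negative product. -/
theorem sym_neg {p q r : E} (hp : Light p) (hq : Light q) (h : ω p q r ≠ 0) : B p q < 0 := by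
  obtain ⟨hp0, hp4⟩ := hp
  obtain ⟨hq0, hq4⟩ := hq
  set x : E := q 4 • p - p 4 • q with hx
  have hx4 : x 4 = 0 := by
    rw [hx]; simp only [Pi.sub_apply, Pi.smul_apply, smul_eq_mul]; ring
  have hxx : B x x = -(2 * (p 4 * q 4) * B p q) := by
    rw [hx]
    simp only [sym_B_sub_left, sym_B_sub_right, sym_B_smul_left, sym_B_smul_right, hp0, hq0,
      sym_B_comm q p]
    ring
  have hsq : B x x = x 0 ^ 2 + x 1 ^ 2 + x 2 ^ 2 + x 3 ^ 2 := by
    unfold B; rw [hx4]; ring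
  have hpq : 0 < p 4 * q 4 := mul_pos hp4 hq4
  by_contra hc
  push Not at hc
  have h1 : x 0 ^ 2 + x 1 ^ 2 + x 2 ^ 2 + x 3 ^ 2 ≤ 0 := by
    rw [← hsq, hxx]
    have := mul_nonneg hpq.le hc
    linarith
  have h0 : x 0 = 0 := by nlinarith [sq_nonneg (x 0), sq_nonneg (x 1), sq_nonneg (x 2), sq_nonneg (x 3)]
  have h1' : x 1 = 0 := by nlinarith [sq_nonneg (x 0), sq_nonneg (x 1), sq_nonneg (x 2), sq_nonneg (x 3)]
  have h2 : x 2 = 0 := by nlinarith [sq_nonneg (x 0), sq_nonneg (x 1), sq_nonneg (x 2), sq_nonneg (x 3)]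
  have h3 : x 3 = 0 := by nlinarith [sq_nonneg (x 0), sq_nonneg (x 1), sq_nonneg (x 2), sq_nonneg (x 3)]
  have hx0 : x = 0 := by
    funext i
    fin_cases i
    · exact h0
    · exact h1'
    · exact h2
    · exact h3
    · exact hx4
  have h4 : q 4 • p = p 4 • q := sub_eq_zero.1 (hx ▸ hx0)
  have h5 : q 4 * ω p q r = 0 := by
    rw [← hT.smul, h4, hT.smul, sym_alt12 hT, mul_zero]
  rcases mul_eq_zero.1 h5 with h6 | h6
  · exact hq4.ne' h6
  · exact h h6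

end

/-- One chord. -/
theorem sym_chord (p p' X : E) (a b N : ℝ) (hp : Light p) (hp' : Light p')
    (hX : X = a • p + b • p') (ha : 0 < a) (hb : b < 0) (hN : 0 < N) (hN2 : N ^ 2 = B X X) :
    ∃ (u u' : ℝ) (n : E), 0 < u ∧ 0 < u' ∧ p = u • (N⁻¹ • X + n) ∧
      p' = u' • (-(N⁻¹ • X) + n) ∧ B n (N⁻¹ • X) = 0 ∧ B n n = -1 ∧ 0 < n 4 ∧
      ∃ α β : ℝ, n = α • p + β • p' := by
  have hXX : B X X = 2 * a * b * B p p' := by
    rw [hX]
    simp only [sym_B_add_left, sym_B_add_right, sym_B_smul_left, sym_B_smul_right, hp.1, hp'.1,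
      sym_B_comm p' p]
    ring
  refine ⟨N / (2 * a), -(N / (2 * b)), (a / N) • p - (b / N) • p', by positivity, ?_, ?_, ?_,
    ?_, ?_, ?_, a / N, -(b / N), ?_⟩
  · rw [neg_pos]
    exact div_neg_of_pos_of_neg hN (by linarith)
  · have hb' : b ≠ 0 := hb.ne
    rw [hX]
    funext i
    simp only [Pi.add_apply, Pi.sub_apply, Pi.smul_apply, smul_eq_mul]
    field_simp
    ring
  · have hb' : b ≠ 0 := hb.ne
    rw [hX]
    funext i
    simp only [Pi.add_apply, Pi.sub_apply, Pi.neg_apply, Pi.smul_apply, smul_eq_mul]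
    field_simp
    ring
  · rw [hX]
    simp only [sym_B_add_right, sym_B_sub_left, sym_B_smul_left, sym_B_smul_right, hp.1, hp'.1,
      sym_B_comm p' p]
    field_simp
    ring
  · simp only [sym_B_sub_right, sym_B_sub_left, sym_B_smul_left, sym_B_smul_right, hp.1, hp'.1,
      sym_B_comm p' p]
    rw [hXX] at hN2
    have : a / N * (a / N * 0) - b / N * (a / N * B p p') -
        (a / N * (b / N * B p p') - b / N * (b / N * 0)) = -((2 * a * b * B p p') / N ^ 2) := by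
      field_simp
      ring
    rw [← hN2, div_self (by positivity)] at this
    linarith
  · simp only [Pi.sub_apply, Pi.smul_apply, smul_eq_mul]
    have h1 : 0 < a / N * p 4 := mul_pos (div_pos ha hN) hp.2
    have h2 : b / N * p' 4 < 0 := mul_neg_of_neg_of_pos (div_neg_of_neg_of_pos hb hN) hp'.2
    linarith
  · rw [neg_smul, sub_eq_add_neg]

/-- The symmetric position of three unit vectors in a Lorentz plane. -/
theorem sym_plane (n0 n1 n2 e1 : E) (P Q : ℝ) (h0 : B n0 n0 = -1) (h1 : B n1 n1 = -1)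
    (h2 : B n2 n2 = -1) (g0 : B n0 e1 = 0) (g2 : B n2 e1 = 0) (t0 : 0 < n0 4) (t2 : 0 < n2 4)
    (h02 : B n0 n2 < -1) (hP : 0 < P) (hQ : 0 < Q) (hn : n1 = P • n0 + Q • n2) :
    ∃ (f0 e2 : E) (s t l l1 : ℝ), B f0 f0 = -1 ∧ 0 < f0 4 ∧ B e2 e2 = 1 ∧ B f0 e1 = 0 ∧
      B f0 e2 = 0 ∧ B e1 e2 = 0 ∧ 0 < s ∧ s < 1 ∧ -s < t ∧ t < s ∧ 0 < l ∧ 0 < l1 ∧
      √(1 - s ^ 2) = l⁻¹ ∧ √(1 - t ^ 2) = l1⁻¹ ∧ n0 = l • (f0 - s • e2) ∧
      n2 = l • (f0 + s • e2) ∧ n1 = l1 • (f0 + t • e2) ∧ ∃ α β : ℝ, f0 = α • n0 + β • n2 := by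
  set γ : ℝ := -B n0 n2 with hγ
  have hγ1 : 1 < γ := by rw [hγ]; linarith
  have hB : B n0 n2 = -γ := by rw [hγ]; ring
  set al : ℝ := √((1 + γ) / 2) with hal
  set be : ℝ := √((γ - 1) / 2) with hbe
  have hal0 : 0 < al := Real.sqrt_pos.2 (by linarith)
  have hbe0 : 0 < be := Real.sqrt_pos.2 (by linarith)
  have hal2 : al ^ 2 = (1 + γ) / 2 := Real.sq_sqrt (by linarith)
  have hbe2 : be ^ 2 = (γ - 1) / 2 := Real.sq_sqrt (by linarith)
  have hab : al ^ 2 - be ^ 2 = 1 := by rw [hal2, hbe2]; ring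
  have hlt : be < al := by
    by_contra hc
    push Not at hc
    have : al ^ 2 ≤ be ^ 2 := pow_le_pow_left₀ hal0.le hc 2
    linarith
  -- the value of `B n1 n1`
  have hn1 : P ^ 2 + Q ^ 2 + 2 * P * Q * γ = 1 := by
    rw [hn] at h1
    simp only [sym_B_add_left, sym_B_add_right, sym_B_smul_left, sym_B_smul_right, h0, h2,
      sym_B_comm n2 n0, hB] at h1
    linarith
  set al' : ℝ := (P + Q) * al with hal'
  set be' : ℝ := (Q - P) * be with hbe'
  have hal'0 : 0 < al' := by positivity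
  have hab' : al' ^ 2 - be' ^ 2 = 1 := by
    rw [hal', hbe', mul_pow, mul_pow, hal2, hbe2]
    linarith
  have hsqrt : ∀ x y : ℝ, 0 < x → x ^ 2 - y ^ 2 = 1 → √(1 - (y / x) ^ 2) = x⁻¹ := by
    intro x y hx hxy
    have : 1 - (y / x) ^ 2 = (x⁻¹) ^ 2 := by
      field_simp
      linarith
    rw [this, Real.sqrt_sq (by positivity)]
  refine ⟨(2 * al)⁻¹ • (n0 + n2), (2 * be)⁻¹ • (n2 - n0), be / al, be' / al', al, al', ?_, ?_, ?_,
    ?_, ?_, ?_, by positivity, ?_, ?_, ?_, hal0, hal'0, hsqrt al be hal0 hab,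
    hsqrt al' be' hal'0 hab', ?_, ?_, ?_, (2 * al)⁻¹, (2 * al)⁻¹, by rw [smul_add]⟩
  · simp only [sym_B_add_left, sym_B_add_right, sym_B_smul_left, sym_B_smul_right, h0, h2,
      sym_B_comm n2 n0, hB]
    field_simp
    rw [hal2]
    ring
  · simp only [Pi.smul_apply, Pi.add_apply, smul_eq_mul]
    positivity
  · simp only [sym_B_sub_left, sym_B_sub_right, sym_B_smul_left, sym_B_smul_right, h0, h2,
      sym_B_comm n2 n0, hB]
    field_simp
    rw [hbe2]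
    ring
  · simp only [sym_B_smul_left, sym_B_add_left, g0, g2]
    ring
  · simp only [sym_B_add_left, sym_B_sub_right, sym_B_smul_left, sym_B_smul_right, h0, h2,
      sym_B_comm n2 n0]
    ring
  · rw [sym_B_comm]
    simp only [sym_B_smul_left, sym_B_sub_left, g0, g2]
    ring
  · rw [div_lt_one hal0]; exact hlt
  · rw [neg_lt, ← neg_div, div_lt_div_iff₀ hal'0 hal0, hal', hbe']
    nlinarith [mul_pos hQ (mul_pos hbe0 hal0)]
  · rw [div_lt_div_iff₀ hal'0 hal0, hal', hbe']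
    nlinarith [mul_pos hP (mul_pos hbe0 hal0)]
  · funext i
    simp only [Pi.smul_apply, Pi.add_apply, Pi.sub_apply, smul_eq_mul]
    field_simp
    ring
  · funext i
    simp only [Pi.smul_apply, Pi.add_apply, Pi.sub_apply, smul_eq_mul]
    field_simp
    ring
  · have h3 : al' • ((2 * al)⁻¹ • (n0 + n2) + (be' / al') • (2 * be)⁻¹ • (n2 - n0)) =
        (al' * (2 * al)⁻¹) • (n0 + n2) + (be' * (2 * be)⁻¹) • (n2 - n0) := by
      funext i
      simp only [Pi.smul_apply, Pi.add_apply, Pi.sub_apply, smul_eq_mul]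
      field_simp
    rw [h3, hn]
    have e1 : al' * (2 * al)⁻¹ = (P + Q) / 2 := by rw [hal']; field_simp
    have e2 : be' * (2 * be)⁻¹ = (Q - P) / 2 := by rw [hbe']; field_simp
    rw [e1, e2]
    funext i
    simp only [Pi.smul_apply, Pi.add_apply, Pi.sub_apply, smul_eq_mul]
    ring

theorem sym_inpl {e3 e4 x y : E} (hx : InPl e3 e4 x) (hy : InPl e3 e4 y) (a b : ℝ) :
    InPl e3 e4 (a • x + b • y) := by
  constructor
  · rw [sym_B_add_left, sym_B_smul_left, sym_B_smul_left, hx.1, hy.1]; ring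
  · rw [sym_B_add_left, sym_B_smul_left, sym_B_smul_left, hx.2, hy.2]; ring

theorem sym_fin1 (u l x : ℝ) (hl : 0 < l) (f0 e1 e2 : E) :
    u • (e1 + l • (f0 + x • e2)) = (u * l) • (l⁻¹ • e1 + x • e2 + f0) := by
  have : e1 = (l * l⁻¹) • e1 := by rw [mul_inv_cancel₀ hl.ne', one_smul]
  conv_lhs => rw [this]
  module

theorem sym_fin2 (u l x : ℝ) (hl : 0 < l) (f0 e1 e2 : E) :
    u • (-e1 + l • (f0 + x • e2)) = (u * l) • (-(l⁻¹) • e1 + x • e2 + f0) := by
  have : e1 = (l * l⁻¹) • e1 := by rw [mul_inv_cancel₀ hl.ne', one_smul]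
  conv_lhs => rw [this]
  module

theorem sym_fin1' (u l x : ℝ) (hl : 0 < l) (f0 e1 e2 : E) :
    u • (e1 + l • (f0 - x • e2)) = (u * l) • (l⁻¹ • e1 - x • e2 + f0) := by
  have := sym_fin1 u l (-x) hl f0 e1 e2
  rwa [neg_smul, ← sub_eq_add_neg, ← sub_eq_add_neg] at this

theorem sym_fin2' (u l x : ℝ) (hl : 0 < l) (f0 e1 e2 : E) :
    u • (-e1 + l • (f0 - x • e2)) = (u * l) • (-(l⁻¹) • e1 - x • e2 + f0) := by
  have := sym_fin2 u l (-x) hl f0 e1 e2
  rwa [neg_smul, neg_smul, ← sub_eq_add_neg, ← sub_eq_add_neg, ← neg_smul] at this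

/-- The six points, with a normalized sign. -/
theorem sym_core {ω : E → E → E → ℝ} {e3 e4 : E} (hT : Tri ω e3 e4)
    (p0 p1 p2 p3 p4 p5 X : E) (a b c d e f : ℝ)
    (l0 : Light p0) (l1 : Light p1) (l2 : Light p2) (l3 : Light p3) (l4 : Light p4)
    (l5 : Light p5)
    (i0 : InPl e3 e4 p0) (i1 : InPl e3 e4 p1) (i2 : InPl e3 e4 p2) (i3 : InPl e3 e4 p3)
    (i4 : InPl e3 e4 p4) (i5 : InPl e3 e4 p5)
    (h015 : 0 < ω p0 p1 p5) (h045 : 0 < ω p0 p4 p5) (h145 : 0 < ω p1 p4 p5)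
    (h134 : 0 < ω p1 p3 p4) (h234 : 0 < ω p2 p3 p4) (h124 : 0 < ω p1 p2 p4)
    (h025 : 0 < ω p0 p2 p5)
    (hX05 : X = a • p0 + b • p5) (hX14 : X = c • p1 + d • p4) (hX23 : X = e • p2 + f • p3)
    (ha : 0 < a) :
    ∃ (f0 e1 e2 : E) (s t w0 w1 w2 w3 w4 w5 : ℝ), InPl e3 e4 f0 ∧ B f0 f0 = -1 ∧ 0 < f0 4 ∧
      B e1 e1 = 1 ∧ B e2 e2 = 1 ∧ B e1 e2 = 0 ∧ B f0 e1 = 0 ∧ B f0 e2 = 0 ∧
      0 < s ∧ s < 1 ∧ -s < t ∧ t < s ∧
      0 < w0 ∧ 0 < w1 ∧ 0 < w2 ∧ 0 < w3 ∧ 0 < w4 ∧ 0 < w5 ∧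
      p0 = w0 • (√(1 - s ^ 2) • e1 - s • e2 + f0) ∧
      p5 = w5 • (-(√(1 - s ^ 2)) • e1 - s • e2 + f0) ∧
      p1 = w1 • (√(1 - t ^ 2) • e1 + t • e2 + f0) ∧
      p4 = w4 • (-(√(1 - t ^ 2)) • e1 + t • e2 + f0) ∧
      p2 = w2 • (√(1 - s ^ 2) • e1 + s • e2 + f0) ∧
      p3 = w3 • (-(√(1 - s ^ 2)) • e1 + s • e2 + f0) := by
  -- negative products
  have n05 : B p0 p5 < 0 := sym_neg hT l0 l5 (r := p1) (by
    rw [sym_swap23 hT]; exact (neg_neg_of_pos h015).ne)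
  have n14 : B p1 p4 < 0 := sym_neg hT l1 l4 (r := p5) h145.ne'
  have n23 : B p2 p3 < 0 := sym_neg hT l2 l3 (r := p4) h234.ne'
  have n02 : B p0 p2 < 0 := sym_neg hT l0 l2 (r := p5) h025.ne'
  -- the signs
  have s1 : c * ω p0 p1 p5 + d * ω p0 p4 p5 = 0 := by
    have k1 : ω p0 p5 X = 0 := by
      rw [hX05, sym_add3 hT, sym_smul3 hT, sym_smul3 hT, sym_alt13 hT, sym_alt23 hT]; ring
    rw [hX14, sym_add3 hT, sym_smul3 hT, sym_smul3 hT, sym_swap23 hT p0 p1 p5,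
      sym_swap23 hT p0 p4 p5] at k1
    linarith
  have s2 : a * ω p0 p4 p5 = c * ω p1 p4 p5 := by
    have k1 : ω p5 p4 X = -(a * ω p0 p4 p5) := by
      rw [hX05, sym_add3 hT, sym_smul3 hT, sym_smul3 hT, sym_alt13 hT, hT.rot p5 p4 p0,
        hT.swap p4 p0 p5]; ring
    have k2 : ω p5 p4 X = -(c * ω p1 p4 p5) := by
      rw [hX14, sym_add3 hT, sym_smul3 hT, sym_smul3 hT, sym_alt23 hT, hT.rot p5 p4 p1,
        hT.swap p4 p1 p5]; ring
    linarith
  have s3 : c * ω p1 p3 p4 = e * ω p2 p3 p4 := by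
    have k1 : ω p4 p3 X = -(c * ω p1 p3 p4) := by
      rw [hX14, sym_add3 hT, sym_smul3 hT, sym_smul3 hT, sym_alt13 hT, hT.rot p4 p3 p1,
        hT.swap p3 p1 p4]; ring
    have k2 : ω p4 p3 X = -(e * ω p2 p3 p4) := by
      rw [hX23, sym_add3 hT, sym_smul3 hT, sym_smul3 hT, sym_alt23 hT, hT.rot p4 p3 p2,
        hT.swap p3 p2 p4]; ring
    linarith
  have hc : 0 < c := (mul_pos_iff_of_pos_right h145).1 (s2 ▸ mul_pos ha h045)
  have he : 0 < e := (mul_pos_iff_of_pos_right h234).1 (s3 ▸ mul_pos hc h134)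
  have hd : d < 0 := by
    by_contra hd
    push Not at hd
    have := mul_pos hc h015
    have := mul_nonneg hd h045.le
    linarith
  have hXX : ∀ (p p' : E) (α β : ℝ), Light p → Light p' → X = α • p + β • p' →
      B X X = 2 * (α * β * B p p') := by
    intro p p' α β hp hp' hX
    rw [hX]
    simp only [sym_B_add_left, sym_B_add_right, sym_B_smul_left, sym_B_smul_right, hp.1, hp'.1,
      sym_B_comm p' p]
    ring
  have hXpos : 0 < B X X := by
    rw [hXX p1 p4 c d l1 l4 hX14]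
    have := mul_pos_of_neg_of_neg (mul_neg_of_pos_of_neg hc hd) n14
    linarith
  have hb : b < 0 := by
    by_contra hb
    push Not at hb
    have h1 := hXX p0 p5 a b l0 l5 hX05
    have := mul_nonpos_of_nonneg_of_nonpos (mul_nonneg ha.le hb) n05.le
    linarith
  have hf : f < 0 := by
    by_contra hf
    push Not at hf
    have h1 := hXX p2 p3 e f l2 l3 hX23
    have := mul_nonpos_of_nonneg_of_nonpos (mul_nonneg he.le hf) n23.le
    linarith
  set N : ℝ := √(B X X) with hNdef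
  have hN : 0 < N := Real.sqrt_pos.2 hXpos
  have hN2 : N ^ 2 = B X X := Real.sq_sqrt hXpos.le
  set e1 : E := N⁻¹ • X with he1
  have hE1 : B e1 e1 = 1 := by
    rw [he1, sym_B_smul_left, sym_B_smul_right, ← hN2]
    field_simp
  obtain ⟨u0, u5, m0, hu0, hu5, q0, q5, z0, y0, t0, α0, β0, r0⟩ :=
    sym_chord p0 p5 X a b N l0 l5 hX05 ha hb hN hN2
  obtain ⟨u1, u4, m1, hu1, hu4, q1, q4, z1, y1, t1, α1, β1, r1⟩ :=
    sym_chord p1 p4 X c d N l1 l4 hX14 hc hd hN hN2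
  obtain ⟨u2, u3, m2, hu2, hu3, q2, q3, z2, y2, t2, α2, β2, r2⟩ :=
    sym_chord p2 p3 X e f N l2 l3 hX23 he hf hN hN2
  rw [← he1] at q0 q5 z0 q1 q4 z1 q2 q3 z2
  -- triple products
  have hω : ∀ (u v w : ℝ) (m n : E), ω (u • (e1 + m)) (v • (e1 + n)) (w • (-e1 + m)) =
      u * v * w * (-2 * ω m n e1) := by
    intro u v w m n
    have hneg : (-e1 : E) = (-1 : ℝ) • e1 := by rw [neg_one_smul]
    rw [hneg]
    simp only [hT.smul, sym_smul2 hT, sym_smul3 hT, hT.add, sym_add2 hT, sym_add3 hT,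
      sym_alt12 hT, sym_alt13 hT, sym_alt23 hT]
    have k1 : ω e1 n m = -ω m n e1 := by rw [hT.rot e1 n m, hT.swap n m e1]
    rw [k1]
    ring
  have w01 : ω m0 m1 e1 < 0 := by
    rw [q0, q1, q5, hω] at h015
    have := (mul_pos_iff_of_pos_left (mul_pos (mul_pos hu0 hu1) hu5)).1 (by assumption)
    linarith
  have w12 : ω m1 m2 e1 < 0 := by
    rw [q1, q2, q4, hω] at h124
    have := (mul_pos_iff_of_pos_left (mul_pos (mul_pos hu1 hu2) hu4)).1 (by assumption)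
    linarith
  have w02 : ω m0 m2 e1 < 0 := by
    rw [q0, q2, q5, hω] at h025
    have := (mul_pos_iff_of_pos_left (mul_pos (mul_pos hu0 hu2) hu5)).1 (by assumption)
    linarith
  have hm02 : B m0 m2 < -1 := by
    rw [q0, q2] at n02
    simp only [sym_B_add_left, sym_B_add_right, sym_B_smul_left, sym_B_smul_right, hE1, z0,
      sym_B_comm e1 m2, z2] at n02
    have := mul_pos hu0 hu2
    by_contra hcc
    push Not at hcc
    have h3 : 0 ≤ u0 * u2 * (1 + B m0 m2) := mul_nonneg this.le (by linarith)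
    linarith
  -- Cramer
  have j0 : InPl e3 e4 m0 := r0 ▸ sym_inpl i0 i5 _ _
  have j1 : InPl e3 e4 m1 := r1 ▸ sym_inpl i1 i4 _ _
  have j2 : InPl e3 e4 m2 := r2 ▸ sym_inpl i2 i3 _ _
  have jX : InPl e3 e4 e1 := by
    rw [he1, hX05, smul_add, smul_smul, smul_smul]; exact sym_inpl i0 i5 _ _
  have hcr := hT.cramer m1 m0 m2 e1 j1 j0 j2 jX
  have hz : ω m0 m2 m1 = 0 := by
    have := congrArg (fun x => B x e1) hcr
    simp only [sym_B_add_left, sym_B_smul_left, z0, z1, z2, hE1] at this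
    linarith
  have hn1 : m1 = (ω m1 m2 e1 / ω m0 m2 e1) • m0 + (ω m0 m1 e1 / ω m0 m2 e1) • m2 := by
    rw [hz, zero_smul, add_zero] at hcr
    calc m1 = (ω m0 m2 e1)⁻¹ • (ω m0 m2 e1 • m1) := by
          rw [smul_smul, inv_mul_cancel₀ w02.ne, one_smul]
      _ = (ω m0 m2 e1)⁻¹ • (ω m1 m2 e1 • m0 + ω m0 m1 e1 • m2) := by rw [hcr]
      _ = _ := by rw [smul_add, smul_smul, smul_smul, div_eq_inv_mul, div_eq_inv_mul]
  obtain ⟨f0, e2, s, t, l, l', hf0, hf04, he2, hfe1, hfe2, hee, hs0, hs1, ht1, ht2, hl, hl',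
    hsq, hsq', e0n, e2n, e1n, α, β, hf0'⟩ := sym_plane m0 m1 m2 e1 _ _ y0 y1 y2 z0 z2 t0 t2 hm02
      (div_pos_of_neg_of_neg w12 w02) (div_pos_of_neg_of_neg w01 w02) hn1
  refine ⟨f0, e1, e2, s, t, u0 * l, u1 * l', u2 * l, u3 * l, u4 * l', u5 * l,
    hf0' ▸ sym_inpl j0 j2 _ _, hf0, hf04, hE1, he2, hee, hfe1, hfe2, hs0, hs1, ht1, ht2,
    by positivity, by positivity, by positivity, by positivity, by positivity, by positivity,
    ?_, ?_, ?_, ?_, ?_, ?_⟩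
  · rw [q0, e0n, hsq, sym_fin1' _ _ _ hl]
  · rw [q5, e0n, hsq, sym_fin2' _ _ _ hl]
  · rw [q1, e1n, hsq', sym_fin1 _ _ _ hl']
  · rw [q4, e1n, hsq', sym_fin2 _ _ _ hl']
  · rw [q2, e2n, hsq, sym_fin1 _ _ _ hl]
  · rw [q3, e2n, hsq, sym_fin2 _ _ _ hl]

/-- The positive triples of a hexagon. -/
theorem sym_hex {n : ℕ} {h : List ℕ} {g : ℕ → E} {ω : E → E → E → ℝ} {e3 e4 : E}
    (hh : HexOK n h) (hT : Tri ω e3 e4) (hg : Cyc g h.toFinset ω e3 e4) :
    ∃ a b c d e f : ℕ, h = [a, b, c, d, e, f] ∧ h.Nodup ∧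
      0 < ω (g a) (g b) (g f) ∧ 0 < ω (g a) (g e) (g f) ∧ 0 < ω (g b) (g e) (g f) ∧
      0 < ω (g b) (g d) (g e) ∧ 0 < ω (g c) (g d) (g e) ∧ 0 < ω (g b) (g c) (g e) ∧
      0 < ω (g a) (g c) (g f) := by
  obtain ⟨hlen, ⟨r, hr⟩, -⟩ := hh
  obtain ⟨a, b, c, d, e, f, rfl⟩ : ∃ a b c d e f : ℕ, h = [a, b, c, d, e, f] := by
    match h, hlen with
    | [a, b, c, d, e, f], _ => exact ⟨a, b, c, d, e, f, rfl⟩
  have hpos : ∀ i ∈ [a, b, c, d, e, f], ∀ j ∈ [a, b, c, d, e, f], ∀ k ∈ [a, b, c, d, e, f],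
      i < j → j < k → 0 < ω (g i) (g j) (g k) := by
    intro i hi j hj k hk h1 h2
    exact hg.pos i (List.mem_toFinset.2 hi) j (List.mem_toFinset.2 hj) k (List.mem_toFinset.2 hk)
      h1 h2
  have hcyc : ∀ i ∈ [a, b, c, d, e, f], ∀ j ∈ [a, b, c, d, e, f], ∀ k ∈ [a, b, c, d, e, f],
      (i < j ∧ j < k ∨ j < k ∧ k < i ∨ k < i ∧ i < j) → 0 < ω (g i) (g j) (g k) := by
    intro i hi j hj k hk h1
    rcases h1 with ⟨h1, h2⟩ | ⟨h1, h2⟩ | ⟨h1, h2⟩
    · exact hpos i hi j hj k hk h1 h2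
    · rw [hT.rot]; exact hpos j hj k hk i hi h1 h2
    · rw [hT.rot, hT.rot]; exact hpos k hk i hi j hj h1 h2
  have hnd : ([a, b, c, d, e, f] : List ℕ).Nodup := by
    have h1 := hr.imp (fun {x y} (h : x < y) => h.ne)
    exact List.nodup_rotate.1 h1
  refine ⟨a, b, c, d, e, f, rfl, hnd, ?_⟩
  have hrm : ([a, b, c, d, e, f] : List ℕ).rotate r =
      ([a, b, c, d, e, f] : List ℕ).rotate (r % 6) := by
    rw [← List.rotate_mod]; rfl
  rw [hrm] at hr
  have h6 : r % 6 < 6 := Nat.mod_lt _ (by norm_num)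
  have ma : a ∈ [a, b, c, d, e, f] := by simp
  have mb : b ∈ [a, b, c, d, e, f] := by simp
  have mc : c ∈ [a, b, c, d, e, f] := by simp
  have md : d ∈ [a, b, c, d, e, f] := by simp
  have me : e ∈ [a, b, c, d, e, f] := by simp
  have mf : f ∈ [a, b, c, d, e, f] := by simp
  have hord : (a < b ∧ b < c ∧ c < d ∧ d < e ∧ e < f) ∨ (b < c ∧ c < d ∧ d < e ∧ e < f ∧ f < a) ∨
      (c < d ∧ d < e ∧ e < f ∧ f < a ∧ a < b) ∨ (d < e ∧ e < f ∧ f < a ∧ a < b ∧ b < c) ∨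
      (e < f ∧ f < a ∧ a < b ∧ b < c ∧ c < d) ∨ (f < a ∧ a < b ∧ b < c ∧ c < d ∧ d < e) := by
    generalize r % 6 = m at hr h6
    interval_cases m
    · simp [List.rotate] at hr
      omega
    · simp [List.rotate] at hr
      omega
    · simp [List.rotate] at hr
      omega
    · simp [List.rotate] at hr
      omega
    · simp [List.rotate] at hr
      omega
    · simp [List.rotate] at hr
      omega
  refine ⟨hcyc _ ma _ mb _ mf ?_, hcyc _ ma _ me _ mf ?_, hcyc _ mb _ me _ mf ?_,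
    hcyc _ mb _ md _ me ?_, hcyc _ mc _ md _ me ?_, hcyc _ mb _ mc _ me ?_,
    hcyc _ ma _ mc _ mf ?_⟩ <;> omega

/-- The coefficient of the first chord does not vanish. -/
theorem sym_ne {ω : E → E → E → ℝ} {e3 e4 : E} (hT : Tri ω e3 e4)
    (p0 p1 p4 p5 X : E) (a b c d : ℝ) (hX0 : X ≠ 0)
    (h045 : 0 < ω p0 p4 p5) (h145 : 0 < ω p1 p4 p5)
    (hX05 : X = a • p0 + b • p5) (hX14 : X = c • p1 + d • p4) : a ≠ 0 := by
  rintro rfl
  have s1 : c * ω p0 p1 p5 + d * ω p0 p4 p5 = 0 := by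
    have k1 : ω p0 p5 X = 0 := by
      rw [hX05, sym_add3 hT, sym_smul3 hT, sym_smul3 hT, sym_alt13 hT, sym_alt23 hT]; ring
    rw [hX14, sym_add3 hT, sym_smul3 hT, sym_smul3 hT, sym_swap23 hT p0 p1 p5,
      sym_swap23 hT p0 p4 p5] at k1
    linarith
  have s2 : 0 = c * ω p1 p4 p5 := by
    have k1 : ω p5 p4 X = 0 := by
      rw [hX05, sym_add3 hT, sym_smul3 hT, sym_smul3 hT, sym_alt13 hT]; ring
    have k2 : ω p5 p4 X = -(c * ω p1 p4 p5) := by
      rw [hX14, sym_add3 hT, sym_smul3 hT, sym_smul3 hT, sym_alt23 hT, hT.rot p5 p4 p1,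
        hT.swap p4 p1 p5]; ring
    linarith
  have hc : c = 0 := by
    rcases mul_eq_zero.1 s2.symm with h | h
    · exact h
    · exact absurd h h145.ne'
  have hd : d = 0 := by
    rw [hc, zero_mul, zero_add] at s1
    rcases mul_eq_zero.1 s1 with h | h
    · exact h
    · exact absurd h h045.ne'
  apply hX0
  rw [hX14, hc, hd]
  simp

theorem claimSym : ClaimSym := by
  intro n h g ω e0 e3 e4 hh hF hT hg hrel
  obtain ⟨a, b, c, d, e, f, rfl, hnd, h015, h045, h145, h134, h234, h124, h025⟩ :=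
    sym_hex hh hT hg
  obtain ⟨X, hX0, ⟨k0, k5, hX05⟩, ⟨k1, k4, hX14⟩, ⟨k2, k3, hX23⟩⟩ := hrel
  simp only [List.getD_cons_zero, List.getD_cons_succ] at hX05 hX14 hX23
  have hm : ∀ i ∈ [a, b, c, d, e, f], Light (g i) ∧ InPl e3 e4 (g i) := fun i hi =>
    ⟨hg.light i (List.mem_toFinset.2 hi), hg.inpl i (List.mem_toFinset.2 hi)⟩
  have ma := hm a (by simp)
  have mb := hm b (by simp)
  have mc := hm c (by simp)
  have md := hm d (by simp)
  have me := hm e (by simp)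
  have mf := hm f (by simp)
  have hk0 := sym_ne hT (g a) (g b) (g e) (g f) X k0 k5 k1 k4 hX0 h045 h145 hX05 hX14
  have hmain : ∃ (f0 e1 e2 : E) (s t w0 w1 w2 w3 w4 w5 : ℝ), InPl e3 e4 f0 ∧ B f0 f0 = -1 ∧
      0 < f0 4 ∧
      B e1 e1 = 1 ∧ B e2 e2 = 1 ∧ B e1 e2 = 0 ∧ B f0 e1 = 0 ∧ B f0 e2 = 0 ∧
      0 < s ∧ s < 1 ∧ -s < t ∧ t < s ∧
      0 < w0 ∧ 0 < w1 ∧ 0 < w2 ∧ 0 < w3 ∧ 0 < w4 ∧ 0 < w5 ∧
      g a = w0 • (√(1 - s ^ 2) • e1 - s • e2 + f0) ∧
      g f = w5 • (-(√(1 - s ^ 2)) • e1 - s • e2 + f0) ∧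
      g b = w1 • (√(1 - t ^ 2) • e1 + t • e2 + f0) ∧
      g e = w4 • (-(√(1 - t ^ 2)) • e1 + t • e2 + f0) ∧
      g c = w2 • (√(1 - s ^ 2) • e1 + s • e2 + f0) ∧
      g d = w3 • (-(√(1 - s ^ 2)) • e1 + s • e2 + f0) := by
    rcases lt_or_gt_of_ne hk0 with hk | hk
    · refine sym_core hT (g a) (g b) (g c) (g d) (g e) (g f) (-X) (-k0) (-k5) (-k1) (-k4) (-k2)
        (-k3) ma.1 mb.1 mc.1 md.1 me.1 mf.1 ma.2 mb.2 mc.2 md.2 me.2 mf.2 h015 h045 h145 h134
        h234 h124 h025 ?_ ?_ ?_ (by linarith)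
      · rw [hX05]; module
      · rw [hX14]; module
      · rw [hX23]; module
    · exact sym_core hT (g a) (g b) (g c) (g d) (g e) (g f) X k0 k5 k1 k4 k2 k3
        ma.1 mb.1 mc.1 md.1 me.1 mf.1 ma.2 mb.2 mc.2 md.2 me.2 mf.2 h015 h045 h145 h134
        h234 h124 h025 hX05 hX14 hX23 hk
  obtain ⟨f0, e1, e2, s, t, w0, w1, w2, w3, w4, w5, hpl, hf0, hf04, he1, he2, he12, hfe1, hfe2,
    hs0, hs1, ht1, ht2, hw0, hw1, hw2, hw3, hw4, hw5, q0, q5, q1, q4, q2, q3⟩ := hmain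
  refine ⟨f0, hpl, hf0, hf04, ?_, e1, e2, s, t,
    fun i => match i with
      | 0 => w0 | 1 => w1 | 2 => w2 | 3 => w3 | 4 => w4 | 5 => w5 | _ => 1,
    he1, he2, he12, hfe1, hfe2, hs0, hs1, ht1, ht2, ?_, q0, q5, q1, q4, q2, q3⟩
  · -- the positive combination
    have hD : 0 < 2 * (3 * s + t) := by linarith
    have hst : 0 < s + t := by linarith
    refine ⟨fun j => if j = a then (s + t) / (2 * (3 * s + t)) / w0 else
      if j = b then s / (2 * (3 * s + t)) / w1 else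
      if j = c then s / (2 * (3 * s + t)) / w2 else
      if j = d then s / (2 * (3 * s + t)) / w3 else
      if j = e then s / (2 * (3 * s + t)) / w4 else
      (s + t) / (2 * (3 * s + t)) / w5, fun j _ => ?_, ?_⟩
    · dsimp only
      split_ifs <;> positivity
    · rw [List.sum_toFinset _ hnd]
      simp only [List.nodup_cons, List.mem_cons, List.not_mem_nil, or_false, not_or,
        not_false_eq_true, List.nodup_nil, and_true] at hnd
      obtain ⟨⟨h1, h2, h3, h4, h5⟩, ⟨h6, h7, h8, h9⟩, ⟨h10, h11, h12⟩, ⟨h13, h14⟩, h15⟩ := hnd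
      simp only [List.map_cons, List.map_nil, List.sum_cons, List.sum_nil, add_zero, if_true,
        if_neg (Ne.symm h1), if_neg (Ne.symm h2), if_neg (Ne.symm h3), if_neg (Ne.symm h4),
        if_neg (Ne.symm h5), if_neg (Ne.symm h6), if_neg (Ne.symm h7), if_neg (Ne.symm h8),
        if_neg (Ne.symm h9), if_neg (Ne.symm h10), if_neg (Ne.symm h11), if_neg (Ne.symm h12),
        if_neg (Ne.symm h13), if_neg (Ne.symm h14), if_neg (Ne.symm h15)]
      rw [q0, q1, q2, q3, q4, q5]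
      simp only [smul_smul, div_mul_cancel₀ _ hw0.ne', div_mul_cancel₀ _ hw1.ne',
        div_mul_cancel₀ _ hw2.ne', div_mul_cancel₀ _ hw3.ne', div_mul_cancel₀ _ hw4.ne',
        div_mul_cancel₀ _ hw5.ne']
      have hA : (s + t) / (2 * (3 * s + t)) * 2 + s / (2 * (3 * s + t)) * 4 = 1 := by
        rw [div_mul_eq_mul_div, div_mul_eq_mul_div, ← add_div, div_eq_one_iff_eq hD.ne']
        ring
      have hB' : -(s * ((s + t) / (2 * (3 * s + t)))) * 2 + t * (s / (2 * (3 * s + t))) * 2 +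
          s * (s / (2 * (3 * s + t))) * 2 = 0 := by
        ring
      generalize (s + t) / (2 * (3 * s + t)) = A at hA hB'
      generalize s / (2 * (3 * s + t)) = A' at hA hB'
      funext i
      simp only [Pi.add_apply, Pi.sub_apply, Pi.smul_apply, smul_eq_mul]
      linear_combination (-(e2 i)) * hB' - f0 i * hA
  · intro i
    match i with
    | 0 => exact hw0
    | 1 => exact hw1
    | 2 => exact hw2
    | 3 => exact hw3
    | 4 => exact hw4
    | 5 => exact hw5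
    | (k + 6) => exact one_pos

end Pool.Agent.Work.MP_5b14b0_lc
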