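import Pool.Agent.Work.MP_5b14b0_lc.Geo

/-!
# Ports after gluing
-/

set_option autoImplicit false

namespace Pool.Agent.Work.MP_5b14b0_lc

open Finset

namespace Tr

variable {ι : Type} [DecidableEq ι]

theorem gφ_left {V : Finset ι} {φ φ2 : ι → E} {v : ι} (h : v ∈ V) : gφ V φ φ2 v = φ v := if_pos h

theorem gφ_right {V V2 F : Finset ι} {φ φ2 : ι → E} {v : ι} (hF : V ∩ V2 = F)
    (he : ∀ v ∈ F, φ v = φ2 v) (h : v ∈ V2) : gφ V φ φ2 v = φ2 v := by
  unfold gφ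
  split_ifs with hv
  · exact he v (hF ▸ mem_inter.2 ⟨hv, h⟩)
  · rfl

omit [DecidableEq ι] in
theorem facet_eq {V : Finset ι} {𝓕 : Finset (Finset ι)} {φ : ι → E} {N : Finset ι → Du}
    (hR : Real V 𝓕 φ N) {f h : Finset ι} (hf : f ∈ 𝓕) (hh : h ∈ 𝓕) (hfh : f ⊆ h) : f = h := by
  apply Finset.Subset.antisymm hfh
  intro w hw
  have hle : Submodule.span ℝ (φ '' (f : Set ι)) ≤ Submodule.span ℝ (φ '' (h : Set ι)) :=
    Submodule.span_mono (Set.image_mono (by exact_mod_cast hfh))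
  have heq : Submodule.span ℝ (φ '' (f : Set ι)) = Submodule.span ℝ (φ '' (h : Set ι)) :=
    Submodule.eq_of_le_of_finrank_eq hle (by rw [hR.rank f hf, hR.rank h hh])
  have hker : Submodule.span ℝ (φ '' (f : Set ι)) ≤ LinearMap.ker (N f) := by
    rw [Submodule.span_le]
    rintro _ ⟨v, hv, rfl⟩
    exact LinearMap.mem_ker.2 ((hR.zero f hf v (hR.sub f hf hv)).2 hv)
  have hw1 : φ w ∈ Submodule.span ℝ (φ '' (h : Set ι)) :=
    Submodule.subset_span ⟨w, hw, rfl⟩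
  rw [← heq] at hw1
  exact (hR.zero f hf w (hR.sub h hh hw)).1 (LinearMap.mem_ker.1 (hker hw1))

theorem mem_pF {S : Finset ℕ} {pl : ℕ → ι} {a : ι} {j : ℕ} (h : j ∈ S) : pl j ∈ pF S pl a :=
  mem_insert_of_mem (mem_image_of_mem pl h)

theorem ap_pF {S : Finset ℕ} {pl : ℕ → ι} {a : ι} : a ∈ pF S pl a := mem_insert_self _ _

theorem Ed_mem {S : Finset ℕ} {p : ℕ × ℕ} (h : p ∈ Ed S) : p.1 ∈ S ∧ p.2 ∈ S :=
  mem_product.1 (mem_filter.1 h).1

theorem cyc_congr {g g' : ℕ → E} {S : Finset ℕ} {ω : E → E → E → ℝ} {e3 e4 : E}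
    (h : Cyc g S ω e3 e4) (he : ∀ j ∈ S, g' j = g j) : Cyc g' S ω e3 e4 where
  light j hj := by rw [he j hj]; exact h.light j hj
  inpl j hj := by rw [he j hj]; exact h.inpl j hj
  pos i hi j hj k hk h1 h2 := by
    rw [he i hi, he j hj, he k hk]; exact h.pos i hi j hj k hk h1 h2

theorem intC_congr {g g' : ℕ → E} {T : Finset ℕ} {e0 : E}
    (h : IntC g T e0) (he : ∀ j ∈ T, g' j = g j) : IntC g' T e0 := by
  obtain ⟨c, hc, hs⟩ := h
  refine ⟨c, hc, ?_⟩
  rw [hs]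
  exact Finset.sum_congr rfl (fun j hj => by rw [he j hj])

theorem edgeF_congr {m : Du} {u v u' v' e0 e3 e4 : E} (h : EdgeF m u v e0 e3 e4) (hu : u' = u)
    (hv : v' = v) : EdgeF m u' v' e0 e3 e4 := by
  subst hu; subst hv; exact h

/-- A port which does not meet the removed facet. -/
theorem port_trans {𝓕 𝓕' : Finset (Finset ι)} {φ φ' : ι → E} {N N' : Finset ι → Du}
    {F : Finset ι} {S T : Finset ℕ} {pl : ℕ → ι} {a : ι} {e0 e3 e4 : E}
    {ω : E → E → E → ℝ} {κG : ℝ} {κ : ℕ × ℕ → ℝ}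
    (h : Port 𝓕 φ N S T pl a e0 e3 e4 ω κG κ) (hφ : ∀ v ∈ pF S pl a, φ' v = φ v)
    (hd : Disjoint (pF S pl a) F) (h1 : ∀ f ∈ 𝓕, f ≠ F → f ∈ 𝓕' ∧ N' f = N f)
    (h2 : ∀ f ∈ 𝓕', (f ∈ 𝓕 ∧ f ≠ F) ∨ pF S pl a ∩ f = ∅) :
    Port 𝓕' φ' N' S T pl a e0 e3 e4 ω κG κ := by
  have hne : ∀ f : Finset ι, ∀ v ∈ pF S pl a, v ∈ f → f ≠ F := by
    rintro f v hv hvf rfl
    exact Finset.disjoint_left.1 hd hv hvf
  obtain ⟨j0, hj0⟩ : S.Nonempty := by
    have h3 : T.Nonempty := Finset.card_pos.1 (by have := h.card; omega)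
    exact h3.mono h.sub
  obtain ⟨f0, hf0, hf0F, hf0s, hf0N⟩ := h.spine
  have hf0m : pl j0 ∈ f0 := hf0s (mem_image_of_mem pl hj0)
  have hf0ne : f0 ≠ F := hne f0 _ (mem_pF hj0) hf0m
  have hf0N' : ∃ c : ℝ, 0 < c ∧ ∀ x, N' f0 x = c * (B x e3 + κG * B x e4) := by
    rw [(h1 f0 hf0 hf0ne).2]; exact hf0N
  refine ⟨h.frame, h.tri, cyc_congr h.cyc (fun j hj => hφ _ (mem_pF hj)), h.sub, h.card,
    intC_congr h.int (fun j hj => hφ _ (mem_pF (h.sub hj))), h.inj, h.apn, ?_, ?_, ?_, ?_, ?_, ?_⟩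
  · exact (h1 _ h.mem (hne _ _ ap_pF ap_pF)).1
  · rw [hφ a ap_pF]; exact h.apex
  · rw [(h1 _ h.mem (hne _ _ ap_pF ap_pF)).2]; exact h.nF
  · exact ⟨f0, (h1 f0 hf0 hf0ne).1, hf0F, hf0s, hf0N'⟩
  · intro p hp
    obtain ⟨f, hf, hf1, hf2, hf3, hf4, m, hm, c, hc, hN⟩ := h.side p hp
    have hfne : f ≠ F := hne f a ap_pF hf2
    obtain ⟨g1, g2⟩ := h1 f hf hfne
    refine ⟨f, g1, hf1, hf2, hf3, hf4, m, edgeF_congr hm (hφ _ (mem_pF (Ed_mem hp).1))
      (hφ _ (mem_pF (Ed_mem hp).2)), c, hc, ?_⟩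
    rw [g2]; exact hN
  · intro f hf hfF
    rcases h2 f hf with ⟨hf1, hf2⟩ | hemp
    · obtain ⟨g1, g2⟩ := h1 f hf1 hf2
      rcases h.nonadj f hf1 hfF with hk | ⟨p, hp, m, hm, hk⟩ | ⟨k, hk1, hk2, hk3, hk4⟩
      · left
        rw [g2]; exact hk
      · right; left
        refine ⟨p, hp, m, edgeF_congr hm (hφ _ (mem_pF (Ed_mem hp).1))
          (hφ _ (mem_pF (Ed_mem hp).2)), ?_⟩
        rw [g2]; exact hk
      · by_cases hkF : k = F
        · by_cases hff : f = f0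
          · left
            rw [hff]; exact hf0N'
          · right; right
            refine ⟨f0, (h1 f0 hf0 hf0ne).1, hf0F, Ne.symm hff, ?_⟩
            intro v hv
            have hvF : v ∈ F := hkF ▸ hk4 hv
            exact absurd hvF (Finset.disjoint_left.1 hd (mem_inter.1 hv).1)
        · right; right
          exact ⟨k, (h1 k hk1 hkF).1, hk2, hk3, hk4⟩
    · right; right
      refine ⟨f0, (h1 f0 hf0 hf0ne).1, hf0F, ?_, ?_⟩
      · rintro rfl
        have : pl j0 ∈ pF S pl a ∩ f0 := mem_inter.2 ⟨mem_pF hj0, hf0m⟩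
        rw [hemp] at this
        exact absurd this (notMem_empty _)
      · rw [hemp]; exact empty_subset _

end Tr

open Tr

theorem claimTransP : ClaimTransP := by
  intro ι _ V V2 𝓕 𝓕2 φ φ2 N N2 F S T pl a e0 e3 e4 ω κG κ hR hR2 hV hF hF2 he hP hd
  refine port_trans hP (F := F) ?_ hd ?_ ?_
  · intro v hv
    exact gφ_left (hR.sub _ hP.mem hv)
  · intro f hf hne
    refine ⟨mem_union_left _ (mem_erase.2 ⟨hne, hf⟩), ?_⟩
    unfold gN
    rw [if_pos hf]
  · intro f hf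
    rcases mem_union.1 hf with h | h
    · left
      exact ⟨mem_of_mem_erase h, ne_of_mem_erase h⟩
    · right
      rw [Finset.eq_empty_iff_forall_notMem]
      intro v hv
      obtain ⟨h1, h2⟩ := mem_inter.1 hv
      have h3 : v ∈ F := hV ▸ mem_inter.2 ⟨hR.sub _ hP.mem h1, hR2.sub f (mem_of_mem_erase h) h2⟩
      exact Finset.disjoint_left.1 hd h1 h3

theorem claimTransQ : ClaimTransQ := by
  intro ι _ V V2 𝓕 𝓕2 φ φ2 N N2 F S T pl a e0 e3 e4 ω κG κ hR hR2 hV hF hF2 he hP hd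
  refine port_trans hP (F := F) ?_ hd ?_ ?_
  · intro v hv
    exact gφ_right hV he (hR2.sub _ hP.mem hv)
  · intro f hf hne
    refine ⟨mem_union_right _ (mem_erase.2 ⟨hne, hf⟩), ?_⟩
    unfold gN
    rw [if_neg]
    intro hf'
    have h1 : f ⊆ F := by
      rw [← hV]
      exact subset_inter (hR.sub f hf') (hR2.sub f hf)
    exact hne (facet_eq hR2 hf hF2 h1)
  · intro f hf
    rcases mem_union.1 hf with h | h
    · right
      rw [Finset.eq_empty_iff_forall_notMem]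
      intro v hv
      obtain ⟨h1, h2⟩ := mem_inter.1 hv
      have h3 : v ∈ F := hV ▸ mem_inter.2 ⟨hR.sub f (mem_of_mem_erase h) h2, hR2.sub _ hP.mem h1⟩
      exact Finset.disjoint_left.1 hd h1 h3
    · left
      exact ⟨mem_of_mem_erase h, ne_of_mem_erase h⟩

theorem B_neg_right (x y : E) : B x (-y) = -B x y := by
  unfold B
  simp only [Pi.neg_apply]
  ring

theorem claimTransS : ClaimTransS := by
  intro ι _ V V2 𝓕 𝓕2 φ φ2 N N2 S T T2 T3 pl a b e0 e3 e4 f0 ω κG κ κ2 κ3 hR hR2 hV he hP hP2 hκ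
    hP3 hbV hba
  set F := pF S pl a with hFdef
  have hFm : F ∈ 𝓕 := hP.mem
  have hFm2 : F ∈ 𝓕2 := hP2.mem
  have hbF : b ∉ F := fun h => hbV (hR.sub F hFm h)
  have hplF : ∀ j ∈ S, pl j ∈ F := fun j hj => mem_pF hj
  have hne2 : ∀ f ∈ 𝓕2, f ≠ F → f ∉ 𝓕 := by
    intro f hf hne hf'
    have h1 : f ⊆ F := by
      rw [← hV]
      exact subset_inter (hR.sub f hf') (hR2.sub f hf)
    exact hne (facet_eq hR2 hf hFm2 h1)
  have hgN2 : ∀ f ∈ 𝓕2, f ≠ F → gN 𝓕 N N2 f = N2 f := by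
    intro f hf hne
    unfold gN
    rw [if_neg (hne2 f hf hne)]
  have hgN1 : ∀ f ∈ 𝓕, gN 𝓕 N N2 f = N f := by
    intro f hf
    unfold gN
    rw [if_pos hf]
  have hφ : ∀ v ∈ pF S pl b, gφ V φ φ2 v = φ2 v := fun v hv =>
    gφ_right hV he (hR2.sub _ hP3.mem hv)
  have hbne : pF S pl b ≠ F := by
    intro h
    exact hbF (h ▸ ap_pF)
  obtain ⟨f1, hf1, hf1F, hf1s, c, hc, hN1⟩ := hP.spine
  have hf1' : f1 ∈ 𝓕.erase F ∪ 𝓕2.erase F := mem_union_left _ (mem_erase.2 ⟨hf1F, hf1⟩)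
  have hf1b : f1 ≠ pF S pl b := by
    intro h
    exact hbV (hR.sub f1 hf1 (h ▸ ap_pF))
  have hf1N : ∃ c : ℝ, 0 < c ∧ ∀ x, gN 𝓕 N N2 f1 x = c * (B x e4 + -1 / κG * B x (-e3)) := by
    refine ⟨c * κG, mul_pos hc hκ, fun x => ?_⟩
    rw [hgN1 f1 hf1, hN1, B_neg_right]
    field_simp
    ring
  refine ⟨hP3.frame, hP3.tri, cyc_congr hP3.cyc (fun j hj => hφ _ (mem_pF hj)), hP3.sub, hP3.card,
    intC_congr hP3.int (fun j hj => hφ _ (mem_pF (hP3.sub hj))), hP3.inj, hP3.apn, ?_, ?_, ?_, ?_,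
    ?_, ?_⟩
  · exact mem_union_right _ (mem_erase.2 ⟨hbne, hP3.mem⟩)
  · rw [hφ b ap_pF]; exact hP3.apex
  · rw [hgN2 _ hP3.mem hbne]; exact hP3.nF
  · exact ⟨f1, hf1', hf1b, hf1s, hf1N⟩
  · intro p hp
    obtain ⟨f, hf, g1, g2, g3, g4, m, hm, c', hc', hN⟩ := hP3.side p hp
    have hfne : f ≠ F := by
      rintro rfl
      exact hbF g2
    refine ⟨f, mem_union_right _ (mem_erase.2 ⟨hfne, hf⟩), g1, g2, g3, g4, m,
      edgeF_congr hm (hφ _ (mem_pF (Ed_mem hp).1)) (hφ _ (mem_pF (Ed_mem hp).2)), c', hc', ?_⟩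
    rw [hgN2 f hf hfne]; exact hN
  · intro f hf hfb
    by_cases hff : f = f1
    · left
      rw [hff]; exact hf1N
    rcases mem_union.1 hf with h | h
    · right; right
      refine ⟨f1, hf1', hf1b, Ne.symm hff, ?_⟩
      intro v hv
      obtain ⟨h1, h2⟩ := mem_inter.1 hv
      rcases mem_insert.1 h1 with h3 | h3
      · exact absurd (hR.sub f (mem_of_mem_erase h) (h3 ▸ h2)) hbV
      · exact hf1s h3
    · have hfm := mem_of_mem_erase h
      have hfF := ne_of_mem_erase h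
      rcases hP3.nonadj f hfm hfb with ⟨c', hc', hN⟩ | ⟨p, hp, m, hm, hk⟩ | ⟨k, hk1, hk2, hk3, hk4⟩
      · exfalso
        apply hfF
        obtain ⟨c2, hc2, hN2⟩ := hP2.nF
        have key : ∀ v ∈ V2, N2 f (φ2 v) = 0 ↔ N2 F (φ2 v) = 0 := by
          intro v _
          rw [hN, hN2, B_neg_right, B_neg_right]
          constructor
          · intro h0
            have : B (φ2 v) e4 = 0 := by
              rcases mul_eq_zero.1 h0 with h1 | h1
              · exact absurd h1 hc'.ne'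
              · linarith
            rw [this]; ring
          · intro h0
            have : B (φ2 v) e4 = 0 := by
              have h1 : c2 * B (φ2 v) e4 = 0 := by linarith
              rcases mul_eq_zero.1 h1 with h2 | h2
              · exact absurd h2 hc2.ne'
              · exact h2
            rw [this]; ring
        ext v
        constructor
        · intro hv
          have hv2 := hR2.sub f hfm hv
          exact (hR2.zero F hFm2 v hv2).1 ((key v hv2).1 ((hR2.zero f hfm v hv2).2 hv))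
        · intro hv
          have hv2 := hR2.sub F hFm2 hv
          exact (hR2.zero f hfm v hv2).1 ((key v hv2).2 ((hR2.zero F hFm2 v hv2).2 hv))
      · right; left
        refine ⟨p, hp, m, edgeF_congr hm (hφ _ (mem_pF (Ed_mem hp).1))
          (hφ _ (mem_pF (Ed_mem hp).2)), ?_⟩
        rw [hgN2 f hfm hfF]; exact hk
      · right; right
        by_cases hkF : k = F
        · refine ⟨f1, hf1', hf1b, Ne.symm hff, ?_⟩
          intro v hv
          have hvF : v ∈ F := hkF ▸ hk4 hv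
          obtain ⟨h1, h2⟩ := mem_inter.1 hv
          rcases mem_insert.1 h1 with h3 | h3
          · exact absurd (h3 ▸ hvF) hbF
          · exact hf1s h3
        · exact ⟨k, mem_union_right _ (mem_erase.2 ⟨hkF, hk1⟩), hk2, hk3, hk4⟩

end Pool.Agent.Work.MP_5b14b0_lc
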