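import Pool.Agent.Work.MP_5b14b0_lc.Defs

/-!
# Quadratic systems, the line problem, and the translation between them
-/

set_option autoImplicit false

namespace Pool.Agent.Work.MP_5b14b0_lc

open Pool.Agent.PT

/-! ### Quadratic systems -/

/-- A constraint `(t, i, j, k)`: `ξ i + ξ j = ξ k` if `t = 0`, otherwise `ξ i * ξ j = ξ k`. -/
abbrev QC := ℕ × ℕ × ℕ × ℕ

/-- A system: the number of variables and the constraints. The variable `0` has the value 1. -/
abbrev QInst := ℕ × List QC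

def QValid (q : QInst) : Prop :=
  1 ≤ q.1 ∧ ∀ c ∈ q.2, c.2.1 < q.1 ∧ c.2.2.1 < q.1 ∧ c.2.2.2 < q.1

def QHolds (ξ : ℕ → ℝ) (c : QC) : Prop :=
  (c.1 = 0 → ξ c.2.1 + ξ c.2.2.1 = ξ c.2.2.2) ∧ (c.1 ≠ 0 → ξ c.2.1 * ξ c.2.2.1 = ξ c.2.2.2)

def QuadSol (q : QInst) : Prop := ∃ ξ : ℕ → ℝ, ξ 0 = 1 ∧ ∀ c ∈ q.2, QHolds ξ c

/-- Codes of formulas can be recognized and parsed in polynomial time. -/
def ClaimParse : Prop := ∃ P : List Bool → Option (List Tok), PTF P ∧
  ∀ w toks, P w = some toks ↔ ∃ φ : Formula, φ.code = w ∧ φ.toks = toks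

/-- From formulas to quadratic systems. -/
def ClaimQuad : Prop := ∃ Q : List Tok → QInst, PTF Q ∧
  ∀ φ : Formula, QValid (Q φ.toks) ∧ ((∃ x : ℕ → ℝ, φ.Holds x) ↔ QuadSol (Q φ.toks))

/-! ### The line problem

Points `t_0 < t_1 < ... < t_(n-2)` on the real line and `t_(n-1) = ∞`; a hexagon is a list
`[h1, h2, h3, h3', h2', h1']` in cyclic order; the three pairs `(hi, hi')` are required to be
exchanged by a common involution. -/

/-- An instance: the number of points and the hexagons. -/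
abbrev OInst := ℕ × List (List ℕ)

/-- A hexagon: six points in cyclic order. -/
def HexOK (n : ℕ) (h : List ℕ) : Prop :=
  h.length = 6 ∧ (∃ r, (h.rotate r).Pairwise (· < ·)) ∧ ∀ i ∈ h, i < n

def OValid (o : OInst) : Prop := 7 ≤ o.1 ∧ ∀ h ∈ o.2, HexOK o.1 h

/-- Homogeneous coordinates of the points. -/
def hX (t : ℕ → ℝ) (n k : ℕ) : ℝ := if k + 1 = n then 1 else t k
def hY (n k : ℕ) : ℝ := if k + 1 = n then 0 else 1

/-- The pair `(i, j)` satisfies the equation of the involution. -/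
def Inv (t : ℕ → ℝ) (n : ℕ) (α β γ : ℝ) (i j : ℕ) : Prop :=
  α * (hX t n i * hX t n j) + β * (hX t n i * hY n j + hX t n j * hY n i) +
    γ * (hY n i * hY n j) = 0

/-- The three pairs of the hexagon are exchanged by an involution. -/
def HexInv (t : ℕ → ℝ) (n : ℕ) (h : List ℕ) : Prop :=
  ∃ α β γ : ℝ, ¬ (α = 0 ∧ β = 0 ∧ γ = 0) ∧ Inv t n α β γ (h.getD 0 0) (h.getD 5 0) ∧
    Inv t n α β γ (h.getD 1 0) (h.getD 4 0) ∧ Inv t n α β γ (h.getD 2 0) (h.getD 3 0)

def OSol (o : OInst) : Prop := ∃ t : ℕ → ℝ, (∀ i j, i < j → j + 1 < o.1 → t i < t j) ∧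
  ∀ h ∈ o.2, HexInv t o.1 h

/-! ### The translation

Point `0` is the number 0, point `n - 1` is `∞`. The values of the points `1, ..., 12` are
`5/8, 7/8, 1, 9/8, 5/4, 11/8, 7/4, 2, 9/4, 11/4, 3, 3 + 2ε`; then follow for `e = 2, 3, ...` the
point `2^e` (index `2 e + 9`) and the special point of octave `e` (index `2 e + 10`) with a value
`2^e y`, `1 < y < 2`. A special point is used as a register containing the number `y`. -/

/-- Index of the point `2^e`. -/
def cI (e : ℕ) : ℕ := if e = 0 then 3 else if e = 1 then 8 else 2 * e + 9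
/-- Index of the special point of octave `e`, for `e ≥ 2`. -/
def sI (e : ℕ) : ℕ := 2 * e + 10

/-- `V i * V j = V k * V l`. -/
def H4 (n i j k l : ℕ) : List ℕ :=
  if min i j < min k l then [0, min i j, min k l, max k l, max i j, n - 1]
  else [0, min k l, min i j, max i j, max k l, n - 1]

/-- `y_o = y_v`. -/
def hCopy (n o v : ℕ) : List (List ℕ) := [H4 n (sI o) (cI v) (sI v) (cI o)]
/-- `y_a * y_b = 2^s * y_c`. -/
def hMul (n a b c s : ℕ) : List (List ℕ) := [H4 n (sI a) (sI b) (sI c) (cI (a + b + s - c))]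
/-- Index of the operand: special point or power of 2. -/
def rI (A : ℕ) (b : Bool) : ℕ := if b then sI A else cI A
/-- `2^α * y_A + 2^β * y_B = 2^γ * y_C`, where `y_A = 1` for a power of 2. Auxiliary points:
`Q` in octave `p`, `Q'` in octave `p'`. -/
def hSum (n A : ℕ) (bA : Bool) (α B : ℕ) (bB : Bool) (β C γ p p' : ℕ) : List (List ℕ) :=
  [H4 n (sI p) (sI C) (rI A bA) (cI (p + C + 1 + α - γ - A)),
    H4 n (sI p') (sI C) (rI B bB) (cI (p + C + 1 + β - γ - B)),
    [sI p', cI p, sI p, cI (p + 1), n - 1, 0]]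

/-- Start of the registers. -/
def qL (q : QInst) : ℕ := q.1 + 28 * q.2.length + 8
/-- Number of points. -/
def qn (q : QInst) : ℕ := 6 * qL q + 12

/-- Constants 1, 2, 4, 3, the chain of powers of 2 and the registers of `x_0`, `3/2`, `7/4`. -/
def hBase (q : QInst) : List (List ℕ) :=
  [[2, 3, 4, 8, qn q - 1, 0], [1, 3, 6, 8, qn q - 1, 0], [2, 3, 4, 6, qn q - 1, 1],
    [7, 8, 9, 13, qn q - 1, 0], [5, 8, 10, 13, qn q - 1, 0], [7, 8, 9, 10, qn q - 1, 5],
    [3, 8, 11, 13, qn q - 1, 0]] ++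
  (List.range (3 * qL q - 2)).map
    (fun e => H4 (qn q) (cI e) (cI (e + 3)) (cI (e + 1)) (cI (e + 2))) ++
  [H4 (qn q) (sI (qL q)) 8 12 (cI (qL q)),
    H4 (qn q) (sI (qL q + q.1)) 8 11 (cI (qL q + q.1))] ++
  hSum (qn q) (qL q + q.1) false 1 (qL q + q.1) true 0 (qL q + q.1 + 1) 1
    (qL q + q.1 + 3) (qL q + q.1 + 2)

/-- The zone of an additive constraint, starting in octave `o`. -/
def hAdd (n L N o i j k : ℕ) : List (List ℕ) :=
  hCopy n o (L + i) ++ hCopy n (o + 1) (L + j) ++ hCopy n (o + 2) (L + k) ++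
  hSum n o false 1 o true 0 (o + 3) 1 (o + 6) (o + 5) ++
  hSum n (o + 3) true 1 (o + 1) true 0 (o + 4) 2 (o + 8) (o + 7) ++
  hSum n (L + N + 1) true 1 (o + 2) true 0 (o + 4) 2 (o + 10) (o + 9)

/-- The zone of a multiplicative constraint, starting in octave `o`. -/
def hMult (n L N o i j k : ℕ) : List (List ℕ) :=
  hCopy n o L ++ hCopy n (o + 1) (L + k) ++ hCopy n (o + 2) (L + i) ++ hCopy n (o + 3) (L + j) ++
  hSum n o false 1 o true 0 (o + 4) 1 (o + 14) (o + 13) ++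
  hSum n (o + 4) true 1 (o + 1) true 0 (o + 5) 2 (o + 16) (o + 15) ++
  hSum n o false 1 (o + 2) true 0 (o + 6) 1 (o + 18) (o + 17) ++
  hSum n (o + 6) true 1 (o + 3) true 0 (o + 7) 2 (o + 20) (o + 19) ++
  hMul n (o + 2) (o + 3) (o + 8) 1 ++ hMul n o (o + 1) (o + 9) 1 ++
  hMul n (L + N) (o + 5) (o + 10) 0 ++ hMul n (L + N) (o + 7) (o + 11) 0 ++
  hSum n (o + 10) true 2 (o + 8) true 1 (o + 12) 3 (o + 23) (o + 21) ++
  hSum n (o + 11) true 2 (o + 9) true 1 (o + 12) 3 (o + 26) (o + 24)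

/-- The zone of the constraint number `t`. -/
def hCons (q : QInst) (t : ℕ) : List (List ℕ) :=
  if (q.2.getD t (0, 0, 0, 0)).1 = 0 then
    hAdd (qn q) (qL q) q.1 (qL q + q.1 + 4 + 28 * t) (q.2.getD t (0, 0, 0, 0)).2.1
      (q.2.getD t (0, 0, 0, 0)).2.2.1 (q.2.getD t (0, 0, 0, 0)).2.2.2
  else
    hMult (qn q) (qL q) q.1 (qL q + q.1 + 4 + 28 * t) (q.2.getD t (0, 0, 0, 0)).2.1
      (q.2.getD t (0, 0, 0, 0)).2.2.1 (q.2.getD t (0, 0, 0, 0)).2.2.2

/-- The translation. -/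
def comp (q : QInst) : OInst :=
  (qn q, hBase q ++ (List.range q.2.length).flatMap (hCons q))

def ClaimCompPtf : Prop := PTF comp
def ClaimCompValid : Prop := ∀ q, QValid q → OValid (comp q)
def ClaimCompSound : Prop := ∀ q, QValid q → OSol (comp q) → QuadSol q
def ClaimCompComplete : Prop := ∀ q, QValid q → QuadSol q → OSol (comp q)

end Pool.Agent.Work.MP_5b14b0_lc
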