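import Pool.Agent.Work.MP_5b14b0_lc.Defs

/-!
# Membership in ER: determinants
-/

set_option autoImplicit false

namespace Pool.Agent.Work.MP_5b14b0_lc

open Pool.Agent.PT

/-- Homogeneous coordinates of the point `i`; its coordinates are `x (d i), ..., x (d i + d - 1)`. -/
def hrow (d : ℕ) (x : ℕ → ℝ) (i : ℕ) (k : Fin (d + 1)) : ℝ :=
  if (k : ℕ) < d then x (d * i + k) else 1

/-- The determinant of the points `t 0, ..., t (d-1), j`. -/
noncomputable def Dt (d : ℕ) (x : ℕ → ℝ) (t : Fin d → ℕ) (j : ℕ) : ℝ :=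
  Matrix.det (Matrix.of (fun (r : Fin (d + 1)) (k : Fin (d + 1)) =>
    hrow d x (if h : (r : ℕ) < d then t ⟨r, h⟩ else j) k))

/-- The tuple `t` spans a facet with vertex set `S`. -/
def Spans (d n : ℕ) (x : ℕ → ℝ) (t : Fin d → ℕ) (S : List ℕ) : Prop :=
  (∃ j, j < n ∧ Dt d x t j ≠ 0) ∧
  ((∀ j, j < n → 0 ≤ Dt d x t j) ∨ (∀ j, j < n → Dt d x t j ≤ 0)) ∧
  ∀ j, j < n → (Dt d x t j = 0 ↔ j ∈ S)

/-- Inscribed realizability in terms of determinants. -/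
def InsDet (d : ℕ) (T : CombType) : Prop :=
  (∀ G ∈ T.facets, ∀ i ∈ G, i < T.n) ∧
  ∃ x : ℕ → ℝ,
    (∀ i j, i < T.n → j < T.n → i ≠ j → ∃ k, k < d ∧ x (d * i + k) ≠ x (d * j + k)) ∧
    (∃ (c : ℕ → ℝ) (r : ℝ), ∀ i, i < T.n →
      ∑ k ∈ Finset.range d, (x (d * i + k) - c k) ^ 2 = r) ∧
    (∃ t : Fin d → ℕ, (∀ k, t k < T.n) ∧ ∃ j, j < T.n ∧ Dt d x t j ≠ 0) ∧
    (∀ t : Fin d → ℕ, (∀ k, t k < T.n) → (∃ j, j < T.n ∧ Dt d x t j ≠ 0) →
      ((∀ j, j < T.n → 0 ≤ Dt d x t j) ∨ (∀ j, j < T.n → Dt d x t j ≤ 0)) →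
      ∃ G ∈ T.facets, ∀ j, j < T.n → (Dt d x t j = 0 ↔ j ∈ G)) ∧
    (∀ G ∈ T.facets, ∃ t : Fin d → ℕ, (∀ k, t k < T.n) ∧ Spans d T.n x t G)

/-- Geometry: the determinant description is correct. -/
def ClaimMembGeom : Prop := ∀ d, 2 ≤ d → ∀ T : CombType, InscribedRealizable d T ↔ InsDet d T

/-- Syntax: the determinant description can be written down in polynomial time. -/
def ClaimMembFormula : Prop := ∀ d, 2 ≤ d → ∃ F : ℕ × List (List ℕ) → List Tok, PTF F ∧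
  ∀ T : CombType, ∃ φ : Formula, φ.toks = F (T.n, T.facets) ∧
    ((∃ x : ℕ → ℝ, φ.Holds x) ↔ InsDet d T)

/-- Codes of combinatorial types can be recognized and decoded in polynomial time. -/
def ClaimDecode : Prop := ∃ P : List Bool → Option (ℕ × List (List ℕ)), PTF P ∧
  ∀ w n Fs, P w = some (n, Fs) ↔ (CombType.mk n Fs).code = w

end Pool.Agent.Work.MP_5b14b0_lc
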