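import Pool.Agent.Work.MP_5b14b0_lc.Stmts
import Pool.Agent.Work.MP_5b14b0_lc.Memb
import Pool.Agent.Work.PT.Clock
import Pool.Agent.Work.PT.Auto

/-!
# Assembly: the main theorem from the modules
-/

set_option autoImplicit false

namespace Pool.Agent.Work.MP_5b14b0_lc

open Pool.Agent.PT Turing Function

/-! ### Polynomial-time functions on strings: composition -/

theorem asm_ptf_pow {α : Type} [Enc α] {n : α → ℕ} (hn : PTF n) (k : ℕ) :
    PTF (fun a => n a ^ k) := by
  induction k with
  | zero => exact (PTF.const 1).congr (fun a => by simp)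
  | succ k ih => exact (ih.mul hn).congr (fun a => by rw [pow_succ])

theorem asm_ptf_eval {α : Type} [Enc α] (p : Polynomial ℕ) {n : α → ℕ} (hn : PTF n) :
    PTF (fun a => p.eval (n a)) := by
  induction p using Polynomial.induction_on' with
  | add p q hp hq => exact (hp.add hq).congr (fun a => by rw [Polynomial.eval_add])
  | monomial k c =>
    exact ((PTF.const c).mul (asm_ptf_pow hn k)).congr (fun a => by rw [Polynomial.eval_monomial])

/-- Polynomial time in Mathlib's sense implies polynomial time in the sense of `PTF`. -/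
theorem PolyTimeFun.ptf {f : List Bool → List Bool} (h : PolyTimeFun f) : PTF f := by
  obtain ⟨M⟩ := h
  obtain ⟨R, hR, hRs⟩ := clock M.tm M.inputAlphabet M.outputAlphabet
  have h1 : PTF (fun s : List Bool => R (M.time.eval s.length, s)) :=
    hR.comp ((asm_ptf_eval M.time PTF.id.length).pair PTF.id)
  have h2 : PTF (fun s : List Bool => match R (M.time.eval s.length, s) with
      | some y => y
      | none => []) :=
    (PTF.option_case (o := fun s : List Bool => R (M.time.eval s.length, s))
      (f := fun _ => []) (g := fun p : List Bool × List Bool => p.2) h1 (PTF.const _)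
      PTF.snd).congr (fun a => by
        cases R (M.time.eval a.length, a) <;> rfl)
  refine h2.congr (fun s => ?_)
  have h3 : R (M.time.eval s.length, s) = some (f s) := (hRs _ _ _).2 ⟨M.outputsFun s⟩
  rw [h3]

theorem polyTimeFun_of_ptf {f : List Bool → List Bool} (h : PTF f) : PolyTimeFun f := h.tm2_raw

theorem Reduces.trans {L L' L'' : Set (List Bool)} (h : Reduces L L') (h' : Reduces L' L'') :
    Reduces L L'' := by
  obtain ⟨f, hf, hfs⟩ := h
  obtain ⟨g, hg, hgs⟩ := h'
  exact ⟨fun x => g (f x), polyTimeFun_of_ptf (hg.ptf.comp hf.ptf), fun x =>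
    (hfs x).trans (hgs _)⟩

/-! ### Injectivity of the codes -/

theorem enc_D_inj {s t : D} (h : s.enc = t.enc) : s = t := by
  rw [← parse_enc s, ← parse_enc t, h]

theorem toks_of_code {φ ψ : Formula} (h : φ.code = ψ.code) : φ.toks = ψ.toks :=
  Enc.inj (enc_D_inj h)

theorem CombType.code_inj {T T' : CombType} (h : T.code = T'.code) : T = T' := by
  have h1 : (T.n, T.facets) = (T'.n, T'.facets) := Enc.inj (enc_D_inj h)
  cases T; cases T'
  simp only [Prod.mk.injEq] at h1
  simp [h1.1, h1.2]

/-- Formulas with the same tokens are equisatisfiable. -/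
theorem sat_of_toks (hQuad : ClaimQuad) {φ ψ : Formula} (h : φ.toks = ψ.toks) :
    (∃ x : ℕ → ℝ, φ.Holds x) ↔ ∃ x : ℕ → ℝ, ψ.Holds x := by
  obtain ⟨Q, _, hQ⟩ := hQuad
  rw [(hQ φ).2, (hQ ψ).2, h]

theorem mem_ETR_code (hQuad : ClaimQuad) (φ : Formula) :
    φ.code ∈ ETR ↔ ∃ x : ℕ → ℝ, φ.Holds x := by
  constructor
  · rintro ⟨ψ, hψ, hx⟩
    exact (sat_of_toks hQuad (toks_of_code hψ)).1 hx
  · intro hx
    exact ⟨φ, rfl, hx⟩

theorem mem_INSC_code (d : ℕ) (T : CombType) : T.code ∈ INSC d ↔ InscribedRealizable d T := by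
  constructor
  · rintro ⟨T', hT', h⟩
    rw [← CombType.code_inj hT']; exact h
  · intro h
    exact ⟨T, rfl, h⟩

/-! ### Membership -/

theorem insc_mem (hQuad : ClaimQuad) (hDec : ClaimDecode) (hMF : ClaimMembFormula)
    (hMG : ClaimMembGeom) (d : ℕ) (hd : 4 ≤ d) : INSC d ∈ ER := by
  obtain ⟨P, hP, hPs⟩ := hDec
  obtain ⟨F, hF, hFs⟩ := hMF d (by omega)
  -- the false formula
  let bot : Formula := .lt (.int 0) (.int 0)
  have hbot : bot.code ∉ ETR := by
    rw [mem_ETR_code hQuad]
    rintro ⟨x, hx⟩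
    simp [bot, Formula.Holds] at hx
  refine ⟨fun w => match P w with
    | some y => (Enc.enc (F y)).enc
    | none => bot.code, polyTimeFun_of_ptf ?_, fun w => ?_⟩
  · exact (PTF.option_case (o := P) (f := fun _ => bot.code)
      (g := fun p : List Bool × (ℕ × List (List ℕ)) => (Enc.enc (F p.2)).enc) hP (PTF.const _)
      (ptf_ser (hF.comp PTF.snd))).congr (fun w => by cases P w <;> rfl)
  · cases hw : P w with
    | none =>
      simp only [hw]
      refine iff_of_false ?_ hbot
      rintro ⟨T, hT, _⟩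
      have := (hPs w T.n T.facets).2 hT
      rw [hw] at this
      exact absurd this (by simp)
    | some y =>
      obtain ⟨n, Fs⟩ := y
      simp only [hw]
      obtain ⟨φ, hφ, hφs⟩ := hFs (CombType.mk n Fs)
      have h1 : (Enc.enc (F (n, Fs))).enc = φ.code := by
        rw [Formula.code, hφ]
      rw [h1, mem_ETR_code hQuad, hφs, ← hMG d (by omega), ← mem_INSC_code,
        (hPs w n Fs).1 hw]

/-! ### Hardness -/

theorem osol_iff (hRedL : ClaimLists) (hBuild : ClaimBuild) (hSound : ClaimSound)
    (hUp : ClaimUp) (hDown : ClaimDown) (d : ℕ) (hd : 4 ≤ d) (o : OInst) (ho : OValid o) :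
    OSol o ↔ redO d o ∈ INSC d := by
  unfold redO
  rw [mem_INSC_code]
  obtain ⟨h1, h2⟩ := hRedL o ho
  constructor
  · intro h
    exact hUp d _ _ hd h1 h2 (hBuild o ho h)
  · intro h
    exact hSound o ho (hDown d _ _ hd h1 h2 h)

theorem etr_hard (hParse : ClaimParse) (hQuad : ClaimQuad) (hCptf : ClaimCompPtf)
    (hCv : ClaimCompValid) (hCs : ClaimCompSound) (hCc : ClaimCompComplete)
    (hRed : ClaimRedPtf) (hRedL : ClaimLists) (hBuild : ClaimBuild) (hSound : ClaimSound)
    (hUp : ClaimUp) (hDown : ClaimDown) (d : ℕ) (hd : 4 ≤ d) : Reduces ETR (INSC d) := by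
  obtain ⟨P, hP, hPs⟩ := hParse
  obtain ⟨Q, hQ, hQs⟩ := id hQuad
  have key : ∀ q : QInst, QValid q → (QuadSol q ↔ redO d (comp q) ∈ INSC d) := by
    intro q hq
    rw [← osol_iff hRedL hBuild hSound hUp hDown d hd _ (hCv q hq)]
    exact ⟨hCc q hq, hCs q hq⟩
  let q0 : QInst := (1, [(0, 0, 0, 0)])
  have hq0 : QValid q0 := by
    refine ⟨le_rfl, ?_⟩
    intro c hc
    simp only [q0, List.mem_singleton] at hc
    subst hc
    simp [q0]
  have hq0s : ¬ QuadSol q0 := by
    rintro ⟨ξ, h0, h⟩
    have := (h (0, 0, 0, 0) (by simp [q0])).1 rfl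
    simp only [h0] at this
    norm_num at this
  refine ⟨fun w => match P w with
    | some y => redO d (comp (Q y))
    | none => redO d (comp q0), polyTimeFun_of_ptf ?_, fun w => ?_⟩
  · exact (PTF.option_case (o := P) (f := fun _ => redO d (comp q0))
      (g := fun p : List Bool × List Tok => redO d (comp (Q p.2))) hP (PTF.const _)
      ((hRed d).comp (hCptf.comp (hQ.comp PTF.snd)))).congr (fun w => by cases P w <;> rfl)
  · cases hw : P w with
    | none =>
      simp only [hw]
      refine iff_of_false ?_ (fun h => hq0s ((key q0 hq0).2 h))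
      rintro ⟨φ, hφ, _⟩
      have := (hPs w φ.toks).2 ⟨φ, hφ, rfl⟩
      rw [hw] at this
      exact absurd this (by simp)
    | some y =>
      simp only [hw]
      obtain ⟨φ, hφ, hy⟩ := (hPs w y).1 hw
      subst hy
      rw [← key _ (hQs φ).1, ← (hQs φ).2, ← hφ, mem_ETR_code hQuad]

/-- The main theorem from the modules. -/
theorem main_of (hParse : ClaimParse) (hQuad : ClaimQuad) (hCptf : ClaimCompPtf)
    (hCv : ClaimCompValid) (hCs : ClaimCompSound) (hCc : ClaimCompComplete)
    (hRed : ClaimRedPtf) (hRedL : ClaimLists) (hBuild : ClaimBuild) (hSound : ClaimSound)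
    (hUp : ClaimUp) (hDown : ClaimDown) (hDec : ClaimDecode) (hMF : ClaimMembFormula)
    (hMG : ClaimMembGeom) : Main := by
  intro d hd
  refine ⟨insc_mem hQuad hDec hMF hMG d hd, fun L' hL' => ?_⟩
  exact Reduces.trans hL' (etr_hard hParse hQuad hCptf hCv hCs hCc hRed hRedL hBuild hSound
    hUp hDown d hd)

end Pool.Agent.Work.MP_5b14b0_lc
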