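import Pool.Agent.Work.MP_5b14b0_lc.Alg

/-!
# The combinatorial type assigned to an instance of the line problem
-/

set_option autoImplicit false

namespace Pool.Agent.Work.MP_5b14b0_lc

open Pool.Agent.PT

/-- Labels of vertices. -/
abbrev Lab := ℕ × ℕ × ℕ × ℕ

/-- Vertex `j` of the main polygon `k`. -/
def gL (k j : ℕ) : Lab := (0, k, 0, j)
/-- Main apex `k`. -/
def aL (k : ℕ) : Lab := (1, k, 0, 0)
/-- The apex of the initial pyramid. -/
def cL : Lab := (2, 0, 0, 0)
/-- Vertex `j` of the polygon of level `ℓ` of branch `k`. -/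
def pol (k ℓ j : ℕ) : Lab := if ℓ = 0 then gL k j else (4, k, ℓ, j)
/-- The apex of level `ℓ` of branch `k`. -/
def ap (k ℓ : ℕ) : Lab := if ℓ = 0 then (3, k, 0, 0) else (5, k, ℓ, 0)
/-- Vertices of the leaf `k`: `i = 0, 1, 2` for `x, y, z`, `s = 0, 1` for the two copies. -/
def xL (k i s : ℕ) : Lab := (6, k, i, s)

/-- The edges of the polygon with vertex set `S` in its cyclic order, as pairs `(i, j)`,
`i < j`: no other vertex between `i` and `j`, or all other vertices between `i` and `j`. -/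
def EdL (S : List ℕ) : List (ℕ × ℕ) :=
  (S.product S).filter (fun p => decide (p.1 < p.2) &&
    ((S.all (fun k => decide (k ≤ p.1) || decide (p.2 ≤ k))) ||
      (S.all (fun k => decide (p.1 ≤ k) && decide (k ≤ p.2)))))

/-- The vertices which are not in the hexagon. -/
def del (n : ℕ) (h : List ℕ) : List ℕ := (List.range n).filter (fun j => decide (¬ j ∈ h))

/-- The vertices present at level `ℓ`. -/
def Sl (n : ℕ) (h : List ℕ) (ℓ : ℕ) : List ℕ :=
  (List.range n).filter (fun j => decide (¬ j ∈ (del n h).take ℓ))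

/-- Initial facets. -/
def fInit (n : ℕ) : List (List Lab) :=
  ((List.range n).map (gL 0) ++ [cL]) ::
    (EdL (List.range n)).map (fun e => [aL 0, cL, gL 0 e.1, gL 0 e.2])

/-- The facets of the branching gadget `k`. -/
def fMain (n k : ℕ) : List (List Lab) :=
  (EdL (List.range n)).map
    (fun e => [aL k, gL k e.1, gL k e.2, aL (k + 1), gL (k + 1) e.1, gL (k + 1) e.2]) ++
  (EdL (List.range n)).map
    (fun e => [ap k 0, gL k e.1, gL k e.2, gL (k + 1) e.1, gL (k + 1) e.2]) ++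
  [(List.range n).map (gL (k + 1)) ++ [ap k 0]]

/-- The vertex deleted at level `ℓ`. -/
def delV (n : ℕ) (h : List ℕ) (ℓ : ℕ) : ℕ := (del n h).getD ℓ 0

/-- The facets of the deletion gadget at level `ℓ` of branch `k`. -/
def fAd (n : ℕ) (h : List ℕ) (k ℓ : ℕ) : List (List Lab) :=
  (EdL (Sl n h ℓ)).map (fun e =>
    [ap k ℓ, pol k ℓ e.1, pol k ℓ e.2, ap k (ℓ + 1), pol k (ℓ + 1) e.1, pol k (ℓ + 1) e.2].filter
      (fun l => decide (l ≠ pol k (ℓ + 1) (delV n h ℓ)))) ++
  [(Sl n h ℓ).map (pol k ℓ) ++ (Sl n h (ℓ + 1)).map (pol k (ℓ + 1)),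
    [pol k ℓ (delV n h ℓ), ap k (ℓ + 1)] ++
      ((Sl n h (ℓ + 1)).filter (fun u => decide ((u, delV n h ℓ) ∈ EdL (Sl n h ℓ)) ||
        decide ((delV n h ℓ, u) ∈ EdL (Sl n h ℓ)))).map (pol k (ℓ + 1))]

/-- The facets of the leaf gadget of branch `k`; `q i` are the vertices of the hexagon in the
order `h1, h2, h3, h3', h2', h1'` and `w` is the apex. -/
def fLeafAt (q : ℕ → Lab) (w : Lab) (k : ℕ) : List (List Lab) :=
  [[q 0, q 1, q 2, q 3, q 4, q 5, xL k 2 0, xL k 2 1],
    [q 0, q 5, xL k 0 0, xL k 0 1, w], [q 2, q 3, xL k 0 0, xL k 0 1, w],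
    [q 0, q 1, xL k 0 0, w], [q 1, q 2, xL k 0 0, w],
    [q 5, q 4, xL k 0 1, w], [q 4, q 3, xL k 0 1, w],
    [q 0, q 5, xL k 0 0, xL k 0 1, xL k 1 0, xL k 1 1],
    [q 2, q 3, xL k 0 0, xL k 0 1, xL k 1 0, xL k 1 1],
    [q 0, q 5, xL k 1 0, xL k 1 1, xL k 2 0, xL k 2 1],
    [q 2, q 3, xL k 1 0, xL k 1 1, xL k 2 0, xL k 2 1],
    [q 1, xL k 0 0, xL k 1 0, xL k 2 0, q 0], [q 1, xL k 0 0, xL k 1 0, xL k 2 0, q 2],
    [q 4, xL k 0 1, xL k 1 1, xL k 2 1, q 5], [q 4, xL k 0 1, xL k 1 1, xL k 2 1, q 3]]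

/-- The facets of branch `k`. -/
def fBranch (n : ℕ) (h : List ℕ) (k : ℕ) : List (List Lab) :=
  (List.range (n - 6)).flatMap (fun ℓ => fAd n h k ℓ) ++
    fLeafAt (fun i => pol k (n - 6) (h.getD i 0)) (ap k (n - 6)) k

/-- All facets. -/
def cpx (o : OInst) : List (List Lab) :=
  fInit o.1 ++
    (List.range o.2.length).flatMap (fun k => fMain o.1 k ++ fBranch o.1 (o.2.getD k []) k) ++
    [(List.range o.1).map (gL o.2.length) ++ [aL o.2.length]]

/-- The vertices of branch `k` (without the main polygons). -/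
def vBranch (n : ℕ) (h : List ℕ) (k : ℕ) : List Lab :=
  [ap k 0] ++
    (List.range (n - 6)).flatMap
      (fun ℓ => ap k (ℓ + 1) :: (Sl n h (ℓ + 1)).map (pol k (ℓ + 1))) ++
    [xL k 0 0, xL k 0 1, xL k 1 0, xL k 1 1, xL k 2 0, xL k 2 1]

/-- All vertices. -/
def labs (o : OInst) : List Lab :=
  [cL] ++ (List.range (o.2.length + 1)).flatMap (fun k => aL k :: (List.range o.1).map (gL k)) ++
    (List.range o.2.length).flatMap (fun k => vBranch o.1 (o.2.getD k []) k)

/-- The combinatorial type in dimension `d`: the `(d - 4)`-fold pyramid over the type with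
vertices `Vs` and facets `Fs`. -/
def instOf (d : ℕ) (Vs : List Lab) (Fs : List (List Lab)) : CombType where
  n := Vs.length + (d - 4)
  facets := Fs.map (fun F => F.map (fun l => Vs.idxOf l) ++
      (List.range (d - 4)).map (fun i => Vs.length + i)) ++
    (List.range (d - 4)).map (fun i =>
      (List.range (Vs.length + (d - 4))).filter (fun j => decide (j ≠ Vs.length + i)))

/-- The reduction from the line problem. -/
def redO (d : ℕ) (o : OInst) : List Bool := (instOf d (labs o) (cpx o)).code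

def ClaimRedPtf : Prop := ∀ d, PTF (redO d)

end Pool.Agent.Work.MP_5b14b0_lc
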