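import Pool.Agent.Work.PT.Serial
import Pool.Agent.Work.PT.Bridge

/-!
# Inscribed realizability of combinatorial types and the class ER

Definitions used in the statement of the result: quantifier-free formulas over the reals, the
existential theory of the reals `ETR`, the class `ER`, combinatorial types given by their facet
lists, inscribed realizations in dimension `d`.
-/

set_option autoImplicit false

namespace Pool.Agent.Work.MP_5b14b0_lc

open Turing Pool.Agent.PT

/-! ### The existential theory of the reals -/

/-- Polynomials with integer coefficients in the variables `x_0, x_1, ...`. -/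
inductive Poly
  | var (i : ℕ)
  | int (z : ℤ)
  | add (p q : Poly)
  | mul (p q : Poly)

/-- The value of a polynomial. -/
def Poly.eval (x : ℕ → ℝ) : Poly → ℝ
  | .var i => x i
  | .int z => z
  | .add p q => p.eval x + q.eval x
  | .mul p q => p.eval x * q.eval x

/-- Boolean combinations of polynomial equations and strict inequalities. -/
inductive Formula
  | eq (p q : Poly)
  | lt (p q : Poly)
  | not (φ : Formula)
  | and (φ ψ : Formula)
  | or (φ ψ : Formula)

/-- Truth of a formula. -/
def Formula.Holds (x : ℕ → ℝ) : Formula → Prop
  | .eq p q => p.eval x = q.eval x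
  | .lt p q => p.eval x < q.eval x
  | .not φ => ¬ φ.Holds x
  | .and φ ψ => φ.Holds x ∧ ψ.Holds x
  | .or φ ψ => φ.Holds x ∨ ψ.Holds x

/-- A token: a tag and a string of bits. -/
abbrev Tok := ℕ × List Bool

/-- An integer in binary: the sign and the binary digits of the absolute value. -/
def intBits (z : ℤ) : List Bool := decide (z < 0) :: Nat.bits z.natAbs

/-- A polynomial in prefix notation. Indices of variables are written in unary, integers in
binary. -/
def Poly.toks : Poly → List Tok
  | .var i => [(0, List.replicate i true)]
  | .int z => [(1, intBits z)]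
  | .add p q => (2, []) :: (p.toks ++ q.toks)
  | .mul p q => (3, []) :: (p.toks ++ q.toks)

/-- A formula in prefix notation. -/
def Formula.toks : Formula → List Tok
  | .eq p q => (4, []) :: (p.toks ++ q.toks)
  | .lt p q => (5, []) :: (p.toks ++ q.toks)
  | .not φ => (6, []) :: φ.toks
  | .and φ ψ => (7, []) :: (φ.toks ++ ψ.toks)
  | .or φ ψ => (8, []) :: (φ.toks ++ ψ.toks)

/-- The code of a formula: its list of tokens, written as a bit string (lists, pairs, unary
numbers and bits are binary trees, see `Enc`; a binary tree is written as the string
`D.enc`). -/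
def Formula.code (φ : Formula) : List Bool := (Enc.enc φ.toks).enc

/-- The existential theory of the reals: the codes of the quantifier-free formulas which hold
for some real values of the variables. -/
def ETR : Set (List Bool) := {w | ∃ φ : Formula, φ.code = w ∧ ∃ x : ℕ → ℝ, φ.Holds x}

/-! ### Polynomial time reductions (Mathlib's multi-stack Turing machines) -/

/-- `f` is computed in polynomial time. -/
def PolyTimeFun (f : List Bool → List Bool) : Prop :=
  Nonempty (TM2ComputableInPolyTime (fun x : List Bool => x) (fun y : List Bool => y) f)

/-- Polynomial-time many-one reducibility. -/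
def Reduces (L L' : Set (List Bool)) : Prop :=
  ∃ f : List Bool → List Bool, PolyTimeFun f ∧ ∀ x, x ∈ L ↔ f x ∈ L'

/-- The class ER: the problems which reduce to the existential theory of the reals. -/
def ER : Set (Set (List Bool)) := {L | Reduces L ETR}

/-- ER-completeness. -/
def ERComplete (L : Set (List Bool)) : Prop := L ∈ ER ∧ ∀ L' ∈ ER, Reduces L' L

/-! ### Inscribed polytopes -/

/-- A combinatorial type: the vertex set is `{0, ..., n-1}`, the intended facets are given by
the lists of their vertices. -/
structure CombType where
  /-- the number of vertices -/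
  n : ℕ
  /-- the vertex sets of the facets -/
  facets : List (List ℕ)

/-- The code of a combinatorial type. -/
def CombType.code (T : CombType) : List Bool := (Enc.enc (T.n, T.facets)).enc

/-- `F` is a facet of `P ⊆ ℝ^d`: an exposed face of dimension `d - 1`. -/
def IsFacet {d : ℕ} (P F : Set (EuclideanSpace ℝ (Fin d))) : Prop :=
  IsExposed ℝ P F ∧ Module.finrank ℝ (vectorSpan ℝ F) + 1 = d

/-- `T` is realized by a `d`-polytope inscribed in a sphere: there are points `p i` on a common
sphere, such that `i ↦ p i` is a bijection from the vertex set of `T` onto the vertex set of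
`P = conv {p i}`, `P` has nonempty interior, and the vertex sets of the facets of `P` are
exactly the images of the given sets. -/
def InscribedRealizable (d : ℕ) (T : CombType) : Prop :=
  (∀ G ∈ T.facets, ∀ i ∈ G, i < T.n) ∧
  ∃ p : Fin T.n → EuclideanSpace ℝ (Fin d), ∃ P : Set (EuclideanSpace ℝ (Fin d)),
    P = convexHull ℝ (Set.range p) ∧ (interior P).Nonempty ∧
    Function.Injective p ∧ Set.range p = P.extremePoints ℝ ∧
    (∃ (c : EuclideanSpace ℝ (Fin d)) (r : ℝ), ∀ i, dist (p i) c = r) ∧
    {S : Set (Fin T.n) | ∃ F, IsFacet P F ∧ S = {i | p i ∈ F}} =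
      {S : Set (Fin T.n) | ∃ G ∈ T.facets, S = {i : Fin T.n | (i : ℕ) ∈ G}}

/-- The decision problem `INSC_d`. -/
def INSC (d : ℕ) : Set (List Bool) :=
  {w | ∃ T : CombType, T.code = w ∧ InscribedRealizable d T}

/-- The main statement: `INSC_d` is ER-complete for every fixed `d ≥ 4`. -/
def Main : Prop := ∀ d, 4 ≤ d → ERComplete (INSC d)

end Pool.Agent.Work.MP_5b14b0_lc
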