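import Pool.Agent.Work.MP_5b14b0_lc.Geo
import Pool.Agent.Work.MP_5b14b0_lc.MembG

/-!
# Facets in terms of functionals and ranks (used for ClaimUp and ClaimDown)
-/

set_option autoImplicit false

namespace Pool.Agent.Work.MP_5b14b0_lc

namespace Fsp

open Set

/-- Choice of independent vectors in a spanning set. -/
theorem pick {W ι : Type} [AddCommGroup W] [Module ℝ W] [FiniteDimensional ℝ W] (f : ι → W)
    (S : Set ι) (m : ℕ) (h : Module.finrank ℝ (Submodule.span ℝ (f '' S)) = m) :
    ∃ t : Fin m → ι, (∀ k, t k ∈ S) ∧ LinearIndependent ℝ (fun k => f (t k)) := by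
  obtain ⟨b, hb, hspan, hind⟩ := exists_linearIndependent ℝ (f '' S)
  have hfin : b.Finite := by
    have := hind.setFinite
    exact this
  have : Fintype b := hfin.fintype
  have hcard : Fintype.card b = m := by
    rw [← h, ← hspan]
    have := finrank_span_eq_card hind
    rw [Subtype.range_coe] at this
    exact this.symm
  let e : Fin m ≃ b := (Fintype.equivFinOfCardEq hcard).symm
  have hch : ∀ k : Fin m, ∃ i, i ∈ S ∧ f i = (e k : W) := fun k => hb (e k).2
  choose t ht1 ht2 using hch
  refine ⟨t, ht1, ?_⟩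
  have h1 : (fun k => f (t k)) = fun k => ((e k : b) : W) := funext ht2
  rw [h1]
  exact hind.comp e e.injective

/-- Facets in terms of functionals and ranks. -/
theorem facet_span {d n : ℕ} (p : Fin n → MembG.E d) (hd : 2 ≤ d)
    (hint : (interior (convexHull ℝ (range p))).Nonempty) (S : Set (Fin n)) :
    (∃ F, IsFacet (convexHull ℝ (range p)) F ∧ S = {i | p i ∈ F}) ↔
    ∃ g : (Fin (d + 1) → ℝ) →ₗ[ℝ] ℝ, (∀ j, 0 ≤ g (MembG.hom (p j))) ∧
      (∀ j, g (MembG.hom (p j)) = 0 ↔ j ∈ S) ∧
      Module.finrank ℝ (Submodule.span ℝ ((fun i => MembG.hom (p i)) '' S)) = d := by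
  obtain ⟨t0, j0, hj0⟩ := (MembG.interior_iff p).1 hint
  constructor
  · intro h
    obtain ⟨t, ⟨j, hj⟩, h2, h3⟩ := (MembG.facets_iff p hd hint S).1 h
    have hlin : LinearIndependent ℝ (fun k => MembG.hom (p (t k))) :=
      (linearIndependent_finSnoc.1 (MembG.dl_ne.1 hj)).1
    have hrank : Module.finrank ℝ (Submodule.span ℝ ((fun i => MembG.hom (p i)) '' S)) = d := by
      apply le_antisymm
      · have h4 : Submodule.span ℝ ((fun i => MembG.hom (p i)) '' S) ≤
            LinearMap.ker (MembG.dl (fun k => MembG.hom (p (t k)))) := by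
          rw [Submodule.span_le]
          rintro _ ⟨i, hi, rfl⟩
          rw [h3] at hi
          exact hi
        have h5 : MembG.dl (fun k => MembG.hom (p (t k))) ≠ 0 := by
          intro h6
          apply hj
          rw [h6]; rfl
        have h6 := Submodule.finrank_mono h4
        have h7 := Module.Dual.finrank_ker_add_one_of_ne_zero h5
        rw [Module.finrank_fin_fun] at h7
        omega
      · have h4 : Submodule.span ℝ (range (fun k => MembG.hom (p (t k)))) ≤
            Submodule.span ℝ ((fun i => MembG.hom (p i)) '' S) := by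
          apply Submodule.span_mono
          rintro _ ⟨k, rfl⟩
          refine ⟨t k, ?_, rfl⟩
          rw [h3]
          exact MembG.dl_self _ k
        have h5 := Submodule.finrank_mono h4
        rw [finrank_span_eq_card hlin, Fintype.card_fin] at h5
        exact h5
    rcases h2 with h2 | h2
    · refine ⟨MembG.dl (fun k => MembG.hom (p (t k))), h2, fun j => ?_, hrank⟩
      rw [h3]; rfl
    · refine ⟨-MembG.dl (fun k => MembG.hom (p (t k))), fun j => ?_, fun j => ?_, hrank⟩
      · rw [LinearMap.neg_apply]; linarith [h2 j]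
      · rw [LinearMap.neg_apply, neg_eq_zero, h3]; rfl
  · rintro ⟨g, hpos, hz, hrank⟩
    obtain ⟨t, htS, hlin⟩ := pick (fun i => MembG.hom (p i)) S d hrank
    have hne : ∃ j, g (MembG.hom (p j)) ≠ 0 := by
      by_contra hcon
      push Not at hcon
      have h1 : S = univ := by
        ext j
        simp only [mem_univ, iff_true]
        exact (hz j).1 (hcon j)
      rw [MembG.dl_ne] at hj0
      have h2 : Submodule.span ℝ (range (Fin.snoc (α := fun _ => Fin (d + 1) → ℝ)
          (fun k => MembG.hom (p (t0 k))) (MembG.hom (p j0)))) ≤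
          Submodule.span ℝ ((fun i => MembG.hom (p i)) '' S) := by
        apply Submodule.span_mono
        rintro _ ⟨k, rfl⟩
        rw [h1]
        refine Fin.lastCases ?_ (fun k => ?_) k
        · rw [Fin.snoc_last]; exact ⟨j0, mem_univ _, rfl⟩
        · rw [Fin.snoc_castSucc]; exact ⟨t0 k, mem_univ _, rfl⟩
      have h3 := Submodule.finrank_mono h2
      rw [finrank_span_eq_card hj0, Fintype.card_fin, hrank] at h3
      omega
    refine ⟨_, MembG.facet_of_det p hd g t hlin (fun k => (hz _).2 (htS k)) hpos hne, ?_⟩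
    ext i
    rw [← hz i]
    exact ⟨fun h => ⟨subset_convexHull ℝ _ ⟨i, rfl⟩, h⟩, fun h => h.2⟩

/-- Full dimension in terms of the span. -/
theorem interior_span {d n : ℕ} (p : Fin n → MembG.E d) :
    (interior (convexHull ℝ (range p))).Nonempty ↔
      Submodule.span ℝ (range (fun i => MembG.hom (p i))) = ⊤ := by
  rw [MembG.interior_iff]
  constructor
  · rintro ⟨t, j, hj⟩
    rw [MembG.dl_ne] at hj
    rw [eq_top_iff, ← hj.span_eq_top_of_card_eq_finrank (by simp)]
    apply Submodule.span_mono
    rintro _ ⟨k, rfl⟩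
    refine Fin.lastCases ?_ (fun k => ?_) k
    · rw [Fin.snoc_last]; exact ⟨j, rfl⟩
    · rw [Fin.snoc_castSucc]; exact ⟨t k, rfl⟩
  · intro h
    obtain ⟨t, -, ht⟩ := pick (fun i => MembG.hom (p i)) univ (d + 1) (by
      rw [image_univ, h, finrank_top, Module.finrank_fin_fun])
    refine ⟨fun k => t k.castSucc, t (Fin.last d), ?_⟩
    rw [MembG.dl_ne]
    have h1 : (Fin.snoc (α := fun _ => Fin (d + 1) → ℝ)
        (fun k : Fin d => MembG.hom (p (t k.castSucc)))
        (MembG.hom (p (t (Fin.last d))))) = fun k => MembG.hom (p (t k)) := by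
      funext k
      refine Fin.lastCases ?_ (fun k => ?_) k <;> simp
    rw [h1]
    exact ht

/-- The instance in dimension `4 + r`. -/
theorem instOf_eq (r : ℕ) (Vs : List Lab) (Fs : List (List Lab)) :
    instOf (4 + r) Vs Fs =
      { n := Vs.length + r
        facets := Fs.map (fun F => F.map (fun l => Vs.idxOf l) ++
            (List.range r).map (fun i => Vs.length + i)) ++
          (List.range r).map (fun i =>
            (List.range (Vs.length + r)).filter (fun j => decide (j ≠ Vs.length + i))) } := by
  simp only [instOf, Nat.add_sub_cancel_left]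

theorem inst_range (r : ℕ) (Vs : List Lab) (Fs : List (List Lab)) (hsub : ∀ F ∈ Fs, F ⊆ Vs)
    (G : List ℕ) (hG : G ∈ Fs.map (fun F => F.map (fun l => Vs.idxOf l) ++
            (List.range r).map (fun i => Vs.length + i)) ++
          (List.range r).map (fun i =>
            (List.range (Vs.length + r)).filter (fun j => decide (j ≠ Vs.length + i)))) :
    ∀ i ∈ G, i < Vs.length + r := by
  intro i hi
  rw [List.mem_append, List.mem_map, List.mem_map] at hG
  rcases hG with ⟨F, hF, rfl⟩ | ⟨j, hj, rfl⟩
  · rw [List.mem_append, List.mem_map, List.mem_map] at hi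
    rcases hi with ⟨l, hl, rfl⟩ | ⟨j, hj, rfl⟩
    · have := List.idxOf_lt_length_of_mem (hsub F hF hl)
      omega
    · rw [List.mem_range] at hj
      omega
  · rw [List.mem_filter, List.mem_range] at hi
    exact hi.1

/-- The sets given by the facet lists. -/
theorem inst_mem (r : ℕ) (Vs : List Lab) (Fs : List (List Lab)) (hnd : Vs.Nodup)
    (hsub : ∀ F ∈ Fs, F ⊆ Vs) (S : Set (Fin (Vs.length + r))) :
    (∃ G ∈ Fs.map (fun F => F.map (fun l => Vs.idxOf l) ++
            (List.range r).map (fun i => Vs.length + i)) ++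
          (List.range r).map (fun i =>
            (List.range (Vs.length + r)).filter (fun j => decide (j ≠ Vs.length + i))),
        S = {i : Fin (Vs.length + r) | (i : ℕ) ∈ G}) ↔
    (∃ F ∈ Fs, (∀ i : Fin Vs.length, Fin.castAdd r i ∈ S ↔ Vs.get i ∈ F) ∧
        ∀ j : Fin r, Fin.natAdd Vs.length j ∈ S) ∨
      (∃ j0 : Fin r, (∀ i : Fin Vs.length, Fin.castAdd r i ∈ S) ∧
        ∀ j : Fin r, Fin.natAdd Vs.length j ∈ S ↔ j ≠ j0) := by
  have key1 : ∀ F ∈ Fs, ∀ i : Fin Vs.length, (i : ℕ) ∈ F.map (fun l => Vs.idxOf l) ++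
      (List.range r).map (fun i => Vs.length + i) ↔ Vs.get i ∈ F := by
    intro F hF i
    rw [List.mem_append, List.mem_map, List.mem_map]
    constructor
    · rintro (⟨l, hl, hli⟩ | ⟨j, hj, hji⟩)
      · have h1 : Vs.get i = l := by
          have h2 := List.idxOf_lt_length_of_mem (hsub F hF hl)
          have h3 : i = ⟨Vs.idxOf l, h2⟩ := Fin.ext hli.symm
          rw [h3]
          exact List.idxOf_get h2
        rw [h1]; exact hl
      · have := i.2
        omega
    · intro h
      left
      exact ⟨_, h, List.get_idxOf hnd i⟩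
  have key2 : ∀ F : List Lab, ∀ j : Fin r, Vs.length + (j : ℕ) ∈ F.map (fun l => Vs.idxOf l) ++
      (List.range r).map (fun i => Vs.length + i) := by
    intro F j
    rw [List.mem_append, List.mem_map, List.mem_map]
    right
    exact ⟨j, List.mem_range.2 j.2, rfl⟩
  constructor
  · rintro ⟨G, hG, rfl⟩
    rw [List.mem_append, List.mem_map, List.mem_map] at hG
    rcases hG with ⟨F, hF, rfl⟩ | ⟨j, hj, rfl⟩
    · left
      exact ⟨F, hF, fun i => key1 F hF i, fun j => key2 F j⟩
    · right
      rw [List.mem_range] at hj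
      refine ⟨⟨j, hj⟩, fun i => ?_, fun j' => ?_⟩
      · rw [mem_ofPred_eq, Fin.val_castAdd, List.mem_filter, List.mem_range]
        have := i.2
        refine ⟨by omega, ?_⟩
        simp only [ne_eq, decide_not, Bool.not_eq_eq_eq_not, Bool.not_true,
          decide_eq_false_iff_not]
        omega
      · rw [mem_ofPred_eq, Fin.val_natAdd, List.mem_filter, List.mem_range]
        have := j'.2
        simp only [ne_eq, decide_not, Bool.not_eq_eq_eq_not, Bool.not_true,
          decide_eq_false_iff_not, Fin.ext_iff]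
        omega
  · rintro (⟨F, hF, h1, h2⟩ | ⟨j0, h1, h2⟩)
    · refine ⟨_, List.mem_append_left _ (List.mem_map.2 ⟨F, hF, rfl⟩), ?_⟩
      ext i
      refine Fin.addCases (fun i => ?_) (fun j => ?_) i
      · rw [h1]; exact (key1 F hF i).symm
      · exact ⟨fun _ => key2 F j, fun _ => h2 j⟩
    · refine ⟨_, List.mem_append_right _ (List.mem_map.2 ⟨j0, List.mem_range.2 j0.2, rfl⟩), ?_⟩
      ext i
      refine Fin.addCases (fun i => ?_) (fun j => ?_) i
      · refine ⟨fun _ => ?_, fun _ => h1 i⟩
        rw [mem_ofPred_eq, Fin.val_castAdd, List.mem_filter, List.mem_range]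
        have := i.2
        refine ⟨by omega, ?_⟩
        simp only [ne_eq, decide_not, Bool.not_eq_eq_eq_not, Bool.not_true,
          decide_eq_false_iff_not]
        omega
      · rw [h2]
        rw [mem_ofPred_eq, Fin.val_natAdd, List.mem_filter, List.mem_range]
        have := j.2
        simp only [ne_eq, decide_not, Bool.not_eq_eq_eq_not, Bool.not_true,
          decide_eq_false_iff_not, Fin.ext_iff]
        omega

end Fsp

end Pool.Agent.Work.MP_5b14b0_lc
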