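import Pool.Agent.Work.MP_5b14b0_lc.Geo

/-!
# MP_5b14b0_lc, deletion gadget, part 1: cyclic order, Lorentz basics, cones
-/

set_option autoImplicit false

namespace Pool.Agent.Work.MP_5b14b0_lc
namespace GA

open Finset

/-! ### Cyclic order -/

/-- Cyclic order of three numbers. -/
def C3 (i j k : ℕ) : Prop := (i < j ∧ j < k) ∨ (j < k ∧ k < i) ∨ (k < i ∧ i < j)

/-- `j` is the cyclic successor of `i` in `S`. -/
def Nx (S : Finset ℕ) (i j : ℕ) : Prop :=
  i ∈ S ∧ j ∈ S ∧ i ≠ j ∧ ∀ k ∈ S, k ≠ i → k ≠ j → C3 i j k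

/-- The edge with end points `i`, `j`. -/
def mkE (i j : ℕ) : ℕ × ℕ := (min i j, max i j)

lemma mem_Ed {S : Finset ℕ} {p : ℕ × ℕ} : p ∈ Ed S ↔ (p.1 ∈ S ∧ p.2 ∈ S) ∧ p.1 < p.2 ∧
    ((∀ k ∈ S, k ≤ p.1 ∨ p.2 ≤ k) ∨ (∀ k ∈ S, p.1 ≤ k ∧ k ≤ p.2)) := by
  unfold Ed
  rw [Finset.mem_filter, Finset.mem_product]

lemma nx_ed {S : Finset ℕ} {i j : ℕ} (h : Nx S i j) : mkE i j ∈ Ed S := by
  obtain ⟨hi, hj, hij, hk⟩ := h
  rw [mem_Ed]
  unfold mkE
  rcases lt_or_gt_of_ne hij with hlt | hlt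
  · rw [min_eq_left hlt.le, max_eq_right hlt.le]
    refine ⟨⟨hi, hj⟩, hlt, Or.inl fun k hkS => ?_⟩
    by_cases h1 : k = i
    · left; omega
    · by_cases h2 : k = j
      · right; omega
      · have := hk k hkS h1 h2
        unfold C3 at this
        dsimp only
        omega
  · rw [min_eq_right hlt.le, max_eq_left hlt.le]
    refine ⟨⟨hj, hi⟩, hlt, Or.inr fun k hkS => ?_⟩
    by_cases h1 : k = i
    · dsimp only; omega
    · by_cases h2 : k = j
      · dsimp only; omega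
      · have := hk k hkS h1 h2
        unfold C3 at this
        dsimp only
        omega

lemma mkE_comm (i j : ℕ) : mkE i j = mkE j i := by
  unfold mkE; rw [min_comm, max_comm]

lemma mkE_of_lt {i j : ℕ} (h : i < j) : mkE i j = (i, j) := by
  unfold mkE; rw [min_eq_left h.le, max_eq_right h.le]

lemma ed_nx {S : Finset ℕ} {p : ℕ × ℕ} (h : p ∈ Ed S) :
    p.1 < p.2 ∧ (Nx S p.1 p.2 ∨ Nx S p.2 p.1) := by
  rw [mem_Ed] at h
  obtain ⟨⟨h1, h2⟩, h3, h4⟩ := h
  refine ⟨h3, ?_⟩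
  rcases h4 with h4 | h4
  · left
    refine ⟨h1, h2, h3.ne, fun k hk hk1 hk2 => ?_⟩
    have := h4 k hk
    unfold C3
    omega
  · right
    refine ⟨h2, h1, h3.ne', fun k hk hk1 hk2 => ?_⟩
    have := h4 k hk
    unfold C3
    omega

lemma ed_mkE {S : Finset ℕ} {p : ℕ × ℕ} (h : p ∈ Ed S) :
    ∃ i j, Nx S i j ∧ p = mkE i j := by
  obtain ⟨h1, h2 | h2⟩ := ed_nx h
  · exact ⟨p.1, p.2, h2, by rw [mkE_of_lt h1]⟩
  · exact ⟨p.2, p.1, h2, by rw [mkE_comm, mkE_of_lt h1]⟩

lemma exists_next {S : Finset ℕ} {v : ℕ} (hv : v ∈ S) (hne : (S.erase v).Nonempty) :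
    ∃ w, Nx S v w := by
  by_cases h : (S.filter (fun k => v < k)).Nonempty
  · refine ⟨(S.filter (fun k => v < k)).min' h, ?_⟩
    have h1 := (S.filter (fun k => v < k)).min'_mem h
    rw [Finset.mem_filter] at h1
    refine ⟨hv, h1.1, h1.2.ne, fun k hk hkv hkw => ?_⟩
    by_cases h2 : v < k
    · have h3 := (S.filter (fun k => v < k)).min'_le k (Finset.mem_filter.2 ⟨hk, h2⟩)
      unfold C3
      omega
    · unfold C3
      omega
  · refine ⟨(S.erase v).min' hne, ?_⟩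
    have h1 := (S.erase v).min'_mem hne
    rw [Finset.mem_erase] at h1
    have h0 : ∀ k ∈ S, k ≤ v := by
      intro k hk
      by_contra hc
      exact h ⟨k, Finset.mem_filter.2 ⟨hk, by omega⟩⟩
    refine ⟨hv, h1.2, h1.1.symm, fun k hk hkv hkw => ?_⟩
    have h2 := h0 _ h1.2
    have h3 := h0 _ hk
    have h4 := (S.erase v).min'_le k (Finset.mem_erase.2 ⟨hkv, hk⟩)
    unfold C3
    omega

lemma exists_prev {S : Finset ℕ} {v : ℕ} (hv : v ∈ S) (hne : (S.erase v).Nonempty) :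
    ∃ u, Nx S u v := by
  by_cases h : (S.filter (fun k => k < v)).Nonempty
  · refine ⟨(S.filter (fun k => k < v)).max' h, ?_⟩
    have h1 := (S.filter (fun k => k < v)).max'_mem h
    rw [Finset.mem_filter] at h1
    refine ⟨h1.1, hv, h1.2.ne, fun k hk hkw hkv => ?_⟩
    by_cases h2 : k < v
    · have h3 := (S.filter (fun k => k < v)).le_max' k (Finset.mem_filter.2 ⟨hk, h2⟩)
      unfold C3
      omega
    · unfold C3
      omega
  · refine ⟨(S.erase v).max' hne, ?_⟩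
    have h1 := (S.erase v).max'_mem hne
    rw [Finset.mem_erase] at h1
    have h0 : ∀ k ∈ S, v ≤ k := by
      intro k hk
      by_contra hc
      exact h ⟨k, Finset.mem_filter.2 ⟨hk, by omega⟩⟩
    refine ⟨h1.2, hv, h1.1, fun k hk hkw hkv => ?_⟩
    have h2 := h0 _ h1.2
    have h3 := h0 _ hk
    have h4 := (S.erase v).le_max' k (Finset.mem_erase.2 ⟨hkv, hk⟩)
    unfold C3
    omega

/-- The neighbours of the deleted vertex. -/
structure Nb (S : Finset ℕ) (v u w : ℕ) : Prop where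
  uv : Nx S u v
  vw : Nx S v w
  ne : u ≠ w
  c3 : C3 u v w
  uw : ∀ k ∈ S, k ≠ u → k ≠ v → k ≠ w → C3 u w k
  ex : ∃ k ∈ S, k ≠ u ∧ k ≠ v ∧ k ≠ w

lemma exists_nb {S : Finset ℕ} {v : ℕ} (hv : v ∈ S) (hc : 3 ≤ (S.erase v).card) :
    ∃ u w, Nb S v u w := by
  have hne : (S.erase v).Nonempty := Finset.card_pos.1 (by omega)
  obtain ⟨u, hu⟩ := exists_prev hv hne
  obtain ⟨w, hw⟩ := exists_next hv hne
  -- a third vertex
  have h3 : ∃ k ∈ S.erase v, k ≠ u ∧ k ≠ w := by
    have : ((S.erase v) \ {u, w}).Nonempty := by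
      rw [← Finset.card_pos]
      have h1 := Finset.le_card_sdiff {u, w} (S.erase v)
      have h2 : ({u, w} : Finset ℕ).card ≤ 2 := Finset.card_le_two
      omega
    obtain ⟨k, hk⟩ := this
    rw [Finset.mem_sdiff, Finset.mem_insert, Finset.mem_singleton, not_or] at hk
    exact ⟨k, hk.1, hk.2.1, hk.2.2⟩
  have huw : u ≠ w := by
    rintro rfl
    obtain ⟨k, hk, hk1, -⟩ := h3
    rw [Finset.mem_erase] at hk
    have h1 := hu.2.2.2 k hk.2 hk1 hk.1
    have h2 := hw.2.2.2 k hk.2 hk.1 hk1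
    unfold C3 at h1 h2
    omega
  have hc3 : C3 u v w := hu.2.2.2 w hw.2.1 huw.symm hw.2.2.1.symm
  obtain ⟨k, hk, hk1, hk2⟩ := h3
  rw [Finset.mem_erase] at hk
  refine ⟨u, w, hu, hw, huw, hc3, ?_, k, hk.2, hk1, hk.1, hk2⟩
  intro k hk hku hkv hkw
  have h1 := hu.2.2.2 k hk hku hkv
  have h2 := hw.2.2.2 k hk hkv hkw
  unfold C3 at *
  omega

lemma nx_erase {S : Finset ℕ} {v i j : ℕ} (h : Nx S i j) (hi : i ≠ v) (hj : j ≠ v) :
    Nx (S.erase v) i j := by
  obtain ⟨h1, h2, h3, h4⟩ := h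
  refine ⟨Finset.mem_erase.2 ⟨hi, h1⟩, Finset.mem_erase.2 ⟨hj, h2⟩, h3, fun k hk => ?_⟩
  exact h4 k (Finset.mem_of_mem_erase hk)

lemma nb_nx_uw {S : Finset ℕ} {v u w : ℕ} (h : Nb S v u w) : Nx (S.erase v) u w := by
  refine ⟨Finset.mem_erase.2 ⟨h.uv.2.2.1, h.uv.1⟩,
    Finset.mem_erase.2 ⟨h.vw.2.2.1.symm, h.vw.2.1⟩, h.ne, fun k hk hku hkw => ?_⟩
  rw [Finset.mem_erase] at hk
  exact h.uw k hk.2 hku hk.1 hkw

lemma nx_prev_unique {S : Finset ℕ} {i j v : ℕ} (h1 : Nx S i v) (h2 : Nx S j v) : i = j := by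
  by_contra hne
  have h3 := h1.2.2.2 j h2.1 (fun h => hne h.symm) h2.2.2.1
  have h4 := h2.2.2.2 i h1.1 hne h1.2.2.1
  unfold C3 at h3 h4
  omega

lemma nx_next_unique {S : Finset ℕ} {i j v : ℕ} (h1 : Nx S v i) (h2 : Nx S v j) : i = j := by
  by_contra hne
  have h3 := h1.2.2.2 j h2.2.1 h2.2.2.1.symm (fun h => hne h.symm)
  have h4 := h2.2.2.2 i h1.2.1 h1.2.2.1.symm hne
  unfold C3 at h3 h4
  omega

/-- The edges of `S`. -/
lemma ed_cases {S : Finset ℕ} {v u w : ℕ} (h : Nb S v u w) {p : ℕ × ℕ} (hp : p ∈ Ed S) :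
    p = mkE u v ∨ p = mkE v w ∨ (v ≠ p.1 ∧ v ≠ p.2 ∧ p ∈ Ed (S.erase v) ∧ p ≠ mkE u w) := by
  obtain ⟨i, j, hij, rfl⟩ := ed_mkE hp
  by_cases hj : j = v
  · left
    subst hj
    rw [nx_prev_unique hij h.uv]
  · by_cases hi : i = v
    · right; left
      subst hi
      rw [nx_next_unique hij h.vw]
    · right; right
      have h1 : Nx (S.erase v) i j := nx_erase hij hi hj
      refine ⟨?_, ?_, nx_ed h1, ?_⟩
      · unfold mkE; dsimp only
        rcases min_choice i j with h | h <;> rw [h] <;> omega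
      · unfold mkE; dsimp only
        rcases max_choice i j with h | h <;> rw [h] <;> omega
      · intro he
        obtain ⟨k, hk, hku, hkv, hkw⟩ := h.ex
        have h2 := h.uw k hk hku hkv hkw
        have h3 := h.c3
        have h4 : (i = u ∧ j = w) ∨ (i = w ∧ j = u) := by
          unfold mkE at he
          rw [Prod.mk.injEq] at he
          have := h.ne
          have := hij.2.2.1
          omega
        rcases h4 with ⟨rfl, rfl⟩ | ⟨rfl, rfl⟩
        · have h5 := hij.2.2.2 v h.uv.2.1 (fun h => hi h.symm) (fun h => hj h.symm)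
          unfold C3 at *
          omega
        · have h5 := hij.2.2.2 k hk hkw hku
          unfold C3 at *
          omega

/-- The edges of the smaller polygon. -/
lemma ed_erase_cases {S : Finset ℕ} {v u w : ℕ} (h : Nb S v u w) {p : ℕ × ℕ}
    (hp : p ∈ Ed (S.erase v)) : p = mkE u w ∨ p ∈ Ed S := by
  obtain ⟨i, j, hij, rfl⟩ := ed_mkE hp
  obtain ⟨h1, h2, h3, h4⟩ := hij
  rw [Finset.mem_erase] at h1 h2
  by_cases hc : C3 i j v
  · right
    refine nx_ed ⟨h1.2, h2.2, h3, fun k hk hki hkj => ?_⟩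
    by_cases hkv : k = v
    · rw [hkv]; exact hc
    · exact h4 k (Finset.mem_erase.2 ⟨hkv, hk⟩) hki hkj
  · left
    have hi : i = u := by
      by_contra hne
      have h5 := h.uv.2.2.2 i h1.2 hne h1.1
      by_cases huj : u = j
      · subst huj
        unfold C3 at *
        omega
      · have h6 := h4 u (Finset.mem_erase.2 ⟨h.uv.2.2.1, h.uv.1⟩) (fun h => hne h.symm) huj
        unfold C3 at *
        omega
    have hj : j = w := by
      by_contra hne
      have h5 := h.vw.2.2.2 j h2.2 h2.1 hne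
      by_cases huj : w = i
      · subst huj
        unfold C3 at *
        omega
      · have h6 := h4 w (Finset.mem_erase.2 ⟨h.vw.2.2.1.symm, h.vw.2.1⟩) huj
          (fun h => hne h.symm)
        unfold C3 at *
        omega
    rw [hi, hj]

lemma mem_edge_iff {i j k : ℕ} : (k = (mkE i j).1 ∨ k = (mkE i j).2) ↔ (k = i ∨ k = j) := by
  unfold mkE
  dsimp only
  rcases le_total i j with h | h
  · rw [min_eq_left h, max_eq_right h]
  · rw [min_eq_right h, max_eq_left h]; tauto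

/-- The neighbours. -/
lemma nbr_filter {S : Finset ℕ} {v u w : ℕ} (h : Nb S v u w) :
    (S.erase v).filter (fun u' => (u', v) ∈ Ed S ∨ (v, u') ∈ Ed S) = {u, w} := by
  have huv := nx_ed h.uv
  have hvw := nx_ed h.vw
  ext k
  rw [Finset.mem_filter, Finset.mem_erase, Finset.mem_insert, Finset.mem_singleton]
  constructor
  · rintro ⟨⟨hkv, hk⟩, hE⟩
    have key : ∀ p ∈ Ed S, (v = p.1 ∨ v = p.2) → (k = p.1 ∨ k = p.2) → k = u ∨ k = w := by
      intro p hp h1 h2
      rcases ed_cases h hp with rfl | rfl | ⟨h3, h4, -⟩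
      · rw [mem_edge_iff] at h2
        rcases h2 with h2 | h2
        · exact Or.inl h2
        · exact absurd h2 hkv
      · rw [mem_edge_iff] at h2
        rcases h2 with h2 | h2
        · exact absurd h2 hkv
        · exact Or.inr h2
      · rcases h1 with h1 | h1
        · exact absurd h1 h3
        · exact absurd h1 h4
    rcases hE with hE | hE
    · exact key _ hE (Or.inr rfl) (Or.inl rfl)
    · exact key _ hE (Or.inl rfl) (Or.inr rfl)
  · have aux : ∀ i j : ℕ, i ≠ j → mkE i j = (i, j) ∨ mkE i j = (j, i) := by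
      intro i j hij
      rcases lt_or_gt_of_ne hij with h | h
      · exact Or.inl (mkE_of_lt h)
      · right; rw [mkE_comm]; exact mkE_of_lt h
    rintro (rfl | rfl)
    · refine ⟨⟨h.uv.2.2.1, h.uv.1⟩, ?_⟩
      rcases aux k v h.uv.2.2.1 with h5 | h5
      · left; rw [← h5]; exact huv
      · right; rw [← h5]; exact huv
    · refine ⟨⟨h.vw.2.2.1.symm, h.vw.2.1⟩, ?_⟩
      rcases aux v k h.vw.2.2.1 with h5 | h5
      · right; rw [← h5]; exact hvw
      · left; rw [← h5]; exact hvw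

/-! ### Lorentz basics -/

lemma B_add (x y z : E) : B (x + y) z = B x z + B y z := by
  simp only [B, Pi.add_apply]; ring

lemma B_sub (x y z : E) : B (x - y) z = B x z - B y z := by
  simp only [B, Pi.sub_apply]; ring

lemma B_smul (c : ℝ) (x z : E) : B (c • x) z = c * B x z := by
  simp only [B, Pi.smul_apply, smul_eq_mul]; ring

lemma B_neg_right (x z : E) : B x (-z) = -B x z := by
  simp only [B, Pi.neg_apply]; ring

lemma B_sub_right (x y z : E) : B x (y - z) = B x y - B x z := by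
  simp only [B, Pi.sub_apply]; ring

lemma B_add_right (x y z : E) : B x (y + z) = B x y + B x z := by
  simp only [B, Pi.add_apply]; ring

lemma B_smul_right (c : ℝ) (x z : E) : B x (c • z) = c * B x z := by
  simp only [B, Pi.smul_apply, smul_eq_mul]; ring

lemma B_comm (x y : E) : B x y = B y x := by
  simp only [B]; ring

/-- The functional `x ↦ B x y`. -/
def BL (y : E) : Du where
  toFun x := B x y
  map_add' x z := B_add x z y
  map_smul' c x := by simp only [RingHom.id_apply, smul_eq_mul]; exact B_smul c x y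

@[simp] lemma BL_apply (y x : E) : BL y x = B x y := rfl

/-- The reflection as a linear map. -/
noncomputable def sg (Y : E) : E →ₗ[ℝ] E where
  toFun x := refl Y x
  map_add' x z := by
    unfold refl
    rw [B_add]
    funext i
    simp only [Pi.add_apply, Pi.sub_apply, Pi.smul_apply, smul_eq_mul]
    ring
  map_smul' c x := by
    unfold refl
    rw [B_smul]
    funext i
    simp only [Pi.sub_apply, Pi.smul_apply, smul_eq_mul, RingHom.id_apply]
    ring

lemma sg_apply (Y x : E) : sg Y x = x - (2 * B x Y / B Y Y) • Y := rfl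

lemma sg_sg {Y : E} (hY : B Y Y ≠ 0) (x : E) : sg Y (sg Y x) = x := by
  rw [sg_apply, sg_apply, B_sub, B_smul]
  funext i
  simp only [Pi.sub_apply, Pi.smul_apply, smul_eq_mul]
  field_simp
  ring

lemma B_sg {Y : E} (hY : B Y Y ≠ 0) (x y : E) : B (sg Y x) (sg Y y) = B x y := by
  rw [sg_apply, sg_apply, B_sub, B_smul, B_sub_right, B_sub_right, B_smul_right, B_smul_right,
    B_comm Y y]
  field_simp
  ring

lemma B_sg_left {Y : E} (hY : B Y Y ≠ 0) (x y : E) : B (sg Y x) y = B x (sg Y y) := by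
  have := B_sg hY x (sg Y y)
  rw [sg_sg hY] at this
  exact this

lemma light_sg {Y : E} (hY : 0 < B Y Y) {x : E} (hx : Light x) : Light (sg Y x) := by
  refine ⟨by rw [B_sg hY.ne']; exact hx.1, ?_⟩
  obtain ⟨h1, h2⟩ := hx
  rw [sg_apply]
  simp only [Pi.sub_apply, Pi.smul_apply, smul_eq_mul]
  set p := x 0 * Y 0 + x 1 * Y 1 + x 2 * Y 2 + x 3 * Y 3 with hp
  set A := Y 0 * Y 0 + Y 1 * Y 1 + Y 2 * Y 2 + Y 3 * Y 3 with hA
  have hD : B Y Y = A - Y 4 * Y 4 := by unfold B; rw [hA]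
  have hxY : B x Y = p - x 4 * Y 4 := by unfold B; rw [hp]
  have hx4 : x 0 * x 0 + x 1 * x 1 + x 2 * x 2 + x 3 * x 3 = x 4 * x 4 := by
    unfold B at h1; linarith
  have hcs : p ^ 2 ≤ (x 4 * x 4) * A := by
    rw [← hx4, hp, hA]
    nlinarith [sq_nonneg (x 0 * Y 1 - x 1 * Y 0), sq_nonneg (x 0 * Y 2 - x 2 * Y 0),
      sq_nonneg (x 0 * Y 3 - x 3 * Y 0), sq_nonneg (x 1 * Y 2 - x 2 * Y 1),
      sq_nonneg (x 1 * Y 3 - x 3 * Y 1), sq_nonneg (x 2 * Y 3 - x 3 * Y 2)]
  set D := B Y Y with hDdef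
  have hA' : A = D + Y 4 * Y 4 := by linarith
  have hkey : 2 * p * Y 4 < x 4 * (D + 2 * (Y 4 * Y 4)) := by
    by_contra hc
    push Not at hc
    have h0 : 0 ≤ x 4 * (D + 2 * (Y 4 * Y 4)) := by
      have : 0 ≤ Y 4 * Y 4 := mul_self_nonneg _
      have := hY.le
      positivity
    have h3 := pow_le_pow_left₀ h0 hc 2
    have h4 : (2 * p * Y 4) ^ 2 ≤ 4 * ((x 4 * x 4) * A) * (Y 4 * Y 4) := by
      have h5 : 0 ≤ Y 4 * Y 4 := mul_self_nonneg _
      have h6 := mul_le_mul_of_nonneg_right hcs h5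
      nlinarith
    rw [hA'] at h4
    have h7 : 0 < (x 4 * x 4) * (D * D) := by positivity
    nlinarith
  rw [hxY]
  have h8 : 0 < D * (x 4 - 2 * (p - x 4 * Y 4) / D * Y 4) := by
    have : D * (x 4 - 2 * (p - x 4 * Y 4) / D * Y 4) =
        x 4 * (D + 2 * (Y 4 * Y 4)) - 2 * p * Y 4 := by
      field_simp
      ring
    rw [this]
    linarith
  exact pos_of_mul_pos_right h8 hY.le |> fun h => by simpa using h

lemma iso_sg {Y : E} (hY : 0 < B Y Y) : Iso (sg Y) :=
  ⟨fun x y => B_sg hY.ne' x y, fun _ hx => light_sg hY hx, fun x => ⟨sg Y x, sg_sg hY.ne' x⟩⟩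

/-- A future light vector and a future time vector. -/
lemma light_neg {e0 g : E} (h0 : B e0 e0 = -1) (hf : 0 < e0 4) (hg : Light g) : B g e0 < 0 := by
  obtain ⟨h1, h2⟩ := hg
  by_contra hc
  push Not at hc
  unfold B at *
  have hcs : (g 0 * e0 0 + g 1 * e0 1 + g 2 * e0 2 + g 3 * e0 3) ^ 2 ≤
      (g 0 * g 0 + g 1 * g 1 + g 2 * g 2 + g 3 * g 3) *
        (e0 0 * e0 0 + e0 1 * e0 1 + e0 2 * e0 2 + e0 3 * e0 3) := by
    nlinarith [sq_nonneg (g 0 * e0 1 - g 1 * e0 0), sq_nonneg (g 0 * e0 2 - g 2 * e0 0),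
      sq_nonneg (g 0 * e0 3 - g 3 * e0 0), sq_nonneg (g 1 * e0 2 - g 2 * e0 1),
      sq_nonneg (g 1 * e0 3 - g 3 * e0 1), sq_nonneg (g 2 * e0 3 - g 3 * e0 2)]
  have e1 : g 0 * g 0 + g 1 * g 1 + g 2 * g 2 + g 3 * g 3 = g 4 * g 4 := by linarith
  have e2 : e0 0 * e0 0 + e0 1 * e0 1 + e0 2 * e0 2 + e0 3 * e0 3 = e0 4 * e0 4 - 1 := by
    linarith
  rw [e1, e2] at hcs
  have h3 : g 4 * e0 4 ≤ g 0 * e0 0 + g 1 * e0 1 + g 2 * e0 2 + g 3 * e0 3 := by linarith
  have h4 : 0 ≤ g 4 * e0 4 := by positivity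
  have h5 := pow_le_pow_left₀ h4 h3 2
  have h6 : 0 < g 4 * g 4 := by positivity
  nlinarith

/-- A time vector with a negative product with a future light vector is future. -/
lemma fut_of_neg {e0 g : E} (h0 : B e0 e0 = -1) (hg : Light g) (h : B g e0 < 0) : 0 < e0 4 := by
  by_contra hc
  push Not at hc
  rcases hc.lt_or_eq with hc | hc
  · have h1 : B g (-e0) < 0 := by
      refine light_neg ?_ ?_ hg
      · rw [B_neg_right, B_comm, B_neg_right, h0]; ring
      · simpa using hc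
    rw [B_neg_right] at h1
    linarith
  · unfold B at h0
    rw [hc] at h0
    nlinarith [mul_self_nonneg (e0 0), mul_self_nonneg (e0 1), mul_self_nonneg (e0 2),
      mul_self_nonneg (e0 3)]

lemma light_ne {g : E} (hg : Light g) : g ≠ 0 := by
  rintro rfl
  exact absurd hg.2 (by simp)

lemma frame_sg {Y e0 e3 e4 g : E} (hY : 0 < B Y Y) (hF : Frame e0 e3 e4) (hg : Light g) :
    Frame (sg Y e0) (sg Y e3) (-sg Y e4) := by
  have h := hY.ne'
  have hn : ∀ x, B (-sg Y e4) x = -B (sg Y e4) x := fun x => by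
    rw [B_comm, B_neg_right, B_comm]
  refine ⟨?_, ?_, ?_, ?_, ?_, ?_, ?_⟩
  · rw [B_sg h]; exact hF.n0
  · rw [B_sg h]; exact hF.n3
  · rw [hn, B_neg_right, B_sg h]; simpa using hF.n4
  · rw [B_sg h]; exact hF.o03
  · rw [B_neg_right, B_sg h, hF.o04]; simp
  · rw [B_neg_right, B_sg h, hF.o34]; simp
  · refine fut_of_neg (by rw [B_sg h]; exact hF.n0) (light_sg hY hg) ?_
    rw [B_sg h]
    exact light_neg hF.n0 hF.fut hg

/-! ### Cones -/

lemma cone_single {ι : Type} [DecidableEq ι] {g : ι → E} {V : Finset ι} {i : ι} (hi : i ∈ V) :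
    InCone g V (g i) := by
  refine ⟨fun j => if j = i then 1 else 0, fun j => by dsimp only; split_ifs <;> norm_num, ?_⟩
  rw [Finset.sum_eq_single i]
  · simp
  · intro j _ hj; simp [hj]
  · intro h; exact absurd hi h

lemma cone_zero {ι : Type} {g : ι → E} {V : Finset ι} : InCone g V 0 :=
  ⟨fun _ => 0, fun _ => le_rfl, by simp⟩

lemma cone_add {ι : Type} {g : ι → E} {V : Finset ι} {x y : E} (hx : InCone g V x)
    (hy : InCone g V y) : InCone g V (x + y) := by
  obtain ⟨c, hc, rfl⟩ := hx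
  obtain ⟨b, hb, rfl⟩ := hy
  refine ⟨fun i => c i + b i, fun i => add_nonneg (hc i) (hb i), ?_⟩
  rw [← Finset.sum_add_distrib]
  exact Finset.sum_congr rfl fun i _ => (add_smul _ _ _).symm

lemma cone_smul {ι : Type} {g : ι → E} {V : Finset ι} {x : E} {c : ℝ} (hc : 0 ≤ c)
    (hx : InCone g V x) : InCone g V (c • x) := by
  obtain ⟨b, hb, rfl⟩ := hx
  refine ⟨fun i => c * b i, fun i => mul_nonneg hc (hb i), ?_⟩
  rw [Finset.smul_sum]
  exact Finset.sum_congr rfl fun i _ => smul_smul _ _ _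

lemma cone_sum {ι κ : Type} {g : ι → E} {V : Finset ι} (s : Finset κ) {x : κ → E}
    (hx : ∀ i ∈ s, InCone g V (x i)) : InCone g V (∑ i ∈ s, x i) := by
  classical
  induction s using Finset.induction_on with
  | empty => simpa using cone_zero
  | insert i s hi ih =>
    rw [Finset.sum_insert hi]
    exact cone_add (hx i (Finset.mem_insert_self _ _))
      (ih fun j hj => hx j (Finset.mem_insert_of_mem hj))

/-- Transitivity. -/
lemma cone_trans {ι κ : Type} {g : ι → E} {V : Finset ι} {h : κ → E} {W : Finset κ} {x : E}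
    (hx : InCone h W x) (hg : ∀ k ∈ W, InCone g V (h k)) : InCone g V x := by
  obtain ⟨c, hc, rfl⟩ := hx
  exact cone_sum _ fun k hk => cone_smul (hc k) (hg k hk)

/-- Image under a linear map. -/
lemma cone_map {ι : Type} {g : ι → E} {V : Finset ι} {x : E} (f : E →ₗ[ℝ] E)
    (hx : InCone g V x) : InCone (fun i => f (g i)) V (f x) := by
  obtain ⟨c, hc, rfl⟩ := hx
  refine ⟨c, hc, ?_⟩
  rw [map_sum]
  exact Finset.sum_congr rfl fun i _ => by rw [map_smul]

/-! ### The frame -/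

lemma inpl_of {e0 e3 e4 : E} (hF : Frame e0 e3 e4) (x : E) :
    InPl e3 e4 (x - B x e3 • e3 - B x e4 • e4) := by
  constructor
  · rw [B_sub, B_sub, B_smul, B_smul, hF.n3, B_comm e4, hF.o34]; ring
  · rw [B_sub, B_sub, B_smul, B_smul, hF.n4, hF.o34]; ring

lemma inpl_e0 {e0 e3 e4 : E} (hF : Frame e0 e3 e4) : InPl e3 e4 e0 := ⟨hF.o03, hF.o04⟩

lemma tri_rot2 {ω : E → E → E → ℝ} {e3 e4 : E} (h : Tri ω e3 e4) (x y z : E) :
    ω x y z = ω z x y := by rw [h.rot, h.rot]

lemma tri_self {ω : E → E → E → ℝ} {e3 e4 : E} (h : Tri ω e3 e4) (x y : E) :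
    ω x x y = 0 := by have := h.swap x x y; linarith

/-- A functional which vanishes on three independent vectors of the plane vanishes on the
plane. -/
lemma vanish_pl {ω : E → E → E → ℝ} {e3 e4 : E} (h : Tri ω e3 e4) {a b c : E}
    (ha : InPl e3 e4 a) (hb : InPl e3 e4 b) (hc : InPl e3 e4 c) (hω : ω a b c ≠ 0)
    {W : Submodule ℝ E} (h1 : a ∈ W) (h2 : b ∈ W) (h3 : c ∈ W) {x : E} (hx : InPl e3 e4 x) :
    x ∈ W := by
  have := h.cramer x a b c hx ha hb hc
  have e : x = (ω a b c)⁻¹ • (ω a b c • x) := by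
    rw [smul_smul, inv_mul_cancel₀ hω, one_smul]
  rw [e, this]
  exact W.smul_mem _ (W.add_mem (W.add_mem (W.smul_mem _ h1) (W.smul_mem _ h2))
    (W.smul_mem _ h3))

/-- Spanning criterion. -/
lemma span_top {ω : E → E → E → ℝ} {e0 e3 e4 : E} (hF : Frame e0 e3 e4) (h : Tri ω e3 e4)
    {a b c A t : E} (ha : InPl e3 e4 a) (hb : InPl e3 e4 b) (hc : InPl e3 e4 c)
    (hω : ω a b c ≠ 0) {W : Submodule ℝ E} (h1 : a ∈ W) (h2 : b ∈ W) (h3 : c ∈ W) (hA : A ∈ W)
    (hA3 : B A e3 ≠ 0) (hA4 : B A e4 = 0) (ht : t ∈ W) (ht4 : B t e4 ≠ 0) : W = ⊤ := by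
  have hpl : ∀ x, InPl e3 e4 x → x ∈ W := fun x hx => vanish_pl h ha hb hc hω h1 h2 h3 hx
  -- `e3 ∈ W`
  have he3 : e3 ∈ W := by
    have h5 : A - B A e3 • e3 - B A e4 • e4 ∈ W := hpl _ (inpl_of hF A)
    rw [hA4, zero_smul, sub_zero] at h5
    have h6 : B A e3 • e3 ∈ W := by
      have := W.sub_mem hA h5
      simpa using this
    exact (W.smul_mem_iff hA3).1 h6
  have he4 : e4 ∈ W := by
    have h5 : t - B t e3 • e3 - B t e4 • e4 ∈ W := hpl _ (inpl_of hF t)
    have h6 : B t e4 • e4 ∈ W := by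
      have := W.sub_mem (W.sub_mem ht (W.smul_mem (B t e3) he3)) h5
      simpa using this
    exact (W.smul_mem_iff ht4).1 h6
  rw [Submodule.eq_top_iff']
  intro x
  have h5 : x - B x e3 • e3 - B x e4 • e4 ∈ W := hpl _ (inpl_of hF x)
  have := W.add_mem (W.add_mem h5 (W.smul_mem (B x e4) he4)) (W.smul_mem (B x e3) he3)
  have e : x - B x e3 • e3 - B x e4 • e4 + B x e4 • e4 + B x e3 • e3 = x := by abel
  rwa [e] at this

/-- Rank criterion. -/
lemma rank_four {s : Set E} {y : E} (n : Du) (hn : ∀ x ∈ s, n x = 0) (hy : n y ≠ 0)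
    (hs : Submodule.span ℝ (insert y s) = ⊤) :
    Module.finrank ℝ (Submodule.span ℝ s) = 4 := by
  have h5 : Module.finrank ℝ E = 5 := by simp
  have hle : Module.finrank ℝ (Submodule.span ℝ s) < Module.finrank ℝ E := by
    apply Submodule.finrank_lt
    intro htop
    have : y ∈ Submodule.span ℝ s := by rw [htop]; trivial
    have h2 : Submodule.span ℝ s ≤ LinearMap.ker n := by
      rw [Submodule.span_le]
      intro x hx
      exact hn x hx
    exact hy (h2 this)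
  have hge : 5 ≤ Module.finrank ℝ (Submodule.span ℝ s) + 1 := by
    rw [Submodule.span_insert] at hs
    have h1 := Submodule.finrank_add_le_finrank_add_finrank (Submodule.span ℝ {y})
      (Submodule.span ℝ s)
    rw [hs, finrank_top, h5] at h1
    have h2 : Module.finrank ℝ (Submodule.span ℝ {y}) ≤ 1 := by
      have := finrank_span_le_card (R := ℝ) ({y} : Set E)
      simpa using this
    omega
  omega

end GA
end Pool.Agent.Work.MP_5b14b0_lc
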