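import Pool.Agent.Work.MP_5b14b0_lc.GadA1

/-!
# MP_5b14b0_lc, deletion gadget, part 2: the functionals and the cone
-/

set_option autoImplicit false

namespace Pool.Agent.Work.MP_5b14b0_lc
namespace GA

open Finset

/-- The normal of the mirror. -/
noncomputable def Yv (kG kT : ℝ) (e0 e3 e4 : E) : E := kG • e3 + e4 + (kG + kT) • e0

section Y
variable {kG kT : ℝ} {e0 e3 e4 : E}

lemma B_Yv (x : E) : B x (Yv kG kT e0 e3 e4) = kG * B x e3 + B x e4 + (kG + kT) * B x e0 := by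
  unfold Yv; rw [B_add_right, B_add_right, B_smul_right, B_smul_right]

lemma Y_e3 (hF : Frame e0 e3 e4) : B (Yv kG kT e0 e3 e4) e3 = kG := by
  rw [B_comm, B_Yv, hF.n3, hF.o34, B_comm e3 e0, hF.o03]; ring

lemma Y_e4 (hF : Frame e0 e3 e4) : B (Yv kG kT e0 e3 e4) e4 = 1 := by
  rw [B_comm, B_Yv, B_comm e4 e3, hF.n4, hF.o34, B_comm e4 e0, hF.o04]; ring

lemma Y_e0 (hF : Frame e0 e3 e4) : B (Yv kG kT e0 e3 e4) e0 = -(kG + kT) := by
  rw [B_comm, B_Yv, hF.n0, hF.o03, hF.o04]; ring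

lemma Y_Y (hF : Frame e0 e3 e4) :
    B (Yv kG kT e0 e3 e4) (Yv kG kT e0 e3 e4) = 1 - 2 * kG * kT - kT ^ 2 := by
  rw [B_Yv, Y_e3 hF, Y_e4 hF, Y_e0 hF]; ring

end Y

/-- The data of the deletion gadget. -/
structure Dat (S : Finset ℕ) (v u w : ℕ) (g : ℕ → E) (A : E) (c : ℝ) (e0 e3 e4 : E)
    (ω : E → E → E → ℝ) (m : ℕ × ℕ → Du) (m' : Du) (kG kT : ℝ) : Prop where
  frame : Frame e0 e3 e4
  tri : Tri ω e3 e4
  cyc : Cyc g S ω e3 e4
  nb : Nb S v u w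
  c0 : 0 < c
  hA : A = c • (e0 + e3)
  lA : Light A
  edge : ∀ p ∈ Ed S, EdgeF (m p) (g p.1) (g p.2) e0 e3 e4 ∧
    ∀ k ∈ S, k ≠ p.1 → k ≠ p.2 → 0 < m p (g k)
  pcone : ∀ x, InPl e3 e4 x → (∀ p ∈ Ed S, 0 ≤ m p x) → InCone g S x
  edge' : EdgeF m' (g u) (g w) e0 e3 e4
  pos' : ∀ k ∈ S, k ≠ u → k ≠ w → k ≠ v → 0 < m' (g k)
  kG1 : 1 < kG
  kT0 : 0 < kT
  D0 : 0 < 1 - 2 * kG * kT - kT ^ 2
  small : (-m' (g v)) * (1 - 2 * kG * kT - kT ^ 2) < 2 * kT * (kG + kT) * (-B (g v) e0)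

lemma c3_pos {g : ℕ → E} {S : Finset ℕ} {ω : E → E → E → ℝ} {e3 e4 : E} (h : Tri ω e3 e4)
    (hc : Cyc g S ω e3 e4) {i j k : ℕ} (hi : i ∈ S) (hj : j ∈ S) (hk : k ∈ S)
    (h3 : C3 i j k) : 0 < ω (g i) (g j) (g k) := by
  rcases h3 with ⟨h1, h2⟩ | ⟨h1, h2⟩ | ⟨h1, h2⟩
  · exact hc.pos i hi j hj k hk h1 h2
  · rw [h.rot]; exact hc.pos j hj k hk i hi h1 h2
  · rw [h.rot, h.rot]; exact hc.pos k hk i hi j hj h1 h2

section Dat
variable {S : Finset ℕ} {v u w : ℕ} {g : ℕ → E} {A : E} {c : ℝ} {e0 e3 e4 : E}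
    {ω : E → E → E → ℝ} {m : ℕ × ℕ → Du} {m' : Du} {kG kT : ℝ}

lemma mv_neg (d : Dat S v u w g A c e0 e3 e4 ω m m' kG kT) : m' (g v) < 0 := by
  obtain ⟨k, hk, hku, hkv, hkw⟩ := d.nb.ex
  have hu := d.nb.uv.1
  have hv := d.nb.uv.2.1
  have hw := d.nb.vw.2.1
  have h1 := c3_pos d.tri d.cyc hu hv hw d.nb.c3
  have h2 := c3_pos d.tri d.cyc hu hw hk (d.nb.uw k hk hku hkv hkw)
  have h3 := d.pos' k hk hku hkw hkv
  have h4 := d.tri.cramer (g k) (g u) (g v) (g w) (d.cyc.inpl k hk) (d.cyc.inpl u hu)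
    (d.cyc.inpl v hv) (d.cyc.inpl w hw)
  have h5 := congrArg m' h4
  simp only [map_add, map_smul, smul_eq_mul, d.edge'.u0, d.edge'.v0, mul_zero, add_zero,
    zero_add] at h5
  have h6 : ω (g u) (g k) (g w) = -ω (g u) (g w) (g k) := by
    rw [d.tri.rot (g u) (g k) (g w), d.tri.swap, d.tri.rot (g u) (g w) (g k)]
  rw [h6] at h5
  by_contra hc
  push Not at hc
  nlinarith [mul_pos h1 h3, mul_nonneg h2.le hc]

lemma uv_ne (d : Dat S v u w g A c e0 e3 e4 ω m m' kG kT) : u ≠ v ∧ v ≠ w ∧ u ≠ w :=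
  ⟨d.nb.uv.2.2.1, d.nb.vw.2.2.1, d.nb.ne⟩

/-! ### The mirror -/

/-- The reflection of the gadget. -/
noncomputable def sY (kG kT : ℝ) (e0 e3 e4 : E) : E →ₗ[ℝ] E := sg (Yv kG kT e0 e3 e4)

lemma DY (d : Dat S v u w g A c e0 e3 e4 ω m m' kG kT) :
    0 < B (Yv kG kT e0 e3 e4) (Yv kG kT e0 e3 e4) := by
  rw [Y_Y d.frame]; exact d.D0

/-- The coefficient of the translation. -/
noncomputable def tt (kG kT : ℝ) (e0 e3 e4 : E) (x : E) : ℝ :=
  -(2 * B x (Yv kG kT e0 e3 e4) / B (Yv kG kT e0 e3 e4) (Yv kG kT e0 e3 e4))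

lemma sY_eq (x : E) : sY kG kT e0 e3 e4 x = x + tt kG kT e0 e3 e4 x • Yv kG kT e0 e3 e4 := by
  unfold sY tt
  rw [sg_apply, neg_smul, sub_eq_add_neg]

lemma sY_sY (d : Dat S v u w g A c e0 e3 e4 ω m m' kG kT) (x : E) :
    sY kG kT e0 e3 e4 (sY kG kT e0 e3 e4 x) = x := sg_sg (DY d).ne' x

lemma f_sY (f : Du) (x : E) : f (sY kG kT e0 e3 e4 x) =
    f x + tt kG kT e0 e3 e4 x * f (Yv kG kT e0 e3 e4) := by
  rw [sY_eq, map_add, map_smul, smul_eq_mul]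

lemma tt_g (d : Dat S v u w g A c e0 e3 e4 ω m m' kG kT) {j : ℕ} (hj : j ∈ S) :
    0 < tt kG kT e0 e3 e4 (g j) := by
  have h1 := light_neg d.frame.n0 d.frame.fut (d.cyc.light j hj)
  have h2 := d.cyc.inpl j hj
  unfold tt
  rw [Y_Y d.frame, B_Yv, h2.1, h2.2]
  have h3 : 0 < kG + kT := by have := d.kG1; have := d.kT0; linarith
  have h4 := d.D0
  rw [← neg_div]
  apply div_pos _ h4
  nlinarith [mul_pos h3 (neg_pos.2 h1)]

lemma tt_A (d : Dat S v u w g A c e0 e3 e4 ω m m' kG kT) :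
    0 < tt kG kT e0 e3 e4 A := by
  unfold tt
  rw [Y_Y d.frame, B_Yv, d.hA, B_smul, B_smul, B_smul, B_add, B_add, B_add, d.frame.o03,
    d.frame.n3, d.frame.o04, d.frame.o34, d.frame.n0, B_comm e3 e0, d.frame.o03]
  have h4 := d.D0
  rw [← neg_div]
  apply div_pos _ h4
  have := mul_pos d.c0 d.kT0
  nlinarith

/-! ### The functionals -/

/-- Normal of the port facet. -/
noncomputable def n1 (e4 : E) : Du := BL e4
/-- Normal of the second port facet. -/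
noncomputable def n2 (kG kT : ℝ) (e0 e3 e4 : E) : Du := (BL e4).comp (sY kG kT e0 e3 e4)
/-- Normal of the spine. -/
noncomputable def n3 (kG : ℝ) (e3 e4 : E) : Du := BL e3 - kG • BL e4
/-- Normals of the prisms. -/
noncomputable def nM (kT : ℝ) (e3 e4 : E) (m : Du) : Du := m - BL e3 - kT • BL e4
/-- The value `μ`. -/
noncomputable def mu (kG kT : ℝ) (e0 e3 e4 : E) (m' : Du) (x : E) : ℝ :=
  -kT + -m' x / tt kG kT e0 e3 e4 x
/-- Normal of the new facet. -/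
noncomputable def nL (kG kT : ℝ) (e0 e3 e4 : E) (m' : Du) (x : E) : Du :=
  (m' - BL e3 + mu kG kT e0 e3 e4 m' x • BL e4).comp (sY kG kT e0 e3 e4)

lemma n1_apply (x : E) : n1 e4 x = B x e4 := rfl
lemma n2_apply (x : E) : n2 kG kT e0 e3 e4 x = B (sY kG kT e0 e3 e4 x) e4 := rfl
lemma n3_apply (x : E) : n3 kG e3 e4 x = B x e3 - kG * B x e4 := rfl
lemma nM_apply (m : Du) (x : E) : nM kT e3 e4 m x = m x - B x e3 - kT * B x e4 := rfl
lemma nL_apply (m' : Du) (y x : E) : nL kG kT e0 e3 e4 m' y x =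
    m' (sY kG kT e0 e3 e4 x) - B (sY kG kT e0 e3 e4 x) e3 +
      mu kG kT e0 e3 e4 m' y * B (sY kG kT e0 e3 e4 x) e4 := rfl

lemma B3_sY (hF : Frame e0 e3 e4) (x : E) : B (sY kG kT e0 e3 e4 x) e3 =
    B x e3 + tt kG kT e0 e3 e4 x * kG := by
  have := f_sY (kG := kG) (kT := kT) (e0 := e0) (e3 := e3) (e4 := e4) (BL e3) x
  rwa [BL_apply, BL_apply, BL_apply, Y_e3 hF] at this

lemma B4_sY (hF : Frame e0 e3 e4) (x : E) : B (sY kG kT e0 e3 e4 x) e4 =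
    B x e4 + tt kG kT e0 e3 e4 x := by
  have := f_sY (kG := kG) (kT := kT) (e0 := e0) (e3 := e3) (e4 := e4) (BL e4) x
  rwa [BL_apply, BL_apply, BL_apply, Y_e4 hF, mul_one] at this

lemma m_Y {a b : E} {m : Du} (h : EdgeF m a b e0 e3 e4) : m (Yv kG kT e0 e3 e4) = kG + kT := by
  unfold Yv
  rw [map_add, map_add, map_smul, map_smul, h.m0, h.m3, h.m4]
  simp

lemma m_sY {a b : E} {m : Du} (h : EdgeF m a b e0 e3 e4) (x : E) :
    m (sY kG kT e0 e3 e4 x) = m x + tt kG kT e0 e3 e4 x * (kG + kT) := by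
  rw [f_sY, m_Y h]

lemma n3_sY (hF : Frame e0 e3 e4) (x : E) :
    n3 kG e3 e4 (sY kG kT e0 e3 e4 x) = n3 kG e3 e4 x := by
  rw [n3_apply, n3_apply, B3_sY hF, B4_sY hF]; ring

lemma nM_sY (hF : Frame e0 e3 e4) {a b : E} {m : Du} (h : EdgeF m a b e0 e3 e4) (x : E) :
    nM kT e3 e4 m (sY kG kT e0 e3 e4 x) = nM kT e3 e4 m x := by
  rw [nM_apply, nM_apply, B3_sY hF, B4_sY hF, m_sY h]; ring

/-! ### The values -/

lemma A_e3 (d : Dat S v u w g A c e0 e3 e4 ω m m' kG kT) : B A e3 = c := by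
  rw [d.hA, B_smul, B_add, d.frame.o03, d.frame.n3]; ring

lemma A_e4 (d : Dat S v u w g A c e0 e3 e4 ω m m' kG kT) : B A e4 = 0 := by
  rw [d.hA, B_smul, B_add, d.frame.o04, d.frame.o34]; ring

lemma m_A (d : Dat S v u w g A c e0 e3 e4 ω m m' kG kT) {a b : E} {m1 : Du}
    (h : EdgeF m1 a b e0 e3 e4) : m1 A = c := by
  rw [d.hA, map_smul, map_add, h.m0, h.m3]; simp

lemma nL_eq (d : Dat S v u w g A c e0 e3 e4 ω m m' kG kT) (x : E) :
    nL kG kT e0 e3 e4 m' (g v) x = m' x - B x e3 + mu kG kT e0 e3 e4 m' (g v) * B x e4 +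
      tt kG kT e0 e3 e4 x * (kT + mu kG kT e0 e3 e4 m' (g v)) := by
  rw [nL_apply, B3_sY d.frame, B4_sY d.frame, m_sY d.edge']; ring

lemma nL_sY (d : Dat S v u w g A c e0 e3 e4 ω m m' kG kT) (x : E) :
    nL kG kT e0 e3 e4 m' (g v) (sY kG kT e0 e3 e4 x) =
      m' x - B x e3 + mu kG kT e0 e3 e4 m' (g v) * B x e4 := by
  rw [nL_apply, sY_sY d]

lemma mu_eq (_ : Dat S v u w g A c e0 e3 e4 ω m m' kG kT) :
    kT + mu kG kT e0 e3 e4 m' (g v) = -m' (g v) / tt kG kT e0 e3 e4 (g v) := by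
  unfold mu; ring

lemma mu_pos (d : Dat S v u w g A c e0 e3 e4 ω m m' kG kT) :
    0 < kT + mu kG kT e0 e3 e4 m' (g v) := by
  rw [mu_eq d]
  exact div_pos (neg_pos.2 (mv_neg d)) (tt_g d d.nb.uv.2.1)

lemma mu_neg (d : Dat S v u w g A c e0 e3 e4 ω m m' kG kT) :
    mu kG kT e0 e3 e4 m' (g v) < 0 := by
  have h1 := tt_g d d.nb.uv.2.1
  have h2 : -m' (g v) / tt kG kT e0 e3 e4 (g v) < kT := by
    rw [div_lt_iff₀ h1]
    unfold tt
    have h3 := d.cyc.inpl v d.nb.uv.2.1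
    rw [Y_Y d.frame, B_Yv, h3.1, h3.2]
    have h4 := d.small
    have h5 := d.D0
    have e : kT * -(2 * (kG * 0 + 0 + (kG + kT) * B (g v) e0) / (1 - 2 * kG * kT - kT ^ 2)) =
        (2 * kT * (kG + kT) * (-B (g v) e0)) / (1 - 2 * kG * kT - kT ^ 2) := by ring
    rw [e, lt_div_iff₀ h5]
    exact h4
  have := mu_eq d
  linarith

lemma nL_gv (d : Dat S v u w g A c e0 e3 e4 ω m m' kG kT) :
    nL kG kT e0 e3 e4 m' (g v) (g v) = 0 := by
  have h3 := d.cyc.inpl v d.nb.uv.2.1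
  have h1 := tt_g d d.nb.uv.2.1
  rw [nL_eq d, mu_eq d, h3.1, h3.2]
  field_simp
  ring

lemma m'_nonneg (d : Dat S v u w g A c e0 e3 e4 ω m m' kG kT) {j : ℕ} (hj : j ∈ S)
    (hjv : j ≠ v) : 0 ≤ m' (g j) ∧ (m' (g j) = 0 ↔ j = u ∨ j = w) := by
  by_cases h1 : j = u
  · rw [h1, d.edge'.u0]; simp
  · by_cases h2 : j = w
    · rw [h2, d.edge'.v0]; simp
    · have := d.pos' j hj h1 h2 hjv
      refine ⟨this.le, ?_⟩
      constructor
      · intro h; exact absurd h this.ne'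
      · rintro (h | h)
        · exact absurd h h1
        · exact absurd h h2

lemma nL_g (d : Dat S v u w g A c e0 e3 e4 ω m m' kG kT) {j : ℕ} (hj : j ∈ S) (hjv : j ≠ v) :
    0 < nL kG kT e0 e3 e4 m' (g v) (g j) := by
  have h3 := d.cyc.inpl j hj
  rw [nL_eq d, h3.1, h3.2]
  have h1 := (m'_nonneg d hj hjv).1
  have h2 := mul_pos (tt_g d hj) (mu_pos d)
  linarith

lemma nL_A (d : Dat S v u w g A c e0 e3 e4 ω m m' kG kT) :
    0 < nL kG kT e0 e3 e4 m' (g v) A := by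
  rw [nL_eq d, A_e3 d, A_e4 d, m_A d d.edge']
  have h2 := mul_pos (tt_A d) (mu_pos d)
  linarith

lemma nL_sA (d : Dat S v u w g A c e0 e3 e4 ω m m' kG kT) :
    nL kG kT e0 e3 e4 m' (g v) (sY kG kT e0 e3 e4 A) = 0 := by
  rw [nL_sY d, A_e3 d, A_e4 d, m_A d d.edge']; ring

lemma nL_sg (d : Dat S v u w g A c e0 e3 e4 ω m m' kG kT) {j : ℕ} (hj : j ∈ S) :
    nL kG kT e0 e3 e4 m' (g v) (sY kG kT e0 e3 e4 (g j)) = m' (g j) := by
  have h3 := d.cyc.inpl j hj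
  rw [nL_sY d, h3.1, h3.2]; ring

lemma n1_g (d : Dat S v u w g A c e0 e3 e4 ω m m' kG kT) {j : ℕ} (hj : j ∈ S) :
    n1 e4 (g j) = 0 := (d.cyc.inpl j hj).2
lemma n1_A (d : Dat S v u w g A c e0 e3 e4 ω m m' kG kT) : n1 e4 A = 0 := A_e4 d
lemma n1_sg (d : Dat S v u w g A c e0 e3 e4 ω m m' kG kT) {j : ℕ} (hj : j ∈ S) :
    0 < n1 e4 (sY kG kT e0 e3 e4 (g j)) := by
  rw [n1_apply, B4_sY d.frame, (d.cyc.inpl j hj).2, zero_add]; exact tt_g d hj
lemma n1_sA (d : Dat S v u w g A c e0 e3 e4 ω m m' kG kT) :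
    0 < n1 e4 (sY kG kT e0 e3 e4 A) := by
  rw [n1_apply, B4_sY d.frame, A_e4 d, zero_add]; exact tt_A d
lemma n2_s (d : Dat S v u w g A c e0 e3 e4 ω m m' kG kT) (x : E) :
    n2 kG kT e0 e3 e4 (sY kG kT e0 e3 e4 x) = n1 e4 x := by
  rw [n2_apply, sY_sY d, n1_apply]
lemma n2_eq (x : E) : n2 kG kT e0 e3 e4 x = n1 e4 (sY kG kT e0 e3 e4 x) := rfl
lemma n3_g (d : Dat S v u w g A c e0 e3 e4 ω m m' kG kT) {j : ℕ} (hj : j ∈ S) :
    n3 kG e3 e4 (g j) = 0 := by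
  rw [n3_apply, (d.cyc.inpl j hj).1, (d.cyc.inpl j hj).2]; ring
lemma n3_A (d : Dat S v u w g A c e0 e3 e4 ω m m' kG kT) : n3 kG e3 e4 A = c := by
  rw [n3_apply, A_e3 d, A_e4 d]; ring
lemma nM_g (d : Dat S v u w g A c e0 e3 e4 ω m m' kG kT) {j : ℕ} (hj : j ∈ S) (m1 : Du) :
    nM kT e3 e4 m1 (g j) = m1 (g j) := by
  rw [nM_apply, (d.cyc.inpl j hj).1, (d.cyc.inpl j hj).2]; ring
lemma nM_A (d : Dat S v u w g A c e0 e3 e4 ω m m' kG kT) {a b : E} {m1 : Du}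
    (h : EdgeF m1 a b e0 e3 e4) : nM kT e3 e4 m1 A = 0 := by
  rw [nM_apply, A_e3 d, A_e4 d, m_A d h]; ring

lemma m_nonneg (d : Dat S v u w g A c e0 e3 e4 ω m m' kG kT) {p : ℕ × ℕ} (hp : p ∈ Ed S)
    {j : ℕ} (hj : j ∈ S) : 0 ≤ m p (g j) ∧ (m p (g j) = 0 ↔ j = p.1 ∨ j = p.2) := by
  obtain ⟨h1, h2⟩ := d.edge p hp
  by_cases h3 : j = p.1
  · rw [h3, h1.u0]; simp
  · by_cases h4 : j = p.2
    · rw [h4, h1.v0]; simp
    · have := h2 j hj h3 h4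
      refine ⟨this.le, ?_⟩
      constructor
      · intro h; exact absurd h this.ne'
      · rintro (h | h)
        · exact absurd h h3
        · exact absurd h h4

/-! ### The cones -/

/-- The pyramid. -/
lemma pyr (d : Dat S v u w g A c e0 e3 e4 ω m m' kG kT) {x : E} (h4 : B x e4 = 0)
    (h3 : 0 ≤ B x e3) (hm : ∀ p ∈ Ed S, 0 ≤ m p x - B x e3) :
    ∃ (y : E) (r : ℝ), InCone g S y ∧ 0 ≤ r ∧ x = y + r • A := by
  refine ⟨x - (B x e3 / c) • A, B x e3 / c, ?_, div_nonneg h3 d.c0.le, by abel⟩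
  refine d.pcone _ ⟨?_, ?_⟩ fun p hp => ?_
  · rw [B_sub, B_smul, A_e3 d, div_mul_cancel₀ _ d.c0.ne']; ring
  · rw [B_sub, B_smul, A_e4 d, h4]; ring
  · rw [map_sub, map_smul, m_A d (d.edge p hp).1, smul_eq_mul, div_mul_cancel₀ _ d.c0.ne']
    exact hm p hp

/-- The prism. -/
lemma prism (d : Dat S v u w g A c e0 e3 e4 ω m m' kG kT) {x : E} (h1 : 0 ≤ n1 e4 x)
    (h2 : 0 ≤ n2 kG kT e0 e3 e4 x) (h3 : 0 ≤ n3 kG e3 e4 x)
    (hm : ∀ p ∈ Ed S, 0 ≤ nM kT e3 e4 (m p) x) :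
    ∃ (y : E) (r : ℝ) (y' : E) (r' : ℝ), InCone g S y ∧ 0 ≤ r ∧ InCone g S y' ∧ 0 ≤ r' ∧
      x = (y + r • A) + sY kG kT e0 e3 e4 (y' + r' • A) := by
  have key : ∀ z : E, 0 ≤ n3 kG e3 e4 z → (∀ p ∈ Ed S, 0 ≤ nM kT e3 e4 (m p) z) →
      ∃ (y : E) (r : ℝ), InCone g S y ∧ 0 ≤ r ∧ z - B z e4 • Yv kG kT e0 e3 e4 = y + r • A := by
    intro z hz3 hzm
    refine pyr d ?_ ?_ fun p hp => ?_
    · rw [B_sub, B_smul, Y_e4 d.frame]; ring
    · rw [B_sub, B_smul, Y_e3 d.frame]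
      rw [n3_apply] at hz3
      linarith
    · rw [B_sub, B_smul, Y_e3 d.frame, map_sub, map_smul, m_Y (d.edge p hp).1, smul_eq_mul]
      have := hzm p hp
      rw [nM_apply] at this
      linarith
  obtain ⟨y, r, hy, hr, e1⟩ := key x h3 hm
  obtain ⟨y', r', hy', hr', e2⟩ := key (sY kG kT e0 e3 e4 x) (by rw [n3_sY d.frame]; exact h3)
    (fun p hp => by rw [nM_sY d.frame (d.edge p hp).1]; exact hm p hp)
  rw [n1_apply] at h1
  rw [n2_apply] at h2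
  set l1 := B x e4 with hl1
  set l2 := B (sY kG kT e0 e3 e4 x) e4 with hl2
  -- reflected second identity
  have hsY : sY kG kT e0 e3 e4 (Yv kG kT e0 e3 e4) = -Yv kG kT e0 e3 e4 := by
    rw [sY_eq]
    unfold tt
    have := (DY d).ne'
    rw [mul_div_assoc, div_self this, mul_one]
    funext i
    simp only [Pi.add_apply, Pi.smul_apply, smul_eq_mul, Pi.neg_apply]
    ring
  have q3 : x + l2 • Yv kG kT e0 e3 e4 = sY kG kT e0 e3 e4 (y' + r' • A) := by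
    rw [← e2, map_sub, map_smul, sY_sY d, hsY, smul_neg, sub_neg_eq_add]
  rcases (add_nonneg h1 h2).eq_or_lt with h0 | h0
  · have hl10 : l1 = 0 := by linarith
    refine ⟨y, r, 0, 0, hy, hr, cone_zero, le_rfl, ?_⟩
    rw [← e1, hl10]
    simp
  · refine ⟨(l2 / (l1 + l2)) • y, (l2 / (l1 + l2)) * r, (l1 / (l1 + l2)) • y',
      (l1 / (l1 + l2)) * r', cone_smul (div_nonneg h2 h0.le) hy,
      mul_nonneg (div_nonneg h2 h0.le) hr, cone_smul (div_nonneg h1 h0.le) hy',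
      mul_nonneg (div_nonneg h1 h0.le) hr', ?_⟩
    have e4' : (l2 / (l1 + l2)) • y + ((l2 / (l1 + l2)) * r) • A =
        (l2 / (l1 + l2)) • (x - l1 • Yv kG kT e0 e3 e4) := by
      rw [e1, smul_add, smul_smul]
    have e5 : (l1 / (l1 + l2)) • y' + ((l1 / (l1 + l2)) * r') • A =
        (l1 / (l1 + l2)) • (y' + r' • A) := by
      rw [smul_add, smul_smul]
    rw [e4', e5, map_smul, ← q3]
    funext i
    simp only [Pi.add_apply, Pi.sub_apply, Pi.smul_apply, smul_eq_mul]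
    field_simp
    ring

/-- The five functionals separate. -/
lemma sep (d : Dat S v u w g A c e0 e3 e4 ω m m' kG kT) {z : E}
    (h2 : n2 kG kT e0 e3 e4 z = 0) (h3 : n3 kG e3 e4 z = 0)
    (hL : nL kG kT e0 e3 e4 m' (g v) z = 0) (hvw : nM kT e3 e4 (m (mkE v w)) z = 0)
    (huv : nM kT e3 e4 (m (mkE u v)) z = 0) : z = 0 := by
  have hu := d.nb.uv.1
  have hv := d.nb.uv.2.1
  have hw := d.nb.vw.2.1
  have evw := d.edge _ (nx_ed d.nb.vw)
  have euv := d.edge _ (nx_ed d.nb.uv)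
  set z' := sY kG kT e0 e3 e4 z with hz'
  have hzz : z = sY kG kT e0 e3 e4 z' := by rw [hz', sY_sY d]
  have q4 : B z' e4 = 0 := h2
  have q3 : B z' e3 = 0 := by
    have := n3_sY (kG := kG) (kT := kT) d.frame z
    rw [h3, n3_apply, ← hz', q4] at this
    linarith
  have qL : m' z' = 0 := by
    rw [nL_apply, ← hz', q3, q4] at hL
    linarith
  have qvw : m (mkE v w) z' = 0 := by
    have := nM_sY (kG := kG) (kT := kT) d.frame evw.1 z
    rw [hvw, nM_apply, ← hz', q3, q4] at this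
    linarith
  have quv : m (mkE u v) z' = 0 := by
    have := nM_sY (kG := kG) (kT := kT) d.frame euv.1 z
    rw [huv, nM_apply, ← hz', q3, q4] at this
    linarith
  have hω := c3_pos d.tri d.cyc hu hv hw d.nb.c3
  have hcr := d.tri.cramer z' (g u) (g v) (g w) ⟨q3, q4⟩ (d.cyc.inpl u hu)
    (d.cyc.inpl v hv) (d.cyc.inpl w hw)
  obtain ⟨nuv, nvw, nuw⟩ := uv_ne d
  -- values of the edge functionals
  have a1 : m (mkE v w) (g v) = 0 := ((m_nonneg d (nx_ed d.nb.vw) hv).2).2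
    (mem_edge_iff.2 (Or.inl rfl))
  have a2 : m (mkE v w) (g w) = 0 := ((m_nonneg d (nx_ed d.nb.vw) hw).2).2
    (mem_edge_iff.2 (Or.inr rfl))
  have a3 : m (mkE v w) (g u) ≠ 0 := fun h => by
    have := mem_edge_iff.1 (((m_nonneg d (nx_ed d.nb.vw) hu).2).1 h)
    rcases this with h | h
    · exact nuv h
    · exact nuw h
  have b1 : m (mkE u v) (g u) = 0 := ((m_nonneg d (nx_ed d.nb.uv) hu).2).2
    (mem_edge_iff.2 (Or.inl rfl))
  have b2 : m (mkE u v) (g v) = 0 := ((m_nonneg d (nx_ed d.nb.uv) hv).2).2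
    (mem_edge_iff.2 (Or.inr rfl))
  have b3 : m (mkE u v) (g w) ≠ 0 := fun h => by
    have := mem_edge_iff.1 (((m_nonneg d (nx_ed d.nb.uv) hw).2).1 h)
    rcases this with h | h
    · exact nuw h.symm
    · exact nvw h.symm
  have c1 := congrArg (m (mkE v w)) hcr
  have c2 := congrArg (m (mkE u v)) hcr
  have c3 := congrArg m' hcr
  simp only [map_add, map_smul, smul_eq_mul, qvw, a1, a2, mul_zero, add_zero] at c1
  simp only [map_add, map_smul, smul_eq_mul, quv, b1, b2, mul_zero, add_zero, zero_add] at c2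
  simp only [map_add, map_smul, smul_eq_mul, qL, d.edge'.u0, d.edge'.v0, mul_zero, add_zero,
    zero_add] at c3
  have d1 : ω z' (g v) (g w) = 0 := by
    rcases mul_eq_zero.1 c1.symm with h | h
    · exact h
    · exact absurd h a3
  have d2 : ω (g u) (g v) z' = 0 := by
    rcases mul_eq_zero.1 c2.symm with h | h
    · exact h
    · exact absurd h b3
  have d3 : ω (g u) z' (g w) = 0 := by
    rcases mul_eq_zero.1 c3.symm with h | h
    · exact h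
    · exact absurd h (mv_neg d).ne
  rw [d1, d2, d3, zero_smul, zero_smul, zero_smul, add_zero, add_zero] at hcr
  have hz0 : z' = 0 := by
    rcases smul_eq_zero.1 hcr with h | h
    · exact absurd h hω.ne'
    · exact h
  rw [hzz, hz0, map_zero]

/-- Cutting off the vertex. -/
lemma cut_aux (d : Dat S v u w g A c e0 e3 e4 ω m m' kG kT) {K : E → Prop}
    (hadd : ∀ x y, K x → K y → K (x + y)) (hsmul : ∀ (r : ℝ) x, 0 ≤ r → K x → K (r • x))
    (hg : ∀ j ∈ S, K (g j)) (hA' : K (sY kG kT e0 e3 e4 A))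
    (hg' : ∀ j ∈ S, j ≠ v → K (sY kG kT e0 e3 e4 (g j)))
    (hn : ∀ x, K x → 0 ≤ n2 kG kT e0 e3 e4 x ∧ 0 ≤ n3 kG e3 e4 x ∧
      0 ≤ nM kT e3 e4 (m (mkE v w)) x ∧ 0 ≤ nM kT e3 e4 (m (mkE u v)) x)
    {y : E} (hy : K y) {r : ℝ} (hr : 0 ≤ r)
    (hL : 0 ≤ nL kG kT e0 e3 e4 m' (g v) (y + r • sY kG kT e0 e3 e4 (g v))) :
    K (y + r • sY kG kT e0 e3 e4 (g v)) := by
  have hu := d.nb.uv.1
  have hv := d.nb.uv.2.1
  have hw := d.nb.vw.2.1
  have evw := d.edge _ (nx_ed d.nb.vw)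
  have euv := d.edge _ (nx_ed d.nb.uv)
  obtain ⟨nuv, nvw, nuw⟩ := uv_ne d
  have a1 : m (mkE v w) (g v) = 0 := ((m_nonneg d (nx_ed d.nb.vw) hv).2).2
    (mem_edge_iff.2 (Or.inl rfl))
  have a2 : m (mkE v w) (g w) = 0 := ((m_nonneg d (nx_ed d.nb.vw) hw).2).2
    (mem_edge_iff.2 (Or.inr rfl))
  have a3 : 0 < m (mkE v w) (g u) := by
    refine lt_of_le_of_ne (m_nonneg d (nx_ed d.nb.vw) hu).1 fun h => ?_
    have := mem_edge_iff.1 (((m_nonneg d (nx_ed d.nb.vw) hu).2).1 h.symm)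
    rcases this with h | h
    · exact nuv h
    · exact nuw h
  have b1 : m (mkE u v) (g u) = 0 := ((m_nonneg d (nx_ed d.nb.uv) hu).2).2
    (mem_edge_iff.2 (Or.inl rfl))
  have b2 : m (mkE u v) (g v) = 0 := ((m_nonneg d (nx_ed d.nb.uv) hv).2).2
    (mem_edge_iff.2 (Or.inr rfl))
  have b3 : 0 < m (mkE u v) (g w) := by
    refine lt_of_le_of_ne (m_nonneg d (nx_ed d.nb.uv) hw).1 fun h => ?_
    have := mem_edge_iff.1 (((m_nonneg d (nx_ed d.nb.uv) hw).2).1 h.symm)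
    rcases this with h | h
    · exact nuw h.symm
    · exact nvw h.symm
  rcases hr.eq_or_lt with h0 | h0
  · rw [← h0, zero_smul, add_zero]; exact hy
  have hmv := mv_neg d
  rw [map_add, map_smul, nL_sg d hv, smul_eq_mul] at hL
  have hmv' : 0 < -m' (g v) := neg_pos.2 hmv
  set q := nL kG kT e0 e3 e4 m' (g v) y / (-m' (g v)) with hq
  have hqr : r ≤ q := by
    rw [hq, le_div_iff₀ hmv']; linarith
  have hq0 : 0 < q := h0.trans_le hqr
  obtain ⟨k2, k3, kvw, kuv⟩ := hn y hy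
  have ht := tt_g d hv
  set N : E := (n2 kG kT e0 e3 e4 y / tt kG kT e0 e3 e4 (g v)) • g v +
    (n3 kG e3 e4 y / c) • sY kG kT e0 e3 e4 A +
    (nM kT e3 e4 (m (mkE v w)) y / m (mkE v w) (g u)) • sY kG kT e0 e3 e4 (g u) +
    (nM kT e3 e4 (m (mkE u v)) y / m (mkE u v) (g w)) • sY kG kT e0 e3 e4 (g w) with hN
  have hKN : K N := by
    refine hadd _ _ (hadd _ _ (hadd _ _ (hsmul _ _ (div_nonneg k2 ht.le) (hg v hv))
      (hsmul _ _ (div_nonneg k3 d.c0.le) hA'))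
      (hsmul _ _ (div_nonneg kvw a3.le) (hg' u hu nuv)))
      (hsmul _ _ (div_nonneg kuv b3.le) (hg' w hw nvw.symm))
  have hz : y + q • sY kG kT e0 e3 e4 (g v) - N = 0 := by
    have v2 : n2 kG kT e0 e3 e4 (g v) = tt kG kT e0 e3 e4 (g v) := by
      rw [n2_apply, B4_sY d.frame, (d.cyc.inpl v hv).2, zero_add]
    have hmvw : ∀ x, nM kT e3 e4 (m (mkE v w)) (sY kG kT e0 e3 e4 x) =
        nM kT e3 e4 (m (mkE v w)) x := nM_sY d.frame evw.1
    have hmuv : ∀ x, nM kT e3 e4 (m (mkE u v)) (sY kG kT e0 e3 e4 x) =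
        nM kT e3 e4 (m (mkE u v)) x := nM_sY d.frame euv.1
    refine sep d ?_ ?_ ?_ ?_ ?_
    · rw [hN]
      simp only [map_add, map_sub, map_smul, smul_eq_mul, n2_s d, n1_g d hv, n1_g d hu,
        n1_g d hw, n1_A d, v2, mul_zero, add_zero]
      rw [div_mul_cancel₀ _ ht.ne']; ring
    · rw [hN]
      simp only [map_add, map_sub, map_smul, smul_eq_mul, n3_sY d.frame, n3_g d hv, n3_g d hu,
        n3_g d hw, n3_A d, mul_zero, add_zero, zero_add]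
      rw [div_mul_cancel₀ _ d.c0.ne']; ring
    · rw [hN]
      simp only [map_add, map_sub, map_smul, smul_eq_mul, nL_sg d hv, nL_sg d hu,
        nL_sg d hw, nL_sA d, nL_gv d, d.edge'.u0, d.edge'.v0, mul_zero, add_zero, sub_zero]
      have hq2 : q * m' (g v) = -(nL kG kT e0 e3 e4 m' (g v) y) := by
        rw [hq, div_neg, neg_mul, div_mul_cancel₀ _ hmv.ne]
      linarith
    · rw [hN]
      simp only [map_add, map_sub, map_smul, smul_eq_mul, hmvw, nM_g d hv, nM_g d hu,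
        nM_g d hw, nM_A d evw.1, a1, a2, mul_zero, add_zero, zero_add]
      rw [div_mul_cancel₀ _ a3.ne']; ring
    · rw [hN]
      simp only [map_add, map_sub, map_smul, smul_eq_mul, hmuv, nM_g d hv, nM_g d hu,
        nM_g d hw, nM_A d euv.1, b1, b2, mul_zero, add_zero, zero_add]
      rw [div_mul_cancel₀ _ b3.ne']; ring
  have hNe : N = y + q • sY kG kT e0 e3 e4 (g v) := (sub_eq_zero.1 hz).symm
  have hx : y + r • sY kG kT e0 e3 e4 (g v) = (1 - r / q) • y + (r / q) • N := by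
    rw [hNe]
    funext i
    simp only [Pi.add_apply, Pi.smul_apply, smul_eq_mul]
    field_simp
    ring
  rw [hx]
  exact hadd _ _ (hsmul _ _ (by rw [sub_nonneg, div_le_one hq0]; exact hqr) hy)
    (hsmul _ _ (div_nonneg h0.le hq0.le) hKN)

/-- The cone. -/
lemma cut (d : Dat S v u w g A c e0 e3 e4 ω m m' kG kT) {K : E → Prop} (hK0 : K 0)
    (hadd : ∀ x y, K x → K y → K (x + y)) (hsmul : ∀ (r : ℝ) x, 0 ≤ r → K x → K (r • x))
    (hg : ∀ j ∈ S, K (g j)) (hA : K A) (hA' : K (sY kG kT e0 e3 e4 A))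
    (hg' : ∀ j ∈ S, j ≠ v → K (sY kG kT e0 e3 e4 (g j)))
    (hn : ∀ x, K x → 0 ≤ n2 kG kT e0 e3 e4 x ∧ 0 ≤ n3 kG e3 e4 x ∧
      0 ≤ nM kT e3 e4 (m (mkE v w)) x ∧ 0 ≤ nM kT e3 e4 (m (mkE u v)) x)
    {x : E} (h1 : 0 ≤ n1 e4 x)
    (h2 : 0 ≤ n2 kG kT e0 e3 e4 x) (h3 : 0 ≤ n3 kG e3 e4 x)
    (hm : ∀ p ∈ Ed S, 0 ≤ nM kT e3 e4 (m p) x)
    (hL : 0 ≤ nL kG kT e0 e3 e4 m' (g v) x) : K x := by
  obtain ⟨y, r, y', r', ⟨cy, hcy, ey⟩, hr, ⟨cy', hcy', ey'⟩, hr', ex⟩ := prism d h1 h2 h3 hm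
  have hv := d.nb.uv.2.1
  have hsumK : ∀ (s : Finset ℕ) (f : ℕ → E), (∀ i ∈ s, K (f i)) → K (∑ i ∈ s, f i) := by
    intro s f
    induction s using Finset.induction_on with
    | empty => intro _; simpa using hK0
    | insert i s hi ih =>
      intro hf
      rw [Finset.sum_insert hi]
      exact hadd _ _ (hf i (Finset.mem_insert_self _ _))
        (ih fun j hj => hf j (Finset.mem_insert_of_mem hj))
  have ex2 : x = (y + r • A + r' • sY kG kT e0 e3 e4 A +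
      ∑ j ∈ S.erase v, cy' j • sY kG kT e0 e3 e4 (g j)) +
      cy' v • sY kG kT e0 e3 e4 (g v) := by
    rw [ex, map_add, map_smul, ey', map_sum, ← Finset.sum_erase_add _ _ hv]
    simp only [map_smul]
    abel
  rw [ex2]
  refine cut_aux d hadd hsmul hg hA' hg' hn ?_ (hcy' v) (by rw [← ex2]; exact hL)
  refine hadd _ _ (hadd _ _ (hadd _ _ ?_ (hsmul _ _ hr hA)) (hsmul _ _ hr' hA')) ?_
  · rw [ey]
    exact hsumK _ _ fun j hj => hsmul _ _ (hcy j) (hg j hj)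
  · refine hsumK _ _ fun j hj => hsmul _ _ (hcy' j) ?_
    rw [Finset.mem_erase] at hj
    exact hg' j hj.2 hj.1

end Dat

end GA
end Pool.Agent.Work.MP_5b14b0_lc
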