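import Pool.Agent.Work.MP_5b14b0_lc.GadA2

/-!
# MP_5b14b0_lc, deletion gadget, part 3: the polytope
-/

set_option autoImplicit false

namespace Pool.Agent.Work.MP_5b14b0_lc
namespace GA

open Finset

/-- The labels and the vectors. -/
structure Lbl {ι : Type} [DecidableEq ι] (S : Finset ℕ) (v : ℕ) (pl pl' : ℕ → ι) (a a' : ι)
    (φ2 : ι → E) (g : ℕ → E) (A : E) (σ : E →ₗ[ℝ] E) : Prop where
  injp : ∀ i ∈ S, ∀ j ∈ S, pl i = pl j → i = j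
  injp' : ∀ i ∈ S.erase v, ∀ j ∈ S.erase v, pl' i = pl' j → i = j
  ap : ∀ j ∈ S, pl j ≠ a
  ap' : ∀ j ∈ S.erase v, pl' j ≠ a'
  aa' : a ≠ a'
  p'a : ∀ j ∈ S.erase v, pl' j ≠ a
  pa' : ∀ j ∈ S, pl j ≠ a'
  pp' : ∀ i ∈ S, ∀ j ∈ S.erase v, pl i ≠ pl' j
  fa : φ2 a = A
  fp : ∀ j ∈ S, φ2 (pl j) = g j
  fa' : φ2 a' = σ A
  fp' : ∀ j ∈ S.erase v, φ2 (pl' j) = σ (g j)

section Facets
variable {ι : Type} [DecidableEq ι]

/-- The spine facet. -/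
def F3 (S : Finset ℕ) (v : ℕ) (pl pl' : ℕ → ι) : Finset ι :=
  S.image pl ∪ (S.erase v).image pl'

/-- The new facet. -/
def F4 (S : Finset ℕ) (v : ℕ) (pl pl' : ℕ → ι) (a' : ι) : Finset ι :=
  {pl v, a'} ∪ ((S.erase v).filter (fun u => (u, v) ∈ Ed S ∨ (v, u) ∈ Ed S)).image pl'

/-- The prisms. -/
def Fe (v : ℕ) (pl pl' : ℕ → ι) (a a' : ι) (e : ℕ × ℕ) : Finset ι :=
  ({a, pl e.1, pl e.2, a'} : Finset ι) ∪ (({e.1, e.2} : Finset ℕ).erase v).image pl'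

lemma FA_cases {S : Finset ℕ} {v : ℕ} {pl pl' : ℕ → ι} {a a' : ι} {F : Finset ι} :
    F ∈ FA S v pl pl' a a' ↔ F = pF S pl a ∨ F = pF (S.erase v) pl' a' ∨
      F = F3 S v pl pl' ∨ F = F4 S v pl pl' a' ∨ ∃ e ∈ Ed S, F = Fe v pl pl' a a' e := by
  unfold FA
  rw [Finset.mem_union, Finset.mem_image]
  simp only [Finset.mem_insert, Finset.mem_singleton]
  constructor
  · rintro ((h | h | h | h) | ⟨e, he, h⟩)
    · exact Or.inl h
    · exact Or.inr (Or.inl h)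
    · exact Or.inr (Or.inr (Or.inl h))
    · exact Or.inr (Or.inr (Or.inr (Or.inl h)))
    · exact Or.inr (Or.inr (Or.inr (Or.inr ⟨e, he, h.symm⟩)))
  · rintro (h | h | h | h | ⟨e, he, h⟩)
    · exact Or.inl (Or.inl h)
    · exact Or.inl (Or.inr (Or.inl h))
    · exact Or.inl (Or.inr (Or.inr (Or.inl h)))
    · exact Or.inl (Or.inr (Or.inr (Or.inr h)))
    · exact Or.inr ⟨e, he, h.symm⟩

lemma mem_pF {S : Finset ℕ} {pl : ℕ → ι} {a x : ι} :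
    x ∈ pF S pl a ↔ x = a ∨ ∃ j ∈ S, pl j = x := by
  unfold pF; rw [Finset.mem_insert, Finset.mem_image]

lemma VA_cases {S : Finset ℕ} {v : ℕ} {pl pl' : ℕ → ι} {a a' : ι} {x : ι}
    (hx : x ∈ VA S v pl pl' a a') :
    x = a ∨ (∃ j ∈ S, x = pl j) ∨ x = a' ∨ ∃ j ∈ S.erase v, x = pl' j := by
  unfold VA at hx
  rw [Finset.mem_union, mem_pF, mem_pF] at hx
  rcases hx with (h | ⟨j, hj, h⟩) | (h | ⟨j, hj, h⟩)
  · exact Or.inl h
  · exact Or.inr (Or.inl ⟨j, hj, h.symm⟩)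
  · exact Or.inr (Or.inr (Or.inl h))
  · exact Or.inr (Or.inr (Or.inr ⟨j, hj, h.symm⟩))

variable {S : Finset ℕ} {v u w : ℕ} {pl pl' : ℕ → ι} {a a' : ι} {φ2 : ι → E} {g : ℕ → E} {A : E}
  {σ : E →ₗ[ℝ] E}

lemma a_VA : a ∈ VA S v pl pl' a a' := by
  unfold VA; rw [Finset.mem_union, mem_pF]; exact Or.inl (Or.inl rfl)
lemma p_VA {j : ℕ} (hj : j ∈ S) : pl j ∈ VA S v pl pl' a a' := by
  unfold VA; rw [Finset.mem_union, mem_pF]; exact Or.inl (Or.inr ⟨j, hj, rfl⟩)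
lemma a'_VA : a' ∈ VA S v pl pl' a a' := by
  unfold VA; rw [Finset.mem_union, mem_pF, mem_pF]; exact Or.inr (Or.inl rfl)
lemma p'_VA {j : ℕ} (hj : j ∈ S.erase v) : pl' j ∈ VA S v pl pl' a a' := by
  unfold VA; rw [Finset.mem_union, mem_pF, mem_pF]; exact Or.inr (Or.inr ⟨j, hj, rfl⟩)

/-! membership in `F1` -/
lemma a_F1 : a ∈ pF S pl a := mem_pF.2 (Or.inl rfl)
lemma p_F1 {j : ℕ} (hj : j ∈ S) : pl j ∈ pF S pl a := mem_pF.2 (Or.inr ⟨j, hj, rfl⟩)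
lemma a'_F1 (L : Lbl S v pl pl' a a' φ2 g A σ) : a' ∉ pF S pl a := by
  rw [mem_pF]
  rintro (h | ⟨j, hj, h⟩)
  · exact L.aa' h.symm
  · exact L.pa' j hj h
lemma p'_F1 (L : Lbl S v pl pl' a a' φ2 g A σ) {j : ℕ} (hj : j ∈ S.erase v) :
    pl' j ∉ pF S pl a := by
  rw [mem_pF]
  rintro (h | ⟨i, hi, h⟩)
  · exact L.p'a j hj h
  · exact L.pp' i hi j hj h

/-! membership in `F2` -/
lemma a_F2 (L : Lbl S v pl pl' a a' φ2 g A σ) : a ∉ pF (S.erase v) pl' a' := by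
  rw [mem_pF]
  rintro (h | ⟨j, hj, h⟩)
  · exact L.aa' h
  · exact L.p'a j hj h
lemma p_F2 (L : Lbl S v pl pl' a a' φ2 g A σ) {j : ℕ} (hj : j ∈ S) :
    pl j ∉ pF (S.erase v) pl' a' := by
  rw [mem_pF]
  rintro (h | ⟨i, hi, h⟩)
  · exact L.pa' j hj h
  · exact L.pp' j hj i hi h.symm

/-! membership in `F3` -/
lemma a_F3 (L : Lbl S v pl pl' a a' φ2 g A σ) : a ∉ F3 S v pl pl' := by
  unfold F3
  rw [Finset.mem_union, Finset.mem_image, Finset.mem_image]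
  rintro (⟨j, hj, h⟩ | ⟨j, hj, h⟩)
  · exact L.ap j hj h
  · exact L.p'a j hj h
lemma a'_F3 (L : Lbl S v pl pl' a a' φ2 g A σ) : a' ∉ F3 S v pl pl' := by
  unfold F3
  rw [Finset.mem_union, Finset.mem_image, Finset.mem_image]
  rintro (⟨j, hj, h⟩ | ⟨j, hj, h⟩)
  · exact L.pa' j hj h
  · exact L.ap' j hj h
lemma p_F3 {j : ℕ} (hj : j ∈ S) : pl j ∈ F3 S v pl pl' :=
  Finset.mem_union_left _ (Finset.mem_image_of_mem _ hj)
lemma p'_F3 {j : ℕ} (hj : j ∈ S.erase v) : pl' j ∈ F3 S v pl pl' :=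
  Finset.mem_union_right _ (Finset.mem_image_of_mem _ hj)

/-! membership in `F4` -/
lemma F4_eq (hn : Nb S v u w) : F4 S v pl pl' a' = {pl v, a', pl' u, pl' w} := by
  unfold F4
  rw [nbr_filter hn]
  ext x
  simp only [Finset.mem_union, Finset.mem_insert, Finset.mem_singleton, Finset.mem_image]
  constructor
  · rintro ((h | h) | ⟨k, hk | hk, h⟩)
    · exact Or.inl h
    · exact Or.inr (Or.inl h)
    · rw [← h, hk]; exact Or.inr (Or.inr (Or.inl rfl))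
    · rw [← h, hk]; exact Or.inr (Or.inr (Or.inr rfl))
  · rintro (h | h | h | h)
    · exact Or.inl (Or.inl h)
    · exact Or.inl (Or.inr h)
    · exact Or.inr ⟨u, Or.inl rfl, h.symm⟩
    · exact Or.inr ⟨w, Or.inr rfl, h.symm⟩

lemma uS (hn : Nb S v u w) : u ∈ S.erase v := Finset.mem_erase.2 ⟨hn.uv.2.2.1, hn.uv.1⟩
lemma wS (hn : Nb S v u w) : w ∈ S.erase v := Finset.mem_erase.2 ⟨hn.vw.2.2.1.symm, hn.vw.2.1⟩
lemma vS (hn : Nb S v u w) : v ∈ S := hn.uv.2.1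

lemma a_F4 (hn : Nb S v u w) (L : Lbl S v pl pl' a a' φ2 g A σ) : a ∉ F4 S v pl pl' a' := by
  rw [F4_eq hn]
  simp only [Finset.mem_insert, Finset.mem_singleton, not_or]
  exact ⟨fun h => L.ap v (vS hn) h.symm, L.aa', fun h => L.p'a u (uS hn) h.symm,
    fun h => L.p'a w (wS hn) h.symm⟩
lemma p_F4 (hn : Nb S v u w) (L : Lbl S v pl pl' a a' φ2 g A σ) {j : ℕ} (hj : j ∈ S) :
    pl j ∈ F4 S v pl pl' a' ↔ j = v := by
  rw [F4_eq hn]
  simp only [Finset.mem_insert, Finset.mem_singleton]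
  constructor
  · rintro (h | h | h | h)
    · exact L.injp j hj v (vS hn) h
    · exact absurd h (L.pa' j hj)
    · exact absurd h (L.pp' j hj u (uS hn))
    · exact absurd h (L.pp' j hj w (wS hn))
  · rintro rfl; exact Or.inl rfl
lemma a'_F4 (hn : Nb S v u w) : a' ∈ F4 S v pl pl' a' := by
  rw [F4_eq hn]
  simp
lemma p'_F4 (hn : Nb S v u w) (L : Lbl S v pl pl' a a' φ2 g A σ) {j : ℕ} (hj : j ∈ S.erase v) :
    pl' j ∈ F4 S v pl pl' a' ↔ j = u ∨ j = w := by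
  rw [F4_eq hn]
  simp only [Finset.mem_insert, Finset.mem_singleton]
  constructor
  · rintro (h | h | h | h)
    · exact absurd h.symm (L.pp' v (vS hn) j hj)
    · exact absurd h (L.ap' j hj)
    · exact Or.inl (L.injp' j hj u (uS hn) h)
    · exact Or.inr (L.injp' j hj w (wS hn) h)
  · rintro (rfl | rfl)
    · exact Or.inr (Or.inr (Or.inl rfl))
    · exact Or.inr (Or.inr (Or.inr rfl))

/-! membership in the prisms -/
lemma ed_mem {e : ℕ × ℕ} (he : e ∈ Ed S) : e.1 ∈ S ∧ e.2 ∈ S := (mem_Ed.1 he).1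

lemma mem_Fe {e : ℕ × ℕ} {x : ι} : x ∈ Fe v pl pl' a a' e ↔ x = a ∨ x = pl e.1 ∨ x = pl e.2 ∨
    x = a' ∨ (∃ k, (k = e.1 ∨ k = e.2) ∧ k ≠ v ∧ x = pl' k) := by
  unfold Fe
  simp only [Finset.mem_union, Finset.mem_insert, Finset.mem_singleton, Finset.mem_image,
    Finset.mem_erase]
  constructor
  · rintro ((h | h | h | h) | ⟨k, ⟨h1, h2⟩, h3⟩)
    · exact Or.inl h
    · exact Or.inr (Or.inl h)
    · exact Or.inr (Or.inr (Or.inl h))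
    · exact Or.inr (Or.inr (Or.inr (Or.inl h)))
    · exact Or.inr (Or.inr (Or.inr (Or.inr ⟨k, h2, h1, h3.symm⟩)))
  · rintro (h | h | h | h | ⟨k, h1, h2, h3⟩)
    · exact Or.inl (Or.inl h)
    · exact Or.inl (Or.inr (Or.inl h))
    · exact Or.inl (Or.inr (Or.inr (Or.inl h)))
    · exact Or.inl (Or.inr (Or.inr (Or.inr h)))
    · exact Or.inr ⟨k, ⟨h2, h1⟩, h3.symm⟩

lemma a_Fe {e : ℕ × ℕ} : a ∈ Fe v pl pl' a a' e := mem_Fe.2 (Or.inl rfl)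
lemma a'_Fe {e : ℕ × ℕ} : a' ∈ Fe v pl pl' a a' e := mem_Fe.2 (Or.inr (Or.inr (Or.inr
  (Or.inl rfl))))
lemma p_Fe (L : Lbl S v pl pl' a a' φ2 g A σ) {e : ℕ × ℕ} (he : e ∈ Ed S) {j : ℕ}
    (hj : j ∈ S) : pl j ∈ Fe v pl pl' a a' e ↔ j = e.1 ∨ j = e.2 := by
  rw [mem_Fe]
  have h0 := ed_mem he
  constructor
  · rintro (h | h | h | h | ⟨k, h1, h2, h3⟩)
    · exact absurd h (L.ap j hj)
    · exact Or.inl (L.injp j hj _ h0.1 h)
    · exact Or.inr (L.injp j hj _ h0.2 h)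
    · exact absurd h (L.pa' j hj)
    · refine absurd h3 (L.pp' j hj k (Finset.mem_erase.2 ⟨h2, ?_⟩))
      rcases h1 with h1 | h1
      · rw [h1]; exact h0.1
      · rw [h1]; exact h0.2
  · rintro (h | h)
    · rw [h]; exact Or.inr (Or.inl rfl)
    · rw [h]; exact Or.inr (Or.inr (Or.inl rfl))
lemma p'_Fe (L : Lbl S v pl pl' a a' φ2 g A σ) {e : ℕ × ℕ} (he : e ∈ Ed S) {j : ℕ}
    (hj : j ∈ S.erase v) : pl' j ∈ Fe v pl pl' a a' e ↔ j = e.1 ∨ j = e.2 := by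
  rw [mem_Fe]
  have h0 := ed_mem he
  constructor
  · rintro (h | h | h | h | ⟨k, h1, h2, h3⟩)
    · exact absurd h (L.p'a j hj)
    · exact absurd h.symm (L.pp' _ h0.1 j hj)
    · exact absurd h.symm (L.pp' _ h0.2 j hj)
    · exact absurd h (L.ap' j hj)
    · have hk : k ∈ S.erase v := by
        refine Finset.mem_erase.2 ⟨h2, ?_⟩
        rcases h1 with h1 | h1
        · rw [h1]; exact h0.1
        · rw [h1]; exact h0.2
      rw [L.injp' j hj k hk h3]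
      exact h1
  · intro h
    exact Or.inr (Or.inr (Or.inr (Or.inr ⟨j, h, (Finset.mem_erase.1 hj).1, rfl⟩)))

lemma Fe_inj (L : Lbl S v pl pl' a a' φ2 g A σ) {e e' : ℕ × ℕ} (he : e ∈ Ed S)
    (he' : e' ∈ Ed S) (h : Fe v pl pl' a a' e = Fe v pl pl' a a' e') : e = e' := by
  have h0 := ed_mem he
  have h1 := (mem_Ed.1 he).2.1
  have h2 := (mem_Ed.1 he').2.1
  have a1 : e.1 = e'.1 ∨ e.1 = e'.2 := by
    rw [← p_Fe L he' h0.1, ← h, p_Fe L he h0.1]; exact Or.inl rfl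
  have a2 : e.2 = e'.1 ∨ e.2 = e'.2 := by
    rw [← p_Fe L he' h0.2, ← h, p_Fe L he h0.2]; exact Or.inr rfl
  ext <;> omega

end Facets

/-! ### The normals -/

open Classical in
/-- The normals of the gadget. -/
noncomputable def NA {ι : Type} [DecidableEq ι] (S : Finset ℕ) (v : ℕ) (pl pl' : ℕ → ι)
    (a a' : ι) (e0 e3 e4 : E) (m : ℕ × ℕ → Du) (m' : Du) (gv : E) (kG kT : ℝ)
    (F : Finset ι) : Du :=
  if a ∈ F then
    (if a' ∈ F then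
      (if h : ∃ e ∈ Ed S, F = Fe v pl pl' a a' e then nM kT e3 e4 (m (Classical.choose h))
        else 0)
      else n1 e4)
  else
    (if a' ∈ F then (if pl v ∈ F then nL kG kT e0 e3 e4 m' gv else n2 kG kT e0 e3 e4)
      else n3 kG e3 e4)

section Normals
variable {ι : Type} [DecidableEq ι] {S : Finset ℕ} {v u w : ℕ} {pl pl' : ℕ → ι} {a a' : ι}
  {φ2 : ι → E} {g : ℕ → E} {A : E} {σ : E →ₗ[ℝ] E} {e0 e3 e4 : E} {m : ℕ × ℕ → Du} {m' : Du}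
  {gv : E} {kG kT : ℝ}

lemma NA1 (L : Lbl S v pl pl' a a' φ2 g A σ) :
    NA S v pl pl' a a' e0 e3 e4 m m' gv kG kT (pF S pl a) = n1 e4 := by
  unfold NA; rw [if_pos a_F1, if_neg (a'_F1 L)]
lemma NA2 (hn : Nb S v u w) (L : Lbl S v pl pl' a a' φ2 g A σ) :
    NA S v pl pl' a a' e0 e3 e4 m m' gv kG kT (pF (S.erase v) pl' a') =
      n2 kG kT e0 e3 e4 := by
  unfold NA; rw [if_neg (a_F2 L), if_pos a_F1, if_neg (p_F2 L (vS hn))]
lemma NA3 (L : Lbl S v pl pl' a a' φ2 g A σ) :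
    NA S v pl pl' a a' e0 e3 e4 m m' gv kG kT (F3 S v pl pl') = n3 kG e3 e4 := by
  unfold NA; rw [if_neg (a_F3 L), if_neg (a'_F3 L)]
lemma NA4 (hn : Nb S v u w) (L : Lbl S v pl pl' a a' φ2 g A σ) :
    NA S v pl pl' a a' e0 e3 e4 m m' gv kG kT (F4 S v pl pl' a') =
      nL kG kT e0 e3 e4 m' gv := by
  unfold NA; rw [if_neg (a_F4 hn L), if_pos (a'_F4 hn), if_pos ((p_F4 hn L (vS hn)).2 rfl)]
lemma NAe (L : Lbl S v pl pl' a a' φ2 g A σ) {e : ℕ × ℕ} (he : e ∈ Ed S) :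
    NA S v pl pl' a a' e0 e3 e4 m m' gv kG kT (Fe v pl pl' a a' e) = nM kT e3 e4 (m e) := by
  unfold NA
  have h : ∃ e' ∈ Ed S, Fe v pl pl' a a' e = Fe v pl pl' a a' e' := ⟨e, he, rfl⟩
  rw [if_pos a_Fe, if_pos a'_Fe, dif_pos h]
  have h2 := Classical.choose_spec h
  rw [← Fe_inj L he h2.1 h2.2]

end Normals

end GA
end Pool.Agent.Work.MP_5b14b0_lc
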