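import Pool.Agent.Work.MP_5b14b0_lc.GadA3

/-!
# MP_5b14b0_lc, deletion gadget, part 4: the realization
-/

set_option autoImplicit false

namespace Pool.Agent.Work.MP_5b14b0_lc
namespace GA

open Finset

section Re
variable {S : Finset ℕ} {v u w : ℕ} {g : ℕ → E} {A : E} {c : ℝ} {e0 e3 e4 : E}
    {ω : E → E → E → ℝ} {m : ℕ × ℕ → Du} {m' : Du} {kG kT : ℝ}

lemma third (hn : Nb S v u w) (i j : ℕ) : ∃ k ∈ S, k ≠ i ∧ k ≠ j := by
  by_cases h1 : u ≠ i ∧ u ≠ j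
  · exact ⟨u, hn.uv.1, h1⟩
  · by_cases h2 : v ≠ i ∧ v ≠ j
    · exact ⟨v, hn.uv.2.1, h2⟩
    · refine ⟨w, hn.vw.2.1, ?_⟩
      have := hn.ne
      have := hn.uv.2.2.1
      have := hn.vw.2.2.1
      omega

lemma ω_ne (d : Dat S v u w g A c e0 e3 e4 ω m m' kG kT) {i j k : ℕ} (hi : i ∈ S) (hj : j ∈ S)
    (hk : k ∈ S) (hij : i ≠ j) (hik : k ≠ i) (hjk : k ≠ j) : ω (g i) (g j) (g k) ≠ 0 := by
  have h : C3 i j k ∨ C3 j i k := by unfold C3; omega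
  rcases h with h | h
  · exact (c3_pos d.tri d.cyc hi hj hk h).ne'
  · rw [d.tri.swap]
    exact neg_ne_zero.2 (c3_pos d.tri d.cyc hj hi hk h).ne'

lemma g_inj (d : Dat S v u w g A c e0 e3 e4 ω m m' kG kT) {i j : ℕ} (hi : i ∈ S) (hj : j ∈ S)
    (hij : i ≠ j) (r : ℝ) : g j ≠ r • g i := by
  intro h
  obtain ⟨k, hk, hki, hkj⟩ := third d.nb i j
  have h1 := ω_ne d hi hj hk hij hki hkj
  apply h1
  rw [d.tri.swap, h, d.tri.smul, tri_self d.tri]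
  ring

lemma n_inj (n : Du) {x y : E} (hy : Light y)
    (h : (n x = 0 ∧ n y ≠ 0) ∨ (n x ≠ 0 ∧ n y = 0)) (r : ℝ) : y ≠ r • x := by
  intro he
  rcases h with ⟨h1, h2⟩ | ⟨h1, h2⟩
  · apply h2; rw [he, map_smul, h1]; simp
  · rw [he, map_smul, smul_eq_mul] at h2
    rcases mul_eq_zero.1 h2 with h3 | h3
    · rw [h3, zero_smul] at he
      exact light_ne hy he
    · exact h1 h3

lemma l_g (d : Dat S v u w g A c e0 e3 e4 ω m m' kG kT) {j : ℕ} (hj : j ∈ S) : Light (g j) :=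
  d.cyc.light j hj
lemma l_s (d : Dat S v u w g A c e0 e3 e4 ω m m' kG kT) {x : E} (hx : Light x) :
    Light (sY kG kT e0 e3 e4 x) := light_sg (DY d) hx

lemma span_top_s (d : Dat S v u w g A c e0 e3 e4 ω m m' kG kT)
    {i j k : ℕ} (hi : i ∈ S) (hj : j ∈ S)
    (hk : k ∈ S) (hij : i ≠ j) (hik : k ≠ i) (hjk : k ≠ j) {W : Submodule ℝ E}
    (h1 : sY kG kT e0 e3 e4 (g i) ∈ W) (h2 : sY kG kT e0 e3 e4 (g j) ∈ W)
    (h3 : sY kG kT e0 e3 e4 (g k) ∈ W) (hA : sY kG kT e0 e3 e4 A ∈ W) {t : E} (ht : t ∈ W)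
    (ht4 : n2 kG kT e0 e3 e4 t ≠ 0) : W = ⊤ := by
  have h := span_top d.frame d.tri (d.cyc.inpl i hi) (d.cyc.inpl j hj) (d.cyc.inpl k hk)
    (ω_ne d hi hj hk hij hik hjk) (W := W.comap (sY kG kT e0 e3 e4)) (A := A)
    (t := sY kG kT e0 e3 e4 t) h1 h2 h3 hA (by rw [A_e3 d]; exact d.c0.ne') (A_e4 d)
    (by rw [Submodule.mem_comap, sY_sY d]; exact ht) ht4
  rw [Submodule.eq_top_iff']
  intro x
  have h5 : sY kG kT e0 e3 e4 x ∈ W.comap (sY kG kT e0 e3 e4) := by rw [h]; trivial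
  rw [Submodule.mem_comap, sY_sY d] at h5
  exact h5

lemma span_top_g (d : Dat S v u w g A c e0 e3 e4 ω m m' kG kT)
    {i j k : ℕ} (hi : i ∈ S) (hj : j ∈ S)
    (hk : k ∈ S) (hij : i ≠ j) (hik : k ≠ i) (hjk : k ≠ j) {W : Submodule ℝ E}
    (h1 : g i ∈ W) (h2 : g j ∈ W) (h3 : g k ∈ W) (hA : A ∈ W) {t : E} (ht : t ∈ W)
    (ht4 : n1 e4 t ≠ 0) : W = ⊤ :=
  span_top d.frame d.tri (d.cyc.inpl i hi) (d.cyc.inpl j hj) (d.cyc.inpl k hk)
    (ω_ne d hi hj hk hij hik hjk) h1 h2 h3 hA (by rw [A_e3 d]; exact d.c0.ne') (A_e4 d) ht ht4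

variable {ι : Type} [DecidableEq ι] {pl pl' : ℕ → ι} {a a' : ι} {φ2 : ι → E}

/-- The signs and zeros of the normals. -/
lemma signs (d : Dat S v u w g A c e0 e3 e4 ω m m' kG kT)
    (L : Lbl S v pl pl' a a' φ2 g A (sY kG kT e0 e3 e4)) {F : Finset ι}
    (hF : F ∈ FA S v pl pl' a a') {x : ι} (hx : x ∈ VA S v pl pl' a a') :
    0 ≤ NA S v pl pl' a a' e0 e3 e4 m m' (g v) kG kT F (φ2 x) ∧
    (NA S v pl pl' a a' e0 e3 e4 m m' (g v) kG kT F (φ2 x) = 0 ↔ x ∈ F) := by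
  have yes : ∀ {r : ℝ} {p : Prop}, r = 0 → p → (0 ≤ r ∧ (r = 0 ↔ p)) := fun h1 h2 =>
    ⟨h1.ge, fun _ => h2, fun _ => h1⟩
  have no : ∀ {r : ℝ} {p : Prop}, 0 < r → ¬ p → (0 ≤ r ∧ (r = 0 ↔ p)) := fun h1 h2 =>
    ⟨h1.le, fun h => absurd h h1.ne', fun h => absurd h h2⟩
  have hSm : ∀ {j : ℕ}, j ∈ S.erase v → j ∈ S := fun h => Finset.mem_of_mem_erase h
  rcases FA_cases.1 hF with rfl | rfl | rfl | rfl | ⟨e, he, rfl⟩
  · rw [NA1 L]
    rcases VA_cases hx with rfl | ⟨j, hj, rfl⟩ | rfl | ⟨j, hj, rfl⟩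
    · rw [L.fa]; exact yes (n1_A d) a_F1
    · rw [L.fp j hj]; exact yes (n1_g d hj) (p_F1 hj)
    · rw [L.fa']; exact no (n1_sA d) (a'_F1 L)
    · rw [L.fp' j hj]; exact no (n1_sg d (hSm hj)) (p'_F1 L hj)
  · rw [NA2 d.nb L]
    rcases VA_cases hx with rfl | ⟨j, hj, rfl⟩ | rfl | ⟨j, hj, rfl⟩
    · rw [L.fa, n2_eq]; exact no (n1_sA d) (a_F2 L)
    · rw [L.fp j hj, n2_eq]; exact no (n1_sg d hj) (p_F2 L hj)
    · rw [L.fa', n2_s d]; exact yes (n1_A d) a_F1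
    · rw [L.fp' j hj, n2_s d]; exact yes (n1_g d (hSm hj)) (p_F1 hj)
  · rw [NA3 L]
    rcases VA_cases hx with rfl | ⟨j, hj, rfl⟩ | rfl | ⟨j, hj, rfl⟩
    · rw [L.fa, n3_A d]; exact no d.c0 (a_F3 L)
    · rw [L.fp j hj]; exact yes (n3_g d hj) (p_F3 hj)
    · rw [L.fa', n3_sY d.frame, n3_A d]; exact no d.c0 (a'_F3 L)
    · rw [L.fp' j hj, n3_sY d.frame]; exact yes (n3_g d (hSm hj)) (p'_F3 hj)
  · rw [NA4 d.nb L]
    rcases VA_cases hx with rfl | ⟨j, hj, rfl⟩ | rfl | ⟨j, hj, rfl⟩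
    · rw [L.fa]; exact no (nL_A d) (a_F4 d.nb L)
    · rw [L.fp j hj]
      by_cases hjv : j = v
      · rw [hjv]; exact yes (nL_gv d) ((p_F4 d.nb L (vS d.nb)).2 rfl)
      · exact no (nL_g d hj hjv) (fun h => hjv ((p_F4 d.nb L hj).1 h))
    · rw [L.fa']; exact yes (nL_sA d) (a'_F4 d.nb)
    · rw [L.fp' j hj, nL_sg d (hSm hj), p'_F4 d.nb L hj]
      exact m'_nonneg d (hSm hj) (Finset.mem_erase.1 hj).1
  · rw [NAe L he]
    rcases VA_cases hx with rfl | ⟨j, hj, rfl⟩ | rfl | ⟨j, hj, rfl⟩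
    · rw [L.fa]; exact yes (nM_A d (d.edge e he).1) a_Fe
    · rw [L.fp j hj, nM_g d hj, p_Fe L he hj]; exact m_nonneg d he hj
    · rw [L.fa', nM_sY d.frame (d.edge e he).1]; exact yes (nM_A d (d.edge e he).1) a'_Fe
    · rw [L.fp' j hj, nM_sY d.frame (d.edge e he).1, nM_g d (hSm hj), p'_Fe L he hj]
      exact m_nonneg d he (hSm hj)

lemma F1_mem : pF S pl a ∈ FA S v pl pl' a a' := FA_cases.2 (Or.inl rfl)
lemma F2_mem : pF (S.erase v) pl' a' ∈ FA S v pl pl' a a' := FA_cases.2 (Or.inr (Or.inl rfl))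
lemma F3_mem : F3 S v pl pl' ∈ FA S v pl pl' a a' :=
  FA_cases.2 (Or.inr (Or.inr (Or.inl rfl)))
lemma F4_mem : F4 S v pl pl' a' ∈ FA S v pl pl' a a' :=
  FA_cases.2 (Or.inr (Or.inr (Or.inr (Or.inl rfl))))
lemma Fe_mem {e : ℕ × ℕ} (he : e ∈ Ed S) : Fe v pl pl' a a' e ∈ FA S v pl pl' a a' :=
  FA_cases.2 (Or.inr (Or.inr (Or.inr (Or.inr ⟨e, he, rfl⟩))))

lemma F_sub {F : Finset ι} (hF : F ∈ FA S v pl pl' a a') (hn : Nb S v u w) :
    F ⊆ VA S v pl pl' a a' := by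
  intro x hx
  rcases FA_cases.1 hF with rfl | rfl | rfl | rfl | ⟨e, he, rfl⟩
  · rw [mem_pF] at hx
    rcases hx with rfl | ⟨j, hj, rfl⟩
    · exact a_VA
    · exact p_VA hj
  · rw [mem_pF] at hx
    rcases hx with rfl | ⟨j, hj, rfl⟩
    · exact a'_VA
    · exact p'_VA hj
  · unfold F3 at hx
    rw [Finset.mem_union, Finset.mem_image, Finset.mem_image] at hx
    rcases hx with ⟨j, hj, rfl⟩ | ⟨j, hj, rfl⟩
    · exact p_VA hj
    · exact p'_VA hj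
  · rw [F4_eq hn] at hx
    simp only [Finset.mem_insert, Finset.mem_singleton] at hx
    rcases hx with rfl | rfl | rfl | rfl
    · exact p_VA (vS hn)
    · exact a'_VA
    · exact p'_VA (uS hn)
    · exact p'_VA (wS hn)
  · have h0 := ed_mem he
    rw [mem_Fe] at hx
    rcases hx with rfl | rfl | rfl | rfl | ⟨k, h1, h2, rfl⟩
    · exact a_VA
    · exact p_VA h0.1
    · exact p_VA h0.2
    · exact a'_VA
    · refine p'_VA (Finset.mem_erase.2 ⟨h2, ?_⟩)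
      rcases h1 with h1 | h1
      · rw [h1]; exact h0.1
      · rw [h1]; exact h0.2

lemma real_A (d : Dat S v u w g A c e0 e3 e4 ω m m' kG kT)
    (L : Lbl S v pl pl' a a' φ2 g A (sY kG kT e0 e3 e4)) :
    Real (VA S v pl pl' a a') (FA S v pl pl' a a') φ2
      (NA S v pl pl' a a' e0 e3 e4 m m' (g v) kG kT) := by
  have hSm : ∀ {j : ℕ}, j ∈ S.erase v → j ∈ S := fun h => Finset.mem_of_mem_erase h
  obtain ⟨nuv, nvw, nuw⟩ := uv_ne d
  have hu := uS d.nb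
  have hw := wS d.nb
  have hv := vS d.nb
  have hmem : ∀ {F : Set ι} {x : ι} (y : E), x ∈ F →
      φ2 x ∈ Submodule.span ℝ (insert y (φ2 '' F)) := fun y hx =>
    Submodule.subset_span (Set.mem_insert_of_mem _ ⟨_, hx, rfl⟩)
  have hins : ∀ {F : Set ι} (y : E), y ∈ Submodule.span ℝ (insert y (φ2 '' F)) := fun y =>
    Submodule.subset_span (Set.mem_insert _ _)
  have hlight : ∀ x ∈ VA S v pl pl' a a', Light (φ2 x) := by
    intro x hx
    rcases VA_cases hx with rfl | ⟨j, hj, rfl⟩ | rfl | ⟨j, hj, rfl⟩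
    · rw [L.fa]; exact d.lA
    · rw [L.fp j hj]; exact l_g d hj
    · rw [L.fa']; exact l_s d d.lA
    · rw [L.fp' j hj]; exact l_s d (l_g d (hSm hj))
  refine ⟨hlight, fun F hF => F_sub hF d.nb, fun F hF x hx => (signs d L hF hx).1,
    fun F hF x hx => (signs d L hF hx).2, ?_, ?_, ?_, ?_, ?_⟩
  · -- proper
    intro F hF
    rcases FA_cases.1 hF with rfl | rfl | rfl | rfl | ⟨e, he, rfl⟩
    · exact ⟨a', a'_VA, a'_F1 L⟩
    · exact ⟨a, a_VA, a_F2 L⟩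
    · exact ⟨a, a_VA, a_F3 L⟩
    · exact ⟨a, a_VA, a_F4 d.nb L⟩
    · obtain ⟨k, hk, hk1, hk2⟩ := third d.nb e.1 e.2
      refine ⟨pl k, p_VA hk, fun h => ?_⟩
      rw [p_Fe L he hk] at h
      rcases h with h | h
      · exact hk1 h
      · exact hk2 h
  · -- rank
    intro F hF
    have hz : ∀ x ∈ φ2 '' (F : Set ι),
        NA S v pl pl' a a' e0 e3 e4 m m' (g v) kG kT F x = 0 := by
      rintro x ⟨y, hy, rfl⟩
      exact (signs d L hF (F_sub hF d.nb hy)).2.2 hy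
    rcases FA_cases.1 hF with rfl | rfl | rfl | rfl | ⟨e, he, rfl⟩
    · refine rank_four _ hz (y := sY kG kT e0 e3 e4 A) (by rw [NA1 L]; exact (n1_sA d).ne') ?_
      refine span_top_g d hv (hSm hu) (hSm hw) nuv.symm nvw.symm nuw.symm ?_ ?_ ?_ ?_
        (hins _) (n1_sA d).ne'
      · rw [← L.fp v hv]; exact hmem _ (p_F1 hv)
      · rw [← L.fp u (hSm hu)]; exact hmem _ (p_F1 (hSm hu))
      · rw [← L.fp w (hSm hw)]; exact hmem _ (p_F1 (hSm hw))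
      · rw [← L.fa]; exact hmem _ a_F1
    · obtain ⟨k, hk, hku, hkv, hkw⟩ := d.nb.ex
      have hk' : k ∈ S.erase v := Finset.mem_erase.2 ⟨hkv, hk⟩
      have hA2 : n2 kG kT e0 e3 e4 A ≠ 0 := by rw [n2_eq]; exact (n1_sA d).ne'
      refine rank_four _ hz (y := A) (by rw [NA2 d.nb L]; exact hA2) ?_
      refine span_top_s d hk (hSm hu) (hSm hw) hku hkw.symm nuw.symm ?_ ?_ ?_ ?_
        (hins _) hA2
      · rw [← L.fp' k hk']; exact hmem _ (p_F1 hk')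
      · rw [← L.fp' u hu]; exact hmem _ (p_F1 hu)
      · rw [← L.fp' w hw]; exact hmem _ (p_F1 hw)
      · rw [← L.fa']; exact hmem _ a_F1
    · refine rank_four _ hz (y := A) (by rw [NA3 L, n3_A d]; exact d.c0.ne') ?_
      refine span_top_g d hv (hSm hu) (hSm hw) nuv.symm nvw.symm nuw.symm ?_ ?_ ?_ (hins _)
        (t := sY kG kT e0 e3 e4 (g u)) ?_ (n1_sg d (hSm hu)).ne'
      · rw [← L.fp v hv]; exact hmem _ (p_F3 hv)
      · rw [← L.fp u (hSm hu)]; exact hmem _ (p_F3 (hSm hu))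
      · rw [← L.fp w (hSm hw)]; exact hmem _ (p_F3 (hSm hw))
      · rw [← L.fp' u hu]; exact hmem _ (p'_F3 hu)
    · refine rank_four _ hz (y := sY kG kT e0 e3 e4 (g v))
        (by rw [NA4 d.nb L, nL_sg d hv]; exact (mv_neg d).ne) ?_
      refine span_top_s d hv (hSm hu) (hSm hw) nuv.symm nvw.symm nuw.symm (hins _) ?_ ?_ ?_
        (t := g v) ?_ (by rw [n2_eq]; exact (n1_sg d hv).ne')
      · rw [← L.fp' u hu]; exact hmem _ ((p'_F4 d.nb L hu).2 (Or.inl rfl))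
      · rw [← L.fp' w hw]; exact hmem _ ((p'_F4 d.nb L hw).2 (Or.inr rfl))
      · rw [← L.fa']; exact hmem _ (a'_F4 d.nb)
      · rw [← L.fp v hv]; exact hmem _ ((p_F4 d.nb L hv).2 rfl)
    · obtain ⟨k, hk, hk1, hk2⟩ := third d.nb e.1 e.2
      have h0 := ed_mem he
      have hne : e.1 ≠ e.2 := ((mem_Ed.1 he).2.1).ne
      refine rank_four _ hz (y := g k) ?_ ?_
      · rw [NAe L he, nM_g d hk]
        intro h
        rcases (m_nonneg d he hk).2.1 h with h | h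
        · exact hk1 h
        · exact hk2 h
      · refine span_top_g d h0.1 h0.2 hk hne hk1 hk2 ?_ ?_ (hins _) ?_
          (t := sY kG kT e0 e3 e4 A) ?_ (n1_sA d).ne'
        · rw [← L.fp _ h0.1]; exact hmem _ ((p_Fe L he h0.1).2 (Or.inl rfl))
        · rw [← L.fp _ h0.2]; exact hmem _ ((p_Fe L he h0.2).2 (Or.inr rfl))
        · rw [← L.fa]; exact hmem _ a_Fe
        · rw [← L.fa']; exact hmem _ a'_Fe
  · -- full
    have hm2 : ∀ {x : ι}, x ∈ VA S v pl pl' a a' →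
        φ2 x ∈ Submodule.span ℝ (φ2 '' (VA S v pl pl' a a' : Set ι)) := fun hx =>
      Submodule.subset_span ⟨_, hx, rfl⟩
    refine span_top_g d hv (hSm hu) (hSm hw) nuv.symm nvw.symm nuw.symm ?_ ?_ ?_ ?_
      (t := sY kG kT e0 e3 e4 A) ?_ (n1_sA d).ne'
    · rw [← L.fp v hv]; exact hm2 (p_VA hv)
    · rw [← L.fp u (hSm hu)]; exact hm2 (p_VA (hSm hu))
    · rw [← L.fp w (hSm hw)]; exact hm2 (p_VA (hSm hw))
    · rw [← L.fa]; exact hm2 a_VA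
    · rw [← L.fa']; exact hm2 a'_VA
  · -- injectivity
    intro x hx y hy hxy
    have hly := hlight y hy
    rcases VA_cases hx with rfl | ⟨i, hi, rfl⟩ | rfl | ⟨i, hi, rfl⟩ <;>
    rcases VA_cases hy with rfl | ⟨j, hj, rfl⟩ | rfl | ⟨j, hj, rfl⟩
    · exact absurd rfl hxy
    · refine n_inj (n3 kG e3 e4) hly (Or.inr ?_)
      rw [L.fa, L.fp j hj]; exact ⟨by rw [n3_A d]; exact d.c0.ne', n3_g d hj⟩
    · refine n_inj (n1 e4) hly (Or.inl ?_)
      rw [L.fa, L.fa']; exact ⟨n1_A d, (n1_sA d).ne'⟩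
    · refine n_inj (n1 e4) hly (Or.inl ?_)
      rw [L.fa, L.fp' j hj]; exact ⟨n1_A d, (n1_sg d (hSm hj)).ne'⟩
    · refine n_inj (n3 kG e3 e4) hly (Or.inl ?_)
      rw [L.fa, L.fp i hi]; exact ⟨n3_g d hi, by rw [n3_A d]; exact d.c0.ne'⟩
    · rw [L.fp i hi, L.fp j hj]
      exact g_inj d hi hj (fun h => hxy (by rw [h]))
    · refine n_inj (n1 e4) hly (Or.inl ?_)
      rw [L.fp i hi, L.fa']; exact ⟨n1_g d hi, (n1_sA d).ne'⟩
    · refine n_inj (n1 e4) hly (Or.inl ?_)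
      rw [L.fp i hi, L.fp' j hj]; exact ⟨n1_g d hi, (n1_sg d (hSm hj)).ne'⟩
    · refine n_inj (n1 e4) hly (Or.inr ?_)
      rw [L.fa, L.fa']; exact ⟨(n1_sA d).ne', n1_A d⟩
    · refine n_inj (n1 e4) hly (Or.inr ?_)
      rw [L.fp j hj, L.fa']; exact ⟨(n1_sA d).ne', n1_g d hj⟩
    · exact absurd rfl hxy
    · refine n_inj (n3 kG e3 e4) hly (Or.inr ?_)
      rw [L.fa', L.fp' j hj, n3_sY d.frame, n3_sY d.frame]
      exact ⟨by rw [n3_A d]; exact d.c0.ne', n3_g d (hSm hj)⟩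
    · refine n_inj (n1 e4) hly (Or.inr ?_)
      rw [L.fa, L.fp' i hi]; exact ⟨(n1_sg d (hSm hi)).ne', n1_A d⟩
    · refine n_inj (n1 e4) hly (Or.inr ?_)
      rw [L.fp j hj, L.fp' i hi]; exact ⟨(n1_sg d (hSm hi)).ne', n1_g d hj⟩
    · refine n_inj (n3 kG e3 e4) hly (Or.inl ?_)
      rw [L.fa', L.fp' i hi, n3_sY d.frame, n3_sY d.frame]
      exact ⟨n3_g d (hSm hi), by rw [n3_A d]; exact d.c0.ne'⟩
    · rw [L.fp' i hi, L.fp' j hj]
      intro r h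
      refine g_inj d (hSm hi) (hSm hj) (fun h => hxy (by rw [h])) r ?_
      have := congrArg (sY kG kT e0 e3 e4) h
      rwa [map_smul, sY_sY d, sY_sY d] at this
  · -- the cone
    intro x hx
    have hE : ∀ p ∈ Ed S, 0 ≤ nM kT e3 e4 (m p) x := fun p hp => by
      have := hx _ (Fe_mem hp); rwa [NAe L hp] at this
    have hcn : ∀ F ∈ FA S v pl pl' a a', ∀ y, InCone φ2 (VA S v pl pl' a a') y →
        0 ≤ NA S v pl pl' a a' e0 e3 e4 m m' (g v) kG kT F y := by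
      rintro F hF y ⟨b, hb, rfl⟩
      rw [map_sum]
      refine Finset.sum_nonneg fun i hi => ?_
      rw [map_smul, smul_eq_mul]
      exact mul_nonneg (hb i) (signs d L hF hi).1
    refine cut d (K := InCone φ2 (VA S v pl pl' a a')) cone_zero (fun _ _ => cone_add)
      (fun _ _ => cone_smul) ?_ ?_ ?_ ?_ ?_ ?_ ?_ ?_ hE ?_
    · intro j hj; rw [← L.fp j hj]; exact cone_single (p_VA hj)
    · rw [← L.fa]; exact cone_single a_VA
    · rw [← L.fa']; exact cone_single a'_VA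
    · intro j hj hjv
      have hj' : j ∈ S.erase v := Finset.mem_erase.2 ⟨hjv, hj⟩
      rw [← L.fp' j hj']; exact cone_single (p'_VA hj')
    · intro y hy
      refine ⟨?_, ?_, ?_, ?_⟩
      · have := hcn _ F2_mem y hy; rwa [NA2 d.nb L] at this
      · have := hcn _ F3_mem y hy; rwa [NA3 L] at this
      · have := hcn _ (Fe_mem (nx_ed d.nb.vw)) y hy; rwa [NAe L (nx_ed d.nb.vw)] at this
      · have := hcn _ (Fe_mem (nx_ed d.nb.uv)) y hy; rwa [NAe L (nx_ed d.nb.uv)] at this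
    · have := hx _ F1_mem; rwa [NA1 L] at this
    · have := hx _ F2_mem; rwa [NA2 d.nb L] at this
    · have := hx _ F3_mem; rwa [NA3 L] at this
    · have := hx _ F4_mem; rwa [NA4 d.nb L] at this

end Re

end GA
end Pool.Agent.Work.MP_5b14b0_lc
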