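import Pool.Agent.Work.MP_5b14b0_lc.GadKTab

/-!
# The branching gadget: the realization
-/

set_option autoImplicit false

namespace Pool.Agent.Work.MP_5b14b0_lc

open Finset

namespace GK

section

variable {ι : Type} [DecidableEq ι] {S : Finset ℕ} {pl pl' : ℕ → ι} {a a' b : ι} {φ2 : ι → E}
  {X3 X4 : Du} {sg : E →ₗ[ℝ] E} {m : ℕ × ℕ → Du} {kG kT Nn c0 : ℝ}

theorem mem_a (L : Labs S pl pl' a a' b) : a ∈ pF S pl a ∧ a ∉ pF S pl' a' ∧ a ∉ pF S pl b ∧
    a ∉ pF S pl' b ∧ (∀ e ∈ Ed S, a ∈ prS pl pl' a a' e) ∧ ∀ e ∈ Ed S, a ∉ kqS pl pl' b e := by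
  refine ⟨by simp [pF], ?_, ?_, ?_, fun e _ => by simp [prS], ?_⟩
  · rw [mem_pF']
    rintro (h | ⟨j, hj, h⟩)
    · exact L.l6 h
    · exact L.l5 j hj h
  · rw [mem_pF']
    rintro (h | ⟨j, hj, h⟩)
    · exact L.l7 h
    · exact L.l1 j hj h
  · rw [mem_pF']
    rintro (h | ⟨j, hj, h⟩)
    · exact L.l7 h
    · exact L.l5 j hj h
  · intro e he
    obtain ⟨h1, h2, -⟩ := ed_mem he
    simp only [kqS, mem_insert, mem_singleton]
    rintro (h | h | h | h | h)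
    · exact L.l7 h
    · exact L.l1 _ h1 h.symm
    · exact L.l1 _ h2 h.symm
    · exact L.l5 _ h1 h.symm
    · exact L.l5 _ h2 h.symm

theorem mem_a' (L : Labs S pl pl' a a' b) : a' ∉ pF S pl a ∧ a' ∈ pF S pl' a' ∧
    a' ∉ pF S pl b ∧ a' ∉ pF S pl' b ∧ (∀ e ∈ Ed S, a' ∈ prS pl pl' a a' e) ∧
    ∀ e ∈ Ed S, a' ∉ kqS pl pl' b e := by
  refine ⟨?_, by simp [pF], ?_, ?_, fun e _ => by simp [prS], ?_⟩
  · rw [mem_pF']
    rintro (h | ⟨j, hj, h⟩)
    · exact L.l6 h.symm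
    · exact L.l4 j hj h
  · rw [mem_pF']
    rintro (h | ⟨j, hj, h⟩)
    · exact L.l8 h
    · exact L.l4 j hj h
  · rw [mem_pF']
    rintro (h | ⟨j, hj, h⟩)
    · exact L.l8 h
    · exact L.l2 j hj h
  · intro e he
    obtain ⟨h1, h2, -⟩ := ed_mem he
    simp only [kqS, mem_insert, mem_singleton]
    rintro (h | h | h | h | h)
    · exact L.l8 h
    · exact L.l4 _ h1 h.symm
    · exact L.l4 _ h2 h.symm
    · exact L.l2 _ h1 h.symm
    · exact L.l2 _ h2 h.symm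

theorem mem_b (L : Labs S pl pl' a a' b) : b ∉ pF S pl a ∧ b ∉ pF S pl' a' ∧
    b ∈ pF S pl b ∧ b ∈ pF S pl' b ∧ (∀ e ∈ Ed S, b ∉ prS pl pl' a a' e) ∧
    ∀ e ∈ Ed S, b ∈ kqS pl pl' b e := by
  refine ⟨?_, ?_, by simp [pF], by simp [pF], ?_, fun e _ => by simp [kqS]⟩
  · rw [mem_pF']
    rintro (h | ⟨j, hj, h⟩)
    · exact L.l7 h.symm
    · exact L.l9 j hj h
  · rw [mem_pF']
    rintro (h | ⟨j, hj, h⟩)
    · exact L.l8 h.symm
    · exact L.l10 j hj h
  · intro e he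
    obtain ⟨h1, h2, -⟩ := ed_mem he
    simp only [prS, mem_insert, mem_singleton]
    rintro (h | h | h | h | h | h)
    · exact L.l7 h.symm
    · exact L.l9 _ h1 h.symm
    · exact L.l9 _ h2 h.symm
    · exact L.l8 h.symm
    · exact L.l10 _ h1 h.symm
    · exact L.l10 _ h2 h.symm

theorem mem_pl (L : Labs S pl pl' a a' b) {i : ℕ} (hi : i ∈ S) : pl i ∈ pF S pl a ∧
    pl i ∉ pF S pl' a' ∧ pl i ∈ pF S pl b ∧ pl i ∉ pF S pl' b ∧
    (∀ e ∈ Ed S, pl i ∈ prS pl pl' a a' e ↔ i = e.1 ∨ i = e.2) ∧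
    ∀ e ∈ Ed S, pl i ∈ kqS pl pl' b e ↔ i = e.1 ∨ i = e.2 := by
  refine ⟨mem_pF'.2 (Or.inr ⟨i, hi, rfl⟩), ?_, mem_pF'.2 (Or.inr ⟨i, hi, rfl⟩), ?_, ?_, ?_⟩
  · rw [mem_pF']
    rintro (h | ⟨j, hj, h⟩)
    · exact L.l4 i hi h
    · exact L.l3 i hi j hj h.symm
  · rw [mem_pF']
    rintro (h | ⟨j, hj, h⟩)
    · exact L.l9 i hi h
    · exact L.l3 i hi j hj h.symm
  · intro e he
    obtain ⟨h1, h2, -⟩ := ed_mem he
    simp only [prS, mem_insert, mem_singleton]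
    constructor
    · rintro (h | h | h | h | h | h)
      · exact absurd h (L.l1 i hi)
      · exact Or.inl (L.hinj i hi _ h1 h)
      · exact Or.inr (L.hinj i hi _ h2 h)
      · exact absurd h (L.l4 i hi)
      · exact absurd h (L.l3 i hi _ h1)
      · exact absurd h (L.l3 i hi _ h2)
    · rintro (h | h)
      · rw [h]
        simp
      · rw [h]
        simp
  · intro e he
    obtain ⟨h1, h2, -⟩ := ed_mem he
    simp only [kqS, mem_insert, mem_singleton]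
    constructor
    · rintro (h | h | h | h | h)
      · exact absurd h (L.l9 i hi)
      · exact Or.inl (L.hinj i hi _ h1 h)
      · exact Or.inr (L.hinj i hi _ h2 h)
      · exact absurd h (L.l3 i hi _ h1)
      · exact absurd h (L.l3 i hi _ h2)
    · rintro (h | h)
      · rw [h]
        simp
      · rw [h]
        simp

theorem mem_pl' (L : Labs S pl pl' a a' b) {i : ℕ} (hi : i ∈ S) : pl' i ∉ pF S pl a ∧
    pl' i ∈ pF S pl' a' ∧ pl' i ∉ pF S pl b ∧ pl' i ∈ pF S pl' b ∧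
    (∀ e ∈ Ed S, pl' i ∈ prS pl pl' a a' e ↔ i = e.1 ∨ i = e.2) ∧
    ∀ e ∈ Ed S, pl' i ∈ kqS pl pl' b e ↔ i = e.1 ∨ i = e.2 := by
  refine ⟨?_, mem_pF'.2 (Or.inr ⟨i, hi, rfl⟩), ?_, mem_pF'.2 (Or.inr ⟨i, hi, rfl⟩), ?_, ?_⟩
  · rw [mem_pF']
    rintro (h | ⟨j, hj, h⟩)
    · exact L.l5 i hi h
    · exact L.l3 j hj i hi h
  · rw [mem_pF']
    rintro (h | ⟨j, hj, h⟩)
    · exact L.l10 i hi h
    · exact L.l3 j hj i hi h
  · intro e he
    obtain ⟨h1, h2, -⟩ := ed_mem he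
    simp only [prS, mem_insert, mem_singleton]
    constructor
    · rintro (h | h | h | h | h | h)
      · exact absurd h (L.l5 i hi)
      · exact absurd h.symm (L.l3 _ h1 i hi)
      · exact absurd h.symm (L.l3 _ h2 i hi)
      · exact absurd h (L.l2 i hi)
      · exact Or.inl (L.hinj' i hi _ h1 h)
      · exact Or.inr (L.hinj' i hi _ h2 h)
    · rintro (h | h)
      · rw [h]
        simp
      · rw [h]
        simp
  · intro e he
    obtain ⟨h1, h2, -⟩ := ed_mem he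
    simp only [kqS, mem_insert, mem_singleton]
    constructor
    · rintro (h | h | h | h | h)
      · exact absurd h (L.l10 i hi)
      · exact absurd h.symm (L.l3 _ h1 i hi)
      · exact absurd h.symm (L.l3 _ h2 i hi)
      · exact Or.inl (L.hinj' i hi _ h1 h)
      · exact Or.inr (L.hinj' i hi _ h2 h)
    · rintro (h | h)
      · rw [h]
        simp
      · rw [h]
        simp

theorem edge_eq {e e' : ℕ × ℕ} (he : e ∈ Ed S) (he' : e' ∈ Ed S)
    (h : ∀ i ∈ S, (i = e.1 ∨ i = e.2) ↔ (i = e'.1 ∨ i = e'.2)) : e = e' := by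
  obtain ⟨h1, h2, h3⟩ := ed_mem he
  obtain ⟨h1', h2', h3'⟩ := ed_mem he'
  have k1 := (h _ h1).1 (Or.inl rfl)
  have k2 := (h _ h2).1 (Or.inr rfl)
  apply Prod.ext <;> omega

theorem prS_inj (L : Labs S pl pl' a a' b) {e e' : ℕ × ℕ} (he : e ∈ Ed S) (he' : e' ∈ Ed S)
    (h : prS pl pl' a a' e = prS pl pl' a a' e') : e = e' := by
  apply edge_eq he he'
  intro i hi
  rw [← (mem_pl L hi).2.2.2.2.1 e he, ← (mem_pl L hi).2.2.2.2.1 e' he', h]

theorem kqS_inj (L : Labs S pl pl' a a' b) {e e' : ℕ × ℕ} (he : e ∈ Ed S) (he' : e' ∈ Ed S)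
    (h : kqS pl pl' b e = kqS pl pl' b e') : e = e' := by
  apply edge_eq he he'
  intro i hi
  rw [← (mem_pl L hi).2.2.2.2.2 e he, ← (mem_pl L hi).2.2.2.2.2 e' he', h]

theorem spec_unique (L : Labs S pl pl' a a' b) (hS : S.Nonempty) {F : Finset ι} {n n' : Du}
    (h : Spec S pl pl' a a' b φ2 X3 X4 sg m kG kT Nn F n)
    (h' : Spec S pl pl' a a' b φ2 X3 X4 sg m kG kT Nn F n') : n = n' := by
  obtain ⟨a1, a2, a3, a4, a5, a6⟩ := mem_a L
  obtain ⟨b1, b2, b3, b4, b5, b6⟩ := mem_a' L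
  obtain ⟨c1, c2, c3, c4, c5, c6⟩ := mem_b L
  obtain ⟨i, hi⟩ := hS
  rcases h with ⟨h, rfl⟩ | ⟨h, rfl⟩ | ⟨h, rfl⟩ | ⟨h, rfl⟩ | ⟨e, he, h, rfl⟩ | ⟨e, he, h, rfl⟩ <;>
    rcases h' with ⟨h', rfl⟩ | ⟨h', rfl⟩ | ⟨h', rfl⟩ | ⟨h', rfl⟩ | ⟨e', he', h', rfl⟩ |
      ⟨e', he', h', rfl⟩ <;> have h' := h.symm.trans h'
  -- 1
  · rfl
  · exact absurd (h' ▸ a1) a2
  · exact absurd (h' ▸ a1) a3
  · exact absurd (h' ▸ a1) a4
  · exact absurd (h' ▸ b5 e' he') b1
  · exact absurd (h' ▸ a1) (a6 e' he')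
  -- 2
  · exact absurd (h' ▸ a1) a2
  · rfl
  · exact absurd (h' ▸ b2) b3
  · exact absurd (h' ▸ b2) b4
  · exact absurd (h' ▸ a5 e' he') a2
  · exact absurd (h' ▸ b2) (b6 e' he')
  -- 3
  · exact absurd (h' ▸ a1) a3
  · exact absurd (h' ▸ b2) b3
  · rfl
  · exact absurd (h' ▸ (mem_pl L hi).2.2.1) (mem_pl L hi).2.2.2.1
  · exact absurd (h' ▸ a5 e' he') a3
  · obtain ⟨k1, -, -⟩ := ed_mem he'
    exact absurd (h' ▸ ((mem_pl' L k1).2.2.2.2.2 e' he').2 (Or.inl rfl)) (mem_pl' L k1).2.2.1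
  -- 4
  · exact absurd (h' ▸ a1) a4
  · exact absurd (h' ▸ b2) b4
  · exact absurd (h' ▸ (mem_pl L hi).2.2.1) (mem_pl L hi).2.2.2.1
  · rfl
  · exact absurd (h' ▸ a5 e' he') a4
  · obtain ⟨k1, -, -⟩ := ed_mem he'
    exact absurd (h' ▸ ((mem_pl L k1).2.2.2.2.2 e' he').2 (Or.inl rfl)) (mem_pl L k1).2.2.2.1
  -- 5
  · exact absurd (h' ▸ b5 e he) b1
  · exact absurd (h' ▸ a5 e he) a2
  · exact absurd (h' ▸ a5 e he) a3
  · exact absurd (h' ▸ a5 e he) a4
  · rw [prS_inj L he he' h']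
  · exact absurd (h' ▸ a5 e he) (a6 e' he')
  -- 6
  · exact absurd (h' ▸ c6 e he) c1
  · exact absurd (h' ▸ c6 e he) c2
  · obtain ⟨k1, -, -⟩ := ed_mem he
    exact absurd (h' ▸ ((mem_pl' L k1).2.2.2.2.2 e he).2 (Or.inl rfl)) (mem_pl' L k1).2.2.1
  · obtain ⟨k1, -, -⟩ := ed_mem he
    exact absurd (h' ▸ ((mem_pl L k1).2.2.2.2.2 e he).2 (Or.inl rfl)) (mem_pl L k1).2.2.2.1
  · exact absurd (h' ▸ c6 e he) (c5 e' he')
  · rw [kqS_inj L he he' h']

theorem mem_FK {F : Finset ι} : F ∈ FK S pl pl' a a' b ↔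
    F = pF S pl a ∨ F = pF S pl' a' ∨ F = pF S pl b ∨ F = pF S pl' b ∨
    (∃ e ∈ Ed S, F = prS pl pl' a a' e) ∨ ∃ e ∈ Ed S, F = kqS pl pl' b e := by
  simp only [FK, mem_union, mem_insert, mem_singleton, mem_image, prS, kqS]
  constructor
  · rintro (((h | h | h | h) | ⟨e, he, h⟩) | ⟨e, he, h⟩)
    · exact Or.inl h
    · exact Or.inr (Or.inl h)
    · exact Or.inr (Or.inr (Or.inl h))
    · exact Or.inr (Or.inr (Or.inr (Or.inl h)))
    · exact Or.inr (Or.inr (Or.inr (Or.inr (Or.inl ⟨e, he, h.symm⟩))))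
    · exact Or.inr (Or.inr (Or.inr (Or.inr (Or.inr ⟨e, he, h.symm⟩))))
  · rintro (h | h | h | h | ⟨e, he, h⟩ | ⟨e, he, h⟩)
    · exact Or.inl (Or.inl (Or.inl h))
    · exact Or.inl (Or.inl (Or.inr (Or.inl h)))
    · exact Or.inl (Or.inl (Or.inr (Or.inr (Or.inl h))))
    · exact Or.inl (Or.inl (Or.inr (Or.inr (Or.inr h))))
    · exact Or.inl (Or.inr ⟨e, he, h.symm⟩)
    · exact Or.inr ⟨e, he, h.symm⟩

theorem spec_exists {F : Finset ι} (h : F ∈ FK S pl pl' a a' b) :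
    ∃ n, Spec S pl pl' a a' b φ2 X3 X4 sg m kG kT Nn F n := by
  rw [mem_FK] at h
  rcases h with h | h | h | h | ⟨e, he, h⟩ | ⟨e, he, h⟩
  · exact ⟨_, Or.inl ⟨h, rfl⟩⟩
  · exact ⟨_, Or.inr (Or.inl ⟨h, rfl⟩)⟩
  · exact ⟨_, Or.inr (Or.inr (Or.inl ⟨h, rfl⟩))⟩
  · exact ⟨_, Or.inr (Or.inr (Or.inr (Or.inl ⟨h, rfl⟩)))⟩
  · exact ⟨_, Or.inr (Or.inr (Or.inr (Or.inr (Or.inl ⟨e, he, h, rfl⟩))))⟩
  · exact ⟨_, Or.inr (Or.inr (Or.inr (Or.inr (Or.inr ⟨e, he, h, rfl⟩))))⟩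

theorem FK_sub {F : Finset ι} (h : F ∈ FK S pl pl' a a' b) : F ⊆ VK S pl pl' a a' b := by
  rw [mem_FK] at h
  intro v hv
  rw [mem_V]
  rcases h with rfl | rfl | rfl | rfl | ⟨e, he, rfl⟩ | ⟨e, he, rfl⟩
  · rcases mem_pF'.1 hv with h | ⟨i, hi, h⟩
    · exact Or.inl h
    · exact Or.inr (Or.inl ⟨i, hi, h.symm⟩)
  · rcases mem_pF'.1 hv with h | ⟨i, hi, h⟩
    · exact Or.inr (Or.inr (Or.inl h))
    · exact Or.inr (Or.inr (Or.inr (Or.inl ⟨i, hi, h.symm⟩)))
  · rcases mem_pF'.1 hv with h | ⟨i, hi, h⟩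
    · exact Or.inr (Or.inr (Or.inr (Or.inr h)))
    · exact Or.inr (Or.inl ⟨i, hi, h.symm⟩)
  · rcases mem_pF'.1 hv with h | ⟨i, hi, h⟩
    · exact Or.inr (Or.inr (Or.inr (Or.inr h)))
    · exact Or.inr (Or.inr (Or.inr (Or.inl ⟨i, hi, h.symm⟩)))
  · obtain ⟨h1, h2, -⟩ := ed_mem he
    simp only [prS, mem_insert, mem_singleton] at hv
    rcases hv with h | h | h | h | h | h
    · exact Or.inl h
    · exact Or.inr (Or.inl ⟨_, h1, h⟩)
    · exact Or.inr (Or.inl ⟨_, h2, h⟩)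
    · exact Or.inr (Or.inr (Or.inl h))
    · exact Or.inr (Or.inr (Or.inr (Or.inl ⟨_, h1, h⟩)))
    · exact Or.inr (Or.inr (Or.inr (Or.inl ⟨_, h2, h⟩)))
  · obtain ⟨h1, h2, -⟩ := ed_mem he
    simp only [kqS, mem_insert, mem_singleton] at hv
    rcases hv with h | h | h | h | h
    · exact Or.inr (Or.inr (Or.inr (Or.inr h)))
    · exact Or.inr (Or.inl ⟨_, h1, h⟩)
    · exact Or.inr (Or.inl ⟨_, h2, h⟩)
    · exact Or.inr (Or.inr (Or.inr (Or.inl ⟨_, h1, h⟩)))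
    · exact Or.inr (Or.inr (Or.inr (Or.inl ⟨_, h2, h⟩)))

theorem nonprop {n : Du} {x y : E} (h : n x = 0) (h' : n y ≠ 0) (hx : x ≠ 0) :
    (∀ c : ℝ, y ≠ c • x) ∧ ∀ c : ℝ, x ≠ c • y := by
  constructor
  · intro c hc
    rw [hc, map_smul, h, smul_zero] at h'
    exact h' rfl
  · intro c hc
    have h1 := congrArg n hc
    rw [h, map_smul, smul_eq_mul] at h1
    rcases mul_eq_zero.1 h1.symm with h2 | h2
    · rw [h2, zero_smul] at hc
      exact hx hc
    · exact h' h2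

theorem light_ne {x : E} (h : Light x) : x ≠ 0 := by
  intro h0
  have := h.2
  rw [h0] at this
  simp at this

theorem third {i j : ℕ} (hS : 3 ≤ S.card) : ∃ k ∈ S, k ≠ i ∧ k ≠ j := by
  by_contra hcon
  push Not at hcon
  have hsub : S ⊆ {i, j} := by
    intro k hk
    by_cases h : k = i
    · simp [h]
    · simp [hcon k hk h]
  have h1 := Finset.card_le_card hsub
  have h2 : ({i, j} : Finset ℕ).card ≤ 2 := Finset.card_le_two
  omega

theorem real_of (L : Labs S pl pl' a a' b)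
    (D : Vals S pl pl' a a' b φ2 X3 X4 sg m kG kT Nn c0) (W : E → E → Du)
    (hW : ∀ i ∈ S, ∀ j ∈ S, ∀ k ∈ S, i ≠ j → j ≠ k → i ≠ k →
      W (φ2 (pl j)) (φ2 (pl k)) (φ2 (pl i)) ≠ 0)
    (hW0 : ∀ y z, W y z y = 0 ∧ W y z z = 0) (hS : 3 ≤ S.card)
    (hl : ∀ v ∈ VK S pl pl' a a' b, Light (φ2 v))
    (hcone : ∀ x, 0 ≤ X4 x → 0 ≤ X4 (sg x) → 0 ≤ X3 x → 0 ≤ nb' X3 X4 sg kG Nn x →
      (∀ e ∈ Ed S, 0 ≤ npr X3 X4 m kT e x) → (∀ e ∈ Ed S, 0 ≤ nkq X3 X4 m kG kT (φ2 b) e x) →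
      InCone φ2 (VK S pl pl' a a' b) x)
    (N2 : Finset ι → Du)
    (hN2 : ∀ F ∈ FK S pl pl' a a' b, Spec S pl pl' a a' b φ2 X3 X4 sg m kG kT Nn F (N2 F)) :
    Real (VK S pl pl' a a' b) (FK S pl pl' a a' b) φ2 N2 := by
  have hne : S.Nonempty := Finset.card_pos.1 (by omega)
  have hG := D.hG
  have hT := D.hT
  have hc := D.hc
  have hN := D.hN
  have Va : a ∈ VK S pl pl' a a' b := mem_V.2 (Or.inl rfl)
  have Va' : a' ∈ VK S pl pl' a a' b := mem_V.2 (Or.inr (Or.inr (Or.inl rfl)))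
  have Vb : b ∈ VK S pl pl' a a' b := mem_V.2 (Or.inr (Or.inr (Or.inr (Or.inr rfl))))
  have Vp : ∀ i ∈ S, pl i ∈ VK S pl pl' a a' b := fun i hi =>
    mem_V.2 (Or.inr (Or.inl ⟨i, hi, rfl⟩))
  have Vp' : ∀ i ∈ S, pl' i ∈ VK S pl pl' a a' b := fun i hi =>
    mem_V.2 (Or.inr (Or.inr (Or.inr (Or.inl ⟨i, hi, rfl⟩))))
  have F1 : pF S pl a ∈ FK S pl pl' a a' b := mem_FK.2 (Or.inl rfl)
  have F2 : pF S pl' a' ∈ FK S pl pl' a a' b := mem_FK.2 (Or.inr (Or.inl rfl))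
  have F3 : pF S pl b ∈ FK S pl pl' a a' b := mem_FK.2 (Or.inr (Or.inr (Or.inl rfl)))
  have F4 : pF S pl' b ∈ FK S pl pl' a a' b := mem_FK.2 (Or.inr (Or.inr (Or.inr (Or.inl rfl))))
  have tb := fun (F : Finset ι) (hF : F ∈ FK S pl pl' a a' b) (v : ι)
    (hv : v ∈ VK S pl pl' a a' b) => table L D (hN2 F hF) hv
  -- values at the second polygon
  have hval : ∀ j ∈ S, X4 (φ2 (pl' j)) = X4 (sg (φ2 (pl j))) := fun j hj => by rw [D.v' j hj]
  have hUs : ∀ j ∈ S, uf X3 X4 kG (φ2 (pl' j)) = 0 := by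
    intro j hj
    have := D.U (φ2 (pl j))
    rw [D.g3 j hj, D.g4 j hj] at this
    rw [D.v' j hj]
    simp only [uf, LinearMap.sub_apply, LinearMap.smul_apply, smul_eq_mul]
    linarith
  have hUg : ∀ j ∈ S, uf X3 X4 kG (φ2 (pl j)) = 0 := by
    intro j hj
    simp only [uf, LinearMap.sub_apply, LinearMap.smul_apply, smul_eq_mul, D.g3 j hj, D.g4 j hj]
    ring
  refine ⟨hl, fun F hF => FK_sub hF, fun F hF v hv => (tb F hF v hv).1,
    fun F hF v hv => (tb F hF v hv).2, ?_, ?_, ?_, ?_, ?_⟩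
  · -- proper
    intro F hF
    obtain ⟨a1, a2, a3, a4, a5, a6⟩ := mem_a L
    obtain ⟨c1, c2, c3, c4, c5, c6⟩ := mem_b L
    rcases mem_FK.1 hF with rfl | rfl | rfl | rfl | ⟨e, he, rfl⟩ | ⟨e, he, rfl⟩
    · exact ⟨b, Vb, c1⟩
    · exact ⟨b, Vb, c2⟩
    · exact ⟨a, Va, a3⟩
    · exact ⟨a, Va, a4⟩
    · exact ⟨b, Vb, c5 e he⟩
    · exact ⟨a, Va, a6 e he⟩
  · -- rank
    intro F hF
    have hz : ∀ v ∈ F, N2 F (φ2 v) = 0 := fun v hv => (tb F hF v (FK_sub hF hv)).2.2 hv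
    have hy : ∃ y, N2 F y ≠ 0 := by
      obtain ⟨a1, a2, a3, a4, a5, a6⟩ := mem_a L
      obtain ⟨c1, c2, c3, c4, c5, c6⟩ := mem_b L
      rcases mem_FK.1 hF with rfl | rfl | rfl | rfl | ⟨e, he, rfl⟩ | ⟨e, he, rfl⟩
      · exact ⟨φ2 b, fun h => c1 ((tb _ hF b Vb).2.1 h)⟩
      · exact ⟨φ2 b, fun h => c2 ((tb _ hF b Vb).2.1 h)⟩
      · exact ⟨φ2 a, fun h => a3 ((tb _ hF a Va).2.1 h)⟩
      · exact ⟨φ2 a, fun h => a4 ((tb _ hF a Va).2.1 h)⟩
      · exact ⟨φ2 b, fun h => c5 e he ((tb _ hF b Vb).2.1 h)⟩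
      · exact ⟨φ2 a, fun h => a6 e he ((tb _ hF a Va).2.1 h)⟩
    obtain ⟨y, hy⟩ := hy
    have key : ∀ (i j k : ℕ), i ∈ S → j ∈ S → k ∈ S → i ≠ j → j ≠ k → i ≠ k →
        W (φ2 (pl j)) (φ2 (pl k)) (φ2 (pl i)) ≠ 0 := fun i j k hi hj hk =>
      hW i hi j hj k hk
    rcases mem_FK.1 hF with rfl | rfl | rfl | rfl | ⟨e, he, rfl⟩ | ⟨e, he, rfl⟩
    · obtain ⟨i, hi, j, hj, k, hk, hij, hik, hjk⟩ := Finset.two_lt_card.1 (show 2 < S.card by omega)
      refine rank_four hz hy ![pl i, pl j, pl k, a] ?_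
        ![W (φ2 (pl j)) (φ2 (pl k)), W (φ2 (pl k)) (φ2 (pl i)), W (φ2 (pl i)) (φ2 (pl j)), X3]
        ?_ ?_
      · intro t
        fin_cases t
        · exact (mem_pl L hi).1
        · exact (mem_pl L hj).1
        · exact (mem_pl L hk).1
        · exact (mem_a L).1
      · intro t
        fin_cases t
        · exact key i j k hi hj hk hij hjk hik
        · exact key j k i hj hk hi hjk hik.symm hij.symm
        · exact key k i j hk hi hj hik.symm hij hjk.symm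
        · show X3 (φ2 a) ≠ 0
          rw [D.a3]
          exact hc.ne'
      · intro t s hts
        fin_cases t <;> fin_cases s <;> first | exact absurd hts (by decide) | skip
        · exact (hW0 _ _).2
        · exact (hW0 _ _).1
        · exact (hW0 _ _).2
        · exact D.g3 i hi
        · exact D.g3 j hj
        · exact D.g3 k hk
    · obtain ⟨i, hi, j, hj, k, hk, hij, hik, hjk⟩ := Finset.two_lt_card.1 (show 2 < S.card by omega)
      have q : ∀ t ∈ S, sg (φ2 (pl' t)) = φ2 (pl t) := fun t ht => by rw [D.v' t ht, D.sgsg]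
      have qa : sg (φ2 a') = φ2 a := by rw [D.va', D.sgsg]
      refine rank_four hz hy ![pl' i, pl' j, pl' k, a'] ?_
        ![(W (φ2 (pl j)) (φ2 (pl k))).comp sg, (W (φ2 (pl k)) (φ2 (pl i))).comp sg,
          (W (φ2 (pl i)) (φ2 (pl j))).comp sg, X3.comp sg] ?_ ?_
      · intro t
        fin_cases t
        · exact (mem_pl' L hi).2.1
        · exact (mem_pl' L hj).2.1
        · exact (mem_pl' L hk).2.1
        · exact (mem_a' L).2.1
      · intro t
        fin_cases t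
        · show W (φ2 (pl j)) (φ2 (pl k)) (sg (φ2 (pl' i))) ≠ 0
          rw [q i hi]
          exact key i j k hi hj hk hij hjk hik
        · show W (φ2 (pl k)) (φ2 (pl i)) (sg (φ2 (pl' j))) ≠ 0
          rw [q j hj]
          exact key j k i hj hk hi hjk hik.symm hij.symm
        · show W (φ2 (pl i)) (φ2 (pl j)) (sg (φ2 (pl' k))) ≠ 0
          rw [q k hk]
          exact key k i j hk hi hj hik.symm hij hjk.symm
        · show X3 (sg (φ2 a')) ≠ 0
          rw [qa, D.a3]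
          exact hc.ne'
      · intro t s hts
        fin_cases t <;> fin_cases s <;> first | exact absurd hts (by decide) | skip
        · show W (φ2 (pl k)) (φ2 (pl i)) (sg (φ2 (pl' i))) = 0
          rw [q i hi]
          exact (hW0 _ _).2
        · show W (φ2 (pl i)) (φ2 (pl j)) (sg (φ2 (pl' i))) = 0
          rw [q i hi]
          exact (hW0 _ _).1
        · show W (φ2 (pl i)) (φ2 (pl j)) (sg (φ2 (pl' j))) = 0
          rw [q j hj]
          exact (hW0 _ _).2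
        · show X3 (sg (φ2 (pl' i))) = 0
          rw [q i hi]
          exact D.g3 i hi
        · show X3 (sg (φ2 (pl' j))) = 0
          rw [q j hj]
          exact D.g3 j hj
        · show X3 (sg (φ2 (pl' k))) = 0
          rw [q k hk]
          exact D.g3 k hk
    · obtain ⟨i, hi, j, hj, k, hk, hij, hik, hjk⟩ := Finset.two_lt_card.1 (show 2 < S.card by omega)
      refine rank_four hz hy ![pl i, pl j, pl k, b] ?_
        ![W (φ2 (pl j)) (φ2 (pl k)), W (φ2 (pl k)) (φ2 (pl i)), W (φ2 (pl i)) (φ2 (pl j)), X4]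
        ?_ ?_
      · intro t
        fin_cases t
        · exact (mem_pl L hi).2.2.1
        · exact (mem_pl L hj).2.2.1
        · exact (mem_pl L hk).2.2.1
        · exact (mem_b L).2.2.1
      · intro t
        fin_cases t
        · exact key i j k hi hj hk hij hjk hik
        · exact key j k i hj hk hi hjk hik.symm hij.symm
        · exact key k i j hk hi hj hik.symm hij hjk.symm
        · show X4 (φ2 b) ≠ 0
          rw [D.b4]
          exact one_ne_zero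
      · intro t s hts
        fin_cases t <;> fin_cases s <;> first | exact absurd hts (by decide) | skip
        · exact (hW0 _ _).2
        · exact (hW0 _ _).1
        · exact (hW0 _ _).2
        · exact D.g4 i hi
        · exact D.g4 j hj
        · exact D.g4 k hk
    · obtain ⟨i, hi, j, hj, k, hk, hij, hik, hjk⟩ := Finset.two_lt_card.1 (show 2 < S.card by omega)
      have q : ∀ t ∈ S, sg (φ2 (pl' t)) = φ2 (pl t) := fun t ht => by rw [D.v' t ht, D.sgsg]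
      refine rank_four hz hy ![pl' i, pl' j, pl' k, b] ?_
        ![(W (φ2 (pl j)) (φ2 (pl k))).comp sg, (W (φ2 (pl k)) (φ2 (pl i))).comp sg,
          (W (φ2 (pl i)) (φ2 (pl j))).comp sg, X4.comp sg] ?_ ?_
      · intro t
        fin_cases t
        · exact (mem_pl' L hi).2.2.2.1
        · exact (mem_pl' L hj).2.2.2.1
        · exact (mem_pl' L hk).2.2.2.1
        · exact (mem_b L).2.2.2.1
      · intro t
        fin_cases t
        · show W (φ2 (pl j)) (φ2 (pl k)) (sg (φ2 (pl' i))) ≠ 0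
          rw [q i hi]
          exact key i j k hi hj hk hij hjk hik
        · show W (φ2 (pl k)) (φ2 (pl i)) (sg (φ2 (pl' j))) ≠ 0
          rw [q j hj]
          exact key j k i hj hk hi hjk hik.symm hij.symm
        · show W (φ2 (pl i)) (φ2 (pl j)) (sg (φ2 (pl' k))) ≠ 0
          rw [q k hk]
          exact key k i j hk hi hj hik.symm hij hjk.symm
        · show X4 (sg (φ2 b)) ≠ 0
          rw [D.b4']
          linarith
      · intro t s hts
        fin_cases t <;> fin_cases s <;> first | exact absurd hts (by decide) | skip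
        · show W (φ2 (pl k)) (φ2 (pl i)) (sg (φ2 (pl' i))) = 0
          rw [q i hi]
          exact (hW0 _ _).2
        · show W (φ2 (pl i)) (φ2 (pl j)) (sg (φ2 (pl' i))) = 0
          rw [q i hi]
          exact (hW0 _ _).1
        · show W (φ2 (pl i)) (φ2 (pl j)) (sg (φ2 (pl' j))) = 0
          rw [q j hj]
          exact (hW0 _ _).2
        · show X4 (sg (φ2 (pl' i))) = 0
          rw [q i hi]
          exact D.g4 i hi
        · show X4 (sg (φ2 (pl' j))) = 0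
          rw [q j hj]
          exact D.g4 j hj
        · show X4 (sg (φ2 (pl' k))) = 0
          rw [q k hk]
          exact D.g4 k hk
    · obtain ⟨h1, h2, h3⟩ := ed_mem he
      obtain ⟨k, hk, hk1, hk2⟩ := third (i := e.1) (j := e.2) hS
      refine rank_four hz hy ![pl e.1, pl e.2, a, a'] ?_
        ![W (φ2 (pl e.2)) (φ2 (pl k)), W (φ2 (pl k)) (φ2 (pl e.1)), X3, X4] ?_ ?_
      · intro t
        fin_cases t
        · exact ((mem_pl L h1).2.2.2.2.1 e he).2 (Or.inl rfl)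
        · exact ((mem_pl L h2).2.2.2.2.1 e he).2 (Or.inr rfl)
        · exact (mem_a L).2.2.2.2.1 e he
        · exact (mem_a' L).2.2.2.2.1 e he
      · intro t
        fin_cases t
        · exact key _ _ k h1 h2 hk h3.ne hk2.symm hk1.symm
        · exact key _ k _ h2 hk h1 hk2.symm hk1 h3.ne'
        · show X3 (φ2 a) ≠ 0
          rw [D.a3]
          exact hc.ne'
        · show X4 (φ2 a') ≠ 0
          rw [D.va']
          exact D.a4'.ne'
      · intro t s hts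
        fin_cases t <;> fin_cases s <;> first | exact absurd hts (by decide) | skip
        · exact (hW0 _ _).2
        · exact D.g3 _ h1
        · exact D.g3 _ h2
        · exact D.g4 _ h1
        · exact D.g4 _ h2
        · exact D.a4
    · obtain ⟨h1, h2, h3⟩ := ed_mem he
      obtain ⟨k, hk, hk1, hk2⟩ := third (i := e.1) (j := e.2) hS
      refine rank_four hz hy ![pl e.1, pl e.2, pl' e.1, b] ?_
        ![W (φ2 (pl e.2)) (φ2 (pl k)), W (φ2 (pl k)) (φ2 (pl e.1)), X4, uf X3 X4 kG] ?_ ?_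
      · intro t
        fin_cases t
        · exact ((mem_pl L h1).2.2.2.2.2 e he).2 (Or.inl rfl)
        · exact ((mem_pl L h2).2.2.2.2.2 e he).2 (Or.inr rfl)
        · exact ((mem_pl' L h1).2.2.2.2.2 e he).2 (Or.inl rfl)
        · exact (mem_b L).2.2.2.2.2 e he
      · intro t
        fin_cases t
        · exact key _ _ k h1 h2 hk h3.ne hk2.symm hk1.symm
        · exact key _ k _ h2 hk h1 hk2.symm hk1 h3.ne'
        · show X4 (φ2 (pl' e.1)) ≠ 0
          rw [hval _ h1]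
          exact (D.g4' _ h1).ne'
        · show uf X3 X4 kG (φ2 b) ≠ 0
          simp only [uf, LinearMap.sub_apply, LinearMap.smul_apply, smul_eq_mul, D.b3, D.b4]
          intro h
          linarith
      · intro t s hts
        fin_cases t <;> fin_cases s <;> first | exact absurd hts (by decide) | skip
        · exact (hW0 _ _).2
        · exact D.g4 _ h1
        · exact D.g4 _ h2
        · exact hUg _ h1
        · exact hUg _ h2
        · exact hUs _ h1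
  · -- full
    obtain ⟨i, hi, j, hj, k, hk, hij, hik, hjk⟩ := Finset.two_lt_card.1 (show 2 < S.card by omega)
    have key : ∀ (i j k : ℕ), i ∈ S → j ∈ S → k ∈ S → i ≠ j → j ≠ k → i ≠ k →
        W (φ2 (pl j)) (φ2 (pl k)) (φ2 (pl i)) ≠ 0 := fun i j k hi hj hk =>
      hW i hi j hj k hk
    refine full_five ![pl i, pl j, pl k, a, b] ?_
      ![W (φ2 (pl j)) (φ2 (pl k)), W (φ2 (pl k)) (φ2 (pl i)), W (φ2 (pl i)) (φ2 (pl j)), X3, X4]
      ?_ ?_
    · intro t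
      fin_cases t
      · exact Vp i hi
      · exact Vp j hj
      · exact Vp k hk
      · exact Va
      · exact Vb
    · intro t
      fin_cases t
      · exact key i j k hi hj hk hij hjk hik
      · exact key j k i hj hk hi hjk hik.symm hij.symm
      · exact key k i j hk hi hj hik.symm hij hjk.symm
      · show X3 (φ2 a) ≠ 0
        rw [D.a3]
        exact hc.ne'
      · show X4 (φ2 b) ≠ 0
        rw [D.b4]
        exact one_ne_zero
    · intro t s hts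
      fin_cases t <;> fin_cases s <;> first | exact absurd hts (by decide) | skip
      · exact (hW0 _ _).2
      · exact (hW0 _ _).1
      · exact (hW0 _ _).2
      · exact D.g3 i hi
      · exact D.g3 j hj
      · exact D.g3 k hk
      · exact D.g4 i hi
      · exact D.g4 j hj
      · exact D.g4 k hk
      · exact D.a4
  · -- pairwise nonproportional
    have sep : ∀ F ∈ FK S pl pl' a a' b, ∀ v ∈ VK S pl pl' a a' b, ∀ w ∈ VK S pl pl' a a' b,
        v ∈ F → w ∉ F → (∀ c : ℝ, φ2 w ≠ c • φ2 v) ∧ ∀ c : ℝ, φ2 v ≠ c • φ2 w := by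
      intro F hF v hv w hw hvF hwF
      exact nonprop ((tb F hF v hv).2.2 hvF) (fun h => hwF ((tb F hF w hw).2.1 h))
        (light_ne (hl v hv))
    intro v hv w hw hvw
    rcases mem_V.1 hv with rfl | ⟨i, hi, rfl⟩ | rfl | ⟨i, hi, rfl⟩ | rfl <;>
      rcases mem_V.1 hw with rfl | ⟨j, hj, rfl⟩ | rfl | ⟨j, hj, rfl⟩ | rfl
    · exact absurd rfl hvw
    · exact (sep _ F3 _ (Vp j hj) _ Va (mem_pl L hj).2.2.1 (mem_a L).2.2.1).2
    · exact (sep _ F1 _ Va _ Va' (mem_a L).1 (mem_a' L).1).1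
    · exact (sep _ F1 _ Va _ (Vp' j hj) (mem_a L).1 (mem_pl' L hj).1).1
    · exact (sep _ F1 _ Va _ Vb (mem_a L).1 (mem_b L).1).1
    · exact (sep _ F3 _ (Vp i hi) _ Va (mem_pl L hi).2.2.1 (mem_a L).2.2.1).1
    · have hij : i ≠ j := fun h => hvw (by rw [h])
      obtain ⟨k, hk, hk1, hk2⟩ := third (i := i) (j := j) hS
      exact (nonprop (n := W (φ2 (pl i)) (φ2 (pl k))) (hW0 _ _).1
        (hW j hj i hi k hk hij.symm hk1.symm hk2.symm) (light_ne (hl _ (Vp i hi)))).1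
    · exact (sep _ F1 _ (Vp i hi) _ Va' (mem_pl L hi).1 (mem_a' L).1).1
    · exact (sep _ F1 _ (Vp i hi) _ (Vp' j hj) (mem_pl L hi).1 (mem_pl' L hj).1).1
    · exact (sep _ F1 _ (Vp i hi) _ Vb (mem_pl L hi).1 (mem_b L).1).1
    · exact (sep _ F1 _ Va _ Va' (mem_a L).1 (mem_a' L).1).2
    · exact (sep _ F1 _ (Vp j hj) _ Va' (mem_pl L hj).1 (mem_a' L).1).2
    · exact absurd rfl hvw
    · exact (sep _ F4 _ (Vp' j hj) _ Va' (mem_pl' L hj).2.2.2.1 (mem_a' L).2.2.2.1).2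
    · exact (sep _ F2 _ Va' _ Vb (mem_a' L).2.1 (mem_b L).2.1).1
    · exact (sep _ F1 _ Va _ (Vp' i hi) (mem_a L).1 (mem_pl' L hi).1).2
    · exact (sep _ F1 _ (Vp j hj) _ (Vp' i hi) (mem_pl L hj).1 (mem_pl' L hi).1).2
    · exact (sep _ F4 _ (Vp' i hi) _ Va' (mem_pl' L hi).2.2.2.1 (mem_a' L).2.2.2.1).1
    · have hij : i ≠ j := fun h => hvw (by rw [h])
      obtain ⟨k, hk, hk1, hk2⟩ := third (i := i) (j := j) hS
      have q : ∀ t ∈ S, sg (φ2 (pl' t)) = φ2 (pl t) := fun t ht => by rw [D.v' t ht, D.sgsg]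
      refine (nonprop (n := (W (φ2 (pl i)) (φ2 (pl k))).comp sg) ?_ ?_
        (light_ne (hl _ (Vp' i hi)))).1
      · show W (φ2 (pl i)) (φ2 (pl k)) (sg (φ2 (pl' i))) = 0
        rw [q i hi]
        exact (hW0 _ _).1
      · show W (φ2 (pl i)) (φ2 (pl k)) (sg (φ2 (pl' j))) ≠ 0
        rw [q j hj]
        exact hW j hj i hi k hk hij.symm hk1.symm hk2.symm
    · exact (sep _ F2 _ (Vp' i hi) _ Vb (mem_pl' L hi).2.1 (mem_b L).2.1).1
    · exact (sep _ F1 _ Va _ Vb (mem_a L).1 (mem_b L).1).2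
    · exact (sep _ F1 _ (Vp j hj) _ Vb (mem_pl L hj).1 (mem_b L).1).2
    · exact (sep _ F2 _ Va' _ Vb (mem_a' L).2.1 (mem_b L).2.1).2
    · exact (sep _ F2 _ (Vp' j hj) _ Vb (mem_pl' L hj).2.1 (mem_b L).2.1).2
    · exact absurd rfl hvw
  · -- cone
    intro x hx
    have un := fun (F : Finset ι) (hF : F ∈ FK S pl pl' a a' b) (n : Du)
      (h : Spec S pl pl' a a' b φ2 X3 X4 sg m kG kT Nn F n) => spec_unique L hne (hN2 F hF) h
    apply hcone x
    · have := hx _ F1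
      rwa [un _ F1 X4 (Or.inl ⟨rfl, rfl⟩)] at this
    · have := hx _ F2
      rwa [un _ F2 (X4.comp sg) (Or.inr (Or.inl ⟨rfl, rfl⟩))] at this
    · have := hx _ F3
      rwa [un _ F3 X3 (Or.inr (Or.inr (Or.inl ⟨rfl, rfl⟩)))] at this
    · have := hx _ F4
      rwa [un _ F4 (nb' X3 X4 sg kG Nn) (Or.inr (Or.inr (Or.inr (Or.inl ⟨rfl, rfl⟩))))] at this
    · intro e he
      have hF : prS pl pl' a a' e ∈ FK S pl pl' a a' b :=
        mem_FK.2 (Or.inr (Or.inr (Or.inr (Or.inr (Or.inl ⟨e, he, rfl⟩)))))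
      have := hx _ hF
      rwa [un _ hF (npr X3 X4 m kT e)
        (Or.inr (Or.inr (Or.inr (Or.inr (Or.inl ⟨e, he, rfl, rfl⟩)))))] at this
    · intro e he
      have hF : kqS pl pl' b e ∈ FK S pl pl' a a' b :=
        mem_FK.2 (Or.inr (Or.inr (Or.inr (Or.inr (Or.inr ⟨e, he, rfl⟩)))))
      have := hx _ hF
      rwa [un _ hF (nkq X3 X4 m kG kT (φ2 b) e)
        (Or.inr (Or.inr (Or.inr (Or.inr (Or.inr ⟨e, he, rfl, rfl⟩)))))] at this

end

end GK

end Pool.Agent.Work.MP_5b14b0_lc
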