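import Pool.Agent.Work.MP_5b14b0_lc.Geo

/-!
# The branching gadget: labels, functionals and signs
-/

set_option autoImplicit false

namespace Pool.Agent.Work.MP_5b14b0_lc

open Finset

namespace GK

/-- Facet over the edge `e`, prism. -/
def prS {ι : Type} [DecidableEq ι] (pl pl' : ℕ → ι) (a a' : ι) (e : ℕ × ℕ) : Finset ι :=
  {a, pl e.1, pl e.2, a', pl' e.1, pl' e.2}

/-- Facet over the edge `e`, pyramid with apex `b`. -/
def kqS {ι : Type} [DecidableEq ι] (pl pl' : ℕ → ι) (b : ι) (e : ℕ × ℕ) : Finset ι :=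
  {b, pl e.1, pl e.2, pl' e.1, pl' e.2}

/-- The labels are distinct. -/
structure Labs {ι : Type} (S : Finset ℕ) (pl pl' : ℕ → ι) (a a' b : ι) : Prop where
  hinj : ∀ i ∈ S, ∀ j ∈ S, pl i = pl j → i = j
  hinj' : ∀ i ∈ S, ∀ j ∈ S, pl' i = pl' j → i = j
  l1 : ∀ j ∈ S, pl j ≠ a
  l2 : ∀ j ∈ S, pl' j ≠ a'
  l3 : ∀ i ∈ S, ∀ j ∈ S, pl i ≠ pl' j
  l4 : ∀ j ∈ S, pl j ≠ a'
  l5 : ∀ j ∈ S, pl' j ≠ a
  l6 : a ≠ a'
  l7 : a ≠ b
  l8 : a' ≠ b
  l9 : ∀ j ∈ S, pl j ≠ b
  l10 : ∀ j ∈ S, pl' j ≠ b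

/-- The values of the functionals. -/
structure Vals {ι : Type} (S : Finset ℕ) (pl pl' : ℕ → ι) (a a' b : ι) (φ2 : ι → E)
    (X3 X4 : Du) (sg : E →ₗ[ℝ] E) (m : ℕ × ℕ → Du) (kG kT Nn c0 : ℝ) : Prop where
  v' : ∀ j ∈ S, φ2 (pl' j) = sg (φ2 (pl j))
  va' : φ2 a' = sg (φ2 a)
  sgsg : ∀ x, sg (sg x) = x
  U : ∀ x, X3 (sg x) - kG * X4 (sg x) = X3 x - kG * X4 x
  M : ∀ e ∈ Ed S, ∀ x, m e (sg x) - X3 (sg x) - kT * X4 (sg x) = m e x - X3 x - kT * X4 x
  g3 : ∀ j ∈ S, X3 (φ2 (pl j)) = 0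
  g4 : ∀ j ∈ S, X4 (φ2 (pl j)) = 0
  g4' : ∀ j ∈ S, 0 < X4 (sg (φ2 (pl j)))
  a3 : X3 (φ2 a) = c0
  a4 : X4 (φ2 a) = 0
  a4' : 0 < X4 (sg (φ2 a))
  am : ∀ e ∈ Ed S, m e (φ2 a) = c0
  b3 : X3 (φ2 b) = 0
  b4 : X4 (φ2 b) = 1
  b4' : X4 (sg (φ2 b)) = Nn
  bm : ∀ e ∈ Ed S, kT < m e (φ2 b)
  bmG : ∀ e ∈ Ed S, m e (φ2 b) ≤ kG
  gm1 : ∀ e ∈ Ed S, m e (φ2 (pl e.1)) = 0
  gm2 : ∀ e ∈ Ed S, m e (φ2 (pl e.2)) = 0
  gmp : ∀ e ∈ Ed S, ∀ k ∈ S, k ≠ e.1 → k ≠ e.2 → 0 < m e (φ2 (pl k))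
  hG : 0 < kG
  hT : 0 < kT
  hc : 0 < c0
  hN : 1 < Nn

/-- The functional `x3 - kG x4`. -/
def uf (X3 X4 : Du) (kG : ℝ) : Du := X3 - kG • X4

/-- The functional of the facet `S' ∪ {b}`. -/
noncomputable def nb' (X3 X4 : Du) (sg : E →ₗ[ℝ] E) (kG Nn : ℝ) : Du :=
  X4.comp sg + (Nn / kG) • uf X3 X4 kG

/-- The functional of the prism. -/
def npr (X3 X4 : Du) (m : ℕ × ℕ → Du) (kT : ℝ) (e : ℕ × ℕ) : Du := m e - X3 - kT • X4

/-- The functional of the pyramid over a quadrangle. -/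
noncomputable def nkq (X3 X4 : Du) (m : ℕ × ℕ → Du) (kG kT : ℝ) (fb : E) (e : ℕ × ℕ) : Du :=
  npr X3 X4 m kT e + ((m e fb - kT) / kG) • uf X3 X4 kG

/-- `n` is the functional of the facet `F`. -/
def Spec {ι : Type} [DecidableEq ι] (S : Finset ℕ) (pl pl' : ℕ → ι) (a a' b : ι) (φ2 : ι → E)
    (X3 X4 : Du) (sg : E →ₗ[ℝ] E) (m : ℕ × ℕ → Du) (kG kT Nn : ℝ) (F : Finset ι) (n : Du) :
    Prop :=
  (F = pF S pl a ∧ n = X4) ∨ (F = pF S pl' a' ∧ n = X4.comp sg) ∨ (F = pF S pl b ∧ n = X3) ∨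
  (F = pF S pl' b ∧ n = nb' X3 X4 sg kG Nn) ∨
  (∃ e ∈ Ed S, F = prS pl pl' a a' e ∧ n = npr X3 X4 m kT e) ∨
  (∃ e ∈ Ed S, F = kqS pl pl' b e ∧ n = nkq X3 X4 m kG kT (φ2 b) e)

theorem pos_case {x : ℝ} {P : Prop} (h : 0 < x) (hP : ¬ P) : 0 ≤ x ∧ (x = 0 ↔ P) :=
  ⟨h.le, fun hx => absurd hx h.ne', fun hp => absurd hp hP⟩

theorem zero_case {x : ℝ} {P : Prop} (h : x = 0) (hP : P) : 0 ≤ x ∧ (x = 0 ↔ P) :=
  ⟨h.ge, fun _ => hP, fun _ => h⟩

theorem ed_mem {S : Finset ℕ} {e : ℕ × ℕ} (h : e ∈ Ed S) : e.1 ∈ S ∧ e.2 ∈ S ∧ e.1 < e.2 := by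
  simp only [Ed, mem_filter, mem_product] at h
  exact ⟨h.1.1, h.1.2, h.2.1⟩

theorem indep_tri {n : ℕ} (x : Fin n → E) (f : Fin n → Du) (hd : ∀ i, f i (x i) ≠ 0)
    (hl : ∀ i j, j < i → f i (x j) = 0) : LinearIndependent ℝ x := by
  rw [Fintype.linearIndependent_iff]
  intro c hc
  by_contra hne
  push Not at hne
  obtain ⟨i0, hi0⟩ := hne
  have hs : (univ.filter (fun i => c i ≠ 0)).Nonempty := ⟨i0, by simp [hi0]⟩
  set i := (univ.filter (fun i => c i ≠ 0)).max' hs with hi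
  have him : c i ≠ 0 := by
    have := Finset.max'_mem _ hs
    simpa using this
  have hmax : ∀ j, i < j → c j = 0 := by
    intro j hj
    by_contra hcj
    have := Finset.le_max' (univ.filter (fun i => c i ≠ 0)) j (by simp [hcj])
    exact absurd hj (not_lt.2 this)
  have h1 := congrArg (f i) hc
  rw [map_sum, map_zero, Finset.sum_eq_single i] at h1
  · rw [map_smul, smul_eq_mul] at h1
    rcases mul_eq_zero.1 h1 with h | h
    · exact him h
    · exact hd i h
  · intro j _ hj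
    rw [map_smul, smul_eq_mul]
    rcases lt_or_gt_of_ne hj with h | h
    · rw [hl i j h, mul_zero]
    · rw [hmax j h, zero_mul]
  · intro h
    exact absurd (mem_univ i) h

/-- four independent vectors in the kernel of a nonzero functional -/
theorem rank_four {ι : Type} {φ : ι → E} {F : Finset ι} {n : Du} (hn : ∀ v ∈ F, n (φ v) = 0)
    {y : E} (hy : n y ≠ 0) (w : Fin 4 → ι) (hw : ∀ i, w i ∈ F) (f : Fin 4 → Du)
    (hd : ∀ i, f i (φ (w i)) ≠ 0) (hl : ∀ i j, j < i → f i (φ (w j)) = 0) :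
    Module.finrank ℝ (Submodule.span ℝ (φ '' (F : Set ι))) = 4 := by
  apply le_antisymm
  · have hle : Submodule.span ℝ (φ '' (F : Set ι)) ≤ LinearMap.ker n := by
      rw [Submodule.span_le]
      rintro _ ⟨v, hv, rfl⟩
      exact LinearMap.mem_ker.2 (hn v hv)
    have h1 := Submodule.finrank_mono hle
    have h2 : n ≠ 0 := fun h => hy (by rw [h]; rfl)
    have h3 := Module.Dual.finrank_ker_add_one_of_ne_zero h2
    have h4 : Module.finrank ℝ E = 5 := by simp
    omega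
  · have hi := indep_tri (fun i => φ (w i)) f hd hl
    have hle : Submodule.span ℝ (Set.range (fun i => φ (w i))) ≤
        Submodule.span ℝ (φ '' (F : Set ι)) := by
      apply Submodule.span_mono
      rintro _ ⟨i, rfl⟩
      exact ⟨w i, hw i, rfl⟩
    have h1 := Submodule.finrank_mono hle
    rw [finrank_span_eq_card hi] at h1
    simpa using h1

theorem full_five {ι : Type} {φ : ι → E} {F : Set ι} (w : Fin 5 → ι) (hw : ∀ i, w i ∈ F)
    (f : Fin 5 → Du) (hd : ∀ i, f i (φ (w i)) ≠ 0) (hl : ∀ i j, j < i → f i (φ (w j)) = 0) :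
    Submodule.span ℝ (φ '' F) = ⊤ := by
  have hi := indep_tri (fun i => φ (w i)) f hd hl
  have hle : Submodule.span ℝ (Set.range (fun i => φ (w i))) ≤ Submodule.span ℝ (φ '' F) := by
    apply Submodule.span_mono
    rintro _ ⟨i, rfl⟩
    exact ⟨w i, hw i, rfl⟩
  have h1 := Submodule.finrank_mono hle
  rw [finrank_span_eq_card hi] at h1
  apply Submodule.eq_top_of_finrank_eq
  have h4 : Module.finrank ℝ E = 5 := by simp
  have h5 := Submodule.finrank_le (Submodule.span ℝ (φ '' F))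
  rw [h4] at h5 ⊢
  simp only [Fintype.card_fin] at h1
  omega

section

variable {ι : Type} [DecidableEq ι] {S : Finset ℕ} {pl pl' : ℕ → ι} {a a' b : ι} {φ2 : ι → E}
  {X3 X4 : Du} {sg : E →ₗ[ℝ] E} {m : ℕ × ℕ → Du} {kG kT Nn c0 : ℝ}

theorem mem_V {v : ι} : v ∈ VK S pl pl' a a' b ↔
    v = a ∨ (∃ i ∈ S, v = pl i) ∨ v = a' ∨ (∃ i ∈ S, v = pl' i) ∨ v = b := by
  simp only [VK, pF, mem_union, mem_insert, mem_image, mem_singleton]
  constructor
  · rintro (((h | ⟨i, hi, h⟩) | (h | ⟨i, hi, h⟩)) | h)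
    · exact Or.inl h
    · exact Or.inr (Or.inl ⟨i, hi, h.symm⟩)
    · exact Or.inr (Or.inr (Or.inl h))
    · exact Or.inr (Or.inr (Or.inr (Or.inl ⟨i, hi, h.symm⟩)))
    · exact Or.inr (Or.inr (Or.inr (Or.inr h)))
  · rintro (h | ⟨i, hi, h⟩ | h | ⟨i, hi, h⟩ | h)
    · exact Or.inl (Or.inl (Or.inl h))
    · exact Or.inl (Or.inl (Or.inr ⟨i, hi, h.symm⟩))
    · exact Or.inl (Or.inr (Or.inl h))
    · exact Or.inl (Or.inr (Or.inr ⟨i, hi, h.symm⟩))
    · exact Or.inr h

theorem mem_pF' {pl : ℕ → ι} {a v : ι} : v ∈ pF S pl a ↔ v = a ∨ ∃ i ∈ S, pl i = v := by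
  simp [pF]

/-- signs and incidences -/
theorem table (L : Labs S pl pl' a a' b)
    (D : Vals S pl pl' a a' b φ2 X3 X4 sg m kG kT Nn c0) {F : Finset ι} {n : Du}
    (h : Spec S pl pl' a a' b φ2 X3 X4 sg m kG kT Nn F n) {v : ι}
    (hv : v ∈ VK S pl pl' a a' b) : 0 ≤ n (φ2 v) ∧ (n (φ2 v) = 0 ↔ v ∈ F) := by
  have hG := D.hG
  have hT := D.hT
  have hc := D.hc
  have hN := D.hN
  rw [mem_V] at hv
  rcases hv with rfl | ⟨i, hi, rfl⟩ | rfl | ⟨i, hi, rfl⟩ | rfl
  · -- the apex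
    rcases h with ⟨rfl, rfl⟩ | ⟨rfl, rfl⟩ | ⟨rfl, rfl⟩ | ⟨rfl, rfl⟩ | ⟨e, he, rfl, rfl⟩ |
      ⟨e, he, rfl, rfl⟩
    · exact zero_case D.a4 (by simp [pF])
    · refine pos_case D.a4' ?_
      rw [mem_pF']
      rintro (h | ⟨j, hj, h⟩)
      · exact L.l6 h
      · exact L.l5 j hj h
    · refine pos_case (by rw [D.a3]; exact hc) ?_
      rw [mem_pF']
      rintro (h | ⟨j, hj, h⟩)
      · exact L.l7 h
      · exact L.l1 j hj h
    · refine pos_case ?_ ?_
      · simp only [nb', uf, LinearMap.add_apply, LinearMap.smul_apply, LinearMap.sub_apply,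
          LinearMap.comp_apply, smul_eq_mul, D.a3, D.a4, mul_zero, sub_zero]
        have := D.a4'
        positivity
      · rw [mem_pF']
        rintro (h | ⟨j, hj, h⟩)
        · exact L.l7 h
        · exact L.l5 j hj h
    · refine zero_case ?_ (by simp [prS])
      simp only [npr, LinearMap.sub_apply, LinearMap.smul_apply, smul_eq_mul, D.a3, D.a4,
        D.am e he]
      ring
    · obtain ⟨h1, h2, -⟩ := ed_mem he
      refine pos_case ?_ ?_
      · simp only [nkq, npr, uf, LinearMap.add_apply, LinearMap.sub_apply, LinearMap.smul_apply,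
          smul_eq_mul, D.a3, D.a4, D.am e he]
        have h3 : 0 < m e (φ2 b) - kT := sub_pos.2 (D.bm e he)
        have : 0 < (m e (φ2 b) - kT) / kG * c0 := by positivity
        linarith
      · simp only [kqS, mem_insert, mem_singleton]
        rintro (h | h | h | h | h)
        · exact L.l7 h
        · exact L.l1 _ h1 h.symm
        · exact L.l1 _ h2 h.symm
        · exact L.l5 _ h1 h.symm
        · exact L.l5 _ h2 h.symm
  · -- a vertex of the first polygon
    have e3 := D.g3 i hi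
    have e4 := D.g4 i hi
    have e4' := D.g4' i hi
    rcases h with ⟨rfl, rfl⟩ | ⟨rfl, rfl⟩ | ⟨rfl, rfl⟩ | ⟨rfl, rfl⟩ | ⟨e, he, rfl, rfl⟩ |
      ⟨e, he, rfl, rfl⟩
    · exact zero_case e4 (mem_pF'.2 (Or.inr ⟨i, hi, rfl⟩))
    · refine pos_case e4' ?_
      rw [mem_pF']
      rintro (h | ⟨j, hj, h⟩)
      · exact L.l4 i hi h
      · exact L.l3 i hi j hj h.symm
    · exact zero_case e3 (mem_pF'.2 (Or.inr ⟨i, hi, rfl⟩))
    · refine pos_case ?_ ?_
      · simp only [nb', uf, LinearMap.add_apply, LinearMap.smul_apply, LinearMap.sub_apply,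
          LinearMap.comp_apply, smul_eq_mul, e3, e4]
        linarith
      · rw [mem_pF']
        rintro (h | ⟨j, hj, h⟩)
        · exact L.l9 i hi h
        · exact L.l3 i hi j hj h.symm
    · obtain ⟨h1, h2, -⟩ := ed_mem he
      have hval : npr X3 X4 m kT e (φ2 (pl i)) = m e (φ2 (pl i)) := by
        simp only [npr, LinearMap.sub_apply, LinearMap.smul_apply, smul_eq_mul, e3, e4]
        ring
      rw [hval]
      by_cases hi1 : i = e.1
      · subst hi1
        exact zero_case (D.gm1 e he) (by simp [prS])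
      by_cases hi2 : i = e.2
      · subst hi2
        exact zero_case (D.gm2 e he) (by simp [prS])
      refine pos_case (D.gmp e he i hi hi1 hi2) ?_
      simp only [prS, mem_insert, mem_singleton]
      rintro (h | h | h | h | h | h)
      · exact L.l1 i hi h
      · exact hi1 (L.hinj i hi _ h1 h)
      · exact hi2 (L.hinj i hi _ h2 h)
      · exact L.l4 i hi h
      · exact L.l3 i hi _ h1 h
      · exact L.l3 i hi _ h2 h
    · obtain ⟨h1, h2, -⟩ := ed_mem he
      have hval : nkq X3 X4 m kG kT (φ2 b) e (φ2 (pl i)) = m e (φ2 (pl i)) := by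
        simp only [nkq, npr, uf, LinearMap.add_apply, LinearMap.sub_apply, LinearMap.smul_apply,
          smul_eq_mul, e3, e4]
        ring
      rw [hval]
      by_cases hi1 : i = e.1
      · subst hi1
        exact zero_case (D.gm1 e he) (by simp [kqS])
      by_cases hi2 : i = e.2
      · subst hi2
        exact zero_case (D.gm2 e he) (by simp [kqS])
      refine pos_case (D.gmp e he i hi hi1 hi2) ?_
      simp only [kqS, mem_insert, mem_singleton]
      rintro (h | h | h | h | h)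
      · exact L.l9 i hi h
      · exact hi1 (L.hinj i hi _ h1 h)
      · exact hi2 (L.hinj i hi _ h2 h)
      · exact L.l3 i hi _ h1 h
      · exact L.l3 i hi _ h2 h
  · -- the second apex
    have hU := D.U (φ2 a)
    rw [D.a3, D.a4] at hU
    have e4' := D.a4'
    have e3 : X3 (sg (φ2 a)) = c0 + kG * X4 (sg (φ2 a)) := by linarith
    rw [D.va']
    rcases h with ⟨rfl, rfl⟩ | ⟨rfl, rfl⟩ | ⟨rfl, rfl⟩ | ⟨rfl, rfl⟩ | ⟨e, he, rfl, rfl⟩ |
      ⟨e, he, rfl, rfl⟩
    · refine pos_case e4' ?_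
      rw [mem_pF']
      rintro (h | ⟨j, hj, h⟩)
      · exact L.l6 h.symm
      · exact L.l4 j hj h
    · refine zero_case ?_ (by simp [pF])
      rw [LinearMap.comp_apply, D.sgsg, D.a4]
    · refine pos_case (by rw [e3]; positivity) ?_
      rw [mem_pF']
      rintro (h | ⟨j, hj, h⟩)
      · exact L.l8 h
      · exact L.l4 j hj h
    · refine pos_case ?_ ?_
      · simp only [nb', uf, LinearMap.add_apply, LinearMap.smul_apply, LinearMap.sub_apply,
          LinearMap.comp_apply, smul_eq_mul, D.sgsg, D.a4, e3]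
        have : 0 < Nn / kG * c0 := by positivity
        nlinarith
      · rw [mem_pF']
        rintro (h | ⟨j, hj, h⟩)
        · exact L.l8 h
        · exact L.l2 j hj h
    · refine zero_case ?_ (by simp [prS])
      have := D.M e he (φ2 a)
      simp only [npr, LinearMap.sub_apply, LinearMap.smul_apply, smul_eq_mul]
      rw [this, D.a3, D.a4, D.am e he]
      ring
    · obtain ⟨h1, h2, -⟩ := ed_mem he
      refine pos_case ?_ ?_
      · have hM := D.M e he (φ2 a)
        rw [D.a3, D.a4, D.am e he] at hM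
        simp only [nkq, npr, uf, LinearMap.add_apply, LinearMap.sub_apply, LinearMap.smul_apply,
          smul_eq_mul]
        rw [hM, D.U (φ2 a), D.a3, D.a4]
        have h3 : 0 < m e (φ2 b) - kT := sub_pos.2 (D.bm e he)
        have : 0 < (m e (φ2 b) - kT) / kG * c0 := by positivity
        linarith
      · simp only [kqS, mem_insert, mem_singleton]
        rintro (h | h | h | h | h)
        · exact L.l8 h
        · exact L.l4 _ h1 h.symm
        · exact L.l4 _ h2 h.symm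
        · exact L.l2 _ h1 h.symm
        · exact L.l2 _ h2 h.symm
  · -- a vertex of the second polygon
    have hU := D.U (φ2 (pl i))
    rw [D.g3 i hi, D.g4 i hi] at hU
    have e4' := D.g4' i hi
    have e3 : X3 (sg (φ2 (pl i))) = kG * X4 (sg (φ2 (pl i))) := by linarith
    rw [D.v' i hi]
    rcases h with ⟨rfl, rfl⟩ | ⟨rfl, rfl⟩ | ⟨rfl, rfl⟩ | ⟨rfl, rfl⟩ | ⟨e, he, rfl, rfl⟩ |
      ⟨e, he, rfl, rfl⟩
    · refine pos_case e4' ?_
      rw [mem_pF']
      rintro (h | ⟨j, hj, h⟩)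
      · exact L.l5 i hi h
      · exact L.l3 j hj i hi h
    · refine zero_case ?_ (mem_pF'.2 (Or.inr ⟨i, hi, rfl⟩))
      rw [LinearMap.comp_apply, D.sgsg, D.g4 i hi]
    · refine pos_case (by rw [e3]; positivity) ?_
      rw [mem_pF']
      rintro (h | ⟨j, hj, h⟩)
      · exact L.l10 i hi h
      · exact L.l3 j hj i hi h
    · refine zero_case ?_ (mem_pF'.2 (Or.inr ⟨i, hi, rfl⟩))
      simp only [nb', uf, LinearMap.add_apply, LinearMap.smul_apply, LinearMap.sub_apply,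
        LinearMap.comp_apply, smul_eq_mul, D.sgsg, D.g4 i hi, e3]
      ring
    · obtain ⟨h1, h2, -⟩ := ed_mem he
      have hval : npr X3 X4 m kT e (sg (φ2 (pl i))) = m e (φ2 (pl i)) := by
        have := D.M e he (φ2 (pl i))
        simp only [npr, LinearMap.sub_apply, LinearMap.smul_apply, smul_eq_mul]
        rw [this, D.g3 i hi, D.g4 i hi]
        ring
      rw [hval]
      by_cases hi1 : i = e.1
      · subst hi1
        exact zero_case (D.gm1 e he) (by simp [prS])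
      by_cases hi2 : i = e.2
      · subst hi2
        exact zero_case (D.gm2 e he) (by simp [prS])
      refine pos_case (D.gmp e he i hi hi1 hi2) ?_
      simp only [prS, mem_insert, mem_singleton]
      rintro (h | h | h | h | h | h)
      · exact L.l5 i hi h
      · exact L.l3 _ h1 i hi h.symm
      · exact L.l3 _ h2 i hi h.symm
      · exact L.l2 i hi h
      · exact hi1 (L.hinj' i hi _ h1 h)
      · exact hi2 (L.hinj' i hi _ h2 h)
    · obtain ⟨h1, h2, -⟩ := ed_mem he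
      have hval : nkq X3 X4 m kG kT (φ2 b) e (sg (φ2 (pl i))) = m e (φ2 (pl i)) := by
        have hM := D.M e he (φ2 (pl i))
        simp only [nkq, npr, uf, LinearMap.add_apply, LinearMap.sub_apply, LinearMap.smul_apply,
          smul_eq_mul]
        rw [hM, D.U (φ2 (pl i)), D.g3 i hi, D.g4 i hi]
        ring
      rw [hval]
      by_cases hi1 : i = e.1
      · subst hi1
        exact zero_case (D.gm1 e he) (by simp [kqS])
      by_cases hi2 : i = e.2
      · subst hi2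
        exact zero_case (D.gm2 e he) (by simp [kqS])
      refine pos_case (D.gmp e he i hi hi1 hi2) ?_
      simp only [kqS, mem_insert, mem_singleton]
      rintro (h | h | h | h | h)
      · exact L.l10 i hi h
      · exact L.l3 _ h1 i hi h.symm
      · exact L.l3 _ h2 i hi h.symm
      · exact hi1 (L.hinj' i hi _ h1 h)
      · exact hi2 (L.hinj' i hi _ h2 h)
  · -- the vertex b
    rcases h with ⟨rfl, rfl⟩ | ⟨rfl, rfl⟩ | ⟨rfl, rfl⟩ | ⟨rfl, rfl⟩ | ⟨e, he, rfl, rfl⟩ |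
      ⟨e, he, rfl, rfl⟩
    · refine pos_case (by rw [D.b4]; exact one_pos) ?_
      rw [mem_pF']
      rintro (h | ⟨j, hj, h⟩)
      · exact L.l7 h.symm
      · exact L.l9 j hj h
    · refine pos_case ?_ ?_
      · rw [LinearMap.comp_apply, D.b4']
        linarith
      · rw [mem_pF']
        rintro (h | ⟨j, hj, h⟩)
        · exact L.l8 h.symm
        · exact L.l10 j hj h
    · exact zero_case D.b3 (by simp [pF])
    · refine zero_case ?_ (by simp [pF])
      simp only [nb', uf, LinearMap.add_apply, LinearMap.smul_apply, LinearMap.sub_apply,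
        LinearMap.comp_apply, smul_eq_mul, D.b3, D.b4, D.b4']
      field_simp
      ring
    · obtain ⟨h1, h2, -⟩ := ed_mem he
      refine pos_case ?_ ?_
      · simp only [npr, LinearMap.sub_apply, LinearMap.smul_apply, smul_eq_mul, D.b3, D.b4]
        have := D.bm e he
        linarith
      · simp only [prS, mem_insert, mem_singleton]
        rintro (h | h | h | h | h | h)
        · exact L.l7 h.symm
        · exact L.l9 _ h1 h.symm
        · exact L.l9 _ h2 h.symm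
        · exact L.l8 h.symm
        · exact L.l10 _ h1 h.symm
        · exact L.l10 _ h2 h.symm
    · refine zero_case ?_ (by simp [kqS])
      simp only [nkq, npr, uf, LinearMap.add_apply, LinearMap.sub_apply, LinearMap.smul_apply,
        smul_eq_mul, D.b3, D.b4]
      field_simp
      ring

end

end GK

end Pool.Agent.Work.MP_5b14b0_lc
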