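import Pool.Agent.Work.MP_5b14b0_lc.RealMk

/-!
# The leaf gadget, part 1: coordinates, the polytope in coordinates
-/

set_option autoImplicit false

namespace Pool.Agent.Work.MP_5b14b0_lc

open Finset

/-! ### The form -/

lemma gl_B_comm (x y : E) : B x y = B y x := by unfold B; ring

lemma gl_B_add_left (x y z : E) : B (x + y) z = B x z + B y z := by
  unfold B; simp only [Pi.add_apply]; ring

lemma gl_B_smul_left (c : ℝ) (x z : E) : B (c • x) z = c * B x z := by
  unfold B; simp only [Pi.smul_apply, smul_eq_mul]; ring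

lemma gl_B_add_right (x y z : E) : B z (x + y) = B z x + B z y := by
  unfold B; simp only [Pi.add_apply]; ring

lemma gl_B_smul_right (c : ℝ) (x z : E) : B z (c • x) = c * B z x := by
  unfold B; simp only [Pi.smul_apply, smul_eq_mul]; ring

lemma gl_B_neg_left (x z : E) : B (-x) z = -B x z := by
  unfold B; simp only [Pi.neg_apply]; ring

lemma gl_B_neg_right (x z : E) : B z (-x) = -B z x := by
  unfold B; simp only [Pi.neg_apply]; ring

/-- `B` as a functional. -/
def glB (y : E) : Du where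
  toFun x := B x y
  map_add' x x' := gl_B_add_left x x' y
  map_smul' c x := gl_B_smul_left c x y

lemma glB_apply (x y : E) : glB y x = B x y := rfl

/-- A light vector in the future of a future unit timelike vector is future. -/
lemma gl_future {x e : E} (he : B e e = -1) (hf : 0 < e 4) (hx : B x x = 0) (hb : B x e < 0) :
    0 < x 4 := by
  by_contra hcon
  push Not at hcon
  unfold B at he hx hb
  have h1 : (x 0 * e 0 + x 1 * e 1 + x 2 * e 2 + x 3 * e 3) ^ 2 ≤
      (x 0 ^ 2 + x 1 ^ 2 + x 2 ^ 2 + x 3 ^ 2) * (e 0 ^ 2 + e 1 ^ 2 + e 2 ^ 2 + e 3 ^ 2) := by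
    linear_combination (sq_nonneg (x 0 * e 1 - x 1 * e 0)) + (sq_nonneg (x 0 * e 2 - x 2 * e 0)) +
      (sq_nonneg (x 0 * e 3 - x 3 * e 0)) + (sq_nonneg (x 1 * e 2 - x 2 * e 1)) +
      (sq_nonneg (x 1 * e 3 - x 3 * e 1)) + (sq_nonneg (x 2 * e 3 - x 3 * e 2))
  have h2 : x 0 ^ 2 + x 1 ^ 2 + x 2 ^ 2 + x 3 ^ 2 = x 4 ^ 2 := by linarith
  have h3 : e 0 ^ 2 + e 1 ^ 2 + e 2 ^ 2 + e 3 ^ 2 = e 4 ^ 2 - 1 := by linarith
  rw [h2, h3] at h1
  have h4 : x 0 * e 0 + x 1 * e 1 + x 2 * e 2 + x 3 * e 3 < x 4 * e 4 := by linarith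
  have h5 : x 4 * e 4 ≤ 0 := mul_nonpos_of_nonpos_of_nonneg hcon hf.le
  have h6 := mul_pos (sub_pos.2 h4)
    (show 0 < -(x 4 * e 4) - (x 0 * e 0 + x 1 * e 1 + x 2 * e 2 + x 3 * e 3) by linarith)
  exact absurd (show (0 : ℝ) < 0 by linear_combination h1 + h6 + sq_nonneg (x 4)) (lt_irrefl 0)

/-! ### An orthonormal basis -/

/-- Lorentz orthonormal basis `e1, e2, e3, e4; e0`. -/
structure GlBasis (e1 e2 e3 e4 e0 : E) : Prop where
  b11 : B e1 e1 = 1
  b22 : B e2 e2 = 1
  b33 : B e3 e3 = 1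
  b44 : B e4 e4 = 1
  b00 : B e0 e0 = -1
  b12 : B e1 e2 = 0
  b13 : B e1 e3 = 0
  b14 : B e1 e4 = 0
  b10 : B e1 e0 = 0
  b23 : B e2 e3 = 0
  b24 : B e2 e4 = 0
  b20 : B e2 e0 = 0
  b34 : B e3 e4 = 0
  b30 : B e3 e0 = 0
  b40 : B e4 e0 = 0

/-- The vector with the given coordinates. -/
def glv (e1 e2 e3 e4 e0 : E) (a : Fin 5 → ℝ) : E :=
  a 0 • e1 + a 1 • e2 + a 2 • e3 + a 3 • e4 + a 4 • e0

/-- The coordinates. -/
def glc (e1 e2 e3 e4 e0 : E) (x : E) : Fin 5 → ℝ :=
  ![B x e1, B x e2, B x e3, B x e4, -B x e0]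

variable {e1 e2 e3 e4 e0 : E}

lemma glc_glv (h : GlBasis e1 e2 e3 e4 e0) (a : Fin 5 → ℝ) :
    glc e1 e2 e3 e4 e0 (glv e1 e2 e3 e4 e0 a) = a := by
  have c21 := (gl_B_comm e2 e1).trans h.b12
  have c31 := (gl_B_comm e3 e1).trans h.b13
  have c41 := (gl_B_comm e4 e1).trans h.b14
  have c01 := (gl_B_comm e0 e1).trans h.b10
  have c32 := (gl_B_comm e3 e2).trans h.b23
  have c42 := (gl_B_comm e4 e2).trans h.b24
  have c02 := (gl_B_comm e0 e2).trans h.b20
  have c43 := (gl_B_comm e4 e3).trans h.b34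
  have c03 := (gl_B_comm e0 e3).trans h.b30
  have c04 := (gl_B_comm e0 e4).trans h.b40
  ext i
  fin_cases i <;>
    simp [glc, glv, gl_B_add_left, gl_B_smul_left, h.b11, h.b22, h.b33, h.b44, h.b00, h.b12,
      h.b13, h.b14, h.b10, h.b23, h.b24, h.b20, h.b34, h.b30, h.b40, c21, c31, c41, c01, c32, c42,
      c02, c43, c03, c04]

lemma glv_glc (h : GlBasis e1 e2 e3 e4 e0) (x : E) :
    glv e1 e2 e3 e4 e0 (glc e1 e2 e3 e4 e0 x) = x := by
  let T : (Fin 5 → ℝ) →ₗ[ℝ] (Fin 5 → ℝ) :=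
    { toFun := fun a => glv e1 e2 e3 e4 e0 a
      map_add' := fun a b => by
        simp only [glv, Pi.add_apply, add_smul]
        abel
      map_smul' := fun c a => by
        simp only [glv, Pi.smul_apply, smul_eq_mul, RingHom.id_apply, smul_add, mul_smul] }
  have hinj : Function.Injective T := by
    intro a b hab
    have := congrArg (glc e1 e2 e3 e4 e0) (show glv e1 e2 e3 e4 e0 a = glv e1 e2 e3 e4 e0 b
      from hab)
    rwa [glc_glv h, glc_glv h] at this
  obtain ⟨a, ha⟩ := (LinearMap.injective_iff_surjective.1 hinj) x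
  have ha' : glv e1 e2 e3 e4 e0 a = x := ha
  rw [← ha', glc_glv h]

lemma glv_sq (h : GlBasis e1 e2 e3 e4 e0) (a : Fin 5 → ℝ) :
    B (glv e1 e2 e3 e4 e0 a) (glv e1 e2 e3 e4 e0 a) =
      a 0 ^ 2 + a 1 ^ 2 + a 2 ^ 2 + a 3 ^ 2 - a 4 ^ 2 := by
  have c21 := (gl_B_comm e2 e1).trans h.b12
  have c31 := (gl_B_comm e3 e1).trans h.b13
  have c41 := (gl_B_comm e4 e1).trans h.b14
  have c01 := (gl_B_comm e0 e1).trans h.b10
  have c32 := (gl_B_comm e3 e2).trans h.b23
  have c42 := (gl_B_comm e4 e2).trans h.b24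
  have c02 := (gl_B_comm e0 e2).trans h.b20
  have c43 := (gl_B_comm e4 e3).trans h.b34
  have c03 := (gl_B_comm e0 e3).trans h.b30
  have c04 := (gl_B_comm e0 e4).trans h.b40
  simp only [glv, gl_B_add_left, gl_B_smul_left, gl_B_add_right, gl_B_smul_right, h.b11, h.b22,
    h.b33, h.b44, h.b00, h.b12, h.b13, h.b14, h.b10, h.b23, h.b24, h.b20, h.b34, h.b30, h.b40,
    c21, c31, c41, c01, c32, c42, c02, c43, c03, c04]
  ring

/-! ### The points and the functionals in coordinates -/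

/-- The facets. The vertices `0, …, 5` are the hexagon, `6` is the apex, `7, …, 12` are
`x 0 0, x 0 1, x 1 0, x 1 1, x 2 0, x 2 1`. -/
def glS : Fin 16 → Finset (Fin 13) :=
  ![{0, 1, 2, 3, 4, 5, 6}, {0, 1, 2, 3, 4, 5, 11, 12}, {0, 5, 7, 8, 6}, {2, 3, 7, 8, 6},
    {0, 1, 7, 6}, {1, 2, 7, 6}, {5, 4, 8, 6}, {4, 3, 8, 6}, {0, 5, 7, 8, 9, 10},
    {2, 3, 7, 8, 9, 10}, {0, 5, 9, 10, 11, 12}, {2, 3, 9, 10, 11, 12}, {1, 7, 9, 11, 0},
    {1, 7, 9, 11, 2}, {4, 8, 10, 12, 5}, {4, 8, 10, 12, 3}]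

/-- Coordinates `(x1, x2, x3, x4, τ)` of the vertices. -/
noncomputable def glP (s t c R : ℝ) : Fin 13 → Fin 5 → ℝ :=
  ![![c, -s, 0, 0, 1], ![R, t, 0, 0, 1], ![c, s, 0, 0, 1], ![-c, s, 0, 0, 1], ![-R, t, 0, 0, 1],
    ![-c, -s, 0, 0, 1], ![0, 0, 1, 0, 1],
    ![3 * R / 5, t, 0, 4 * R / 5, 1], ![-(3 * R / 5), t, 0, 4 * R / 5, 1],
    ![2 * R / 3, t, -(R / 3), 2 * R / 3, 1], ![-(2 * R / 3), t, -(R / 3), 2 * R / 3, 1],
    ![7 * R / 9, t, -(4 * R / 9), 4 * R / 9, 1], ![-(7 * R / 9), t, -(4 * R / 9), 4 * R / 9, 1]]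

/-- The functionals. -/
noncomputable def glN (s t c R : ℝ) : Fin 16 → Fin 5 → ℝ :=
  ![![0, 0, 0, 1, 0], ![0, 0, 1, 1, 0],
    ![0, R, -(R * s), -(5 / 4 * (s + t)), R * s],
    ![0, -R, -(R * s), -(5 / 4 * (s - t)), R * s],
    ![-(s + t), R - c, -(c * t + R * s), -((s + t) / 2), c * t + R * s],
    ![-(s - t), -(R - c), -(R * s - c * t), -((s - t) / 2), R * s - c * t],
    ![s + t, R - c, -(c * t + R * s), -((s + t) / 2), c * t + R * s],
    ![s - t, -(R - c), -(R * s - c * t), -((s - t) / 2), R * s - c * t],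
    ![0, 2 * R, s + t, -(5 / 2 * (s + t)), 2 * R * s],
    ![0, -(2 * R), s - t, -(5 / 2 * (s - t)), 2 * R * s],
    ![0, 4 * R, 6 * (s + t), -(3 * (s + t)), 4 * R * s],
    ![0, -(4 * R), 6 * (s - t), -(3 * (s - t)), 4 * R * s],
    ![-(s + t), R - c, 0, -((s + t) / 2), c * t + R * s],
    ![-(s - t), -(R - c), 0, -((s - t) / 2), R * s - c * t],
    ![s + t, R - c, 0, -((s + t) / 2), c * t + R * s],
    ![s - t, -(R - c), 0, -((s - t) / 2), R * s - c * t]]

/-- Pairing. -/
def glp (n x : Fin 5 → ℝ) : ℝ := n 0 * x 0 + n 1 * x 1 + n 2 * x 2 + n 3 * x 3 + n 4 * x 4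

/-- Conditions on the parameters. -/
structure GlPar (s t c R : ℝ) : Prop where
  hs : 0 < s
  h1 : 0 < s + t
  h2 : 0 < s - t
  hc : 0 < c
  hRc : 0 < R - c
  cc : c ^ 2 = 1 - s ^ 2
  RR : R ^ 2 = 1 - t ^ 2

/-- Positive quantities. -/
structure GlPos (s t c R : ℝ) : Prop where
  R0 : 0 < R
  p1 : 0 < R * (s + t)
  p2 : 0 < R * (s - t)
  p3 : 0 < c * (s + t)
  p4 : 0 < c * (s - t)
  p5 : 0 < s * (R - c)
  p6 : 0 < c * t + R * s
  p7 : 0 < R * s - c * t
  p8 : 0 < R * (c * t + R * s)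
  p9 : 0 < R * (R * s - c * t)
  p10 : 0 < R * s
  p11 : 0 < c * s
  p12 : 0 < R * (R * s)

lemma GlPar.pos {s t c R : ℝ} (h : GlPar s t c R) : GlPos s t c R := by
  obtain ⟨hs, h1, h2, hc, hRc, -, -⟩ := h
  have hR : 0 < R := by linarith
  have p1 : 0 < R * (s + t) := by positivity
  have p2 : 0 < R * (s - t) := by positivity
  have p3 : 0 < c * (s + t) := by positivity
  have p4 : 0 < c * (s - t) := by positivity
  have p5 : 0 < s * (R - c) := by positivity
  have p6 : 0 < c * t + R * s := by linear_combination p3 + p5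
  have p7 : 0 < R * s - c * t := by linear_combination p4 + p5
  have p8 : 0 < R * (c * t + R * s) := by positivity
  have p9 : 0 < R * (R * s - c * t) := by positivity
  have p10 : 0 < R * s := by positivity
  have p11 : 0 < c * s := by positivity
  have p12 : 0 < R * (R * s) := by positivity
  exact ⟨hR, p1, p2, p3, p4, p5, p6, p7, p8, p9, p10, p11, p12⟩

lemma glp_mk (a0 a1 a2 a3 a4 b0 b1 b2 b3 b4 : ℝ) :
    glp ![a0, a1, a2, a3, a4] ![b0, b1, b2, b3, b4] =
      a0 * b0 + a1 * b1 + a2 * b2 + a3 * b3 + a4 * b4 := rfl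

lemma glN_r0 (s t c R : ℝ) : glN s t c R 0 =
    ![0, 0, 0, 1, 0] := rfl

lemma glN_r1 (s t c R : ℝ) : glN s t c R 1 =
    ![0, 0, 1, 1, 0] := rfl

lemma glN_r2 (s t c R : ℝ) : glN s t c R 2 =
    ![0, R, -(R * s), -(5 / 4 * (s + t)), R * s] := rfl

lemma glN_r3 (s t c R : ℝ) : glN s t c R 3 =
    ![0, -R, -(R * s), -(5 / 4 * (s - t)), R * s] := rfl

lemma glN_r4 (s t c R : ℝ) : glN s t c R 4 =
    ![-(s + t), R - c, -(c * t + R * s), -((s + t) / 2), c * t + R * s] := rfl

lemma glN_r5 (s t c R : ℝ) : glN s t c R 5 =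
    ![-(s - t), -(R - c), -(R * s - c * t), -((s - t) / 2), R * s - c * t] := rfl

lemma glN_r6 (s t c R : ℝ) : glN s t c R 6 =
    ![s + t, R - c, -(c * t + R * s), -((s + t) / 2), c * t + R * s] := rfl

lemma glN_r7 (s t c R : ℝ) : glN s t c R 7 =
    ![s - t, -(R - c), -(R * s - c * t), -((s - t) / 2), R * s - c * t] := rfl

lemma glN_r8 (s t c R : ℝ) : glN s t c R 8 =
    ![0, 2 * R, s + t, -(5 / 2 * (s + t)), 2 * R * s] := rfl

lemma glN_r9 (s t c R : ℝ) : glN s t c R 9 =
    ![0, -(2 * R), s - t, -(5 / 2 * (s - t)), 2 * R * s] := rfl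

lemma glN_r10 (s t c R : ℝ) : glN s t c R 10 =
    ![0, 4 * R, 6 * (s + t), -(3 * (s + t)), 4 * R * s] := rfl

lemma glN_r11 (s t c R : ℝ) : glN s t c R 11 =
    ![0, -(4 * R), 6 * (s - t), -(3 * (s - t)), 4 * R * s] := rfl

lemma glN_r12 (s t c R : ℝ) : glN s t c R 12 =
    ![-(s + t), R - c, 0, -((s + t) / 2), c * t + R * s] := rfl

lemma glN_r13 (s t c R : ℝ) : glN s t c R 13 =
    ![-(s - t), -(R - c), 0, -((s - t) / 2), R * s - c * t] := rfl

lemma glN_r14 (s t c R : ℝ) : glN s t c R 14 =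
    ![s + t, R - c, 0, -((s + t) / 2), c * t + R * s] := rfl

lemma glN_r15 (s t c R : ℝ) : glN s t c R 15 =
    ![s - t, -(R - c), 0, -((s - t) / 2), R * s - c * t] := rfl

lemma glP_r0 (s t c R : ℝ) : glP s t c R 0 =
    ![c, -s, 0, 0, 1] := rfl

lemma glP_r1 (s t c R : ℝ) : glP s t c R 1 =
    ![R, t, 0, 0, 1] := rfl

lemma glP_r2 (s t c R : ℝ) : glP s t c R 2 =
    ![c, s, 0, 0, 1] := rfl

lemma glP_r3 (s t c R : ℝ) : glP s t c R 3 =
    ![-c, s, 0, 0, 1] := rfl

lemma glP_r4 (s t c R : ℝ) : glP s t c R 4 =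
    ![-R, t, 0, 0, 1] := rfl

lemma glP_r5 (s t c R : ℝ) : glP s t c R 5 =
    ![-c, -s, 0, 0, 1] := rfl

lemma glP_r6 (s t c R : ℝ) : glP s t c R 6 =
    ![0, 0, 1, 0, 1] := rfl

lemma glP_r7 (s t c R : ℝ) : glP s t c R 7 =
    ![3 * R / 5, t, 0, 4 * R / 5, 1] := rfl

lemma glP_r8 (s t c R : ℝ) : glP s t c R 8 =
    ![-(3 * R / 5), t, 0, 4 * R / 5, 1] := rfl

lemma glP_r9 (s t c R : ℝ) : glP s t c R 9 =
    ![2 * R / 3, t, -(R / 3), 2 * R / 3, 1] := rfl

lemma glP_r10 (s t c R : ℝ) : glP s t c R 10 =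
    ![-(2 * R / 3), t, -(R / 3), 2 * R / 3, 1] := rfl

lemma glP_r11 (s t c R : ℝ) : glP s t c R 11 =
    ![7 * R / 9, t, -(4 * R / 9), 4 * R / 9, 1] := rfl

lemma glP_r12 (s t c R : ℝ) : glP s t c R 12 =
    ![-(7 * R / 9), t, -(4 * R / 9), 4 * R / 9, 1] := rfl

lemma gl_tabZ {v : ℝ} {p : Prop} (hp : p) (hv : v = 0) : (p → v = 0) ∧ (¬ p → 0 < v) :=
  ⟨fun _ => hv, fun h => absurd hp h⟩

lemma gl_tabP {v : ℝ} {p : Prop} (hp : ¬ p) (hv : 0 < v) : (p → v = 0) ∧ (¬ p → 0 < v) :=
  ⟨fun h => absurd h hp, fun _ => hv⟩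

lemma gl_fin13 {Q : Fin 13 → Prop} (h0 : Q 0) (h1 : Q 1) (h2 : Q 2) (h3 : Q 3) (h4 : Q 4)
    (h5 : Q 5) (h6 : Q 6) (h7 : Q 7) (h8 : Q 8) (h9 : Q 9) (h10 : Q 10) (h11 : Q 11)
    (h12 : Q 12) : ∀ k, Q k := by
  intro k
  fin_cases k
  exacts [h0, h1, h2, h3, h4, h5, h6, h7, h8, h9, h10, h11, h12]

lemma glN_table0 {s t c R : ℝ} (h : GlPar s t c R) : ∀ k : Fin 13,
    (k ∈ glS 0 → glp (glN s t c R 0) (glP s t c R k) = 0) ∧
    (k ∉ glS 0 → 0 < glp (glN s t c R 0) (glP s t c R k)) := by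
  have g := h.pos
  rw [glN_r0]
  apply gl_fin13
  · exact gl_tabZ (by decide) (by rw [glP_r0, glp_mk]; ring)
  · exact gl_tabZ (by decide) (by rw [glP_r1, glp_mk]; ring)
  · exact gl_tabZ (by decide) (by rw [glP_r2, glp_mk]; ring)
  · exact gl_tabZ (by decide) (by rw [glP_r3, glp_mk]; ring)
  · exact gl_tabZ (by decide) (by rw [glP_r4, glp_mk]; ring)
  · exact gl_tabZ (by decide) (by rw [glP_r5, glp_mk]; ring)
  · exact gl_tabZ (by decide) (by rw [glP_r6, glp_mk]; ring)
  · exact gl_tabP (by decide)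
      (by rw [glP_r7, glp_mk]; linear_combination (4 / 5) * g.R0)
  · exact gl_tabP (by decide)
      (by rw [glP_r8, glp_mk]; linear_combination (4 / 5) * g.R0)
  · exact gl_tabP (by decide)
      (by rw [glP_r9, glp_mk]; linear_combination (2 / 3) * g.R0)
  · exact gl_tabP (by decide)
      (by rw [glP_r10, glp_mk]; linear_combination (2 / 3) * g.R0)
  · exact gl_tabP (by decide)
      (by rw [glP_r11, glp_mk]; linear_combination (4 / 9) * g.R0)
  · exact gl_tabP (by decide)
      (by rw [glP_r12, glp_mk]; linear_combination (4 / 9) * g.R0)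

lemma glN_table1 {s t c R : ℝ} (h : GlPar s t c R) : ∀ k : Fin 13,
    (k ∈ glS 1 → glp (glN s t c R 1) (glP s t c R k) = 0) ∧
    (k ∉ glS 1 → 0 < glp (glN s t c R 1) (glP s t c R k)) := by
  have g := h.pos
  rw [glN_r1]
  apply gl_fin13
  · exact gl_tabZ (by decide) (by rw [glP_r0, glp_mk]; ring)
  · exact gl_tabZ (by decide) (by rw [glP_r1, glp_mk]; ring)
  · exact gl_tabZ (by decide) (by rw [glP_r2, glp_mk]; ring)
  · exact gl_tabZ (by decide) (by rw [glP_r3, glp_mk]; ring)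
  · exact gl_tabZ (by decide) (by rw [glP_r4, glp_mk]; ring)
  · exact gl_tabZ (by decide) (by rw [glP_r5, glp_mk]; ring)
  · exact gl_tabP (by decide) (by rw [glP_r6, glp_mk]; norm_num)
  · exact gl_tabP (by decide)
      (by rw [glP_r7, glp_mk]; linear_combination (4 / 5) * g.R0)
  · exact gl_tabP (by decide)
      (by rw [glP_r8, glp_mk]; linear_combination (4 / 5) * g.R0)
  · exact gl_tabP (by decide)
      (by rw [glP_r9, glp_mk]; linear_combination (1 / 3) * g.R0)
  · exact gl_tabP (by decide)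
      (by rw [glP_r10, glp_mk]; linear_combination (1 / 3) * g.R0)
  · exact gl_tabZ (by decide) (by rw [glP_r11, glp_mk]; ring)
  · exact gl_tabZ (by decide) (by rw [glP_r12, glp_mk]; ring)

lemma glN_table2 {s t c R : ℝ} (h : GlPar s t c R) : ∀ k : Fin 13,
    (k ∈ glS 2 → glp (glN s t c R 2) (glP s t c R k) = 0) ∧
    (k ∉ glS 2 → 0 < glp (glN s t c R 2) (glP s t c R k)) := by
  have g := h.pos
  rw [glN_r2]
  apply gl_fin13
  · exact gl_tabZ (by decide) (by rw [glP_r0, glp_mk]; ring)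
  · exact gl_tabP (by decide)
      (by rw [glP_r1, glp_mk]; linear_combination g.p1)
  · exact gl_tabP (by decide)
      (by rw [glP_r2, glp_mk]; linear_combination 2 * g.p10)
  · exact gl_tabP (by decide)
      (by rw [glP_r3, glp_mk]; linear_combination 2 * g.p10)
  · exact gl_tabP (by decide)
      (by rw [glP_r4, glp_mk]; linear_combination g.p1)
  · exact gl_tabZ (by decide) (by rw [glP_r5, glp_mk]; ring)
  · exact gl_tabZ (by decide) (by rw [glP_r6, glp_mk]; ring)
  · exact gl_tabZ (by decide) (by rw [glP_r7, glp_mk]; ring)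
  · exact gl_tabZ (by decide) (by rw [glP_r8, glp_mk]; ring)
  · exact gl_tabP (by decide)
      (by rw [glP_r9, glp_mk]; linear_combination (1 / 6) * g.p1 + (1 / 3) * g.p12)
  · exact gl_tabP (by decide)
      (by rw [glP_r10, glp_mk]; linear_combination (1 / 6) * g.p1 + (1 / 3) * g.p12)
  · exact gl_tabP (by decide)
      (by rw [glP_r11, glp_mk]; linear_combination (4 / 9) * g.p1 + (4 / 9) * g.p12)
  · exact gl_tabP (by decide)
      (by rw [glP_r12, glp_mk]; linear_combination (4 / 9) * g.p1 + (4 / 9) * g.p12)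

lemma glN_table3 {s t c R : ℝ} (h : GlPar s t c R) : ∀ k : Fin 13,
    (k ∈ glS 3 → glp (glN s t c R 3) (glP s t c R k) = 0) ∧
    (k ∉ glS 3 → 0 < glp (glN s t c R 3) (glP s t c R k)) := by
  have g := h.pos
  rw [glN_r3]
  apply gl_fin13
  · exact gl_tabP (by decide)
      (by rw [glP_r0, glp_mk]; linear_combination 2 * g.p10)
  · exact gl_tabP (by decide)
      (by rw [glP_r1, glp_mk]; linear_combination g.p2)
  · exact gl_tabZ (by decide) (by rw [glP_r2, glp_mk]; ring)
  · exact gl_tabZ (by decide) (by rw [glP_r3, glp_mk]; ring)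
  · exact gl_tabP (by decide)
      (by rw [glP_r4, glp_mk]; linear_combination g.p2)
  · exact gl_tabP (by decide)
      (by rw [glP_r5, glp_mk]; linear_combination 2 * g.p10)
  · exact gl_tabZ (by decide) (by rw [glP_r6, glp_mk]; ring)
  · exact gl_tabZ (by decide) (by rw [glP_r7, glp_mk]; ring)
  · exact gl_tabZ (by decide) (by rw [glP_r8, glp_mk]; ring)
  · exact gl_tabP (by decide)
      (by rw [glP_r9, glp_mk]; linear_combination (1 / 6) * g.p2 + (1 / 3) * g.p12)
  · exact gl_tabP (by decide)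
      (by rw [glP_r10, glp_mk]; linear_combination (1 / 6) * g.p2 + (1 / 3) * g.p12)
  · exact gl_tabP (by decide)
      (by rw [glP_r11, glp_mk]; linear_combination (4 / 9) * g.p2 + (4 / 9) * g.p12)
  · exact gl_tabP (by decide)
      (by rw [glP_r12, glp_mk]; linear_combination (4 / 9) * g.p2 + (4 / 9) * g.p12)

lemma glN_table4 {s t c R : ℝ} (h : GlPar s t c R) : ∀ k : Fin 13,
    (k ∈ glS 4 → glp (glN s t c R 4) (glP s t c R k) = 0) ∧
    (k ∉ glS 4 → 0 < glp (glN s t c R 4) (glP s t c R k)) := by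
  have g := h.pos
  rw [glN_r4]
  apply gl_fin13
  · exact gl_tabZ (by decide) (by rw [glP_r0, glp_mk]; ring)
  · exact gl_tabZ (by decide) (by rw [glP_r1, glp_mk]; ring)
  · exact gl_tabP (by decide)
      (by rw [glP_r2, glp_mk]; linear_combination 2 * g.p5)
  · exact gl_tabP (by decide)
      (by rw [glP_r3, glp_mk]; linear_combination 2 * g.p6)
  · exact gl_tabP (by decide)
      (by rw [glP_r4, glp_mk]; linear_combination 2 * g.p1)
  · exact gl_tabP (by decide)
      (by rw [glP_r5, glp_mk]; linear_combination 2 * g.p3)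
  · exact gl_tabZ (by decide) (by rw [glP_r6, glp_mk]; ring)
  · exact gl_tabZ (by decide) (by rw [glP_r7, glp_mk]; ring)
  · exact gl_tabP (by decide)
      (by rw [glP_r8, glp_mk]; linear_combination (6 / 5) * g.p1)
  · exact gl_tabP (by decide)
      (by rw [glP_r9, glp_mk]; linear_combination (1 / 3) * g.p8)
  · exact gl_tabP (by decide)
      (by rw [glP_r10, glp_mk]; linear_combination (4 / 3) * g.p1 + (1 / 3) * g.p8)
  · exact gl_tabP (by decide)
      (by rw [glP_r11, glp_mk]; linear_combination (4 / 9) * g.p8)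
  · exact gl_tabP (by decide)
      (by rw [glP_r12, glp_mk]; linear_combination (14 / 9) * g.p1 + (4 / 9) * g.p8)

lemma glN_table5 {s t c R : ℝ} (h : GlPar s t c R) : ∀ k : Fin 13,
    (k ∈ glS 5 → glp (glN s t c R 5) (glP s t c R k) = 0) ∧
    (k ∉ glS 5 → 0 < glp (glN s t c R 5) (glP s t c R k)) := by
  have g := h.pos
  rw [glN_r5]
  apply gl_fin13
  · exact gl_tabP (by decide)
      (by rw [glP_r0, glp_mk]; linear_combination 2 * g.p5)
  · exact gl_tabZ (by decide) (by rw [glP_r1, glp_mk]; ring)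
  · exact gl_tabZ (by decide) (by rw [glP_r2, glp_mk]; ring)
  · exact gl_tabP (by decide)
      (by rw [glP_r3, glp_mk]; linear_combination 2 * g.p4)
  · exact gl_tabP (by decide)
      (by rw [glP_r4, glp_mk]; linear_combination 2 * g.p2)
  · exact gl_tabP (by decide)
      (by rw [glP_r5, glp_mk]; linear_combination 2 * g.p7)
  · exact gl_tabZ (by decide) (by rw [glP_r6, glp_mk]; ring)
  · exact gl_tabZ (by decide) (by rw [glP_r7, glp_mk]; ring)
  · exact gl_tabP (by decide)
      (by rw [glP_r8, glp_mk]; linear_combination (6 / 5) * g.p2)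
  · exact gl_tabP (by decide)
      (by rw [glP_r9, glp_mk]; linear_combination (1 / 3) * g.p9)
  · exact gl_tabP (by decide)
      (by rw [glP_r10, glp_mk]; linear_combination (4 / 3) * g.p2 + (1 / 3) * g.p9)
  · exact gl_tabP (by decide)
      (by rw [glP_r11, glp_mk]; linear_combination (4 / 9) * g.p9)
  · exact gl_tabP (by decide)
      (by rw [glP_r12, glp_mk]; linear_combination (14 / 9) * g.p2 + (4 / 9) * g.p9)

lemma glN_table6 {s t c R : ℝ} (h : GlPar s t c R) : ∀ k : Fin 13,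
    (k ∈ glS 6 → glp (glN s t c R 6) (glP s t c R k) = 0) ∧
    (k ∉ glS 6 → 0 < glp (glN s t c R 6) (glP s t c R k)) := by
  have g := h.pos
  rw [glN_r6]
  apply gl_fin13
  · exact gl_tabP (by decide)
      (by rw [glP_r0, glp_mk]; linear_combination 2 * g.p3)
  · exact gl_tabP (by decide)
      (by rw [glP_r1, glp_mk]; linear_combination 2 * g.p1)
  · exact gl_tabP (by decide)
      (by rw [glP_r2, glp_mk]; linear_combination 2 * g.p6)
  · exact gl_tabP (by decide)
      (by rw [glP_r3, glp_mk]; linear_combination 2 * g.p5)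
  · exact gl_tabZ (by decide) (by rw [glP_r4, glp_mk]; ring)
  · exact gl_tabZ (by decide) (by rw [glP_r5, glp_mk]; ring)
  · exact gl_tabZ (by decide) (by rw [glP_r6, glp_mk]; ring)
  · exact gl_tabP (by decide)
      (by rw [glP_r7, glp_mk]; linear_combination (6 / 5) * g.p1)
  · exact gl_tabZ (by decide) (by rw [glP_r8, glp_mk]; ring)
  · exact gl_tabP (by decide)
      (by rw [glP_r9, glp_mk]; linear_combination (4 / 3) * g.p1 + (1 / 3) * g.p8)
  · exact gl_tabP (by decide)
      (by rw [glP_r10, glp_mk]; linear_combination (1 / 3) * g.p8)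
  · exact gl_tabP (by decide)
      (by rw [glP_r11, glp_mk]; linear_combination (14 / 9) * g.p1 + (4 / 9) * g.p8)
  · exact gl_tabP (by decide)
      (by rw [glP_r12, glp_mk]; linear_combination (4 / 9) * g.p8)

lemma glN_table7 {s t c R : ℝ} (h : GlPar s t c R) : ∀ k : Fin 13,
    (k ∈ glS 7 → glp (glN s t c R 7) (glP s t c R k) = 0) ∧
    (k ∉ glS 7 → 0 < glp (glN s t c R 7) (glP s t c R k)) := by
  have g := h.pos
  rw [glN_r7]
  apply gl_fin13
  · exact gl_tabP (by decide)
      (by rw [glP_r0, glp_mk]; linear_combination 2 * g.p7)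
  · exact gl_tabP (by decide)
      (by rw [glP_r1, glp_mk]; linear_combination 2 * g.p2)
  · exact gl_tabP (by decide)
      (by rw [glP_r2, glp_mk]; linear_combination 2 * g.p4)
  · exact gl_tabZ (by decide) (by rw [glP_r3, glp_mk]; ring)
  · exact gl_tabZ (by decide) (by rw [glP_r4, glp_mk]; ring)
  · exact gl_tabP (by decide)
      (by rw [glP_r5, glp_mk]; linear_combination 2 * g.p5)
  · exact gl_tabZ (by decide) (by rw [glP_r6, glp_mk]; ring)
  · exact gl_tabP (by decide)
      (by rw [glP_r7, glp_mk]; linear_combination (6 / 5) * g.p2)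
  · exact gl_tabZ (by decide) (by rw [glP_r8, glp_mk]; ring)
  · exact gl_tabP (by decide)
      (by rw [glP_r9, glp_mk]; linear_combination (4 / 3) * g.p2 + (1 / 3) * g.p9)
  · exact gl_tabP (by decide)
      (by rw [glP_r10, glp_mk]; linear_combination (1 / 3) * g.p9)
  · exact gl_tabP (by decide)
      (by rw [glP_r11, glp_mk]; linear_combination (14 / 9) * g.p2 + (4 / 9) * g.p9)
  · exact gl_tabP (by decide)
      (by rw [glP_r12, glp_mk]; linear_combination (4 / 9) * g.p9)

lemma glN_table8 {s t c R : ℝ} (h : GlPar s t c R) : ∀ k : Fin 13,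
    (k ∈ glS 8 → glp (glN s t c R 8) (glP s t c R k) = 0) ∧
    (k ∉ glS 8 → 0 < glp (glN s t c R 8) (glP s t c R k)) := by
  have g := h.pos
  rw [glN_r8]
  apply gl_fin13
  · exact gl_tabZ (by decide) (by rw [glP_r0, glp_mk]; ring)
  · exact gl_tabP (by decide)
      (by rw [glP_r1, glp_mk]; linear_combination 2 * g.p1)
  · exact gl_tabP (by decide)
      (by rw [glP_r2, glp_mk]; linear_combination 4 * g.p10)
  · exact gl_tabP (by decide)
      (by rw [glP_r3, glp_mk]; linear_combination 4 * g.p10)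
  · exact gl_tabP (by decide)
      (by rw [glP_r4, glp_mk]; linear_combination 2 * g.p1)
  · exact gl_tabZ (by decide) (by rw [glP_r5, glp_mk]; ring)
  · exact gl_tabP (by decide)
      (by rw [glP_r6, glp_mk]; linear_combination h.h1 + 2 * g.p10)
  · exact gl_tabZ (by decide) (by rw [glP_r7, glp_mk]; ring)
  · exact gl_tabZ (by decide) (by rw [glP_r8, glp_mk]; ring)
  · exact gl_tabZ (by decide) (by rw [glP_r9, glp_mk]; ring)
  · exact gl_tabZ (by decide) (by rw [glP_r10, glp_mk]; ring)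
  · exact gl_tabP (by decide)
      (by rw [glP_r11, glp_mk]; linear_combination (4 / 9) * g.p1)
  · exact gl_tabP (by decide)
      (by rw [glP_r12, glp_mk]; linear_combination (4 / 9) * g.p1)

lemma glN_table9 {s t c R : ℝ} (h : GlPar s t c R) : ∀ k : Fin 13,
    (k ∈ glS 9 → glp (glN s t c R 9) (glP s t c R k) = 0) ∧
    (k ∉ glS 9 → 0 < glp (glN s t c R 9) (glP s t c R k)) := by
  have g := h.pos
  rw [glN_r9]
  apply gl_fin13
  · exact gl_tabP (by decide)
      (by rw [glP_r0, glp_mk]; linear_combination 4 * g.p10)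
  · exact gl_tabP (by decide)
      (by rw [glP_r1, glp_mk]; linear_combination 2 * g.p2)
  · exact gl_tabZ (by decide) (by rw [glP_r2, glp_mk]; ring)
  · exact gl_tabZ (by decide) (by rw [glP_r3, glp_mk]; ring)
  · exact gl_tabP (by decide)
      (by rw [glP_r4, glp_mk]; linear_combination 2 * g.p2)
  · exact gl_tabP (by decide)
      (by rw [glP_r5, glp_mk]; linear_combination 4 * g.p10)
  · exact gl_tabP (by decide)
      (by rw [glP_r6, glp_mk]; linear_combination h.h2 + 2 * g.p10)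
  · exact gl_tabZ (by decide) (by rw [glP_r7, glp_mk]; ring)
  · exact gl_tabZ (by decide) (by rw [glP_r8, glp_mk]; ring)
  · exact gl_tabZ (by decide) (by rw [glP_r9, glp_mk]; ring)
  · exact gl_tabZ (by decide) (by rw [glP_r10, glp_mk]; ring)
  · exact gl_tabP (by decide)
      (by rw [glP_r11, glp_mk]; linear_combination (4 / 9) * g.p2)
  · exact gl_tabP (by decide)
      (by rw [glP_r12, glp_mk]; linear_combination (4 / 9) * g.p2)

lemma glN_table10 {s t c R : ℝ} (h : GlPar s t c R) : ∀ k : Fin 13,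
    (k ∈ glS 10 → glp (glN s t c R 10) (glP s t c R k) = 0) ∧
    (k ∉ glS 10 → 0 < glp (glN s t c R 10) (glP s t c R k)) := by
  have g := h.pos
  rw [glN_r10]
  apply gl_fin13
  · exact gl_tabZ (by decide) (by rw [glP_r0, glp_mk]; ring)
  · exact gl_tabP (by decide)
      (by rw [glP_r1, glp_mk]; linear_combination 4 * g.p1)
  · exact gl_tabP (by decide)
      (by rw [glP_r2, glp_mk]; linear_combination 8 * g.p10)
  · exact gl_tabP (by decide)
      (by rw [glP_r3, glp_mk]; linear_combination 8 * g.p10)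
  · exact gl_tabP (by decide)
      (by rw [glP_r4, glp_mk]; linear_combination 4 * g.p1)
  · exact gl_tabZ (by decide) (by rw [glP_r5, glp_mk]; ring)
  · exact gl_tabP (by decide)
      (by rw [glP_r6, glp_mk]; linear_combination 6 * h.h1 + 4 * g.p10)
  · exact gl_tabP (by decide)
      (by rw [glP_r7, glp_mk]; linear_combination (8 / 5) * g.p1)
  · exact gl_tabP (by decide)
      (by rw [glP_r8, glp_mk]; linear_combination (8 / 5) * g.p1)
  · exact gl_tabZ (by decide) (by rw [glP_r9, glp_mk]; ring)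
  · exact gl_tabZ (by decide) (by rw [glP_r10, glp_mk]; ring)
  · exact gl_tabZ (by decide) (by rw [glP_r11, glp_mk]; ring)
  · exact gl_tabZ (by decide) (by rw [glP_r12, glp_mk]; ring)

lemma glN_table11 {s t c R : ℝ} (h : GlPar s t c R) : ∀ k : Fin 13,
    (k ∈ glS 11 → glp (glN s t c R 11) (glP s t c R k) = 0) ∧
    (k ∉ glS 11 → 0 < glp (glN s t c R 11) (glP s t c R k)) := by
  have g := h.pos
  rw [glN_r11]
  apply gl_fin13
  · exact gl_tabP (by decide)
      (by rw [glP_r0, glp_mk]; linear_combination 8 * g.p10)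
  · exact gl_tabP (by decide)
      (by rw [glP_r1, glp_mk]; linear_combination 4 * g.p2)
  · exact gl_tabZ (by decide) (by rw [glP_r2, glp_mk]; ring)
  · exact gl_tabZ (by decide) (by rw [glP_r3, glp_mk]; ring)
  · exact gl_tabP (by decide)
      (by rw [glP_r4, glp_mk]; linear_combination 4 * g.p2)
  · exact gl_tabP (by decide)
      (by rw [glP_r5, glp_mk]; linear_combination 8 * g.p10)
  · exact gl_tabP (by decide)
      (by rw [glP_r6, glp_mk]; linear_combination 6 * h.h2 + 4 * g.p10)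
  · exact gl_tabP (by decide)
      (by rw [glP_r7, glp_mk]; linear_combination (8 / 5) * g.p2)
  · exact gl_tabP (by decide)
      (by rw [glP_r8, glp_mk]; linear_combination (8 / 5) * g.p2)
  · exact gl_tabZ (by decide) (by rw [glP_r9, glp_mk]; ring)
  · exact gl_tabZ (by decide) (by rw [glP_r10, glp_mk]; ring)
  · exact gl_tabZ (by decide) (by rw [glP_r11, glp_mk]; ring)
  · exact gl_tabZ (by decide) (by rw [glP_r12, glp_mk]; ring)

lemma glN_table12 {s t c R : ℝ} (h : GlPar s t c R) : ∀ k : Fin 13,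
    (k ∈ glS 12 → glp (glN s t c R 12) (glP s t c R k) = 0) ∧
    (k ∉ glS 12 → 0 < glp (glN s t c R 12) (glP s t c R k)) := by
  have g := h.pos
  rw [glN_r12]
  apply gl_fin13
  · exact gl_tabZ (by decide) (by rw [glP_r0, glp_mk]; ring)
  · exact gl_tabZ (by decide) (by rw [glP_r1, glp_mk]; ring)
  · exact gl_tabP (by decide)
      (by rw [glP_r2, glp_mk]; linear_combination 2 * g.p5)
  · exact gl_tabP (by decide)
      (by rw [glP_r3, glp_mk]; linear_combination 2 * g.p6)
  · exact gl_tabP (by decide)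
      (by rw [glP_r4, glp_mk]; linear_combination 2 * g.p1)
  · exact gl_tabP (by decide)
      (by rw [glP_r5, glp_mk]; linear_combination 2 * g.p3)
  · exact gl_tabP (by decide)
      (by rw [glP_r6, glp_mk]; linear_combination g.p6)
  · exact gl_tabZ (by decide) (by rw [glP_r7, glp_mk]; ring)
  · exact gl_tabP (by decide)
      (by rw [glP_r8, glp_mk]; linear_combination (6 / 5) * g.p1)
  · exact gl_tabZ (by decide) (by rw [glP_r9, glp_mk]; ring)
  · exact gl_tabP (by decide)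
      (by rw [glP_r10, glp_mk]; linear_combination (4 / 3) * g.p1)
  · exact gl_tabZ (by decide) (by rw [glP_r11, glp_mk]; ring)
  · exact gl_tabP (by decide)
      (by rw [glP_r12, glp_mk]; linear_combination (14 / 9) * g.p1)

lemma glN_table13 {s t c R : ℝ} (h : GlPar s t c R) : ∀ k : Fin 13,
    (k ∈ glS 13 → glp (glN s t c R 13) (glP s t c R k) = 0) ∧
    (k ∉ glS 13 → 0 < glp (glN s t c R 13) (glP s t c R k)) := by
  have g := h.pos
  rw [glN_r13]
  apply gl_fin13
  · exact gl_tabP (by decide)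
      (by rw [glP_r0, glp_mk]; linear_combination 2 * g.p5)
  · exact gl_tabZ (by decide) (by rw [glP_r1, glp_mk]; ring)
  · exact gl_tabZ (by decide) (by rw [glP_r2, glp_mk]; ring)
  · exact gl_tabP (by decide)
      (by rw [glP_r3, glp_mk]; linear_combination 2 * g.p4)
  · exact gl_tabP (by decide)
      (by rw [glP_r4, glp_mk]; linear_combination 2 * g.p2)
  · exact gl_tabP (by decide)
      (by rw [glP_r5, glp_mk]; linear_combination 2 * g.p7)
  · exact gl_tabP (by decide)
      (by rw [glP_r6, glp_mk]; linear_combination g.p7)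
  · exact gl_tabZ (by decide) (by rw [glP_r7, glp_mk]; ring)
  · exact gl_tabP (by decide)
      (by rw [glP_r8, glp_mk]; linear_combination (6 / 5) * g.p2)
  · exact gl_tabZ (by decide) (by rw [glP_r9, glp_mk]; ring)
  · exact gl_tabP (by decide)
      (by rw [glP_r10, glp_mk]; linear_combination (4 / 3) * g.p2)
  · exact gl_tabZ (by decide) (by rw [glP_r11, glp_mk]; ring)
  · exact gl_tabP (by decide)
      (by rw [glP_r12, glp_mk]; linear_combination (14 / 9) * g.p2)

lemma glN_table14 {s t c R : ℝ} (h : GlPar s t c R) : ∀ k : Fin 13,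
    (k ∈ glS 14 → glp (glN s t c R 14) (glP s t c R k) = 0) ∧
    (k ∉ glS 14 → 0 < glp (glN s t c R 14) (glP s t c R k)) := by
  have g := h.pos
  rw [glN_r14]
  apply gl_fin13
  · exact gl_tabP (by decide)
      (by rw [glP_r0, glp_mk]; linear_combination 2 * g.p3)
  · exact gl_tabP (by decide)
      (by rw [glP_r1, glp_mk]; linear_combination 2 * g.p1)
  · exact gl_tabP (by decide)
      (by rw [glP_r2, glp_mk]; linear_combination 2 * g.p6)
  · exact gl_tabP (by decide)
      (by rw [glP_r3, glp_mk]; linear_combination 2 * g.p5)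
  · exact gl_tabZ (by decide) (by rw [glP_r4, glp_mk]; ring)
  · exact gl_tabZ (by decide) (by rw [glP_r5, glp_mk]; ring)
  · exact gl_tabP (by decide)
      (by rw [glP_r6, glp_mk]; linear_combination g.p6)
  · exact gl_tabP (by decide)
      (by rw [glP_r7, glp_mk]; linear_combination (6 / 5) * g.p1)
  · exact gl_tabZ (by decide) (by rw [glP_r8, glp_mk]; ring)
  · exact gl_tabP (by decide)
      (by rw [glP_r9, glp_mk]; linear_combination (4 / 3) * g.p1)
  · exact gl_tabZ (by decide) (by rw [glP_r10, glp_mk]; ring)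
  · exact gl_tabP (by decide)
      (by rw [glP_r11, glp_mk]; linear_combination (14 / 9) * g.p1)
  · exact gl_tabZ (by decide) (by rw [glP_r12, glp_mk]; ring)

lemma glN_table15 {s t c R : ℝ} (h : GlPar s t c R) : ∀ k : Fin 13,
    (k ∈ glS 15 → glp (glN s t c R 15) (glP s t c R k) = 0) ∧
    (k ∉ glS 15 → 0 < glp (glN s t c R 15) (glP s t c R k)) := by
  have g := h.pos
  rw [glN_r15]
  apply gl_fin13
  · exact gl_tabP (by decide)
      (by rw [glP_r0, glp_mk]; linear_combination 2 * g.p7)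
  · exact gl_tabP (by decide)
      (by rw [glP_r1, glp_mk]; linear_combination 2 * g.p2)
  · exact gl_tabP (by decide)
      (by rw [glP_r2, glp_mk]; linear_combination 2 * g.p4)
  · exact gl_tabZ (by decide) (by rw [glP_r3, glp_mk]; ring)
  · exact gl_tabZ (by decide) (by rw [glP_r4, glp_mk]; ring)
  · exact gl_tabP (by decide)
      (by rw [glP_r5, glp_mk]; linear_combination 2 * g.p5)
  · exact gl_tabP (by decide)
      (by rw [glP_r6, glp_mk]; linear_combination g.p7)
  · exact gl_tabP (by decide)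
      (by rw [glP_r7, glp_mk]; linear_combination (6 / 5) * g.p2)
  · exact gl_tabZ (by decide) (by rw [glP_r8, glp_mk]; ring)
  · exact gl_tabP (by decide)
      (by rw [glP_r9, glp_mk]; linear_combination (4 / 3) * g.p2)
  · exact gl_tabZ (by decide) (by rw [glP_r10, glp_mk]; ring)
  · exact gl_tabP (by decide)
      (by rw [glP_r11, glp_mk]; linear_combination (14 / 9) * g.p2)
  · exact gl_tabZ (by decide) (by rw [glP_r12, glp_mk]; ring)

lemma glN_table {s t c R : ℝ} (h : GlPar s t c R) (m : Fin 16) (k : Fin 13) :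
    (k ∈ glS m → glp (glN s t c R m) (glP s t c R k) = 0) ∧
    (k ∉ glS m → 0 < glp (glN s t c R m) (glP s t c R k)) := by
  fin_cases m
  · exact glN_table0 h k
  · exact glN_table1 h k
  · exact glN_table2 h k
  · exact glN_table3 h k
  · exact glN_table4 h k
  · exact glN_table5 h k
  · exact glN_table6 h k
  · exact glN_table7 h k
  · exact glN_table8 h k
  · exact glN_table9 h k
  · exact glN_table10 h k
  · exact glN_table11 h k
  · exact glN_table12 h k
  · exact glN_table13 h k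
  · exact glN_table14 h k
  · exact glN_table15 h k

end Pool.Agent.Work.MP_5b14b0_lc
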