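import Pool.Agent.Work.MP_5b14b0_lc.GadL1

/-!
# The leaf gadget, part 2: the cone in coordinates
-/

set_option autoImplicit false

namespace Pool.Agent.Work.MP_5b14b0_lc

open Finset

/-- The vector `x` (in coordinates) is a nonnegative combination of the vertices. -/
def GlIn (s t c R : ℝ) (x : Fin 5 → ℝ) : Prop :=
  ∃ d : Fin 13 → ℝ, (∀ k, 0 ≤ d k) ∧ ∀ j, x j = ∑ k, d k * glP s t c R k j

/-- Evaluation of the pairing. -/
lemma glp_mk' (a0 a1 a2 a3 a4 : ℝ) (x : Fin 5 → ℝ) :
    glp ![a0, a1, a2, a3, a4] x = a0 * x 0 + a1 * x 1 + a2 * x 2 + a3 * x 3 + a4 * x 4 := rfl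

lemma gl_sum13 (f : Fin 13 → ℝ) : ∑ k, f k = f 0 + f 1 + f 2 + f 3 + f 4 + f 5 + f 6 + f 7 +
    f 8 + f 9 + f 10 + f 11 + f 12 := by
  simp only [Fin.sum_univ_castSucc, Fin.sum_univ_zero, zero_add]
  rfl

lemma gl_fin5 {Q : Fin 5 → Prop} (h0 : Q 0) (h1 : Q 1) (h2 : Q 2) (h3 : Q 3) (h4 : Q 4) :
    ∀ k, Q k := by
  intro k
  fin_cases k
  exacts [h0, h1, h2, h3, h4]

/-- Weights for the symmetric pairs. -/
lemma gl_split {s t c R : ℝ} (h : GlPar s t c R) {x : Fin 5 → ℝ} {a0 a2 b e d y z : ℝ}
    (ha0 : 0 ≤ a0) (ha2 : 0 ≤ a2) (hb : 0 ≤ b) (he : 0 ≤ e) (hd : 0 ≤ d) (hy : 0 ≤ y)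
    (hz : 0 ≤ z) (h2 : x 1 = -s * a0 + s * a2 + t * b + t * d + t * y + t * z)
    (h3 : x 2 = e - R / 3 * y - 4 * R / 9 * z)
    (h4 : x 3 = 4 * R / 5 * d + 2 * R / 3 * y + 4 * R / 9 * z)
    (h5 : x 4 = a0 + a2 + b + e + d + y + z)
    (hu : x 0 ≤ c * a0 + c * a2 + R * b + 3 * R / 5 * d + 2 * R / 3 * y + 7 * R / 9 * z)
    (hl : -x 0 ≤ c * a0 + c * a2 + R * b + 3 * R / 5 * d + 2 * R / 3 * y + 7 * R / 9 * z) :
    GlIn s t c R x := by
  obtain ⟨l, hl1, hl2, hl3⟩ : ∃ l : ℝ, -1 ≤ l ∧ l ≤ 1 ∧
      x 0 = l * (c * a0 + c * a2 + R * b + 3 * R / 5 * d + 2 * R / 3 * y + 7 * R / 9 * z) := by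
    set H := c * a0 + c * a2 + R * b + 3 * R / 5 * d + 2 * R / 3 * y + 7 * R / 9 * z with hH
    have hH0 : 0 ≤ H := by linear_combination (1 / 2) * hu + (1 / 2) * hl
    rcases hH0.eq_or_lt with h0 | h0
    · refine ⟨0, by norm_num, by norm_num, ?_⟩
      rw [← h0] at hu hl ⊢
      linarith
    · refine ⟨x 0 / H, ?_, ?_, ?_⟩
      · rw [le_div_iff₀ h0]; linarith
      · rw [div_le_iff₀ h0]; linarith
      · field_simp
  have q1 : 0 ≤ (1 + l) / 2 := by linarith
  have q2 : 0 ≤ (1 - l) / 2 := by linarith
  refine ⟨![a0 * ((1 + l) / 2), b * ((1 + l) / 2), a2 * ((1 + l) / 2), a2 * ((1 - l) / 2),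
    b * ((1 - l) / 2), a0 * ((1 - l) / 2), e, d * ((1 + l) / 2), d * ((1 - l) / 2),
    y * ((1 + l) / 2), y * ((1 - l) / 2), z * ((1 + l) / 2), z * ((1 - l) / 2)], ?_, ?_⟩
  · exact gl_fin13 (mul_nonneg ha0 q1) (mul_nonneg hb q1) (mul_nonneg ha2 q1)
      (mul_nonneg ha2 q2) (mul_nonneg hb q2) (mul_nonneg ha0 q2) he (mul_nonneg hd q1)
      (mul_nonneg hd q2) (mul_nonneg hy q1) (mul_nonneg hy q2) (mul_nonneg hz q1)
      (mul_nonneg hz q2)
  · apply gl_fin5
    · rw [gl_sum13]
      change x 0 = a0 * ((1 + l) / 2) * c +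
        b * ((1 + l) / 2) * R +
        a2 * ((1 + l) / 2) * c +
        a2 * ((1 - l) / 2) * (-c) +
        b * ((1 - l) / 2) * (-R) +
        a0 * ((1 - l) / 2) * (-c) +
        e * 0 +
        d * ((1 + l) / 2) * (3 * R / 5) +
        d * ((1 - l) / 2) * (-(3 * R / 5)) +
        y * ((1 + l) / 2) * (2 * R / 3) +
        y * ((1 - l) / 2) * (-(2 * R / 3)) +
        z * ((1 + l) / 2) * (7 * R / 9) +
        z * ((1 - l) / 2) * (-(7 * R / 9))
      linear_combination hl3
    · rw [gl_sum13]
      change x 1 = a0 * ((1 + l) / 2) * (-s) +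
        b * ((1 + l) / 2) * t +
        a2 * ((1 + l) / 2) * s +
        a2 * ((1 - l) / 2) * s +
        b * ((1 - l) / 2) * t +
        a0 * ((1 - l) / 2) * (-s) +
        e * 0 +
        d * ((1 + l) / 2) * t +
        d * ((1 - l) / 2) * t +
        y * ((1 + l) / 2) * t +
        y * ((1 - l) / 2) * t +
        z * ((1 + l) / 2) * t +
        z * ((1 - l) / 2) * t
      linear_combination h2
    · rw [gl_sum13]
      change x 2 = a0 * ((1 + l) / 2) * 0 +
        b * ((1 + l) / 2) * 0 +
        a2 * ((1 + l) / 2) * 0 +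
        a2 * ((1 - l) / 2) * 0 +
        b * ((1 - l) / 2) * 0 +
        a0 * ((1 - l) / 2) * 0 +
        e * 1 +
        d * ((1 + l) / 2) * 0 +
        d * ((1 - l) / 2) * 0 +
        y * ((1 + l) / 2) * (-(R / 3)) +
        y * ((1 - l) / 2) * (-(R / 3)) +
        z * ((1 + l) / 2) * (-(4 * R / 9)) +
        z * ((1 - l) / 2) * (-(4 * R / 9))
      linear_combination h3
    · rw [gl_sum13]
      change x 3 = a0 * ((1 + l) / 2) * 0 +
        b * ((1 + l) / 2) * 0 +
        a2 * ((1 + l) / 2) * 0 +
        a2 * ((1 - l) / 2) * 0 +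
        b * ((1 - l) / 2) * 0 +
        a0 * ((1 - l) / 2) * 0 +
        e * 0 +
        d * ((1 + l) / 2) * (4 * R / 5) +
        d * ((1 - l) / 2) * (4 * R / 5) +
        y * ((1 + l) / 2) * (2 * R / 3) +
        y * ((1 - l) / 2) * (2 * R / 3) +
        z * ((1 + l) / 2) * (4 * R / 9) +
        z * ((1 - l) / 2) * (4 * R / 9)
      linear_combination h4
    · rw [gl_sum13]
      change x 4 = a0 * ((1 + l) / 2) * 1 +
        b * ((1 + l) / 2) * 1 +
        a2 * ((1 + l) / 2) * 1 +
        a2 * ((1 - l) / 2) * 1 +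
        b * ((1 - l) / 2) * 1 +
        a0 * ((1 - l) / 2) * 1 +
        e * 1 +
        d * ((1 + l) / 2) * 1 +
        d * ((1 - l) / 2) * 1 +
        y * ((1 + l) / 2) * 1 +
        y * ((1 - l) / 2) * 1 +
        z * ((1 + l) / 2) * 1 +
        z * ((1 - l) / 2) * 1
      linear_combination h5

lemma gl_div4 {R : ℝ} (hR : 0 < R) (u : ℝ) : 5 * u / (4 * R) * R = 5 / 4 * u := by
  field_simp

lemma gl_div9 {R : ℝ} (hR : 0 < R) (u : ℝ) : -9 * u / (4 * R) * R = -9 / 4 * u := by
  field_simp

/-- The cone property in coordinates. -/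
lemma gl_cone {s t c R : ℝ} (h : GlPar s t c R) {x : Fin 5 → ℝ}
    (hx : ∀ m, 0 ≤ glp (glN s t c R m) x) : GlIn s t c R x := by
  obtain ⟨hR, -, -, -, -, -, -, -, -, -, -, -, -⟩ := h.pos
  have hh := h
  obtain ⟨hs, h1, h2, hc, hRc, -, -⟩ := h
  have hR4 : 0 ≤ 4 * R := by linear_combination 4 * hR.le
  have n0 := hx 0
  have n1 := hx 1
  have n2 := hx 2
  have n3 := hx 3
  have n4 := hx 4
  have n5 := hx 5
  have n6 := hx 6
  have n7 := hx 7
  have n8 := hx 8
  have n9 := hx 9
  have n10 := hx 10
  have n11 := hx 11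
  have n12 := hx 12
  have n13 := hx 13
  have n14 := hx 14
  have n15 := hx 15
  clear hx
  rw [glN_r0, glp_mk'] at n0
  rw [glN_r1, glp_mk'] at n1
  rw [glN_r2, glp_mk'] at n2
  rw [glN_r3, glp_mk'] at n3
  rw [glN_r4, glp_mk'] at n4
  rw [glN_r5, glp_mk'] at n5
  rw [glN_r6, glp_mk'] at n6
  rw [glN_r7, glp_mk'] at n7
  rw [glN_r8, glp_mk'] at n8
  rw [glN_r9, glp_mk'] at n9
  rw [glN_r10, glp_mk'] at n10
  rw [glN_r11, glp_mk'] at n11
  rw [glN_r12, glp_mk'] at n12
  rw [glN_r13, glp_mk'] at n13
  rw [glN_r14, glp_mk'] at n14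
  rw [glN_r15, glp_mk'] at n15
  rcases le_total 0 (x 2) with hx3 | hx3
  · rcases le_total (x 1) (t * (x 4 - x 2)) with hc1 | hc1
    · -- cell q05, q14, X, w
      set a := (t * (x 4 - x 2) - x 1) / (s + t) with ha
      set d := 5 * x 3 / (4 * R) with hd
      have ha' : a * (s + t) = t * (x 4 - x 2) - x 1 := div_mul_cancel₀ _ h1.ne'
      have hd' : d * R = 5 / 4 * x 3 := gl_div4 hR _
      have hb : 0 ≤ x 4 - x 2 - d - a := by
        have : 0 ≤ (x 4 - x 2 - d - a) * ((s + t) * R) := by
          have e : (x 4 - x 2 - d - a) * ((s + t) * R) =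
              (x 4 - x 2) * (s + t) * R - (d * R) * (s + t) - (a * (s + t)) * R := by ring
          rw [e, ha', hd']
          linear_combination n2
        exact nonneg_of_mul_nonneg_left this (mul_pos h1 hR)
      refine gl_split hh (a0 := a) (a2 := 0) (b := x 4 - x 2 - d - a) (e := x 2) (d := d)
        (y := 0) (z := 0) (div_nonneg (sub_nonneg.2 hc1) h1.le) le_rfl hb hx3
        (div_nonneg (by linear_combination 5 * n0) hR4) le_rfl le_rfl ?_ ?_ ?_ ?_ ?_ ?_
      · linear_combination ha'
      · ring
      · linear_combination (-4 / 5) * hd'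
      · ring
      · have : 0 ≤ (c * a + R * (x 4 - x 2 - d - a) + 3 * R / 5 * d - x 0) * (s + t) := by
          have e : (c * a + R * (x 4 - x 2 - d - a) + 3 * R / 5 * d - x 0) * (s + t) =
            c * (a * (s + t)) + R * ((x 4 - x 2) * (s + t) - a * (s + t)) -
              2 / 5 * (d * R) * (s + t) - x 0 * (s + t) := by ring
          rw [e, ha', hd']
          linear_combination n4
        have := nonneg_of_mul_nonneg_left this h1
        linear_combination this
      · have : 0 ≤ (c * a + R * (x 4 - x 2 - d - a) + 3 * R / 5 * d + x 0) * (s + t) := by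
          have e : (c * a + R * (x 4 - x 2 - d - a) + 3 * R / 5 * d + x 0) * (s + t) =
            c * (a * (s + t)) + R * ((x 4 - x 2) * (s + t) - a * (s + t)) -
              2 / 5 * (d * R) * (s + t) + x 0 * (s + t) := by ring
          rw [e, ha', hd']
          linear_combination n6
        have := nonneg_of_mul_nonneg_left this h1
        linear_combination this
    · -- cell q23, q14, X, w
      set a := (x 1 - t * (x 4 - x 2)) / (s - t) with ha
      set d := 5 * x 3 / (4 * R) with hd
      have ha' : a * (s - t) = x 1 - t * (x 4 - x 2) := div_mul_cancel₀ _ h2.ne'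
      have hd' : d * R = 5 / 4 * x 3 := gl_div4 hR _
      have hb : 0 ≤ x 4 - x 2 - d - a := by
        have : 0 ≤ (x 4 - x 2 - d - a) * ((s - t) * R) := by
          have e : (x 4 - x 2 - d - a) * ((s - t) * R) =
              (x 4 - x 2) * (s - t) * R - (d * R) * (s - t) - (a * (s - t)) * R := by ring
          rw [e, ha', hd']
          linear_combination n3
        exact nonneg_of_mul_nonneg_left this (mul_pos h2 hR)
      refine gl_split hh (a0 := 0) (a2 := a) (b := x 4 - x 2 - d - a) (e := x 2) (d := d)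
        (y := 0) (z := 0) le_rfl (div_nonneg (sub_nonneg.2 hc1) h2.le) hb hx3
        (div_nonneg (by linear_combination 5 * n0) hR4) le_rfl le_rfl ?_ ?_ ?_ ?_ ?_ ?_
      · linear_combination -ha'
      · ring
      · linear_combination (-4 / 5) * hd'
      · ring
      · have : 0 ≤ (c * a + R * (x 4 - x 2 - d - a) + 3 * R / 5 * d - x 0) * (s - t) := by
          have e : (c * a + R * (x 4 - x 2 - d - a) + 3 * R / 5 * d - x 0) * (s - t) =
            c * (a * (s - t)) + R * ((x 4 - x 2) * (s - t) - a * (s - t)) -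
              2 / 5 * (d * R) * (s - t) - x 0 * (s - t) := by ring
          rw [e, ha', hd']
          linear_combination n5
        have := nonneg_of_mul_nonneg_left this h2
        linear_combination this
      · have : 0 ≤ (c * a + R * (x 4 - x 2 - d - a) + 3 * R / 5 * d + x 0) * (s - t) := by
          have e : (c * a + R * (x 4 - x 2 - d - a) + 3 * R / 5 * d + x 0) * (s - t) =
            c * (a * (s - t)) + R * ((x 4 - x 2) * (s - t) - a * (s - t)) -
              2 / 5 * (d * R) * (s - t) + x 0 * (s - t) := by ring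
          rw [e, ha', hd']
          linear_combination n7
        have := nonneg_of_mul_nonneg_left this h2
        linear_combination this
  · rcases le_total (x 1) (t * x 4) with hc1 | hc1
    · set a := (t * x 4 - x 1) / (s + t) with ha
      have ha0 : 0 ≤ a := div_nonneg (sub_nonneg.2 hc1) h1.le
      have ha' : a * (s + t) = t * x 4 - x 1 := div_mul_cancel₀ _ h1.ne'
      -- the two bounds of `x 0`
      have hu : x 0 ≤ c * a + R * (x 4 - a) - x 3 / 2 := by
        have : 0 ≤ (c * a + R * (x 4 - a) - x 3 / 2 - x 0) * (s + t) := by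
          have e : (c * a + R * (x 4 - a) - x 3 / 2 - x 0) * (s + t) =
            c * (a * (s + t)) + R * (x 4 * (s + t) - a * (s + t)) -
              x 3 / 2 * (s + t) - x 0 * (s + t) := by ring
          rw [e, ha']
          linear_combination n12
        have := nonneg_of_mul_nonneg_left this h1
        linear_combination this
      have hl : -x 0 ≤ c * a + R * (x 4 - a) - x 3 / 2 := by
        have : 0 ≤ (c * a + R * (x 4 - a) - x 3 / 2 + x 0) * (s + t) := by
          have e : (c * a + R * (x 4 - a) - x 3 / 2 + x 0) * (s + t) =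
            c * (a * (s + t)) + R * (x 4 * (s + t) - a * (s + t)) -
              x 3 / 2 * (s + t) + x 0 * (s + t) := by ring
          rw [e, ha']
          linear_combination n14
        have := nonneg_of_mul_nonneg_left this h1
        linear_combination this
      have hF8 : 0 ≤ 4 * R / 5 * (x 4 - a) + 2 / 5 * x 2 - x 3 := by
        have : 0 ≤ (4 * R / 5 * (x 4 - a) + 2 / 5 * x 2 - x 3) * (s + t) := by
          have e : (4 * R / 5 * (x 4 - a) + 2 / 5 * x 2 - x 3) * (s + t) =
            4 * R / 5 * (x 4 * (s + t) - a * (s + t)) + 2 / 5 * x 2 * (s + t) -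
              x 3 * (s + t) := by ring
          rw [e, ha']
          linear_combination (2 / 5) * n8
        exact nonneg_of_mul_nonneg_left this h1
      have hF10 : 0 ≤ 4 * R / 3 * (x 4 - a) + 2 * x 2 - x 3 := by
        have : 0 ≤ (4 * R / 3 * (x 4 - a) + 2 * x 2 - x 3) * (s + t) := by
          have e : (4 * R / 3 * (x 4 - a) + 2 * x 2 - x 3) * (s + t) =
            4 * R / 3 * (x 4 * (s + t) - a * (s + t)) + 2 * x 2 * (s + t) -
              x 3 * (s + t) := by ring
          rw [e, ha']
          linear_combination (1 / 3) * n10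
        exact nonneg_of_mul_nonneg_left this h1
      rcases le_total (-2 * x 2) (x 3) with hc2 | hc2
      · set y := -3 * x 2 / R with hy
        set d := 5 * (x 3 + 2 * x 2) / (4 * R) with hd
        have hy' : y * R = -3 * x 2 := div_mul_cancel₀ _ hR.ne'
        have hd' : d * R = 5 / 4 * (x 3 + 2 * x 2) := gl_div4 hR _
        have hb : 0 ≤ x 4 - a - d - y := by
          have : 0 ≤ (x 4 - a - d - y) * R := by
            have e : (x 4 - a - d - y) * R = (x 4 - a) * R - d * R - y * R := by ring
            rw [e, hy', hd']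
            linear_combination (5 / 4) * hF8
          exact nonneg_of_mul_nonneg_left this hR
        refine gl_split hh (a0 := a) (a2 := 0) (b := x 4 - a - d - y) (e := 0) (d := d)
          (y := y) (z := 0) ha0 le_rfl hb le_rfl
          (div_nonneg (by linear_combination 5 * hc2) hR4)
          (div_nonneg (by linear_combination 3 * hx3) hR.le) le_rfl
          ?_ ?_ ?_ ?_ ?_ ?_
        · linear_combination ha'
        · linear_combination (1 / 3) * hy'
        · linear_combination (-4 / 5) * hd' - (2 / 3) * hy'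
        · ring
        · refine hu.trans (le_of_eq ?_)
          linear_combination (2 / 5 : ℝ) * hd' + (1 / 3 : ℝ) * hy'
        · refine hl.trans (le_of_eq ?_)
          linear_combination (2 / 5 : ℝ) * hd' + (1 / 3 : ℝ) * hy'
      · set y := 3 * (x 2 + x 3) / R with hy
        set z := -9 * (2 * x 2 + x 3) / (4 * R) with hz
        have hy' : y * R = 3 * (x 2 + x 3) := div_mul_cancel₀ _ hR.ne'
        have hz' : z * R = -9 / 4 * (2 * x 2 + x 3) := gl_div9 hR _
        have hb : 0 ≤ x 4 - a - y - z := by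
          have : 0 ≤ (x 4 - a - y - z) * R := by
            have e : (x 4 - a - y - z) * R = (x 4 - a) * R - y * R - z * R := by ring
            rw [e, hy', hz']
            linear_combination (3 / 4) * hF10
          exact nonneg_of_mul_nonneg_left this hR
        refine gl_split hh (a0 := a) (a2 := 0) (b := x 4 - a - y - z) (e := 0) (d := 0)
          (y := y) (z := z) ha0 le_rfl hb le_rfl le_rfl
          (div_nonneg (by linear_combination 3 * n1) hR.le)
          (div_nonneg (by linear_combination 9 * hc2) hR4)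
          ?_ ?_ ?_ ?_ ?_ ?_
        · linear_combination ha'
        · linear_combination (1 / 3) * hy' + (4 / 9) * hz'
        · linear_combination (-2 / 3) * hy' - (4 / 9) * hz'
        · ring
        · refine hu.trans (le_of_eq ?_)
          linear_combination (1 / 3 : ℝ) * hy' + (2 / 9 : ℝ) * hz'
        · refine hl.trans (le_of_eq ?_)
          linear_combination (1 / 3 : ℝ) * hy' + (2 / 9 : ℝ) * hz'
    · set a := (x 1 - t * x 4) / (s - t) with ha
      have ha0 : 0 ≤ a := div_nonneg (sub_nonneg.2 hc1) h2.le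
      have ha' : a * (s - t) = x 1 - t * x 4 := div_mul_cancel₀ _ h2.ne'
      have hu : x 0 ≤ c * a + R * (x 4 - a) - x 3 / 2 := by
        have : 0 ≤ (c * a + R * (x 4 - a) - x 3 / 2 - x 0) * (s - t) := by
          have e : (c * a + R * (x 4 - a) - x 3 / 2 - x 0) * (s - t) =
            c * (a * (s - t)) + R * (x 4 * (s - t) - a * (s - t)) -
              x 3 / 2 * (s - t) - x 0 * (s - t) := by ring
          rw [e, ha']
          linear_combination n13
        have := nonneg_of_mul_nonneg_left this h2
        linear_combination this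
      have hl : -x 0 ≤ c * a + R * (x 4 - a) - x 3 / 2 := by
        have : 0 ≤ (c * a + R * (x 4 - a) - x 3 / 2 + x 0) * (s - t) := by
          have e : (c * a + R * (x 4 - a) - x 3 / 2 + x 0) * (s - t) =
            c * (a * (s - t)) + R * (x 4 * (s - t) - a * (s - t)) -
              x 3 / 2 * (s - t) + x 0 * (s - t) := by ring
          rw [e, ha']
          linear_combination n15
        have := nonneg_of_mul_nonneg_left this h2
        linear_combination this
      have hF8 : 0 ≤ 4 * R / 5 * (x 4 - a) + 2 / 5 * x 2 - x 3 := by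
        have : 0 ≤ (4 * R / 5 * (x 4 - a) + 2 / 5 * x 2 - x 3) * (s - t) := by
          have e : (4 * R / 5 * (x 4 - a) + 2 / 5 * x 2 - x 3) * (s - t) =
            4 * R / 5 * (x 4 * (s - t) - a * (s - t)) + 2 / 5 * x 2 * (s - t) -
              x 3 * (s - t) := by ring
          rw [e, ha']
          linear_combination (2 / 5) * n9
        exact nonneg_of_mul_nonneg_left this h2
      have hF10 : 0 ≤ 4 * R / 3 * (x 4 - a) + 2 * x 2 - x 3 := by
        have : 0 ≤ (4 * R / 3 * (x 4 - a) + 2 * x 2 - x 3) * (s - t) := by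
          have e : (4 * R / 3 * (x 4 - a) + 2 * x 2 - x 3) * (s - t) =
            4 * R / 3 * (x 4 * (s - t) - a * (s - t)) + 2 * x 2 * (s - t) -
              x 3 * (s - t) := by ring
          rw [e, ha']
          linear_combination (1 / 3) * n11
        exact nonneg_of_mul_nonneg_left this h2
      rcases le_total (-2 * x 2) (x 3) with hc2 | hc2
      · set y := -3 * x 2 / R with hy
        set d := 5 * (x 3 + 2 * x 2) / (4 * R) with hd
        have hy' : y * R = -3 * x 2 := div_mul_cancel₀ _ hR.ne'
        have hd' : d * R = 5 / 4 * (x 3 + 2 * x 2) := gl_div4 hR _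
        have hb : 0 ≤ x 4 - a - d - y := by
          have : 0 ≤ (x 4 - a - d - y) * R := by
            have e : (x 4 - a - d - y) * R = (x 4 - a) * R - d * R - y * R := by ring
            rw [e, hy', hd']
            linear_combination (5 / 4) * hF8
          exact nonneg_of_mul_nonneg_left this hR
        refine gl_split hh (a0 := 0) (a2 := a) (b := x 4 - a - d - y) (e := 0) (d := d)
          (y := y) (z := 0) le_rfl ha0 hb le_rfl
          (div_nonneg (by linear_combination 5 * hc2) hR4)
          (div_nonneg (by linear_combination 3 * hx3) hR.le) le_rfl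
          ?_ ?_ ?_ ?_ ?_ ?_
        · linear_combination -ha'
        · linear_combination (1 / 3) * hy'
        · linear_combination (-4 / 5) * hd' - (2 / 3) * hy'
        · ring
        · refine hu.trans (le_of_eq ?_)
          linear_combination (2 / 5 : ℝ) * hd' + (1 / 3 : ℝ) * hy'
        · refine hl.trans (le_of_eq ?_)
          linear_combination (2 / 5 : ℝ) * hd' + (1 / 3 : ℝ) * hy'
      · set y := 3 * (x 2 + x 3) / R with hy
        set z := -9 * (2 * x 2 + x 3) / (4 * R) with hz
        have hy' : y * R = 3 * (x 2 + x 3) := div_mul_cancel₀ _ hR.ne'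
        have hz' : z * R = -9 / 4 * (2 * x 2 + x 3) := gl_div9 hR _
        have hb : 0 ≤ x 4 - a - y - z := by
          have : 0 ≤ (x 4 - a - y - z) * R := by
            have e : (x 4 - a - y - z) * R = (x 4 - a) * R - y * R - z * R := by ring
            rw [e, hy', hz']
            linear_combination (3 / 4) * hF10
          exact nonneg_of_mul_nonneg_left this hR
        refine gl_split hh (a0 := 0) (a2 := a) (b := x 4 - a - y - z) (e := 0) (d := 0)
          (y := y) (z := z) le_rfl ha0 hb le_rfl le_rfl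
          (div_nonneg (by linear_combination 3 * n1) hR.le)
          (div_nonneg (by linear_combination 9 * hc2) hR4)
          ?_ ?_ ?_ ?_ ?_ ?_
        · linear_combination -ha'
        · linear_combination (1 / 3) * hy' + (4 / 9) * hz'
        · linear_combination (-2 / 3) * hy' - (4 / 9) * hz'
        · ring
        · refine hu.trans (le_of_eq ?_)
          linear_combination (1 / 3 : ℝ) * hy' + (2 / 9 : ℝ) * hz'
        · refine hl.trans (le_of_eq ?_)
          linear_combination (1 / 3 : ℝ) * hy' + (2 / 9 : ℝ) * hz'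

end Pool.Agent.Work.MP_5b14b0_lc
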