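import Pool.Agent.Work.MP_5b14b0_lc.Cpx

/-!
# Inscribed polytopes as cones in Lorentz space: definitions and statements
-/

set_option autoImplicit false

namespace Pool.Agent.Work.MP_5b14b0_lc

open Finset

/-- Lorentz space. -/
abbrev E := Fin 5 → ℝ

/-- The Lorentz form; the coordinate `4` is the time. -/
def B (x y : E) : ℝ := x 0 * y 0 + x 1 * y 1 + x 2 * y 2 + x 3 * y 3 - x 4 * y 4

/-- Future light vectors: the points of the sphere. -/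
def Light (x : E) : Prop := B x x = 0 ∧ 0 < x 4

/-- Linear functionals. -/
abbrev Du := E →ₗ[ℝ] ℝ

/-- Reflection. -/
noncomputable def refl (Y x : E) : E := x - (2 * B x Y / B Y Y) • Y

/-- `x` is a nonnegative combination of the vectors `g i`, `i ∈ V`. -/
def InCone {ι : Type} (g : ι → E) (V : Finset ι) (x : E) : Prop :=
  ∃ c : ι → ℝ, (∀ i, 0 ≤ c i) ∧ x = ∑ i ∈ V, c i • g i

/-- The labelled light vectors `φ v`, `v ∈ V`, span a cone whose facets are exactly given by the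
sets in `𝓕`, with inner normals `N F`. -/
structure Real {ι : Type} (V : Finset ι) (𝓕 : Finset (Finset ι)) (φ : ι → E)
    (N : Finset ι → Du) : Prop where
  light : ∀ v ∈ V, Light (φ v)
  sub : ∀ F ∈ 𝓕, F ⊆ V
  nonneg : ∀ F ∈ 𝓕, ∀ v ∈ V, 0 ≤ N F (φ v)
  zero : ∀ F ∈ 𝓕, ∀ v ∈ V, N F (φ v) = 0 ↔ v ∈ F
  proper : ∀ F ∈ 𝓕, ∃ v ∈ V, v ∉ F
  rank : ∀ F ∈ 𝓕, Module.finrank ℝ (Submodule.span ℝ (φ '' (F : Set ι))) = 4
  full : Submodule.span ℝ (φ '' (V : Set ι)) = ⊤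
  inj : ∀ v ∈ V, ∀ w ∈ V, v ≠ w → ∀ c : ℝ, φ w ≠ c • φ v
  cone : ∀ x, (∀ F ∈ 𝓕, 0 ≤ N F x) → InCone φ V x

/-- Lorentz orthonormal triple. -/
structure Frame (e0 e3 e4 : E) : Prop where
  n0 : B e0 e0 = -1
  n3 : B e3 e3 = 1
  n4 : B e4 e4 = 1
  o03 : B e0 e3 = 0
  o04 : B e0 e4 = 0
  o34 : B e3 e4 = 0
  fut : 0 < e0 4

/-- The three-dimensional subspace orthogonal to `e3`, `e4`. -/
def InPl (e3 e4 x : E) : Prop := B x e3 = 0 ∧ B x e4 = 0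

/-- `ω` is an alternating trilinear form, nondegenerate on the subspace orthogonal to `e3`,
`e4` (Cramer's rule) and vanishing on `e3`, `e4`. -/
structure Tri (ω : E → E → E → ℝ) (e3 e4 : E) : Prop where
  add : ∀ x x' y z, ω (x + x') y z = ω x y z + ω x' y z
  smul : ∀ (c : ℝ) x y z, ω (c • x) y z = c * ω x y z
  rot : ∀ x y z, ω x y z = ω y z x
  swap : ∀ x y z, ω x y z = - ω y x z
  z3 : ∀ y z, ω e3 y z = 0
  z4 : ∀ y z, ω e4 y z = 0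
  cramer : ∀ x y z w, InPl e3 e4 x → InPl e3 e4 y → InPl e3 e4 z → InPl e3 e4 w →
    ω y z w • x = ω x z w • y + ω y x w • z + ω y z x • w

/-- The vectors `g j`, `j ∈ S`, are light vectors of the plane in positive cyclic order. -/
structure Cyc (g : ℕ → E) (S : Finset ℕ) (ω : E → E → E → ℝ) (e3 e4 : E) : Prop where
  light : ∀ j ∈ S, Light (g j)
  inpl : ∀ j ∈ S, InPl e3 e4 (g j)
  pos : ∀ i ∈ S, ∀ j ∈ S, ∀ k ∈ S, i < j → j < k → 0 < ω (g i) (g j) (g k)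

/-- `e0` is a positive combination of the vectors of `T`. -/
def IntC (g : ℕ → E) (T : Finset ℕ) (e0 : E) : Prop :=
  ∃ c : ℕ → ℝ, (∀ j ∈ T, 0 < c j) ∧ e0 = ∑ j ∈ T, c j • g j

/-- The edges of the polygon `S` (see `EdL`). -/
def Ed (S : Finset ℕ) : Finset (ℕ × ℕ) :=
  (S ×ˢ S).filter (fun p => p.1 < p.2 ∧
    ((∀ k ∈ S, k ≤ p.1 ∨ p.2 ≤ k) ∨ (∀ k ∈ S, p.1 ≤ k ∧ k ≤ p.2)))

/-- `m` is the normalized functional of the edge with end points `u`, `v`. -/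
structure EdgeF (m : Du) (u v e0 e3 e4 : E) : Prop where
  u0 : m u = 0
  v0 : m v = 0
  m0 : m e0 = 1
  m3 : m e3 = 0
  m4 : m e4 = 0

/-- Planar convex geometry. -/
def ClaimPolygon : Prop := ∀ (e0 e3 e4 : E) (ω : E → E → E → ℝ) (g : ℕ → E) (S T : Finset ℕ),
  Frame e0 e3 e4 → Tri ω e3 e4 → Cyc g S ω e3 e4 → T ⊆ S → 3 ≤ T.card → IntC g T e0 →
  ∃ m : ℕ × ℕ → Du, (∀ p ∈ Ed S, EdgeF (m p) (g p.1) (g p.2) e0 e3 e4 ∧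
      ∀ k ∈ S, k ≠ p.1 → k ≠ p.2 → 0 < m p (g k)) ∧
    (∀ x, InPl e3 e4 x → (∀ p ∈ Ed S, 0 ≤ m p x) → InCone g S x)

/-- The facet of a port. -/
def pF {ι : Type} [DecidableEq ι] (S : Finset ℕ) (pl : ℕ → ι) (a : ι) : Finset ι :=
  insert a (S.image pl)

/-- A port: the facet `pF S pl a` is a pyramid over the polygon `S` with apex `a`; the polytope
lies in `B x e4 ≤ 0`; the facet adjacent along the base has normal `x3 + κG x4`, the facet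
adjacent along the triangle over the edge `p` has normal `m_p - x3 + κ p x4`, where
`x3 = B x e3`, `x4 = B x e4` (up to positive factors). -/
structure Port {ι : Type} [DecidableEq ι] (𝓕 : Finset (Finset ι)) (φ : ι → E)
    (N : Finset ι → Du) (S T : Finset ℕ) (pl : ℕ → ι) (a : ι) (e0 e3 e4 : E)
    (ω : E → E → E → ℝ) (κG : ℝ) (κ : ℕ × ℕ → ℝ) : Prop where
  frame : Frame e0 e3 e4
  tri : Tri ω e3 e4
  cyc : Cyc (fun j => φ (pl j)) S ω e3 e4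
  sub : T ⊆ S
  card : 3 ≤ T.card
  int : IntC (fun j => φ (pl j)) T e0
  inj : Set.InjOn pl S
  apn : a ∉ S.image pl
  mem : pF S pl a ∈ 𝓕
  apex : ∃ c : ℝ, 0 < c ∧ φ a = c • (e0 + e3)
  nF : ∃ c : ℝ, 0 < c ∧ ∀ x, N (pF S pl a) x = -(c * B x e4)
  spine : ∃ f ∈ 𝓕, f ≠ pF S pl a ∧ S.image pl ⊆ f ∧
    ∃ c : ℝ, 0 < c ∧ ∀ x, N f x = c * (B x e3 + κG * B x e4)
  side : ∀ p ∈ Ed S, ∃ f ∈ 𝓕, f ≠ pF S pl a ∧ a ∈ f ∧ pl p.1 ∈ f ∧ pl p.2 ∈ f ∧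
    ∃ m : Du, EdgeF m (φ (pl p.1)) (φ (pl p.2)) e0 e3 e4 ∧
      ∃ c : ℝ, 0 < c ∧ ∀ x, N f x = c * (m x - B x e3 + κ p * B x e4)
  nonadj : ∀ f ∈ 𝓕, f ≠ pF S pl a →
    (∃ c : ℝ, 0 < c ∧ ∀ x, N f x = c * (B x e3 + κG * B x e4)) ∨
    (∃ p ∈ Ed S, ∃ m : Du, EdgeF m (φ (pl p.1)) (φ (pl p.2)) e0 e3 e4 ∧
      ∃ c : ℝ, 0 < c ∧ ∀ x, N f x = c * (m x - B x e3 + κ p * B x e4)) ∨
    (∃ k ∈ 𝓕, k ≠ pF S pl a ∧ k ≠ f ∧ pF S pl a ∩ f ⊆ k)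

/-! ### Gluing -/

/-- Combined labelling. -/
def gφ {ι : Type} [DecidableEq ι] (V : Finset ι) (φ φ2 : ι → E) (v : ι) : E :=
  if v ∈ V then φ v else φ2 v
/-- Combined normals. -/
def gN {ι : Type} [DecidableEq ι] (𝓕 : Finset (Finset ι)) (N N2 : Finset ι → Du)
    (F : Finset ι) : Du := if F ∈ 𝓕 then N F else N2 F

/-- Two polytopes with complementary ports can be glued. -/
def ClaimGlue : Prop := ∀ (ι : Type) (_ : DecidableEq ι) (V V2 : Finset ι)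
  (𝓕 𝓕2 : Finset (Finset ι)) (φ φ2 : ι → E) (N N2 : Finset ι → Du) (S T T2 : Finset ℕ)
  (pl : ℕ → ι) (a : ι) (e0 e3 e4 : E) (ω : E → E → E → ℝ) (κG κG2 : ℝ) (κ κ2 : ℕ × ℕ → ℝ),
  Real V 𝓕 φ N → Real V2 𝓕2 φ2 N2 → V ∩ V2 = pF S pl a → (∀ v ∈ pF S pl a, φ v = φ2 v) →
  Port 𝓕 φ N S T pl a e0 e3 e4 ω κG κ → Port 𝓕2 φ2 N2 S T2 pl a e0 e3 (-e4) ω κG2 κ2 →
  0 < κG + κG2 → (∀ p ∈ Ed S, 0 < κ p + κ2 p) →
  Real (V ∪ V2) (𝓕.erase (pF S pl a) ∪ 𝓕2.erase (pF S pl a)) (gφ V φ φ2) (gN 𝓕 N N2)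

/-- A port of the first polytope which is disjoint from the glued port remains a port. -/
def ClaimTransP : Prop := ∀ (ι : Type) (_ : DecidableEq ι) (V V2 : Finset ι)
  (𝓕 𝓕2 : Finset (Finset ι)) (φ φ2 : ι → E) (N N2 : Finset ι → Du) (F : Finset ι)
  (S T : Finset ℕ) (pl : ℕ → ι) (a : ι) (e0 e3 e4 : E) (ω : E → E → E → ℝ) (κG : ℝ)
  (κ : ℕ × ℕ → ℝ),
  Real V 𝓕 φ N → Real V2 𝓕2 φ2 N2 → V ∩ V2 = F → F ∈ 𝓕 → F ∈ 𝓕2 → (∀ v ∈ F, φ v = φ2 v) →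
  Port 𝓕 φ N S T pl a e0 e3 e4 ω κG κ → Disjoint (pF S pl a) F →
  Port (𝓕.erase F ∪ 𝓕2.erase F) (gφ V φ φ2) (gN 𝓕 N N2) S T pl a e0 e3 e4 ω κG κ

/-- A port of the second polytope which is disjoint from the glued port remains a port. -/
def ClaimTransQ : Prop := ∀ (ι : Type) (_ : DecidableEq ι) (V V2 : Finset ι)
  (𝓕 𝓕2 : Finset (Finset ι)) (φ φ2 : ι → E) (N N2 : Finset ι → Du) (F : Finset ι)
  (S T : Finset ℕ) (pl : ℕ → ι) (a : ι) (e0 e3 e4 : E) (ω : E → E → E → ℝ) (κG : ℝ)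
  (κ : ℕ × ℕ → ℝ),
  Real V 𝓕 φ N → Real V2 𝓕2 φ2 N2 → V ∩ V2 = F → F ∈ 𝓕 → F ∈ 𝓕2 → (∀ v ∈ F, φ v = φ2 v) →
  Port 𝓕2 φ2 N2 S T pl a e0 e3 e4 ω κG κ → Disjoint (pF S pl a) F →
  Port (𝓕.erase F ∪ 𝓕2.erase F) (gφ V φ φ2) (gN 𝓕 N N2) S T pl a e0 e3 e4 ω κG κ

/-- The side port `S ∪ {b}` of the branching gadget, whose spine facet is the glued port itself,
becomes a port whose spine facet is the spine facet of the first polytope. -/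
def ClaimTransS : Prop := ∀ (ι : Type) (_ : DecidableEq ι) (V V2 : Finset ι)
  (𝓕 𝓕2 : Finset (Finset ι)) (φ φ2 : ι → E) (N N2 : Finset ι → Du) (S T T2 T3 : Finset ℕ)
  (pl : ℕ → ι) (a b : ι) (e0 e3 e4 f0 : E) (ω : E → E → E → ℝ) (κG : ℝ)
  (κ κ2 κ3 : ℕ × ℕ → ℝ),
  Real V 𝓕 φ N → Real V2 𝓕2 φ2 N2 → V ∩ V2 = pF S pl a → (∀ v ∈ pF S pl a, φ v = φ2 v) →
  Port 𝓕 φ N S T pl a e0 e3 e4 ω κG κ → Port 𝓕2 φ2 N2 S T2 pl a e0 e3 (-e4) ω 0 κ2 →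
  0 < κG → Port 𝓕2 φ2 N2 S T3 pl b f0 e4 (-e3) ω 0 κ3 → b ∉ V → b ≠ a →
  Port (𝓕.erase (pF S pl a) ∪ 𝓕2.erase (pF S pl a)) (gφ V φ φ2) (gN 𝓕 N N2) S T3 pl b
    f0 e4 (-e3) ω (-1 / κG) κ3

/-! ### The gadgets -/

/-- A linear isometry which preserves the future. -/
structure Iso (Θ : E →ₗ[ℝ] E) : Prop where
  isom : ∀ x y, B (Θ x) (Θ y) = B x y
  fut : ∀ x, Light x → Light (Θ x)
  surj : Function.Surjective Θ

/-- Vertices of the branching gadget. -/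
def VK {ι : Type} [DecidableEq ι] (S : Finset ℕ) (pl pl' : ℕ → ι) (a a' b : ι) : Finset ι :=
  pF S pl a ∪ pF S pl' a' ∪ {b}

/-- Facets of the branching gadget. -/
def FK {ι : Type} [DecidableEq ι] (S : Finset ℕ) (pl pl' : ℕ → ι) (a a' b : ι) :
    Finset (Finset ι) :=
  {pF S pl a, pF S pl' a', pF S pl b, pF S pl' b} ∪
    (Ed S).image (fun e => {a, pl e.1, pl e.2, a', pl' e.1, pl' e.2}) ∪
    (Ed S).image (fun e => {b, pl e.1, pl e.2, pl' e.1, pl' e.2})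

/-- The branching gadget. The input port is used with the frame `(e0, e3, -e4)`. -/
def ClaimK : Prop := ∀ (ι : Type) (_ : DecidableEq ι) (S T T' : Finset ℕ) (pl pl' : ℕ → ι)
  (a a' b : ι) (φ : ι → E) (e0 e3 e4 f0 : E) (ω : E → E → E → ℝ),
  Frame e0 e3 e4 → Tri ω e3 e4 → Cyc (fun j => φ (pl j)) S ω e3 e4 → T ⊆ S → 3 ≤ T.card →
  IntC (fun j => φ (pl j)) T e0 → (∃ c : ℝ, 0 < c ∧ φ a = c • (e0 + e3)) →
  InPl e3 e4 f0 → B f0 f0 = -1 → 0 < f0 4 → T' ⊆ S → 3 ≤ T'.card →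
  IntC (fun j => φ (pl j)) T' f0 →
  Set.InjOn pl S → Set.InjOn pl' S → a ∉ S.image pl → a' ∉ S.image pl' →
  Disjoint (pF S pl a) (pF S pl' a') → b ∉ pF S pl a ∪ pF S pl' a' →
  ∃ (φ2 : ι → E) (N2 : Finset ι → Du) (Θ : E →ₗ[ℝ] E) (ω' : E → E → E → ℝ) (κG' : ℝ)
    (κ2 κ' κ3 : ℕ × ℕ → ℝ),
    Real (VK S pl pl' a a' b) (FK S pl pl' a a' b) φ2 N2 ∧ Iso Θ ∧
    (∀ v ∈ pF S pl a, φ2 v = φ v) ∧ (∀ j ∈ S, φ2 (pl' j) = Θ (φ (pl j))) ∧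
    Port (FK S pl pl' a a' b) φ2 N2 S T pl a e0 e3 (-e4) ω 0 κ2 ∧ (∀ p ∈ Ed S, 0 < κ2 p) ∧
    Port (FK S pl pl' a a' b) φ2 N2 S T pl' a' (Θ e0) (Θ e3) (-Θ e4) ω' κG' κ' ∧
    0 < κG' ∧ (∀ p ∈ Ed S, 0 < κ' p) ∧
    Port (FK S pl pl' a a' b) φ2 N2 S T' pl b f0 e4 (-e3) ω 0 κ3 ∧ (∀ p ∈ Ed S, 0 < κ3 p)

/-- Vertices of the deletion gadget. -/
def VA {ι : Type} [DecidableEq ι] (S : Finset ℕ) (v : ℕ) (pl pl' : ℕ → ι) (a a' : ι) :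
    Finset ι := pF S pl a ∪ pF (S.erase v) pl' a'

/-- Facets of the deletion gadget. -/
def FA {ι : Type} [DecidableEq ι] (S : Finset ℕ) (v : ℕ) (pl pl' : ℕ → ι) (a a' : ι) :
    Finset (Finset ι) :=
  {pF S pl a, pF (S.erase v) pl' a', S.image pl ∪ (S.erase v).image pl',
    {pl v, a'} ∪ ((S.erase v).filter (fun u => (u, v) ∈ Ed S ∨ (v, u) ∈ Ed S)).image pl'} ∪
    (Ed S).image (fun e =>
      ({a, pl e.1, pl e.2, a'} : Finset ι) ∪ (({e.1, e.2} : Finset ℕ).erase v).image pl')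

/-- The deletion gadget; `κG` is the (arbitrary) spine value of the port to which it will be
glued. -/
def ClaimA : Prop := ∀ (ι : Type) (_ : DecidableEq ι) (S T : Finset ℕ) (v : ℕ)
  (pl pl' : ℕ → ι) (a a' : ι) (φ : ι → E) (e0 e3 e4 : E) (ω : E → E → E → ℝ) (κG : ℝ),
  Frame e0 e3 e4 → Tri ω e3 e4 → Cyc (fun j => φ (pl j)) S ω e3 e4 → v ∈ S →
  T ⊆ S.erase v → 3 ≤ T.card → IntC (fun j => φ (pl j)) T e0 →
  (∃ c : ℝ, 0 < c ∧ φ a = c • (e0 + e3)) →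
  Set.InjOn pl S → Set.InjOn pl' (S.erase v) → a ∉ S.image pl → a' ∉ (S.erase v).image pl' →
  Disjoint (pF S pl a) (pF (S.erase v) pl' a') →
  ∃ (φ2 : ι → E) (N2 : Finset ι → Du) (Θ : E →ₗ[ℝ] E) (ω' : E → E → E → ℝ) (κG2 κG' : ℝ)
    (κ2 κ' : ℕ × ℕ → ℝ),
    Real (VA S v pl pl' a a') (FA S v pl pl' a a') φ2 N2 ∧ Iso Θ ∧
    (∀ w ∈ pF S pl a, φ2 w = φ w) ∧ (∀ j ∈ S.erase v, φ2 (pl' j) = Θ (φ (pl j))) ∧
    Port (FA S v pl pl' a a') φ2 N2 S T pl a e0 e3 (-e4) ω κG2 κ2 ∧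
    0 < κG + κG2 ∧ (∀ p ∈ Ed S, 0 < κ2 p) ∧
    Port (FA S v pl pl' a a') φ2 N2 (S.erase v) T pl' a' (Θ e0) (Θ e3) (-Θ e4) ω' κG' κ' ∧
    1 < κG' ∧ (∀ p ∈ Ed (S.erase v), 0 < κ' p)

/-- The hexagon is symmetric with respect to the frame. -/
def HexSym (g : ℕ → E) (h : List ℕ) (e0 : E) : Prop :=
  ∃ (e1 e2 : E) (s t : ℝ) (w : ℕ → ℝ), B e1 e1 = 1 ∧ B e2 e2 = 1 ∧ B e1 e2 = 0 ∧
    B e0 e1 = 0 ∧ B e0 e2 = 0 ∧ 0 < s ∧ s < 1 ∧ -s < t ∧ t < s ∧ (∀ i, 0 < w i) ∧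
    g (h.getD 0 0) = w 0 • (√(1 - s ^ 2) • e1 - s • e2 + e0) ∧
    g (h.getD 5 0) = w 5 • (-(√(1 - s ^ 2)) • e1 - s • e2 + e0) ∧
    g (h.getD 1 0) = w 1 • (√(1 - t ^ 2) • e1 + t • e2 + e0) ∧
    g (h.getD 4 0) = w 4 • (-(√(1 - t ^ 2)) • e1 + t • e2 + e0) ∧
    g (h.getD 2 0) = w 2 • (√(1 - s ^ 2) • e1 + s • e2 + e0) ∧
    g (h.getD 3 0) = w 3 • (-(√(1 - s ^ 2)) • e1 + s • e2 + e0)

/-- The three main chords meet in a point (of the projective plane). -/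
def HexRel (g : ℕ → E) (h : List ℕ) : Prop :=
  ∃ X : E, X ≠ 0 ∧ (∃ a b : ℝ, X = a • g (h.getD 0 0) + b • g (h.getD 5 0)) ∧
    (∃ a b : ℝ, X = a • g (h.getD 1 0) + b • g (h.getD 4 0)) ∧
    (∃ a b : ℝ, X = a • g (h.getD 2 0) + b • g (h.getD 3 0))

/-- Concurrent chords give a symmetric position. -/
def ClaimSym : Prop := ∀ (n : ℕ) (h : List ℕ) (g : ℕ → E) (ω : E → E → E → ℝ) (e0 e3 e4 : E),
  HexOK n h → Frame e0 e3 e4 → Tri ω e3 e4 → Cyc g h.toFinset ω e3 e4 → HexRel g h →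
  ∃ f0 : E, InPl e3 e4 f0 ∧ B f0 f0 = -1 ∧ 0 < f0 4 ∧ IntC g h.toFinset f0 ∧ HexSym g h f0

/-- Vertices of the leaf gadget. -/
def VL {ι : Type} [DecidableEq ι] (h : List ℕ) (pl : ℕ → ι) (a : ι) (x : ℕ → ℕ → ι) :
    Finset ι := pF h.toFinset pl a ∪ {x 0 0, x 0 1, x 1 0, x 1 1, x 2 0, x 2 1}

/-- Facets of the leaf gadget, without the port. -/
def FL {ι : Type} [DecidableEq ι] (q : ℕ → ι) (w : ι) (x : ℕ → ℕ → ι) : Finset (Finset ι) :=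
  {{q 0, q 1, q 2, q 3, q 4, q 5, x 2 0, x 2 1},
    {q 0, q 5, x 0 0, x 0 1, w}, {q 2, q 3, x 0 0, x 0 1, w},
    {q 0, q 1, x 0 0, w}, {q 1, q 2, x 0 0, w},
    {q 5, q 4, x 0 1, w}, {q 4, q 3, x 0 1, w},
    {q 0, q 5, x 0 0, x 0 1, x 1 0, x 1 1},
    {q 2, q 3, x 0 0, x 0 1, x 1 0, x 1 1},
    {q 0, q 5, x 1 0, x 1 1, x 2 0, x 2 1},
    {q 2, q 3, x 1 0, x 1 1, x 2 0, x 2 1},
    {q 1, x 0 0, x 1 0, x 2 0, q 0}, {q 1, x 0 0, x 1 0, x 2 0, q 2},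
    {q 4, x 0 1, x 1 1, x 2 1, q 5}, {q 4, x 0 1, x 1 1, x 2 1, q 3}}

/-- The leaf gadget. -/
def ClaimL : Prop := ∀ (ι : Type) (_ : DecidableEq ι) (n : ℕ) (h : List ℕ) (pl : ℕ → ι) (a : ι)
  (x : ℕ → ℕ → ι) (φ : ι → E) (e0 e3 e4 : E) (ω : E → E → E → ℝ),
  HexOK n h → Frame e0 e3 e4 → Tri ω e3 e4 →
  Cyc (fun j => φ (pl j)) h.toFinset ω e3 e4 → IntC (fun j => φ (pl j)) h.toFinset e0 →
  HexSym (fun j => φ (pl j)) h e0 →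
  (∃ c : ℝ, 0 < c ∧ φ a = c • (e0 + e3)) → Set.InjOn pl h.toFinset →
  a ∉ h.toFinset.image pl →
  (∀ i j, i < 3 → j < 2 → x i j ∉ pF h.toFinset pl a) →
  (∀ i j i' j', i < 3 → j < 2 → i' < 3 → j' < 2 → x i j = x i' j' → i = i' ∧ j = j') →
  ∃ (φ2 : ι → E) (N2 : Finset ι → Du) (κ2 : ℕ × ℕ → ℝ),
    Real (VL h pl a x) (insert (pF h.toFinset pl a) (FL (fun i => pl (h.getD i 0)) a x)) φ2 N2 ∧
    (∀ v ∈ pF h.toFinset pl a, φ2 v = φ v) ∧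
    Port (insert (pF h.toFinset pl a) (FL (fun i => pl (h.getD i 0)) a x)) φ2 N2 h.toFinset
      h.toFinset pl a e0 e3 (-e4) ω (-1) κ2 ∧
    (∀ p ∈ Ed h.toFinset, 0 < κ2 p)

/-! ### Global statements -/

/-- Facet lists as sets. -/
def fsets (Fs : List (List Lab)) : Finset (Finset Lab) := (Fs.map (fun F => F.toFinset)).toFinset

/-- The type is realized by a cone whose facets are exactly the given ones. -/
def StrongReal (Vs : List Lab) (Fs : List (List Lab)) : Prop :=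
  ∃ φ N, Real Vs.toFinset (fsets Fs) φ N

/-- There are light vectors such that every given set is the vertex set of a facet. -/
def WeakReal (Vs : List Lab) (Fs : List (List Lab)) : Prop :=
  ∃ φ : Lab → E, (∀ v ∈ Vs, Light (φ v)) ∧
    (∀ v ∈ Vs, ∀ w ∈ Vs, v ≠ w → ∀ c : ℝ, φ w ≠ c • φ v) ∧
    ∀ F ∈ Fs, F ⊆ Vs ∧ Module.finrank ℝ (Submodule.span ℝ (φ '' {v | v ∈ F})) = 4 ∧
      ∃ N : Du, (∀ v ∈ Vs, 0 ≤ N (φ v)) ∧ ∀ v ∈ Vs, N (φ v) = 0 ↔ v ∈ F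

/-- Completeness of the construction. -/
def ClaimBuild : Prop := ∀ o, OValid o → OSol o → StrongReal (labs o) (cpx o)

/-- Soundness of the construction. -/
def ClaimSound : Prop := ∀ o, OValid o → WeakReal (labs o) (cpx o) → OSol o

/-- From cones in `ℝ^(4,1)` to inscribed polytopes in `ℝ^d` (iterated pyramids). -/
def ClaimUp : Prop := ∀ (d : ℕ) (Vs : List Lab) (Fs : List (List Lab)), 4 ≤ d → Vs.Nodup →
  (∀ F ∈ Fs, F ⊆ Vs) → StrongReal Vs Fs → InscribedRealizable d (instOf d Vs Fs)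

/-- From inscribed polytopes in `ℝ^d` to light vectors in `ℝ^(4,1)`. -/
def ClaimDown : Prop := ∀ (d : ℕ) (Vs : List Lab) (Fs : List (List Lab)), 4 ≤ d → Vs.Nodup →
  (∀ F ∈ Fs, F ⊆ Vs) → InscribedRealizable d (instOf d Vs Fs) → WeakReal Vs Fs

/-- Easy facts on the lists. -/
def ClaimLists : Prop := ∀ o, OValid o → (labs o).Nodup ∧ ∀ F ∈ cpx o, F ⊆ labs o

end Pool.Agent.Work.MP_5b14b0_lc
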