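import Pool.Agent.Work.MP_5b14b0_lc.Stmts

/-!
# Basic facts on the Lorentz space, light vectors, reflections, frames
-/

set_option autoImplicit false

namespace Pool.Agent.Work.MP_5b14b0_lc

open Finset

/-! ### The form -/

theorem B_comm (x y : E) : B x y = B y x := by unfold B; ring

theorem B_add_left (x y z : E) : B (x + y) z = B x z + B y z := by
  unfold B; simp only [Pi.add_apply]; ring

theorem B_add_right (x y z : E) : B x (y + z) = B x y + B x z := by
  unfold B; simp only [Pi.add_apply]; ring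

theorem B_sub_left (x y z : E) : B (x - y) z = B x z - B y z := by
  unfold B; simp only [Pi.sub_apply]; ring

theorem B_sub_right (x y z : E) : B x (y - z) = B x y - B x z := by
  unfold B; simp only [Pi.sub_apply]; ring

theorem B_neg_left (x y : E) : B (-x) y = - B x y := by
  unfold B; simp only [Pi.neg_apply]; ring

theorem B_neg_right (x y : E) : B x (-y) = - B x y := by
  unfold B; simp only [Pi.neg_apply]; ring

theorem B_smul_left (c : ℝ) (x y : E) : B (c • x) y = c * B x y := by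
  unfold B; simp only [Pi.smul_apply, smul_eq_mul]; ring

theorem B_smul_right (c : ℝ) (x y : E) : B x (c • y) = c * B x y := by
  unfold B; simp only [Pi.smul_apply, smul_eq_mul]; ring

theorem B_zero_left (y : E) : B 0 y = 0 := by unfold B; simp

theorem B_zero_right (x : E) : B x 0 = 0 := by unfold B; simp

/-- The functional `x ↦ B x y`. -/
def BL (y : E) : Du where
  toFun x := B x y
  map_add' x x' := B_add_left x x' y
  map_smul' c x := by simp [B_smul_left]

@[simp] theorem BL_apply (y x : E) : BL y x = B x y := rfl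

theorem B_sum_left {ι : Type} (s : Finset ι) (f : ι → E) (y : E) :
    B (∑ i ∈ s, f i) y = ∑ i ∈ s, B (f i) y := by
  exact map_sum (BL y) f s

theorem B_sum_right {ι : Type} (s : Finset ι) (f : ι → E) (y : E) :
    B y (∑ i ∈ s, f i) = ∑ i ∈ s, B y (f i) := by
  rw [B_comm, B_sum_left]
  exact Finset.sum_congr rfl (fun i _ => B_comm _ _)

/-- The form is nondegenerate. -/
theorem eq_zero_of_B {x : E} (h : ∀ y, B x y = 0) : x = 0 := by
  funext i
  have := h (Pi.single i 1)
  fin_cases i <;> simp [B] at this <;> simpa using this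

/-! ### Light vectors -/

theorem Light.sq {x : E} (h : Light x) : x 0 ^ 2 + x 1 ^ 2 + x 2 ^ 2 + x 3 ^ 2 = x 4 ^ 2 := by
  have := h.1; unfold B at this; linarith

theorem Light.smul {x : E} (h : Light x) {c : ℝ} (hc : 0 < c) : Light (c • x) :=
  ⟨by rw [B_smul_left, B_smul_right, h.1]; ring, by
    simpa using mul_pos hc h.2⟩

theorem Light.ne_zero {x : E} (h : Light x) : x ≠ 0 := by
  rintro rfl; have := h.2; simp at this

/-- Cauchy-Schwarz for the spatial part. -/
theorem cs4 (x y : E) : (x 0 * y 0 + x 1 * y 1 + x 2 * y 2 + x 3 * y 3) ^ 2 ≤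
    (x 0 ^ 2 + x 1 ^ 2 + x 2 ^ 2 + x 3 ^ 2) * (y 0 ^ 2 + y 1 ^ 2 + y 2 ^ 2 + y 3 ^ 2) := by
  nlinarith [sq_nonneg (x 0 * y 1 - x 1 * y 0), sq_nonneg (x 0 * y 2 - x 2 * y 0),
    sq_nonneg (x 0 * y 3 - x 3 * y 0), sq_nonneg (x 1 * y 2 - x 2 * y 1),
    sq_nonneg (x 1 * y 3 - x 3 * y 1), sq_nonneg (x 2 * y 3 - x 3 * y 2)]

/-- Two causal future vectors have nonpositive product. -/
theorem B_causal_nonpos {x y : E} (hx : B x x ≤ 0) (hx0 : 0 ≤ x 4) (hy : B y y ≤ 0)
    (hy0 : 0 ≤ y 4) : B x y ≤ 0 := by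
  have h1 : x 0 ^ 2 + x 1 ^ 2 + x 2 ^ 2 + x 3 ^ 2 ≤ x 4 ^ 2 := by unfold B at hx; linarith
  have h2 : y 0 ^ 2 + y 1 ^ 2 + y 2 ^ 2 + y 3 ^ 2 ≤ y 4 ^ 2 := by unfold B at hy; linarith
  have h3 : (x 0 * y 0 + x 1 * y 1 + x 2 * y 2 + x 3 * y 3) ^ 2 ≤ (x 4 * y 4) ^ 2 := by
    refine (cs4 x y).trans ?_
    rw [mul_pow]
    exact mul_le_mul h1 h2 (by positivity) (by positivity)
  have h4 := (le_abs_self _).trans (abs_le_of_sq_le_sq h3 (mul_nonneg hx0 hy0))
  unfold B
  linarith

theorem B_light_nonpos {x y : E} (hx : Light x) (hy : Light y) : B x y ≤ 0 :=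
  B_causal_nonpos hx.1.le hx.2.le hy.1.le hy.2.le

/-- A timelike future vector and a causal nonzero future vector have negative product. -/
theorem B_time_neg {x y : E} (hx : B x x < 0) (hx0 : 0 < x 4) (hy : B y y ≤ 0)
    (hy0 : 0 < y 4) : B x y < 0 := by
  have h1 : x 0 ^ 2 + x 1 ^ 2 + x 2 ^ 2 + x 3 ^ 2 < x 4 ^ 2 := by unfold B at hx; linarith
  have h2 : y 0 ^ 2 + y 1 ^ 2 + y 2 ^ 2 + y 3 ^ 2 ≤ y 4 ^ 2 := by unfold B at hy; linarith
  have h3 : (x 0 * y 0 + x 1 * y 1 + x 2 * y 2 + x 3 * y 3) ^ 2 < (x 4 * y 4) ^ 2 := by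
    refine (cs4 x y).trans_lt ?_
    rw [mul_pow]
    exact mul_lt_mul_of_nonneg_of_pos h1 h2 (by positivity) (by positivity)
  have h4 := (le_abs_self _).trans_lt (abs_lt_of_sq_lt_sq h3 (mul_pos hx0 hy0).le)
  unfold B
  linarith

theorem B_time_light_neg {x y : E} (hx : B x x < 0) (hx0 : 0 < x 4) (hy : Light y) :
    B x y < 0 := B_time_neg hx hx0 hy.1.le hy.2

/-- Product of two timelike unit vectors. -/
theorem B_time_time {x y : E} (hx : B x x = -1) (hx0 : 0 < x 4) (hy : B y y = -1)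
    (hy0 : 0 < y 4) : B x y ≤ -1 := by
  by_contra hc
  push Not at hc
  have h1 : B x y < 0 := B_time_neg (by linarith) hx0 (by linarith) hy0
  -- `x - y` would be timelike with zero product with `x + y`
  have hm : B (x - y) (x - y) < 0 := by
    rw [B_sub_left, B_sub_right, B_sub_right, hx, hy, B_comm y x]; linarith
  have hp : B (x + y) (x + y) < 0 := by
    rw [B_add_left, B_add_right, B_add_right, hx, hy, B_comm y x]; linarith
  have ho : B (x + y) (x - y) = 0 := by
    rw [B_add_left, B_sub_right, B_sub_right, hx, hy, B_comm y x]; ring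
  have h40 : (x - y) 4 ≠ 0 := by
    intro h
    have h2 := hm
    unfold B at h2
    rw [h] at h2
    nlinarith [sq_nonneg ((x - y) 0), sq_nonneg ((x - y) 1), sq_nonneg ((x - y) 2),
      sq_nonneg ((x - y) 3)]
  rcases lt_or_gt_of_ne h40 with h | h
  · have h5 := B_time_neg hp (by simpa using add_pos hx0 hy0) (y := -(x - y))
      (by rw [B_neg_left, B_neg_right]; linarith) (by simp only [Pi.neg_apply]; linarith)
    rw [B_neg_right, ho] at h5; linarith
  · have h5 := B_time_neg hp (by simpa using add_pos hx0 hy0) hm.le h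
    rw [ho] at h5; linarith

/-- A causal vector with negative product with a light vector is future. -/
theorem fut_of_neg {x y : E} (hx : B x x ≤ 0) (hy : Light y) (h : B x y < 0) : 0 < x 4 := by
  by_contra hc
  push Not at hc
  have h5 := B_causal_nonpos (x := -x) (by rw [B_neg_left, B_neg_right]; linarith)
    (by simp only [Pi.neg_apply]; linarith) hy.1.le hy.2.le
  rw [B_neg_left] at h5; linarith

theorem fut_of_neg' {x y : E} (hx : B x x ≤ 0) (hy : B y y ≤ 0) (hy0 : 0 < y 4)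
    (h : B x y < 0) : 0 < x 4 := by
  by_contra hc
  push Not at hc
  have h5 := B_causal_nonpos (x := -x) (by rw [B_neg_left, B_neg_right]; linarith)
    (by simp only [Pi.neg_apply]; linarith) hy hy0.le
  rw [B_neg_left] at h5; linarith

/-- Orthogonal light vectors are proportional. -/
theorem B_light_eq_zero {x y : E} (hx : Light x) (hy : Light y) (h : B x y = 0) :
    ∃ c : ℝ, 0 < c ∧ y = c • x := by
  refine ⟨y 4 / x 4, div_pos hy.2 hx.2, ?_⟩
  have h1 := hx.sq
  have h2 := hy.sq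
  have hx4 := hx.2
  have h3 : x 0 * y 0 + x 1 * y 1 + x 2 * y 2 + x 3 * y 3 = x 4 * y 4 := by
    unfold B at h; linarith
  -- the spatial parts of `x 4 • y - y 4 • x` vanish
  have h4 : (x 4 * y 0 - y 4 * x 0) ^ 2 + (x 4 * y 1 - y 4 * x 1) ^ 2 +
      (x 4 * y 2 - y 4 * x 2) ^ 2 + (x 4 * y 3 - y 4 * x 3) ^ 2 = 0 := by
    have e : (x 4 * y 0 - y 4 * x 0) ^ 2 + (x 4 * y 1 - y 4 * x 1) ^ 2 +
      (x 4 * y 2 - y 4 * x 2) ^ 2 + (x 4 * y 3 - y 4 * x 3) ^ 2 =
      x 4 ^ 2 * (y 0 ^ 2 + y 1 ^ 2 + y 2 ^ 2 + y 3 ^ 2) +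
      y 4 ^ 2 * (x 0 ^ 2 + x 1 ^ 2 + x 2 ^ 2 + x 3 ^ 2) -
      2 * x 4 * y 4 * (x 0 * y 0 + x 1 * y 1 + x 2 * y 2 + x 3 * y 3) := by ring
    rw [e, h1, h2, h3]; ring
  have k0 : x 4 * y 0 - y 4 * x 0 = 0 := by
    have : (x 4 * y 0 - y 4 * x 0) ^ 2 = 0 := by
      nlinarith [sq_nonneg (x 4 * y 0 - y 4 * x 0), sq_nonneg (x 4 * y 1 - y 4 * x 1),
        sq_nonneg (x 4 * y 2 - y 4 * x 2), sq_nonneg (x 4 * y 3 - y 4 * x 3)]
    exact pow_eq_zero_iff (two_ne_zero) |>.1 this
  have k1 : x 4 * y 1 - y 4 * x 1 = 0 := by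
    have : (x 4 * y 1 - y 4 * x 1) ^ 2 = 0 := by
      nlinarith [sq_nonneg (x 4 * y 0 - y 4 * x 0), sq_nonneg (x 4 * y 1 - y 4 * x 1),
        sq_nonneg (x 4 * y 2 - y 4 * x 2), sq_nonneg (x 4 * y 3 - y 4 * x 3)]
    exact pow_eq_zero_iff (two_ne_zero) |>.1 this
  have k2 : x 4 * y 2 - y 4 * x 2 = 0 := by
    have : (x 4 * y 2 - y 4 * x 2) ^ 2 = 0 := by
      nlinarith [sq_nonneg (x 4 * y 0 - y 4 * x 0), sq_nonneg (x 4 * y 1 - y 4 * x 1),
        sq_nonneg (x 4 * y 2 - y 4 * x 2), sq_nonneg (x 4 * y 3 - y 4 * x 3)]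
    exact pow_eq_zero_iff (two_ne_zero) |>.1 this
  have k3 : x 4 * y 3 - y 4 * x 3 = 0 := by
    have : (x 4 * y 3 - y 4 * x 3) ^ 2 = 0 := by
      nlinarith [sq_nonneg (x 4 * y 0 - y 4 * x 0), sq_nonneg (x 4 * y 1 - y 4 * x 1),
        sq_nonneg (x 4 * y 2 - y 4 * x 2), sq_nonneg (x 4 * y 3 - y 4 * x 3)]
    exact pow_eq_zero_iff (two_ne_zero) |>.1 this
  funext i
  fin_cases i <;> simp <;> field_simp <;> linarith

/-- Nonproportional light vectors have negative product. -/
theorem B_light_neg {x y : E} (hx : Light x) (hy : Light y) (h : ∀ c : ℝ, y ≠ c • x) :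
    B x y < 0 := by
  rcases lt_or_eq_of_le (B_light_nonpos hx hy) with h1 | h1
  · exact h1
  · obtain ⟨c, _, hc⟩ := B_light_eq_zero hx hy h1
    exact absurd hc (h c)

theorem light_ne_symm {x y : E} (hx : Light x) (h : ∀ c : ℝ, y ≠ c • x) (c : ℝ) :
    x ≠ c • y := by
  intro hc
  rcases eq_or_ne c 0 with rfl | h0
  · rw [zero_smul] at hc
    exact hx.ne_zero hc
  · exact h c⁻¹ (by rw [hc, smul_smul, inv_mul_cancel₀ h0, one_smul])

/-- Three pairwise nonproportional light vectors are independent. -/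
theorem light_indep {x y z : E} (hx : Light x) (hy : Light y) (hz : Light z)
    (hxy : ∀ c : ℝ, y ≠ c • x) (hxz : ∀ c : ℝ, z ≠ c • x) (hyz : ∀ c : ℝ, z ≠ c • y)
    {a b c : ℝ} (h : a • x + b • y + c • z = 0) : a = 0 ∧ b = 0 ∧ c = 0 := by
  have nxy := B_light_neg hx hy hxy
  have nxz := B_light_neg hx hz hxz
  have nyz := B_light_neg hy hz hyz
  have e1 : b * B x y + c * B x z = 0 := by
    have := congrArg (fun v => B v x) h
    simp only [B_add_left, B_smul_left, B_zero_left, hx.1] at this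
    rw [B_comm y x, B_comm z x] at this; linarith
  have e2 : a * B x y + c * B y z = 0 := by
    have := congrArg (fun v => B v y) h
    simp only [B_add_left, B_smul_left, B_zero_left, hy.1] at this
    rw [B_comm z y] at this; linarith
  have e3 : a * B x z + b * B y z = 0 := by
    have := congrArg (fun v => B v z) h
    simp only [B_add_left, B_smul_left, B_zero_left, hz.1] at this
    linarith
  have hc : c = 0 := by
    have : 2 * c * (B x z * B y z) = 0 := by
      have h1 : B x y * (a * B x z + b * B y z) = 0 := by rw [e3]; ring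
      have h2 : (a * B x y) = - (c * B y z) := by linarith
      have h3 : (b * B x y) = - (c * B x z) := by linarith
      have h4 : B x y * (a * B x z + b * B y z) =
        (a * B x y) * B x z + (b * B x y) * B y z := by ring
      rw [h4, h2, h3] at h1
      linarith
    have hn : B x z * B y z ≠ 0 := (mul_pos_of_neg_of_neg nxz nyz).ne'
    rcases mul_eq_zero.1 this with h0 | h0
    · linarith
    · exact absurd h0 hn
  subst hc
  refine ⟨?_, ?_, rfl⟩
  · rcases mul_eq_zero.1 (show a * B x y = 0 by linarith) with h0 | h0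
    · exact h0
    · exact absurd h0 nxy.ne
  · rcases mul_eq_zero.1 (show b * B x y = 0 by linarith) with h0 | h0
    · exact h0
    · exact absurd h0 nxy.ne

theorem light_linearIndependent {x y z : E} (hx : Light x) (hy : Light y) (hz : Light z)
    (hxy : ∀ c : ℝ, y ≠ c • x) (hxz : ∀ c : ℝ, z ≠ c • x) (hyz : ∀ c : ℝ, z ≠ c • y) :
    LinearIndependent ℝ ![x, y, z] := by
  rw [Fintype.linearIndependent_iff]
  intro g hg
  simp only [Fin.sum_univ_three, Matrix.cons_val_zero, Matrix.cons_val_one,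
    Matrix.cons_val_two] at hg
  obtain ⟨h0, h1, h2⟩ := light_indep hx hy hz hxy hxz hyz hg
  intro i
  fin_cases i
  · exact h0
  · exact h1
  · exact h2

/-- Two nonproportional light vectors are independent. -/
theorem light_indep2 {x y : E} (hx : Light x) (hy : Light y)
    (hxy : ∀ c : ℝ, y ≠ c • x) {a b : ℝ} (h : a • x + b • y = 0) : a = 0 ∧ b = 0 := by
  have nxy := B_light_neg hx hy hxy
  have e1 : b * B x y = 0 := by
    have := congrArg (fun v => B v x) h
    simp only [B_add_left, B_smul_left, B_zero_left, hx.1] at this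
    rw [B_comm y x] at this; linarith
  have e2 : a * B x y = 0 := by
    have := congrArg (fun v => B v y) h
    simp only [B_add_left, B_smul_left, B_zero_left, hy.1] at this
    linarith
  exact ⟨(mul_eq_zero.1 e2).resolve_right nxy.ne, (mul_eq_zero.1 e1).resolve_right nxy.ne⟩

/-- A light vector in the span of two nonproportional light vectors is a multiple of one of
them. -/
theorem light_in_span2 {x y z : E} (hx : Light x) (hy : Light y) (hz : Light z)
    (hxy : ∀ c : ℝ, y ≠ c • x) {a b : ℝ} (h : z = a • x + b • y) :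
    (z = a • x ∧ b = 0) ∨ (z = b • y ∧ a = 0) := by
  have nxy := B_light_neg hx hy hxy
  have h1 : 2 * (a * b) * B x y = 0 := by
    have := hz.1
    rw [h] at this
    simp only [B_add_left, B_add_right, B_smul_left, B_smul_right, hx.1, hy.1] at this
    rw [B_comm y x] at this
    linarith
  rcases mul_eq_zero.1 h1 with h2 | h2
  · rcases mul_eq_zero.1 (show a * b = 0 by linarith) with h3 | h3
    · right; exact ⟨by rw [h, h3, zero_smul, zero_add], h3⟩
    · left; exact ⟨by rw [h, h3, zero_smul, add_zero], h3⟩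
  · exact absurd h2 nxy.ne

/-! ### Reflections -/

theorem refl_add (Y x y : E) : refl Y (x + y) = refl Y x + refl Y y := by
  unfold refl; rw [B_add_left, mul_add, add_div, add_smul]; abel

theorem refl_smul (Y : E) (c : ℝ) (x : E) : refl Y (c • x) = c • refl Y x := by
  unfold refl; rw [B_smul_left, smul_sub, smul_smul]; congr 2; ring

theorem refl_zero (Y : E) : refl Y 0 = 0 := by
  have := refl_smul Y 0 0; simpa using this

theorem refl_neg (Y x : E) : refl Y (-x) = - refl Y x := by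
  have := refl_smul Y (-1) x; simpa using this

theorem refl_sub (Y x y : E) : refl Y (x - y) = refl Y x - refl Y y := by
  rw [sub_eq_add_neg, refl_add, refl_neg, ← sub_eq_add_neg]

/-- The reflection as a linear map. -/
noncomputable def reflL (Y : E) : E →ₗ[ℝ] E where
  toFun x := refl Y x
  map_add' x x' := refl_add Y x x'
  map_smul' c x := refl_smul Y c x

@[simp] theorem reflL_apply (Y x : E) : reflL Y x = refl Y x := rfl

theorem B_refl_self {Y : E} (hY : B Y Y ≠ 0) (x : E) : B (refl Y x) Y = - B x Y := by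
  unfold refl; rw [B_sub_left, B_smul_left]; field_simp; ring

theorem B_refl_left (Y x y : E) : B (refl Y x) y = B x (refl Y y) := by
  unfold refl
  rw [B_sub_left, B_smul_left, B_sub_right, B_smul_right, B_comm Y y]; ring

theorem refl_refl {Y : E} (hY : B Y Y ≠ 0) (x : E) : refl Y (refl Y x) = x := by
  have h := B_refl_self hY x
  have : refl Y (refl Y x) = refl Y x - (2 * B (refl Y x) Y / B Y Y) • Y := rfl
  rw [this, h]
  unfold refl
  rw [show 2 * -B x Y / B Y Y = -(2 * B x Y / B Y Y) by ring, neg_smul]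
  abel

theorem B_refl_refl {Y : E} (hY : B Y Y ≠ 0) (x y : E) :
    B (refl Y x) (refl Y y) = B x y := by
  rw [B_refl_left, refl_refl hY]

theorem refl_Y {Y : E} (hY : B Y Y ≠ 0) : refl Y Y = -Y := by
  unfold refl
  rw [mul_div_assoc, div_self hY, mul_one, two_smul]; abel

/-- A spacelike vector is orthogonal to a future timelike vector. -/
theorem refl_light {Y x : E} (hY : 0 < B Y Y) (hx : Light x) : Light (refl Y x) := by
  refine ⟨by rw [B_refl_refl hY.ne', hx.1], ?_⟩
  -- `u = Y 4 • Y + B Y Y • e`, `e` the time vector, is orthogonal to `Y`, timelike and future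
  set e : E := Pi.single 4 1 with he
  have Be : ∀ z : E, B z e = - z 4 := by intro z; simp [B, he]
  set u : E := (Y 4) • Y + (B Y Y) • e with hu
  have uY : B u Y = 0 := by
    rw [hu, B_add_left, B_smul_left, B_smul_left, B_comm e Y, Be]; ring
  have e4 : e 4 = 1 := by simp [he]
  have u4 : u 4 = Y 4 ^ 2 + B Y Y := by
    rw [hu]; simp only [Pi.add_apply, Pi.smul_apply, smul_eq_mul, e4]; ring
  have u4p : 0 < u 4 := by rw [u4]; positivity
  have uu : B u u < 0 := by
    have : B u u = - (B Y Y) * (u 4) := by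
      conv_lhs => rw [hu]
      rw [B_add_left, B_smul_left, B_smul_left, B_comm Y, uY, B_comm e, Be]; ring
    rw [this]; nlinarith [mul_pos hY u4p]
  have h1 : B u x < 0 := B_time_light_neg uu u4p hx
  have h2 : B (refl Y x) u < 0 := by
    unfold refl
    rw [B_sub_left, B_smul_left, B_comm Y u, uY, B_comm x u]; linarith
  exact fut_of_neg' (by rw [B_refl_refl hY.ne', hx.1]) uu.le u4p h2

theorem iso_refl {Y : E} (hY : 0 < B Y Y) : Iso (reflL Y) where
  isom x y := B_refl_refl hY.ne' x y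
  fut _ h := refl_light hY h
  surj x := ⟨refl Y x, refl_refl hY.ne' x⟩

/-! ### Isometries -/

theorem Iso.inj {Θ : E →ₗ[ℝ] E} (h : Iso Θ) : Function.Injective Θ := by
  rw [injective_iff_map_eq_zero]
  intro x hx
  exact eq_zero_of_B (fun y => by rw [← h.isom, hx, B_zero_left])

theorem Iso.bij {Θ : E →ₗ[ℝ] E} (h : Iso Θ) : Function.Bijective Θ := ⟨h.inj, h.surj⟩

theorem Iso.comp {Θ Θ' : E →ₗ[ℝ] E} (h : Iso Θ) (h' : Iso Θ') : Iso (Θ ∘ₗ Θ') where
  isom x y := by rw [LinearMap.comp_apply, LinearMap.comp_apply, h.isom, h'.isom]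
  fut x hx := h.fut _ (h'.fut x hx)
  surj := h.surj.comp h'.surj

theorem Iso.id : Iso (LinearMap.id : E →ₗ[ℝ] E) where
  isom _ _ := rfl
  fut _ h := h
  surj := Function.surjective_id

/-! ### Frames -/

theorem Frame.light_add {e0 e3 e4 : E} (h : Frame e0 e3 e4) : Light (e0 + e3) := by
  have h0 : B (e0 + e3) (e0 + e3) = 0 := by
    rw [B_add_left, B_add_right, B_add_right, B_comm e3 e0, h.n0, h.n3, h.o03]; ring
  refine ⟨h0, fut_of_neg' h0.le (by rw [h.n0]; norm_num : B e0 e0 ≤ 0) h.fut ?_⟩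
  rw [B_add_left, B_comm e3 e0, h.n0, h.o03]; norm_num

theorem Frame.light_add' {e0 e3 e4 : E} (h : Frame e0 e3 e4) {x : E} (hx : B e0 x = 0)
    (hx1 : B x x = 1) : Light (e0 + x) := by
  have h0 : B (e0 + x) (e0 + x) = 0 := by
    rw [B_add_left, B_add_right, B_add_right, B_comm x e0, h.n0, hx, hx1]; ring
  refine ⟨h0, fut_of_neg' h0.le (by rw [h.n0]; norm_num : B e0 e0 ≤ 0) h.fut ?_⟩
  rw [B_add_left, B_comm x e0, h.n0, hx]; norm_num

theorem Frame.neg4 {e0 e3 e4 : E} (h : Frame e0 e3 e4) : Frame e0 e3 (-e4) where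
  n0 := h.n0
  n3 := h.n3
  n4 := by rw [B_neg_left, B_neg_right, h.n4]; ring
  o03 := h.o03
  o04 := by rw [B_neg_right, h.o04, neg_zero]
  o34 := by rw [B_neg_right, h.o34, neg_zero]
  fut := h.fut

theorem Frame.neg3 {e0 e3 e4 : E} (h : Frame e0 e3 e4) : Frame e0 (-e3) e4 where
  n0 := h.n0
  n3 := by rw [B_neg_left, B_neg_right, h.n3]; ring
  n4 := h.n4
  o03 := by rw [B_neg_right, h.o03, neg_zero]
  o04 := h.o04
  o34 := by rw [B_neg_left, h.o34, neg_zero]
  fut := h.fut

theorem Frame.swap {e0 e3 e4 : E} (h : Frame e0 e3 e4) : Frame e0 e4 e3 where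
  n0 := h.n0
  n3 := h.n4
  n4 := h.n3
  o03 := h.o04
  o04 := h.o03
  o34 := by rw [B_comm, h.o34]
  fut := h.fut

theorem Iso.frame {Θ : E →ₗ[ℝ] E} (hΘ : Iso Θ) {e0 e3 e4 : E} (h : Frame e0 e3 e4) :
    Frame (Θ e0) (Θ e3) (Θ e4) where
  n0 := by rw [hΘ.isom, h.n0]
  n3 := by rw [hΘ.isom, h.n3]
  n4 := by rw [hΘ.isom, h.n4]
  o03 := by rw [hΘ.isom, h.o03]
  o04 := by rw [hΘ.isom, h.o04]
  o34 := by rw [hΘ.isom, h.o34]
  fut := by
    have h1 := hΘ.fut _ h.light_add
    refine fut_of_neg (y := Θ (e0 + e3)) (by rw [hΘ.isom, h.n0]; norm_num) h1 ?_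
    rw [hΘ.isom, B_add_right, h.n0, h.o03]; norm_num

/-- Changing the time vector of a frame. -/
theorem Frame.change {e0 e3 e4 f0 : E} (h : Frame e0 e3 e4) (hf : InPl e3 e4 f0)
    (h1 : B f0 f0 = -1) (h2 : 0 < f0 4) : Frame f0 e3 e4 where
  n0 := h1
  n3 := h.n3
  n4 := h.n4
  o03 := hf.1
  o04 := hf.2
  o34 := h.o34
  fut := h2

theorem Frame.inPl {e0 e3 e4 : E} (h : Frame e0 e3 e4) : InPl e3 e4 e0 := ⟨h.o03, h.o04⟩

theorem InPl.add {e3 e4 x y : E} (hx : InPl e3 e4 x) (hy : InPl e3 e4 y) :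
    InPl e3 e4 (x + y) :=
  ⟨by rw [B_add_left, hx.1, hy.1, add_zero], by rw [B_add_left, hx.2, hy.2, add_zero]⟩

theorem InPl.smul {e3 e4 x : E} (hx : InPl e3 e4 x) (c : ℝ) : InPl e3 e4 (c • x) :=
  ⟨by rw [B_smul_left, hx.1, mul_zero], by rw [B_smul_left, hx.2, mul_zero]⟩

theorem InPl.sub {e3 e4 x y : E} (hx : InPl e3 e4 x) (hy : InPl e3 e4 y) :
    InPl e3 e4 (x - y) :=
  ⟨by rw [B_sub_left, hx.1, hy.1, sub_zero], by rw [B_sub_left, hx.2, hy.2, sub_zero]⟩

theorem InPl.zero {e3 e4 : E} : InPl e3 e4 0 := ⟨B_zero_left _, B_zero_left _⟩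

theorem InPl.neg4 {e3 e4 x : E} (hx : InPl e3 e4 x) : InPl e3 (-e4) x :=
  ⟨hx.1, by rw [B_neg_right, hx.2, neg_zero]⟩

theorem InPl.swap {e3 e4 x : E} (hx : InPl e3 e4 x) : InPl e4 e3 x := ⟨hx.2, hx.1⟩

theorem Iso.inPl {Θ : E →ₗ[ℝ] E} (hΘ : Iso Θ) {e3 e4 x : E} (hx : InPl e3 e4 x) :
    InPl (Θ e3) (Θ e4) (Θ x) := ⟨by rw [hΘ.isom, hx.1], by rw [hΘ.isom, hx.2]⟩

/-- Decomposition of a vector. -/
theorem Frame.proj {e0 e3 e4 : E} (h : Frame e0 e3 e4) (x : E) :
    InPl e3 e4 (x - B x e3 • e3 - B x e4 • e4) := by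
  constructor
  · rw [B_sub_left, B_sub_left, B_smul_left, B_smul_left, h.n3, B_comm e4 e3, h.o34]; ring
  · rw [B_sub_left, B_sub_left, B_smul_left, B_smul_left, h.n4, h.o34]; ring

theorem Frame.decomp {e0 e3 e4 : E} (h : Frame e0 e3 e4) (x : E) :
    ∃ p, InPl e3 e4 p ∧ x = p + B x e3 • e3 + B x e4 • e4 :=
  ⟨_, h.proj x, by abel⟩

/-! ### Trilinear forms -/

namespace Tri

variable {ω : E → E → E → ℝ} {e3 e4 : E}

theorem rot' (h : Tri ω e3 e4) (x y z : E) : ω x y z = ω z x y := by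
  rw [h.rot x y z, h.rot y z x]

theorem add2 (h : Tri ω e3 e4) (x y y' z : E) : ω x (y + y') z = ω x y z + ω x y' z := by
  rw [h.rot x (y + y') z, h.add, ← h.rot x y z, ← h.rot x y' z]

theorem add3 (h : Tri ω e3 e4) (x y z z' : E) : ω x y (z + z') = ω x y z + ω x y z' := by
  rw [h.rot' x y (z + z'), h.add, ← h.rot' x y z, ← h.rot' x y z']

theorem smul2 (h : Tri ω e3 e4) (c : ℝ) (x y z : E) : ω x (c • y) z = c * ω x y z := by
  rw [h.rot, h.smul, ← h.rot]

theorem smul3 (h : Tri ω e3 e4) (c : ℝ) (x y z : E) : ω x y (c • z) = c * ω x y z := by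
  rw [h.rot', h.smul, ← h.rot']

theorem neg1 (h : Tri ω e3 e4) (x y z : E) : ω (-x) y z = - ω x y z := by
  have := h.smul (-1) x y z
  rwa [neg_one_smul, neg_one_mul] at this

theorem neg2 (h : Tri ω e3 e4) (x y z : E) : ω x (-y) z = - ω x y z := by
  rw [h.rot, h.neg1, ← h.rot]

theorem neg3 (h : Tri ω e3 e4) (x y z : E) : ω x y (-z) = - ω x y z := by
  rw [h.rot', h.neg1, ← h.rot']

theorem sub1 (h : Tri ω e3 e4) (x x' y z : E) : ω (x - x') y z = ω x y z - ω x' y z := by
  rw [sub_eq_add_neg, h.add, h.neg1, sub_eq_add_neg]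

theorem sub2 (h : Tri ω e3 e4) (x y y' z : E) : ω x (y - y') z = ω x y z - ω x y' z := by
  rw [sub_eq_add_neg, h.add2, h.neg2, sub_eq_add_neg]

theorem sub3 (h : Tri ω e3 e4) (x y z z' : E) : ω x y (z - z') = ω x y z - ω x y z' := by
  rw [sub_eq_add_neg, h.add3, h.neg3, sub_eq_add_neg]

theorem zero1 (h : Tri ω e3 e4) (y z : E) : ω 0 y z = 0 := by
  have := h.smul 0 0 y z
  rwa [zero_smul, zero_mul] at this

theorem zero2 (h : Tri ω e3 e4) (x z : E) : ω x 0 z = 0 := by rw [h.rot, h.zero1]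

theorem zero3 (h : Tri ω e3 e4) (x y : E) : ω x y 0 = 0 := by rw [h.rot', h.zero1]

theorem swap23 (h : Tri ω e3 e4) (x y z : E) : ω x y z = - ω x z y := by
  rw [h.rot x y z, h.swap y z x, ← h.rot' y x z, h.rot' x z y, h.rot' y x z, h.rot' z y x]

theorem swap13 (h : Tri ω e3 e4) (x y z : E) : ω x y z = - ω z y x := by
  rw [h.swap, h.rot, ← h.rot']

theorem self12 (h : Tri ω e3 e4) (x z : E) : ω x x z = 0 := by
  have := h.swap x x z; linarith

theorem self23 (h : Tri ω e3 e4) (x z : E) : ω z x x = 0 := by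
  have := h.swap23 z x x; linarith

theorem self13 (h : Tri ω e3 e4) (x z : E) : ω x z x = 0 := by
  have := h.swap13 x z x; linarith

theorem sum1 (h : Tri ω e3 e4) {ι : Type} (s : Finset ι) (f : ι → E) (y z : E) :
    ω (∑ i ∈ s, f i) y z = ∑ i ∈ s, ω (f i) y z := by
  classical
  induction s using Finset.induction_on with
  | empty => simp [h.zero1]
  | insert a s ha ih => rw [sum_insert ha, sum_insert ha, h.add, ih]

theorem sum3 (h : Tri ω e3 e4) {ι : Type} (s : Finset ι) (f : ι → E) (x y : E) :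
    ω x y (∑ i ∈ s, f i) = ∑ i ∈ s, ω x y (f i) := by
  rw [h.rot', h.sum1]; exact sum_congr rfl (fun i _ => (h.rot' _ _ _).symm)

theorem z3' (h : Tri ω e3 e4) (x y : E) : ω x y e3 = 0 := by rw [h.rot', h.z3]

theorem z4' (h : Tri ω e3 e4) (x y : E) : ω x y e4 = 0 := by rw [h.rot', h.z4]

/-- The functional `x ↦ ω y z x`. -/
def lin (h : Tri ω e3 e4) (y z : E) : Du where
  toFun x := ω y z x
  map_add' x x' := h.add3 y z x x'
  map_smul' c x := h.smul3 c y z x

@[simp] theorem lin_apply (h : Tri ω e3 e4) (y z x : E) : h.lin y z x = ω y z x := rfl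

theorem neg4 (h : Tri ω e3 e4) : Tri ω e3 (-e4) where
  add := h.add
  smul := h.smul
  rot := h.rot
  swap := h.swap
  z3 := h.z3
  z4 y z := by rw [h.neg1, h.z4, neg_zero]
  cramer x y z w hx hy hz hw := by
    have k : ∀ v, InPl e3 (-e4) v → InPl e3 e4 v := fun v hv => by
      have := hv.neg4; rwa [neg_neg] at this
    exact h.cramer x y z w (k x hx) (k y hy) (k z hz) (k w hw)

theorem swap' (h : Tri ω e3 e4) : Tri ω e4 e3 where
  add := h.add
  smul := h.smul
  rot := h.rot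
  swap := h.swap
  z3 := h.z4
  z4 := h.z3
  cramer x y z w hx hy hz hw := h.cramer x y z w hx.swap hy.swap hz.swap hw.swap

/-- A vector of the plane killed by `ω y z`, `ω z w`, `ω y w` is zero. -/
theorem eq_zero (h : Tri ω e3 e4) {x y z w : E} (hx : InPl e3 e4 x) (hy : InPl e3 e4 y)
    (hz : InPl e3 e4 z) (hw : InPl e3 e4 w) (h0 : ω y z w ≠ 0) (h1 : ω x z w = 0)
    (h2 : ω y x w = 0) (h3 : ω y z x = 0) : x = 0 := by
  have := h.cramer x y z w hx hy hz hw
  rw [h1, h2, h3, zero_smul, zero_smul, zero_smul, add_zero, add_zero] at this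
  exact (smul_eq_zero.1 this).resolve_left h0

/-- Every vector of the plane is a combination of three independent ones. -/
theorem comb (h : Tri ω e3 e4) {x y z w : E} (hx : InPl e3 e4 x) (hy : InPl e3 e4 y)
    (hz : InPl e3 e4 z) (hw : InPl e3 e4 w) (h0 : ω y z w ≠ 0) :
    x = (ω x z w / ω y z w) • y + (ω y x w / ω y z w) • z + (ω y z x / ω y z w) • w := by
  have := congrArg (fun v => (ω y z w)⁻¹ • v) (h.cramer x y z w hx hy hz hw)
  simp only [smul_add, smul_smul, inv_mul_cancel₀ h0, one_smul] at this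
  simp only [div_eq_inv_mul]
  exact this

end Tri

/-- Uniqueness of the edge functional. -/
theorem EdgeF.unique {m m' : Du} {u v e0 e3 e4 : E} {ω : E → E → E → ℝ}
    (hF : Frame e0 e3 e4) (hω : Tri ω e3 e4) (hu : InPl e3 e4 u) (hv : InPl e3 e4 v)
    (h0 : ω u v e0 ≠ 0) (h : EdgeF m u v e0 e3 e4) (h' : EdgeF m' u v e0 e3 e4) : m = m' := by
  refine LinearMap.ext (fun x => ?_)
  obtain ⟨p, hp, hx⟩ := hF.decomp x
  have hc := hω.comb hp hu hv hF.inPl h0
  rw [hx, map_add, map_add, map_add, map_add, map_smul, map_smul, map_smul, map_smul,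
    h.m3, h.m4, h'.m3, h'.m4, hc]
  simp only [map_add, map_smul, h.u0, h.v0, h.m0, h'.u0, h'.v0, h'.m0]

/-! ### Hyperplanes -/

theorem finrank_E : Module.finrank ℝ E = 5 := by simp

theorem finrank_ker {N : Du} {x : E} (hx : N x ≠ 0) :
    Module.finrank ℝ (LinearMap.ker N) = 4 := by
  have h1 := LinearMap.finrank_range_add_finrank_ker N
  have h2 : LinearMap.range N = ⊤ := by
    rw [LinearMap.range_eq_top]
    intro c
    exact ⟨(c / N x) • x, by rw [map_smul, smul_eq_mul, div_mul_cancel₀ _ hx]⟩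
  rw [h2, finrank_top, Module.finrank_self, finrank_E] at h1
  omega

/-- A four-dimensional subspace of the kernel of a nonzero functional is the kernel. -/
theorem ker_eq_of_finrank {N : Du} {W : Submodule ℝ E} {x : E} (hx : N x ≠ 0)
    (hW : Module.finrank ℝ W = 4) (hle : ∀ y ∈ W, N y = 0) : LinearMap.ker N = W := by
  refine (Submodule.eq_of_le_of_finrank_eq (fun y hy => hle y hy) ?_).symm
  rw [hW, finrank_ker hx]

/-- Two functionals vanishing on a common four-dimensional subspace have the same zeros. -/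
theorem zero_iff_of_finrank {N N' : Du} {W : Submodule ℝ E} {x x' : E} (hx : N x ≠ 0)
    (hx' : N' x' ≠ 0) (hW : Module.finrank ℝ W = 4) (h : ∀ y ∈ W, N y = 0)
    (h' : ∀ y ∈ W, N' y = 0) (z : E) : N z = 0 ↔ N' z = 0 := by
  have e := ker_eq_of_finrank hx hW h
  have e' := ker_eq_of_finrank hx' hW h'
  rw [← LinearMap.mem_ker, ← LinearMap.mem_ker, e, e']

theorem zero_on_span {N : Du} {s : Set E} (h : ∀ y ∈ s, N y = 0) :
    ∀ y ∈ Submodule.span ℝ s, N y = 0 := by
  intro y hy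
  have : Submodule.span ℝ s ≤ LinearMap.ker N := Submodule.span_le.2 (fun z hz => h z hz)
  exact this hy

/-- A facet contained in a facet is equal to it. -/
theorem Real.eq_of_subset {ι : Type} {V : Finset ι} {𝓕 : Finset (Finset ι)} {φ : ι → E}
    {N : Finset ι → Du} (h : Real V 𝓕 φ N) {f f' : Finset ι} (hf : f ∈ 𝓕) (hf' : f' ∈ 𝓕)
    (hs : f ⊆ f') : f = f' := by
  obtain ⟨v, hv, hvf⟩ := h.proper f hf
  obtain ⟨v', hv', hvf'⟩ := h.proper f' hf'
  have k1 : ∀ y ∈ Submodule.span ℝ (φ '' (f : Set ι)), N f y = 0 := by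
    refine zero_on_span ?_
    rintro _ ⟨w, hw, rfl⟩
    exact (h.zero f hf w (h.sub f hf hw)).2 hw
  have k2 : ∀ y ∈ Submodule.span ℝ (φ '' (f : Set ι)), N f' y = 0 := by
    refine zero_on_span ?_
    rintro _ ⟨w, hw, rfl⟩
    exact (h.zero f' hf' w (h.sub f hf hw)).2 (hs hw)
  have key := zero_iff_of_finrank (x := φ v) (x' := φ v')
    (fun h0 => hvf ((h.zero f hf v hv).1 h0)) (fun h0 => hvf' ((h.zero f' hf' v' hv').1 h0))
    (h.rank f hf) k1 k2
  ext w
  constructor
  · exact fun hw => hs hw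
  · intro hw
    have hwV := h.sub f' hf' hw
    exact (h.zero f hf w hwV).1 ((key _).2 ((h.zero f' hf' w hwV).2 hw))

theorem InCone.add {ι : Type} {g : ι → E} {V : Finset ι} {x y : E} (hx : InCone g V x)
    (hy : InCone g V y) : InCone g V (x + y) := by
  obtain ⟨c, hc, rfl⟩ := hx
  obtain ⟨d, hd, rfl⟩ := hy
  exact ⟨fun i => c i + d i, fun i => add_nonneg (hc i) (hd i), by
    simp only [add_smul, sum_add_distrib]⟩

theorem InCone.smul {ι : Type} {g : ι → E} {V : Finset ι} {x : E} (hx : InCone g V x)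
    {r : ℝ} (hr : 0 ≤ r) : InCone g V (r • x) := by
  obtain ⟨c, hc, rfl⟩ := hx
  exact ⟨fun i => r * c i, fun i => mul_nonneg hr (hc i), by
    simp only [mul_smul, smul_sum]⟩

theorem InCone.zero {ι : Type} {g : ι → E} {V : Finset ι} : InCone g V 0 :=
  ⟨fun _ => 0, fun _ => le_rfl, by simp⟩

theorem InCone.of_mem {ι : Type} {g : ι → E} {V : Finset ι} {i : ι} (hi : i ∈ V) :
    InCone g V (g i) := by
  classical
  refine ⟨fun j => if j = i then 1 else 0, fun j => by dsimp only; split_ifs <;> norm_num, ?_⟩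
  simp [ite_smul, hi]

theorem InCone.mono {ι : Type} {g : ι → E} {V V' : Finset ι} {x : E} (hx : InCone g V x)
    (h : V ⊆ V') : InCone g V' x := by
  classical
  obtain ⟨c, hc, rfl⟩ := hx
  refine ⟨fun j => if j ∈ V then c j else 0, fun j => by dsimp only; split_ifs <;> simp [hc], ?_⟩
  simp only [ite_smul, zero_smul]
  rw [← sum_filter]
  congr 1
  ext j
  simp only [mem_filter]
  exact ⟨fun hj => ⟨h hj, hj⟩, fun hj => hj.2⟩

theorem InCone.congr {ι : Type} {g g' : ι → E} {V : Finset ι} {x : E} (hx : InCone g V x)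
    (h : ∀ i ∈ V, g' i = g i) : InCone g' V x := by
  obtain ⟨c, hc, rfl⟩ := hx
  exact ⟨c, hc, sum_congr rfl (fun i hi => by rw [h i hi])⟩

/-- Transport of a cone along a linear map and a relabelling. -/
theorem InCone.map {ι κ : Type} {g : ι → E} {g' : κ → E} {V : Finset ι} {V' : Finset κ}
    {x : E} (hx : InCone g V x) (Θ : E →ₗ[ℝ] E)
    (h : ∀ i ∈ V, ∃ j ∈ V', ∃ c : ℝ, 0 ≤ c ∧ Θ (g i) = c • g' j) : InCone g' V' (Θ x) := by
  classical
  obtain ⟨c, hc, rfl⟩ := hx
  rw [map_sum]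
  have : ∀ s : Finset ι, s ⊆ V → InCone g' V' (∑ i ∈ s, Θ (c i • g i)) := by
    intro s
    induction s using Finset.induction_on with
    | empty => intro _; rw [sum_empty]; exact InCone.zero
    | insert a s ha ih =>
      intro hs
      rw [sum_insert ha]
      refine InCone.add ?_ (ih (fun i hi => hs (mem_insert_of_mem hi)))
      obtain ⟨j, hj, r, hr, he⟩ := h a (hs (mem_insert_self a s))
      rw [map_smul, he, smul_smul]
      exact (InCone.of_mem hj).smul (mul_nonneg (hc a) hr)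
  exact this V (Subset.refl _)

end Pool.Agent.Work.MP_5b14b0_lc
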