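import Pool.Agent.Work.MP_5b14b0_lc.Geo

/-!
# Planar convex geometry: the functionals of the edges of an inscribed polygon
-/

set_option autoImplicit false

namespace Pool.Agent.Work.MP_5b14b0_lc

open Finset

section

variable {ω : E → E → E → ℝ} {e3 e4 : E}

theorem Polygon_rot' (h : Tri ω e3 e4) (x y z : E) : ω x y z = ω z x y := (h.rot z x y).symm

theorem Polygon_xxz (h : Tri ω e3 e4) (x z : E) : ω x x z = 0 := by
  have := h.swap x x z
  linarith

theorem Polygon_xyx (h : Tri ω e3 e4) (x y : E) : ω x y x = 0 := by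
  rw [Polygon_rot' h, Polygon_xxz h]

theorem Polygon_xyy (h : Tri ω e3 e4) (x y : E) : ω x y y = 0 := by
  rw [h.rot, Polygon_xxz h]

theorem Polygon_neg (h : Tri ω e3 e4) (x y z : E) : ω x y z = - ω y x z := h.swap x y z

/-- The functional `z ↦ ω x y z`. -/
noncomputable def PolygonL (h : Tri ω e3 e4) (x y : E) : Du where
  toFun z := ω x y z
  map_add' z z' := by
    rw [Polygon_rot' h x y (z + z'), h.add, ← Polygon_rot' h x y z, ← Polygon_rot' h x y z']
  map_smul' c z := by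
    rw [Polygon_rot' h x y (c • z), h.smul, ← Polygon_rot' h x y z]
    rfl

theorem PolygonL_apply (h : Tri ω e3 e4) (x y z : E) : PolygonL h x y z = ω x y z := rfl

variable {e0 : E} {g : ℕ → E} {S T : Finset ℕ}

/-- The functional of an edge with both end points in the right order. -/
theorem Polygon_edge (hT : Tri ω e3 e4) (hTS : T ⊆ S) (hc : 3 ≤ T.card) (hI : IntC g T e0)
    (i j : ℕ) (hpos : ∀ k ∈ S, k ≠ i → k ≠ j → 0 < ω (g i) (g j) (g k)) :
    0 < ω (g i) (g j) e0 ∧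
    EdgeF ((ω (g i) (g j) e0)⁻¹ • PolygonL hT (g i) (g j)) (g i) (g j) e0 e3 e4 ∧
    EdgeF ((ω (g i) (g j) e0)⁻¹ • PolygonL hT (g i) (g j)) (g j) (g i) e0 e3 e4 ∧
    ∀ k ∈ S, k ≠ i → k ≠ j →
      0 < ((ω (g i) (g j) e0)⁻¹ • PolygonL hT (g i) (g j)) (g k) := by
  obtain ⟨c, hcpos, he0⟩ := hI
  have hexp : ω (g i) (g j) e0 = ∑ k ∈ T, c k * ω (g i) (g j) (g k) := by
    rw [← PolygonL_apply hT, he0, map_sum]
    refine Finset.sum_congr rfl fun k _ => ?_
    rw [map_smul, PolygonL_apply, smul_eq_mul]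
  have hD : 0 < ω (g i) (g j) e0 := by
    rw [hexp]
    obtain ⟨k, hk⟩ : ∃ k, k ∈ (T.erase i).erase j := by
      apply Finset.card_pos.1
      have h1 := Finset.pred_card_le_card_erase (s := T.erase i) (a := j)
      have h2 := Finset.pred_card_le_card_erase (s := T) (a := i)
      omega
    rw [Finset.mem_erase, Finset.mem_erase] at hk
    apply Finset.sum_pos' _ ⟨k, hk.2.2, mul_pos (hcpos k hk.2.2)
      (hpos k (hTS hk.2.2) hk.2.1 hk.1)⟩
    intro l hl
    by_cases h1 : l = i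
    · rw [h1, Polygon_xyx hT, mul_zero]
    · by_cases h2 : l = j
      · rw [h2, Polygon_xyy hT, mul_zero]
      · exact (mul_pos (hcpos l hl) (hpos l (hTS hl) h1 h2)).le
  have a1 : ((ω (g i) (g j) e0)⁻¹ • PolygonL hT (g i) (g j)) (g i) = 0 := by
    rw [LinearMap.smul_apply, PolygonL_apply, Polygon_xyx hT, smul_zero]
  have a2 : ((ω (g i) (g j) e0)⁻¹ • PolygonL hT (g i) (g j)) (g j) = 0 := by
    rw [LinearMap.smul_apply, PolygonL_apply, Polygon_xyy hT, smul_zero]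
  have a3 : ((ω (g i) (g j) e0)⁻¹ • PolygonL hT (g i) (g j)) e0 = 1 := by
    rw [LinearMap.smul_apply, PolygonL_apply, smul_eq_mul, inv_mul_cancel₀ hD.ne']
  have a4 : ((ω (g i) (g j) e0)⁻¹ • PolygonL hT (g i) (g j)) e3 = 0 := by
    rw [LinearMap.smul_apply, PolygonL_apply, Polygon_rot' hT (g i) (g j) e3, hT.z3, smul_zero]
  have a5 : ((ω (g i) (g j) e0)⁻¹ • PolygonL hT (g i) (g j)) e4 = 0 := by
    rw [LinearMap.smul_apply, PolygonL_apply, Polygon_rot' hT (g i) (g j) e4, hT.z4, smul_zero]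
  refine ⟨hD, ⟨a1, a2, a3, a4, a5⟩, ⟨a2, a1, a3, a4, a5⟩, ?_⟩
  intro k hk h1 h2
  rw [LinearMap.smul_apply, PolygonL_apply, smul_eq_mul]
  exact mul_pos (inv_pos.2 hD) (hpos k hk h1 h2)

end

theorem claimPolygon : ClaimPolygon := by
  intro e0 e3 e4 ω g S T _ hT hC hTS hc hI
  have hS3 : 3 ≤ S.card := hc.trans (Finset.card_le_card hTS)
  -- signs of the two kinds of edges
  have pos1 : ∀ i ∈ S, ∀ j ∈ S, i < j → (∀ k ∈ S, k ≤ i ∨ j ≤ k) →
      ∀ k ∈ S, k ≠ i → k ≠ j → 0 < ω (g i) (g j) (g k) := by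
    intro i hi j hj hij h k hk h1 h2
    rcases h k hk with h3 | h3
    · have h4 : k < i := lt_of_le_of_ne h3 h1
      rw [Polygon_rot' hT]
      exact hC.pos k hk i hi j hj h4 hij
    · have h4 : j < k := lt_of_le_of_ne h3 (Ne.symm h2)
      exact hC.pos i hi j hj k hk hij h4
  have pos2 : ∀ i ∈ S, ∀ j ∈ S, (∀ k ∈ S, i ≤ k ∧ k ≤ j) →
      ∀ k ∈ S, k ≠ j → k ≠ i → 0 < ω (g j) (g i) (g k) := by
    intro i hi j hj h k hk h1 h2
    have h3 := h k hk
    have h4 : i < k := lt_of_le_of_ne h3.1 (Ne.symm h2)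
    have h5 : k < j := lt_of_le_of_ne h3.2 h1
    rw [hT.rot]
    exact hC.pos i hi k hk j hj h4 h5
  classical
  set m : ℕ × ℕ → Du := fun p => if (∀ k ∈ S, k ≤ p.1 ∨ p.2 ≤ k) then
      (ω (g p.1) (g p.2) e0)⁻¹ • PolygonL hT (g p.1) (g p.2)
    else (ω (g p.2) (g p.1) e0)⁻¹ • PolygonL hT (g p.2) (g p.1) with hm
  refine ⟨m, ?_, ?_⟩
  · intro p hp
    unfold Ed at hp
    rw [Finset.mem_filter, Finset.mem_product] at hp
    obtain ⟨⟨hi, hj⟩, hij, hor⟩ := hp
    by_cases h : ∀ k ∈ S, k ≤ p.1 ∨ p.2 ≤ k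
    · have hmp : m p = (ω (g p.1) (g p.2) e0)⁻¹ • PolygonL hT (g p.1) (g p.2) := if_pos h
      obtain ⟨-, h1, -, h3⟩ := Polygon_edge hT hTS hc hI p.1 p.2 (pos1 _ hi _ hj hij h)
      rw [hmp]
      exact ⟨h1, h3⟩
    · have hmp : m p = (ω (g p.2) (g p.1) e0)⁻¹ • PolygonL hT (g p.2) (g p.1) := if_neg h
      have h' := hor.resolve_left h
      obtain ⟨-, -, h2, h3⟩ := Polygon_edge hT hTS hc hI p.2 p.1 (pos2 _ hi _ hj h')
      rw [hmp]
      exact ⟨h2, fun k hk h4 h5 => h3 k hk h5 h4⟩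
  · intro x hx hxm
    have hne : S.Nonempty := Finset.card_pos.1 (by omega)
    set s0 := S.min' hne with hs0
    set s9 := S.max' hne with hs9
    have hs0S : s0 ∈ S := S.min'_mem hne
    have hs9S : s9 ∈ S := S.max'_mem hne
    have hmin : ∀ k ∈ S, s0 ≤ k := fun k hk => S.min'_le k hk
    have hmax : ∀ k ∈ S, k ≤ s9 := fun k hk => S.le_max' k hk
    -- an interior index
    obtain ⟨kk, hkk⟩ : ∃ k, k ∈ (S.erase s0).erase s9 := by
      apply Finset.card_pos.1
      have h1 := Finset.pred_card_le_card_erase (s := S.erase s0) (a := s9)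
      have h2 := Finset.pred_card_le_card_erase (s := S) (a := s0)
      omega
    rw [Finset.mem_erase, Finset.mem_erase] at hkk
    have hkk0 : s0 < kk := lt_of_le_of_ne (hmin kk hkk.2.2) (Ne.symm hkk.2.1)
    have hkk9 : kk < s9 := lt_of_le_of_ne (hmax kk hkk.2.2) hkk.1
    -- successors
    have hsucc : ∀ k ∈ S, k < s9 → ∃ k' ∈ S, k < k' ∧ ∀ l ∈ S, l ≤ k ∨ k' ≤ l := by
      intro k hk hk9
      have hf : (S.filter (fun l => k < l)).Nonempty := ⟨s9, by simp [hs9S, hk9]⟩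
      have h1 := (S.filter (fun l => k < l)).min'_mem hf
      rw [Finset.mem_filter] at h1
      refine ⟨(S.filter (fun l => k < l)).min' hf, h1.1, h1.2, fun l hl => ?_⟩
      by_cases h2 : l ≤ k
      · exact Or.inl h2
      · right
        apply Finset.min'_le
        rw [Finset.mem_filter]
        exact ⟨hl, not_le.1 h2⟩
    -- inequalities
    have ineq1 : ∀ i ∈ S, ∀ j ∈ S, i < j → (∀ k ∈ S, k ≤ i ∨ j ≤ k) → 0 ≤ ω (g i) (g j) x := by
      intro i hi j hj hij h
      have hp : (i, j) ∈ Ed S := by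
        unfold Ed
        rw [Finset.mem_filter, Finset.mem_product]
        exact ⟨⟨hi, hj⟩, hij, Or.inl h⟩
      have h1 := hxm _ hp
      have hmp : m (i, j) = (ω (g i) (g j) e0)⁻¹ • PolygonL hT (g i) (g j) := if_pos h
      obtain ⟨h2, -⟩ := Polygon_edge hT hTS hc hI i j (pos1 _ hi _ hj hij h)
      rw [hmp, LinearMap.smul_apply, PolygonL_apply, smul_eq_mul] at h1
      exact nonneg_of_mul_nonneg_right h1 (inv_pos.2 h2)
    have ineq2 : 0 ≤ ω (g s9) (g s0) x := by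
      have h : ¬ ∀ k ∈ S, k ≤ s0 ∨ s9 ≤ k := by
        intro h
        rcases h kk hkk.2.2 with h1 | h1
        · omega
        · omega
      have hp : (s0, s9) ∈ Ed S := by
        unfold Ed
        rw [Finset.mem_filter, Finset.mem_product]
        exact ⟨⟨hs0S, hs9S⟩, hkk0.trans hkk9, Or.inr fun k hk => ⟨hmin k hk, hmax k hk⟩⟩
      have h1 := hxm _ hp
      have hmp : m (s0, s9) = (ω (g s9) (g s0) e0)⁻¹ • PolygonL hT (g s9) (g s0) := if_neg h
      obtain ⟨h2, -⟩ := Polygon_edge hT hTS hc hI s9 s0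
        (pos2 _ hs0S _ hs9S fun k hk => ⟨hmin k hk, hmax k hk⟩)
      rw [hmp, LinearMap.smul_apply, PolygonL_apply, smul_eq_mul] at h1
      exact nonneg_of_mul_nonneg_right h1 (inv_pos.2 h2)
    -- the triangle of the fan
    obtain ⟨k, hk, hk0, k', hk', hkk', hcons, hA, hB⟩ : ∃ k ∈ S, s0 < k ∧ ∃ k' ∈ S, k < k' ∧
        (∀ l ∈ S, l ≤ k ∨ k' ≤ l) ∧ 0 ≤ ω (g s0) (g k) x ∧ 0 ≤ ω (g k') (g s0) x := by
      set A := S.filter (fun l => s0 < l ∧ l < s9 ∧ 0 ≤ ω (g s0) (g l) x) with hAdef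
      obtain ⟨s1, hs1, hs01, hs1c⟩ := hsucc s0 hs0S (hkk0.trans hkk9)
      have hs19 : s1 < s9 := by
        rcases hs1c kk hkk.2.2 with h1 | h1
        · omega
        · omega
      have hAne : A.Nonempty := ⟨s1, by
        rw [hAdef, Finset.mem_filter]
        exact ⟨hs1, hs01, hs19, ineq1 s0 hs0S s1 hs1 hs01 hs1c⟩⟩
      have hkA := A.max'_mem hAne
      set k := A.max' hAne with hkdef
      rw [hAdef, Finset.mem_filter] at hkA
      obtain ⟨hkS, hk0, hk9, hkn⟩ := hkA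
      obtain ⟨k', hk'S, hkk', hcons⟩ := hsucc k hkS hk9
      refine ⟨k, hkS, hk0, k', hk'S, hkk', hcons, hkn, ?_⟩
      rcases eq_or_lt_of_le (hmax k' hk'S) with h9 | h9
      · rw [h9]
        exact ineq2
      · by_contra hcon
        push Not at hcon
        have h1 : k' ∈ A := by
          rw [hAdef, Finset.mem_filter]
          refine ⟨hk'S, hk0.trans hkk', h9, ?_⟩
          rw [Polygon_neg hT]
          linarith
        have h2 := A.le_max' k' h1
        rw [← hkdef] at h2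
        omega
    have hD : 0 < ω (g s0) (g k) (g k') := hC.pos _ hs0S _ hk _ hk' hk0 hkk'
    have hCc : 0 ≤ ω (g k) (g k') x := ineq1 k hk k' hk' hkk' hcons
    have hcr := hT.cramer x (g s0) (g k) (g k') hx (hC.inpl _ hs0S) (hC.inpl _ hk)
      (hC.inpl _ hk')
    have e1 : ω x (g k) (g k') = ω (g k) (g k') x := hT.rot _ _ _
    have e2 : ω (g s0) x (g k') = ω (g k') (g s0) x := (hT.rot (g k') (g s0) x).symm
    rw [e1, e2] at hcr
    set D := ω (g s0) (g k) (g k') with hDdef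
    set a := ω (g k) (g k') x
    set b := ω (g k') (g s0) x
    set c := ω (g s0) (g k) x
    refine ⟨fun i => (if i = s0 then D⁻¹ * a else 0) + (if i = k then D⁻¹ * b else 0) +
      (if i = k' then D⁻¹ * c else 0), ?_, ?_⟩
    · intro i
      have h1 : 0 ≤ D⁻¹ := (inv_pos.2 hD).le
      have h2 : 0 ≤ D⁻¹ * a := mul_nonneg h1 hCc
      have h3 : 0 ≤ D⁻¹ * b := mul_nonneg h1 hB
      have h4 : 0 ≤ D⁻¹ * c := mul_nonneg h1 hA
      refine add_nonneg (add_nonneg ?_ ?_) ?_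
      · split_ifs <;> [exact h2; exact le_rfl]
      · split_ifs <;> [exact h3; exact le_rfl]
      · split_ifs <;> [exact h4; exact le_rfl]
    · simp only [add_smul, Finset.sum_add_distrib, ite_smul, zero_smul, Finset.sum_ite_eq', hs0S,
        hk, hk', if_true]
      have h5 : x = D⁻¹ • (D • x) := by
        rw [smul_smul, inv_mul_cancel₀ hD.ne', one_smul]
      rw [h5, hcr, smul_add, smul_add, smul_smul, smul_smul, smul_smul]

end Pool.Agent.Work.MP_5b14b0_lc
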