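import Pool.Agent.Work.MP_5b14b0_lc.Lor

/-!
# Pyramids and prisms: the cone lemmas for the gadgets
-/

set_option autoImplicit false

namespace Pool.Agent.Work.MP_5b14b0_lc

open Finset

/-- The mirror vector of the gadgets. -/
noncomputable def Yv (e0 e3 e4 : E) (kG kT : ℝ) : E := kG • e3 + e4 + (kG + kT) • e0

section mirror

variable {e0 e3 e4 : E} (hf : Frame e0 e3 e4) (kG kT : ℝ)

include hf

theorem Yv_e3 : B (Yv e0 e3 e4 kG kT) e3 = kG := by
  rw [Yv, B_add_left, B_add_left, B_smul_left, B_smul_left, hf.n3, hf.o03, B_comm e4 e3, hf.o34]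
  ring

theorem Yv_e4 : B (Yv e0 e3 e4 kG kT) e4 = 1 := by
  rw [Yv, B_add_left, B_add_left, B_smul_left, B_smul_left, hf.n4, hf.o04, hf.o34]
  ring

theorem Yv_e0 : B (Yv e0 e3 e4 kG kT) e0 = -(kG + kT) := by
  rw [Yv, B_add_left, B_add_left, B_smul_left, B_smul_left, hf.n0, B_comm e3 e0, B_comm e4 e0,
    hf.o03, hf.o04]
  ring

omit hf in
theorem B_Yv (x : E) :
    B x (Yv e0 e3 e4 kG kT) = kG * B x e3 + B x e4 + (kG + kT) * B x e0 := by
  rw [Yv, B_add_right, B_add_right, B_smul_right, B_smul_right]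

theorem Yv_Yv : B (Yv e0 e3 e4 kG kT) (Yv e0 e3 e4 kG kT) = 1 - 2 * kG * kT - kT ^ 2 := by
  rw [B_Yv, Yv_e3 hf, Yv_e4 hf, Yv_e0 hf]
  ring

omit hf in
/-- The value of a functional with `m e0 = 1`, `m e3 = 0`, `m e4 = 0` on the mirror vector. -/
theorem m_Yv {m : Du} (m0 : m e0 = 1) (m3 : m e3 = 0) (m4 : m e4 = 0) :
    m (Yv e0 e3 e4 kG kT) = kG + kT := by
  rw [Yv, map_add, map_add, map_smul, map_smul, m0, m3, m4]
  simp

theorem refl_e4 (x : E) : B (refl (Yv e0 e3 e4 kG kT) x) e4 =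
    B x e4 - 2 * B x (Yv e0 e3 e4 kG kT) / B (Yv e0 e3 e4 kG kT) (Yv e0 e3 e4 kG kT) := by
  rw [refl, B_sub_left, B_smul_left, Yv_e4 hf, mul_one]

theorem refl_e3 (x : E) : B (refl (Yv e0 e3 e4 kG kT) x) e3 =
    B x e3 - kG * (2 * B x (Yv e0 e3 e4 kG kT) /
      B (Yv e0 e3 e4 kG kT) (Yv e0 e3 e4 kG kT)) := by
  rw [refl, B_sub_left, B_smul_left, Yv_e3 hf, mul_comm kG]

theorem refl_U (x : E) : B (refl (Yv e0 e3 e4 kG kT) x) e3 -
    kG * B (refl (Yv e0 e3 e4 kG kT) x) e4 = B x e3 - kG * B x e4 := by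
  rw [refl_e3 hf, refl_e4 hf]
  ring

theorem refl_M {m : Du} (m0 : m e0 = 1) (m3 : m e3 = 0) (m4 : m e4 = 0) (x : E) :
    m (refl (Yv e0 e3 e4 kG kT) x) - B (refl (Yv e0 e3 e4 kG kT) x) e3 -
      kT * B (refl (Yv e0 e3 e4 kG kT) x) e4 = m x - B x e3 - kT * B x e4 := by
  rw [refl_e3 hf, refl_e4 hf]
  have h : m (refl (Yv e0 e3 e4 kG kT) x) = m x - 2 * B x (Yv e0 e3 e4 kG kT) /
      B (Yv e0 e3 e4 kG kT) (Yv e0 e3 e4 kG kT) * (kG + kT) := by
    rw [refl, map_sub, map_smul, m_Yv kG kT m0 m3 m4, smul_eq_mul]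
  rw [h]
  ring

end mirror

section cones

variable {ι : Type} {S : Finset ℕ} {g : ℕ → E} {φ : ι → E} {V : Finset ι} {pl pl' : ℕ → ι}
  {a a' : ι} {e0 e3 e4 : E} {m : ℕ × ℕ → Du} {kG kT c0 : ℝ}

/-- Relabelling of a cone. -/
theorem cone_relabel (hg : ∀ j ∈ S, φ (pl j) = g j) (hV : ∀ j ∈ S, pl j ∈ V) {x : E}
    (h : InCone g S x) : InCone φ V x := by
  have := h.map (g' := φ) (V' := V) LinearMap.id
    (fun j hj => ⟨pl j, hV j hj, 1, zero_le_one, by rw [one_smul, hg j hj]; rfl⟩)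
  exact this

/-- The pyramid over the polygon with apex `a`. -/
theorem pyramid_cone (hf : Frame e0 e3 e4) (hm0 : ∀ p ∈ Ed S, m p e0 = 1)
    (hm3 : ∀ p ∈ Ed S, m p e3 = 0)
    (hP : ∀ x, InPl e3 e4 x → (∀ p ∈ Ed S, 0 ≤ m p x) → InCone g S x)
    (hg : ∀ j ∈ S, φ (pl j) = g j) (hV : ∀ j ∈ S, pl j ∈ V) (ha : a ∈ V) (hc : 0 < c0)
    (hap : φ a = c0 • (e0 + e3)) {x : E} (h4 : B x e4 = 0) (h3 : 0 ≤ B x e3)
    (hM : ∀ p ∈ Ed S, 0 ≤ m p x - B x e3) : InCone φ V x := by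
  have h1 : InCone g S (x - B x e3 • (e0 + e3)) := by
    apply hP
    · constructor
      · rw [B_sub_left, B_smul_left, B_add_left, hf.o03, hf.n3]
        ring
      · rw [B_sub_left, B_smul_left, B_add_left, hf.o04, hf.o34, h4]
        ring
    · intro p hp
      have := hM p hp
      rw [map_sub, map_smul, map_add, hm0 p hp, hm3 p hp, smul_eq_mul]
      linarith
  have h2 := (cone_relabel hg hV h1).add
    ((InCone.of_mem (g := φ) ha).smul (div_nonneg h3 hc.le))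
  rw [hap, smul_smul, div_mul_cancel₀ _ hc.ne', sub_add_cancel] at h2
  exact h2

/-- The prism over the pyramid. -/
theorem prism_cone (hf : Frame e0 e3 e4) (hm0 : ∀ p ∈ Ed S, m p e0 = 1)
    (hm3 : ∀ p ∈ Ed S, m p e3 = 0) (hm4 : ∀ p ∈ Ed S, m p e4 = 0)
    (hP : ∀ x, InPl e3 e4 x → (∀ p ∈ Ed S, 0 ≤ m p x) → InCone g S x)
    (hg : ∀ j ∈ S, φ (pl j) = g j) (hV : ∀ j ∈ S, pl j ∈ V) (ha : a ∈ V) (hc : 0 < c0)
    (hap : φ a = c0 • (e0 + e3)) (hD : 0 < B (Yv e0 e3 e4 kG kT) (Yv e0 e3 e4 kG kT))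
    (hg' : ∀ j ∈ S, φ (pl' j) = refl (Yv e0 e3 e4 kG kT) (φ (pl j)))
    (hV' : ∀ j ∈ S, pl' j ∈ V) (ha' : a' ∈ V)
    (hap' : φ a' = refl (Yv e0 e3 e4 kG kT) (φ a)) {x : E} (h4 : 0 ≤ B x e4)
    (h4' : 0 ≤ B (refl (Yv e0 e3 e4 kG kT) x) e4) (hU : 0 ≤ B x e3 - kG * B x e4)
    (hM : ∀ p ∈ Ed S, 0 ≤ m p x - B x e3 - kT * B x e4) : InCone φ V x := by
  classical
  set Y := Yv e0 e3 e4 kG kT with hY
  set y := x - B x e4 • Y with hy
  have y4 : B y e4 = 0 := by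
    rw [hy, B_sub_left, B_smul_left, hY, Yv_e4 hf]
    ring
  have y3 : B y e3 = B x e3 - kG * B x e4 := by
    rw [hy, B_sub_left, B_smul_left, hY, Yv_e3 hf]
    ring
  have yM : ∀ p ∈ Ed S, m p y - B y e3 = m p x - B x e3 - kT * B x e4 := by
    intro p hp
    rw [y3, hy, map_sub, map_smul, hY, m_Yv kG kT (hm0 p hp) (hm3 p hp) (hm4 p hp),
      smul_eq_mul]
    ring
  -- `y` is in the cone of the pyramid
  have hy1 : ∀ (ψ : Option ℕ → E), (∀ j ∈ S, ψ (some j) = g j) → ψ none = c0 • (e0 + e3) →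
      InCone ψ (insert none (S.image some)) y := by
    intro ψ h1 h2
    refine pyramid_cone (pl := some) (a := none) hf hm0 hm3 hP h1 ?_ (mem_insert_self _ _) hc
      h2 y4 (by rw [y3]; exact hU) (fun p hp => by rw [yM p hp]; exact hM p hp)
    intro j hj
    exact mem_insert_of_mem (mem_image_of_mem _ hj)
  have hy2 := hy1 (fun o => o.elim (c0 • (e0 + e3)) g) (fun _ _ => rfl) rfl
  have hya : InCone φ V y := by
    refine hy2.map (g' := φ) (V' := V) LinearMap.id (fun o ho => ?_)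
    rcases mem_insert.1 ho with rfl | ho
    · exact ⟨a, ha, 1, zero_le_one, by rw [one_smul, hap]; rfl⟩
    · obtain ⟨j, hj, rfl⟩ := mem_image.1 ho
      exact ⟨pl j, hV j hj, 1, zero_le_one, by rw [one_smul, hg j hj]; rfl⟩
  have hyb : InCone φ V (refl Y y) := by
    refine hy2.map (g' := φ) (V' := V) (reflL Y) (fun o ho => ?_)
    rcases mem_insert.1 ho with rfl | ho
    · exact ⟨a', ha', 1, zero_le_one, by rw [one_smul, hap', hap]; rfl⟩
    · obtain ⟨j, hj, rfl⟩ := mem_image.1 ho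
      exact ⟨pl' j, hV' j hj, 1, zero_le_one, by rw [one_smul, hg' j hj, hg j hj]; rfl⟩
  -- the reflection of `y`
  set s := B x e4 with hs
  set t := B (refl Y x) e4 with ht
  have htt : t = s - 2 * B x Y / B Y Y := by
    rw [ht, hY, refl_e4 hf]
  have hry : refl Y y = y + (s + t) • Y := by
    have h1 : refl Y y = y - (2 * B y Y / B Y Y) • Y := rfl
    have h2 : 2 * B y Y / B Y Y = -(s + t) := by
      rw [htt, hy, B_sub_left, B_smul_left]
      field_simp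
      ring
    rw [h1, h2, neg_smul, sub_neg_eq_add]
  have hx : x = y + s • Y := by rw [hy, sub_add_cancel]
  rcases (add_nonneg h4 h4').eq_or_lt with h0 | h0
  · have hs0 : s = 0 := le_antisymm (by linarith) h4
    rw [hx, hs0, zero_smul, add_zero]
    exact hya
  · have hx2 : x = (t / (s + t)) • y + (s / (s + t)) • refl Y y := by
      rw [hry, smul_add, smul_smul, div_mul_cancel₀ _ h0.ne', ← add_assoc, ← add_smul,
        ← add_div, add_comm t s, div_self h0.ne', one_smul]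
      exact hx
    rw [hx2]
    exact (hya.smul (div_nonneg h4' h0.le)).add (hyb.smul (div_nonneg h4 h0.le))

end cones

end Pool.Agent.Work.MP_5b14b0_lc
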