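import Pool.Agent.Work.MP_5b14b0_lc.Geo

/-!
# A constructor for `Real`: rank, span and injectivity follow from the cone property
-/

set_option autoImplicit false

namespace Pool.Agent.Work.MP_5b14b0_lc

open Finset

section

variable {ι : Type} {V : Finset ι} {𝓕 : Finset (Finset ι)} {φ : ι → E} {N : Finset ι → Du}

/-- If `p` is positive for all normals but `N F`, and `x` is in the kernel of `N F`, then
`x` is a combination of the vertices of `F`. -/
lemma rm_mem_span [DecidableEq ι] (sub : ∀ F ∈ 𝓕, F ⊆ V)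
    (nonneg : ∀ F ∈ 𝓕, ∀ v ∈ V, 0 ≤ N F (φ v))
    (zero : ∀ F ∈ 𝓕, ∀ v ∈ V, N F (φ v) = 0 ↔ v ∈ F)
    (cone : ∀ x, (∀ F ∈ 𝓕, 0 ≤ N F x) → InCone φ V x)
    (incl : ∀ F ∈ 𝓕, ∀ G ∈ 𝓕, F ⊆ G → F = G) {F : Finset ι} (hF : F ∈ 𝓕) {x : E}
    (hx : N F x = 0) : x ∈ Submodule.span ℝ (φ '' (F : Set ι)) := by
  set p : E := ∑ v ∈ F, φ v with hp
  have hpos : ∀ G ∈ 𝓕, G ≠ F → 0 < N G p := by
    intro G hG hne
    obtain ⟨v, hv, hvG⟩ : ∃ v ∈ F, v ∉ G := by
      by_contra hcon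
      push Not at hcon
      exact hne (incl F hF G hG hcon).symm
    rw [hp, map_sum]
    refine Finset.sum_pos' (fun w hw => nonneg G hG w (sub F hF hw)) ⟨v, hv, ?_⟩
    refine lt_of_le_of_ne (nonneg G hG v (sub F hF hv)) fun h => hvG ?_
    exact (zero G hG v (sub F hF hv)).1 h.symm
  have hpF : N F p = 0 := by
    rw [hp, map_sum]
    exact Finset.sum_eq_zero fun v hv => (zero F hF v (sub F hF hv)).2 hv
  -- a small multiple
  obtain ⟨ε, hε, hεG⟩ : ∃ ε : ℝ, 0 < ε ∧ ∀ G ∈ 𝓕, 0 ≤ N G (p + ε • x) := by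
    have key : ∀ G ∈ 𝓕, ∃ ε : ℝ, 0 < ε ∧ ∀ δ : ℝ, 0 < δ → δ ≤ ε → 0 ≤ N G (p + δ • x) := by
      intro G hG
      by_cases hne : G = F
      · subst hne
        refine ⟨1, one_pos, fun δ _ _ => ?_⟩
        rw [map_add, map_smul, hpF, hx]
        simp
      · have h1 := hpos G hG hne
        refine ⟨N G p / (|N G x| + 1), by positivity, fun δ hδ hle => ?_⟩
        rw [map_add, map_smul, smul_eq_mul]
        rw [le_div_iff₀ (by positivity)] at hle
        have h2 := neg_abs_le (N G x)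
        nlinarith [abs_nonneg (N G x)]
    choose! f hf1 hf2 using key
    by_cases hne : 𝓕.Nonempty
    · obtain ⟨G0, hG0, hmin⟩ := Finset.exists_min_image 𝓕 f hne
      exact ⟨f G0, hf1 G0 hG0, fun G hG => hf2 G hG _ (hf1 G0 hG0) (hmin G hG)⟩
    · exact ⟨1, one_pos, fun G hG => absurd ⟨G, hG⟩ hne⟩
  obtain ⟨c, hc, hsum⟩ := cone _ hεG
  have h0 : ∀ v ∈ V, c v * N F (φ v) = 0 := by
    have hs : ∑ v ∈ V, c v * N F (φ v) = 0 := by
      have := congrArg (N F) hsum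
      rw [map_add, map_smul, hpF, hx, map_sum] at this
      simp only [map_smul, smul_eq_mul, mul_zero, add_zero] at this
      exact this.symm
    exact (Finset.sum_eq_zero_iff_of_nonneg fun v hv =>
      mul_nonneg (hc v) (nonneg F hF v hv)).1 hs
  have hmem : p + ε • x ∈ Submodule.span ℝ (φ '' (F : Set ι)) := by
    rw [hsum]
    refine Submodule.sum_mem _ fun v hv => ?_
    by_cases hvF : v ∈ F
    · exact Submodule.smul_mem _ _ (Submodule.subset_span ⟨v, hvF, rfl⟩)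
    · have h1 := h0 v hv
      have h2 : N F (φ v) ≠ 0 := fun h => hvF ((zero F hF v hv).1 h)
      rcases mul_eq_zero.1 h1 with h | h
      · rw [h, zero_smul]; exact Submodule.zero_mem _
      · exact absurd h h2
  have hpm : p ∈ Submodule.span ℝ (φ '' (F : Set ι)) :=
    Submodule.sum_mem _ fun v hv => Submodule.subset_span ⟨v, hv, rfl⟩
  have h3 : ε • x ∈ Submodule.span ℝ (φ '' (F : Set ι)) := by
    have := Submodule.sub_mem _ hmem hpm
    rwa [add_sub_cancel_left] at this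
  have h4 := Submodule.smul_mem _ ε⁻¹ h3
  rwa [smul_smul, inv_mul_cancel₀ hε.ne', one_smul] at h4

lemma rm_span_eq_ker [DecidableEq ι] (sub : ∀ F ∈ 𝓕, F ⊆ V)
    (nonneg : ∀ F ∈ 𝓕, ∀ v ∈ V, 0 ≤ N F (φ v))
    (zero : ∀ F ∈ 𝓕, ∀ v ∈ V, N F (φ v) = 0 ↔ v ∈ F)
    (cone : ∀ x, (∀ F ∈ 𝓕, 0 ≤ N F x) → InCone φ V x)
    (incl : ∀ F ∈ 𝓕, ∀ G ∈ 𝓕, F ⊆ G → F = G) {F : Finset ι} (hF : F ∈ 𝓕) :
    Submodule.span ℝ (φ '' (F : Set ι)) = LinearMap.ker (N F) := by
  apply le_antisymm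
  · rw [Submodule.span_le]
    rintro _ ⟨v, hv, rfl⟩
    exact (zero F hF v (sub F hF hv)).2 hv
  · intro x hx
    exact rm_mem_span sub nonneg zero cone incl hF hx

lemma rm_finrank_ker {n : Du} {v : E} (h : n v ≠ 0) :
    Module.finrank ℝ (LinearMap.ker n) = 4 := by
  have h1 := LinearMap.finrank_range_add_finrank_ker n
  have h2 : LinearMap.range n = ⊤ := by
    rw [LinearMap.range_eq_top]
    intro y
    refine ⟨(y / n v) • v, ?_⟩
    rw [map_smul, smul_eq_mul]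
    field_simp
  rw [h2, finrank_top] at h1
  simp at h1
  omega

/-- Constructor of `Real`: only signs, incidences and the cone property have to be checked. -/
theorem Real.mk' [DecidableEq ι] (light : ∀ v ∈ V, Light (φ v)) (sub : ∀ F ∈ 𝓕, F ⊆ V)
    (nonneg : ∀ F ∈ 𝓕, ∀ v ∈ V, 0 ≤ N F (φ v))
    (zero : ∀ F ∈ 𝓕, ∀ v ∈ V, N F (φ v) = 0 ↔ v ∈ F)
    (proper : ∀ F ∈ 𝓕, ∃ v ∈ V, v ∉ F)
    (incl : ∀ F ∈ 𝓕, ∀ G ∈ 𝓕, F ⊆ G → F = G)
    (sep : ∀ v ∈ V, ∀ w ∈ V, v ≠ w → ∃ F ∈ 𝓕, ¬ (v ∈ F ↔ w ∈ F))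
    (cone : ∀ x, (∀ F ∈ 𝓕, 0 ≤ N F x) → InCone φ V x) : Real V 𝓕 φ N where
  light := light
  sub := sub
  nonneg := nonneg
  zero := zero
  proper := proper
  rank F hF := by
    rw [rm_span_eq_ker sub nonneg zero cone incl hF]
    obtain ⟨v, hv, hvF⟩ := proper F hF
    exact rm_finrank_ker fun h => hvF ((zero F hF v hv).1 h)
  full := by
    rw [eq_top_iff]
    intro x _
    set p : E := ∑ v ∈ V, φ v with hp
    have hpos : ∀ G ∈ 𝓕, 0 < N G p := by
      intro G hG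
      obtain ⟨v, hv, hvG⟩ := proper G hG
      rw [hp, map_sum]
      refine Finset.sum_pos' (fun w hw => nonneg G hG w hw) ⟨v, hv, ?_⟩
      refine lt_of_le_of_ne (nonneg G hG v hv) fun h => hvG ?_
      exact (zero G hG v hv).1 h.symm
    obtain ⟨ε, hε, hεG⟩ : ∃ ε : ℝ, 0 < ε ∧ ∀ G ∈ 𝓕, 0 ≤ N G (p + ε • x) := by
      have key : ∀ G ∈ 𝓕, ∃ ε : ℝ, 0 < ε ∧ ∀ δ : ℝ, 0 < δ → δ ≤ ε → 0 ≤ N G (p + δ • x) := by
        intro G hG
        have h1 := hpos G hG
        refine ⟨N G p / (|N G x| + 1), by positivity, fun δ hδ hle => ?_⟩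
        rw [map_add, map_smul, smul_eq_mul]
        rw [le_div_iff₀ (by positivity)] at hle
        have h2 := neg_abs_le (N G x)
        nlinarith [abs_nonneg (N G x)]
      choose! f hf1 hf2 using key
      by_cases hne : 𝓕.Nonempty
      · obtain ⟨G0, hG0, hmin⟩ := Finset.exists_min_image 𝓕 f hne
        exact ⟨f G0, hf1 G0 hG0, fun G hG => hf2 G hG _ (hf1 G0 hG0) (hmin G hG)⟩
      · exact ⟨1, one_pos, fun G hG => absurd ⟨G, hG⟩ hne⟩
    obtain ⟨c, hc, hsum⟩ := cone _ hεG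
    have hmem : p + ε • x ∈ Submodule.span ℝ (φ '' (V : Set ι)) := by
      rw [hsum]
      exact Submodule.sum_mem _ fun v hv =>
        Submodule.smul_mem _ _ (Submodule.subset_span ⟨v, hv, rfl⟩)
    have hpm : p ∈ Submodule.span ℝ (φ '' (V : Set ι)) :=
      Submodule.sum_mem _ fun v hv => Submodule.subset_span ⟨v, hv, rfl⟩
    have h3 : ε • x ∈ Submodule.span ℝ (φ '' (V : Set ι)) := by
      have := Submodule.sub_mem _ hmem hpm
      rwa [add_sub_cancel_left] at this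
    have h4 := Submodule.smul_mem _ ε⁻¹ h3
    rwa [smul_smul, inv_mul_cancel₀ hε.ne', one_smul] at h4
  inj v hv w hw hne c h := by
    obtain ⟨F, hF, hiff⟩ := sep v hv w hw hne
    apply hiff
    have hc : c ≠ 0 := by
      rintro rfl
      have := (light w hw).2
      rw [h] at this
      simp at this
    rw [← zero F hF v hv, ← zero F hF w hw, h, map_smul, smul_eq_mul, mul_eq_zero]
    constructor
    · intro h; exact Or.inr h
    · rintro (h | h)
      · exact absurd h hc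
      · exact h
  cone := cone

end

end Pool.Agent.Work.MP_5b14b0_lc
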