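import Pool.Agent.Work.MP_5b14b0_lc.Geo

/-!
# Statements of the remaining modules
-/

set_option autoImplicit false

namespace Pool.Agent.Work.MP_5b14b0_lc

open Finset

/-! ### Completeness: assembly -/

/-- The initial polytope: a double pyramid over a polygon. -/
def ClaimInit : Prop := ∀ (ι : Type) (_ : DecidableEq ι) (S T : Finset ℕ) (pl : ℕ → ι)
  (a c : ι) (g : ℕ → E) (e0 e3 e4 : E) (ω : E → E → E → ℝ),
  Frame e0 e3 e4 → Tri ω e3 e4 → Cyc g S ω e3 e4 → T ⊆ S → 3 ≤ T.card → IntC g T e0 →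
  Set.InjOn pl S → a ∉ S.image pl → c ∉ S.image pl → a ≠ c →
  ∃ (φ : ι → E) (N : Finset ι → Du) (κG : ℝ) (κ : ℕ × ℕ → ℝ),
    Real (insert c (pF S pl a))
      ({pF S pl a, pF S pl c} ∪ (Ed S).image (fun e => ({a, c, pl e.1, pl e.2} : Finset ι)))
      φ N ∧ (∀ j ∈ S, φ (pl j) = g j) ∧
    Port ({pF S pl a, pF S pl c} ∪ (Ed S).image (fun e => ({a, c, pl e.1, pl e.2} : Finset ι)))
      φ N S T pl a e0 e3 e4 ω κG κ ∧ 0 < κG ∧ ∀ p ∈ Ed S, 0 < κ p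

/-- The standard polygon: an instance of the line problem which is solvable gives light vectors
in a plane in positive cyclic order with all the chord relations. -/
def ClaimStd : Prop := ∀ o, OValid o → OSol o →
  ∃ (g : ℕ → E) (e0 e3 e4 : E) (ω : E → E → E → ℝ), Frame e0 e3 e4 ∧ Tri ω e3 e4 ∧
    Cyc g (Finset.range o.1) ω e3 e4 ∧ IntC g (Finset.range o.1) e0 ∧
    ∀ h ∈ o.2, HexRel g h

/-- One complete branch: from the side port of the branching gadget to the leaf. -/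
def ClaimBranch : Prop := ∀ (n k : ℕ) (h : List ℕ) (V : Finset Lab) (𝓕 : Finset (Finset Lab))
  (φ : Lab → E) (N : Finset Lab → Du) (f0 e3 e4 : E) (ω : E → E → E → ℝ) (κG : ℝ)
  (κ : ℕ × ℕ → ℝ),
  7 ≤ n → HexOK n h → Real V 𝓕 φ N →
  Port 𝓕 φ N (Finset.range n) h.toFinset (pol k 0) (ap k 0) f0 e3 e4 ω κG κ →
  (∀ p ∈ Ed (Finset.range n), 0 < κ p) → HexSym (fun j => φ (pol k 0 j)) h f0 →
  (∀ l ∈ vBranch n h k, l ≠ ap k 0 → l ∉ V) →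
  ∃ (φ' : Lab → E) (N' : Finset Lab → Du), (∀ v ∈ V, φ' v = φ v) ∧
    Real (V ∪ (vBranch n h k).toFinset)
      (𝓕.erase (pF (Finset.range n) (pol k 0) (ap k 0)) ∪ fsets (fBranch n h k)) φ' N' ∧
    ∀ (S1 T1 : Finset ℕ) (pl1 : ℕ → Lab) (a1 : Lab) (d0 d3 d4 : E) (ω1 : E → E → E → ℝ)
      (κG1 : ℝ) (κ1 : ℕ × ℕ → ℝ), Port 𝓕 φ N S1 T1 pl1 a1 d0 d3 d4 ω1 κG1 κ1 →
      Disjoint (pF S1 pl1 a1) (pF (Finset.range n) (pol k 0) (ap k 0)) →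
      Port (𝓕.erase (pF (Finset.range n) (pol k 0) (ap k 0)) ∪ fsets (fBranch n h k)) φ' N'
        S1 T1 pl1 a1 d0 d3 d4 ω1 κG1 κ1

/-! ### Soundness -/

/-- Light vectors, no two proportional. -/
def Base (Vs : List Lab) (φ : Lab → E) : Prop := (∀ v ∈ Vs, Light (φ v)) ∧
  ∀ v ∈ Vs, ∀ w ∈ Vs, v ≠ w → ∀ c : ℝ, φ w ≠ c • φ v

/-- `F` is the vertex set of a facet. -/
def Fac (Vs : List Lab) (φ : Lab → E) (F : List Lab) : Prop :=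
  F ⊆ Vs ∧ Module.finrank ℝ (Submodule.span ℝ (φ '' {v | v ∈ F})) = 4 ∧
    ∃ N : Du, (∀ v ∈ Vs, 0 ≤ N (φ v)) ∧ ∀ v ∈ Vs, N (φ v) = 0 ↔ v ∈ F

/-- The polygons `g` and `g'` (on `S`) are equivalent. -/
def Tr (g g' : ℕ → E) (S : Finset ℕ) : Prop := ∃ Θ : E →ₗ[ℝ] E, Function.Bijective Θ ∧
  ∀ j ∈ S, ∃ c : ℝ, c ≠ 0 ∧ Θ (g j) = c • g' j

/-- The branching gadget transmits the polygon. -/
def ClaimSK : Prop := ∀ (Vs : List Lab) (φ : Lab → E) (n k : ℕ), 3 ≤ n → Base Vs φ →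
  (∀ F ∈ fMain n k, Fac Vs φ F) →
  Tr (fun j => φ (gL k j)) (fun j => φ (gL (k + 1) j)) (Finset.range n)

/-- The deletion gadget transmits the polygon without the deleted vertex. -/
def ClaimSA : Prop := ∀ (Vs : List Lab) (φ : Lab → E) (n k ℓ : ℕ) (h : List ℕ), 7 ≤ n →
  HexOK n h → ℓ < n - 6 → Base Vs φ → (∀ F ∈ fAd n h k ℓ, Fac Vs φ F) →
  Tr (fun j => φ (pol k ℓ j)) (fun j => φ (pol k (ℓ + 1) j)) (Sl n h (ℓ + 1)).toFinset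

/-- The leaf forces the three chords to be concurrent. The facet `F'` shows that the hexagon is
planar. -/
def ClaimSL : Prop := ∀ (Vs : List Lab) (φ : Lab → E) (q : ℕ → Lab) (w : Lab) (k : ℕ)
  (F' : List Lab), Base Vs φ → (∀ F ∈ fLeafAt q w k, Fac Vs φ F) → Fac Vs φ F' →
  (∀ i, i < 6 → q i ∈ F') → xL k 2 0 ∉ F' →
  (∀ i j, i < 6 → j < 6 → q i = q j → i = j) → (∀ i j s, i < 6 → q i ≠ xL k j s) →
  (∀ i, i < 6 → q i ≠ w) → (∀ j s, w ≠ xL k j s) →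
  ∃ X : E, X ≠ 0 ∧ (∃ a b : ℝ, X = a • φ (q 0) + b • φ (q 5)) ∧
    (∃ a b : ℝ, X = a • φ (q 1) + b • φ (q 4)) ∧ (∃ a b : ℝ, X = a • φ (q 2) + b • φ (q 3))

/-- Coordinates on the initial polygon. -/
def ClaimSLine : Prop := ∀ (Vs : List Lab) (φ : Lab → E) (n : ℕ) (hs : List (List ℕ))
  (F' : List Lab), 4 ≤ n → Base Vs φ → (∀ F ∈ fInit n, Fac Vs φ F) → Fac Vs φ F' →
  (∀ j, j < n → gL 0 j ∈ F') → cL ∉ F' → (∀ h ∈ hs, HexOK n h) →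
  (∀ h ∈ hs, HexRel (fun j => φ (gL 0 j)) h) → OSol (n, hs)

end Pool.Agent.Work.MP_5b14b0_lc
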