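import Pool.Agent.Work.MP_5b14b0_lc.Fspan

/-!
# From cones in Lorentz space to inscribed polytopes (ClaimUp)
-/

set_option autoImplicit false

namespace Pool.Agent.Work.MP_5b14b0_lc

namespace Upp

open Set

/-- A functional which is nonnegative on the cone and has a zero set of rank 4 is one of the
given ones. -/
theorem complete {ι : Type} {V : Finset ι} {𝓕 : Finset (Finset ι)} {φ : ι → E}
    {N : Finset ι → Du} (h : Real V 𝓕 φ N) (l : Du) (hl : l ≠ 0)
    (hpos : ∀ v ∈ V, 0 ≤ l (φ v))
    (hr : Module.finrank ℝ (Submodule.span ℝ (φ '' {v | v ∈ V ∧ l (φ v) = 0})) = 4) :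
    ∃ F ∈ 𝓕, ∀ v ∈ V, l (φ v) = 0 ↔ v ∈ F := by
  classical
  set Z : Finset ι := V.filter (fun v => l (φ v) = 0) with hZ
  set x : E := ∑ v ∈ Z, φ v with hx
  have hlx : l x = 0 := by
    rw [hx, map_sum]
    exact Finset.sum_eq_zero fun v hv => (Finset.mem_filter.1 hv).2
  have hex : ∃ F ∈ 𝓕, N F x ≤ 0 := by
    by_contra hcon
    push Not at hcon
    obtain ⟨w, hw⟩ : ∃ w, 0 < l w := by
      by_contra h1
      push Not at h1
      apply hl
      refine LinearMap.ext fun w => ?_
      have h2 := h1 w
      have h3 := h1 (-w)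
      rw [map_neg] at h3
      have : l w = 0 := by linarith
      exact this
    have h1 : ∀ F ∈ 𝓕, ∀ᶠ ε in nhdsWithin (0 : ℝ) (Ioi 0), 0 ≤ N F (x - ε • w) := by
      intro F hF
      have h2 : Filter.Tendsto (fun ε : ℝ => N F x - ε * N F w) (nhdsWithin (0 : ℝ) (Ioi 0))
          (nhds (N F x - 0 * N F w)) := by
        apply Filter.Tendsto.mono_left _ nhdsWithin_le_nhds
        exact (tendsto_const_nhds.sub (Filter.tendsto_id.mul_const _))
      rw [zero_mul, sub_zero] at h2
      filter_upwards [h2.eventually (lt_mem_nhds (hcon F hF))] with ε hε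
      rw [map_sub, map_smul, smul_eq_mul]
      exact hε.le
    have h2 := (Filter.eventually_all_finset 𝓕).2 h1
    obtain ⟨ε, hε1, hε2⟩ := (h2.and self_mem_nhdsWithin).exists
    obtain ⟨c, hc0, hc⟩ := h.cone (x - ε • w) hε1
    have h3 : l (x - ε • w) = ∑ v ∈ V, c v * l (φ v) := by
      rw [hc, map_sum]
      exact Finset.sum_congr rfl fun v _ => by rw [map_smul, smul_eq_mul]
    have h4 : 0 ≤ ∑ v ∈ V, c v * l (φ v) :=
      Finset.sum_nonneg fun v hv => mul_nonneg (hc0 v) (hpos v hv)
    rw [map_sub, map_smul, smul_eq_mul, hlx] at h3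
    have h5 : 0 < ε * l w := mul_pos hε2 hw
    linarith
  obtain ⟨F, hF, hFx⟩ := hex
  have hFV := h.sub F hF
  have hZF : ∀ v ∈ Z, v ∈ F := by
    intro v hv
    have hvV := (Finset.mem_filter.1 hv).1
    rw [hx, map_sum] at hFx
    have h1 : ∀ w ∈ Z, 0 ≤ N F (φ w) := fun w hw => h.nonneg F hF w (Finset.mem_filter.1 hw).1
    have h2 := (Finset.sum_eq_zero_iff_of_nonneg h1).1
      (le_antisymm hFx (Finset.sum_nonneg h1)) v hv
    exact (h.zero F hF v hvV).1 h2
  have hsub : φ '' {v | v ∈ V ∧ l (φ v) = 0} ⊆ φ '' (F : Set ι) := by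
    rintro _ ⟨v, hv, rfl⟩
    exact ⟨v, hZF v (Finset.mem_filter.2 hv), rfl⟩
  have heq := Submodule.eq_of_le_of_finrank_eq (Submodule.span_mono (R := ℝ) hsub)
    (by rw [hr, h.rank F hF])
  refine ⟨F, hF, fun v hv => ⟨fun h1 => hZF v (Finset.mem_filter.2 ⟨hv, h1⟩), fun h1 => ?_⟩⟩
  have h2 : φ v ∈ Submodule.span ℝ (φ '' (F : Set ι)) := Submodule.subset_span ⟨v, h1, rfl⟩
  rw [← heq] at h2
  have h3 : Submodule.span ℝ (φ '' {v | v ∈ V ∧ l (φ v) = 0}) ≤ LinearMap.ker l := by
    rw [Submodule.span_le]
    rintro _ ⟨w, hw, rfl⟩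
    exact hw.2
  exact h3 h2

/-- The linear map to homogeneous coordinates. -/
noncomputable def Psi (r : ℕ) : (E × (Fin r → ℝ)) →ₗ[ℝ] (Fin (4 + r + 1) → ℝ) where
  toFun z := Fin.snoc (α := fun _ => ℝ)
    (Fin.append (fun k : Fin 4 => z.1 k.castSucc) z.2) (z.1 4 + ∑ j, z.2 j)
  map_add' x y := by
    funext k
    refine Fin.lastCases ?_ (fun k => ?_) k
    · simp only [Fin.snoc_last, Pi.add_apply, Prod.fst_add, Prod.snd_add,
        Finset.sum_add_distrib]
      ring
    · refine Fin.addCases (fun k => ?_) (fun k => ?_) k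
      · simp only [Fin.snoc_castSucc, Fin.append_left, Pi.add_apply, Prod.fst_add]
      · simp only [Fin.snoc_castSucc, Fin.append_right, Pi.add_apply, Prod.snd_add]
  map_smul' a x := by
    funext k
    refine Fin.lastCases ?_ (fun k => ?_) k
    · simp only [Fin.snoc_last, Pi.smul_apply, Prod.smul_fst, Prod.smul_snd, smul_eq_mul,
        RingHom.id_apply, Finset.mul_sum, mul_add]
    · refine Fin.addCases (fun k => ?_) (fun k => ?_) k
      · simp only [Fin.snoc_castSucc, Fin.append_left, Pi.smul_apply, Prod.smul_fst,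
          RingHom.id_apply]
      · simp only [Fin.snoc_castSucc, Fin.append_right, Pi.smul_apply, Prod.smul_snd,
          RingHom.id_apply]

theorem Psi_last (r : ℕ) (z : E × (Fin r → ℝ)) :
    Psi r z (Fin.last _) = z.1 4 + ∑ j, z.2 j := by
  simp [Psi]

theorem Psi_left (r : ℕ) (z : E × (Fin r → ℝ)) (k : Fin 4) :
    Psi r z (Fin.castAdd r k).castSucc = z.1 k.castSucc := by
  simp only [Psi, LinearMap.coe_mk, AddHom.coe_mk, Fin.snoc_castSucc, Fin.append_left]

theorem Psi_right (r : ℕ) (z : E × (Fin r → ℝ)) (k : Fin r) :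
    Psi r z (Fin.natAdd 4 k).castSucc = z.2 k := by
  simp only [Psi, LinearMap.coe_mk, AddHom.coe_mk, Fin.snoc_castSucc, Fin.append_right]

theorem Psi_inj (r : ℕ) : Function.Injective (Psi r) := by
  rw [← LinearMap.ker_eq_bot, LinearMap.ker_eq_bot']
  intro z hz
  have h2 : z.2 = 0 := by
    funext j
    rw [← Psi_right, hz]
    rfl
  have h1 : z.1 = 0 := by
    funext k
    refine Fin.lastCases ?_ (fun k => ?_) k
    · have h3 := Psi_last r z
      rw [hz, h2] at h3
      simp only [Pi.zero_apply, Finset.sum_const_zero, add_zero] at h3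
      exact h3.symm
    · rw [← Psi_left, hz]
      rfl
  exact Prod.ext h1 h2

/-- The linear equivalence. -/
noncomputable def PsiE (r : ℕ) : (E × (Fin r → ℝ)) ≃ₗ[ℝ] (Fin (4 + r + 1) → ℝ) :=
  LinearEquiv.ofInjectiveOfFinrankEq (Psi r) (Psi_inj r) (by
    rw [Module.finrank_prod, Module.finrank_fin_fun, Module.finrank_fin_fun,
      Module.finrank_fin_fun]
    omega)

theorem PsiE_apply (r : ℕ) (z : E × (Fin r → ℝ)) : PsiE r z = Psi r z := rfl

/-- Dimension of a product of subspaces. -/
theorem finrank_prod' {M M' : Type} [AddCommGroup M] [Module ℝ M] [AddCommGroup M']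
    [Module ℝ M'] [FiniteDimensional ℝ M] [FiniteDimensional ℝ M']
    (A : Submodule ℝ M) (C : Submodule ℝ M') :
    Module.finrank ℝ (A.prod C) = Module.finrank ℝ A + Module.finrank ℝ C := by
  rw [← Module.finrank_prod]
  let e : (A.prod C) ≃ₗ[ℝ] A × C :=
    { toFun := fun x => (⟨x.1.1, x.2.1⟩, ⟨x.1.2, x.2.2⟩)
      map_add' := fun x y => rfl
      map_smul' := fun c x => rfl
      invFun := fun y => ⟨(y.1.1, y.2.1), y.1.2, y.2.2⟩
      left_inv := fun x => rfl
      right_inv := fun y => rfl }
  exact e.finrank_eq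

/-- Dimension of a coordinate subspace. -/
theorem finrank_single {r : ℕ} (S : Set (Fin r)) :
    Module.finrank ℝ (Submodule.span ℝ ((fun j : Fin r => (Pi.single j 1 : Fin r → ℝ)) '' S)) =
      S.ncard := by
  classical
  have h1 : LinearIndependent ℝ (fun j : S => (Pi.single j.1 1 : Fin r → ℝ)) := by
    have h2 := (Pi.basisFun ℝ (Fin r)).linearIndependent
    have h3 := h2.comp (Subtype.val : S → Fin r) Subtype.val_injective
    have h4 : (fun j : S => (Pi.single j.1 1 : Fin r → ℝ)) =
        (fun j => Pi.basisFun ℝ (Fin r) j) ∘ (Subtype.val : S → Fin r) := by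
      funext j
      simp
    rw [h4]
    exact h3
  have h5 : (fun j : Fin r => (Pi.single j 1 : Fin r → ℝ)) '' S =
      range (fun j : S => (Pi.single j.1 1 : Fin r → ℝ)) := by
    rw [image_eq_range]
  have : Fintype S := S.toFinite.fintype
  rw [h5, finrank_span_eq_card h1, ← Nat.card_coe_set_eq, Nat.card_eq_fintype_card]

/-- The points in the product space. -/
noncomputable def q {m r : ℕ} (a : Fin m → E) : Fin (m + r) → E × (Fin r → ℝ) :=
  Fin.append (fun i => (a i, 0)) (fun j => (0, Pi.single j 1))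

theorem q_left {m r : ℕ} (a : Fin m → E) (i : Fin m) :
    q (r := r) a (Fin.castAdd r i) = (a i, 0) := by
  simp only [q, Fin.append_left]

theorem q_right {m r : ℕ} (a : Fin m → E) (j : Fin r) :
    q (r := r) a (Fin.natAdd m j) = (0, Pi.single j 1) := by
  simp only [q, Fin.append_right]

/-- Rank of a subset of the points. -/
theorem rank_q {m r : ℕ} (a : Fin m → E) (S : Set (Fin (m + r))) :
    Module.finrank ℝ (Submodule.span ℝ (q (r := r) a '' S)) =
      Module.finrank ℝ (Submodule.span ℝ (a '' {i | Fin.castAdd r i ∈ S})) +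
        {j : Fin r | Fin.natAdd m j ∈ S}.ncard := by
  rw [← finrank_single, ← finrank_prod', ← LinearMap.span_inl_union_inr]
  have h : q (r := r) a '' S = (LinearMap.inl ℝ E (Fin r → ℝ)) '' (a '' {i | Fin.castAdd r i ∈ S}) ∪
      (LinearMap.inr ℝ E (Fin r → ℝ)) ''
        ((fun j : Fin r => (Pi.single j 1 : Fin r → ℝ)) '' {j : Fin r | Fin.natAdd m j ∈ S}) := by
    ext z
    constructor
    · rintro ⟨i, hi, rfl⟩
      revert hi
      refine Fin.addCases (fun i hi => ?_) (fun i hi => ?_) i
      · left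
        refine ⟨a i, ⟨i, hi, rfl⟩, ?_⟩
        rw [q_left]; rfl
      · right
        refine ⟨_, ⟨i, hi, rfl⟩, ?_⟩
        rw [q_right]; rfl
    · rintro (⟨_, ⟨i, hi, rfl⟩, rfl⟩ | ⟨_, ⟨i, hi, rfl⟩, rfl⟩)
      · exact ⟨Fin.castAdd r i, hi, by rw [q_left]; rfl⟩
      · exact ⟨Fin.natAdd m i, hi, by rw [q_right]; rfl⟩
  rw [h]

/-- Rescaling. -/
theorem span_scale {W ι : Type} [AddCommGroup W] [Module ℝ W] (f : ι → W) (c : ι → ℝ)
    (S : Set ι) (hc : ∀ i ∈ S, c i ≠ 0) :
    Submodule.span ℝ ((fun i => c i • f i) '' S) = Submodule.span ℝ (f '' S) := by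
  apply le_antisymm
  · rw [Submodule.span_le]
    rintro _ ⟨i, hi, rfl⟩
    exact Submodule.smul_mem _ _ (Submodule.subset_span ⟨i, hi, rfl⟩)
  · rw [Submodule.span_le]
    rintro _ ⟨i, hi, rfl⟩
    have h1 : c i • f i ∈ Submodule.span ℝ ((fun i => c i • f i) '' S) :=
      Submodule.subset_span ⟨i, hi, rfl⟩
    have h2 := Submodule.smul_mem _ (c i)⁻¹ h1
    rw [smul_smul, inv_mul_cancel₀ (hc i hi), one_smul] at h2
    exact h2

/-- The points in euclidean space. -/
noncomputable def pt {m r : ℕ} (a : Fin m → E) (i : Fin (m + r)) : MembG.E (4 + r) :=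
  WithLp.toLp 2 (fun k => Psi r (q a i) k.castSucc)

theorem hom_pt {m r : ℕ} (a : Fin m → E) (ha : ∀ i, a i 4 = 1) (i : Fin (m + r)) :
    MembG.hom (pt a i) = Psi r (q a i) := by
  funext k
  refine Fin.lastCases ?_ (fun k => ?_) k
  · rw [MembG.hom_last, Psi_last]
    refine Fin.addCases (fun i => ?_) (fun i => ?_) i
    · rw [q_left]; simp [ha]
    · rw [q_right]; simp
  · rw [MembG.hom_castSucc]
    rfl

theorem dist_pt {m r : ℕ} (a : Fin m → E) (ha : ∀ i, a i 4 = 1) (hl : ∀ i, B (a i) (a i) = 0)
    (i : Fin (m + r)) : dist (pt a i) 0 = 1 := by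
  have h1 : dist (pt a i) 0 ^ 2 = 1 := by
    rw [MembG.dist_sq, Fin.sum_univ_add]
    have h2 : ∀ k, (pt a i k - (0 : MembG.E (4 + r)) k) ^ 2 = (Psi r (q a i) k.castSucc) ^ 2 := by
      intro k
      simp [pt]
    simp only [h2, Psi_left, Psi_right]
    refine Fin.addCases (fun i => ?_) (fun i => ?_) i
    · rw [q_left]
      have h3 := hl i
      have h4 := ha i
      simp only [B, h4] at h3
      simp only [Fin.sum_univ_four, Pi.zero_apply]
      simp only [ne_eq, OfNat.ofNat_ne_zero, not_false_eq_true, zero_pow,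
        Finset.sum_const_zero, add_zero]
      have e0 : (Fin.castSucc (0 : Fin 4)) = (0 : Fin 5) := rfl
      have e1 : (Fin.castSucc (1 : Fin 4)) = (1 : Fin 5) := rfl
      have e2 : (Fin.castSucc (2 : Fin 4)) = (2 : Fin 5) := rfl
      have e3 : (Fin.castSucc (3 : Fin 4)) = (3 : Fin 5) := rfl
      rw [e0, e1, e2, e3]
      linarith
    · rw [q_right]
      simp only [Pi.zero_apply, ne_eq, OfNat.ofNat_ne_zero, not_false_eq_true, zero_pow,
        Finset.sum_const_zero, zero_add]
      rw [Finset.sum_eq_single i]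
      · simp
      · intro j _ hj
        simp [hj]
      · intro h; exact absurd (Finset.mem_univ _) h
  have h5 : (0 : ℝ) ≤ dist (pt a i) 0 := dist_nonneg
  nlinarith

/-- The rank in homogeneous coordinates. -/
theorem rank_hom {m r : ℕ} (a : Fin m → E) (ha : ∀ i, a i 4 = 1) (S : Set (Fin (m + r))) :
    Module.finrank ℝ (Submodule.span ℝ ((fun i => MembG.hom (pt a i)) '' S)) =
      Module.finrank ℝ (Submodule.span ℝ (a '' {i | Fin.castAdd r i ∈ S})) +
        {j : Fin r | Fin.natAdd m j ∈ S}.ncard := by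
  rw [← rank_q]
  have h1 : (fun i => MembG.hom (pt a i)) '' S = (PsiE r : _ →ₗ[ℝ] _) '' (q (r := r) a '' S) := by
    rw [image_image]
    exact image_congr fun i _ => hom_pt a ha i
  rw [h1, ← Submodule.map_span]
  exact (PsiE r).finrank_map_eq _

/-- Functionals on homogeneous coordinates. -/
theorem functionals {m r : ℕ} (a : Fin m → E) (ha : ∀ i, a i 4 = 1)
    (P : (Fin m → ℝ) → (Fin r → ℝ) → Prop) :
    (∃ g : (Fin (4 + r + 1) → ℝ) →ₗ[ℝ] ℝ, P (fun i => g (MembG.hom (pt a (Fin.castAdd r i))))
      (fun j => g (MembG.hom (pt a (Fin.natAdd m j))))) ↔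
    ∃ (l : Du) (w : Fin r → ℝ), P (fun i => l (a i)) w := by
  constructor
  · rintro ⟨g, hg⟩
    refine ⟨g.comp ((Psi r).comp (LinearMap.inl ℝ E (Fin r → ℝ))),
      fun j => g (MembG.hom (pt a (Fin.natAdd m j))), ?_⟩
    have h1 : (fun i => g (MembG.hom (pt a (Fin.castAdd r i)))) =
        fun i => (g.comp ((Psi r).comp (LinearMap.inl ℝ E (Fin r → ℝ)))) (a i) := by
      funext i
      rw [hom_pt a ha, q_left]
      rfl
    rw [← h1]
    exact hg
  · rintro ⟨l, w, h⟩
    let g : (Fin (4 + r + 1) → ℝ) →ₗ[ℝ] ℝ :=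
      (l.coprod (∑ j, w j • LinearMap.proj j)).comp (PsiE r).symm.toLinearMap
    have hg : ∀ z, g (Psi r z) = l z.1 + ∑ j, w j * z.2 j := by
      intro z
      have h1 : (PsiE r).symm (Psi r z) = z := (PsiE r).symm_apply_apply z
      simp only [g, LinearMap.comp_apply, LinearEquiv.coe_coe, h1, LinearMap.coprod_apply,
        LinearMap.sum_apply, LinearMap.smul_apply, LinearMap.proj_apply, smul_eq_mul]
    refine ⟨g, ?_⟩
    have h1 : (fun i => g (MembG.hom (pt a (Fin.castAdd r i)))) = fun i => l (a i) := by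
      funext i
      rw [hom_pt a ha, q_left, hg]
      simp
    have h2 : (fun j => g (MembG.hom (pt a (Fin.natAdd m j)))) = w := by
      funext j
      rw [hom_pt a ha, q_right, hg]
      simp [Pi.single_apply]
    rw [h1, h2]
    exact h

theorem forall_add {m r : ℕ} (P : Fin (m + r) → Prop) :
    (∀ i, P i) ↔ (∀ i, P (Fin.castAdd r i)) ∧ ∀ j, P (Fin.natAdd m j) :=
  ⟨fun h => ⟨fun _ => h _, fun _ => h _⟩,
    fun h i => Fin.addCases (fun i => h.1 i) (fun j => h.2 j) i⟩

end Upp

open Upp Set in
theorem claimUp : ClaimUp := by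
  rintro d Vs Fs hd hnd hsub ⟨φ, N, hR⟩
  obtain ⟨r, rfl⟩ := Nat.exists_eq_add_of_le hd
  rw [Fsp.instOf_eq]
  refine ⟨fun G hG => Fsp.inst_range r Vs Fs hsub G hG, ?_⟩
  have hV : ∀ i : Fin Vs.length, Vs.get i ∈ Vs.toFinset := fun i =>
    List.mem_toFinset.2 (List.get_mem _ _)
  set a : Fin Vs.length → E := fun i => (φ (Vs.get i) 4)⁻¹ • φ (Vs.get i) with ha_def
  have hpos : ∀ i : Fin Vs.length, 0 < φ (Vs.get i) 4 := fun i => (hR.light _ (hV i)).2
  have ha : ∀ i, a i 4 = 1 := fun i => by
    simp only [ha_def, Pi.smul_apply, smul_eq_mul]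
    exact inv_mul_cancel₀ (hpos i).ne'
  have hl : ∀ i, B (a i) (a i) = 0 := fun i => by
    have h1 := (hR.light _ (hV i)).1
    simp only [ha_def, B, Pi.smul_apply, smul_eq_mul] at h1 ⊢
    linear_combination (φ (Vs.get i) 4)⁻¹ ^ 2 * h1
  have hspan : ∀ S : Set (Fin Vs.length), Submodule.span ℝ (a '' S) =
      Submodule.span ℝ (φ '' ((fun i => Vs.get i) '' S)) := by
    intro S
    rw [image_image]
    exact span_scale (fun i => φ (Vs.get i)) (fun i => (φ (Vs.get i) 4)⁻¹) S
      (fun i _ => inv_ne_zero (hpos i).ne')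
  have hall : (fun i => Vs.get i) '' (univ : Set (Fin Vs.length)) =
      (Vs.toFinset : Set Lab) := by
    ext v
    simp only [image_univ, mem_range, List.coe_toFinset, mem_ofPred_eq]
    exact List.mem_iff_get.symm
  have hfull : Module.finrank ℝ (Submodule.span ℝ (a '' (univ : Set (Fin Vs.length)))) = 5 := by
    rw [hspan, hall, hR.full, finrank_top, Module.finrank_fin_fun]
  have hint : (interior (convexHull ℝ (range (pt (r := r) a)))).Nonempty := by
    rw [Fsp.interior_span, ← image_univ]
    apply Submodule.eq_top_of_finrank_eq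
    rw [rank_hom a ha, Module.finrank_fin_fun]
    have h1 : {i : Fin Vs.length | Fin.castAdd r i ∈ (univ : Set (Fin (Vs.length + r)))} =
        univ := by ext; simp
    have h2 : {j : Fin r | Fin.natAdd Vs.length j ∈ (univ : Set (Fin (Vs.length + r)))} =
        univ := by ext; simp
    rw [h1, h2, hfull, ncard_univ, Nat.card_eq_fintype_card, Fintype.card_fin]
    omega
  refine ⟨pt a, _, rfl, hint, ?_, MembG.extreme_sphere _ 0 1 (dist_pt a ha hl),
    ⟨0, 1, dist_pt a ha hl⟩, ?_⟩
  · intro i j hij
    have h1 : Psi r (q a i) = Psi r (q a j) := by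
      rw [← hom_pt a ha, ← hom_pt a ha, hij]
    have h2 := Psi_inj r h1
    revert h2
    refine Fin.addCases (fun i => ?_) (fun i => ?_) i
    · refine Fin.addCases (fun j => ?_) (fun j => ?_) j
      · rw [q_left, q_left]
        intro h2
        by_contra hne
        have h3 : Vs.get i ≠ Vs.get j := by
          intro h4
          apply hne
          rw [List.nodup_iff_injective_get.1 hnd h4]
        apply hR.inj _ (hV i) _ (hV j) h3 (φ (Vs.get j) 4 * (φ (Vs.get i) 4)⁻¹)
        have h5 : (φ (Vs.get i) 4)⁻¹ • φ (Vs.get i) = (φ (Vs.get j) 4)⁻¹ • φ (Vs.get j) :=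
          congrArg Prod.fst h2
        rw [mul_smul, h5, smul_smul, mul_inv_cancel₀ (hpos j).ne', one_smul]
      · rw [q_left, q_right]
        intro h2
        have h3 := congrFun (congrArg Prod.snd h2) j
        simp at h3
    · refine Fin.addCases (fun j => ?_) (fun j => ?_) j
      · rw [q_left, q_right]
        intro h2
        have h3 := congrFun (congrArg Prod.snd h2) i
        simp at h3
      · rw [q_right, q_right]
        intro h2
        have h3 := congrFun (congrArg Prod.snd h2) i
        by_contra hne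
        have h4 : i ≠ j := fun h => hne (by rw [h])
        simp [h4] at h3
  · ext S
    rw [mem_ofPred_eq, mem_ofPred_eq, Fsp.facet_span _ (by omega) hint, Fsp.inst_mem r Vs Fs hnd hsub]
    simp only [forall_add, rank_hom a ha]
    rw [functionals a ha (fun x y => ((∀ i, 0 ≤ x i) ∧ ∀ j, 0 ≤ y j) ∧
      ((∀ i, x i = 0 ↔ Fin.castAdd r i ∈ S) ∧ ∀ j, y j = 0 ↔ Fin.natAdd Vs.length j ∈ S) ∧
      Module.finrank ℝ (Submodule.span ℝ (a '' {i | Fin.castAdd r i ∈ S})) +
        {j : Fin r | Fin.natAdd Vs.length j ∈ S}.ncard = 4 + r)]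
    have hcard : ∀ T : Set (Fin r), T.ncard ≤ r := fun T => by
      have h1 := ncard_le_ncard (subset_univ T)
      rwa [ncard_univ, Nat.card_eq_fintype_card, Fintype.card_fin] at h1
    constructor
    · rintro ⟨l, w, ⟨h1, h2⟩, ⟨h3, h4⟩, h5⟩
      by_cases hl0 : l = 0
      · right
        have h6 : {i | Fin.castAdd r i ∈ S} = univ := by
          ext i
          simp only [mem_ofPred_eq, mem_univ, iff_true]
          exact (h3 i).1 (by rw [hl0]; rfl)
        rw [h6, hfull] at h5
        have h7 : ({j : Fin r | Fin.natAdd Vs.length j ∈ S}ᶜ).ncard = 1 := by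
          have h8 := ncard_add_ncard_compl {j : Fin r | Fin.natAdd Vs.length j ∈ S}
          rw [Nat.card_eq_fintype_card, Fintype.card_fin] at h8
          omega
        obtain ⟨j0, hj0⟩ := ncard_eq_one.1 h7
        refine ⟨j0, fun i => ?_, fun j => ?_⟩
        · have : i ∈ {i | Fin.castAdd r i ∈ S} := by rw [h6]; trivial
          exact this
        · have h8 := Set.ext_iff.1 hj0 j
          rw [mem_compl_iff, mem_ofPred_eq, mem_singleton_iff] at h8
          constructor
          · intro h9 h10
            exact h8.2 h10 h9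
          · intro h9
            by_contra h10
            exact h9 (h8.1 h10)
      · left
        have hset : (fun i => Vs.get i) '' {i | Fin.castAdd r i ∈ S} =
            {v | v ∈ Vs.toFinset ∧ l (φ v) = 0} := by
          ext v
          constructor
          · rintro ⟨i, hi, rfl⟩
            refine ⟨hV i, ?_⟩
            have h6 := (h3 i).2 hi
            simp only [ha_def, map_smul, smul_eq_mul] at h6
            rcases mul_eq_zero.1 h6 with h7 | h7
            · exact absurd h7 (inv_ne_zero (hpos i).ne')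
            · exact h7
          · rintro ⟨hv, hv0⟩
            obtain ⟨i, rfl⟩ := List.mem_iff_get.1 (List.mem_toFinset.1 hv)
            refine ⟨i, (h3 i).1 ?_, rfl⟩
            simp only [ha_def, map_smul, smul_eq_mul]
            rw [hv0, mul_zero]
        rw [hspan, hset] at h5
        have hle : Module.finrank ℝ (Submodule.span ℝ
            (φ '' {v | v ∈ Vs.toFinset ∧ l (φ v) = 0})) ≤ 4 := by
          have h6 : Submodule.span ℝ (φ '' {v | v ∈ Vs.toFinset ∧ l (φ v) = 0}) ≤
              LinearMap.ker l := by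
            rw [Submodule.span_le]
            rintro _ ⟨v, hv, rfl⟩
            exact hv.2
          have h7 := Submodule.finrank_mono h6
          have h8 := Module.Dual.finrank_ker_add_one_of_ne_zero hl0
          rw [Module.finrank_fin_fun] at h8
          omega
        have h6 := hcard {j : Fin r | Fin.natAdd Vs.length j ∈ S}
        have h7 : {j : Fin r | Fin.natAdd Vs.length j ∈ S}.ncard = r := by omega
        have h8 : {j : Fin r | Fin.natAdd Vs.length j ∈ S} = univ := by
          apply eq_of_subset_of_ncard_le (subset_univ _)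
          rw [ncard_univ, Nat.card_eq_fintype_card, Fintype.card_fin, h7]
        have hlpos : ∀ v ∈ Vs.toFinset, 0 ≤ l (φ v) := by
          intro v hv
          obtain ⟨i, rfl⟩ := List.mem_iff_get.1 (List.mem_toFinset.1 hv)
          have h9 := h1 i
          simp only [ha_def, map_smul, smul_eq_mul] at h9
          by_contra h10
          push Not at h10
          have h11 := mul_neg_of_pos_of_neg (inv_pos.2 (hpos i)) h10
          linarith
        obtain ⟨F, hF, hF2⟩ := complete hR l hl0 hlpos (by omega)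
        simp only [fsets, List.mem_toFinset, List.mem_map] at hF
        obtain ⟨F', hF', rfl⟩ := hF
        refine ⟨F', hF', fun i => ?_, fun j => ?_⟩
        · rw [← List.mem_toFinset (l := F'), ← hF2 _ (hV i), ← h3 i]
          simp only [ha_def, map_smul, smul_eq_mul, mul_eq_zero]
          constructor
          · rintro (h9 | h9)
            · exact absurd h9 (inv_ne_zero (hpos i).ne')
            · exact h9
          · exact Or.inr
        · have : j ∈ {j : Fin r | Fin.natAdd Vs.length j ∈ S} := by rw [h8]; trivial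
          exact this
    · rintro (⟨F, hF, h1, h2⟩ | ⟨j0, h1, h2⟩)
      · have hF' : F.toFinset ∈ fsets Fs := by
          simp only [fsets, List.mem_toFinset, List.mem_map]
          exact ⟨F, hF, rfl⟩
        refine ⟨N F.toFinset, 0, ⟨fun i => ?_, fun j => le_rfl⟩, ⟨fun i => ?_, fun j => ?_⟩, ?_⟩
        · simp only [ha_def, map_smul, smul_eq_mul]
          exact mul_nonneg (inv_pos.2 (hpos i)).le (hR.nonneg _ hF' _ (hV i))
        · rw [h1 i, ← List.mem_toFinset, ← hR.zero _ hF' _ (hV i)]
          simp only [ha_def, map_smul, smul_eq_mul, mul_eq_zero]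
          constructor
          · rintro (h9 | h9)
            · exact absurd h9 (inv_ne_zero (hpos i).ne')
            · exact h9
          · exact Or.inr
        · exact ⟨fun _ => h2 j, fun _ => rfl⟩
        · have hset : (fun i => Vs.get i) '' {i | Fin.castAdd r i ∈ S} =
              (F.toFinset : Set Lab) := by
            ext v
            constructor
            · rintro ⟨i, hi, rfl⟩
              exact Finset.mem_coe.2 (List.mem_toFinset.2 ((h1 i).1 hi))
            · intro hv
              have hv' := List.mem_toFinset.1 (Finset.mem_coe.1 hv)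
              obtain ⟨i, rfl⟩ := List.mem_iff_get.1 (hsub F hF hv')
              exact ⟨i, (h1 i).2 hv', rfl⟩
          have h8 : {j : Fin r | Fin.natAdd Vs.length j ∈ S} = univ := by
            ext j
            simp [h2 j]
          rw [hspan, hset, hR.rank _ hF', h8, ncard_univ, Nat.card_eq_fintype_card,
            Fintype.card_fin]
      · refine ⟨0, Pi.single j0 1, ⟨fun i => le_rfl, fun j => ?_⟩,
          ⟨fun i => ⟨fun _ => h1 i, fun _ => rfl⟩, fun j => ?_⟩, ?_⟩
        · by_cases hj : j = j0
          · rw [hj]; simp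
          · simp [hj]
        · rw [h2 j]
          by_cases hj : j = j0
          · rw [hj]; simp
          · simp [hj]
        · have h6 : {i | Fin.castAdd r i ∈ S} = univ := by
            ext i
            simp [h1 i]
          have h7 : {j : Fin r | Fin.natAdd Vs.length j ∈ S} = {j0}ᶜ := by
            ext j
            simp [h2 j]
          have h8 := ncard_add_ncard_compl {j0}
          rw [Nat.card_eq_fintype_card, Fintype.card_fin, ncard_singleton] at h8
          rw [h6, h7, hfull]
          omega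

end Pool.Agent.Work.MP_5b14b0_lc
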